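import Pool.Agent.Helper203.GV.Defs

open MeasureTheory Filter Topology Set

noncomputable section

namespace Pool.Agent.Helper203.GV

theorem wt_pos (β c : ℝ) (n : ℕ) : 0 < wt β c n := Real.exp_pos (c * (n : ℝ) ^ β)

theorem wt_mono {β c c' : ℝ} (h : c' ≤ c) (n : ℕ) : wt β c' n ≤ wt β c n := by
  unfold wt
  apply Real.exp_le_exp.mpr
  exact mul_le_mul_of_nonneg_right h (Real.rpow_nonneg (Nat.cast_nonneg n) β)

theorem one_le_wt {β c : ℝ} (hc : 0 ≤ c) (n : ℕ) : 1 ≤ wt β c n := by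
  unfold wt
  apply Real.one_le_exp
  exact mul_nonneg hc (Real.rpow_nonneg (Nat.cast_nonneg n) β)

theorem wt_mono_right {β c : ℝ} (hβ : 0 < β) (hc : 0 ≤ c) {m n : ℕ} (h : m ≤ n) :
    wt β c m ≤ wt β c n := by
  unfold wt
  apply Real.exp_le_exp.mpr
  apply mul_le_mul_of_nonneg_left _ hc
  exact Real.rpow_le_rpow (Nat.cast_nonneg m) (by exact_mod_cast h) hβ.le

theorem wt_add_le {β c : ℝ} (hβ0 : 0 < β) (hβ1 : β ≤ 1) (hc : 0 ≤ c) (m n : ℕ) :
    wt β c (m + n) ≤ wt β c m * wt β c n := by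
  unfold wt
  rw [← Real.exp_add, ← mul_add]
  apply Real.exp_le_exp.mpr
  apply mul_le_mul_of_nonneg_left _ hc
  have h := NNReal.rpow_add_le_add_rpow (m : NNReal) (n : NNReal) hβ0.le hβ1
  have h2 : (((m : NNReal) + (n : NNReal)) ^ β : NNReal) ≤
    (m : NNReal) ^ β + (n : NNReal) ^ β := h
  have h3 := NNReal.coe_le_coe.mpr h2
  push_cast at h3 ⊢
  exact h3

theorem nrm_nonneg (β c : ℝ) (p : PowerSeries ℂ) : 0 ≤ nrm β c p :=
  tsum_nonneg fun n => mul_nonneg (norm_nonneg _) (wt_pos β c n).le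

theorem FW.mono {β c c' : ℝ} (h : c' ≤ c) {p : PowerSeries ℂ} (hp : FW β c p) : FW β c' p :=
  Summable.of_nonneg_of_le (fun n => mul_nonneg (norm_nonneg _) (wt_pos β c' n).le)
    (fun n => mul_le_mul_of_nonneg_left (wt_mono h n) (norm_nonneg _)) hp

theorem nrm_mono {β c c' : ℝ} (h : c' ≤ c) {p : PowerSeries ℂ} (hp : FW β c p) :
    nrm β c' p ≤ nrm β c p :=
  (FW.mono h hp).tsum_le_tsum
    (fun n => mul_le_mul_of_nonneg_left (wt_mono h n) (norm_nonneg _)) hp

theorem FW.summable {β c : ℝ} (hc : 0 ≤ c) {p : PowerSeries ℂ} (hp : FW β c p) :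
    Summable fun n => ‖PowerSeries.coeff n p‖ :=
  Summable.of_nonneg_of_le (fun n => norm_nonneg _)
    (fun n => le_mul_of_one_le_right (norm_nonneg _) (one_le_wt hc n)) hp

theorem add_term_le (β c : ℝ) (p q : PowerSeries ℂ) (n : ℕ) :
    ‖PowerSeries.coeff n (p + q)‖ * wt β c n ≤
      ‖PowerSeries.coeff n p‖ * wt β c n + ‖PowerSeries.coeff n q‖ * wt β c n := by
  rw [map_add, ← add_mul]
  exact mul_le_mul_of_nonneg_right (norm_add_le _ _) (wt_pos β c n).le

theorem FW.add {β c : ℝ} {p q : PowerSeries ℂ} (hp : FW β c p) (hq : FW β c q) :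
    FW β c (p + q) :=
  Summable.of_nonneg_of_le (fun n => mul_nonneg (norm_nonneg _) (wt_pos β c n).le)
    (add_term_le β c p q) (Summable.add hp hq)

theorem nrm_add_le {β c : ℝ} {p q : PowerSeries ℂ} (hp : FW β c p) (hq : FW β c q) :
    nrm β c (p + q) ≤ nrm β c p + nrm β c q := by
  unfold nrm
  rw [← Summable.tsum_add hp hq]
  exact (FW.add hp hq).tsum_le_tsum (add_term_le β c p q) (Summable.add hp hq)

theorem smul_term (β c : ℝ) (p : PowerSeries ℂ) (a : ℂ) (n : ℕ) :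
    ‖PowerSeries.coeff n (a • p)‖ * wt β c n = ‖a‖ * (‖PowerSeries.coeff n p‖ * wt β c n) := by
  rw [PowerSeries.coeff_smul, smul_eq_mul, norm_mul, mul_assoc]

theorem FW.smul {β c : ℝ} {p : PowerSeries ℂ} (hp : FW β c p) (a : ℂ) : FW β c (a • p) := by
  unfold FW
  simp_rw [smul_term]
  exact Summable.mul_left _ hp

theorem nrm_smul {β c : ℝ} {p : PowerSeries ℂ} (hp : FW β c p) (a : ℂ) :
    nrm β c (a • p) = ‖a‖ * nrm β c p := by
  unfold nrm
  simp_rw [smul_term]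
  exact Summable.tsum_mul_left _ hp

theorem FW.neg {β c : ℝ} {p : PowerSeries ℂ} (hp : FW β c p) : FW β c (-p) := by
  have h := FW.smul hp (-1)
  rwa [neg_one_smul] at h

theorem FW.sub {β c : ℝ} {p q : PowerSeries ℂ} (hp : FW β c p) (hq : FW β c q) :
    FW β c (p - q) := by
  rw [sub_eq_add_neg]
  exact FW.add hp (FW.neg hq)

theorem mul_term_le {β c : ℝ} (hβ0 : 0 < β) (hβ1 : β ≤ 1) (hc : 0 ≤ c) (p q : PowerSeries ℂ)
    (n : ℕ) : ‖PowerSeries.coeff n (p * q)‖ * wt β c n ≤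
      ∑ kl ∈ Finset.HasAntidiagonal.antidiagonal n, (‖PowerSeries.coeff kl.1 p‖ * wt β c kl.1) *
        (‖PowerSeries.coeff kl.2 q‖ * wt β c kl.2) := by
  rw [PowerSeries.coeff_mul]
  refine (mul_le_mul_of_nonneg_right (norm_sum_le _ _) (wt_pos β c n).le).trans ?_
  rw [Finset.sum_mul]
  refine Finset.sum_le_sum fun kl hkl => ?_
  rw [Finset.HasAntidiagonal.mem_antidiagonal] at hkl
  rw [norm_mul, ← hkl]
  have h := wt_add_le hβ0 hβ1 hc kl.1 kl.2
  calc ‖PowerSeries.coeff kl.1 p‖ * ‖PowerSeries.coeff kl.2 q‖ * wt β c (kl.1 + kl.2)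
      ≤ ‖PowerSeries.coeff kl.1 p‖ * ‖PowerSeries.coeff kl.2 q‖ * (wt β c kl.1 * wt β c kl.2) :=
        mul_le_mul_of_nonneg_left h (by positivity)
    _ = _ := by ring

theorem norm_term (β c : ℝ) (p : PowerSeries ℂ) (n : ℕ) :
    ‖‖PowerSeries.coeff n p‖ * wt β c n‖ = ‖PowerSeries.coeff n p‖ * wt β c n := by
  rw [Real.norm_eq_abs, abs_of_nonneg (mul_nonneg (norm_nonneg _) (wt_pos β c n).le)]

theorem prod_summable {β c : ℝ} {p q : PowerSeries ℂ} (hp : FW β c p) (hq : FW β c q) :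
    Summable fun n => ∑ kl ∈ Finset.HasAntidiagonal.antidiagonal n, (‖PowerSeries.coeff kl.1 p‖ * wt β c kl.1) *
        (‖PowerSeries.coeff kl.2 q‖ * wt β c kl.2) := by
  have hp' : Summable fun n => ‖‖PowerSeries.coeff n p‖ * wt β c n‖ := by
    simp_rw [norm_term]; exact hp
  have hq' : Summable fun n => ‖‖PowerSeries.coeff n q‖ * wt β c n‖ := by
    simp_rw [norm_term]; exact hq
  exact (summable_norm_sum_mul_antidiagonal_of_summable_norm hp' hq').of_norm

theorem FW.mul {β c : ℝ} (hβ0 : 0 < β) (hβ1 : β ≤ 1) (hc : 0 ≤ c) {p q : PowerSeries ℂ}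
    (hp : FW β c p) (hq : FW β c q) : FW β c (p * q) :=
  Summable.of_nonneg_of_le (fun n => mul_nonneg (norm_nonneg _) (wt_pos β c n).le)
    (mul_term_le hβ0 hβ1 hc p q) (prod_summable hp hq)

theorem nrm_mul_le {β c : ℝ} (hβ0 : 0 < β) (hβ1 : β ≤ 1) (hc : 0 ≤ c) {p q : PowerSeries ℂ}
    (hp : FW β c p) (hq : FW β c q) : nrm β c (p * q) ≤ nrm β c p * nrm β c q := by
  have hp' : Summable fun n => ‖‖PowerSeries.coeff n p‖ * wt β c n‖ := by
    simp_rw [norm_term]; exact hp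
  have hq' : Summable fun n => ‖‖PowerSeries.coeff n q‖ * wt β c n‖ := by
    simp_rw [norm_term]; exact hq
  unfold nrm
  rw [tsum_mul_tsum_eq_tsum_sum_antidiagonal_of_summable_norm hp' hq']
  exact (FW.mul hβ0 hβ1 hc hp hq).tsum_le_tsum (mul_term_le hβ0 hβ1 hc p q) (prod_summable hp hq)

theorem FW_C {β c : ℝ} (a : ℂ) : FW β c (PowerSeries.C a) := by
  unfold FW
  refine summable_of_ne_finset_zero (s := {0}) fun n hn => ?_
  rw [Finset.mem_singleton] at hn
  rw [PowerSeries.coeff_C, if_neg hn, norm_zero, zero_mul]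

theorem FW_X {β c : ℝ} : FW β c (PowerSeries.X) := by
  unfold FW
  refine summable_of_ne_finset_zero (s := {1}) fun n hn => ?_
  rw [Finset.mem_singleton] at hn
  rw [PowerSeries.coeff_X, if_neg hn, norm_zero, zero_mul]

theorem AA.two {β : ℝ} {p q : PowerSeries ℂ} (hp : AA β p) (hq : AA β q) :
    ∃ c : ℝ, 0 < c ∧ FW β c p ∧ FW β c q := by
  obtain ⟨c, hc, hp⟩ := hp
  obtain ⟨c', hc', hq⟩ := hq
  exact ⟨min c c', lt_min hc hc', FW.mono (min_le_left _ _) hp, FW.mono (min_le_right _ _) hq⟩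

theorem AA.add {β : ℝ} {p q : PowerSeries ℂ} (hp : AA β p) (hq : AA β q) : AA β (p + q) := by
  obtain ⟨c, hc, hp, hq⟩ := AA.two hp hq
  exact ⟨c, hc, FW.add hp hq⟩

theorem AA.sub {β : ℝ} {p q : PowerSeries ℂ} (hp : AA β p) (hq : AA β q) : AA β (p - q) := by
  obtain ⟨c, hc, hp, hq⟩ := AA.two hp hq
  exact ⟨c, hc, FW.sub hp hq⟩

theorem AA.smul {β : ℝ} {p : PowerSeries ℂ} (hp : AA β p) (a : ℂ) : AA β (a • p) := by
  obtain ⟨c, hc, hp⟩ := hp
  exact ⟨c, hc, FW.smul hp a⟩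

theorem AA.mul {β : ℝ} (hβ0 : 0 < β) (hβ1 : β ≤ 1) {p q : PowerSeries ℂ}
    (hp : AA β p) (hq : AA β q) : AA β (p * q) := by
  obtain ⟨c, hc, hp, hq⟩ := AA.two hp hq
  exact ⟨c, hc, FW.mul hβ0 hβ1 hc.le hp hq⟩

theorem AA_C {β : ℝ} (a : ℂ) : AA β (PowerSeries.C a) := ⟨1, one_pos, FW_C a⟩

theorem AA_X {β : ℝ} : AA β (PowerSeries.X) := ⟨1, one_pos, FW_X⟩

theorem AA.summable {β : ℝ} {p : PowerSeries ℂ} (hp : AA β p) :
    Summable fun n => ‖PowerSeries.coeff n p‖ := by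
  obtain ⟨c, hc, hp⟩ := hp
  exact FW.summable hc.le hp

theorem ev_term_le (p : PowerSeries ℂ) {z : ℂ} (hz : ‖z‖ ≤ 1) (n m : ℕ) :
    ‖PowerSeries.coeff n p * z ^ m‖ ≤ ‖PowerSeries.coeff n p‖ := by
  rw [norm_mul, norm_pow]
  exact mul_le_of_le_one_right (norm_nonneg _) (pow_le_one₀ (norm_nonneg _) hz)

theorem ev_summable_norm {p : PowerSeries ℂ} (hp : Summable fun n => ‖PowerSeries.coeff n p‖)
    {z : ℂ} (hz : ‖z‖ ≤ 1) : Summable fun n => ‖PowerSeries.coeff n p * z ^ n‖ :=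
  Summable.of_nonneg_of_le (fun n => norm_nonneg _) (fun n => ev_term_le p hz n n) hp

theorem ev_summable {p : PowerSeries ℂ} (hp : Summable fun n => ‖PowerSeries.coeff n p‖)
    {z : ℂ} (hz : ‖z‖ ≤ 1) : Summable fun n => PowerSeries.coeff n p * z ^ n :=
  (ev_summable_norm hp hz).of_norm

theorem ev_add {p q : PowerSeries ℂ} (hp : Summable fun n => ‖PowerSeries.coeff n p‖)
    (hq : Summable fun n => ‖PowerSeries.coeff n q‖) {z : ℂ} (hz : ‖z‖ ≤ 1) :
    ev (p + q) z = ev p z + ev q z := by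
  unfold ev
  rw [← (ev_summable hp hz).tsum_add (ev_summable hq hz)]
  refine tsum_congr fun n => ?_
  rw [map_add, add_mul]

theorem ev_sub {p q : PowerSeries ℂ} (hp : Summable fun n => ‖PowerSeries.coeff n p‖)
    (hq : Summable fun n => ‖PowerSeries.coeff n q‖) {z : ℂ} (hz : ‖z‖ ≤ 1) :
    ev (p - q) z = ev p z - ev q z := by
  unfold ev
  rw [← (ev_summable hp hz).tsum_sub (ev_summable hq hz)]
  refine tsum_congr fun n => ?_
  rw [map_sub, sub_mul]

theorem ev_smul (p : PowerSeries ℂ) (a z : ℂ) : ev (a • p) z = a * ev p z := by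
  unfold ev
  rw [← tsum_mul_left]
  refine tsum_congr fun n => ?_
  rw [PowerSeries.coeff_smul, smul_eq_mul, mul_assoc]

theorem ev_mul {p q : PowerSeries ℂ} (hp : Summable fun n => ‖PowerSeries.coeff n p‖)
    (hq : Summable fun n => ‖PowerSeries.coeff n q‖) {z : ℂ} (hz : ‖z‖ ≤ 1) :
    ev (p * q) z = ev p z * ev q z := by
  unfold ev
  rw [tsum_mul_tsum_eq_tsum_sum_antidiagonal_of_summable_norm (ev_summable_norm hp hz)
    (ev_summable_norm hq hz)]
  refine tsum_congr fun n => ?_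
  rw [PowerSeries.coeff_mul, Finset.sum_mul]
  refine Finset.sum_congr rfl fun kl hkl => ?_
  rw [Finset.HasAntidiagonal.mem_antidiagonal] at hkl
  rw [← hkl, pow_add]
  ring

theorem ev_C (a z : ℂ) : ev (PowerSeries.C a) z = a := by
  unfold ev
  rw [tsum_eq_single 0]
  · rw [PowerSeries.coeff_C, if_pos rfl, pow_zero, mul_one]
  · intro n hn
    rw [PowerSeries.coeff_C, if_neg hn, zero_mul]

theorem ev_X (z : ℂ) : ev PowerSeries.X z = z := by
  unfold ev
  rw [tsum_eq_single 1]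
  · rw [PowerSeries.coeff_X, if_pos rfl, pow_one, one_mul]
  · intro n hn
    rw [PowerSeries.coeff_X, if_neg hn, zero_mul]

theorem ev_continuousOn {p : PowerSeries ℂ} (hp : Summable fun n => ‖PowerSeries.coeff n p‖) :
    ContinuousOn (ev p) (Metric.closedBall 0 1) := by
  refine continuousOn_tsum (u := fun n => ‖PowerSeries.coeff n p‖) (fun n => ?_) hp
    fun n z hz => ?_
  · exact (continuous_const.mul (continuous_id.pow n)).continuousOn
  · exact ev_term_le p (mem_closedBall_zero_iff.mp hz) n n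

theorem ev_differentiableOn {p : PowerSeries ℂ} (hp : Summable fun n => ‖PowerSeries.coeff n p‖) :
    DifferentiableOn ℂ (ev p) (Metric.ball 0 1) := by
  refine Complex.differentiableOn_tsum_of_summable_norm (u := fun n => ‖PowerSeries.coeff n p‖) hp
    (fun n => ?_) Metric.isOpen_ball fun n z hz => ?_
  · exact ((differentiable_const _).mul (differentiable_id.pow n)).differentiableOn
  · exact ev_term_le p (mem_ball_zero_iff.mp hz).le n n

/-- power series are determined by their values on the disc -/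
theorem ev_inj {p q : PowerSeries ℂ} (hp : Summable fun n => ‖PowerSeries.coeff n p‖)
    (hq : Summable fun n => ‖PowerSeries.coeff n q‖)
    (h : ∀ z ∈ Metric.ball (0:ℂ) 1, ev p z = ev q z) : p = q := by
  let r : FormalMultilinearSeries ℂ ℂ ℂ := fun n =>
    ContinuousMultilinearMap.mkPiRing ℂ (Fin n) (PowerSeries.coeff n (p - q))
  have hr : ∀ n, r.coeff n = PowerSeries.coeff n (p - q) := by
    intro n
    change ContinuousMultilinearMap.mkPiRing ℂ (Fin n) (PowerSeries.coeff n (p - q)) 1 = _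
    rw [ContinuousMultilinearMap.mkPiRing_apply]
    simp
  have hps : HasFPowerSeriesAt (0 : ℂ → ℂ) r 0 := by
    rw [hasFPowerSeriesAt_iff]
    filter_upwards [Metric.ball_mem_nhds (0 : ℂ) one_pos] with z hz
    have hz1 : ‖z‖ ≤ 1 := (mem_ball_zero_iff.mp hz).le
    have h1 := ((ev_summable hp hz1).sub (ev_summable hq hz1)).hasSum
    have h2 : ∑' n, (PowerSeries.coeff n p * z ^ n - PowerSeries.coeff n q * z ^ n) = 0 := by
      rw [(ev_summable hp hz1).tsum_sub (ev_summable hq hz1)]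
      exact sub_eq_zero.mpr (h z hz)
    rw [h2] at h1
    change HasSum (fun n => z ^ n • r.coeff n) 0
    have e : (fun n => z ^ n • r.coeff n) = fun n =>
        (PowerSeries.coeff n p * z ^ n - PowerSeries.coeff n q * z ^ n) := by
      funext n
      rw [hr n, map_sub, smul_eq_mul]
      ring
    rw [e]
    exact h1
  have h0 := hps.eq_zero
  ext n
  have h3 : r.coeff n = 0 := by rw [h0]; rfl
  rw [hr n, map_sub] at h3
  exact sub_eq_zero.mp h3

theorem Phi_term_le {β : ℝ} {b : ℕ → ℂ} {c C : ℝ} (hb : ∀ n, ‖b n‖ ≤ C * wt β c n)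
    (p : PowerSeries ℂ) (n : ℕ) :
    ‖b n * PowerSeries.coeff n p‖ ≤ C * (‖PowerSeries.coeff n p‖ * wt β c n) := by
  rw [norm_mul]
  calc ‖b n‖ * ‖PowerSeries.coeff n p‖ ≤ (C * wt β c n) * ‖PowerSeries.coeff n p‖ :=
        mul_le_mul_of_nonneg_right (hb n) (norm_nonneg _)
    _ = _ := by ring

theorem Phi_summable {β : ℝ} {b : ℕ → ℂ} (hb : Grow β b) {p : PowerSeries ℂ} (hp : AA β p) :
    Summable fun n => ‖b n * PowerSeries.coeff n p‖ := by
  obtain ⟨c, hc, hp⟩ := hp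
  obtain ⟨C, hC⟩ := hb c hc
  exact Summable.of_nonneg_of_le (fun n => norm_nonneg _) (Phi_term_le hC p)
    (Summable.mul_left C hp)

theorem Phi_add {β : ℝ} {b : ℕ → ℂ} (hb : Grow β b) {p q : PowerSeries ℂ} (hp : AA β p)
    (hq : AA β q) : Phi b (p + q) = Phi b p + Phi b q := by
  unfold Phi
  rw [← (Phi_summable hb hp).of_norm.tsum_add (Phi_summable hb hq).of_norm]
  refine tsum_congr fun n => ?_
  rw [map_add, mul_add]

theorem Phi_sub {β : ℝ} {b : ℕ → ℂ} (hb : Grow β b) {p q : PowerSeries ℂ} (hp : AA β p)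
    (hq : AA β q) : Phi b (p - q) = Phi b p - Phi b q := by
  unfold Phi
  rw [← (Phi_summable hb hp).of_norm.tsum_sub (Phi_summable hb hq).of_norm]
  refine tsum_congr fun n => ?_
  rw [map_sub, mul_sub]

theorem Phi_smul (b : ℕ → ℂ) (p : PowerSeries ℂ) (a : ℂ) : Phi b (a • p) = a * Phi b p := by
  unfold Phi
  rw [← tsum_mul_left]
  refine tsum_congr fun n => ?_
  rw [PowerSeries.coeff_smul, smul_eq_mul]
  ring

theorem norm_Phi_le {β : ℝ} {b : ℕ → ℂ} (hb : Grow β b) {c : ℝ} (hc : 0 < c) :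
    ∃ C : ℝ, 0 ≤ C ∧ ∀ p, FW β c p → ‖Phi b p‖ ≤ C * nrm β c p := by
  obtain ⟨C, hC⟩ := hb c hc
  have hC' : ∀ n, ‖b n‖ ≤ max C 0 * wt β c n := fun n =>
    (hC n).trans (mul_le_mul_of_nonneg_right (le_max_left _ _) (wt_pos β c n).le)
  refine ⟨max C 0, le_max_right _ _, fun p hp => ?_⟩
  have hs := Phi_summable hb ⟨c, hc, hp⟩
  unfold Phi nrm
  refine (norm_tsum_le_tsum_norm hs).trans ?_
  rw [← tsum_mul_left]
  exact hs.tsum_le_tsum (Phi_term_le hC' p) (Summable.mul_left _ hp)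

theorem Rz_mul {z : ℂ} (hz : z ≠ 0) :
    (PowerSeries.C z - PowerSeries.X) * Rz z = 1 := by
  ext n
  rw [sub_mul, map_sub, PowerSeries.coeff_C_mul]
  cases n with
  | zero =>
    rw [PowerSeries.coeff_zero_X_mul, PowerSeries.coeff_one, if_pos rfl]
    unfold Rz
    rw [PowerSeries.coeff_mk, zero_add, pow_one, mul_inv_cancel₀ hz, sub_zero]
  | succ n =>
    rw [PowerSeries.coeff_succ_X_mul, PowerSeries.coeff_one, if_neg (Nat.succ_ne_zero n)]
    unfold Rz
    rw [PowerSeries.coeff_mk, PowerSeries.coeff_mk, pow_succ' z⁻¹ (n + 1), ← mul_assoc,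
      mul_inv_cancel₀ hz, one_mul, sub_self]

/-- tail sums -/
theorem tail_rec {u : PowerSeries ℂ} (hu : Summable fun n => ‖PowerSeries.coeff n u‖) {z : ℂ}
    (hz : ‖z‖ ≤ 1) (m : ℕ) : ∑' k, PowerSeries.coeff (m + k) u * z ^ k =
      PowerSeries.coeff m u + z * ∑' k, PowerSeries.coeff (m + 1 + k) u * z ^ k := by
  have hs : ∀ m : ℕ, Summable fun k => PowerSeries.coeff (m + k) u * z ^ k := by
    intro m
    have h1 : Summable fun k => ‖PowerSeries.coeff (m + k) u‖ := by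
      have := (summable_nat_add_iff m).mpr hu
      refine this.congr fun k => ?_
      rw [add_comm]
    exact (Summable.of_nonneg_of_le (fun k => norm_nonneg _)
      (fun k => ev_term_le u hz (m + k) k) h1).of_norm
  rw [(hs m).tsum_eq_zero_add, add_zero, pow_zero, mul_one, ← tsum_mul_left]
  congr 1
  refine tsum_congr fun k => ?_
  have e : m + (k + 1) = m + 1 + k := by ring
  rw [e, pow_succ]
  ring

theorem Dq_mul {u : PowerSeries ℂ} (hu : Summable fun n => ‖PowerSeries.coeff n u‖) {z : ℂ}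
    (hz : ‖z‖ ≤ 1) :
    (PowerSeries.C z - PowerSeries.X) * Dq u z = PowerSeries.C (ev u z) - u := by
  have hD : ∀ n, PowerSeries.coeff n (Dq u z) = ∑' k, PowerSeries.coeff (n + 1 + k) u * z ^ k := by
    intro n
    unfold Dq
    rw [PowerSeries.coeff_mk]
  ext n
  rw [sub_mul, map_sub, map_sub, PowerSeries.coeff_C_mul, hD, PowerSeries.coeff_C]
  cases n with
  | zero =>
    rw [PowerSeries.coeff_zero_X_mul, if_pos rfl, sub_zero]
    have h := tail_rec hu hz 0
    have e : ∑' k, PowerSeries.coeff (0 + k) u * z ^ k = ev u z := by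
      unfold ev
      refine tsum_congr fun k => ?_
      rw [zero_add]
    rw [e] at h
    rw [h]
    ring
  | succ n =>
    rw [PowerSeries.coeff_succ_X_mul, if_neg (Nat.succ_ne_zero n), hD,
      tail_rec hu hz (n + 1)]
    ring

/-- polynomial times decaying weight is bounded -/
theorem poly_wt_bound {β δ : ℝ} (hβ : 0 < β) (hδ : 0 < δ) :
    ∃ C : ℝ, 0 ≤ C ∧ ∀ m : ℕ, ((m : ℝ) + 1) ^ 2 ≤ C * wt β δ m := by
  obtain ⟨N, hN⟩ := exists_nat_ge (2 / β)
  have hN2 : 2 ≤ N * β := by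
    rw [div_le_iff₀ hβ] at hN
    exact hN
  refine ⟨1 + 4 * ((Nat.factorial N : ℝ) / δ ^ N), by positivity, fun m => ?_⟩
  rcases Nat.eq_zero_or_pos m with hm | hm
  · subst hm
    have h1 := one_le_wt (β := β) hδ.le 0
    have h2 : (0 : ℝ) ≤ 4 * ((Nat.factorial N : ℝ) / δ ^ N) := by positivity
    have h3 : (1 : ℝ) * 1 ≤ (1 + 4 * ((Nat.factorial N : ℝ) / δ ^ N)) * wt β δ 0 :=
      mul_le_mul (by linarith) h1 (by norm_num) (by linarith)
    simpa using h3
  · have hm1 : (1 : ℝ) ≤ m := by exact_mod_cast hm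
    have hm0 : (0 : ℝ) < m := by linarith
    set t : ℝ := (m : ℝ) ^ β with ht
    have ht0 : 0 < t := Real.rpow_pos_of_pos hm0 β
    have h1 : (m : ℝ) ^ 2 ≤ t ^ N := by
      rw [ht, ← Real.rpow_natCast, ← Real.rpow_natCast, ← Real.rpow_mul hm0.le]
      apply Real.rpow_le_rpow_of_exponent_le hm1
      push_cast
      rw [mul_comm]
      exact hN2
    have h2 : ((m : ℝ) + 1) ^ 2 ≤ 4 * (m : ℝ) ^ 2 := by nlinarith
    have h3 : (δ * t) ^ N / (Nat.factorial N : ℝ) ≤ Real.exp (δ * t) :=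
      Real.pow_div_factorial_le_exp (δ * t) (by positivity) N
    have h4 : t ^ N ≤ (Nat.factorial N : ℝ) / δ ^ N * Real.exp (δ * t) := by
      rw [div_le_iff₀ (by positivity), mul_pow] at h3
      rw [div_mul_eq_mul_div, le_div_iff₀ (by positivity)]
      linarith
    have h5 : wt β δ m = Real.exp (δ * t) := rfl
    rw [h5]
    have h6 : 0 < Real.exp (δ * t) := Real.exp_pos _
    nlinarith

theorem wt_split (β c c' : ℝ) (n : ℕ) : wt β c n = wt β c' n * wt β (c - c') n := by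
  unfold wt
  rw [← Real.exp_add]
  congr 1
  ring

theorem FW_Dq {β c c' : ℝ} (hβ0 : 0 < β) (hc' : 0 ≤ c') (hcc : c' < c) {u : PowerSeries ℂ}
    (hu : FW β c u) :
    ∃ K : ℝ, ∀ z : ℂ, ‖z‖ ≤ 1 → FW β c' (Dq u z) ∧ nrm β c' (Dq u z) ≤ K := by
  obtain ⟨C, hC0, hC⟩ := poly_wt_bound hβ0 (sub_pos.mpr hcc)
  have hN0 : 0 ≤ nrm β c u := nrm_nonneg β c u
  have hsq : Summable fun n : ℕ => 1 / ((n : ℝ) + 1) ^ 2 := by
    have h := (summable_nat_add_iff 1).mpr (Real.summable_one_div_nat_pow.mpr one_lt_two)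
    refine h.congr fun n => ?_
    push_cast
    rfl
  have hterm : ∀ z : ℂ, ‖z‖ ≤ 1 → ∀ n : ℕ, ‖PowerSeries.coeff n (Dq u z)‖ * wt β c' n ≤
      (C * nrm β c u) * (1 / ((n : ℝ) + 1) ^ 2) := by
    intro z hz n
    have hn0 : (0 : ℝ) < ((n : ℝ) + 1) ^ 2 := by positivity
    have hsum1 : Summable fun k => ‖PowerSeries.coeff (n + 1 + k) u‖ * wt β c (n + 1 + k) := by
      have := (summable_nat_add_iff (n + 1)).mpr hu
      refine this.congr fun k => ?_
      rw [add_comm k (n + 1)]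
    have hkey : ∀ k, ‖PowerSeries.coeff (n + 1 + k) u * z ^ k‖ * wt β c' n ≤
        (C * (1 / ((n : ℝ) + 1) ^ 2)) *
          (‖PowerSeries.coeff (n + 1 + k) u‖ * wt β c (n + 1 + k)) := by
      intro k
      have e1 := ev_term_le u hz (n + 1 + k) k
      have e2 : wt β c' n ≤ wt β c' (n + 1 + k) := wt_mono_right hβ0 hc' (by omega)
      have e3 := hC (n + 1 + k)
      have e4 : ((n : ℝ) + 1) ^ 2 ≤ (((n + 1 + k : ℕ) : ℝ) + 1) ^ 2 := by
        apply pow_le_pow_left₀ (by positivity)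
        push_cast
        have : (0 : ℝ) ≤ k := Nat.cast_nonneg k
        linarith
      have e5 : 1 ≤ (C * (1 / ((n : ℝ) + 1) ^ 2)) * wt β (c - c') (n + 1 + k) := by
        rw [mul_one_div, div_mul_eq_mul_div, le_div_iff₀ hn0, one_mul]
        exact e4.trans e3
      have e6 : 0 ≤ ‖PowerSeries.coeff (n + 1 + k) u‖ * wt β c' (n + 1 + k) :=
        mul_nonneg (norm_nonneg _) (wt_pos _ _ _).le
      calc ‖PowerSeries.coeff (n + 1 + k) u * z ^ k‖ * wt β c' n
          ≤ ‖PowerSeries.coeff (n + 1 + k) u‖ * wt β c' (n + 1 + k) :=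
            mul_le_mul e1 e2 (wt_pos _ _ _).le (norm_nonneg _)
        _ = 1 * (‖PowerSeries.coeff (n + 1 + k) u‖ * wt β c' (n + 1 + k)) := (one_mul _).symm
        _ ≤ ((C * (1 / ((n : ℝ) + 1) ^ 2)) * wt β (c - c') (n + 1 + k)) *
            (‖PowerSeries.coeff (n + 1 + k) u‖ * wt β c' (n + 1 + k)) :=
            mul_le_mul_of_nonneg_right e5 e6
        _ = _ := by
            rw [wt_split β c c' (n + 1 + k)]
            ring
    have hsum2 : Summable fun k => ‖PowerSeries.coeff (n + 1 + k) u * z ^ k‖ * wt β c' n :=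
      Summable.of_nonneg_of_le (fun k => mul_nonneg (norm_nonneg _) (wt_pos _ _ _).le) hkey
        (hsum1.mul_left _)
    have hsum3 : Summable fun k => ‖PowerSeries.coeff (n + 1 + k) u * z ^ k‖ := by
      have := hsum2.mul_right (wt β c' n)⁻¹
      refine this.congr fun k => ?_
      rw [mul_assoc, mul_inv_cancel₀ (wt_pos _ _ _).ne', mul_one]
    have hD : PowerSeries.coeff n (Dq u z) = ∑' k, PowerSeries.coeff (n + 1 + k) u * z ^ k := by
      unfold Dq
      rw [PowerSeries.coeff_mk]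
    have htail : ∑' k, ‖PowerSeries.coeff (n + 1 + k) u‖ * wt β c (n + 1 + k) ≤ nrm β c u := by
      unfold nrm
      have h1 := hu.sum_add_tsum_nat_add (n + 1)
      rw [← h1]
      have h2 : ∑' k, ‖PowerSeries.coeff (n + 1 + k) u‖ * wt β c (n + 1 + k) =
          ∑' k, ‖PowerSeries.coeff (k + (n + 1)) u‖ * wt β c (k + (n + 1)) := by
        refine tsum_congr fun k => ?_
        rw [add_comm k (n + 1)]
      rw [h2]
      have h3 : 0 ≤ ∑ i ∈ Finset.range (n + 1), ‖PowerSeries.coeff i u‖ * wt β c i :=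
        Finset.sum_nonneg fun i _ => mul_nonneg (norm_nonneg _) (wt_pos _ _ _).le
      linarith
    rw [hD]
    calc ‖∑' k, PowerSeries.coeff (n + 1 + k) u * z ^ k‖ * wt β c' n
        ≤ (∑' k, ‖PowerSeries.coeff (n + 1 + k) u * z ^ k‖) * wt β c' n :=
          mul_le_mul_of_nonneg_right (norm_tsum_le_tsum_norm hsum3) (wt_pos _ _ _).le
      _ = ∑' k, ‖PowerSeries.coeff (n + 1 + k) u * z ^ k‖ * wt β c' n := by
          rw [tsum_mul_right]
      _ ≤ ∑' k, (C * (1 / ((n : ℝ) + 1) ^ 2)) *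
          (‖PowerSeries.coeff (n + 1 + k) u‖ * wt β c (n + 1 + k)) :=
          hsum2.tsum_le_tsum hkey (hsum1.mul_left _)
      _ = (C * (1 / ((n : ℝ) + 1) ^ 2)) *
          ∑' k, ‖PowerSeries.coeff (n + 1 + k) u‖ * wt β c (n + 1 + k) := tsum_mul_left
      _ ≤ (C * (1 / ((n : ℝ) + 1) ^ 2)) * nrm β c u :=
          mul_le_mul_of_nonneg_left htail (by positivity)
      _ = _ := by ring
  refine ⟨(C * nrm β c u) * ∑' n : ℕ, 1 / ((n : ℝ) + 1) ^ 2, fun z hz => ?_⟩
  have hFW : FW β c' (Dq u z) :=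
    Summable.of_nonneg_of_le (fun n => mul_nonneg (norm_nonneg _) (wt_pos _ _ _).le)
      (hterm z hz) (hsq.mul_left _)
  refine ⟨hFW, ?_⟩
  unfold nrm
  refine (hFW.tsum_le_tsum (hterm z hz) (hsq.mul_left _)).trans (le_of_eq ?_)
  rw [tsum_mul_left]
  rfl

theorem div_root {β : ℝ} (hβ0 : 0 < β) {p : PowerSeries ℂ} (hp : AA β p) {z₀ : ℂ}
    (hz : ‖z₀‖ ≤ 1) (h : ev p z₀ = 0) :
    ∃ q, AA β q ∧ p = (PowerSeries.X - PowerSeries.C z₀) * q := by
  obtain ⟨c, hc, hpc⟩ := hp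
  obtain ⟨K, hK⟩ := FW_Dq hβ0 (by positivity : 0 ≤ c / 2) (by linarith : c / 2 < c) hpc
  refine ⟨Dq p z₀, ⟨c / 2, by positivity, (hK z₀ hz).1⟩, ?_⟩
  have h1 := Dq_mul (FW.summable hc.le hpc) hz
  rw [h, map_zero, zero_sub] at h1
  have h2 : (PowerSeries.X - PowerSeries.C z₀) * Dq p z₀ =
      -((PowerSeries.C z₀ - PowerSeries.X) * Dq p z₀) := by ring
  rw [h2, h1, neg_neg]

end Pool.Agent.Helper203.GV
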