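import Pool.Agent.Helper203.GV.Defs

open MeasureTheory Filter Topology Set

noncomputable section

namespace Pool.Agent.Helper203.GV

theorem polar_bound {S : Set ℂ} (hS : MeasurableSet S) (G : ℂ → ENNReal) {T : Set (ℝ × ℝ)}
    (hT : MeasurableSet T) (h : ℝ × ℝ → ENNReal)
    (H : ∀ p ∈ polarCoord.target, Complex.polarCoord.symm p ∈ S →
      p ∈ T ∧ ENNReal.ofReal p.1 * G (Complex.polarCoord.symm p) ≤ h p) :
    ∫⁻ y in S, G y ≤ ∫⁻ p in T, h p := by
  have hmt : MeasurableSet polarCoord.target := polarCoord.open_target.measurableSet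
  rw [← lintegral_indicator hS, ← Complex.lintegral_comp_polarCoord_symm, ← lintegral_indicator hT,
    ← lintegral_indicator hmt]
  refine lintegral_mono fun p => ?_
  by_cases hp : p ∈ polarCoord.target
  · rw [indicator_of_mem hp]
    by_cases hp' : Complex.polarCoord.symm p ∈ S
    · obtain ⟨h1, h2⟩ := H p hp hp'
      rw [indicator_of_mem h1, indicator_of_mem hp', smul_eq_mul]
      exact h2
    · rw [indicator_of_notMem hp', smul_zero]
      exact zero_le
  · rw [indicator_of_notMem hp]
    exact zero_le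

theorem lint_prod (A B : Set ℝ) (k : ℝ → ENNReal) (hk : Measurable k) :
    ∫⁻ p in A ×ˢ B, k p.1 = (∫⁻ x in A, k x) * volume B := by
  have h1 : (volume : Measure (ℝ × ℝ)).restrict (A ×ˢ B) =
      ((volume : Measure ℝ).restrict A).prod ((volume : Measure ℝ).restrict B) := by
    rw [Measure.volume_eq_prod, Measure.prod_restrict]
  rw [h1]
  have := lintegral_prod_mul (μ := (volume : Measure ℝ).restrict A)
    (ν := (volume : Measure ℝ).restrict B) (f := k) (g := fun _ => 1)
    hk.aemeasurable aemeasurable_const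
  simp only [mul_one] at this
  rw [this]
  simp

theorem target_eq : polarCoord.target = Ioi (0:ℝ) ×ˢ Ioo (-Real.pi) Real.pi := rfl

theorem norm_symm {p : ℝ × ℝ} (hp : p ∈ polarCoord.target) :
    ‖Complex.polarCoord.symm p‖ = p.1 := by
  rw [Complex.norm_polarCoord_symm, abs_of_pos]
  exact hp.1

/-- translation -/
theorem ball_translate (z : ℂ) (s : ℝ) (G : ℂ → ENNReal) :
    ∫⁻ y in Metric.ball z s, G y = ∫⁻ y in Metric.ball 0 s, G (z + y) := by
  rw [← lintegral_indicator Metric.isOpen_ball.measurableSet,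
    ← lintegral_indicator Metric.isOpen_ball.measurableSet,
    ← lintegral_add_left_eq_self _ z]
  refine lintegral_congr fun y => ?_
  have h : z + y ∈ Metric.ball z s ↔ y ∈ Metric.ball (0:ℂ) s := by
    simp [Metric.mem_ball, dist_eq_norm]
  by_cases hy : y ∈ Metric.ball (0:ℂ) s
  · rw [indicator_of_mem hy, indicator_of_mem (h.mpr hy)]
  · rw [indicator_of_notMem hy, indicator_of_notMem (fun h' => hy (h.mp h'))]

theorem int_inv_norm {R : ℝ} (hR : 0 < R) :
    ∫⁻ y in Metric.ball (0:ℂ) R, ENNReal.ofReal (2 / ‖y‖) ≤ ENNReal.ofReal (4 * Real.pi * R) := by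
  have h := polar_bound (S := Metric.ball (0:ℂ) R) Metric.isOpen_ball.measurableSet
    (fun y => ENNReal.ofReal (2 / ‖y‖)) (T := Ioo 0 R ×ˢ Ioo (-Real.pi) Real.pi)
    (measurableSet_Ioo.prod measurableSet_Ioo) (fun _ => ENNReal.ofReal 2) (by
      intro p hp hpS
      have hn := norm_symm hp
      rw [mem_ball_zero_iff, hn] at hpS
      refine ⟨⟨⟨hp.1, hpS⟩, hp.2⟩, ?_⟩
      rw [hn, ← ENNReal.ofReal_mul (le_of_lt hp.1)]
      apply le_of_eq
      congr 1
      have : (0:ℝ) < p.1 := hp.1
      field_simp)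
  refine h.trans ?_
  have h2 := lint_prod (Ioo 0 R) (Ioo (-Real.pi) Real.pi) (fun _ => ENNReal.ofReal 2)
    measurable_const
  rw [h2, lintegral_const, Measure.restrict_apply MeasurableSet.univ, univ_inter, Real.volume_Ioo,
    Real.volume_Ioo, ← ENNReal.ofReal_mul (by norm_num), ← ENNReal.ofReal_mul (by
      have := hR.le
      nlinarith)]
  apply le_of_eq
  congr 1
  ring

theorem vol_ball (z : ℂ) (s : ℝ) : volume (Metric.ball z s) = ENNReal.ofReal s ^ 2 * ENNReal.ofReal Real.pi := by
  rw [Complex.volume_ball]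
  congr 1
  rw [← ENNReal.ofReal_coe_nnreal]
  rfl

theorem area_poisson : ∃ C : ℝ, 0 < C ∧ ∀ (z ζ : ℂ) (s : ℝ), 0 < s → |1 - ‖z‖| ≤ 8 * s → ‖ζ‖ = 1 →
    ∫⁻ y in Metric.ball z s ∩ Metric.ball 0 1, ENNReal.ofReal ((1 - ‖y‖ ^ 2) / ‖ζ - y‖ ^ 2) ≤
      ENNReal.ofReal (C * s ^ 2 * (s / (‖ζ - z‖ + s) ^ 2)) := by
  refine ⟨162 * Real.pi, by positivity, fun z ζ s hs hz hζ => ?_⟩
  have hmS : MeasurableSet (Metric.ball z s ∩ Metric.ball (0:ℂ) 1) :=
    Metric.isOpen_ball.measurableSet.inter Metric.isOpen_ball.measurableSet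
  by_cases hc : 2 * s ≤ ‖ζ - z‖
  · have hb : ∀ y ∈ Metric.ball z s ∩ Metric.ball (0:ℂ) 1,
        ENNReal.ofReal ((1 - ‖y‖ ^ 2) / ‖ζ - y‖ ^ 2) ≤
          ENNReal.ofReal (162 * s / (‖ζ - z‖ + s) ^ 2) := by
      intro y hy
      apply ENNReal.ofReal_le_ofReal
      have hy1 : ‖y - z‖ < s := by simpa [dist_eq_norm] using hy.1
      have hy2 : ‖y‖ < 1 := by simpa using hy.2
      have h1 : ‖ζ - z‖ ≤ ‖ζ - y‖ + ‖y - z‖ := by
        have := norm_add_le (ζ - y) (y - z)
        simpa using this
      have h2 : (‖ζ - z‖ + s) / 3 ≤ ‖ζ - y‖ := by linarith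
      have h3 : ‖z‖ ≤ ‖y‖ + ‖y - z‖ := by
        have := norm_sub_norm_le z y
        rw [norm_sub_rev] at this
        linarith
      have h4 : 1 - ‖z‖ ≤ 8 * s := (le_abs_self _).trans hz
      have h5 : ‖z‖ - ‖y‖ ≤ s := by linarith
      have h6 : 1 - ‖y‖ ≤ 9 * s := by linarith
      have h7 : 1 - ‖y‖ ^ 2 ≤ 18 * s := by nlinarith [norm_nonneg y]
      have h8 : 0 < (‖ζ - z‖ + s) / 3 := by positivity
      have h9 : 0 < ‖ζ - y‖ := lt_of_lt_of_le h8 h2
      rw [div_le_div_iff₀ (by positivity) (by positivity)]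
      have h10 : (‖ζ - z‖ + s) ^ 2 ≤ 9 * ‖ζ - y‖ ^ 2 := by nlinarith
      have h11 : 0 ≤ 1 - ‖y‖ ^ 2 := by nlinarith [norm_nonneg y]
      calc (1 - ‖y‖ ^ 2) * (‖ζ - z‖ + s) ^ 2 ≤ (18 * s) * (9 * ‖ζ - y‖ ^ 2) := by
            apply mul_le_mul h7 h10 (by positivity) (by positivity)
        _ = 162 * s * ‖ζ - y‖ ^ 2 := by ring
    calc ∫⁻ y in Metric.ball z s ∩ Metric.ball 0 1, ENNReal.ofReal ((1 - ‖y‖ ^ 2) / ‖ζ - y‖ ^ 2)
        ≤ ∫⁻ y in Metric.ball z s ∩ Metric.ball 0 1,
          ENNReal.ofReal (162 * s / (‖ζ - z‖ + s) ^ 2) := setLIntegral_mono' hmS hb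
      _ = ENNReal.ofReal (162 * s / (‖ζ - z‖ + s) ^ 2) *
          volume (Metric.ball z s ∩ Metric.ball 0 1) := by rw [setLIntegral_const]
      _ ≤ ENNReal.ofReal (162 * s / (‖ζ - z‖ + s) ^ 2) * volume (Metric.ball z s) := by
          gcongr
          exact inter_subset_left
      _ = ENNReal.ofReal (162 * Real.pi * s ^ 2 * (s / (‖ζ - z‖ + s) ^ 2)) := by
          rw [vol_ball, ← ENNReal.ofReal_pow hs.le, ← ENNReal.ofReal_mul (by positivity),
            ← ENNReal.ofReal_mul (by positivity)]
          congr 1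
          ring
  · push Not at hc
    have hb : ∀ y ∈ Metric.ball z s ∩ Metric.ball (0:ℂ) 1,
        ENNReal.ofReal ((1 - ‖y‖ ^ 2) / ‖ζ - y‖ ^ 2) ≤ ENNReal.ofReal (2 / ‖ζ - y‖) := by
      intro y hy
      apply ENNReal.ofReal_le_ofReal
      have hy2 : ‖y‖ < 1 := by simpa using hy.2
      have h1 : ‖ζ‖ - ‖y‖ ≤ ‖ζ - y‖ := norm_sub_norm_le _ _
      rw [hζ] at h1
      have h2 : 0 < ‖ζ - y‖ := by linarith
      rw [div_le_div_iff₀ (by positivity) (by positivity)]
      have h3 : 1 - ‖y‖ ^ 2 ≤ 2 * ‖ζ - y‖ := by nlinarith [norm_nonneg y]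
      calc (1 - ‖y‖ ^ 2) * ‖ζ - y‖ ≤ 2 * ‖ζ - y‖ * ‖ζ - y‖ := by gcongr
        _ = 2 * ‖ζ - y‖ ^ 2 := by ring
    calc ∫⁻ y in Metric.ball z s ∩ Metric.ball 0 1, ENNReal.ofReal ((1 - ‖y‖ ^ 2) / ‖ζ - y‖ ^ 2)
        ≤ ∫⁻ y in Metric.ball z s ∩ Metric.ball 0 1, ENNReal.ofReal (2 / ‖ζ - y‖) :=
          setLIntegral_mono' hmS hb
      _ ≤ ∫⁻ y in Metric.ball ζ (3 * s), ENNReal.ofReal (2 / ‖ζ - y‖) := by
          apply lintegral_mono_set
          intro y hy
          have hy1 : ‖y - z‖ < s := by simpa [dist_eq_norm] using hy.1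
          rw [Metric.mem_ball, dist_eq_norm]
          have : ‖y - ζ‖ ≤ ‖y - z‖ + ‖z - ζ‖ := by
            have := norm_add_le (y - z) (z - ζ)
            simpa using this
          rw [norm_sub_rev z ζ] at this
          linarith
      _ = ∫⁻ y in Metric.ball (0:ℂ) (3 * s), ENNReal.ofReal (2 / ‖y‖) := by
          rw [ball_translate]
          refine lintegral_congr fun y => ?_
          congr 2
          rw [← norm_neg]
          congr 1
          ring
      _ ≤ ENNReal.ofReal (4 * Real.pi * (3 * s)) := int_inv_norm (by positivity)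
      _ ≤ ENNReal.ofReal (162 * Real.pi * s ^ 2 * (s / (‖ζ - z‖ + s) ^ 2)) := by
          apply ENNReal.ofReal_le_ofReal
          have h0 : 0 ≤ ‖ζ - z‖ := norm_nonneg _
          have h1 : (‖ζ - z‖ + s) ^ 2 ≤ 9 * s ^ 2 := by nlinarith
          have h2 : s / (9 * s ^ 2) ≤ s / (‖ζ - z‖ + s) ^ 2 := by
            apply div_le_div_of_nonneg_left hs.le (by positivity) h1
          have h3 : 162 * Real.pi * s ^ 2 * (s / (9 * s ^ 2)) ≤
              162 * Real.pi * s ^ 2 * (s / (‖ζ - z‖ + s) ^ 2) :=
            mul_le_mul_of_nonneg_left h2 (by positivity)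
          refine le_trans ?_ h3
          have h4 : 162 * Real.pi * s ^ 2 * (s / (9 * s ^ 2)) = 18 * Real.pi * s := by
            field_simp
            ring
          rw [h4]
          nlinarith [Real.pi_pos]


theorem setLIntegral_rot (c : Circle) (g : ℂ → ENNReal) (hg : Measurable g) {S : Set ℂ}
    (hS : MeasurableSet S) :
    ∫⁻ y in S, g y = ∫⁻ y in (fun y => (c:ℂ) * y) ⁻¹' S, g ((c:ℂ) * y) := by
  have hmp : MeasurePreserving (rotation c) (volume : Measure ℂ) volume :=
    (rotation c).measurePreserving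
  have := hmp.setLIntegral_comp_preimage hS hg
  rw [← this]
  rfl

theorem int_rpow_bound {α R : ℝ} (h1 : α < 1) (hR : 0 < R) :
    ∫⁻ x in Ioo 1 (1 + R), ENNReal.ofReal ((x - 1) ^ (-α)) =
      ENNReal.ofReal (R ^ (1 - α) / (1 - α)) := by
  have hint : IntervalIntegrable (fun x : ℝ => x ^ (-α)) volume 0 R :=
    intervalIntegral.intervalIntegrable_rpow' (by linarith)
  have hint2 : IntervalIntegrable (fun x : ℝ => (x - 1) ^ (-α)) volume 1 (1 + R) := by
    have := hint.comp_sub_right 1
    simpa [add_comm] using this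
  have hval : ∫ x in (1:ℝ)..(1 + R), (x - 1) ^ (-α) = R ^ (1 - α) / (1 - α) := by
    rw [intervalIntegral.integral_comp_sub_right (fun x => x ^ (-α)) 1]
    rw [integral_rpow (Or.inl (by linarith))]
    rw [sub_self, Real.zero_rpow (by linarith)]
    rw [show 1 + R - 1 = R by ring, show -α + 1 = 1 - α by ring, sub_zero]
  rw [intervalIntegral.integral_of_le (by linarith)] at hval
  rw [intervalIntegrable_iff_integrableOn_Ioc_of_le (by linarith)] at hint2
  rw [← hval, ofReal_integral_eq_lintegral_ofReal hint2]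
  · rw [setLIntegral_congr Ioo_ae_eq_Ioc]
  · refine (ae_restrict_iff' measurableSet_Ioc).mpr (Eventually.of_forall fun x hx => ?_)
    exact Real.rpow_nonneg (by linarith [hx.1]) _

theorem annulus_part {α : ℝ} (h0 : 0 < α) (h1 : α < 1) {R θ : ℝ} (hR : 0 < R) (hR' : R ≤ 3)
    (hθ : 0 < θ) {S : Set ℂ} (hS : MeasurableSet S)
    (H : ∀ p ∈ polarCoord.target, Complex.polarCoord.symm p ∈ S →
      p.1 ∈ Ioo 1 (1 + R) ∧ p.2 ∈ Ioo (-θ) θ) :
    ∫⁻ y in S, ENNReal.ofReal ((‖y‖ - 1) ^ (-α)) ≤
      ENNReal.ofReal (8 * θ * (R ^ (1 - α) / (1 - α))) := by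
  have hmeas : Measurable fun x : ℝ => ENNReal.ofReal 4 * ENNReal.ofReal ((x - 1) ^ (-α)) := by
    fun_prop
  have h := polar_bound hS
    (fun y => ENNReal.ofReal ((‖y‖ - 1) ^ (-α))) (T := Ioo 1 (1 + R) ×ˢ Ioo (-θ) θ)
    (measurableSet_Ioo.prod measurableSet_Ioo)
    (fun p => ENNReal.ofReal 4 * ENNReal.ofReal ((p.1 - 1) ^ (-α))) (by
      intro p hp hpS
      obtain ⟨hp1, hp2⟩ := H p hp hpS
      refine ⟨⟨hp1, hp2⟩, ?_⟩
      rw [norm_symm hp]
      gcongr
      linarith [hp1.2])
  refine h.trans ?_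
  have h2 := lint_prod (Ioo 1 (1 + R)) (Ioo (-θ) θ)
    (fun x => ENNReal.ofReal 4 * ENNReal.ofReal ((x - 1) ^ (-α))) hmeas
  rw [h2, lintegral_const_mul _ (by fun_prop), int_rpow_bound h1 hR, Real.volume_Ioo,
    ← ENNReal.ofReal_mul (by norm_num), ← ENNReal.ofReal_mul (by
      have : 0 < 1 - α := by linarith
      positivity)]
  apply le_of_eq
  congr 1
  ring

theorem area_dist {α : ℝ} (h0 : 0 < α) (h1 : α < 1) : ∃ C : ℝ, 0 < C ∧ ∀ (z : ℂ) (s : ℝ),
    0 < s → s ≤ 1 →
    ∫⁻ y in Metric.ball z s \ Metric.closedBall 0 1, ENNReal.ofReal ((‖y‖ - 1) ^ (-α)) ≤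
      ENNReal.ofReal (C * s ^ 2 * s ^ (-α)) := by
  have hα : 0 < 1 - α := by linarith
  set C1 : ℝ := 8 * 4 * (3 ^ (1 - α) / (1 - α)) with hC1
  have hC1p : 0 < C1 := by positivity
  refine ⟨Real.pi + 64 * C1, by positivity, fun z s hs hs1 => ?_⟩
  have hmS : MeasurableSet (Metric.ball z s \ Metric.closedBall (0:ℂ) 1) :=
    Metric.isOpen_ball.measurableSet.diff Metric.isClosed_closedBall.measurableSet
  have hsα : 0 < s ^ (-α) := Real.rpow_pos_of_pos hs _
  by_cases hc : 2 * s ≤ ‖z‖ - 1
  · have hb : ∀ y ∈ Metric.ball z s \ Metric.closedBall (0:ℂ) 1,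
        ENNReal.ofReal ((‖y‖ - 1) ^ (-α)) ≤ ENNReal.ofReal (s ^ (-α)) := by
      intro y hy
      apply ENNReal.ofReal_le_ofReal
      have hy1 : ‖y - z‖ < s := by simpa [dist_eq_norm] using hy.1
      have h3 : ‖z‖ - ‖y‖ ≤ ‖y - z‖ := by
        have := norm_sub_norm_le z y
        rwa [norm_sub_rev] at this
      exact Real.rpow_le_rpow_of_nonpos hs (by linarith) (by linarith)
    calc ∫⁻ y in Metric.ball z s \ Metric.closedBall 0 1, ENNReal.ofReal ((‖y‖ - 1) ^ (-α))
        ≤ ∫⁻ y in Metric.ball z s \ Metric.closedBall 0 1, ENNReal.ofReal (s ^ (-α)) :=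
          setLIntegral_mono' hmS hb
      _ = ENNReal.ofReal (s ^ (-α)) * volume (Metric.ball z s \ Metric.closedBall 0 1) := by
          rw [setLIntegral_const]
      _ ≤ ENNReal.ofReal (s ^ (-α)) * volume (Metric.ball z s) := by
          gcongr
          exact diff_subset
      _ = ENNReal.ofReal (Real.pi * s ^ 2 * s ^ (-α)) := by
          rw [vol_ball, ← ENNReal.ofReal_pow hs.le, ← ENNReal.ofReal_mul (by positivity),
            ← ENNReal.ofReal_mul (by positivity)]
          congr 1
          ring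
      _ ≤ ENNReal.ofReal ((Real.pi + 64 * C1) * s ^ 2 * s ^ (-α)) := by
          apply ENNReal.ofReal_le_ofReal
          gcongr
          linarith
  · push Not at hc
    -- the case `s > 1/8`
    by_cases hs8 : 1 / 8 < s
    · have h := annulus_part h0 h1 (R := 3) (θ := Real.pi) (by norm_num) (le_refl _) Real.pi_pos
        hmS (by
          intro p hp hpS
          have hn := norm_symm hp
          have hy1 : ‖Complex.polarCoord.symm p - z‖ < s := by
            simpa [dist_eq_norm] using hpS.1
          have hy2 : 1 < ‖Complex.polarCoord.symm p‖ := by simpa using hpS.2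
          have h3 : ‖Complex.polarCoord.symm p‖ - ‖z‖ ≤ ‖Complex.polarCoord.symm p - z‖ :=
            norm_sub_norm_le _ _
          rw [hn] at hy2 h3
          exact ⟨⟨hy2, by linarith⟩, hp.2⟩)
      refine h.trans (ENNReal.ofReal_le_ofReal ?_)
      have h4 : 8 * Real.pi * (3 ^ (1 - α) / (1 - α)) ≤ C1 := by
        rw [hC1]
        have : Real.pi ≤ 4 := Real.pi_le_four
        gcongr
      have h5 : 1 ≤ s ^ (-α) := Real.one_le_rpow_of_pos_of_le_one_of_nonpos hs hs1 (by linarith)
      have h6 : 1 ≤ 64 * s ^ 2 := by nlinarith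
      calc 8 * Real.pi * (3 ^ (1 - α) / (1 - α)) ≤ C1 * 1 * 1 := by linarith
        _ ≤ C1 * (64 * s ^ 2) * s ^ (-α) := by gcongr
        _ ≤ (Real.pi + 64 * C1) * s ^ 2 * s ^ (-α) := by
            have : 0 ≤ Real.pi * s ^ 2 * s ^ (-α) := by positivity
            nlinarith
    · push Not at hs8
      by_cases hemp : ‖z‖ + s ≤ 1
      · have : Metric.ball z s \ Metric.closedBall (0:ℂ) 1 = ∅ := by
          rw [Set.eq_empty_iff_forall_notMem]
          intro y hy
          have hy1 : ‖y - z‖ < s := by simpa [dist_eq_norm] using hy.1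
          have hy2 : 1 < ‖y‖ := by simpa using hy.2
          have h3 : ‖y‖ - ‖z‖ ≤ ‖y - z‖ := norm_sub_norm_le _ _
          linarith
        rw [this]
        simp
      · push Not at hemp
        -- rotate
        have hz0 : 0 < ‖z‖ := by linarith
        have hz0' : z ≠ 0 := norm_pos_iff.mp hz0
        let c : Circle := ⟨z / ‖z‖, by
          rw [Submonoid.unitSphere, ← SetLike.mem_coe]
          simp [hz0.ne', hz0']⟩
        have hc' : (c : ℂ) = z / ‖z‖ := rfl
        have hcn : ‖(c:ℂ)‖ = 1 := Circle.norm_coe c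
        rw [setLIntegral_rot c _ (by fun_prop) hmS]
        have hfun : ∀ y : ℂ, ENNReal.ofReal ((‖(c:ℂ) * y‖ - 1) ^ (-α)) =
            ENNReal.ofReal ((‖y‖ - 1) ^ (-α)) := by
          intro y
          rw [norm_mul, hcn, one_mul]
        simp only [hfun]
        have h := annulus_part h0 h1 (R := 3 * s) (θ := 2 * s) (by positivity) (by linarith)
          (by positivity)
          (S := (fun y => (c:ℂ) * y) ⁻¹' (Metric.ball z s \ Metric.closedBall 0 1))
          (hmS.preimage (by fun_prop)) (by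
            intro p hp hpS
            have hn := norm_symm hp
            set y := Complex.polarCoord.symm p with hy
            have hy1 : ‖(c:ℂ) * y - z‖ < s := by
              simpa [dist_eq_norm] using hpS.1
            have hy2 : 1 < ‖y‖ := by
              have : 1 < ‖(c:ℂ) * y‖ := by simpa using hpS.2
              rwa [norm_mul, hcn, one_mul] at this
            have hy3 : ‖y - (‖z‖ : ℂ)‖ < s := by
              have : (c:ℂ) * y - z = (c:ℂ) * (y - ‖z‖) := by
                rw [hc']
                have : (‖z‖ : ℂ) ≠ 0 := by exact_mod_cast hz0.ne'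
                field_simp
              rw [this, norm_mul, hcn, one_mul] at hy1
              exact hy1
            have h3 : ‖y‖ - ‖z‖ ≤ ‖y - (‖z‖ : ℂ)‖ := by
              have := norm_sub_norm_le y (‖z‖ : ℂ)
              simpa using this
            rw [hn] at hy2 h3
            have hre : |(y - (‖z‖ : ℂ)).re| ≤ ‖y - (‖z‖ : ℂ)‖ := Complex.abs_re_le_norm _
            have him : |(y - (‖z‖ : ℂ)).im| ≤ ‖y - (‖z‖ : ℂ)‖ := Complex.abs_im_le_norm _
            have hyre : y.re = p.1 * Real.cos p.2 := by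
              rw [hy, Complex.polarCoord_symm_apply]
              simp [Complex.cos_ofReal_re]
            have hyim : y.im = p.1 * Real.sin p.2 := by
              rw [hy, Complex.polarCoord_symm_apply]
              simp [Complex.sin_ofReal_re]
            simp only [Complex.sub_re, Complex.ofReal_re, Complex.sub_im, Complex.ofReal_im,
              sub_zero, hyre, hyim] at hre him
            have hp2 : p.2 ∈ Ioo (-Real.pi) Real.pi := hp.2
            have hcos : 0 < Real.cos p.2 := by
              have h4 := (abs_le.mp hre).1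
              by_contra hcon
              push Not at hcon
              have : p.1 * Real.cos p.2 ≤ 0 := mul_nonpos_of_nonneg_of_nonpos (by linarith) hcon
              linarith
            have hsin : |Real.sin p.2| < s := by
              rw [abs_mul, abs_of_pos (by linarith : 0 < p.1)] at him
              have : |Real.sin p.2| ≤ p.1 * |Real.sin p.2| := by
                nlinarith [abs_nonneg (Real.sin p.2)]
              linarith
            have hhalf : |p.2| < Real.pi / 2 := by
              by_contra hcon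
              push Not at hcon
              have h5 : Real.cos p.2 ≤ 0 := by
                rw [← Real.cos_abs]
                exact Real.cos_nonpos_of_pi_div_two_le_of_le hcon (by
                  have := abs_lt.mpr hp2
                  linarith [Real.pi_pos])
              linarith
            have hmul : 2 / Real.pi * |p.2| ≤ |Real.sin p.2| :=
              Real.mul_abs_le_abs_sin hhalf.le
            have hlt : |p.2| < 2 * s := by
              have h6 : 2 / Real.pi * |p.2| < s := lt_of_le_of_lt hmul hsin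
              have h7 : |p.2| / 2 ≤ 2 / Real.pi * |p.2| := by
                have h8 : (1:ℝ) / 2 ≤ 2 / Real.pi := by
                  rw [div_le_div_iff₀ (by norm_num) Real.pi_pos]
                  linarith [Real.pi_le_four]
                nlinarith [abs_nonneg p.2]
              linarith
            exact ⟨⟨hy2, by linarith⟩, abs_lt.mp hlt⟩)
        refine h.trans (ENNReal.ofReal_le_ofReal ?_)
        have h5 : (3 * s) ^ (1 - α) = 3 ^ (1 - α) * (s * s ^ (-α)) := by
          rw [Real.mul_rpow (by norm_num) hs.le]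
          congr 1
          rw [sub_eq_add_neg, Real.rpow_add hs, Real.rpow_one]
        rw [h5]
        have h6 : 8 * (2 * s) * (3 ^ (1 - α) * (s * s ^ (-α)) / (1 - α)) =
            (1 / 2) * C1 * s ^ 2 * s ^ (-α) := by
          rw [hC1]
          ring
        rw [h6]
        have : 0 < s ^ 2 * s ^ (-α) := by positivity
        nlinarith [Real.pi_pos]


theorem jensen_le {f : ℂ → ℂ} {z : ℂ} {r s : ℝ} (hr : 0 < r) (hrs : r < s)
    (hf : DifferentiableOn ℂ f (Metric.ball z s)) (h0 : f z ≠ 0) :
    2 * Real.pi * Real.log ‖f z‖ ≤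
      ∫ θ in Ioc (-Real.pi) Real.pi, Real.posLog ‖f (circleMap z r θ)‖ := by
  have hrr : |r| = r := abs_of_pos hr
  have han : AnalyticOnNhd ℂ f (Metric.ball z s) := hf.analyticOnNhd Metric.isOpen_ball
  have hsub : Metric.closedBall z |r| ⊆ Metric.ball z s := by
    rw [hrr]
    exact Metric.closedBall_subset_ball hrs
  have h1 := (han.mono hsub).circleAverage_log_norm hr.ne' h0
  have h2 : 0 ≤ ∑ᶠ u, (MeromorphicOn.divisor f (Metric.closedBall z |r|) u : ℝ) *
      Real.log (r * ‖z - u‖⁻¹) := by
    apply finsum_nonneg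
    intro u
    by_cases hu : u ∈ Metric.closedBall z |r|
    · apply mul_nonneg
      · exact_mod_cast (MeromorphicOn.AnalyticOnNhd.divisor_nonneg (han.mono hsub)) u
      · by_cases hzu : z = u
        · simp [hzu]
        · apply Real.log_nonneg
          have h3 : ‖z - u‖ ≤ r := by
            rw [hrr, Metric.mem_closedBall, dist_comm, dist_eq_norm] at hu
            exact hu
          have h4 : 0 < ‖z - u‖ := norm_pos_iff.mpr (sub_ne_zero.mpr hzu)
          rw [← div_eq_mul_inv, le_div_iff₀ h4, one_mul]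
          exact h3
    · simp [hu]
  have hcs : ∀ x ∈ Metric.sphere z |r|, x ∈ Metric.ball z s := fun x hx =>
    hsub (Metric.sphere_subset_closedBall hx)
  have hci1 : CircleIntegrable (fun x => Real.log ‖f x‖) z r :=
    ((han.mono hsub).mono Metric.sphere_subset_closedBall).meromorphicOn.circleIntegrable_log_norm
  have hcont : ContinuousOn (fun x => Real.posLog ‖f x‖) (Metric.sphere z |r|) := by
    apply Real.continuous_posLog.comp_continuousOn
    exact (hf.continuousOn.mono hcs).norm
  have hci2 : CircleIntegrable (fun x => Real.posLog ‖f x‖) z r :=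
    hcont.circleIntegrable'
  have h5 : Real.circleAverage (fun x => Real.log ‖f x‖) z r ≤
      Real.circleAverage (fun x => Real.posLog ‖f x‖) z r := by
    apply Real.circleAverage_mono hci1 hci2
    intro x _
    rw [Real.posLog_apply]
    exact le_max_right _ _
  have h6 : Real.log ‖f z‖ ≤ Real.circleAverage (fun x => Real.posLog ‖f x‖) z r := by
    refine le_trans ?_ h5
    rw [h1]
    linarith
  rw [Real.circleAverage_eq_integral_add (-Real.pi)] at h6
  rw [intervalIntegral.integral_comp_add_right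
    (fun θ => Real.posLog ‖f (circleMap z r θ)‖) (-Real.pi)] at h6
  rw [show (0:ℝ) + -Real.pi = -Real.pi by ring, show 2 * Real.pi + -Real.pi = Real.pi by ring,
    intervalIntegral.integral_of_le (by linarith [Real.pi_pos]), smul_eq_mul] at h6
  have h7 : 0 < 2 * Real.pi := by positivity
  calc 2 * Real.pi * Real.log ‖f z‖ ≤ 2 * Real.pi * ((2 * Real.pi)⁻¹ *
        ∫ θ in Ioc (-Real.pi) Real.pi, Real.posLog ‖f (circleMap z r θ)‖) := by gcongr
    _ = _ := by
      rw [← mul_assoc, mul_inv_cancel₀ h7.ne', one_mul]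

theorem log_le_area {f : ℂ → ℂ} {z : ℂ} {s : ℝ} (hs : 0 < s)
    (hf : DifferentiableOn ℂ f (Metric.ball z s))
    (hi : IntegrableOn (fun y => Real.posLog ‖f y‖) (Metric.ball z s)) :
    Real.log ‖f z‖ * (Real.pi * s ^ 2) ≤ ∫ y in Metric.ball z s, Real.posLog ‖f y‖ := by
  have hnn : 0 ≤ ∫ y in Metric.ball z s, Real.posLog ‖f y‖ :=
    integral_nonneg fun y => Real.posLog_nonneg
  by_cases hL : Real.log ‖f z‖ ≤ 0
  · refine le_trans ?_ hnn
    exact mul_nonpos_of_nonpos_of_nonneg hL (by positivity)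
  push Not at hL
  have h0 : f z ≠ 0 := by
    intro h
    rw [h] at hL
    simp at hL
  set L := Real.log ‖f z‖ with hLdef
  have hms : MeasurableSet (Metric.ball z s) := Metric.isOpen_ball.measurableSet
  rw [integral_eq_lintegral_of_nonneg_ae (Eventually.of_forall fun y => Real.posLog_nonneg)
    hi.aestronglyMeasurable]
  have hfin : ∫⁻ y in Metric.ball z s, ENNReal.ofReal (Real.posLog ‖f y‖) ≠ ⊤ := by
    have := hi.2
    rw [hasFiniteIntegral_iff_ofReal (Eventually.of_forall fun y => Real.posLog_nonneg)] at this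
    exact this.ne
  rw [← ENNReal.ofReal_le_iff_le_toReal hfin]
  -- lower bound of the lintegral
  classical
  set G : ℂ → ENNReal := (Metric.ball z s).indicator
    (fun y => ENNReal.ofReal (Real.posLog ‖f y‖)) with hG
  have hGm : Measurable G := by
    have hc : ContinuousOn (fun y => ENNReal.ofReal (Real.posLog ‖f y‖)) (Metric.ball z s) :=
      ENNReal.continuous_ofReal.comp_continuousOn
        (Real.continuous_posLog.comp_continuousOn hf.continuousOn.norm)
    have := hc.measurable_piecewise (g := 0) continuousOn_const hms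
    rwa [Set.piecewise_eq_indicator] at this
  have hmt : MeasurableSet polarCoord.target := polarCoord.open_target.measurableSet
  have hsym : Measurable fun p : ℝ × ℝ => (Complex.polarCoord.symm p : ℂ) := by
    have : (fun p : ℝ × ℝ => (Complex.polarCoord.symm p : ℂ)) =
        fun p => (p.1 : ℂ) * (Real.cos p.2 + Real.sin p.2 * Complex.I) := by
      funext p
      rw [Complex.polarCoord_symm_apply]
      
    rw [this]
    fun_prop
  have key : ∫⁻ y in Metric.ball z s, ENNReal.ofReal (Real.posLog ‖f y‖) =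
      ∫⁻ r in Ioi (0:ℝ), ∫⁻ θ in Ioo (-Real.pi) Real.pi,
        ENNReal.ofReal r * G (z + Complex.polarCoord.symm (r, θ)) := by
    rw [← lintegral_indicator hms]
    rw [← lintegral_add_left_eq_self (μ := volume) _ z]
    rw [← Complex.lintegral_comp_polarCoord_symm, target_eq, Measure.volume_eq_prod,
      ← Measure.prod_restrict, lintegral_prod]
    · rfl
    · apply Measurable.aemeasurable
      simp only [smul_eq_mul]
      apply Measurable.mul (by fun_prop)
      exact hGm.comp (measurable_const.add hsym)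
  rw [key]
  have hcirc : ∀ r θ : ℝ, z + Complex.polarCoord.symm (r, θ) = circleMap z r θ := by
    intro r θ
    rw [Complex.polarCoord_symm_apply, circleMap, Complex.exp_mul_I]
    push_cast
    ring
  have hinner : ∀ r ∈ Ioo (0:ℝ) s, ENNReal.ofReal (r * (2 * Real.pi * L)) ≤
      ∫⁻ θ in Ioo (-Real.pi) Real.pi,
        ENNReal.ofReal r * G (z + Complex.polarCoord.symm (r, θ)) := by
    intro r hr
    have hj := jensen_le hr.1 hr.2 hf h0
    have hmem : ∀ θ : ℝ, circleMap z r θ ∈ Metric.ball z s := by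
      intro θ
      apply Metric.closedBall_subset_ball hr.2
      exact circleMap_mem_closedBall z hr.1.le θ
    have hGe : ∀ θ : ℝ, G (z + Complex.polarCoord.symm (r, θ)) =
        ENNReal.ofReal (Real.posLog ‖f (circleMap z r θ)‖) := by
      intro θ
      rw [hcirc, hG, indicator_of_mem (hmem θ)]
    simp only [hGe]
    rw [lintegral_const_mul' _ _ ENNReal.ofReal_ne_top, ENNReal.ofReal_mul hr.1.le]
    gcongr
    have hcθ : Continuous fun θ : ℝ => Real.posLog ‖f (circleMap z r θ)‖ := by
      apply Real.continuous_posLog.comp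
      apply Continuous.norm
      exact hf.continuousOn.comp_continuous (continuous_circleMap z r) hmem
    rw [setLIntegral_congr Ioo_ae_eq_Ioc]
    rw [← ofReal_integral_eq_lintegral_ofReal
      (hcθ.integrableOn_Ioc) (Eventually.of_forall fun y => Real.posLog_nonneg)]
    exact ENNReal.ofReal_le_ofReal hj
  calc ENNReal.ofReal (L * (Real.pi * s ^ 2))
      = ∫⁻ r in Ioo (0:ℝ) s, ENNReal.ofReal (r * (2 * Real.pi * L)) := by
        rw [setLIntegral_congr Ioo_ae_eq_Ioc]
        have hc : Continuous fun r : ℝ => r * (2 * Real.pi * L) := by fun_prop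
        rw [← ofReal_integral_eq_lintegral_ofReal hc.integrableOn_Ioc]
        · congr 1
          rw [← intervalIntegral.integral_of_le hs.le, intervalIntegral.integral_mul_const,
            integral_id]
          ring
        · refine (ae_restrict_iff' measurableSet_Ioc).mpr (Eventually.of_forall fun x hx => ?_)
          have := hx.1
          have := Real.pi_pos
          positivity
    _ ≤ ∫⁻ r in Ioo (0:ℝ) s, ∫⁻ θ in Ioo (-Real.pi) Real.pi,
          ENNReal.ofReal r * G (z + Complex.polarCoord.symm (r, θ)) :=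
        setLIntegral_mono' measurableSet_Ioo hinner
    _ ≤ ∫⁻ r in Ioi (0:ℝ), ∫⁻ θ in Ioo (-Real.pi) Real.pi,
          ENNReal.ofReal r * G (z + Complex.polarCoord.symm (r, θ)) :=
        lintegral_mono_set Ioo_subset_Ioi_self

end Pool.Agent.Helper203.GV
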