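import Pool.Agent.Helper203.GV.Skel

open MeasureTheory Filter Topology Set

noncomputable section

namespace Pool.Agent.Helper203.GV

theorem GB.nonneg {α C Q : ℝ} {f : ℂ → ℂ} (h : GB α C Q f) : 0 ≤ C := by
  have := h.2 0 0 (by simp)
  simp at this
  exact le_trans (norm_nonneg _) this

theorem GB.abs {α C Q : ℝ} {f : ℂ → ℂ} (h : GB α C Q f) : GB α (|C|+1) (max |Q| 1) f := by
  refine ⟨h.1, fun n z hz => (h.2 n z hz).trans ?_⟩
  have h0 := h.nonneg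
  have h1 : Q ^ n ≤ (max |Q| 1) ^ n := by
    calc Q ^ n ≤ |Q ^ n| := le_abs_self _
      _ = |Q| ^ n := abs_pow _ _
      _ ≤ _ := pow_le_pow_left₀ (abs_nonneg _) (le_max_left _ _) _
  have h2 : (0:ℝ) ≤ (n:ℝ) ^ ((n:ℝ)/α) := Real.rpow_nonneg (by positivity) _
  have h3 : C * Q ^ n ≤ (|C|+1) * (max |Q| 1) ^ n := by
    calc C * Q ^ n ≤ C * (max |Q| 1) ^ n := by gcongr
      _ ≤ (|C|+1) * (max |Q| 1) ^ n := by
        apply mul_le_mul_of_nonneg_right _ (by positivity)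
        linarith [le_abs_self C]
  gcongr

/-- iterated derivatives on the disc depend only on the values on the disc -/
theorem iteratedDeriv_congr_ball {f g : ℂ → ℂ} (h : ∀ z ∈ Metric.ball (0:ℂ) 1, f z = g z) (n : ℕ)
    {z : ℂ} (hz : z ∈ Metric.ball (0:ℂ) 1) : iteratedDeriv n f z = iteratedDeriv n g z := by
  have : f =ᶠ[𝓝 z] g := by
    filter_upwards [Metric.isOpen_ball.mem_nhds hz] with y hy using h y hy
  exact this.iteratedDeriv_eq n

theorem tendsto_congr_ball {f g : ℂ → ℂ} (h : ∀ z ∈ Metric.ball (0:ℂ) 1, f z = g z) (n : ℕ)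
    (z : ℂ) (l : ℂ) : Tendsto (iteratedDeriv n f) (𝓝[Metric.ball 0 1] z) (𝓝 l) ↔
      Tendsto (iteratedDeriv n g) (𝓝[Metric.ball 0 1] z) (𝓝 l) := by
  apply tendsto_congr'
  filter_upwards [self_mem_nhdsWithin] with y hy using iteratedDeriv_congr_ball h n hy

theorem GB.congr {α C Q : ℝ} {f g : ℂ → ℂ} (hf : GB α C Q f)
    (h : ∀ z ∈ Metric.ball (0:ℂ) 1, f z = g z) : GB α C Q g := by
  refine ⟨hf.1.congr fun z hz => (h z hz).symm, fun n z hz => ?_⟩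
  rw [← iteratedDeriv_congr_ball h n hz]
  exact hf.2 n z hz

theorem ser_congr {f g : ℂ → ℂ} (h : ∀ z ∈ Metric.ball (0:ℂ) 1, f z = g z) : ser f = ser g := by
  ext n
  simp only [ser, PowerSeries.coeff_mk]
  rw [iteratedDeriv_congr_ball h n (by simp)]

theorem beta_pos {α : ℝ} (h0 : 0 < α) : 0 < α/(1+α) := by positivity
theorem beta_lt {α : ℝ} (h0 : 0 < α) : α/(1+α) < 1 := by
  rw [div_lt_one (by positivity)]; linarith

/-- the class in terms of `GB` -/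
def Gev (α : ℝ) (f : ℂ → ℂ) : Prop := DifferentiableOn ℂ f (Metric.ball (0:ℂ) 1) ∧
      ∃ C Q : ℝ, ∀ n : ℕ, ∀ z ∈ Metric.ball (0:ℂ) 1,
        ‖iteratedDeriv n f z‖ ≤ C * Q ^ n * (n.factorial : ℝ) * (n : ℝ) ^ ((n : ℝ) / α)

theorem gev_iff {α : ℝ} {f : ℂ → ℂ} : Gev α f ↔ ∃ C Q, 0 < C ∧ 0 < Q ∧ GB α C Q f := by
  constructor
  · rintro ⟨h1, C, Q, h2⟩
    have h : GB α C Q f := ⟨h1, h2⟩
    exact ⟨_, _, by positivity, by positivity, h.abs⟩
  · rintro ⟨C, Q, _, _, h⟩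
    exact ⟨h.1, C, Q, h.2⟩

theorem gev_ser {α : ℝ} (h0 : 0 < α) {f : ℂ → ℂ} (hf : Gev α f) : AA (α/(1+α)) (ser f) := by
  obtain ⟨C, Q, hC, hQ, h⟩ := gev_iff.1 hf
  obtain ⟨K, c, hK, hc, h3⟩ := fw_of_gb h0 hQ
  exact ⟨c, hc, (h3 C f h).1⟩

theorem aa_gev {α : ℝ} (h0 : 0 < α) {p : PowerSeries ℂ} (hp : AA (α/(1+α)) p) : Gev α (ev p) := by
  obtain ⟨c, hc, h⟩ := hp
  obtain ⟨K, Q, hK, hQ, h3⟩ := gb_of_fw h0 hc
  have := h3 p h
  exact ⟨this.1, _, _, this.2⟩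

theorem Gev.congr {α : ℝ} {f g : ℂ → ℂ} (hf : Gev α f)
    (h : ∀ z ∈ Metric.ball (0:ℂ) 1, f z = g z) : Gev α g := by
  obtain ⟨C, Q, hC, hQ, h1⟩ := gev_iff.1 hf
  exact gev_iff.2 ⟨C, Q, hC, hQ, h1.congr h⟩

theorem sum_FW {β c : ℝ} (hc : 0 ≤ c) {p : PowerSeries ℂ} (hp : FW β c p) :
    Summable fun n => ‖PowerSeries.coeff n p‖ := hp.summable hc

/-- division by `(X - z₀)^k` of a series vanishing to order `k` -/
theorem div_pow_of_bound {β : ℝ} (hβ0 : 0 < β) (hβ1 : β ≤ 1) {z₀ : ℂ} (hz : ‖z₀‖ = 1) (k : ℕ) :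
    ∀ {p : PowerSeries ℂ}, AA β p → ∀ {C : ℝ},
      (∀ y ∈ Metric.ball (0:ℂ) 1, ‖ev p y‖ ≤ C * ‖y - z₀‖ ^ k) →
      ∃ q, AA β q ∧ p = (PowerSeries.X - PowerSeries.C z₀) ^ k * q := by
  induction k with
  | zero => intro p hp C _; exact ⟨p, hp, by simp⟩
  | succ k ih =>
    intro p hp C hC
    have hsp := hp.summable
    have hne : (𝓝[Metric.ball (0:ℂ) 1] z₀).NeBot := by
      rw [← mem_closure_iff_nhdsWithin_neBot, closure_ball _ one_ne_zero]
      simp [hz]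
    have hev : ev p z₀ = 0 := by
      have h1 : Tendsto (ev p) (𝓝[Metric.ball (0:ℂ) 1] z₀) (𝓝 (ev p z₀)) :=
        ((ev_continuousOn hsp) z₀ (by simp [hz])).mono_left
          (nhdsWithin_mono _ Metric.ball_subset_closedBall)
      have h2 : Tendsto (ev p) (𝓝[Metric.ball (0:ℂ) 1] z₀) (𝓝 0) := by
        apply squeeze_zero_norm' (a := fun y => C * ‖y - z₀‖ ^ (k+1))
        · filter_upwards [self_mem_nhdsWithin] with y hy using hC y hy
        · have : Tendsto (fun y : ℂ => C * ‖y - z₀‖ ^ (k+1)) (𝓝 z₀) (𝓝 (C * ‖z₀ - z₀‖ ^ (k+1))) := by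
            apply Continuous.tendsto; fun_prop
          simp at this
          exact this.mono_left nhdsWithin_le_nhds
      exact tendsto_nhds_unique h1 h2
    obtain ⟨p', hp', hpp⟩ := div_root hβ0 hp hz.le hev
    obtain ⟨q, hq, hqq⟩ := ih hp' (C := C) (by
      intro y hy
      have hy1 : ‖y‖ < 1 := by simpa using hy
      have hne : 0 < ‖y - z₀‖ := by
        rw [norm_pos_iff, sub_ne_zero]; rintro rfl; linarith
      have h1 := hC y hy
      have hXC : AA β (PowerSeries.X - PowerSeries.C z₀) := AA_X.sub (AA_C _)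
      rw [hpp, ev_mul hXC.summable hp'.summable hy1.le,
        ev_sub (AA_X (β := β)).summable (AA_C (β := β) z₀).summable hy1.le, ev_X, ev_C, norm_mul, pow_succ] at h1
      have : ‖y - z₀‖ * ‖ev p' y‖ ≤ ‖y - z₀‖ * (C * ‖y - z₀‖ ^ k) := by linarith [h1]
      exact le_of_mul_le_mul_left this hne)
    exact ⟨q, hq, by rw [hpp, hqq, pow_succ]; ring⟩
end Pool.Agent.Helper203.GV
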