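import Pool.Agent.Helper203.GV.Asm1

open MeasureTheory Filter Topology Set

noncomputable section

namespace Pool.Agent.Helper203.GV

theorem aa_moments {β : ℝ} (hβ0 : 0 < β) {p : PowerSeries ℂ} (hp : AA β p) (m : ℕ) :
    Summable fun n : ℕ => (n:ℝ) ^ m * ‖PowerSeries.coeff n p‖ := by
  obtain ⟨c, hc, h⟩ := hp
  have h1 : Tendsto (fun n : ℕ => ((n:ℝ) ^ β) ^ ((m:ℝ)/β) * Real.exp (-c * (n:ℝ)^β)) atTop (𝓝 0) :=
    (tendsto_rpow_mul_exp_neg_mul_atTop_nhds_zero ((m:ℝ)/β) c hc).comp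
      ((tendsto_rpow_atTop hβ0).comp tendsto_natCast_atTop_atTop)
  have h2 : ∃ M : ℝ, ∀ n : ℕ, ((n:ℝ) ^ β) ^ ((m:ℝ)/β) * Real.exp (-c * (n:ℝ)^β) ≤ M := by
    obtain ⟨M, hM⟩ := h1.bddAbove_range
    exact ⟨M, fun n => hM ⟨n, rfl⟩⟩
  obtain ⟨M, hM⟩ := h2
  apply Summable.of_nonneg_of_le (fun n => by positivity) _ (h.mul_left M)
  intro n
  have h3 := hM n
  have h4 : ((n:ℝ) ^ β) ^ ((m:ℝ)/β) = (n:ℝ) ^ m := by
    rw [← Real.rpow_mul (Nat.cast_nonneg n), mul_div_cancel₀ _ hβ0.ne', Real.rpow_natCast]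
  rw [h4] at h3
  have h5 : (n:ℝ)^m ≤ M * wt β c n := by
    have : (n:ℝ)^m = ((n:ℝ)^m * Real.exp (-c * (n:ℝ)^β)) * wt β c n := by
      rw [wt, mul_assoc, ← Real.exp_add]; simp
    rw [this]
    exact mul_le_mul_of_nonneg_right h3 (Real.exp_pos _).le
  calc (n:ℝ) ^ m * ‖PowerSeries.coeff n p‖ ≤ (M * wt β c n) * ‖PowerSeries.coeff n p‖ :=
        mul_le_mul_of_nonneg_right h5 (norm_nonneg _)
    _ = _ := by ring

theorem nhds_neBot {z₀ : ℂ} (hz : ‖z₀‖ ≤ 1) : (𝓝[Metric.ball (0:ℂ) 1] z₀).NeBot := by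
  rw [← mem_closure_iff_nhdsWithin_neBot, closure_ball _ one_ne_zero]
  simpa using hz

theorem ord_factor {β : ℝ} (hβ0 : 0 < β) {z₀ : ℂ} (hz : ‖z₀‖ = 1)
    {p : PowerSeries ℂ} (hp : AA β p) (k : ℕ)
    (h : ∀ j < k, Tendsto (iteratedDeriv j (ev p)) (𝓝[Metric.ball 0 1] z₀) (𝓝 0)) :
    ∃ q, AA β q ∧ p = (PowerSeries.X - PowerSeries.C z₀) ^ k * q := by
  induction k with
  | zero => exact ⟨p, hp, by simp⟩
  | succ k ih =>
    obtain ⟨q, hq, hpq⟩ := ih (fun j hj => h j (by omega))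
    have h1 := deriv_limit (aa_moments hβ0 hq) hz k
    rw [← hpq] at h1
    have h2 := h k (by omega)
    haveI := nhds_neBot hz.le
    have h3 := tendsto_nhds_unique h1 h2
    have h4 : ev q z₀ = 0 := by
      rcases mul_eq_zero.1 h3 with h5 | h5
      · exfalso; exact (Nat.cast_ne_zero.2 (Nat.factorial_ne_zero k)) h5
      · exact h5
    obtain ⟨q', hq', hqq⟩ := div_root hβ0 hq hz.le h4
    exact ⟨q', hq', by rw [hpq, hqq, pow_succ]; ring⟩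

theorem ord_ne {β : ℝ} (hβ0 : 0 < β) {z₀ : ℂ} (hz : ‖z₀‖ = 1)
    {q : PowerSeries ℂ} (hq : AA β q) (k : ℕ)
    (h : ¬ Tendsto (iteratedDeriv k (ev ((PowerSeries.X - PowerSeries.C z₀) ^ k * q)))
      (𝓝[Metric.ball 0 1] z₀) (𝓝 0)) : ev q z₀ ≠ 0 := by
  intro h0
  apply h
  have := deriv_limit (aa_moments hβ0 hq) hz k
  rwa [h0, mul_zero] at this

theorem ev_pow_XC {β : ℝ} (hβ0 : 0 < β) (hβ1 : β ≤ 1) (z₀ : ℂ) (k : ℕ) :
    AA β ((PowerSeries.X - PowerSeries.C z₀) ^ k : PowerSeries ℂ) ∧ ∀ y : ℂ, ‖y‖ ≤ 1 →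
      ev ((PowerSeries.X - PowerSeries.C z₀) ^ k) y = (y - z₀) ^ k := by
  have hX : AA β (PowerSeries.X - PowerSeries.C z₀ : PowerSeries ℂ) := AA_X.sub (AA_C _)
  have hXe : ∀ y : ℂ, ‖y‖ ≤ 1 → ev (PowerSeries.X - PowerSeries.C z₀) y = y - z₀ := by
    intro y hy
    rw [ev_sub (AA_X (β := β)).summable (AA_C (β := β) z₀).summable hy, ev_X, ev_C]
  induction k with
  | zero =>
    refine ⟨by simpa using AA_C (β := β) 1, fun y hy => ?_⟩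
    have := ev_C 1 y
    simpa using this
  | succ k ih =>
    refine ⟨by rw [pow_succ]; exact ih.1.mul hβ0 hβ1 hX, fun y hy => ?_⟩
    rw [pow_succ, ev_mul ih.1.summable hX.summable hy, ih.2 y hy, hXe y hy, pow_succ]

theorem ser_ev_aa {β : ℝ} (hβ0 : 0 < β) {p : PowerSeries ℂ} (hp : AA β p) : ser (ev p) = p := by
  obtain ⟨c, hc, h⟩ := hp
  exact ser_ev hβ0 hc.le h

theorem ev_norm_le {p : PowerSeries ℂ} (hp : Summable fun n => ‖PowerSeries.coeff n p‖) :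
    ∃ B : ℝ, ∀ z : ℂ, ‖z‖ ≤ 1 → ‖ev p z‖ ≤ B := by
  refine ⟨∑' n, ‖PowerSeries.coeff n p‖, fun z hz => ?_⟩
  apply tsum_of_norm_bounded hp.hasSum
  intro n
  rw [norm_mul, norm_pow]
  exact mul_le_of_le_one_right (norm_nonneg _) (pow_le_one₀ (norm_nonneg _) hz)

end Pool.Agent.Helper203.GV
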