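import Pool.Agent.Helper203.GV.Asm2

open MeasureTheory Filter Topology Set

noncomputable section

namespace Pool.Agent.Helper203.GV

theorem lip_le {φ : ℂ → ℝ} (hL : LipschitzWith 1 φ) (x y : ℂ) : φ x ≤ φ y + ‖x - y‖ := by
  have := hL.dist_le_mul x y
  rw [Real.dist_eq, dist_eq_norm] at this
  simp at this
  linarith [le_abs_self (φ x - φ y)]

theorem ball_in {φ : ℂ → ℝ} (hL : LipschitzWith 1 φ) (hd : ∀ z, |1 - ‖z‖| ≤ φ z) {θ : ℝ}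
    (hθ : 0 < θ) (hθ1 : θ ≤ 1/8) {z y : ℂ} (hz : ‖z‖ < 1) (hy : ‖y - z‖ < θ / 4 * φ z) :
    0 < φ y ∧ ‖y‖ ≤ 1 + θ * φ y / 2 := by
  have h0 : 0 < φ z := lt_of_lt_of_le (by rw [abs_pos]; linarith [hz]) (hd z)
  have h1 : φ z ≤ φ y + ‖y - z‖ := by rw [norm_sub_rev]; exact lip_le hL z y
  have h2 : ‖y‖ ≤ ‖z‖ + ‖y - z‖ := by
    calc ‖y‖ = ‖z + (y - z)‖ := by ring_nf
      _ ≤ _ := norm_add_le _ _
  have h3 : θ / 4 * φ z ≤ φ z / 32 := by nlinarith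
  constructor
  · linarith
  · have h4 : φ y ≥ (31/32) * φ z := by linarith
    have h5 : θ * φ y / 2 ≥ θ / 4 * φ z := by nlinarith
    linarith

theorem gt_bound {α : ℝ} (h0 : 0 < α) {φ W ψ : ℂ → ℝ} (hL : LipschitzWith 1 φ)
    (hd : ∀ z, |1 - ‖z‖| ≤ φ z) (hW : Integrable W sg) {θ c1 : ℝ} (hθ : 0 < θ) (hθ1 : θ ≤ 1/8)
    (hc1 : 0 < c1) (hdψ : ∀ z, |1 - ‖z‖| ≤ ψ z)
    (hre : ∀ z, 0 < φ z → ‖z‖ ≤ 1 + θ * φ z / 2 → c1 * (ψ z) ^ (-α) ≤ (Hf θ φ W z).re)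
    {g : ℂ → ℂ} {C' Q' c : ℝ} (hC' : 0 < C') (hQ' : 0 < Q') (hc : 0 < c)
    (hg : DifferentiableOn ℂ g (Metric.ball 0 1))
    (hgb : ∀ j : ℕ, ∀ z ∈ Metric.ball (0:ℂ) 1,
        ‖iteratedDeriv j g z‖ ≤ C' * Q' ^ j * (j.factorial : ℝ) * (j : ℝ) ^ ((j : ℝ) / α) *
          Real.exp (-c * (φ z) ^ (-α))) :
    ∃ C Q : ℝ, 0 < C ∧ 0 < Q ∧ ∀ t : ℝ, 0 ≤ t →
      GB α C Q (fun z => g z * Complex.exp (-(t:ℂ) * Hf θ φ W z)) := by
  obtain ⟨C, Q, hC, hQ, h⟩ := prod_bound h0 hC' hQ' hc (κ := θ/4) (by positivity) (A := 1) one_pos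
  refine ⟨C, Q, hC, hQ, fun t ht => ?_⟩
  apply h g (fun z => Complex.exp (-(t:ℂ) * Hf θ φ W z)) φ (fun z => Real.exp (-c * (φ z) ^ (-α)))
  · intro z hz
    have : ‖z‖ < 1 := by simpa using hz
    exact lt_of_lt_of_le (by rw [abs_pos]; linarith) (hd z)
  · intro z; positivity
  · exact hg
  · exact hgb
  · intro z hz
    have hz1 : ‖z‖ < 1 := by simpa using hz
    constructor
    · apply DifferentiableOn.cexp
      apply DifferentiableOn.const_mul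
      apply (Hf_diff hθ hθ1 hL hd hW).mono
      intro y hy
      have := ball_in hL hd hθ hθ1 hz1 (y := y) (by simpa [dist_eq_norm] using hy)
      simp only [Set.mem_ofPred_eq]
      nlinarith [this.1, this.2]
    · intro y hy
      have h3 := ball_in hL hd hθ hθ1 hz1 (y := y) (by simpa [dist_eq_norm] using hy)
      have h4 := hre y h3.1 h3.2
      have h5 : 0 ≤ (ψ y) ^ (-α) := Real.rpow_nonneg (le_trans (abs_nonneg _) (hdψ y)) _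
      have h6 : 0 ≤ (Hf θ φ W y).re := le_trans (by positivity) h4
      have h7 : ‖Complex.exp (-(t:ℂ) * Hf θ φ W y)‖ ≤ 1 := by
        rw [Complex.norm_exp]
        apply Real.exp_le_one_iff.2
        have : (-(t:ℂ) * Hf θ φ W y).re = -t * (Hf θ φ W y).re := by
          simp
        rw [this]; nlinarith
      rw [one_mul]
      calc _ ≤ 1 * Real.exp (-c * (φ z) ^ (-α)) := by gcongr
        _ = _ := one_mul _

/-- `x⁻¹ exp(-c x^{-α})` is bounded on `(0,∞)` -/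
theorem inv_exp_bdd {α c : ℝ} (h0 : 0 < α) (hc : 0 < c) :
    ∃ A : ℝ, 0 < A ∧ ∀ x : ℝ, 0 < x → x⁻¹ * Real.exp (-c * x ^ (-α)) ≤ A := by
  have h1 : Tendsto (fun u : ℝ => u ^ (1/α) * Real.exp (-c * u)) atTop (𝓝 0) :=
    tendsto_rpow_mul_exp_neg_mul_atTop_nhds_zero (1/α) c hc
  have h2 : ContinuousOn (fun u : ℝ => u ^ (1/α) * Real.exp (-c * u)) (Ici 0) := by
    apply ContinuousOn.mul
    · exact (Real.continuous_rpow_const (by positivity)).continuousOn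
    · fun_prop
  have h3 : ∃ M : ℝ, ∀ u : ℝ, 0 ≤ u → u ^ (1/α) * Real.exp (-c * u) ≤ M := by
    obtain ⟨N, hN⟩ := (h1.eventually (gt_mem_nhds zero_lt_one)).exists_forall_of_atTop
    obtain ⟨M, hM⟩ := (isCompact_Icc (a := (0:ℝ)) (b := N)).bddAbove_image (h2.mono (fun x hx => hx.1))
    refine ⟨max M 1, fun u hu => ?_⟩
    by_cases h : u ≤ N
    · exact le_trans (hM ⟨u, ⟨hu, h⟩, rfl⟩) (le_max_left _ _)
    · exact le_trans (hN u (by linarith)).le (le_max_right _ _)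
  obtain ⟨M, hM⟩ := h3
  refine ⟨max M 1, by positivity, fun x hx => ?_⟩
  have h4 := hM (x ^ (-α)) (by positivity)
  have h5 : (x ^ (-α)) ^ (1/α) = x⁻¹ := by
    rw [← Real.rpow_mul hx.le, show -α * (1/α) = -1 by field_simp, Real.rpow_neg_one]
  rw [h5] at h4
  exact h4.trans (le_max_left _ _)

theorem gz_bound {α : ℝ} (h0 : 0 < α) {φ W ψ : ℂ → ℝ} (hL : LipschitzWith 1 φ)
    (hd : ∀ z, |1 - ‖z‖| ≤ φ z) (hW : Integrable W sg) {θ c1 : ℝ} (hθ : 0 < θ) (hθ1 : θ ≤ 1/8)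
    (hc1 : 0 < c1) (hLψ : LipschitzWith 1 ψ) (hdψ : ∀ z, |1 - ‖z‖| ≤ ψ z) (hψφ : ∀ z, ψ z ≤ 3 * φ z)
    (hre : ∀ z, 0 < φ z → ‖z‖ ≤ 1 + θ * φ z / 2 → c1 * (ψ z) ^ (-α) ≤ (Hf θ φ W z).re)
    {g : ℂ → ℂ} {C' Q' c : ℝ} (hC' : 0 < C') (hQ' : 0 < Q') (hc : 0 < c)
    (hg : DifferentiableOn ℂ g (Metric.ball 0 1))
    (hgb : ∀ j : ℕ, ∀ z ∈ Metric.ball (0:ℂ) 1,
        ‖iteratedDeriv j g z‖ ≤ C' * Q' ^ j * (j.factorial : ℝ) * (j : ℝ) ^ ((j : ℝ) / α) *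
          Real.exp (-c * (φ z) ^ (-α))) {t : ℝ} (ht : 0 < t) {κ₁ : ℝ} (hκ₁ : 0 < κ₁) :
    ∃ C Q : ℝ, 0 < C ∧ 0 < Q ∧ ∀ z₀ : ℂ, 1 < ‖z₀‖ → 1 + κ₁ * ψ z₀ ≤ ‖z₀‖ →
      GB α C Q (fun z => g z * (Complex.exp (-(t:ℂ) * Hf θ φ W z) * (z₀ - z)⁻¹)) := by
  set κ₄ : ℝ := κ₁ / (1 + κ₁) with hκ₄
  have hκ₄0 : 0 < κ₄ := by positivity
  have hκ₄1 : κ₄ < 1 := by rw [hκ₄, div_lt_one (by positivity)]; linarith
  set κ : ℝ := min (θ/12) (κ₄/2) with hκ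
  have hκ0 : 0 < κ := by positivity
  set c₂ : ℝ := t * c1 * (2:ℝ) ^ (-α) / 2 with hc₂
  have hc₂0 : 0 < c₂ := by positivity
  obtain ⟨A', hA', hAb⟩ := inv_exp_bdd h0 hc₂0
  obtain ⟨C, Q, hC, hQ, h⟩ := prod_bound h0 hC' hQ' hc₂0 hκ0 (A := 2/κ₄ * A') (by positivity)
  refine ⟨C, Q, hC, hQ, fun z₀ hz₀ hz₀' => ?_⟩
  apply h g (fun z => Complex.exp (-(t:ℂ) * Hf θ φ W z) * (z₀ - z)⁻¹) ψ (fun _ => 1)
  · intro z hz
    have : ‖z‖ < 1 := by simpa using hz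
    exact lt_of_lt_of_le (by rw [abs_pos]; linarith) (hdψ z)
  · intro z; exact zero_le_one
  · exact hg
  · intro j z hz
    refine (hgb j z hz).trans ?_
    apply mul_le_mul_of_nonneg_left _ (by positivity)
    apply Real.exp_le_one_iff.2
    have : 0 ≤ (φ z) ^ (-α) := Real.rpow_nonneg (le_trans (abs_nonneg _) (hd z)) _
    nlinarith
  · intro ζ hζ
    have hζ1 : ‖ζ‖ < 1 := by simpa using hζ
    have hψζ : 0 < ψ ζ := lt_of_lt_of_le (by rw [abs_pos]; linarith) (hdψ ζ)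
    have hφζ : 0 < φ ζ := lt_of_lt_of_le (by rw [abs_pos]; linarith) (hd ζ)
    -- distance
    have hdist : κ₄ * ψ ζ ≤ ‖z₀ - ζ‖ := by
      have a1 : ψ ζ ≤ ψ z₀ + ‖ζ - z₀‖ := lip_le hLψ ζ z₀
      have a2 : ‖z₀‖ ≤ ‖z₀ - ζ‖ + ‖ζ‖ := by
        calc ‖z₀‖ = ‖(z₀ - ζ) + ζ‖ := by ring_nf
          _ ≤ _ := norm_add_le _ _
      rw [norm_sub_rev] at a1
      have a3 : κ₁ * ψ z₀ ≤ ‖z₀ - ζ‖ := by linarith
      have a4 : κ₁ * ψ ζ ≤ (1 + κ₁) * ‖z₀ - ζ‖ := by nlinarith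
      rw [hκ₄, div_mul_eq_mul_div, div_le_iff₀ (by positivity)]
      linarith
    have key : ∀ y ∈ Metric.ball ζ (κ * ψ ζ), (0 < φ y ∧ ‖y‖ ≤ 1 + θ * φ y / 2) ∧
        κ₄/2 * ψ ζ ≤ ‖z₀ - y‖ ∧ ψ y ≤ 2 * ψ ζ ∧ 0 < ψ y := by
      intro y hy
      have hy1 : ‖y - ζ‖ < κ * ψ ζ := by simpa [dist_eq_norm] using hy
      have e1 : κ ≤ θ/12 := min_le_left _ _
      have e2 : κ ≤ κ₄/2 := min_le_right _ _
      refine ⟨ball_in hL hd hθ hθ1 hζ1 ?_, ?_, ?_, ?_⟩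
      · have := hψφ ζ
        calc ‖y - ζ‖ < κ * ψ ζ := hy1
          _ ≤ θ/12 * (3 * φ ζ) := by gcongr
          _ = θ/4 * φ ζ := by ring
      · have a1 : ‖z₀ - ζ‖ ≤ ‖z₀ - y‖ + ‖y - ζ‖ := by
          calc ‖z₀ - ζ‖ = ‖(z₀ - y) + (y - ζ)‖ := by ring_nf
            _ ≤ _ := norm_add_le _ _
        have a2 : κ * ψ ζ ≤ κ₄/2 * ψ ζ := by gcongr
        nlinarith
      · have a1 := lip_le hLψ y ζ
        have a2 : κ * ψ ζ ≤ 1 * ψ ζ := by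
          apply mul_le_mul_of_nonneg_right _ hψζ.le
          linarith
        linarith
      · have a1 := lip_le hLψ ζ y
        rw [norm_sub_rev] at a1
        have a2 : κ * ψ ζ ≤ (1/2) * ψ ζ := by
          apply mul_le_mul_of_nonneg_right _ hψζ.le
          linarith
        linarith
    constructor
    · apply DifferentiableOn.mul
      · apply DifferentiableOn.cexp
        apply DifferentiableOn.const_mul
        apply (Hf_diff hθ hθ1 hL hd hW).mono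
        intro y hy
        have := (key y hy).1
        simp only [Set.mem_ofPred_eq]
        nlinarith [this.1, this.2]
      · apply DifferentiableOn.inv
        · fun_prop
        · intro y hy h
          have := (key y hy).2.1
          rw [h, norm_zero] at this
          have : 0 < κ₄/2 * ψ ζ := by positivity
          linarith
    · intro y hy
      obtain ⟨h3, h4, h5, h6⟩ := key y hy
      have h7 := hre y h3.1 h3.2
      rw [norm_mul, Complex.norm_exp, norm_inv]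
      have h8 : (-(t:ℂ) * Hf θ φ W y).re = -t * (Hf θ φ W y).re := by simp
      rw [h8]
      have h9 : (2 * ψ ζ) ^ (-α) ≤ (ψ y) ^ (-α) :=
        Real.rpow_le_rpow_of_nonpos h6 h5 (by linarith)
      rw [Real.mul_rpow (by norm_num) hψζ.le] at h9
      have h10 : -t * (Hf θ φ W y).re ≤ -c₂ * (ψ ζ) ^ (-α) + -c₂ * (ψ ζ) ^ (-α) := by
        have : t * (c1 * (2 ^ (-α) * (ψ ζ) ^ (-α))) ≤ t * (Hf θ φ W y).re := by
          apply mul_le_mul_of_nonneg_left _ ht.le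
          refine le_trans ?_ h7
          gcongr
        have e : -c₂ * (ψ ζ) ^ (-α) + -c₂ * (ψ ζ) ^ (-α) = -(t * (c1 * (2 ^ (-α) * (ψ ζ) ^ (-α)))) := by
          rw [hc₂]; ring
        rw [e]; linarith
      have h11 : ‖z₀ - y‖⁻¹ ≤ 2/κ₄ * (ψ ζ)⁻¹ := by
        have : (κ₄/2 * ψ ζ)⁻¹ = 2/κ₄ * (ψ ζ)⁻¹ := by field_simp
        rw [← this]
        exact inv_anti₀ (by positivity) h4
      calc Real.exp (-t * (Hf θ φ W y).re) * ‖z₀ - y‖⁻¹ * 1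
          ≤ Real.exp (-c₂ * (ψ ζ) ^ (-α) + -c₂ * (ψ ζ) ^ (-α)) * (2/κ₄ * (ψ ζ)⁻¹) := by
            rw [mul_one]
            apply mul_le_mul (Real.exp_le_exp.2 h10) h11 (by positivity) (by positivity)
        _ = (2/κ₄ * ((ψ ζ)⁻¹ * Real.exp (-c₂ * (ψ ζ) ^ (-α)))) * Real.exp (-c₂ * (ψ ζ) ^ (-α)) := by
            rw [Real.exp_add]; ring
        _ ≤ (2/κ₄ * A') * Real.exp (-c₂ * (ψ ζ) ^ (-α)) := by
            gcongr
            exact hAb _ hψζ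

end Pool.Agent.Helper203.GV
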