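import Pool.Agent.Helper203.GV.Asm3

open MeasureTheory Filter Topology Set

noncomputable section

namespace Pool.Agent.Helper203.GV

theorem sg_ae : ∀ᵐ ζ ∂sg, ‖ζ‖ = 1 := by
  have hm : Measurable fun t : ℝ => Complex.exp (t * Complex.I) := by
    apply Continuous.measurable; fun_prop
  rw [sg, ae_map_iff hm.aemeasurable]
  · exact Eventually.of_forall fun t => Complex.norm_exp_ofReal_mul_I t
  · exact (isClosed_eq continuous_norm continuous_const).measurableSet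

theorem ev_Rz {z y : ℂ} (hz : 1 < ‖z‖) (hy : ‖y‖ ≤ 1) : ev (Rz z) y = (z - y)⁻¹ := by
  have hz0 : z ≠ 0 := by rintro rfl; simp at hz; linarith
  have h1 : ‖z⁻¹ * y‖ < 1 := by
    rw [norm_mul, norm_inv]
    calc ‖z‖⁻¹ * ‖y‖ ≤ ‖z‖⁻¹ * 1 := by gcongr
      _ < 1 := by rw [mul_one]; exact inv_lt_one_of_one_lt₀ hz
  have h2 := (hasSum_geometric_of_norm_lt_one h1).mul_left z⁻¹
  unfold ev
  have h3 : (fun n => PowerSeries.coeff n (Rz z) * y ^ n) = fun n => z⁻¹ * (z⁻¹ * y) ^ n := by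
    funext n
    simp only [Rz, PowerSeries.coeff_mk]
    rw [mul_pow, pow_succ]; ring
  rw [h3, h2.tsum_eq, ← mul_inv]
  congr 1
  field_simp

theorem phi_zero {α : ℝ} (h0 : 0 < α) (h1 : α < 1) {I : Set (PowerSeries ℂ)}
    (hA : ∀ p ∈ I, AA (α/(1+α)) p) (hadd : ∀ p ∈ I, ∀ q ∈ I, p + q ∈ I)
    (hmul : ∀ p ∈ I, ∀ q, AA (α/(1+α)) q → q * p ∈ I)
    {b : ℕ → ℂ} (hb : Grow (α/(1+α)) b) (hbI : ∀ p ∈ I, Phi b p = 0)
    {ψ : ℂ → ℝ} (hL : LipschitzWith 1 ψ)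
    (hd : ∀ z, |1 - ‖z‖| ≤ ψ z) (hψ1 : ∀ z, ‖z‖ = 1 → ψ z ≤ 1) (hE : sg {z | ψ z = 0} = 0)
    (hint : Integrable (fun ζ => (ψ ζ) ^ (-α)) sg)
    (hB : ∃ K : ℝ, ∀ ζ, ‖ζ‖ = 1 →
        ∫⁻ z in {z | ψ z / 4 ≤ ‖z - ζ‖}, ENNReal.ofReal (ψ z / ‖z - ζ‖ ^ 2) ∂sg ≤
          ENNReal.ofReal K)
    {F : ℂ → ℂ} {C Q : ℝ} (hQ : 0 < Q) (hF : GB α C Q F)
    (hJ : ∀ z : ℂ, ‖z‖ ≤ 1 → ψ z ≠ 0 → ∃ u, AA (α/(1+α)) u ∧ ser F * u ∈ I ∧ ev u z ≠ 0)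
    (hJ2 : ∃ q : ℕ → PowerSeries ℂ, (∀ n, AA (α/(1+α)) (q n)) ∧ (∀ n, ser F * q n ∈ I) ∧
      Tendsto (fun n => ∑' k, ‖PowerSeries.coeff k (q n - 1)‖ ^ 2) atTop (𝓝 0))
    (hbd : ∀ κ : ℝ, 0 < κ → ∃ C Q : ℝ, 0 < C ∧ 0 < Q ∧ ∀ z₀ : ℂ, 1 < ‖z₀‖ → 1 + κ * ψ z₀ ≤ ‖z₀‖ →
      GB α C Q (fun z => F z * (z₀ - z)⁻¹)) :
    Phi b (ser F) = 0 := by
  have hβ0 := beta_pos h0
  have hβ1 := beta_lt h0
  obtain ⟨K, c₂, hK, hc₂, hfw⟩ := fw_of_gb h0 hQ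
  have hFW := (hfw C F hF).1
  have hG : AA (α/(1+α)) (ser F) := ⟨c₂, hc₂, hFW⟩
  have hEc : IsClosed {z | ψ z = 0} := isClosed_eq hL.continuous continuous_const
  have hE1 : ∀ z ∈ {z | ψ z = 0}, ‖z‖ = 1 := by
    intro z hz
    have h2 := hd z
    simp only [Set.mem_ofPred_eq] at hz
    rw [hz] at h2
    have := abs_nonpos_iff.1 h2
    linarith
  obtain ⟨Λ, hΛd, hΛ, hΛu⟩ := continuation hβ0 hβ1 hA hadd hmul hb hbI hG hEc hE1 (by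
    intro z hz hzE
    exact hJ z hz hzE)
  -- growth
  have hgr : ∀ c : ℝ, 0 < c → ∃ C : ℝ, ∀ z, 1 < ‖z‖ → ‖Λ z‖ ≤ C * Real.exp (c * (‖z‖ - 1) ^ (-α)) := by
    intro c hc
    obtain ⟨c₁, C₁, hc₁, hR⟩ := nrm_Rz_le h0 hc
    have hc₃ : 0 < min c₁ c₂ := lt_min hc₁ hc₂
    obtain ⟨Cp, hCp, hP⟩ := norm_Phi_le hb hc₃
    refine ⟨Cp * nrm (α/(1+α)) (min c₁ c₂) (ser F) * C₁, fun z hz => ?_⟩
    have e1 := hR z hz
    have e2 : FW (α/(1+α)) (min c₁ c₂) (Rz z) := e1.1.mono (min_le_left _ _)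
    have e3 : FW (α/(1+α)) (min c₁ c₂) (ser F) := hFW.mono (min_le_right _ _)
    rw [hΛ z hz]
    calc ‖Phi b (ser F * Rz z)‖ ≤ Cp * nrm (α/(1+α)) (min c₁ c₂) (ser F * Rz z) :=
          hP _ (e3.mul hβ0 hβ1.le hc₃.le e2)
      _ ≤ Cp * (nrm (α/(1+α)) (min c₁ c₂) (ser F) * nrm (α/(1+α)) (min c₁ c₂) (Rz z)) := by
          gcongr; exact nrm_mul_le hβ0 hβ1.le hc₃.le e3 e2
      _ ≤ Cp * (nrm (α/(1+α)) (min c₁ c₂) (ser F) * (C₁ * Real.exp (c * (‖z‖ - 1) ^ (-α)))) := by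
          have := nrm_nonneg (α/(1+α)) (min c₁ c₂) (ser F)
          gcongr
          exact (nrm_mono (min_le_left _ _) e1.1).trans e1.2
      _ = _ := by ring
  have hbb : ∀ κ : ℝ, 0 < κ → ∃ C : ℝ, ∀ z, 1 < ‖z‖ → 1 + κ * ψ z ≤ ‖z‖ → ‖z‖ ≤ 2 → ‖Λ z‖ ≤ C := by
    intro κ hκ
    obtain ⟨C', Q', hC', hQ', hGB⟩ := hbd κ hκ
    obtain ⟨K', c', hK', hc', hfw'⟩ := fw_of_gb h0 hQ'
    obtain ⟨Cp, hCp, hP⟩ := norm_Phi_le hb hc'
    refine ⟨Cp * (K' * C'), fun z hz hz' _ => ?_⟩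
    have e0 := hfw' C' _ (hGB z hz hz')
    have e1 : ser F * Rz z = ser (fun y => F y * (z - y)⁻¹) := by
      obtain ⟨c₁, C₁, hc₁, hR⟩ := nrm_Rz_le h0 (c' := 1) one_pos
      have s1 : Summable fun n => ‖PowerSeries.coeff n (Rz z)‖ := (hR z hz).1.summable hc₁.le
      have s2 : AA (α/(1+α)) (Rz z) := ⟨c₁, hc₁, (hR z hz).1⟩
      apply ev_inj (hG.mul hβ0 hβ1.le s2).summable (e0.1.summable hc'.le)
      intro y hy
      have hy1 : ‖y‖ < 1 := by simpa using hy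
      rw [ev_mul hG.summable s1 hy1.le, ev_ser hF.1 y hy, ev_Rz hz hy1.le]
      rw [ev_ser (hGB z hz hz').1 y hy]
    rw [hΛ z hz, e1]
    calc _ ≤ Cp * nrm (α/(1+α)) c' _ := hP _ e0.1
      _ ≤ Cp * (K' * C') := by gcongr; exact e0.2
  obtain ⟨q, hq, hqI, hql⟩ := hJ2
  have hone : AA (α/(1+α)) (1 : PowerSeries ℂ) := by simpa using AA_C (β := α/(1+α)) 1
  obtain ⟨w, hwm, hw0, hwi, hwb⟩ := poisson_bound hEc hE1 hE hΛd (u := fun n => ev (q n))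
    (fun n => ev_differentiableOn (hq n).summable) (fun n => ev_continuousOn (hq n).summable)
    (fun n => hΛu (q n) (hq n) (hqI n)) (by
      have : (fun n => ∫ ζ, ‖ev (q n) ζ - 1‖ ^ 2 ∂sg) =
          fun n => 2 * Real.pi * ∑' k, ‖PowerSeries.coeff k (q n - 1)‖ ^ 2 := by
        funext n
        rw [← parseval_sub ((hq n).sub hone).summable]
        apply integral_congr_ae
        filter_upwards [sg_ae] with ζ hζ
        rw [ev_sub (hq n).summable hone.summable hζ.le]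
        have := ev_C 1 ζ
        rw [map_one] at this
        rw [this]
      rw [this]
      simpa using hql.const_mul (2 * Real.pi))
  obtain ⟨C₀, hC₀⟩ := pl_bound h0 h1 hL hd hψ1 hE hint hB (Λ := Λ) hΛd hgr hbb hwm hw0 hwi hwb
  have h5 := removable_circle hEc hE1 hE hΛd (C := C₀) (fun z hz hzE => hC₀ z hz hzE)
  have h6 : (∮ z in C(0, 2), Λ z) = ∮ z in C(0, 2), Phi b (ser F * Rz z) := by
    apply circleIntegral.integral_congr (by norm_num)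
    intro z hz
    have : ‖z‖ = 2 := by simpa using hz
    exact hΛ z (by rw [this]; norm_num)
  rw [h6, circle_Phi hβ0 hβ1 hb hG] at h5
  rcases mul_eq_zero.1 h5 with h7 | h7
  · exfalso
    exact Complex.two_pi_I_ne_zero h7
  · exact h7

end Pool.Agent.Helper203.GV
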