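import Pool.Agent.Helper203.GV.Asm4

open MeasureTheory Filter Topology Set

noncomputable section

namespace Pool.Agent.Helper203.GV

theorem ev_l2 {p : PowerSeries ℂ} (hp : Summable fun n => ‖PowerSeries.coeff n p‖) {z : ℂ}
    (hz : ‖z‖ < 1) :
    ‖ev p z‖ ^ 2 ≤ (∑' k, ‖PowerSeries.coeff k p‖ ^ 2) * (1 - ‖z‖ ^ 2)⁻¹ := by
  have hs : Summable fun n => PowerSeries.coeff n p * z ^ n := by
    apply Summable.of_norm_bounded hp
    intro n
    rw [norm_mul, norm_pow]
    exact mul_le_of_le_one_right (norm_nonneg _) (pow_le_one₀ (norm_nonneg _) hz.le)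
  have hsq : Summable fun n => ‖PowerSeries.coeff n p‖ ^ 2 := by
    obtain ⟨N, hN⟩ := (hp.tendsto_atTop_zero.eventually (gt_mem_nhds zero_lt_one)).exists_forall_of_atTop
    apply (summable_nat_add_iff N).1
    apply Summable.of_nonneg_of_le (fun n => by positivity) _ ((summable_nat_add_iff N).2 hp)
    intro n
    have h1 := hN (n+N) (by omega)
    have h2 := norm_nonneg (PowerSeries.coeff (n+N) p)
    nlinarith
  have hz2 : ‖z‖ ^ 2 < 1 := by
    have := norm_nonneg z
    nlinarith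
  have hg : HasSum (fun n : ℕ => (‖z‖ ^ 2) ^ n) (1 - ‖z‖ ^ 2)⁻¹ :=
    hasSum_geometric_of_lt_one (by positivity) hz2
  have h1 : Tendsto (fun s : Finset ℕ => ‖∑ n ∈ s, PowerSeries.coeff n p * z ^ n‖ ^ 2) atTop
      (𝓝 (‖ev p z‖ ^ 2)) := (hs.hasSum.norm).pow 2
  apply le_of_tendsto h1
  filter_upwards with s
  calc ‖∑ n ∈ s, PowerSeries.coeff n p * z ^ n‖ ^ 2
      ≤ (∑ n ∈ s, ‖PowerSeries.coeff n p‖ * ‖z‖ ^ n) ^ 2 := by
        gcongr
        refine (norm_sum_le _ _).trans_eq ?_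
        simp [norm_mul, norm_pow]
    _ ≤ (∑ n ∈ s, ‖PowerSeries.coeff n p‖ ^ 2) * ∑ n ∈ s, (‖z‖ ^ n) ^ 2 :=
        Finset.sum_mul_sq_le_sq_mul_sq _ _ _
    _ ≤ (∑' k, ‖PowerSeries.coeff k p‖ ^ 2) * (1 - ‖z‖ ^ 2)⁻¹ := by
        apply mul_le_mul
        · exact hsq.sum_le_tsum _ (fun i _ => by positivity)
        · have : (∑ n ∈ s, (‖z‖ ^ n) ^ 2) = ∑ n ∈ s, (‖z‖ ^ 2) ^ n := by
            apply Finset.sum_congr rfl; intro n _; rw [← pow_mul, ← pow_mul, mul_comm]
          rw [this, ← hg.tsum_eq]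
          exact hg.summable.sum_le_tsum _ (fun i _ => by positivity)
        · positivity
        · apply tsum_nonneg; intro i; positivity

theorem q_ne {β : ℝ} {q : ℕ → PowerSeries ℂ} (hq : ∀ n, AA β (q n))
    (hl : Tendsto (fun n => ∑' k, ‖PowerSeries.coeff k (q n - 1)‖ ^ 2) atTop (𝓝 0)) {z : ℂ}
    (hz : ‖z‖ < 1) : ∃ n, ev (q n) z ≠ 0 := by
  by_contra hcon
  push Not at hcon
  have hone : AA β (1 : PowerSeries ℂ) := by simpa using AA_C (β := β) 1
  have h1 : ∀ n, (1:ℝ) ≤ (∑' k, ‖PowerSeries.coeff k (q n - 1)‖ ^ 2) * (1 - ‖z‖ ^ 2)⁻¹ := by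
    intro n
    have := ev_l2 ((hq n).sub hone).summable hz
    rw [ev_sub (hq n).summable hone.summable hz.le, hcon n] at this
    have h2 := ev_C 1 z
    rw [map_one] at h2
    rw [h2] at this
    simpa using this
  have h2 := hl.mul_const ((1 - ‖z‖ ^ 2)⁻¹)
  rw [zero_mul] at h2
  have := ge_of_tendsto' h2 h1
  linarith

theorem phi_tendsto {β : ℝ} (hβ : 0 < β) {b : ℕ → ℂ} (hb : Grow β b) {c M : ℝ} (hc : 0 < c)
    {p : ℕ → PowerSeries ℂ} {p₀ : PowerSeries ℂ}
    (hp : ∀ m, FW β c (p m) ∧ nrm β c (p m) ≤ M)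
    (hlim : ∀ n, Tendsto (fun m => PowerSeries.coeff n (p m)) atTop (𝓝 (PowerSeries.coeff n p₀))) :
    Tendsto (fun m => Phi b (p m)) atTop (𝓝 (Phi b p₀)) := by
  obtain ⟨C, hC⟩ := hb (c/2) (by positivity)
  have hs := gvA_summable hβ (show 0 < c/2 by positivity)
  unfold Phi
  apply tendsto_tsum_of_dominated_convergence (bound := fun n : ℕ => C * M * Real.exp (-(c/2 * (n:ℝ)^β)))
  · exact hs.mul_left _
  · intro n
    exact (hlim n).const_mul _
  · filter_upwards with m n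
    have h1 : ‖PowerSeries.coeff n (p m)‖ * wt β c n ≤ M := by
      refine le_trans ?_ (hp m).2
      exact (hp m).1.le_tsum n (fun j _ => mul_nonneg (norm_nonneg _) (wt_pos _ _ _).le)
    have h2 := hC n
    have h3 : 0 < wt β c n := wt_pos _ _ _
    have h4 : ‖PowerSeries.coeff n (p m)‖ ≤ M / wt β c n := by
      rw [le_div_iff₀ h3]; exact h1
    rw [norm_mul]
    have hM : 0 ≤ M := le_trans (mul_nonneg (norm_nonneg _) h3.le) h1
    calc ‖b n‖ * ‖PowerSeries.coeff n (p m)‖ ≤ (C * wt β (c/2) n) * (M / wt β c n) := by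
          apply mul_le_mul h2 h4 (norm_nonneg _) (le_trans (norm_nonneg _) h2)
      _ = C * M * (wt β (c/2) n / wt β c n) := by ring
      _ = C * M * Real.exp (-(c/2 * (n:ℝ)^β)) := by
          congr 1
          rw [wt, wt, ← Real.exp_sub]
          congr 1; ring

theorem coef_tendsto {g H : ℂ → ℂ} (hg : DifferentiableOn ℂ g (Metric.ball 0 1))
    (hH : DifferentiableOn ℂ H (Metric.ball 0 1)) {t : ℕ → ℝ} (ht : Tendsto t atTop (𝓝 0)) (n : ℕ) :
    Tendsto (fun m => PowerSeries.coeff n (ser (fun z => g z * Complex.exp (-(t m : ℂ) * H z)))) atTop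
      (𝓝 (PowerSeries.coeff n (ser g))) := by
  have hsub : Metric.closedBall (0:ℂ) (1/2) ⊆ Metric.ball 0 1 :=
    Metric.closedBall_subset_ball (by norm_num)
  have hcpt : IsCompact (Metric.closedBall (0:ℂ) (1/2)) := isCompact_closedBall _ _
  obtain ⟨M₁, hM₁⟩ := hcpt.bddAbove_image (hg.continuousOn.mono hsub).norm
  obtain ⟨M₂, hM₂⟩ := hcpt.bddAbove_image (hH.continuousOn.mono hsub).norm
  have hM₁' : ∀ z ∈ Metric.closedBall (0:ℂ) (1/2), ‖g z‖ ≤ max M₁ 1 := fun z hz =>
    (hM₁ ⟨z, hz, rfl⟩).trans (le_max_left _ _)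
  have hM₂' : ∀ z ∈ Metric.closedBall (0:ℂ) (1/2), ‖H z‖ ≤ max M₂ 1 := fun z hz =>
    (hM₂ ⟨z, hz, rfl⟩).trans (le_max_left _ _)
  set A := max M₁ 1
  set B := max M₂ 1
  have hA : 0 < A := by positivity
  have hB : 0 < B := by positivity
  have hdiff : ∀ m, DifferentiableOn ℂ (fun z => g z * Complex.exp (-(t m : ℂ) * H z)) (Metric.ball 0 1) :=
    fun m => hg.mul (hH.const_mul _).cexp
  have h0 : (0:ℂ) ∈ Metric.ball (0:ℂ) 1 := by simp
  have hcd : ∀ {f : ℂ → ℂ}, DifferentiableOn ℂ f (Metric.ball 0 1) → ContDiffAt ℂ n f 0 := by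
    intro f hf
    exact (hf.contDiffOn Metric.isOpen_ball).contDiffAt (Metric.isOpen_ball.mem_nhds h0)
  rw [tendsto_iff_norm_sub_tendsto_zero]
  have hev : ∀ᶠ m in atTop, |t m| * B ≤ 1 := by
    have h1 : Tendsto (fun m => |t m| * B) atTop (𝓝 0) := by
      have := (ht.abs).mul_const B
      simpa using this
    filter_upwards [h1.eventually (gt_mem_nhds zero_lt_one)] with m hm using hm.le
  apply squeeze_zero_norm' (a := fun m => A * (2 * (|t m| * B)) / (1/2) ^ n)
  · filter_upwards [hev] with m hm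
    rw [norm_norm]
    simp only [ser, PowerSeries.coeff_mk]
    rw [← sub_div, ← iteratedDeriv_fun_sub (hcd (hdiff m)) (hcd hg), norm_div]
    have hC := Complex.norm_iteratedDeriv_le_of_forall_mem_sphere_norm_le n (c := 0) (R := 1/2)
      (C := A * (2 * (|t m| * B)))
      (f := fun z => g z * Complex.exp (-(t m : ℂ) * H z) - g z) (by norm_num)
      (((hdiff m).sub hg).mono (by
        rw [closure_ball _ (by norm_num)]; exact hsub)).diffContOnCl (by
        intro z hz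
        have hz' := Metric.sphere_subset_closedBall hz
        have e1 : g z * Complex.exp (-(t m : ℂ) * H z) - g z =
          g z * (Complex.exp (-(t m : ℂ) * H z) - 1) := by ring
        rw [e1, norm_mul]
        have e2 : ‖-(t m : ℂ) * H z‖ ≤ |t m| * B := by
          rw [norm_mul, norm_neg, Complex.norm_real, Real.norm_eq_abs]
          gcongr
          exact hM₂' z hz'
        have e3 := Complex.norm_exp_sub_one_le (e2.trans hm)
        apply mul_le_mul (hM₁' z hz') (e3.trans (by linarith)) (norm_nonneg _) hA.le)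
    have hf : (0:ℝ) < n.factorial := by exact_mod_cast Nat.factorial_pos n
    rw [Complex.norm_natCast, div_le_iff₀ hf]
    refine hC.trans_eq ?_
    ring
  · have h1 : Tendsto (fun m => A * (2 * (|t m| * B)) / (1/2) ^ n) atTop (𝓝 (A * (2 * (|(0:ℝ)| * B)) / (1/2) ^ n)) :=
      ((((ht.abs).mul_const B).const_mul 2).const_mul A).div_const _
    simpa using h1

end Pool.Agent.Helper203.GV
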