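import Pool.Agent.Helper203.GV.Asm5

open MeasureTheory Filter Topology Set

noncomputable section

namespace Pool.Agent.Helper203.GV

theorem core {α : ℝ} (h0 : 0 < α) (h1 : α < 1) {I : Set (PowerSeries ℂ)}
    (hA : ∀ p ∈ I, AA (α/(1+α)) p) (hI0 : (0 : PowerSeries ℂ) ∈ I)
    (hadd : ∀ p ∈ I, ∀ q ∈ I, p + q ∈ I)
    (hmul : ∀ p ∈ I, ∀ q, AA (α/(1+α)) q → q * p ∈ I)
    (hcl : ∀ c : ℝ, 0 < c → ∀ (u : ℕ → PowerSeries ℂ) (p : PowerSeries ℂ), (∀ m, u m ∈ I) →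
      (∀ m, FW (α/(1+α)) c (u m)) → FW (α/(1+α)) c p →
      Tendsto (fun m => nrm (α/(1+α)) c (u m - p)) atTop (𝓝 0) → p ∈ I)
    {S : ℂ → ℂ}
    (hSF : ∀ p : PowerSeries ℂ, AA (α/(1+α)) p → ∀ h : ℂ → ℂ, DifferentiableOn ℂ h (Metric.ball 0 1) →
        (∃ B : ℝ, ∀ z ∈ Metric.ball (0:ℂ) 1, ‖h z‖ ≤ B) →
        (∀ z ∈ Metric.ball (0:ℂ) 1, ev p z = S z * h z) → AA (α/(1+α)) (ser h))
    (hPq : ∃ P q : ℕ → PowerSeries ℂ, (∀ n, P n ∈ I) ∧ (∀ n, AA (α/(1+α)) (q n)) ∧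
        (∀ n, ∀ z ∈ Metric.ball (0:ℂ) 1, ev (P n) z = S z * ev (q n) z) ∧
        Tendsto (fun n => ∑' k, ‖PowerSeries.coeff k (q n - 1)‖ ^ 2) atTop (𝓝 0))
    {g : ℂ → ℂ} {C Q : ℝ} (hg : GB α C Q g) (hSg : Dvd S g)
    (hZ : ∀ z : ℂ, ‖z‖ = 1 → ¬ (∀ j : ℕ, Tendsto (iteratedDeriv j g) (𝓝[Metric.ball 0 1] z) (𝓝 0)) →
      ∃ k : ℕ, (∀ j < k, Tendsto (iteratedDeriv j g) (𝓝[Metric.ball 0 1] z) (𝓝 0)) ∧
        ∃ f ∈ I, (∀ j < k, Tendsto (iteratedDeriv j (ev f)) (𝓝[Metric.ball 0 1] z) (𝓝 0)) ∧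
          ¬ Tendsto (iteratedDeriv k (ev f)) (𝓝[Metric.ball 0 1] z) (𝓝 0)) :
    ser g ∈ I := by
  by_contra hgI
  have hβ0 := beta_pos h0
  have hβ1 := beta_lt h0
  have hne : ∃ z ∈ Metric.ball (0:ℂ) 1, g z ≠ 0 := by
    by_contra hcon
    push Not at hcon
    apply hgI
    have : ser g = ser (fun _ => (0:ℂ)) := ser_congr (fun z hz => hcon z hz)
    rw [this]
    have h2 : ser (fun _ => (0:ℂ)) = 0 := by
      ext n
      simp [ser]
    rw [h2]; exact hI0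
  have hgA : AA (α/(1+α)) (ser g) := gev_ser h0 ⟨hg.1, C, Q, hg.2⟩
  obtain ⟨b, hb, hbI, hbg⟩ := exists_functional hβ0 hA hI0 hadd (by
    intro p hp a
    rw [PowerSeries.smul_eq_C_mul]
    exact hmul p hp _ (AA_C a)) hcl hgA hgI
  obtain ⟨φ, hL, hd, hφ1, hφZ, hφE, hφint, hφK, C', Q', c, hC', hQ', hc, hgb⟩ :=
    weight_exists h0 h1 hg hne
  obtain ⟨W, ψ, hWm, hW0, hWi, hLψ, hdψ, hψφ, hψ3, hψ0, hKK, hBB⟩ :=
    second_weight h0 h1 hL hd hφ1 hφE hφint hφK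
  obtain ⟨θ, c1, hθ, hθ1, hc1, hre⟩ := first_kernel h0 hL hd hφ1 hφE hWm hW0 hWi hLψ hdψ hKK
  obtain ⟨Cg, Qg, hCg, hQg, hGB⟩ := gt_bound h0 hL hd hWi hθ hθ1 hc1 hdψ hre hC' hQ' hc hg.1 hgb
  -- real part nonneg on the ball
  have hφpos : ∀ z : ℂ, ‖z‖ < 1 → 0 < φ z := fun z hz =>
    lt_of_lt_of_le (by rw [abs_pos]; linarith) (hd z)
  have hRe : ∀ z : ℂ, ‖z‖ < 1 → 0 ≤ (Hf θ φ W z).re := by
    intro z hz
    have e1 := hφpos z hz
    refine le_trans ?_ (hre z e1 (by nlinarith))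
    have := Real.rpow_nonneg (le_trans (abs_nonneg _) (hdψ z)) (-α)
    positivity
  have hexp : ∀ t : ℝ, 0 ≤ t → ∀ z : ℂ, ‖z‖ < 1 → ‖Complex.exp (-(t:ℂ) * Hf θ φ W z)‖ ≤ 1 := by
    intro t ht z hz
    rw [Complex.norm_exp]
    apply Real.exp_le_one_iff.2
    have e : (-(t:ℂ) * Hf θ φ W z).re = -t * (Hf θ φ W z).re := by simp
    rw [e]
    nlinarith [hRe z hz]
  have hHd : DifferentiableOn ℂ (Hf θ φ W) (Metric.ball 0 1) := by
    apply (Hf_diff hθ hθ1 hL hd hWi).mono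
    intro z hz
    have hz1 : ‖z‖ < 1 := by simpa using hz
    have := hφpos z hz1
    simp only [Set.mem_ofPred_eq]
    nlinarith
  -- ψ facts
  have hψE : sg {z | ψ z = 0} = 0 := measure_mono_null (fun z hz => hψ0 z hz) hφE
  have hψ1 : ∀ z, ‖z‖ = 1 → ψ z ≤ 1 := fun z hz => (hψφ z hz).trans (hφ1 z hz)
  have hψint : Integrable (fun ζ => (ψ ζ) ^ (-α)) sg := by
    obtain ⟨K, hK, hKK'⟩ := hKK
    apply Integrable.mono' (hWi.const_mul K)
    · exact (hLψ.continuous.measurable.pow_const _).aestronglyMeasurable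
    · have hae : ∀ᵐ ζ ∂sg, φ ζ ≠ 0 := by
        rw [ae_iff]
        simpa using hφE
      filter_upwards [sg_ae, hae] with ζ hζ hζ2
      have e1 : 0 < φ ζ := lt_of_le_of_ne (le_trans (abs_nonneg _) (hd ζ)) (Ne.symm hζ2)
      have e2 : 0 ≤ ψ ζ := le_trans (abs_nonneg _) (hdψ ζ)
      rw [Real.norm_eq_abs, abs_of_nonneg (Real.rpow_nonneg e2 _)]
      exact (hKK' ζ hζ e1).2.2.1
  obtain ⟨h, hhd, ⟨B, hB⟩, hgh⟩ := hSg
  obtain ⟨P, q, hP, hq, hPqe, hql⟩ := hPq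
  -- main claim
  have main : ∀ t : ℝ, 0 < t → Phi b (ser (fun z => g z * Complex.exp (-(t:ℂ) * Hf θ φ W z))) = 0 := by
    intro t ht
    have hGt := hGB t ht.le
    have hGtA : AA (α/(1+α)) (ser (fun z => g z * Complex.exp (-(t:ℂ) * Hf θ φ W z))) :=
      gev_ser h0 ⟨hGt.1, _, _, hGt.2⟩
    have hqI : ∀ n, ser (fun z => g z * Complex.exp (-(t:ℂ) * Hf θ φ W z)) * q n ∈ I := by
      intro n
      have hht : DifferentiableOn ℂ (fun z => h z * Complex.exp (-(t:ℂ) * Hf θ φ W z)) (Metric.ball 0 1) :=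
        hhd.mul (hHd.const_mul _).cexp
      have hser : AA (α/(1+α)) (ser (fun z => h z * Complex.exp (-(t:ℂ) * Hf θ φ W z))) := by
        apply hSF _ hGtA _ hht
        · refine ⟨B, fun z hz => ?_⟩
          have hz1 : ‖z‖ < 1 := by simpa using hz
          rw [norm_mul]
          have e1 := hB z hz
          have e2 := hexp t ht.le z hz1
          calc _ ≤ B * 1 := mul_le_mul e1 e2 (norm_nonneg _) (le_trans (norm_nonneg _) e1)
            _ = B := mul_one B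
        · intro z hz
          rw [ev_ser hGt.1 z hz, hgh z hz]; ring
      have heq : ser (fun z => g z * Complex.exp (-(t:ℂ) * Hf θ φ W z)) * q n =
          ser (fun z => h z * Complex.exp (-(t:ℂ) * Hf θ φ W z)) * P n := by
        apply ev_inj (hGtA.mul hβ0 hβ1.le (hq n)).summable (hser.mul hβ0 hβ1.le (hA _ (hP n))).summable
        intro z hz
        have hz1 : ‖z‖ < 1 := by simpa using hz
        rw [ev_mul hGtA.summable (hq n).summable hz1.le, ev_mul hser.summable (hA _ (hP n)).summable hz1.le,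
          ev_ser hGt.1 z hz, ev_ser hht z hz, hPqe n z hz, hgh z hz]
        ring
      rw [heq]
      exact hmul _ (hP n) _ hser
    apply phi_zero h0 h1 hA hadd hmul hb hbI hLψ hdψ hψ1 hψE hψint hBB hQg hGt
    · intro z hz hψz
      rcases hz.lt_or_eq with hz1 | hz1
      · obtain ⟨n, hn⟩ := q_ne hq hql hz1
        exact ⟨q n, hq n, hqI n, hn⟩
      · have hψp : 0 < ψ z := lt_of_le_of_ne (le_trans (abs_nonneg _) (hdψ z)) (Ne.symm hψz)
        have hφp : φ z ≠ 0 := (lt_of_lt_of_le hψp (hψφ z hz1)).ne'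
        obtain ⟨k, hk1, f, hf, hk2, hk3⟩ := hZ z hz1 (fun hall => hφp (hφZ z hz1 hall))
        obtain ⟨f₀, hf₀, hff⟩ := ord_factor hβ0 hz1 (hA f hf) k hk2
        have hf₀z : ev f₀ z ≠ 0 := by
          apply ord_ne hβ0 hz1 hf₀ k
          rwa [← hff]
        obtain ⟨g₀, hg₀, hgg⟩ := ord_factor hβ0 hz1 hgA k (by
          intro j hj
          exact (tendsto_congr_ball (fun y hy => ev_ser hg.1 y hy) j z 0).2 (hk1 j hj))
        obtain ⟨B₀, hB₀⟩ := ev_norm_le hg₀.summable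
        obtain ⟨hXA, hXe⟩ := ev_pow_XC hβ0 hβ1.le z k
        obtain ⟨G₀, hG₀, hGG⟩ := div_pow_of_bound hβ0 hβ1.le hz1 k hGtA (C := B₀) (by
          intro y hy
          have hy1 : ‖y‖ < 1 := by simpa using hy
          rw [ev_ser hGt.1 y hy, norm_mul, ← ev_ser hg.1 y hy, hgg, ev_mul hXA.summable hg₀.summable hy1.le,
            hXe y hy1.le, norm_mul, norm_pow]
          have e1 := hB₀ y hy1.le
          have e2 := hexp t ht.le y hy1
          calc ‖y - z‖ ^ k * ‖ev g₀ y‖ * ‖Complex.exp (-(t:ℂ) * Hf θ φ W y)‖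
              ≤ ‖y - z‖ ^ k * B₀ * 1 := by
                have e3 : 0 ≤ B₀ := le_trans (norm_nonneg _) e1
                gcongr
            _ = B₀ * ‖y - z‖ ^ k := by ring)
        refine ⟨f₀, hf₀, ?_, hf₀z⟩
        have : ser (fun z => g z * Complex.exp (-(t:ℂ) * Hf θ φ W z)) * f₀ = G₀ * f := by
          rw [hGG, hff]; ring
        rw [this]
        exact hmul f hf _ hG₀
    · exact ⟨q, hq, hqI, hql⟩
    · intro κ hκ
      obtain ⟨C₂, Q₂, hC₂, hQ₂, h₂⟩ := gz_bound h0 hL hd hWi hθ hθ1 hc1 hLψ hdψ hψ3 hre hC' hQ' hc hg.1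
        hgb ht hκ
      refine ⟨C₂, Q₂, hC₂, hQ₂, fun z₀ hz₀ hz₀' => ?_⟩
      apply (h₂ z₀ hz₀ hz₀').congr
      intro z hz
      ring
  -- limit t → 0
  obtain ⟨K, c₂, hK, hc₂, hfw⟩ := fw_of_gb h0 hQg
  have ht : Tendsto (fun m : ℕ => 1 / ((m:ℝ) + 1)) atTop (𝓝 0) := tendsto_one_div_add_atTop_nhds_zero_nat
  have hlim := phi_tendsto hβ0 hb hc₂ (M := K * Cg)
    (p := fun m => ser (fun z => g z * Complex.exp (-((1 / ((m:ℝ) + 1) : ℝ):ℂ) * Hf θ φ W z)))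
    (p₀ := ser g) (fun m => hfw Cg _ (hGB _ (by positivity)))
    (fun n => coef_tendsto hg.1 hHd ht n)
  have hz : (fun m : ℕ => Phi b (ser (fun z => g z * Complex.exp (-((1 / ((m:ℝ) + 1) : ℝ):ℂ) * Hf θ φ W z)))) =
      fun _ => 0 := by
    funext m
    exact main _ (by positivity)
  rw [hz] at hlim
  exact hbg (tendsto_nhds_unique hlim tendsto_const_nhds).symm.symm

end Pool.Agent.Helper203.GV
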