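import Pool.Agent.Helper203.GV.Asm6

open MeasureTheory Filter Topology Set

noncomputable section

namespace Pool.Agent.Helper203.GV

theorem Dvd.congr {S f g : ℂ → ℂ} (hf : Dvd S f) (h : ∀ z ∈ Metric.ball (0:ℂ) 1, f z = g z) :
    Dvd S g := by
  obtain ⟨k, hk1, hk2, hk3⟩ := hf
  exact ⟨k, hk1, hk2, fun z hz => by rw [← h z hz, hk3 z hz]⟩

theorem main_thm (α : ℝ) (h0 : 0 < α) (h1 : α < 1) (I : Set (ℂ → ℂ))
    (hI : ∀ f ∈ I, Gev α f) (hI0 : (0 : ℂ → ℂ) ∈ I)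
    (hadd : ∀ f ∈ I, ∀ g ∈ I, f + g ∈ I)
    (hmul : ∀ f ∈ I, ∀ g : ℂ → ℂ, Gev α g → g * f ∈ I)
    (hcl : ∀ Q : ℝ, 0 < Q → ∀ (u : ℕ → ℂ → ℂ) (f : ℂ → ℂ),
      (∀ m, u m ∈ I) →
      DifferentiableOn ℂ f (Metric.ball (0:ℂ) 1) →
      (∃ C : ℝ, ∀ n : ℕ, ∀ z ∈ Metric.ball (0:ℂ) 1,
        ‖iteratedDeriv n f z‖ ≤ C * Q ^ n * (n.factorial : ℝ) * (n : ℝ) ^ ((n : ℝ) / α)) →
      (∀ m, ∃ C : ℝ, ∀ n : ℕ, ∀ z ∈ Metric.ball (0:ℂ) 1,
        ‖iteratedDeriv n (u m) z‖ ≤ C * Q ^ n * (n.factorial : ℝ) * (n : ℝ) ^ ((n : ℝ) / α)) →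
      (∀ ε : ℝ, 0 < ε → ∃ M : ℕ, ∀ m ≥ M, ∀ n : ℕ, ∀ z ∈ Metric.ball (0:ℂ) 1,
        ‖iteratedDeriv n (u m) z - iteratedDeriv n f z‖ ≤
          ε * Q ^ n * (n.factorial : ℝ) * (n : ℝ) ^ ((n : ℝ) / α)) →
      f ∈ I)
    (hne : ∃ f ∈ I, ∃ z ∈ Metric.ball (0:ℂ) 1, f z ≠ 0) :
    ∃ S : ℂ → ℂ, Inner S ∧ (∀ f ∈ I, Dvd S f) ∧
      (∀ T : ℂ → ℂ, Inner T → (∀ f ∈ I, Dvd T f) → Dvd T S) ∧
      ∀ f : ℂ → ℂ, f ∈ I ↔ (Gev α f ∧ Dvd S f ∧
        ∀ k : ℕ∞, ∀ z ∈ Metric.closedBall (0:ℂ) 1,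
          (∀ g ∈ I, ∀ j : ℕ, (j : ℕ∞) ≤ k →
            Filter.Tendsto (iteratedDeriv j g) (nhdsWithin z (Metric.ball (0:ℂ) 1)) (nhds 0)) →
          ∀ j : ℕ, (j : ℕ∞) ≤ k →
            Filter.Tendsto (iteratedDeriv j f) (nhdsWithin z (Metric.ball (0:ℂ) 1)) (nhds 0)) := by
  have hβ0 := beta_pos h0
  have hβ1 := beta_lt h0
  -- (i) congruence
  have hcg : ∀ f ∈ I, ∀ g : ℂ → ℂ, (∀ z ∈ Metric.ball (0:ℂ) 1, f z = g z) → g ∈ I := by
    intro f hf g hfg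
    obtain ⟨C, Q, hC, hQ, hGB⟩ := gev_iff.1 (hI f hf)
    have hg := hGB.congr hfg
    refine hcl Q hQ (fun _ => f) g (fun _ => hf) hg.1 ⟨C, hg.2⟩ (fun _ => ⟨C, hGB.2⟩) ?_
    intro ε hε
    refine ⟨0, fun m _ n z hz => ?_⟩
    rw [iteratedDeriv_congr_ball hfg n hz, sub_self, norm_zero]
    have := Real.rpow_nonneg (Nat.cast_nonneg n : (0:ℝ) ≤ n) ((n:ℝ)/α)
    positivity
  -- (ii) the ideal of series
  set J : Set (PowerSeries ℂ) := {p | AA (α/(1+α)) p ∧ ev p ∈ I} with hJdef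
  have hJA : ∀ p ∈ J, AA (α/(1+α)) p := fun p hp => hp.1
  have hJ0 : (0 : PowerSeries ℂ) ∈ J := by
    refine ⟨by simpa using AA_C (β := α/(1+α)) 0, ?_⟩
    apply hcg 0 hI0
    intro z _
    simp [ev]
  have hJadd : ∀ p ∈ J, ∀ q ∈ J, p + q ∈ J := by
    intro p hp q hq
    refine ⟨hp.1.add hq.1, ?_⟩
    apply hcg _ (hadd _ hp.2 _ hq.2)
    intro z hz
    have hz1 : ‖z‖ ≤ 1 := by
      have : ‖z‖ < 1 := by simpa using hz
      exact this.le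
    rw [ev_add hp.1.summable hq.1.summable hz1]; rfl
  have hJmul : ∀ p ∈ J, ∀ q, AA (α/(1+α)) q → q * p ∈ J := by
    intro p hp q hq
    refine ⟨hq.mul hβ0 hβ1.le hp.1, ?_⟩
    apply hcg _ (hmul _ hp.2 _ (aa_gev h0 hq))
    intro z hz
    have hz1 : ‖z‖ ≤ 1 := by
      have : ‖z‖ < 1 := by simpa using hz
      exact this.le
    rw [ev_mul hq.summable hp.1.summable hz1]; rfl
  have hJcl : ∀ c : ℝ, 0 < c → ∀ (u : ℕ → PowerSeries ℂ) (p : PowerSeries ℂ), (∀ m, u m ∈ J) →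
      (∀ m, FW (α/(1+α)) c (u m)) → FW (α/(1+α)) c p →
      Tendsto (fun m => nrm (α/(1+α)) c (u m - p)) atTop (𝓝 0) → p ∈ J := by
    intro c hc u p hu huF hpF hlim
    refine ⟨⟨c, hc, hpF⟩, ?_⟩
    obtain ⟨K, Q, hK, hQ, hgb⟩ := gb_of_fw h0 hc
    refine hcl Q hQ (fun m => ev (u m)) (ev p) (fun m => (hu m).2) (hgb p hpF).1 ⟨_, (hgb p hpF).2⟩
      (fun m => ⟨_, (hgb _ (huF m)).2⟩) ?_
    intro ε hε
    obtain ⟨M, hM⟩ := (hlim.eventually (gt_mem_nhds (show (0:ℝ) < ε / K by positivity))).exists_forall_of_atTop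
    refine ⟨M, fun m hm n z hz => ?_⟩
    have hz1 : ‖z‖ < 1 := by simpa using hz
    have e1 := hM m hm
    have e2 := hgb _ ((huF m).sub hpF)
    have e3 : iteratedDeriv n (ev (u m)) z - iteratedDeriv n (ev p) z = iteratedDeriv n (ev (u m - p)) z := by
      have hcd : ∀ {f : ℂ → ℂ}, DifferentiableOn ℂ f (Metric.ball 0 1) → ContDiffAt ℂ n f z := by
        intro f hf
        exact (hf.contDiffOn Metric.isOpen_ball).contDiffAt (Metric.isOpen_ball.mem_nhds hz)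
      rw [← iteratedDeriv_fun_sub (hcd (hgb _ (huF m)).1) (hcd (hgb p hpF).1)]
      apply iteratedDeriv_congr_ball _ n hz
      intro y hy
      have hy1 : ‖y‖ < 1 := by simpa using hy
      rw [ev_sub (hu m).1.summable (hpF.summable hc.le) hy1.le]
    rw [e3]
    refine (e2.2 n z hz).trans ?_
    have e4 : K * nrm (α/(1+α)) c (u m - p) ≤ ε := by
      have : K * nrm (α/(1+α)) c (u m - p) ≤ K * (ε / K) := by gcongr
      rwa [mul_div_cancel₀ _ hK.ne'] at this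
    have := Real.rpow_nonneg (Nat.cast_nonneg n : (0:ℝ) ≤ n) ((n:ℝ)/α)
    gcongr
  have hser : ∀ f ∈ I, ser f ∈ J := by
    intro f hf
    refine ⟨gev_ser h0 (hI f hf), ?_⟩
    apply hcg f hf
    intro z hz
    exact (ev_ser (hI f hf).1 z hz).symm
  have hser' : ∀ f, Gev α f → ser f ∈ J → f ∈ I := by
    intro f hf hfJ
    apply hcg _ hfJ.2
    intro z hz
    exact ev_ser hf.1 z hz
  have hJne : ∃ p ∈ J, p ≠ 0 := by
    obtain ⟨f, hf, z, hz, hfz⟩ := hne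
    refine ⟨ser f, hser f hf, fun h => hfz ?_⟩
    rw [← ev_ser (hI f hf).1 z hz, h]
    simp [ev]
  obtain ⟨S, hS1, hS2, hS3, hS4, hS5⟩ := beurling hβ0 hJA hJ0 hJadd hJmul hJne
  refine ⟨S, hS1, fun f hf => (hS2 _ (hser f hf)).congr (ev_ser (hI f hf).1), ?_, ?_⟩
  · intro T hT hTI
    exact hS3 T hT (fun p hp => hTI _ hp.2)
  · intro f
    constructor
    · intro hf
      exact ⟨hI f hf, (hS2 _ (hser f hf)).congr (ev_ser (hI f hf).1), fun k z _ h => h f hf⟩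
    · rintro ⟨hfG, hfS, hfZ⟩
      obtain ⟨C, Q, hC, hQ, hGB⟩ := gev_iff.1 hfG
      apply hser' f hfG
      apply core h0 h1 hJA hJ0 hJadd hJmul hJcl hS4 hS5 hGB hfS
      intro z hz hnot
      have hzc : z ∈ Metric.closedBall (0:ℂ) 1 := by simpa using hz.le
      have hex : ∃ k : ℕ, ∃ g ∈ I, ¬ Tendsto (iteratedDeriv k g) (𝓝[Metric.ball 0 1] z) (𝓝 0) := by
        by_contra hcon
        push Not at hcon
        apply hnot
        intro j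
        exact hfZ ⊤ z hzc (fun g hg j _ => hcon j g hg) j le_top
      classical
      set k := Nat.find hex with hk
      have hk1 : ∃ g ∈ I, ¬ Tendsto (iteratedDeriv k g) (𝓝[Metric.ball 0 1] z) (𝓝 0) := Nat.find_spec hex
      have hk2 : ∀ j < k, ∀ g ∈ I, Tendsto (iteratedDeriv j g) (𝓝[Metric.ball 0 1] z) (𝓝 0) := by
        intro j hj g hg
        by_contra hcon
        exact Nat.find_min hex hj ⟨g, hg, hcon⟩
      refine ⟨k, ?_, ?_⟩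
      · intro j hj
        refine hfZ ((k - 1 : ℕ) : ℕ∞) z hzc (fun g hg i hi => hk2 i ?_ g hg) j ?_
        · have : i ≤ k - 1 := by exact_mod_cast hi
          omega
        · have : j ≤ k - 1 := by omega
          exact_mod_cast this
      · obtain ⟨g, hg, hgk⟩ := hk1
        refine ⟨ser g, hser g hg, ?_, ?_⟩
        · intro j hj
          exact (tendsto_congr_ball (ev_ser (hI g hg).1) j z 0).2 (hk2 j hj g hg)
        · intro hcon
          exact hgk ((tendsto_congr_ball (ev_ser (hI g hg).1) k z 0).1 hcon)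

end Pool.Agent.Helper203.GV

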