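import Mathlib
import Pool.Agent.Helper203.Comp

/-! Solution of job 11383 (helper243).  The part in the namespace `Bg` (Beurling theory on `H2`) has
no gaps; it uses `Pool.Agent.Helper203.Comp` (and so `H2Base`, `Fatou`, `HDefs`), which are on
origin/main.  The part after it is the job file. -/

set_option autoImplicit false

namespace Pool.Agent.Helper203.Bg

open Complex Metric Set Filter MeasureTheory
open scoped Real Topology ComplexConjugate NNReal ENNReal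
open Pool.Agent.Helper203.Hardy



/-- evaluation functional -/
noncomputable def evL (z : ℂ) (hz : ‖z‖ < 1) : H2 →L[ℂ] ℂ :=
  LinearMap.mkContinuous
    { toFun := fun f => Hardy.ev f z
      map_add' := fun f g => Hardy.ev_add f g hz
      map_smul' := fun c f => Hardy.ev_smul c f z } ((1 - ‖z‖)⁻¹) (fun f => by
      rw [mul_comm]; exact Hardy.ev_norm_le f le_rfl hz)

theorem evL_apply (z : ℂ) (hz : ‖z‖ < 1) (f : H2) : evL z hz f = Hardy.ev f z := rfl

/-- basis vector -/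
noncomputable def e (n : ℕ) : H2 := lp.single 2 n (1 : ℂ)

theorem ev_e (n : ℕ) (z : ℂ) : Hardy.ev (e n) z = z ^ n := by
  rw [Hardy.ev, tsum_eq_single n]
  · simp [e]
  · intro k hk
    simp only [e]
    rw [lp.single_apply_ne _ _ _ hk, zero_mul]

theorem norm_e (n : ℕ) : ‖e n‖ = 1 := by
  simp [e]

theorem inner_e (n : ℕ) (f : H2) : inner ℂ (e n) f = f n := by
  unfold e
  rw [lp.inner_single_left]; simp

/-- `T` is multiplication by `h` -/
def IsMul (T : H2 →L[ℂ] H2) (h : ℂ → ℂ) : Prop :=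
  ∀ f : H2, ∀ z ∈ ball (0:ℂ) 1, Hardy.ev (T f) z = h z * Hardy.ev f z

theorem IsMul.pow {T : H2 →L[ℂ] H2} {h : ℂ → ℂ} (hT : IsMul T h) (n : ℕ) (f : H2) :
    ∀ z ∈ ball (0:ℂ) 1, Hardy.ev ((T ^ n) f) z = h z ^ n * Hardy.ev f z := by
  induction n generalizing f with
  | zero => intro z hz; simp
  | succ n ih =>
    intro z hz
    rw [pow_succ, mul_apply_eq_comp, ih _ z hz, hT f z hz]
    ring

theorem mult_bound {T : H2 →L[ℂ] H2} {h : ℂ → ℂ} {K : ℝ} (hT : IsMul T h)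
    (hK : ∀ f, ‖T f‖ ≤ K * ‖f‖) : ∀ z ∈ ball (0:ℂ) 1, ‖h z‖ ≤ K := by
  intro z hz
  have hz1 : ‖z‖ < 1 := mem_ball_zero_iff.1 hz
  have hK0 : 0 ≤ K := by
    have := hK (e 0)
    rw [norm_e, mul_one] at this
    exact (norm_nonneg _).trans this
  have hpow : ∀ n : ℕ, ∀ f, ‖(T ^ n) f‖ ≤ K ^ n * ‖f‖ := by
    intro n
    induction n with
    | zero => intro f; simp
    | succ n ih =>
      intro f
      rw [pow_succ, mul_apply_eq_comp]
      calc ‖(T ^ n) (T f)‖ ≤ K ^ n * ‖T f‖ := ih _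
        _ ≤ K ^ n * (K * ‖f‖) := by gcongr; exact hK f
        _ = K ^ (n + 1) * ‖f‖ := by ring
  have hC : ∀ n : ℕ, ‖h z‖ ^ n ≤ K ^ n * (1 - ‖z‖)⁻¹ := by
    intro n
    have h1 := hT.pow n (e 0) z hz
    rw [ev_e, pow_zero, mul_one] at h1
    have h2 := Hardy.ev_norm_le ((T ^ n) (e 0)) le_rfl hz1
    rw [h1, norm_pow] at h2
    have h3 := hpow n (e 0)
    rw [norm_e, mul_one] at h3
    have h4 : 0 ≤ (1 - ‖z‖)⁻¹ := inv_nonneg.2 (by linarith)
    calc ‖h z‖ ^ n ≤ ‖(T ^ n) (e 0)‖ * (1 - ‖z‖)⁻¹ := h2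
      _ ≤ K ^ n * (1 - ‖z‖)⁻¹ := by gcongr
  by_contra hcon
  push Not at hcon
  rcases hK0.eq_or_lt with h0 | h0
  · have := hC 1
    rw [← h0] at this
    rw [← h0] at hcon
    simp at this
    rw [this] at hcon
    simp at hcon
  · have h1 : 1 < ‖h z‖ / K := (one_lt_div h0).2 hcon
    obtain ⟨n, hn⟩ := pow_unbounded_of_one_lt ((1 - ‖z‖)⁻¹) h1
    rw [div_pow, lt_div_iff₀ (by positivity)] at hn
    have := hC n
    linarith [mul_comm (K ^ n) ((1 - ‖z‖)⁻¹)]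

theorem exists_mul {φ : ℂ → ℂ} (hφ : DifferentiableOn ℂ φ (ball 0 1)) {K : ℝ} (hK0 : 0 ≤ K)
    (hK : ∀ z ∈ ball (0:ℂ) 1, ‖φ z‖ ≤ K) :
    ∃ T : H2 →L[ℂ] H2, IsMul T φ ∧ ∀ f, ‖T f‖ ≤ K * ‖f‖ := by
  have h1 : ∀ f : H2, ∃ F : H2, (∀ z ∈ ball (0:ℂ) 1, Hardy.ev F z = φ z * Hardy.ev f z) ∧
      ‖F‖ ^ 2 ≤ K ^ 2 * ‖f‖ ^ 2 := by
    intro f
    apply Hardy.exists_ev (h := fun z => φ z * Hardy.ev f z) (hφ.mul (Hardy.ev_diff f))
      (by positivity)
    intro r h0 h1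
    have hcb : ∀ θ, circleMap 0 r θ ∈ ball (0 : ℂ) 1 := by
      intro θ
      rw [mem_ball_zero_iff, norm_circleMap_zero, abs_of_nonneg h0]; exact h1
    have hc1 : Continuous fun θ => φ (circleMap 0 r θ) :=
      hφ.continuousOn.comp_continuous (continuous_circleMap 0 _) hcb
    have hc2 : Continuous fun θ => Hardy.ev f (circleMap 0 r θ) :=
      (Hardy.ev_diff f).continuousOn.comp_continuous (continuous_circleMap 0 _) hcb
    calc ∫ θ : ℝ, ‖φ (circleMap 0 r θ) * Hardy.ev f (circleMap 0 r θ)‖ ^ 2 ∂mT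
        ≤ ∫ θ : ℝ, K ^ 2 * ‖Hardy.ev f (circleMap 0 r θ)‖ ^ 2 ∂mT := by
          apply integral_mono
          · exact cont_integrable ((hc1.mul hc2).norm.pow 2)
          · exact cont_integrable (continuous_const.mul (hc2.norm.pow 2))
          · intro θ
            simp only [norm_mul, mul_pow]
            have := hK _ (hcb θ)
            gcongr
      _ = K ^ 2 * ∫ θ : ℝ, ‖Hardy.ev f (circleMap 0 r θ)‖ ^ 2 ∂mT := by
          rw [integral_const_mul]
      _ ≤ K ^ 2 * ‖f‖ ^ 2 := by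
          gcongr
          exact Hardy.ev_circle_le f h0 h1
  choose F hF1 hF2 using h1
  refine ⟨LinearMap.mkContinuous
    { toFun := F
      map_add' := ?_
      map_smul' := ?_ } K ?_, ?_, ?_⟩
  · intro f g
    apply Hardy.ev_injective
    intro z hz
    have hz1 : ‖z‖ < 1 := mem_ball_zero_iff.1 hz
    rw [Hardy.ev_add _ _ hz1, hF1 _ z hz, hF1 _ z hz, hF1 _ z hz, Hardy.ev_add _ _ hz1]
    ring
  · intro c f
    apply Hardy.ev_injective
    intro z hz
    rw [RingHom.id_apply, Hardy.ev_smul, hF1 _ z hz, hF1 _ z hz, Hardy.ev_smul]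
    ring
  · intro f
    have := hF2 f
    rw [← mul_pow] at this
    exact (pow_le_pow_iff_left₀ (norm_nonneg _) (by positivity) two_ne_zero).1 this
  · intro f z hz
    exact hF1 f z hz
  · intro f
    have := hF2 f
    rw [← mul_pow] at this
    exact (pow_le_pow_iff_left₀ (norm_nonneg _) (by positivity) two_ne_zero).1 this

theorem inner_Mz (f g : H2) : inner ℂ (Mz f) (Mz g) = inner ℂ f g := by
  let L : H2 →ₗᵢ[ℂ] H2 := ⟨Mz.toLinearMap, fun f => Mz_norm f⟩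
  exact L.inner_map_map f g

theorem inner_Mz_pow (n : ℕ) (f g : H2) : inner ℂ ((Mz ^ n) f) ((Mz ^ n) g) = inner ℂ f g := by
  induction n generalizing f g with
  | zero => simp
  | succ n ih => rw [pow_succ, mul_apply_eq_comp, mul_apply_eq_comp, ih, inner_Mz]

theorem orth_hasSum {x : H2} {u : ℕ → H2} {a : H2} (h : HasSum u a)
    (h0 : ∀ n, inner ℂ x (u n) = 0) : inner ℂ x a = 0 := by
  have h1 := (innerSL ℂ x).hasSum h
  simp only [innerSL_apply_apply] at h1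
  have h2 : (fun n => inner ℂ x (u n)) = fun _ => (0 : ℂ) := funext h0
  have h3 : HasSum (fun n => inner ℂ x (u n)) (inner ℂ x a) := h1
  rw [h2] at h3
  exact h3.unique hasSum_zero

theorem pow_add_apply (m n : ℕ) (f : H2) : (Mz ^ (m + n)) f = (Mz ^ m) ((Mz ^ n) f) := by
  rw [pow_add, mul_apply_eq_comp]

/-- wandering vectors -/
theorem wander_inner {s t : H2} (h1 : ∀ n, 1 ≤ n → inner ℂ s ((Mz ^ n) t) = 0)
    (h2 : ∀ n, 1 ≤ n → inner ℂ t ((Mz ^ n) s) = 0) {m n : ℕ} (hmn : m ≠ n) :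
    inner ℂ ((Mz ^ m) s) ((Mz ^ n) t) = 0 := by
  rcases lt_or_gt_of_ne hmn with h | h
  · obtain ⟨k, hk⟩ := Nat.exists_eq_add_of_lt h
    have : n = m + (k + 1) := by omega
    rw [this, pow_add_apply, inner_Mz_pow]
    exact h1 _ (by omega)
  · obtain ⟨k, hk⟩ := Nat.exists_eq_add_of_lt h
    have : m = n + (k + 1) := by omega
    rw [this, pow_add_apply, inner_Mz_pow, inner_eq_zero_symm]
    exact h2 _ (by omega)

theorem exists_iso {s : H2} (h1 : ‖s‖ = 1) (h0 : ∀ n, 1 ≤ n → inner ℂ s ((Mz ^ n) s) = 0) :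
    ∃ V : H2 →ₗᵢ[ℂ] H2, (∀ f, HasSum (fun n => f n • (Mz ^ n) s) (V f)) ∧
      (∀ n, V (e n) = (Mz ^ n) s) ∧
      ∀ f, ∀ z ∈ ball (0:ℂ) 1, Hardy.ev (V f) z = Hardy.ev s z * Hardy.ev f z := by
  have hv : Orthonormal ℂ (fun n : ℕ => (Mz ^ n) s) := by
    constructor
    · intro n; rw [Mz_pow_norm, h1]
    · intro m n hmn
      exact wander_inner h0 h0 hmn
  have hO := hv.orthogonalFamily
  have hS := hO.hasSum_linearIsometry
  have hS' : ∀ f : H2, HasSum (fun n => f n • (Mz ^ n) s) (hO.linearIsometry f) := by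
    intro f
    have h := hS f
    simpa [LinearIsometry.toSpanSingleton_apply] using h
  refine ⟨hO.linearIsometry, hS', ?_, ?_⟩
  · intro n
    have := hO.linearIsometry_apply_single (i := n) (1 : ℂ)
    simpa [e, LinearIsometry.toSpanSingleton_apply] using this
  · intro f z hz
    have hz1 : ‖z‖ < 1 := mem_ball_zero_iff.1 hz
    have h2 := (evL z hz1).hasSum (hS' f)
    have h3 : HasSum (fun n => Hardy.ev s z * (f n * z ^ n)) (Hardy.ev (hO.linearIsometry f) z) := by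
      have h4 : (fun n => Hardy.ev s z * (f n * z ^ n)) =
          (⇑(evL z hz1) ∘ fun n => f n • (Mz ^ n) s) := by
        funext n
        simp only [Function.comp]
        rw [map_smul, evL_apply, ev_Mz_pow _ _ hz1, smul_eq_mul]
        ring
      rw [h4]
      exact h2
    have h5 : HasSum (fun n => Hardy.ev s z * (f n * z ^ n)) (Hardy.ev s z * Hardy.ev f z) :=
      (ev_summable f hz1).hasSum.mul_left _
    exact h3.unique h5


theorem iso_bound {s : H2} {V : H2 →ₗᵢ[ℂ] H2}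
    (hV : ∀ f, ∀ z ∈ ball (0:ℂ) 1, Hardy.ev (V f) z = Hardy.ev s z * Hardy.ev f z) :
    ∀ z ∈ ball (0:ℂ) 1, ‖Hardy.ev s z‖ ≤ 1 := by
  apply mult_bound (T := V.toContinuousLinearMap) (K := 1)
  · intro f z hz; exact hV f z hz
  · intro f; rw [one_mul]; exact (V.norm_map f).le

/-- all the wandering vectors are proportional -/
theorem wander_one {s t : H2} (hs : ‖s‖ = 1) (ht : ‖t‖ = 1)
    (hss : ∀ n, 1 ≤ n → inner ℂ s ((Mz ^ n) s) = 0)
    (htt : ∀ n, 1 ≤ n → inner ℂ t ((Mz ^ n) t) = 0)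
    (hst : ∀ n, 1 ≤ n → inner ℂ s ((Mz ^ n) t) = 0)
    (hts : ∀ n, 1 ≤ n → inner ℂ t ((Mz ^ n) s) = 0)
    (h0 : inner ℂ s t = 0) : False := by
  obtain ⟨V, hV1, -, hV3⟩ := exists_iso hs hss
  obtain ⟨W, hW1, -, hW3⟩ := exists_iso ht htt
  have hmn : ∀ m n : ℕ, inner ℂ ((Mz ^ m) s) ((Mz ^ n) t) = 0 := by
    intro m n
    by_cases h : m = n
    · subst h; rw [inner_Mz_pow, h0]
    · exact wander_inner hst hts h
  have h1 : ∀ m : ℕ, ∀ g, inner ℂ ((Mz ^ m) s) (W g) = 0 := by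
    intro m g
    apply orth_hasSum (hW1 g)
    intro n
    rw [inner_smul_right, hmn, mul_zero]
  have h2 : ∀ f g, inner ℂ (V f) (W g) = 0 := by
    intro f g
    rw [inner_eq_zero_symm]
    apply orth_hasSum (hV1 f)
    intro n
    rw [inner_smul_right, inner_eq_zero_symm.1 (h1 n g), mul_zero]
  have h3 : V t = W s := by
    apply Hardy.ev_injective
    intro z hz
    rw [hV3 _ z hz, hW3 _ z hz, mul_comm]
  have h4 := h2 t s
  rw [h3, inner_self_eq_zero] at h4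
  have h5 := W.norm_map s
  rw [h4, norm_zero, hs] at h5
  exact zero_ne_one h5

theorem Mz_zero_coef (f : H2) : (Mz f) 0 = 0 := rfl
theorem Mz_succ_coef (f : H2) (n : ℕ) : (Mz f) (n + 1) = f n := rfl

theorem beurling0 (M : Submodule ℂ H2) (hMc : IsClosed (M : Set H2)) (hMz : ∀ f ∈ M, Mz f ∈ M)
    (hne : ∃ f ∈ M, f ≠ 0) :
    ∃ s ∈ M, ‖s‖ = 1 ∧ (∀ n, 1 ≤ n → inner ℂ s ((Mz ^ n) s) = 0) ∧
      ∀ V : H2 →ₗᵢ[ℂ] H2, (∀ f, HasSum (fun n => f n • (Mz ^ n) s) (V f)) →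
        (∀ n, V (e n) = (Mz ^ n) s) →
        (∀ f, V f ∈ M) ∧ ∀ f ∈ M, ∃ g, V g = f := by
  let L : H2 →ₗᵢ[ℂ] H2 := ⟨Mz.toLinearMap, fun f => Mz_norm f⟩
  let N : Submodule ℂ H2 := M.map L.toLinearMap
  have hLM : ∀ f, L f = Mz f := fun f => rfl
  have hN : ∀ f, f ∈ N ↔ ∃ g ∈ M, Mz g = f := by
    intro f
    exact Submodule.mem_map
  have hNM : ∀ f ∈ N, f ∈ M := by
    intro f hf
    obtain ⟨g, hg, rfl⟩ := (hN f).1 hf
    exact hMz g hg
  have : CompleteSpace M := hMc.completeSpace_coe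
  have hNc : IsClosed (N : Set H2) := by
    have h1 : IsComplete (M : Set H2) := hMc.isComplete
    have h2 : IsComplete (L '' (M : Set H2)) := by
      rw [isComplete_image_iff L.isometry.isUniformInducing]
      exact h1
    have h3 : (N : Set H2) = L '' (M : Set H2) := rfl
    rw [h3]
    exact h2.isClosed
  have : CompleteSpace N := hNc.completeSpace_coe
  have hpowM : ∀ n : ℕ, ∀ f ∈ M, (Mz ^ n) f ∈ M := by
    intro n
    induction n with
    | zero => intro f hf; simpa using hf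
    | succ n ih => intro f hf; rw [pow_succ, mul_apply_eq_comp]; exact ih _ (hMz f hf)
  have hpowN : ∀ n : ℕ, 1 ≤ n → ∀ f ∈ M, (Mz ^ n) f ∈ N := by
    intro n hn f hf
    obtain ⟨k, rfl⟩ := Nat.exists_eq_add_of_le hn
    rw [pow_add_apply, pow_one, hN]
    exact ⟨(Mz ^ k) f, hpowM k f hf, rfl⟩
  -- M is not contained in N
  have hnot : ∃ f ∈ M, f ∉ N := by
    by_contra hcon
    push Not at hcon
    have hz : ∀ n : ℕ, ∀ f ∈ M, f n = 0 := by
      intro n
      induction n with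
      | zero =>
        intro f hf
        obtain ⟨g, hg, rfl⟩ := (hN f).1 (hcon f hf)
        exact Mz_zero_coef g
      | succ n ih =>
        intro f hf
        obtain ⟨g, hg, rfl⟩ := (hN f).1 (hcon f hf)
        rw [Mz_succ_coef]
        exact ih g hg
    obtain ⟨f, hf, hf0⟩ := hne
    apply hf0
    ext n
    rw [hz n f hf]; rfl
  -- decomposition of elements of M
  have hdec : ∀ f ∈ M, ∃ a ∈ M, ∃ b ∈ M, f = a + Mz b ∧ ∀ g ∈ M, inner ℂ a (Mz g) = 0 := by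
    intro f hf
    have hP : (N.starProjection f) ∈ N := N.starProjection_apply_mem f
    obtain ⟨b, hb, hb2⟩ := (hN _).1 hP
    refine ⟨f - N.starProjection f, M.sub_mem hf (hNM _ hP), b, hb, ?_, ?_⟩
    · rw [hb2]; abel
    · intro g hg
      have h1 : f - N.starProjection f ∈ Nᗮ := N.sub_starProjection_mem_orthogonal f
      exact Submodule.inner_left_of_mem_orthogonal ((hN _).2 ⟨g, hg, rfl⟩) h1
  obtain ⟨f₀, hf₀, hf₀N⟩ := hnot
  obtain ⟨a, ha, b, hb, hab, haz⟩ := hdec f₀ hf₀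
  have ha0 : a ≠ 0 := by
    intro h
    apply hf₀N
    rw [hN]
    exact ⟨b, hb, by rw [hab, h, zero_add]⟩
  have hna : 0 < ‖a‖ := norm_pos_iff.2 ha0
  -- normalisation
  have hnorm : ∀ a ∈ M, a ≠ 0 → (∀ g ∈ M, inner ℂ a (Mz g) = 0) →
      ∃ s ∈ M, ‖s‖ = 1 ∧ (∀ g ∈ M, inner ℂ s (Mz g) = 0) ∧ a = (‖a‖ : ℂ) • s := by
    intro a ha ha0 haz
    have hna : 0 < ‖a‖ := norm_pos_iff.2 ha0
    refine ⟨((‖a‖ : ℂ)⁻¹) • a, M.smul_mem _ ha, ?_, ?_, ?_⟩
    · rw [norm_smul, norm_inv, Complex.norm_real, norm_norm]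
      field_simp
    · intro g hg
      rw [inner_smul_left, haz g hg, mul_zero]
    · rw [smul_smul, mul_inv_cancel₀, one_smul]
      exact_mod_cast hna.ne'
  have hwz : ∀ s : H2, (∀ g ∈ M, inner ℂ s (Mz g) = 0) → ∀ t ∈ M, ∀ n, 1 ≤ n →
      inner ℂ s ((Mz ^ n) t) = 0 := by
    intro s hs t ht n hn
    obtain ⟨g, hg, hg2⟩ := (hN _).1 (hpowN n hn t ht)
    rw [← hg2]
    exact hs g hg
  obtain ⟨s, hsM, hs1, hsz, -⟩ := hnorm a ha ha0 haz
  refine ⟨s, hsM, hs1, hwz s hsz s hsM, ?_⟩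
  intro V hV1 hV2
  have hVM : ∀ f, V f ∈ M := by
    intro f
    apply hMc.mem_of_tendsto (hV1 f)
    filter_upwards with S
    apply Submodule.sum_mem
    intro n _
    exact M.smul_mem _ (hpowM n s hsM)
  refine ⟨hVM, ?_⟩
  -- elements orthogonal to all z^n s vanish
  have hzero : ∀ n : ℕ, ∀ r ∈ M, (∀ k, inner ℂ r ((Mz ^ k) s) = 0) → r n = 0 := by
    have hstep : ∀ r ∈ M, (∀ k, inner ℂ r ((Mz ^ k) s) = 0) →
        ∃ r₁ ∈ M, r = Mz r₁ ∧ ∀ k, inner ℂ r₁ ((Mz ^ k) s) = 0 := by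
      intro r hr hrk
      obtain ⟨c, hc, d, hd, hcd, hcz⟩ := hdec r hr
      have hc0 : c = 0 := by
        by_contra hc0
        obtain ⟨t, htM, ht1, htz, htc⟩ := hnorm c hc hc0 hcz
        apply wander_one hs1 ht1 (hwz s hsz s hsM) (hwz t htz t htM) (hwz s hsz t htM)
          (hwz t htz s hsM)
        have h1 := hrk 0
        rw [pow_zero, one_apply_eq_self, hcd, inner_add_left] at h1
        have h2 : inner ℂ (Mz d) s = 0 := inner_eq_zero_symm.1 (hsz d hd)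
        rw [h2, add_zero, htc, inner_smul_left] at h1
        have h3 : (conj (‖c‖ : ℂ)) ≠ 0 := by
          rw [Complex.conj_ofReal]
          exact_mod_cast (norm_pos_iff.2 hc0).ne'
        have h4 : inner ℂ t s = 0 := by
          rcases mul_eq_zero.1 h1 with h | h
          · exact absurd h h3
          · exact h
        exact inner_eq_zero_symm.1 h4
      refine ⟨d, hd, by rw [hcd, hc0, zero_add], ?_⟩
      intro k
      have h1 := hrk (k + 1)
      rw [hcd, hc0, zero_add, add_comm k 1, pow_add_apply, pow_one, inner_Mz] at h1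
      exact h1
    intro n
    induction n with
    | zero =>
      intro r hr hrk
      obtain ⟨r₁, hr₁, rfl, -⟩ := hstep r hr hrk
      exact Mz_zero_coef _
    | succ n ih =>
      intro r hr hrk
      obtain ⟨r₁, hr₁, rfl, h⟩ := hstep r hr hrk
      rw [Mz_succ_coef]
      exact ih r₁ hr₁ h
  intro f hf
  -- projection on the range of V
  let R : Submodule ℂ H2 := LinearMap.range V.toLinearMap
  have hRc : IsClosed (R : Set H2) := by
    have : (R : Set H2) = Set.range V := by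
      ext x; simp [R]
    rw [this]
    exact V.isometry.isClosedEmbedding.isClosed_range
  have : CompleteSpace R := hRc.completeSpace_coe
  have hP : (R.starProjection f) ∈ R := R.starProjection_apply_mem f
  obtain ⟨g, hg⟩ := hP
  refine ⟨g, ?_⟩
  have hg' : V g = R.starProjection f := hg
  have hr : f - R.starProjection f = 0 := by
    ext n
    have h1 : f - R.starProjection f ∈ Rᗮ := R.sub_starProjection_mem_orthogonal f
    rw [hzero n _ (M.sub_mem hf (by rw [← hg']; exact hVM g))]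
    · rfl
    · intro k
      apply Submodule.inner_left_of_mem_orthogonal _ h1
      exact ⟨e k, hV2 k⟩
  rw [hg']
  exact (sub_eq_zero.1 hr).symm




theorem cm_mem {r : ℝ} (h0 : 0 ≤ r) (h1 : r < 1) (θ : ℝ) : circleMap 0 r θ ∈ ball (0 : ℂ) 1 := by
  rw [mem_ball_zero_iff, norm_circleMap_zero, abs_of_nonneg h0]; exact h1

theorem mul_cancel_ball {t u : ℂ → ℂ} (ht : DifferentiableOn ℂ t (ball 0 1))
    (hu : DifferentiableOn ℂ u (ball 0 1)) (ht0 : ∃ z ∈ ball (0:ℂ) 1, t z ≠ 0)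
    (h : ∀ z ∈ ball (0:ℂ) 1, t z * u z = 0) : ∀ z ∈ ball (0:ℂ) 1, u z = 0 := by
  have h1 := AnalyticOnNhd.eq_zero_or_eq_zero_of_mul_eq_zero (ht.analyticOnNhd isOpen_ball)
    (hu.analyticOnNhd isOpen_ball) h (convex_ball (0:ℂ) 1).isPreconnected
  rcases h1 with h1 | h1
  · obtain ⟨z, hz, hz0⟩ := ht0
    exact absurd (h1 z hz) hz0
  · exact h1

theorem quot_bound {W : H2 →ₗᵢ[ℂ] H2} {t : ℂ → ℂ} (htd : DifferentiableOn ℂ t (ball 0 1))
    (ht0 : ∃ z ∈ ball (0:ℂ) 1, t z ≠ 0)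
    (hW : ∀ f, ∀ z ∈ ball (0:ℂ) 1, Hardy.ev (W f) z = t z * Hardy.ev f z)
    {B : H2 →L[ℂ] H2} {ψ : ℂ → ℂ} {K : ℝ} (hB : IsMul B ψ) (hBK : ∀ f, ‖B f‖ ≤ K * ‖f‖)
    (hr : ∀ f, ∃ g, W g = B f) :
    ∃ g : H2, (∀ z ∈ ball (0:ℂ) 1, ψ z = t z * Hardy.ev g z) ∧
      ∀ z ∈ ball (0:ℂ) 1, ‖Hardy.ev g z‖ ≤ K := by
  choose A hA using hr
  let T : H2 →L[ℂ] H2 := LinearMap.mkContinuous
    { toFun := A
      map_add' := fun f g => by
        apply W.injective
        rw [hA, map_add, map_add, hA, hA]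
      map_smul' := fun c f => by
        apply W.injective
        rw [RingHom.id_apply, hA, map_smul, map_smul, hA] } K (fun f => by
      have := W.norm_map (A f)
      rw [hA] at this
      change ‖A f‖ ≤ K * ‖f‖
      rw [← this]
      exact hBK f)
  have hT : ∀ f, T f = A f := fun f => rfl
  have hg : ∀ z ∈ ball (0:ℂ) 1, ψ z = t z * Hardy.ev (A (e 0)) z := by
    intro z hz
    rw [← hW _ z hz, hA, hB _ z hz, ev_e, pow_zero, mul_one]
  refine ⟨A (e 0), hg, ?_⟩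
  apply mult_bound (T := T)
  · intro f z hz
    have h1 := mul_cancel_ball (t := t)
      (u := fun z => Hardy.ev (T f) z - Hardy.ev (A (e 0)) z * Hardy.ev f z) htd
      ((Hardy.ev_diff _).sub ((Hardy.ev_diff _).mul (Hardy.ev_diff _))) ht0 (by
        intro z hz
        have h2 := hW (A f) z hz
        rw [hA, hB _ z hz, hg z hz] at h2
        rw [hT]
        linear_combination -h2) z hz
    exact sub_eq_zero.1 h1
  · intro f
    have := W.norm_map (A f)
    rw [hA] at this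
    rw [hT, ← this]
    exact hBK f

/-- finite sums -/
theorem ev_finset_sum (S : Finset ℕ) (c : ℕ → ℂ) {z : ℂ} (hz : ‖z‖ < 1) :
    Hardy.ev (∑ i ∈ S, c i • e i) z = ∑ i ∈ S, c i * z ^ i := by
  rw [← evL_apply z hz, map_sum]
  apply Finset.sum_congr rfl
  intro i _
  rw [map_smul, evL_apply, ev_e, smul_eq_mul]

theorem hasSum_e (f : H2) : HasSum (fun i => f i • e i) f := by
  have h := lp.hasSum_single (p := 2) (by simp) f
  have h2 : (fun i => f i • e i) = fun i => lp.single 2 i (f i) := by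
    funext i
    unfold e
    rw [← lp.single_smul, smul_eq_mul, mul_one]
  rw [h2]
  exact h

/-- multiplication by an inner function is isometric -/
theorem inner_iso {t : ℂ → ℂ} (htd : DifferentiableOn ℂ t (ball 0 1))
    (ht1 : ∀ z ∈ ball (0:ℂ) 1, ‖t z‖ ≤ 1)
    (htb : ∀ᵐ θ : ℝ, ∃ w : ℂ, ‖w‖ = 1 ∧
      Tendsto (fun r : ℝ => t ((r : ℂ) * cexp ((θ : ℂ) * I))) (𝓝[<] 1) (𝓝 w)) :
    ∃ W : H2 →ₗᵢ[ℂ] H2, ∀ f, ∀ z ∈ ball (0:ℂ) 1, Hardy.ev (W f) z = t z * Hardy.ev f z := by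
  obtain ⟨T, hT, hTb⟩ := exists_mul htd zero_le_one ht1
  have hfin : ∀ (S : Finset ℕ) (c : ℕ → ℂ), ‖T (∑ i ∈ S, c i • e i)‖ = ‖∑ i ∈ S, c i • e i‖ := by
    intro S c
    set F := ∑ i ∈ S, c i • e i with hF
    have hsum : ∀ z : ℂ, ‖z‖ ≤ 1 → ‖∑ i ∈ S, c i * z ^ i‖ ≤ ∑ i ∈ S, ‖c i‖ := by
      intro z hz
      refine (norm_sum_le _ _).trans (Finset.sum_le_sum fun i _ => ?_)
      rw [norm_mul, norm_pow]
      exact mul_le_of_le_one_right (norm_nonneg _) (pow_le_one₀ (norm_nonneg _) hz)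
    have hnn : 0 ≤ ∑ i ∈ S, ‖c i‖ := Finset.sum_nonneg fun i _ => norm_nonneg _
    classical
    let w : ℝ → ℂ := fun θ => if h : ∃ w : ℂ, ‖w‖ = 1 ∧
      Tendsto (fun r : ℝ => t ((r : ℂ) * cexp ((θ : ℂ) * I))) (𝓝[<] 1) (𝓝 w) then h.choose else 0
    have hlim : Tendsto (fun r : ℝ => (r : ℂ)) (𝓝[<] 1) (𝓝 (1 : ℂ)) := by
      have : Tendsto (fun r : ℝ => (r : ℂ)) (𝓝 1) (𝓝 ((1 : ℝ) : ℂ)) :=
        Complex.continuous_ofReal.tendsto 1
      rw [Complex.ofReal_one] at this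
      exact this.mono_left nhdsWithin_le_nhds
    have hw : ∀ᵐ θ : ℝ, ‖w θ‖ = 1 ∧
        Tendsto (fun r : ℝ => t (circleMap 0 r θ)) (𝓝[<] 1) (𝓝 (w θ)) := by
      filter_upwards [htb] with θ hθ
      have h1 : w θ = hθ.choose := dif_pos hθ
      rw [h1]
      refine ⟨hθ.choose_spec.1, ?_⟩
      simp only [circleMap_zero]
      exact hθ.choose_spec.2
    have hcm : ∀ θ : ℝ, Tendsto (fun r : ℝ => circleMap 0 r θ) (𝓝[<] 1) (𝓝 (circleMap 0 1 θ)) := by
      intro θ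
      simp only [circleMap_zero, Complex.ofReal_one]
      exact hlim.mul_const _
    have hev : ∀ᶠ r : ℝ in 𝓝[<] 1, 0 ≤ r ∧ r < 1 := by
      filter_upwards [self_mem_nhdsWithin,
        mem_nhdsWithin_of_mem_nhds (Ioi_mem_nhds (zero_lt_one' ℝ))] with r h1 h2
      exact ⟨le_of_lt h2, h1⟩
    have hPlim : ∀ θ : ℝ, Tendsto (fun r : ℝ => Hardy.ev F (circleMap 0 r θ)) (𝓝[<] 1)
        (𝓝 (∑ i ∈ S, c i * (circleMap 0 1 θ) ^ i)) := by
      intro θ
      have h1 : Tendsto (fun r : ℝ => ∑ i ∈ S, c i * (circleMap 0 r θ) ^ i) (𝓝[<] 1)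
          (𝓝 (∑ i ∈ S, c i * (circleMap 0 1 θ) ^ i)) := by
        apply tendsto_finsetSum
        intro i _
        exact ((hcm θ).pow i).const_mul _
      apply h1.congr'
      filter_upwards [hev] with r hr
      exact (ev_finset_sum S c (mem_ball_zero_iff.1 (cm_mem hr.1 hr.2 θ))).symm
    have hA : ‖F‖ ^ 2 = ∫ θ, ‖∑ i ∈ S, c i * (circleMap 0 1 θ) ^ i‖ ^ 2 ∂mT := by
      apply Hardy.norm_sq_bdry F (M := ∑ i ∈ S, ‖c i‖)
      · intro z hz
        rw [ev_finset_sum S c (mem_ball_zero_iff.1 hz)]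
        exact hsum z (mem_ball_zero_iff.1 hz).le
      · exact Eventually.of_forall hPlim
    have hB : ‖T F‖ ^ 2 = ∫ θ, ‖w θ * ∑ i ∈ S, c i * (circleMap 0 1 θ) ^ i‖ ^ 2 ∂mT := by
      apply Hardy.norm_sq_bdry (T F) (M := ∑ i ∈ S, ‖c i‖)
      · intro z hz
        rw [hT F z hz, norm_mul, ev_finset_sum S c (mem_ball_zero_iff.1 hz)]
        calc ‖t z‖ * ‖∑ i ∈ S, c i * z ^ i‖ ≤ 1 * ∑ i ∈ S, ‖c i‖ := by
              gcongr
              · exact ht1 z hz
              · exact hsum z (mem_ball_zero_iff.1 hz).le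
          _ = ∑ i ∈ S, ‖c i‖ := one_mul _
      · filter_upwards [ae_mT_of_ae hw] with θ hθ
        apply (hθ.2.mul (hPlim θ)).congr'
        filter_upwards [hev] with r hr
        exact (hT F _ (cm_mem hr.1 hr.2 θ)).symm
    have hC : ‖T F‖ ^ 2 = ‖F‖ ^ 2 := by
      rw [hA, hB]
      apply integral_congr_ae
      filter_upwards [ae_mT_of_ae hw] with θ hθ
      rw [norm_mul, hθ.1, one_mul]
    exact (pow_left_inj₀ (norm_nonneg _) (norm_nonneg _) two_ne_zero).1 hC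
  have hall : ∀ f, ‖T f‖ = ‖f‖ := by
    intro f
    have h1 := hasSum_e f
    have h2 : Tendsto (fun S : Finset ℕ => ‖∑ i ∈ S, f i • e i‖) atTop (𝓝 ‖f‖) := h1.norm
    have h3 : Tendsto (fun S : Finset ℕ => ‖T (∑ i ∈ S, f i • e i)‖) atTop (𝓝 ‖T f‖) :=
      ((T.continuous.tendsto f).comp h1).norm
    simp only [hfin] at h3
    exact tendsto_nhds_unique h3 h2
  exact ⟨⟨T.toLinearMap, hall⟩, hT⟩




/-- a `2π` periodic property valid almost everywhere on one period is valid almost everywhere -/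
theorem ae_of_ae_mT {P : ℝ → Prop} (hper : ∀ θ, ∀ n : ℤ, P θ → P (θ + 2 * π * n))
    (h : ∀ᵐ θ ∂mT, P θ) : ∀ᵐ θ : ℝ, P θ := by
  have h1 : ∀ᵐ θ ∂(volume.restrict (Ioc 0 (2 * π))), P θ := by
    rw [mT, Measure.ae_ennreal_smul_measure_iff (by
      rw [ENNReal.inv_ne_zero]; exact ENNReal.ofReal_ne_top)] at h
    exact h
  rw [ae_restrict_iff' measurableSet_Ioc] at h1
  have h2 : ∀ n : ℤ, ∀ᵐ θ : ℝ, (θ + 2 * π * n) ∈ Ioc 0 (2 * π) → P θ := by
    intro n
    have hq : Measure.QuasiMeasurePreserving (fun θ : ℝ => θ + 2 * π * n) volume volume :=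
      (measurePreserving_add_right volume (2 * π * n)).quasiMeasurePreserving
    filter_upwards [hq.ae h1] with θ hθ hmem
    have h3 := hper _ (-n) (hθ hmem)
    have h4 : θ + 2 * π * n + 2 * π * ((-n : ℤ) : ℝ) = θ := by push_cast; ring
    rw [h4] at h3
    exact h3
  rw [← ae_all_iff] at h2
  filter_upwards [h2] with θ hθ
  have hpi : 0 < 2 * π := by positivity
  obtain ⟨n, hn, -⟩ := existsUnique_add_zsmul_mem_Ioc hpi θ 0
  apply hθ n
  simp only [zsmul_eq_mul, zero_add] at hn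
  rw [mul_comm (2 * π) (n : ℝ)]
  exact hn

theorem iso_inner {s : H2} (hs : ‖s‖ = 1) (hb : ∀ z ∈ ball (0:ℂ) 1, ‖Hardy.ev s z‖ ≤ 1) :
    ∀ᵐ θ : ℝ, ∃ w : ℂ, ‖w‖ = 1 ∧
      Tendsto (fun r : ℝ => Hardy.ev s ((r : ℂ) * cexp ((θ : ℂ) * I))) (𝓝[<] 1) (𝓝 w) := by
  have hF := Hardy.fatou (Hardy.ev_diff s) hb
  classical
  let b : ℝ → ℂ := fun θ => if h : ∃ l : ℂ,
    Tendsto (fun r : ℝ => Hardy.ev s (circleMap 0 r θ)) (𝓝[<] 1) (𝓝 l) then h.choose else 0
  have hb1 : ∀ᵐ θ : ℝ,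
      Tendsto (fun r : ℝ => Hardy.ev s (circleMap 0 r θ)) (𝓝[<] 1) (𝓝 (b θ)) := by
    filter_upwards [hF] with θ hθ
    have h1 : b θ = hθ.choose := dif_pos hθ
    rw [h1]
    exact hθ.choose_spec
  have hev : ∀ᶠ r : ℝ in 𝓝[<] 1, 0 ≤ r ∧ r < 1 := by
    filter_upwards [self_mem_nhdsWithin,
      mem_nhdsWithin_of_mem_nhds (Ioi_mem_nhds (zero_lt_one' ℝ))] with r h1 h2
    exact ⟨le_of_lt h2, h1⟩
  have hb2 : ∀ᵐ θ : ℝ, ‖b θ‖ ≤ 1 := by
    filter_upwards [hb1] with θ hθ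
    apply le_of_tendsto hθ.norm
    filter_upwards [hev] with r hr
    exact hb _ (cm_mem hr.1 hr.2 θ)
  have hn := Hardy.norm_sq_bdry s hb (ae_mT_of_ae hb1)
  rw [hs, one_pow] at hn
  have hmeas : AEStronglyMeasurable b mT := by
    apply aestronglyMeasurable_of_tendsto_ae atTop
      (f := fun (n : ℕ) (θ : ℝ) => Hardy.ev s (circleMap 0 (rad n) θ))
    · intro n
      apply Continuous.aestronglyMeasurable
      exact (Hardy.ev_diff s).continuousOn.comp_continuous (continuous_circleMap 0 _)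
        (cm_mem (rad_nonneg n) (rad_lt n))
    · filter_upwards [ae_mT_of_ae hb1] with θ hθ
      exact hθ.comp rad_tendsto'
  have hint : Integrable (fun θ => ‖b θ‖ ^ 2) mT := by
    refine Integrable.mono' (integrable_const (1 : ℝ)) (hmeas.norm.pow 2) ?_
    filter_upwards [ae_mT_of_ae hb2] with θ hθ
    rw [Real.norm_of_nonneg (by positivity)]
    exact pow_le_one₀ (norm_nonneg _) hθ
  have h0 : ∫ θ, (1 - ‖b θ‖ ^ 2) ∂mT = 0 := by
    rw [integral_sub (integrable_const _) hint, ← hn]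
    simp
  have hi : Integrable (fun θ => 1 - ‖b θ‖ ^ 2) mT := (integrable_const (1 : ℝ)).sub hint
  have hnn : 0 ≤ᵐ[mT] (fun θ => 1 - ‖b θ‖ ^ 2) := by
    filter_upwards [ae_mT_of_ae hb2] with θ hθ
    have : ‖b θ‖ ^ 2 ≤ 1 := pow_le_one₀ (norm_nonneg _) hθ
    simp only [Pi.zero_apply]
    linarith
  have h1 : (fun θ => 1 - ‖b θ‖ ^ 2) =ᵐ[mT] 0 :=
    (integral_eq_zero_iff_of_nonneg_ae hnn hi).1 h0
  have h2 : ∀ᵐ (θ : ℝ) ∂mT, ∃ w : ℂ, ‖w‖ = 1 ∧
      Tendsto (fun r : ℝ => Hardy.ev s ((r : ℂ) * cexp ((θ : ℂ) * I))) (𝓝[<] 1) (𝓝 w) := by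
    filter_upwards [h1, ae_mT_of_ae hb1] with θ hθ hθ2
    refine ⟨b θ, ?_, ?_⟩
    · simp only [Pi.zero_apply] at hθ
      have h3 : ‖b θ‖ ^ 2 = 1 := by linarith
      exact (pow_eq_one_iff_of_nonneg (norm_nonneg _) two_ne_zero).1 h3
    · simp only [circleMap_zero] at hθ2
      exact hθ2
  apply ae_of_ae_mT _ h2
  intro θ n hP
  have : cexp (((θ + 2 * π * n : ℝ) : ℂ) * I) = cexp ((θ : ℂ) * I) := by
    have e1 : ((θ + 2 * π * n : ℝ) : ℂ) * I = (θ : ℂ) * I + n * (2 * π * I) := by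
      push_cast; ring
    rw [e1, Complex.exp_add, Complex.exp_int_mul_two_pi_mul_I, mul_one]
  rw [this]
  exact hP

/-- an analytic function with bounded square means is given by an element of `H²` -/
theorem exists_ev' {h : ℂ → ℂ} (hh : DifferentiableOn ℂ h (ball 0 1)) {B : ℝ} (hB : 0 ≤ B)
    (hb : ∀ r : ℝ, 0 ≤ r → r < 1 → ∫ θ : ℝ, ‖h (circleMap 0 r θ)‖ ^ 2 ∂mT ≤ B) :
    ∃ F : H2, (∀ k, F k = iteratedDeriv k h 0 / (k.factorial : ℂ)) ∧
      (∀ z ∈ ball (0 : ℂ) 1, Hardy.ev F z = h z) ∧ ‖F‖ ^ 2 ≤ B := by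
  set a : ℕ → ℂ := fun k => iteratedDeriv k h 0 / (k.factorial : ℂ) with ha
  have hsum : ∀ z ∈ ball (0 : ℂ) 1, HasSum (fun k => a k * z ^ k) (h z) := by
    intro z hz
    have h1 := Complex.hasSum_taylorSeries_on_ball (f := h) (c := 0) (r := 1) hh hz
    have e2 : (fun k => a k * z ^ k) =
        fun n : ℕ => ((n.factorial : ℂ)⁻¹ • (z - 0) ^ n • iteratedDeriv n h 0) := by
      funext k
      simp only [ha, smul_eq_mul, sub_zero]
      ring
    rw [e2]
    exact h1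
  have hnorm : ∀ r : ℝ, 0 ≤ r → r < 1 → Summable fun k => ‖a k‖ * r ^ k := by
    intro r h0 h1
    have h2 := (hsum (r : ℂ) (by
      rw [mem_ball_zero_iff, Complex.norm_real, Real.norm_of_nonneg h0]; exact h1)).summable.norm
    refine h2.congr fun k => ?_
    rw [norm_mul, norm_pow, Complex.norm_real, Real.norm_of_nonneg h0]
  have hP : ∀ r : ℝ, 0 ≤ r → r < 1 → ∑' k, ‖a k‖ ^ 2 * r ^ (2 * k) ≤ B := by
    intro r h0 h1
    rw [← parseval_power a h0 (hnorm r h0 h1)]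
    refine le_trans (le_of_eq ?_) (hb r h0 h1)
    congr 1
    funext θ
    rw [(hsum (circleMap 0 r θ) (by
      rw [mem_ball_zero_iff, norm_circleMap_zero, abs_of_nonneg h0]; exact h1)).tsum_eq]
  have hSr : ∀ r : ℝ, 0 ≤ r → r < 1 → Summable fun k => ‖a k‖ ^ 2 * r ^ (2 * k) := by
    intro r h0 h1
    have h2 := hnorm r h0 h1
    have h3 := (h2.mul_of_nonneg h2 (fun k => by positivity) (fun k => by positivity))
    have h4 := h3.comp_injective (i := fun k : ℕ => (k, k)) (fun x y hxy => by simpa using hxy)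
    refine h4.congr fun k => ?_
    simp only [Function.comp]
    ring
  have hpart : ∀ N : ℕ, ∑ k ∈ Finset.range N, ‖a k‖ ^ 2 ≤ B := by
    intro N
    have h1 : Tendsto (fun n => ∑ k ∈ Finset.range N, ‖a k‖ ^ 2 * rad n ^ (2 * k)) atTop
        (𝓝 (∑ k ∈ Finset.range N, ‖a k‖ ^ 2 * 1 ^ (2 * k))) := by
      apply tendsto_finsetSum
      intro k _
      exact (rad_tendsto.pow _).const_mul _
    simp only [one_pow, mul_one] at h1
    refine le_of_tendsto h1 (Eventually.of_forall fun n => ?_)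
    refine le_trans ?_ (hP (rad n) (rad_nonneg n) (rad_lt n))
    exact (hSr (rad n) (rad_nonneg n) (rad_lt n)).sum_le_tsum _ (fun k _ => by
      have := rad_nonneg n; positivity)
  have hsumm : Summable fun k => ‖a k‖ ^ 2 :=
    summable_of_sum_range_le (fun k => by positivity) hpart
  have hmem : Memℓp a 2 := by
    apply memℓp_gen
    simpa using hsumm
  refine ⟨⟨a, hmem⟩, fun k => rfl, fun z hz => ?_, ?_⟩
  · exact (hsum z hz).tsum_eq
  · rw [norm_sq]
    exact hsumm.tsum_le_of_sum_range_le hpart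



end Pool.Agent.Helper203.Bg
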