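import Pool.Agent.Helper203.GV.Defs
import Pool.Agent.Helper203.GV.Alg
import Pool.Agent.Helper203.GV.BeurH

open MeasureTheory Filter Topology Set

noncomputable section

namespace Pool.Agent.Helper203.GV

/-! ### auxiliary lemmas -/

open Pool.Agent.Helper203 (Hardy.H2)
open Pool.Agent.Helper203.Bg (e)

theorem memlp_of_summable {p : PowerSeries ℂ}
    (hp : Summable fun n => ‖PowerSeries.coeff n p‖) :
    Memℓp (fun n => PowerSeries.coeff n p) 2 := by
  have : Memℓp (fun n => PowerSeries.coeff n p) 1 := by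
    apply memℓp_gen; simpa using hp
  exact this.of_exponent_ge (by norm_num)

/-- the coefficient sequence as an element of the Hardy space -/
def toH (p : PowerSeries ℂ) (hp : Summable fun n => ‖PowerSeries.coeff n p‖) : Hardy.H2 :=
  ⟨fun n => PowerSeries.coeff n p, memlp_of_summable hp⟩

theorem toH_apply (p : PowerSeries ℂ) (hp : Summable fun n => ‖PowerSeries.coeff n p‖) (n : ℕ) :
    toH p hp n = PowerSeries.coeff n p := rfl

theorem ev_toH (p : PowerSeries ℂ) (hp : Summable fun n => ‖PowerSeries.coeff n p‖) (z : ℂ) :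
    Hardy.ev (toH p hp) z = ev p z := rfl

theorem wt_mono_nat {β c : ℝ} (hβ : 0 < β) (hc : 0 ≤ c) {m n : ℕ} (h : m ≤ n) :
    wt β c m ≤ wt β c n := by
  unfold wt
  apply Real.exp_le_exp.2
  have h1 : (m : ℝ) ^ β ≤ (n : ℝ) ^ β :=
    Real.rpow_le_rpow (Nat.cast_nonneg _) (by exact_mod_cast h) hβ.le
  exact mul_le_mul_of_nonneg_left h1 hc

theorem sum_exp {β δ : ℝ} (hβ : 0 < β) (hδ : 0 < δ) :
    Summable fun n : ℕ => Real.exp (-(δ * (n : ℝ) ^ β)) := by
  obtain ⟨m, hm⟩ := exists_nat_gt (2 / β)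
  have hmβ : 2 ≤ β * m := by
    rw [div_lt_iff₀ hβ] at hm
    linarith
  rw [← summable_nat_add_iff 1]
  have hs : Summable fun n : ℕ => ((m.factorial : ℝ) / δ ^ m) * (1 / ((n + 1 : ℕ) : ℝ) ^ 2) := by
    apply Summable.mul_left
    have := (summable_nat_add_iff 1).2 (Real.summable_one_div_nat_pow.2 (by norm_num : 1 < 2))
    exact this
  refine Summable.of_nonneg_of_le (fun n => (Real.exp_pos _).le) (fun n => ?_) hs
  set x : ℝ := ((n + 1 : ℕ) : ℝ) with hx
  have hx1 : 1 ≤ x := by rw [hx]; push_cast; linarith [(Nat.cast_nonneg n : (0:ℝ) ≤ n)]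
  have hx0 : 0 < x := by linarith
  have hxb : 0 < x ^ β := Real.rpow_pos_of_pos hx0 β
  have h1 := Real.pow_div_factorial_le_exp (δ * x ^ β) (by positivity) m
  have h2 : δ ^ m * x ^ 2 ≤ (δ * x ^ β) ^ m := by
    rw [mul_pow]
    apply mul_le_mul_of_nonneg_left _ (by positivity)
    rw [← Real.rpow_natCast (x ^ β) m, ← Real.rpow_mul hx0.le]
    calc x ^ 2 = x ^ (2 : ℝ) := by norm_cast
      _ ≤ x ^ (β * m) := Real.rpow_le_rpow_of_exponent_le hx1 hmβ
  have hf : (0 : ℝ) < m.factorial := by exact_mod_cast m.factorial_pos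
  rw [Real.exp_neg]
  have h3 : δ ^ m * x ^ 2 / m.factorial ≤ Real.exp (δ * x ^ β) :=
    le_trans (by gcongr) h1
  have h4 : 0 < δ ^ m * x ^ 2 / m.factorial := by positivity
  calc (Real.exp (δ * x ^ β))⁻¹ ≤ (δ ^ m * x ^ 2 / m.factorial)⁻¹ := by gcongr
    _ = (m.factorial : ℝ) / δ ^ m * (1 / x ^ 2) := by field_simp

theorem F_prop {β : ℝ} (hβ : 0 < β) {s : Hardy.H2} {V : Hardy.H2 →ₗᵢ[ℂ] Hardy.H2}
    (hs1 : ‖s‖ = 1) (hV2 : ∀ n, V (e n) = (Hardy.Mz ^ n) s)
    (hV3 : ∀ f, ∀ z ∈ Metric.ball (0:ℂ) 1, Hardy.ev (V f) z = Hardy.ev s z * Hardy.ev f z)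
    {p : PowerSeries ℂ} (hp : AA β p) {h : ℂ → ℂ} (hd : DifferentiableOn ℂ h (Metric.ball 0 1))
    (hb : ∃ B : ℝ, ∀ z ∈ Metric.ball (0:ℂ) 1, ‖h z‖ ≤ B)
    (hph : ∀ z ∈ Metric.ball (0:ℂ) 1, ev p z = Hardy.ev s z * h z) :
    AA β (ser h) := by
  obtain ⟨B, hB⟩ := hb
  obtain ⟨g, hg1, hg2, -⟩ := Bg.exists_ev' hd (B := B ^ 2) (by positivity) (by
    intro r h0 h1
    have hc : Continuous fun θ => h (circleMap 0 r θ) :=
      hd.continuousOn.comp_continuous (continuous_circleMap 0 _) (Bg.cm_mem h0 h1)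
    calc ∫ θ : ℝ, ‖h (circleMap 0 r θ)‖ ^ 2 ∂Hardy.mT ≤ ∫ θ : ℝ, B ^ 2 ∂Hardy.mT := by
          apply integral_mono
          · exact Hardy.cont_integrable (hc.norm.pow 2)
          · exact integrable_const _
          · intro θ
            have := hB _ (Bg.cm_mem h0 h1 θ)
            simp only
            gcongr
      _ = B ^ 2 := by simp)
  obtain ⟨c, hc, hpc⟩ := hp
  have hps : Summable fun n => ‖PowerSeries.coeff n p‖ := hpc.summable hc.le
  have hVg : V g = toH p hps := by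
    apply Hardy.ev_injective
    intro z hz
    rw [hV3 g z hz, hg2 z hz, ev_toH, hph z hz]
  have hbound : ∀ n, ‖PowerSeries.coeff n (ser h)‖ ≤ nrm β c p / wt β c n := by
    intro n
    have h1 : PowerSeries.coeff n (ser h) = g n := by
      rw [hg1 n, ser, PowerSeries.coeff_mk]
    have h2 : g n = inner ℂ s (ContinuousLinearMap.adjoint (Hardy.Mz ^ n) (toH p hps)) := by
      rw [ContinuousLinearMap.adjoint_inner_right, ← hV2 n, ← hVg, V.inner_map_map,
        Bg.inner_e]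
    rw [h1, h2, lp.inner_eq_tsum]
    have hshift : Summable fun k => ‖PowerSeries.coeff (n + k) p‖ * wt β c (n + k) := by
      have := (summable_nat_add_iff n).2 hpc
      refine this.congr fun k => ?_
      rw [add_comm k n]
    have h3 : HasSum (fun k => ‖PowerSeries.coeff (n + k) p‖ * wt β c (n + k) / wt β c n)
        ((∑' k, ‖PowerSeries.coeff (n + k) p‖ * wt β c (n + k)) / wt β c n) :=
      hshift.hasSum.div_const _
    refine (tsum_of_norm_bounded h3 fun k => ?_).trans ?_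
    · rw [Hardy.adj_Mz_pow, toH_apply]
      have h4 : ‖inner ℂ (s k) (PowerSeries.coeff (n + k) p)‖ ≤
          ‖s k‖ * ‖PowerSeries.coeff (n + k) p‖ := norm_inner_le_norm _ _
      have h5 : ‖s k‖ ≤ 1 := by rw [← hs1]; exact Hardy.coef_le s k
      have h6 : wt β c n ≤ wt β c (n + k) := wt_mono_nat hβ hc.le (by omega)
      have h7 := wt_pos β c n
      calc ‖inner ℂ (s k) (PowerSeries.coeff (n + k) p)‖
          ≤ 1 * ‖PowerSeries.coeff (n + k) p‖ := h4.trans (by gcongr)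
        _ = ‖PowerSeries.coeff (n + k) p‖ * wt β c n / wt β c n := by field_simp
        _ ≤ _ := by gcongr
    · have h7 := wt_pos β c n
      gcongr
      unfold nrm
      rw [← hpc.sum_add_tsum_nat_add n]
      have h8 : 0 ≤ ∑ i ∈ Finset.range n, ‖PowerSeries.coeff i p‖ * wt β c i :=
        Finset.sum_nonneg fun i _ => mul_nonneg (norm_nonneg _) (wt_pos _ _ _).le
      have h9 : (∑' k, ‖PowerSeries.coeff (n + k) p‖ * wt β c (n + k)) =
          ∑' k, ‖PowerSeries.coeff (k + n) p‖ * wt β c (k + n) := by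
        congr 1; funext k; rw [add_comm k n]
      rw [h9]
      linarith
  refine ⟨c / 2, by positivity, ?_⟩
  unfold FW
  have hS := (sum_exp hβ (half_pos hc)).mul_left (nrm β c p)
  refine Summable.of_nonneg_of_le (fun n => mul_nonneg (norm_nonneg _) (wt_pos _ _ _).le)
    (fun n => ?_) hS
  have h1 := hbound n
  have h2 : wt β (c / 2) n / wt β c n = Real.exp (-(c / 2 * (n : ℝ) ^ β)) := by
    unfold wt
    rw [← Real.exp_sub]
    congr 1
    ring
  calc ‖PowerSeries.coeff n (ser h)‖ * wt β (c / 2) n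
      ≤ nrm β c p / wt β c n * wt β (c / 2) n := by
        have := (wt_pos β (c / 2) n).le
        gcongr
    _ = nrm β c p * (wt β (c / 2) n / wt β c n) := by ring
    _ = nrm β c p * Real.exp (-(c / 2 * (n : ℝ) ^ β)) := by rw [h2]



theorem beurling {β : ℝ} (hβ : 0 < β) {I : Set (PowerSeries ℂ)} (hA : ∀ p ∈ I, AA β p)
    (h0 : (0 : PowerSeries ℂ) ∈ I) (hadd : ∀ p ∈ I, ∀ q ∈ I, p + q ∈ I)
    (hmul : ∀ p ∈ I, ∀ q, AA β q → q * p ∈ I) (hne : ∃ p ∈ I, p ≠ 0) :
    ∃ S : ℂ → ℂ, Inner S ∧ (∀ p ∈ I, Dvd S (ev p)) ∧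
      (∀ T : ℂ → ℂ, Inner T → (∀ p ∈ I, Dvd T (ev p)) → Dvd T S) ∧
      (∀ p : PowerSeries ℂ, AA β p → ∀ h : ℂ → ℂ, DifferentiableOn ℂ h (Metric.ball 0 1) →
        (∃ B : ℝ, ∀ z ∈ Metric.ball (0:ℂ) 1, ‖h z‖ ≤ B) →
        (∀ z ∈ Metric.ball (0:ℂ) 1, ev p z = S z * h z) → AA β (ser h)) ∧
      ∃ P q : ℕ → PowerSeries ℂ, (∀ n, P n ∈ I) ∧ (∀ n, AA β (q n)) ∧
        (∀ n, ∀ z ∈ Metric.ball (0:ℂ) 1, ev (P n) z = S z * ev (q n) z) ∧
        Tendsto (fun n => ∑' k, ‖PowerSeries.coeff k (q n - 1)‖ ^ 2) atTop (𝓝 0) := by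
  have hsm : ∀ p ∈ I, Summable fun n => ‖PowerSeries.coeff n p‖ := fun p hp => (hA p hp).summable
  let M0 : Submodule ℂ Hardy.H2 :=
    { carrier := {f | ∃ p ∈ I, ∀ n, f n = PowerSeries.coeff n p}
      add_mem' := by
        rintro f g ⟨p, hp, hpf⟩ ⟨q, hq, hqg⟩
        refine ⟨p + q, hadd p hp q hq, fun n => ?_⟩
        rw [lp.coeFn_add, Pi.add_apply, hpf, hqg, map_add]
      zero_mem' := ⟨0, h0, fun n => by simp⟩
      smul_mem' := by
        rintro a f ⟨p, hp, hpf⟩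
        refine ⟨PowerSeries.C a * p, hmul p hp _ (AA_C a), fun n => ?_⟩
        rw [lp.coeFn_smul, Pi.smul_apply, hpf, PowerSeries.coeff_C_mul, smul_eq_mul] }
  have hM0 : ∀ f, f ∈ M0 ↔ ∃ p ∈ I, ∀ n, f n = PowerSeries.coeff n p := fun f => Iff.rfl
  have hM0eq : ∀ f, ∀ p (hp : p ∈ I), (∀ n, f n = PowerSeries.coeff n p) →
      f = toH p (hsm p hp) := by
    intro f p hp hf
    ext n
    rw [hf n, toH_apply]
  let M : Submodule ℂ Hardy.H2 := M0.topologicalClosure
  have hM0M : ∀ f ∈ M0, f ∈ M := fun f hf => M0.le_topologicalClosure hf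
  have hMc : IsClosed (M : Set Hardy.H2) := M0.isClosed_topologicalClosure
  have hMcl : (M : Set Hardy.H2) = closure (M0 : Set Hardy.H2) := rfl
  have hM0z : ∀ f ∈ M0, Hardy.Mz f ∈ M0 := by
    rintro f ⟨p, hp, hpf⟩
    refine ⟨PowerSeries.X * p, hmul p hp _ AA_X, fun n => ?_⟩
    cases n with
    | zero =>
      rw [Bg.Mz_zero_coef]
      simp
    | succ n =>
      rw [Bg.Mz_succ_coef, hpf n, PowerSeries.coeff_succ_X_mul]
  have hMz : ∀ f ∈ M, Hardy.Mz f ∈ M := by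
    intro f hf
    have hf' : f ∈ closure (M0 : Set Hardy.H2) := hf
    exact map_mem_closure Hardy.Mz.continuous hf' (fun x hx => hM0z x hx)
  obtain ⟨s, hsM, hs1, hs0, hsV⟩ := Bg.beurling0 M hMc hMz (by
    obtain ⟨p, hp, hp0⟩ := hne
    refine ⟨toH p (hsm p hp), hM0M _ ⟨p, hp, fun n => rfl⟩, ?_⟩
    intro h
    apply hp0
    ext n
    rw [← toH_apply p (hsm p hp) n, h]
    simp)
  obtain ⟨V, hV1, hV2, hV3⟩ := Bg.exists_iso hs1 hs0
  obtain ⟨hVM, hVM'⟩ := hsV V hV1 hV2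
  have hSb := Bg.iso_bound hV3
  have hSd : DifferentiableOn ℂ (Hardy.ev s) (Metric.ball 0 1) := Hardy.ev_diff s
  have hev0 : ∀ z : ℂ, Hardy.ev (0 : Hardy.H2) z = 0 := by
    intro z; simp [Hardy.ev]
  have hSne : ∃ z ∈ Metric.ball (0:ℂ) 1, Hardy.ev s z ≠ 0 := by
    by_contra hcon
    push Not at hcon
    have : s = 0 := Hardy.ev_injective (fun z hz => by rw [hcon z hz, hev0])
    rw [this, norm_zero] at hs1
    exact zero_ne_one hs1
  -- quotients
  have hquot : ∀ p ∈ I, ∃ g : Hardy.H2, (∀ z ∈ Metric.ball (0:ℂ) 1,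
      ev p z = Hardy.ev s z * Hardy.ev g z) ∧
      ∃ K : ℝ, ∀ z ∈ Metric.ball (0:ℂ) 1, ‖Hardy.ev g z‖ ≤ K := by
    intro p hp
    have hps := hsm p hp
    set K : ℝ := ∑' n, ‖PowerSeries.coeff n p‖ with hK
    have hK0 : 0 ≤ K := tsum_nonneg fun n => norm_nonneg _
    have hKb : ∀ z ∈ Metric.ball (0:ℂ) 1, ‖ev p z‖ ≤ K := by
      intro z hz
      have hz1 : ‖z‖ < 1 := mem_ball_zero_iff.1 hz
      unfold ev
      refine tsum_of_norm_bounded hps.hasSum fun n => ?_
      rw [norm_mul, norm_pow]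
      exact mul_le_of_le_one_right (norm_nonneg _) (pow_le_one₀ (norm_nonneg _) hz1.le)
    obtain ⟨T, hT, hTb⟩ := Bg.exists_mul (ev_differentiableOn hps) hK0 hKb
    have hTe : ∀ n, T (e n) = (Hardy.Mz ^ n) (toH p hps) := by
      intro n
      apply Hardy.ev_injective
      intro z hz
      rw [hT _ z hz, Bg.ev_e, Hardy.ev_Mz_pow _ _ (mem_ball_zero_iff.1 hz), ev_toH, mul_comm]
    have hpowM : ∀ n : ℕ, ∀ f ∈ M, (Hardy.Mz ^ n) f ∈ M := by
      intro n
      induction n with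
      | zero => intro f hf; simpa using hf
      | succ n ih => intro f hf; rw [pow_succ, mul_apply_eq_comp]; exact ih _ (hMz f hf)
    have hTM : ∀ f, T f ∈ M := by
      intro f
      have h1 := T.hasSum (Bg.hasSum_e f)
      apply hMc.mem_of_tendsto h1
      filter_upwards with F
      apply Submodule.sum_mem
      intro n _
      show T (f n • e n) ∈ M
      rw [map_smul, hTe]
      exact M.smul_mem _ (hpowM n _ (hM0M _ ⟨p, hp, fun n => rfl⟩))
    obtain ⟨g, hg1, hg2⟩ := Bg.quot_bound hSd hSne hV3 hT hTb (fun f => hVM' _ (hTM f))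
    exact ⟨g, hg1, K, hg2⟩
  have hFp : ∀ p : PowerSeries ℂ, AA β p → ∀ h : ℂ → ℂ, DifferentiableOn ℂ h (Metric.ball 0 1) →
        (∃ B : ℝ, ∀ z ∈ Metric.ball (0:ℂ) 1, ‖h z‖ ≤ B) →
        (∀ z ∈ Metric.ball (0:ℂ) 1, ev p z = Hardy.ev s z * h z) → AA β (ser h) :=
    fun p hp h hd hb hph => F_prop hβ hs1 hV2 hV3 hp hd hb hph
  refine ⟨Hardy.ev s, ⟨hSd, hSb, Bg.iso_inner hs1 hSb⟩, ?_, ?_, hFp, ?_⟩
  · intro p hp
    obtain ⟨g, hg1, hg2⟩ := hquot p hp
    exact ⟨Hardy.ev g, Hardy.ev_diff g, hg2, hg1⟩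
  · intro T hT hTI
    obtain ⟨W, hW⟩ := Bg.inner_iso hT.1 hT.2.1 hT.2.2
    have hTne : ∃ z ∈ Metric.ball (0:ℂ) 1, T z ≠ 0 := by
      by_contra hcon
      push Not at hcon
      have h1 : W (e 0) = 0 := Hardy.ev_injective (fun z hz => by
        rw [hW _ z hz, hcon z hz, hev0, zero_mul])
      have h2 := W.norm_map (e 0)
      rw [h1, norm_zero, Bg.norm_e] at h2
      exact zero_ne_one h2
    have hrc : IsClosed (Set.range W) := W.isometry.isClosedEmbedding.isClosed_range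
    have hMW : ∀ f ∈ M, f ∈ Set.range W := by
      intro f hf
      have hf' : f ∈ closure (M0 : Set Hardy.H2) := hf
      refine closure_minimal ?_ hrc hf'
      rintro x ⟨p, hp, hpx⟩
      obtain ⟨h, hd, ⟨B, hB⟩, hph⟩ := hTI p hp
      obtain ⟨g, -, hg2, -⟩ := Bg.exists_ev' hd (B := B ^ 2) (by positivity) (by
        intro r h0 h1
        have hc : Continuous fun θ => h (circleMap 0 r θ) :=
          hd.continuousOn.comp_continuous (continuous_circleMap 0 _) (Bg.cm_mem h0 h1)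
        calc ∫ θ : ℝ, ‖h (circleMap 0 r θ)‖ ^ 2 ∂Hardy.mT ≤ ∫ θ : ℝ, B ^ 2 ∂Hardy.mT := by
              apply integral_mono
              · exact Hardy.cont_integrable (hc.norm.pow 2)
              · exact integrable_const _
              · intro θ
                have := hB _ (Bg.cm_mem h0 h1 θ)
                simp only
                gcongr
          _ = B ^ 2 := by simp)
      refine ⟨g, ?_⟩
      rw [hM0eq x p hp hpx]
      apply Hardy.ev_injective
      intro z hz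
      rw [hW _ z hz, hg2 z hz, ev_toH, hph z hz]
    obtain ⟨g, hg1, hg2⟩ := Bg.quot_bound (B := V.toContinuousLinearMap) (K := 1) hT.1 hTne hW
      (fun f z hz => hV3 f z hz) (fun f => by rw [one_mul]; exact (V.norm_map f).le)
      (fun f => hMW _ (hVM f))
    exact ⟨Hardy.ev g, Hardy.ev_diff g, ⟨1, hg2⟩, hg1⟩
  · have hsM' : s ∈ closure (M0 : Set Hardy.H2) := hsM
    obtain ⟨x, hx1, hx2⟩ := mem_closure_iff_seq_limit.1 hsM'
    have hx3 : ∀ n, ∃ p ∈ I, ∀ k, x n k = PowerSeries.coeff k p := fun n => hx1 n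
    choose P hP1 hP2 using hx3
    have hx4 : ∀ n, ∃ g : Hardy.H2, (∀ z ∈ Metric.ball (0:ℂ) 1,
      ev (P n) z = Hardy.ev s z * Hardy.ev g z) ∧
      ∃ K : ℝ, ∀ z ∈ Metric.ball (0:ℂ) 1, ‖Hardy.ev g z‖ ≤ K := fun n => hquot _ (hP1 n)
    choose g hg1 hg2 using hx4
    have hcoef : ∀ n k, PowerSeries.coeff k (ser (Hardy.ev (g n))) = g n k := by
      intro n k
      obtain ⟨F, hF1, hF2, -⟩ := Bg.exists_ev' (Hardy.ev_diff (g n)) (B := ‖g n‖ ^ 2)
        (by positivity) (fun r h0 h1 => Hardy.ev_circle_le (g n) h0 h1)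
      have hF3 : F = g n := Hardy.ev_injective hF2
      rw [← hF3, hF1 k, ser, PowerSeries.coeff_mk, hF3]
    have hVg : ∀ n, V (g n) = x n := by
      intro n
      rw [hM0eq (x n) (P n) (hP1 n) (hP2 n)]
      apply Hardy.ev_injective
      intro z hz
      rw [hV3 _ z hz, ev_toH, hg1 n z hz]
    have hVe : V (e 0) = s := by rw [hV2 0]; simp
    have hnorm : ∀ n, ∑' k, ‖PowerSeries.coeff k (ser (Hardy.ev (g n)) - 1)‖ ^ 2 =
        ‖x n - s‖ ^ 2 := by
      intro n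
      have h1 : ‖x n - s‖ = ‖g n - e 0‖ := by
        rw [← hVg n, ← hVe, ← map_sub, V.norm_map]
      rw [h1, Hardy.norm_sq]
      congr 1
      funext k
      rw [map_sub, hcoef, lp.coeFn_sub, Pi.sub_apply]
      congr 3
      rw [PowerSeries.coeff_one]
      unfold Bg.e
      split_ifs with hk
      · subst hk; rw [lp.single_apply_self]
      · rw [lp.single_apply_ne _ _ _ hk]
    refine ⟨P, fun n => ser (Hardy.ev (g n)), hP1, ?_, ?_, ?_⟩
    · intro n
      exact hFp (P n) (hA _ (hP1 n)) _ (Hardy.ev_diff _) (hg2 n) (hg1 n)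
    · intro n z hz
      rw [hg1 n z hz]
      congr 1
      show ∑' k, g n k * z ^ k = ∑' k, PowerSeries.coeff k (ser (Hardy.ev (g n))) * z ^ k
      congr 1
      funext k
      rw [hcoef]
    · simp only [hnorm]
      have h1 : Tendsto (fun n => x n - s) atTop (𝓝 (s - s)) := hx2.sub_const s
      rw [sub_self] at h1
      have h2 := (h1.norm).pow 2
      simpa using h2

end Pool.Agent.Helper203.GV
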