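import Pool.Agent.Helper203.GV.Defs
import Pool.Agent.Helper203.GV.Area

open MeasureTheory Filter Topology Set

noncomputable section

namespace Pool.Agent.Helper203.GV

theorem aux_unit (z : ℂ) : ∃ u : ℂ, ‖u‖ = 1 ∧ ‖z - u‖ = |1 - ‖z‖| := by
  by_cases hz : z = 0
  · refine ⟨1, by simp, by simp [hz]⟩
  · have hz' : ‖z‖ ≠ 0 := norm_ne_zero_iff.mpr hz
    refine ⟨z / (‖z‖ : ℂ), ?_, ?_⟩
    · rw [norm_div, Complex.norm_real, norm_norm, div_self hz']
    · have h : z - z / (‖z‖ : ℂ) = (((‖z‖ - 1) / ‖z‖ : ℝ) : ℂ) * z := by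
        have : (‖z‖ : ℂ) ≠ 0 := by exact_mod_cast hz'
        push_cast
        field_simp
      rw [h, norm_mul, Complex.norm_real, Real.norm_eq_abs, abs_div, abs_norm, div_mul_cancel₀ _ hz',
        abs_sub_comm]

theorem aux_sg_fin : IsFiniteMeasure sg := by
  unfold sg
  infer_instance

theorem aux_sg_ae : ∀ᵐ ζ ∂sg, ‖ζ‖ = 1 := by
  unfold sg
  rw [ae_map_iff (by fun_prop) (by exact measurableSet_eq_fun (by fun_prop) (by fun_prop))]
  refine Filter.Eventually.of_forall fun t => ?_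
  exact Complex.norm_exp_ofReal_mul_I t

theorem aux_posLog {x B : ℝ} (hx : 0 ≤ x) (hB : 0 ≤ B) (h : x ≤ Real.exp B) : Real.posLog x ≤ B := by
  unfold Real.posLog
  refine max_le hB ?_
  rcases hx.eq_or_lt with h0 | h0
  · rw [← h0]; simpa using hB
  · rw [Real.log_le_iff_le_exp h0]; exact h

theorem aux_ofReal_int {β : Type*} [MeasurableSpace β] {μ : Measure β} {f : β → ℝ} (hf : ∀ x, 0 ≤ f x) :
    ENNReal.ofReal (∫ x, f x ∂μ) ≤ ∫⁻ x, ENNReal.ofReal (f x) ∂μ := by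
  by_cases h : Integrable f μ
  · rw [ofReal_integral_eq_lintegral_ofReal h (Filter.Eventually.of_forall hf)]
  · rw [integral_undef h]; simp

theorem aux_wint {w : ℂ → ℝ} (hw : Integrable w sg) {z : ℂ} {t : ℝ} (ht : 0 < t) :
    Integrable (fun ζ => w ζ * (t / (‖ζ - z‖ + t) ^ 2)) sg := by
  refine hw.mul_bdd (c := 1 / t) ?_ ?_
  · have : Continuous (fun ζ : ℂ => t / (‖ζ - z‖ + t) ^ 2) := by
      refine Continuous.div (by fun_prop) (by fun_prop) fun ζ => ?_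
      have : 0 < ‖ζ - z‖ + t := by positivity
      positivity
    exact this.aestronglyMeasurable
  · refine Filter.Eventually.of_forall fun ζ => ?_
    have h1 : 0 ≤ ‖ζ - z‖ := norm_nonneg _
    rw [Real.norm_eq_abs, abs_of_nonneg (by positivity)]
    rw [div_le_div_iff₀ (by positivity) ht]
    nlinarith

theorem aux_in {w : ℂ → ℝ} (hwm : Measurable w) (hw0 : ∀ ζ, 0 ≤ w ζ) (hw : Integrable w sg) {Cp : ℝ}
    (hCp : 0 < Cp) (hP : ∀ (z ζ : ℂ) (s : ℝ), 0 < s → |1 - ‖z‖| ≤ 8 * s → ‖ζ‖ = 1 →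
    ∫⁻ y in Metric.ball z s ∩ Metric.ball 0 1, ENNReal.ofReal ((1 - ‖y‖ ^ 2) / ‖ζ - y‖ ^ 2) ≤
      ENNReal.ofReal (Cp * s ^ 2 * (s / (‖ζ - z‖ + s) ^ 2))) {z : ℂ} {s : ℝ} (hs : 0 < s)
    (hzs : |1 - ‖z‖| ≤ 8 * s) :
    ∫⁻ y in Metric.ball z s ∩ Metric.ball 0 1,
      ENNReal.ofReal (∫ ζ, w ζ * ((1 - ‖y‖ ^ 2) / ‖ζ - y‖ ^ 2) ∂sg) ≤
    ENNReal.ofReal (Cp * s ^ 2 * ∫ ζ, w ζ * (s / (‖ζ - z‖ + s) ^ 2) ∂sg) := by
  have := aux_sg_fin
  have hms : MeasurableSet (Metric.ball z s ∩ Metric.ball (0:ℂ) 1) :=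
    measurableSet_ball.inter measurableSet_ball
  calc ∫⁻ y in Metric.ball z s ∩ Metric.ball 0 1,
      ENNReal.ofReal (∫ ζ, w ζ * ((1 - ‖y‖ ^ 2) / ‖ζ - y‖ ^ 2) ∂sg)
      ≤ ∫⁻ y in Metric.ball z s ∩ Metric.ball 0 1,
        ∫⁻ ζ, ENNReal.ofReal (w ζ) * ENNReal.ofReal ((1 - ‖y‖ ^ 2) / ‖ζ - y‖ ^ 2) ∂sg := by
        refine setLIntegral_mono' hms fun y hy => ?_
        have hy1 : ‖y‖ < 1 := by simpa using hy.2
        have hy2 : 0 ≤ 1 - ‖y‖ ^ 2 := by nlinarith [norm_nonneg y]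
        refine (aux_ofReal_int fun ζ => ?_).trans ?_
        · exact mul_nonneg (hw0 ζ) (div_nonneg hy2 (by positivity))
        · refine lintegral_mono fun ζ => ?_
          rw [ENNReal.ofReal_mul (hw0 ζ)]
    _ = ∫⁻ ζ, (∫⁻ y in Metric.ball z s ∩ Metric.ball 0 1,
        ENNReal.ofReal (w ζ) * ENNReal.ofReal ((1 - ‖y‖ ^ 2) / ‖ζ - y‖ ^ 2)) ∂sg := by
        refine lintegral_lintegral_swap ?_
        refine Measurable.aemeasurable ?_
        fun_prop
    _ ≤ ∫⁻ ζ, ENNReal.ofReal (w ζ * (Cp * s ^ 2 * (s / (‖ζ - z‖ + s) ^ 2))) ∂sg := by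
        refine lintegral_mono_ae ?_
        filter_upwards [aux_sg_ae] with ζ hζ
        rw [lintegral_const_mul' _ _ ENNReal.ofReal_ne_top, ENNReal.ofReal_mul (hw0 ζ)]
        exact mul_le_mul_right (hP z ζ s hs hzs hζ) _
    _ = ENNReal.ofReal (Cp * s ^ 2 * ∫ ζ, w ζ * (s / (‖ζ - z‖ + s) ^ 2) ∂sg) := by
        have h1 := (aux_wint hw (z := z) hs).const_mul (Cp * s ^ 2)
        rw [← integral_const_mul, ofReal_integral_eq_lintegral_ofReal h1]
        · refine lintegral_congr fun ζ => ?_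
          congr 1; ring
        · refine Filter.Eventually.of_forall fun ζ => ?_
          have : 0 ≤ ‖ζ - z‖ := norm_nonneg _
          have := hw0 ζ
          simp only [Pi.zero_apply]
          positivity

theorem collar_bound {α : ℝ} (h0 : 0 < α) (h1 : α < 1) {θ : ℝ} (hθ : 0 < θ) (hθ1 : θ ≤ 1/8) :
    ∃ C1 : ℝ, 0 < C1 ∧ ∀ {ψ : ℂ → ℝ}, LipschitzWith 1 ψ → (∀ z, |1 - ‖z‖| ≤ ψ z) →
      (∀ z, ‖z‖ = 1 → ψ z ≤ 1) → ∀ {Λ : ℂ → ℂ}, DifferentiableOn ℂ Λ {z | ψ z ≠ 0} →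
      ∀ {w : ℂ → ℝ}, Measurable w → (∀ ζ, 0 ≤ w ζ) → Integrable w sg → ∀ {N c C : ℝ},
      0 ≤ N → 0 < c → 0 ≤ C →
      (∀ z, 1 < ‖z‖ → ‖Λ z‖ ≤ Real.exp (C + c * (‖z‖ - 1) ^ (-α))) →
      (∀ z, ‖z‖ < 1 → ‖Λ z‖ ≤ Real.exp (N + ∫ ζ, w ζ * ((1 - ‖z‖ ^ 2) / ‖ζ - z‖ ^ 2) ∂sg)) →
      ∀ z, 0 < ψ z → ‖z‖ ≤ 1 + θ * ψ z / 2 → 1 - ‖z‖ ≤ θ * ψ z →
        ‖Λ z‖ ≤ Real.exp (C + N + C1 * c * (ψ z) ^ (-α) +
          C1 * ∫ ζ, w ζ * ((θ * ψ z) / (‖ζ - z‖ + θ * ψ z) ^ 2) ∂sg) := by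
  obtain ⟨Cp, hCp, hP⟩ := area_poisson
  obtain ⟨Ca, hCa, hA⟩ := area_dist h0 h1
  have hpi := Real.pi_pos
  refine ⟨Ca / Real.pi * (8 / θ) ^ α + 8 * Cp / Real.pi + 1, by positivity, ?_⟩
  intro ψ hψL hψ1 hψc Λ hΛ w hwm hw0 hw N c C hN hc hC hout hin z hz0 hzu hzl
  have habs : |1 - ‖z‖| ≤ θ * ψ z := by
    rw [abs_le]
    have : 0 ≤ θ * ψ z := by positivity
    constructor <;> linarith
  -- psi z ≤ 2
  have hz2 : ψ z ≤ 2 := by
    obtain ⟨u, hu1, hu2⟩ := aux_unit z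
    have h3 : dist (ψ z) (ψ u) ≤ dist z u := by simpa using hψL.dist_le_mul z u
    rw [Real.dist_eq, dist_eq_norm, hu2] at h3
    have h4 := hψc u hu1
    have h5 := abs_le.mp (h3.trans habs)
    nlinarith [h5.2]
  set s : ℝ := θ * ψ z / 8 with hsdef
  have hs : 0 < s := by positivity
  have h8s : θ * ψ z = 8 * s := by rw [hsdef]; ring
  have hs1 : s ≤ 1 := by
    have : θ * ψ z ≤ 1 / 8 * 2 := mul_le_mul hθ1 hz2 hz0.le (by norm_num)
    rw [hsdef]; linarith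
  have hzs : |1 - ‖z‖| ≤ 8 * s := h8s ▸ habs
  have hsub : Metric.closedBall z s ⊆ {y | ψ y ≠ 0} := by
    intro y hy
    have h3 : dist (ψ z) (ψ y) ≤ dist z y := by simpa using hψL.dist_le_mul z y
    rw [Metric.mem_closedBall, dist_comm] at hy
    rw [Real.dist_eq] at h3
    have h5 := abs_le.mp (h3.trans hy)
    have h6 : s ≤ ψ z / 64 := by
      rw [hsdef]; nlinarith
    have : 0 < ψ y := by linarith [h5.2]
    exact this.ne'
  have hsub' : Metric.ball z s ⊆ {y | ψ y ≠ 0} := Metric.ball_subset_closedBall.trans hsub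
  have hcont : ContinuousOn (fun y => Real.posLog ‖Λ y‖) (Metric.closedBall z s) :=
    Real.continuous_posLog.comp_continuousOn (hΛ.continuousOn.mono hsub).norm
  have hint : IntegrableOn (fun y => Real.posLog ‖Λ y‖) (Metric.ball z s) :=
    (hcont.integrableOn_compact (isCompact_closedBall z s)).mono_set Metric.ball_subset_closedBall
  have hmain := log_le_area hs (hΛ.mono hsub') hint
  have hvol : volume (Metric.ball z s) = ENNReal.ofReal (Real.pi * s ^ 2) := by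
    rw [Complex.volume_ball, mul_comm Real.pi, ENNReal.ofReal_mul (by positivity), ENNReal.ofReal_pow hs.le]
    congr 1
    rw [← ENNReal.ofReal_coe_nnreal]; rfl
  -- the integral bound
  have hI : ENNReal.ofReal (∫ y in Metric.ball z s, Real.posLog ‖Λ y‖) ≤
      ENNReal.ofReal ((C + N) * (Real.pi * s ^ 2) + c * (Ca * s ^ 2 * s ^ (-α)) +
        Cp * s ^ 2 * ∫ ζ, w ζ * (s / (‖ζ - z‖ + s) ^ 2) ∂sg) := by
    have hJ0 : 0 ≤ ∫ ζ, w ζ * (s / (‖ζ - z‖ + s) ^ 2) ∂sg := by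
      refine integral_nonneg fun ζ => ?_
      have := hw0 ζ
      simp only [Pi.zero_apply]
      positivity
    rw [ofReal_integral_eq_lintegral_ofReal hint (Filter.Eventually.of_forall fun y => Real.posLog_nonneg)]
    have hcov : Metric.ball z s ⊆ ((Metric.ball z s ∩ Metric.ball 0 1) ∪
        (Metric.ball z s \ Metric.closedBall 0 1)) ∪ Metric.sphere 0 1 := by
      intro y hy
      rcases lt_trichotomy ‖y‖ 1 with h | h | h
      · exact Or.inl (Or.inl ⟨hy, by simpa using h⟩)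
      · exact Or.inr (by simpa using h)
      · exact Or.inl (Or.inr ⟨hy, by simpa using h⟩)
    have hsph : ∫⁻ y in Metric.sphere (0:ℂ) 1, ENNReal.ofReal (Real.posLog ‖Λ y‖) = 0 := by
      rw [Measure.restrict_eq_zero.mpr (Measure.addHaar_sphere _ _ _)]
      simp
    have hin' : ∫⁻ y in Metric.ball z s ∩ Metric.ball 0 1, ENNReal.ofReal (Real.posLog ‖Λ y‖) ≤
        ENNReal.ofReal (N * (Real.pi * s ^ 2)) +
          ENNReal.ofReal (Cp * s ^ 2 * ∫ ζ, w ζ * (s / (‖ζ - z‖ + s) ^ 2) ∂sg) := by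
      calc ∫⁻ y in Metric.ball z s ∩ Metric.ball 0 1, ENNReal.ofReal (Real.posLog ‖Λ y‖)
          ≤ ∫⁻ y in Metric.ball z s ∩ Metric.ball 0 1, (ENNReal.ofReal N +
            ENNReal.ofReal (∫ ζ, w ζ * ((1 - ‖y‖ ^ 2) / ‖ζ - y‖ ^ 2) ∂sg)) := by
            refine setLIntegral_mono' (measurableSet_ball.inter measurableSet_ball) fun y hy => ?_
            have hy1 : ‖y‖ < 1 := by simpa using hy.2
            have hy2 : 0 ≤ 1 - ‖y‖ ^ 2 := by nlinarith [norm_nonneg y]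
            have hq : 0 ≤ ∫ ζ, w ζ * ((1 - ‖y‖ ^ 2) / ‖ζ - y‖ ^ 2) ∂sg :=
              integral_nonneg fun ζ => mul_nonneg (hw0 ζ) (div_nonneg hy2 (by positivity))
            rw [← ENNReal.ofReal_add hN hq]
            exact ENNReal.ofReal_le_ofReal (aux_posLog (norm_nonneg _) (by positivity) (hin y hy1))
        _ = ENNReal.ofReal N * volume (Metric.ball z s ∩ Metric.ball 0 1) +
            ∫⁻ y in Metric.ball z s ∩ Metric.ball 0 1,
              ENNReal.ofReal (∫ ζ, w ζ * ((1 - ‖y‖ ^ 2) / ‖ζ - y‖ ^ 2) ∂sg) := by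
            rw [lintegral_add_left measurable_const, setLIntegral_const]
        _ ≤ _ := by
            refine add_le_add ?_ (aux_in hwm hw0 hw hCp hP hs hzs)
            rw [ENNReal.ofReal_mul hN, ← hvol]
            exact mul_le_mul_right (measure_mono inter_subset_left) _
    have hout' : ∫⁻ y in Metric.ball z s \ Metric.closedBall 0 1, ENNReal.ofReal (Real.posLog ‖Λ y‖) ≤
        ENNReal.ofReal (C * (Real.pi * s ^ 2)) + ENNReal.ofReal (c * (Ca * s ^ 2 * s ^ (-α))) := by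
      calc ∫⁻ y in Metric.ball z s \ Metric.closedBall 0 1, ENNReal.ofReal (Real.posLog ‖Λ y‖)
          ≤ ∫⁻ y in Metric.ball z s \ Metric.closedBall 0 1, (ENNReal.ofReal C +
            ENNReal.ofReal c * ENNReal.ofReal ((‖y‖ - 1) ^ (-α))) := by
            refine setLIntegral_mono' (measurableSet_ball.diff measurableSet_closedBall) fun y hy => ?_
            have hy1 : 1 < ‖y‖ := by simpa using hy.2
            have hy2 : 0 ≤ (‖y‖ - 1) ^ (-α) := Real.rpow_nonneg (by linarith) _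
            rw [← ENNReal.ofReal_mul hc.le, ← ENNReal.ofReal_add hC (by positivity)]
            exact ENNReal.ofReal_le_ofReal (aux_posLog (norm_nonneg _) (by positivity) (hout y hy1))
        _ = ENNReal.ofReal C * volume (Metric.ball z s \ Metric.closedBall 0 1) +
            ENNReal.ofReal c * ∫⁻ y in Metric.ball z s \ Metric.closedBall 0 1,
              ENNReal.ofReal ((‖y‖ - 1) ^ (-α)) := by
            rw [lintegral_add_left measurable_const, setLIntegral_const,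
              lintegral_const_mul' _ _ ENNReal.ofReal_ne_top]
        _ ≤ _ := by
            refine add_le_add ?_ ?_
            · rw [ENNReal.ofReal_mul hC, ← hvol]
              exact mul_le_mul_right (measure_mono sdiff_subset) _
            · rw [ENNReal.ofReal_mul hc.le]
              exact mul_le_mul_right (hA z s hs hs1) _
    calc ∫⁻ y in Metric.ball z s, ENNReal.ofReal (Real.posLog ‖Λ y‖)
        ≤ ∫⁻ y in ((Metric.ball z s ∩ Metric.ball 0 1) ∪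
        (Metric.ball z s \ Metric.closedBall 0 1)) ∪ Metric.sphere 0 1,
          ENNReal.ofReal (Real.posLog ‖Λ y‖) := lintegral_mono_set hcov
      _ ≤ (∫⁻ y in ((Metric.ball z s ∩ Metric.ball 0 1) ∪
        (Metric.ball z s \ Metric.closedBall 0 1)),
          ENNReal.ofReal (Real.posLog ‖Λ y‖)) + ∫⁻ y in Metric.sphere 0 1,
          ENNReal.ofReal (Real.posLog ‖Λ y‖) := lintegral_union_le _ _ _
      _ ≤ ((∫⁻ y in ((Metric.ball z s ∩ Metric.ball 0 1)),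
          ENNReal.ofReal (Real.posLog ‖Λ y‖)) + ∫⁻ y in (Metric.ball z s \ Metric.closedBall 0 1),
          ENNReal.ofReal (Real.posLog ‖Λ y‖)) + 0 :=
          add_le_add (lintegral_union_le _ _ _) hsph.le
      _ ≤ (ENNReal.ofReal (N * (Real.pi * s ^ 2)) +
          ENNReal.ofReal (Cp * s ^ 2 * ∫ ζ, w ζ * (s / (‖ζ - z‖ + s) ^ 2) ∂sg)) +
          (ENNReal.ofReal (C * (Real.pi * s ^ 2)) + ENNReal.ofReal (c * (Ca * s ^ 2 * s ^ (-α)))) := by
          rw [add_zero]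
          exact add_le_add hin' hout'
      _ = _ := by
          rw [← ENNReal.ofReal_add (by positivity) (by positivity),
            ← ENNReal.ofReal_add (by positivity) (by positivity),
            ← ENNReal.ofReal_add (by positivity) (by positivity)]
          congr 1
          ring
  have hJ0 : 0 ≤ ∫ ζ, w ζ * (s / (‖ζ - z‖ + s) ^ 2) ∂sg := by
    refine integral_nonneg fun ζ => ?_
    have := hw0 ζ
    simp only [Pi.zero_apply]
    positivity
  have hI' := (ENNReal.ofReal_le_ofReal_iff (by positivity)).mp hI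
  have hlog : Real.log ‖Λ z‖ ≤ C + N + c * (Ca / Real.pi * s ^ (-α)) +
      Cp / Real.pi * ∫ ζ, w ζ * (s / (‖ζ - z‖ + s) ^ 2) ∂sg := by
    have h3 : 0 < Real.pi * s ^ 2 := by positivity
    refine le_of_mul_le_mul_right ?_ h3
    refine (hmain.trans hI').trans (le_of_eq ?_)
    field_simp
  -- compare
  have hspow : s ^ (-α) = (8 / θ) ^ α * (ψ z) ^ (-α) := by
    have : s = (θ / 8) * ψ z := by rw [hsdef]; ring
    rw [this, Real.mul_rpow (by positivity) hz0.le]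
    congr 1
    rw [Real.rpow_neg (by positivity), ← Real.inv_rpow (by positivity), inv_div]
  have hJ : ∫ ζ, w ζ * (s / (‖ζ - z‖ + s) ^ 2) ∂sg ≤
      8 * ∫ ζ, w ζ * ((θ * ψ z) / (‖ζ - z‖ + θ * ψ z) ^ 2) ∂sg := by
    rw [← integral_const_mul]
    have ht : 0 < θ * ψ z := by positivity
    refine integral_mono (aux_wint hw hs) ((aux_wint hw ht).const_mul 8) fun ζ => ?_
    have hw1 := hw0 ζ
    have hn : 0 ≤ ‖ζ - z‖ := norm_nonneg _
    show w ζ * (s / (‖ζ - z‖ + s) ^ 2) ≤ 8 * (w ζ * ((θ * ψ z) / (‖ζ - z‖ + θ * ψ z) ^ 2))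
    have : s / (‖ζ - z‖ + s) ^ 2 ≤ 8 * ((θ * ψ z) / (‖ζ - z‖ + θ * ψ z) ^ 2) := by
      rw [h8s, ← mul_div_assoc, div_le_div_iff₀ (by positivity) (by positivity)]
      have h7 : (‖ζ - z‖ + 8 * s) ^ 2 ≤ (8 * (‖ζ - z‖ + s)) ^ 2 :=
        pow_le_pow_left₀ (by positivity) (by linarith) 2
      calc s * (‖ζ - z‖ + 8 * s) ^ 2 ≤ s * (8 * (‖ζ - z‖ + s)) ^ 2 :=
            mul_le_mul_of_nonneg_left h7 hs.le
        _ = 8 * (8 * s) * (‖ζ - z‖ + s) ^ 2 := by ring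
    calc w ζ * (s / (‖ζ - z‖ + s) ^ 2) ≤ w ζ * (8 * ((θ * ψ z) / (‖ζ - z‖ + θ * ψ z) ^ 2)) :=
          mul_le_mul_of_nonneg_left this hw1
      _ = _ := by ring
  have hK0 : 0 ≤ ∫ ζ, w ζ * ((θ * ψ z) / (‖ζ - z‖ + θ * ψ z) ^ 2) ∂sg := by
    refine integral_nonneg fun ζ => ?_
    have := hw0 ζ
    simp only [Pi.zero_apply]
    positivity
  have hfin : Real.log ‖Λ z‖ ≤ C + N + (Ca / Real.pi * (8 / θ) ^ α + 8 * Cp / Real.pi + 1) * c * (ψ z) ^ (-α) +
      (Ca / Real.pi * (8 / θ) ^ α + 8 * Cp / Real.pi + 1) *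
        ∫ ζ, w ζ * ((θ * ψ z) / (‖ζ - z‖ + θ * ψ z) ^ 2) ∂sg := by
    refine hlog.trans ?_
    rw [hspow]
    generalize (∫ ζ, w ζ * (s / (‖ζ - z‖ + s) ^ 2) ∂sg) = J at *
    generalize (∫ ζ, w ζ * ((θ * ψ z) / (‖ζ - z‖ + θ * ψ z) ^ 2) ∂sg) = K at *
    have hA1 : 0 ≤ (8 * Cp / Real.pi + 1) * c * (ψ z) ^ (-α) := by positivity
    have hA2 : 0 ≤ (Ca / Real.pi * (8 / θ) ^ α + 1) * K := by positivity
    have hA3 : Cp / Real.pi * J ≤ Cp / Real.pi * (8 * K) :=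
      mul_le_mul_of_nonneg_left hJ (by positivity)
    have e1 : c * (Ca / Real.pi * ((8 / θ) ^ α * (ψ z) ^ (-α))) =
      (Ca / Real.pi * (8 / θ) ^ α) * c * (ψ z) ^ (-α) := by ring
    have e2 : Cp / Real.pi * (8 * K) = 8 * Cp / Real.pi * K := by ring
    rw [e1]
    rw [e2] at hA3
    nlinarith
  rcases (norm_nonneg (Λ z)).eq_or_lt with h | h
  · rw [← h]; positivity
  · rw [← Real.log_le_iff_le_exp h]; exact hfin

end Pool.Agent.Helper203.GV
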