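import Pool.Agent.Helper203.GV.Defs
import Pool.Agent.Helper203.GV.Alg

open MeasureTheory Filter Topology Set

noncomputable section

namespace Pool.Agent.Helper203.GV

theorem M2_young {α c s : ℝ} (h0 : 0 < α) (hc : 0 < c) (hs : 0 < s) (x : ℝ) (hx : 0 ≤ x) :
    c * x ^ (α/(1+α)) ≤ (s/2) * x + 2^α * c^(1+α) * s^(-α) := by
  have hpos : 0 ≤ 2^α * c^(1+α) * s^(-α) := by positivity
  by_cases h : c * x ^ (α/(1+α)) ≤ (s/2) * x
  · linarith
  · push Not at h
    have hx0 : 0 < x := by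
      rcases hx.eq_or_lt with h1 | h1
      · rw [← h1] at h
        rw [Real.zero_rpow (by positivity)] at h
        simp at h
      · exact h1
    have h1 : x^(1/(1+α)) < 2*c/s := by
      have e : x = x^(α/(1+α)) * x^(1/(1+α)) := by
        rw [← Real.rpow_add hx0]
        have : α/(1+α) + 1/(1+α) = 1 := by
          have : (1 + α) ≠ 0 := by positivity
          field_simp
          ring
        rw [this, Real.rpow_one]
      have hp : 0 < x^(α/(1+α)) := Real.rpow_pos_of_pos hx0 _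
      have h2 : (s/2) * (x^(α/(1+α)) * x^(1/(1+α))) < c * x^(α/(1+α)) := by
        rw [← e]
        exact h
      have h3 : (s/2) * x^(1/(1+α)) < c := by
        by_contra hcon
        push Not at hcon
        have := mul_le_mul_of_nonneg_left hcon hp.le
        nlinarith
      rw [lt_div_iff₀ hs]
      linarith
    have h2 : x^(α/(1+α)) ≤ (2*c/s)^α := by
      have e : x^(α/(1+α)) = (x^(1/(1+α)))^α := by
        rw [← Real.rpow_mul hx]
        congr 1
        ring
      rw [e]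
      exact Real.rpow_le_rpow (by positivity) h1.le h0.le
    have h3 : c * (2*c/s)^α = 2^α * c^(1+α) * s^(-α) := by
      rw [Real.div_rpow (by positivity) hs.le, Real.mul_rpow (by norm_num) hc.le,
        Real.rpow_add hc, Real.rpow_one, Real.rpow_neg hs.le]
      ring
    have h4 : c * x^(α/(1+α)) ≤ c * (2*c/s)^α := mul_le_mul_of_nonneg_left h2 hc.le
    have h5 : 0 ≤ (s/2) * x := by positivity
    linarith

theorem M2_coeff (z : ℂ) (n : ℕ) : ‖PowerSeries.coeff n (Rz z)‖ = (‖z‖⁻¹) ^ (n + 1) := by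
  unfold Rz
  rw [PowerSeries.coeff_mk, norm_pow, norm_inv]

/-- polynomial bounded by exponential -/
theorem M2_lin {α a : ℝ} (h0 : 0 < α) (ha : 0 < a) :
    ∃ C : ℝ, 0 ≤ C ∧ ∀ t : ℝ, 0 < t → t ≤ 1 + C * Real.exp (a * t ^ α) := by
  obtain ⟨k, hk⟩ := exists_nat_ge (1 / α)
  have hk' : 1 ≤ α * k := by
    rw [div_le_iff₀ h0] at hk
    linarith
  refine ⟨(k.factorial : ℝ) * (1 / a) ^ k, by positivity, ?_⟩
  intro t ht
  have h1 : t ≤ 1 + (t ^ α) ^ k := by
    rcases le_total t 1 with h | h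
    · have : 0 ≤ (t ^ α) ^ k := by positivity
      linarith
    · have : t ≤ (t ^ α) ^ k := by
        rw [← Real.rpow_natCast, ← Real.rpow_mul ht.le]
        calc t = t ^ (1 : ℝ) := (Real.rpow_one t).symm
          _ ≤ t ^ (α * k) := Real.rpow_le_rpow_of_exponent_le h hk'
      linarith
  have h2 : (a * t ^ α) ^ k / (k.factorial : ℝ) ≤ Real.exp (a * t ^ α) :=
    Real.pow_div_factorial_le_exp _ (by positivity) k
  have h3 : (t ^ α) ^ k = (k.factorial : ℝ) * (1 / a) ^ k * ((a * t ^ α) ^ k / (k.factorial : ℝ)) := by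
    rw [mul_pow]
    have hf : (k.factorial : ℝ) ≠ 0 := by positivity
    field_simp
    rw [div_pow, one_pow]
    field_simp
  have h4 : (k.factorial : ℝ) * (1 / a) ^ k * ((a * t ^ α) ^ k / (k.factorial : ℝ)) ≤
      (k.factorial : ℝ) * (1 / a) ^ k * Real.exp (a * t ^ α) :=
    mul_le_mul_of_nonneg_left h2 (by positivity)
  linarith

theorem nrm_Rz_le {α : ℝ} (h0 : 0 < α) {c' : ℝ} (hc' : 0 < c') :
    ∃ c C : ℝ, 0 < c ∧ ∀ z : ℂ, 1 < ‖z‖ → FW (α/(1+α)) c (Rz z) ∧
      nrm (α/(1+α)) c (Rz z) ≤ C * Real.exp (c' * (‖z‖ - 1) ^ (-α)) := by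
  have h1α : (0:ℝ) < 1 + α := by linarith
  obtain ⟨C1, hC1, hlin⟩ := M2_lin h0 (half_pos hc')
  set c : ℝ := (c' / (2 * 4 ^ α)) ^ (1 / (1 + α)) with hc
  have hcpos : 0 < c := by positivity
  have hcα : c ^ (1 + α) = c' / (2 * 4 ^ α) := by
    rw [hc, ← Real.rpow_mul (by positivity), one_div_mul_cancel h1α.ne', Real.rpow_one]
  refine ⟨c, Real.exp (c' / 2) * (5 + 2 * C1), hcpos, ?_⟩
  intro z hz
  have hz0 : 0 < ‖z‖ := by linarith
  set s : ℝ := Real.log ‖z‖ with hs
  have hspos : 0 < s := Real.log_pos hz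
  have hexp : ‖z‖ = Real.exp s := (Real.exp_log hz0).symm
  set Kc : ℝ := 2 ^ α * c ^ (1 + α) * s ^ (-α) with hK
  set r : ℝ := Real.exp (-(s / 2)) with hr
  have hr0 : 0 < r := Real.exp_pos _
  have hr1 : r < 1 := Real.exp_lt_one_iff.2 (by linarith)
  have hterm : ∀ n : ℕ, ‖PowerSeries.coeff n (Rz z)‖ * wt (α/(1+α)) c n ≤ Real.exp Kc * r ^ n := by
    intro n
    rw [M2_coeff, hexp, ← Real.exp_neg, ← Real.exp_nat_mul, wt, hr, ← Real.exp_nat_mul,
      ← Real.exp_add, ← Real.exp_add]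
    apply Real.exp_le_exp.2
    have := M2_young h0 hcpos hspos (n : ℝ) (Nat.cast_nonneg n)
    push_cast
    rw [← hK] at this
    linarith
  have hnn : ∀ n : ℕ, 0 ≤ ‖PowerSeries.coeff n (Rz z)‖ * wt (α/(1+α)) c n := by
    intro n
    unfold wt
    positivity
  have hgs : Summable fun n : ℕ => Real.exp Kc * r ^ n :=
    (summable_geometric_of_lt_one hr0.le hr1).mul_left _
  have hFW : FW (α/(1+α)) c (Rz z) := Summable.of_nonneg_of_le hnn hterm hgs
  refine ⟨hFW, ?_⟩
  have hb1 : nrm (α/(1+α)) c (Rz z) ≤ Real.exp Kc * (1 - r)⁻¹ := by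
    unfold nrm
    refine (Summable.tsum_le_tsum hterm hFW hgs).trans (le_of_eq ?_)
    rw [tsum_mul_left, tsum_geometric_of_lt_one hr0.le hr1]
  -- bounds in terms of `t = 1 / (‖z‖ - 1)`
  set d : ℝ := ‖z‖ - 1 with hd
  have hdpos : 0 < d := by linarith
  set t : ℝ := d⁻¹ with ht
  have htpos : 0 < t := inv_pos.2 hdpos
  have hsinv : s⁻¹ ≤ 1 + t := by
    have h1 : 1 - (‖z‖)⁻¹ ≤ s := Real.one_sub_inv_le_log_of_pos hz0
    have h2 : 1 - (‖z‖)⁻¹ = (1 + t)⁻¹ := by
      rw [ht]
      have : ‖z‖ = 1 + d := by rw [hd]; ring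
      rw [this]
      field_simp
      ring
    rw [h2] at h1
    exact inv_le_of_inv_le₀ (by positivity) h1
  have hKle : Kc ≤ (c' / 2) * (1 + t ^ α) := by
    have h1 : s ^ (-α) ≤ (1 + t) ^ α := by
      rw [Real.rpow_neg hspos.le, ← Real.inv_rpow hspos.le]
      exact Real.rpow_le_rpow (by positivity) hsinv h0.le
    have h2 : (1 + t) ^ α ≤ 2 ^ α * (1 + t ^ α) := by
      rcases le_total t 1 with h | h
      · calc (1 + t) ^ α ≤ 2 ^ α := Real.rpow_le_rpow (by positivity) (by linarith) h0.le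
          _ ≤ 2 ^ α * (1 + t ^ α) := by
            have h3 : (0:ℝ) < 2 ^ α := by positivity
            have h4 : (0:ℝ) ≤ t ^ α := by positivity
            nlinarith
      · calc (1 + t) ^ α ≤ (2 * t) ^ α := Real.rpow_le_rpow (by positivity) (by linarith) h0.le
          _ = 2 ^ α * t ^ α := Real.mul_rpow (by norm_num) htpos.le
          _ ≤ 2 ^ α * (1 + t ^ α) := by
            have h3 : (0:ℝ) < 2 ^ α := by positivity
            nlinarith
    have h4 : (4:ℝ) ^ α = 2 ^ α * 2 ^ α := by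
      rw [← Real.mul_rpow (by norm_num) (by norm_num)]
      norm_num
    calc Kc = 2 ^ α * c ^ (1 + α) * s ^ (-α) := hK
      _ ≤ 2 ^ α * c ^ (1 + α) * (2 ^ α * (1 + t ^ α)) :=
          mul_le_mul_of_nonneg_left (h1.trans h2) (by positivity)
      _ = (4 ^ α * c ^ (1 + α)) * (1 + t ^ α) := by rw [h4]; ring
      _ = (c' / 2) * (1 + t ^ α) := by
          rw [hcα]
          congr 1
          have : (4:ℝ) ^ α ≠ 0 := by positivity
          field_simp
  have hrle : (1 - r)⁻¹ ≤ 3 + 2 * t := by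
    have h1 : r ≤ (1 + s / 2)⁻¹ := by
      rw [hr, Real.exp_neg]
      apply inv_anti₀ (by positivity)
      have := Real.add_one_le_exp (s / 2)
      linarith
    have h2 : 1 - (1 + s / 2)⁻¹ = (1 + 2 * s⁻¹)⁻¹ := by
      field_simp
      ring
    have h3 : (1 + 2 * s⁻¹)⁻¹ ≤ 1 - r := by
      rw [← h2]
      linarith
    have h4 : (1 - r)⁻¹ ≤ 1 + 2 * s⁻¹ := inv_le_of_inv_le₀ (by positivity) h3
    linarith
  have hr1' : 0 ≤ (1 - r)⁻¹ := by
    rw [inv_nonneg]
    linarith
  have hE1 : 1 ≤ Real.exp (c' / 2 * t ^ α) := Real.one_le_exp (by positivity)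
  have h35 : 3 + 2 * t ≤ (5 + 2 * C1) * Real.exp (c' / 2 * t ^ α) := by
    have := hlin t htpos
    nlinarith
  have htα : t ^ α = d ^ (-α) := by
    rw [ht, Real.inv_rpow hdpos.le, Real.rpow_neg hdpos.le]
  calc nrm (α/(1+α)) c (Rz z) ≤ Real.exp Kc * (1 - r)⁻¹ := hb1
    _ ≤ Real.exp ((c' / 2) * (1 + t ^ α)) * ((5 + 2 * C1) * Real.exp (c' / 2 * t ^ α)) := by
        apply mul_le_mul (Real.exp_le_exp.2 hKle) (hrle.trans h35) hr1' (Real.exp_pos _).le
    _ = Real.exp (c' / 2) * (5 + 2 * C1) * Real.exp (c' * t ^ α) := by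
        have e1 : (c' / 2) * (1 + t ^ α) = c' / 2 + c' / 2 * t ^ α := by ring
        have e2 : c' * t ^ α = c' / 2 * t ^ α + c' / 2 * t ^ α := by ring
        rw [e1, e2, Real.exp_add, Real.exp_add]
        ring
    _ = Real.exp (c' / 2) * (5 + 2 * C1) * Real.exp (c' * d ^ (-α)) := by rw [htα]

theorem M2_wt_add {β c : ℝ} (hβ0 : 0 ≤ β) (hβ1 : β ≤ 1) (hc : 0 ≤ c) (i j : ℕ) :
    wt β c (i + j) ≤ wt β c i * wt β c j := by
  unfold wt
  rw [← Real.exp_add, ← mul_add]
  apply Real.exp_le_exp.2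
  apply mul_le_mul_of_nonneg_left _ hc
  push_cast
  exact Real.rpow_add_le_add_rpow (Nat.cast_nonneg i) (Nat.cast_nonneg j) hβ0 hβ1

theorem circle_Phi {β : ℝ} (hβ0 : 0 < β) (hβ1 : β < 1) {b : ℕ → ℂ} (hb : Grow β b)
    {G : PowerSeries ℂ} (hG : AA β G) :
    (∮ z in C(0, 2), Phi b (G * Rz z)) = 2 * Real.pi * Complex.I * Phi b G := by
  -- weights
  obtain ⟨c1, hc1, hG1⟩ := hG
  have hα : 0 < β / (1 - β) := div_pos hβ0 (by linarith)
  have hαβ : (β / (1 - β)) / (1 + β / (1 - β)) = β := by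
    have : (1 - β) ≠ 0 := by linarith
    field_simp
    ring
  obtain ⟨c2, C2, hc2, hR⟩ := nrm_Rz_le hα one_pos
  rw [hαβ] at hR
  set c : ℝ := min c1 c2 with hcdef
  have hc : 0 < c := lt_min hc1 hc2
  obtain ⟨C, hC⟩ := hb c hc
  have hC0 : 0 ≤ C := by
    have h1 := hC 0
    have h2 : 0 < wt β c 0 := Real.exp_pos _
    by_contra h
    push Not at h
    have : C * wt β c 0 < 0 := mul_neg_of_neg_of_pos h h2
    linarith [norm_nonneg (b 0)]
  have hGc : FW β c G := hG1.mono (min_le_left _ _)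
  have hRc : FW β c (Rz 2) := (hR 2 (by norm_num)).1.mono (min_le_right _ _)
  -- the bound
  let bd : ℕ × ℕ → ℝ := fun p => C * ((‖PowerSeries.coeff p.1 G‖ * wt β c p.1) *
    (‖PowerSeries.coeff p.2 (Rz 2)‖ * wt β c p.2))
  have hbd : Summable bd := by
    apply Summable.mul_left
    apply Summable.mul_of_nonneg hGc hRc
    · intro n
      show 0 ≤ ‖PowerSeries.coeff n G‖ * wt β c n
      unfold wt
      positivity
    · intro n
      show 0 ≤ ‖PowerSeries.coeff n (Rz 2)‖ * wt β c n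
      unfold wt
      positivity
  -- the terms
  let F : ℂ → ℕ × ℕ → ℂ := fun z p => b (p.1 + p.2) * (PowerSeries.coeff p.1 G * (z⁻¹) ^ (p.2 + 1))
  have hF : ∀ z : ℂ, ‖z‖ = 2 → ∀ p, ‖F z p‖ ≤ bd p := by
    intro z hz p
    have h1 : ‖F z p‖ = ‖b (p.1 + p.2)‖ * (‖PowerSeries.coeff p.1 G‖ *
        ‖PowerSeries.coeff p.2 (Rz 2)‖) := by
      show ‖b (p.1 + p.2) * (PowerSeries.coeff p.1 G * (z⁻¹) ^ (p.2 + 1))‖ = _
      rw [norm_mul, norm_mul, M2_coeff, norm_pow, norm_inv, hz]
      norm_num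
    rw [h1]
    have h2 := hC (p.1 + p.2)
    have h3 := M2_wt_add hβ0.le hβ1.le hc.le p.1 p.2
    calc ‖b (p.1 + p.2)‖ * (‖PowerSeries.coeff p.1 G‖ * ‖PowerSeries.coeff p.2 (Rz 2)‖)
        ≤ (C * (wt β c p.1 * wt β c p.2)) *
          (‖PowerSeries.coeff p.1 G‖ * ‖PowerSeries.coeff p.2 (Rz 2)‖) := by
          apply mul_le_mul_of_nonneg_right _ (by positivity)
          exact h2.trans (mul_le_mul_of_nonneg_left h3 hC0)
      _ = bd p := by
          show _ = C * ((‖PowerSeries.coeff p.1 G‖ * wt β c p.1) *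
            (‖PowerSeries.coeff p.2 (Rz 2)‖ * wt β c p.2))
          ring
  have hFs : ∀ z : ℂ, ‖z‖ = 2 → Summable (F z) := fun z hz =>
    Summable.of_norm (Summable.of_nonneg_of_le (fun p => norm_nonneg _) (hF z hz) hbd)
  have hFsum : ∀ z : ℂ, ‖z‖ = 2 → HasSum (F z) (Phi b (G * Rz z)) := by
    intro z hz
    have h1 := (hFs z hz).hasSum
    have h2 : HasSum (fun x : (Σ n : ℕ, Finset.HasAntidiagonal.antidiagonal n) => F z x.2) (∑' p, F z p) :=
      (Finset.HasAntidiagonal.sigmaAntidiagonalEquivProd.hasSum_iff (f := F z)).2 h1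
    have h3 := h2.sigma (fun m => hasSum_fintype _)
    have h4 : (fun m : ℕ => ∑ x : Finset.HasAntidiagonal.antidiagonal m, F z x) =
        fun m => b m * PowerSeries.coeff m (G * Rz z) := by
      funext m
      rw [Finset.sum_coe_sort (Finset.HasAntidiagonal.antidiagonal m) (F z), PowerSeries.coeff_mul, Finset.mul_sum]
      apply Finset.sum_congr rfl
      intro p hp
      rw [Finset.HasAntidiagonal.mem_antidiagonal] at hp
      show b (p.1 + p.2) * (PowerSeries.coeff p.1 G * (z⁻¹) ^ (p.2 + 1)) = _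
      rw [hp]
      unfold Rz
      rw [PowerSeries.coeff_mk]
    rw [h4] at h3
    have h5 : Phi b (G * Rz z) = ∑' p, F z p := h3.tsum_eq
    rw [h5]
    exact h1
  -- termwise integration
  have hcm : ∀ θ : ℝ, ‖circleMap 0 2 θ‖ = 2 := by
    intro θ
    simp
  have hint : HasSum (fun p => ∫ θ in (0:ℝ)..2 * Real.pi,
      deriv (circleMap 0 2) θ • F (circleMap 0 2 θ) p)
      (∫ θ in (0:ℝ)..2 * Real.pi, deriv (circleMap 0 2) θ • Phi b (G * Rz (circleMap 0 2 θ))) := by
    apply intervalIntegral.hasSum_integral_of_dominated_convergence (fun p _ => 2 * bd p)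
    · intro p
      apply Continuous.aestronglyMeasurable
      have h1 : Continuous fun θ : ℝ => (circleMap (0:ℂ) 2 θ)⁻¹ := by
        apply Continuous.inv₀ (continuous_circleMap 0 2)
        intro θ h
        have := hcm θ
        rw [h, norm_zero] at this
        norm_num at this
      have h2 : Continuous fun θ : ℝ => deriv (circleMap (0:ℂ) 2) θ := by
        have : (fun θ : ℝ => deriv (circleMap (0:ℂ) 2) θ) =
          fun θ => circleMap 0 2 θ * Complex.I := by
          funext θ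
          exact deriv_circleMap 0 2 θ
        rw [this]
        exact (continuous_circleMap 0 2).mul continuous_const
      exact h2.smul (continuous_const.mul (continuous_const.mul (h1.pow _)))
    · intro p
      filter_upwards with θ hθ
      rw [norm_smul, deriv_circleMap, norm_mul, hcm, Complex.norm_I, mul_one]
      exact mul_le_mul_of_nonneg_left (hF _ (hcm θ) p) (by norm_num)
    · filter_upwards with θ hθ
      exact hbd.mul_left 2
    · exact intervalIntegrable_const
    · filter_upwards with θ hθ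
      exact (hFsum _ (hcm θ)).const_smul _
  have hval : ∀ p : ℕ × ℕ, (∫ θ in (0:ℝ)..2 * Real.pi,
      deriv (circleMap 0 2) θ • F (circleMap 0 2 θ) p) =
      if p.2 = 0 then 2 * Real.pi * Complex.I * (b p.1 * PowerSeries.coeff p.1 G) else 0 := by
    intro p
    have h1 : (∫ θ in (0:ℝ)..2 * Real.pi, deriv (circleMap 0 2) θ • F (circleMap 0 2 θ) p) =
        ∮ z in C(0, 2), (b (p.1 + p.2) * PowerSeries.coeff p.1 G) • (z⁻¹) ^ (p.2 + 1) := by
      unfold circleIntegral
      apply intervalIntegral.integral_congr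
      intro θ _
      show deriv (circleMap 0 2) θ • (b (p.1 + p.2) * (PowerSeries.coeff p.1 G *
        ((circleMap 0 2 θ)⁻¹) ^ (p.2 + 1))) = _
      simp only [smul_eq_mul]
      ring
    rw [h1, circleIntegral.integral_smul]
    by_cases hp : p.2 = 0
    · rw [if_pos hp, hp]
      have h2 : (∮ z in C(0, 2), (z⁻¹) ^ (0 + 1)) = 2 * Real.pi * Complex.I := by
        have := circleIntegral.integral_sub_center_inv (0:ℂ) (R := 2) (by norm_num)
        simpa using this
      rw [h2, smul_eq_mul, add_zero]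
      ring
    · rw [if_neg hp]
      have h2 : (∮ z in C(0, 2), (z⁻¹) ^ (p.2 + 1)) = 0 := by
        have h3 := circleIntegral.integral_sub_zpow_of_ne (n := -((p.2 : ℤ) + 1)) (by omega)
          (0:ℂ) 0 2
        have h4 : (fun z : ℂ => (z - 0) ^ (-((p.2 : ℤ) + 1))) = fun z => (z⁻¹) ^ (p.2 + 1) := by
          funext z
          rw [sub_zero, zpow_neg, inv_pow]
          norm_cast
        rw [h4] at h3
        exact h3
      rw [h2, smul_zero]
  simp only [hval] at hint
  -- the sum of the values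
  have hsum : HasSum (fun p : ℕ × ℕ => if p.2 = 0 then
      2 * Real.pi * Complex.I * (b p.1 * PowerSeries.coeff p.1 G) else 0)
      (2 * Real.pi * Complex.I * Phi b G) := by
    have hinj : Function.Injective (fun i : ℕ => (i, 0) : ℕ → ℕ × ℕ) := by
      intro i j h
      exact congrArg Prod.fst h
    rw [← hinj.hasSum_iff]
    · have h1 : ((fun p : ℕ × ℕ => if p.2 = 0 then
          2 * Real.pi * Complex.I * (b p.1 * PowerSeries.coeff p.1 G) else 0) ∘ fun i : ℕ => (i, 0)) =
          fun i => 2 * Real.pi * Complex.I * (b i * PowerSeries.coeff i G) := by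
        funext i
        simp
      rw [h1]
      apply HasSum.mul_left
      exact (Phi_summable hb ⟨c1, hc1, hG1⟩).of_norm.hasSum
    · intro p hp
      rw [if_neg]
      intro h
      exact hp ⟨p.1, Prod.ext rfl h.symm⟩
  have := hint.unique hsum
  exact this

end Pool.Agent.Helper203.GV
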