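import Pool.Agent.Helper203.GV.Defs
import Pool.Agent.Helper203.GV.Alg
import Pool.Agent.Helper203.GV.Misc2

open MeasureTheory Filter Topology Set

noncomputable section

namespace Pool.Agent.Helper203.GV

/-- `q` inverts `z - X` modulo `{u : G * u ∈ I}` -/
def continuation_Inv (β : ℝ) (I : Set (PowerSeries ℂ)) (G : PowerSeries ℂ) (z : ℂ)
    (q : PowerSeries ℂ) : Prop :=
  AA β q ∧ G * ((PowerSeries.C z - PowerSeries.X) * q - 1) ∈ I

theorem continuation_neg {β : ℝ} {q : PowerSeries ℂ} (hq : AA β q) : AA β (-q) := by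
  have := hq.smul (-1)
  simpa using this

theorem continuation_one {β : ℝ} : AA β (1 : PowerSeries ℂ) := by
  have := AA_C (β := β) 1
  simpa using this

theorem continuation_pow {β : ℝ} (hβ0 : 0 < β) (hβ1 : β ≤ 1) {q : PowerSeries ℂ} (hq : AA β q)
    (n : ℕ) : AA β (q ^ n) := by
  induction n with
  | zero => simpa using continuation_one
  | succ n ih => rw [pow_succ]; exact ih.mul hβ0 hβ1 hq

theorem continuation_Phi_eq {β : ℝ} {I : Set (PowerSeries ℂ)} {b : ℕ → ℂ} (hb : Grow β b)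
    (hbI : ∀ p ∈ I, Phi b p = 0) {p q : PowerSeries ℂ} (hp : AA β p) (hq : AA β q)
    (h : p - q ∈ I) : Phi b p = Phi b q := by
  have h1 := hbI _ h
  rw [Phi_sub hb hp hq] at h1
  exact sub_eq_zero.1 h1

theorem continuation_indep {β : ℝ} (hβ0 : 0 < β) (hβ1 : β ≤ 1) {I : Set (PowerSeries ℂ)}
    (hadd : ∀ p ∈ I, ∀ q ∈ I, p + q ∈ I) (hmul : ∀ p ∈ I, ∀ q, AA β q → q * p ∈ I)
    {b : ℕ → ℂ} (hb : Grow β b) (hbI : ∀ p ∈ I, Phi b p = 0)
    {G : PowerSeries ℂ} (hG : AA β G) {z : ℂ} {q q' : PowerSeries ℂ}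
    (hq : continuation_Inv β I G z q) (hq' : continuation_Inv β I G z q') :
    Phi b (G * q) = Phi b (G * q') := by
  refine continuation_Phi_eq hb hbI (hG.mul hβ0 hβ1 hq.1) (hG.mul hβ0 hβ1 hq'.1) ?_
  have : G * q - G * q' = q' * (G * ((PowerSeries.C z - PowerSeries.X) * q - 1)) +
      (-q) * (G * ((PowerSeries.C z - PowerSeries.X) * q' - 1)) := by ring
  rw [this]
  exact hadd _ (hmul _ hq.2 _ hq'.1) _ (hmul _ hq'.2 _ (continuation_neg hq.1))

theorem continuation_step {β : ℝ} (hβ0 : 0 < β) (hβ1 : β ≤ 1) {I : Set (PowerSeries ℂ)}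
    (hadd : ∀ p ∈ I, ∀ q ∈ I, p + q ∈ I) (hmul : ∀ p ∈ I, ∀ q, AA β q → q * p ∈ I)
    {b : ℕ → ℂ} (hb : Grow β b) (hbI : ∀ p ∈ I, Phi b p = 0)
    {G : PowerSeries ℂ} (hG : AA β G) {z z0 : ℂ} {q q0 : PowerSeries ℂ}
    (hq : continuation_Inv β I G z q) (hq0 : continuation_Inv β I G z0 q0) (N : ℕ) :
    Phi b (G * q * q0 ^ N) = Phi b (G * q0 * q0 ^ N) +
      (z0 - z) * Phi b (G * q * q0 ^ (N + 1)) := by
  have hpow := fun n => continuation_pow hβ0 hβ1 hq0.1 n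
  have h1 : AA β (G * q * q0 ^ N) := (hG.mul hβ0 hβ1 hq.1).mul hβ0 hβ1 (hpow N)
  have h2 : AA β (G * q0 * q0 ^ N) := (hG.mul hβ0 hβ1 hq0.1).mul hβ0 hβ1 (hpow N)
  have h3 : AA β (G * q * q0 ^ (N + 1)) := (hG.mul hβ0 hβ1 hq.1).mul hβ0 hβ1 (hpow (N + 1))
  rw [← Phi_smul, ← Phi_add hb h2 (h3.smul _)]
  refine continuation_Phi_eq hb hbI h1 (h2.add (h3.smul _)) ?_
  have : G * q * q0 ^ N - (G * q0 * q0 ^ N + (z0 - z) • (G * q * q0 ^ (N + 1))) =
      (q0 * q0 ^ N) * (G * ((PowerSeries.C z - PowerSeries.X) * q - 1)) +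
      (-(q * q0 ^ N)) * (G * ((PowerSeries.C z0 - PowerSeries.X) * q0 - 1)) := by
    rw [PowerSeries.smul_eq_C_mul, map_sub]
    ring
  rw [this]
  exact hadd _ (hmul _ hq.2 _ (hq0.1.mul hβ0 hβ1 (hpow N))) _
    (hmul _ hq0.2 _ (continuation_neg (hq.1.mul hβ0 hβ1 (hpow N))))

theorem continuation_expand {β : ℝ} (hβ0 : 0 < β) (hβ1 : β ≤ 1) {I : Set (PowerSeries ℂ)}
    (hadd : ∀ p ∈ I, ∀ q ∈ I, p + q ∈ I) (hmul : ∀ p ∈ I, ∀ q, AA β q → q * p ∈ I)
    {b : ℕ → ℂ} (hb : Grow β b) (hbI : ∀ p ∈ I, Phi b p = 0)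
    {G : PowerSeries ℂ} (hG : AA β G) {z z0 : ℂ} {q q0 : PowerSeries ℂ}
    (hq : continuation_Inv β I G z q) (hq0 : continuation_Inv β I G z0 q0) (N : ℕ) :
    Phi b (G * q) = ∑ n ∈ Finset.range N, (z0 - z) ^ n * Phi b (G * q0 * q0 ^ n) +
      (z0 - z) ^ N * Phi b (G * q * q0 ^ N) := by
  induction N with
  | zero => simp
  | succ N ih =>
    rw [ih, Finset.sum_range_succ,
      continuation_step hβ0 hβ1 hadd hmul hb hbI hG hq hq0 N]
    ring

theorem continuation_norm_pow {β c : ℝ} (hβ0 : 0 < β) (hβ1 : β ≤ 1) (hc : 0 ≤ c)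
    {p q : PowerSeries ℂ} (hp : FW β c p) (hq : FW β c q) (n : ℕ) :
    FW β c (p * q ^ n) ∧ nrm β c (p * q ^ n) ≤ nrm β c p * nrm β c q ^ n := by
  induction n with
  | zero => simpa using hp
  | succ n ih =>
    rw [pow_succ, ← mul_assoc]
    refine ⟨ih.1.mul hβ0 hβ1 hc hq, (nrm_mul_le hβ0 hβ1 hc ih.1 hq).trans ?_⟩
    rw [pow_succ, ← mul_assoc]
    exact mul_le_mul_of_nonneg_right ih.2 (nrm_nonneg _ _ _)

/-- geometric bound for `Phi b (p * q ^ n)` -/
theorem continuation_geo {β : ℝ} (hβ0 : 0 < β) (hβ1 : β ≤ 1) {b : ℕ → ℂ} (hb : Grow β b)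
    {p q : PowerSeries ℂ} (hp : AA β p) {c : ℝ} (hc : 0 < c) (hq : FW β c q) :
    ∃ C : ℝ, 0 ≤ C ∧ ∀ n, ‖Phi b (p * q ^ n)‖ ≤ C * nrm β c q ^ n := by
  obtain ⟨c1, hc1, hp1⟩ := hp
  have hc' : 0 < min c1 c := lt_min hc1 hc
  obtain ⟨C, hC, h⟩ := norm_Phi_le hb hc'
  have hp' : FW β (min c1 c) p := hp1.mono (min_le_left _ _)
  have hq' : FW β (min c1 c) q := hq.mono (min_le_right _ _)
  have hqn : nrm β (min c1 c) q ≤ nrm β c q := nrm_mono (min_le_right _ _) hq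
  refine ⟨C * nrm β (min c1 c) p, mul_nonneg hC (nrm_nonneg _ _ _), fun n => ?_⟩
  obtain ⟨h1, h2⟩ := continuation_norm_pow hβ0 hβ1 hc'.le hp' hq' n
  refine (h _ h1).trans ?_
  rw [mul_assoc]
  refine mul_le_mul_of_nonneg_left (h2.trans ?_) hC
  exact mul_le_mul_of_nonneg_left (pow_le_pow_left₀ (nrm_nonneg _ _ _) hqn n) (nrm_nonneg _ _ _)

theorem continuation {β : ℝ} (hβ0 : 0 < β) (hβ1 : β < 1) {I : Set (PowerSeries ℂ)}
    (hA : ∀ p ∈ I, AA β p) (hadd : ∀ p ∈ I, ∀ q ∈ I, p + q ∈ I)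
    (hmul : ∀ p ∈ I, ∀ q, AA β q → q * p ∈ I)
    {b : ℕ → ℂ} (hb : Grow β b) (hbI : ∀ p ∈ I, Phi b p = 0)
    {G : PowerSeries ℂ} (hG : AA β G) {E : Set ℂ} (hE : IsClosed E) (hE1 : ∀ z ∈ E, ‖z‖ = 1)
    (hJ : ∀ z : ℂ, ‖z‖ ≤ 1 → z ∉ E → ∃ u, AA β u ∧ G * u ∈ I ∧ ev u z ≠ 0) :
    ∃ Λ : ℂ → ℂ, DifferentiableOn ℂ Λ Eᶜ ∧ (∀ z, 1 < ‖z‖ → Λ z = Phi b (G * Rz z)) ∧
      ∀ u, AA β u → G * u ∈ I → ∃ C : ℝ, ∀ z, ‖z‖ < 1 → ‖ev u z * Λ z‖ ≤ C := by
  classical
  have hβ1' : β ≤ 1 := hβ1.le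
  -- `0 ∈ I`
  have h0I : (0 : PowerSeries ℂ) ∈ I := by
    have h0E : (0 : ℂ) ∉ E := fun h => by simpa using hE1 0 h
    obtain ⟨u, _, hu, _⟩ := hJ 0 (by simp) h0E
    have h0 : AA β (0 : PowerSeries ℂ) := by simpa using AA_C (β := β) 0
    simpa using hmul _ hu 0 h0
  -- inverses
  have hRz : ∀ z : ℂ, 1 < ‖z‖ → continuation_Inv β I G z (Rz z) := by
    intro z hz
    constructor
    · have hα : 0 < β / (1 - β) := div_pos hβ0 (by linarith)
      have he : β / (1 - β) / (1 + β / (1 - β)) = β := by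
        have : (1 - β) ≠ 0 := by linarith
        field_simp
        ring
      obtain ⟨c, C, hc, h⟩ := nrm_Rz_le hα (c' := 1) one_pos
      have := (h z hz).1
      rw [he] at this
      exact ⟨c, hc, this⟩
    · have hz0 : z ≠ 0 := by
        rintro rfl
        simp at hz
        linarith
      rw [Rz_mul hz0]
      simpa using h0I
  have hex : ∀ z : ℂ, z ∉ E → ∃ q, continuation_Inv β I G z q := by
    intro z hz
    rcases lt_or_ge 1 ‖z‖ with h1 | h1
    · exact ⟨_, hRz z h1⟩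
    · obtain ⟨u, hu, huI, hev⟩ := hJ z h1 hz
      obtain ⟨c, hc, huc⟩ := hu
      obtain ⟨K, hK⟩ := FW_Dq hβ0 (half_pos hc).le (half_lt_self hc) huc
      have hD : AA β (Dq u z) := ⟨c / 2, half_pos hc, (hK z h1).1⟩
      refine ⟨(ev u z)⁻¹ • Dq u z, hD.smul _, ?_⟩
      have h2 := Dq_mul (huc.summable hc.le) h1
      have h3 : G * ((PowerSeries.C z - PowerSeries.X) * ((ev u z)⁻¹ • Dq u z) - 1) =
          (PowerSeries.C (-(ev u z)⁻¹)) * (G * u) := by
        have hC1 : PowerSeries.C (ev u z)⁻¹ * PowerSeries.C (ev u z) = (1 : PowerSeries ℂ) := by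
          rw [← map_mul, inv_mul_cancel₀ hev, map_one]
        rw [mul_smul_comm, h2, PowerSeries.smul_eq_C_mul, map_neg]
        linear_combination G * hC1
      rw [h3]
      exact hmul _ huI _ (AA_C _)
  let Λ : ℂ → ℂ := fun z => if h : ∃ q, continuation_Inv β I G z q then Phi b (G * h.choose) else 0
  have hΛ : ∀ z q, continuation_Inv β I G z q → Λ z = Phi b (G * q) := by
    intro z q hq
    have h : ∃ q, continuation_Inv β I G z q := ⟨q, hq⟩
    show (if h : ∃ q, continuation_Inv β I G z q then Phi b (G * h.choose) else 0) = _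
    rw [dif_pos h]
    exact continuation_indep hβ0 hβ1' hadd hmul hb hbI hG h.choose_spec hq
  refine ⟨Λ, ?_, fun z hz => hΛ z _ (hRz z hz), ?_⟩
  · intro z0 hz0
    obtain ⟨q0, hq0⟩ := hex z0 hz0
    obtain ⟨c0, hc0, hqc0⟩ := hq0.1
    set M := nrm β c0 q0 with hM
    have hM0 : 0 ≤ M := nrm_nonneg _ _ _
    obtain ⟨C, hC, hCn⟩ := continuation_geo hβ0 hβ1' hb (hG.mul hβ0 hβ1' hq0.1) hc0 hqc0
    obtain ⟨r1, hr1, hr1E⟩ := Metric.isOpen_iff.1 hE.isOpen_compl z0 hz0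
    set r := min r1 (1 / (2 * (M + 1))) with hr
    have hr0 : 0 < r := lt_min hr1 (by positivity)
    have hrM : r * M ≤ 1 / 2 := by
      have h1 : r ≤ 1 / (2 * (M + 1)) := min_le_right _ _
      calc r * M ≤ 1 / (2 * (M + 1)) * M := mul_le_mul_of_nonneg_right h1 hM0
        _ ≤ 1 / 2 := by
          rw [div_mul_eq_mul_div, div_le_div_iff₀ (by positivity) (by norm_num)]
          linarith
    -- the sum
    have hbound : ∀ n z, z ∈ Metric.ball z0 r →
        ‖(z0 - z) ^ n * Phi b (G * q0 * q0 ^ n)‖ ≤ C * (1 / 2) ^ n := by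
      intro n z hz
      have hz' : ‖z0 - z‖ ≤ r := by
        rw [← dist_eq_norm, dist_comm]; exact (Metric.mem_ball.1 hz).le
      rw [norm_mul, norm_pow]
      calc ‖z0 - z‖ ^ n * ‖Phi b (G * q0 * q0 ^ n)‖ ≤ r ^ n * (C * M ^ n) :=
            mul_le_mul (pow_le_pow_left₀ (norm_nonneg _) hz' n) (hCn n) (norm_nonneg _)
              (by positivity)
        _ = C * (r * M) ^ n := by rw [mul_pow]; ring
        _ ≤ C * (1 / 2) ^ n :=
            mul_le_mul_of_nonneg_left (pow_le_pow_left₀ (by positivity) hrM n) hC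
    have hgeo : Summable fun n : ℕ => C * (1 / 2 : ℝ) ^ n :=
      (summable_geometric_of_lt_one (by norm_num) (by norm_num)).mul_left C
    have hdiff : DifferentiableOn ℂ (fun z => ∑' n, (z0 - z) ^ n * Phi b (G * q0 * q0 ^ n))
        (Metric.ball z0 r) := by
      refine Complex.differentiableOn_tsum_of_summable_norm hgeo ?_ Metric.isOpen_ball hbound
      intro n
      fun_prop
    have heq : ∀ z ∈ Metric.ball z0 r, Λ z = ∑' n, (z0 - z) ^ n * Phi b (G * q0 * q0 ^ n) := by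
      intro z hz
      have hzE : z ∉ E := hr1E (Metric.ball_subset_ball (min_le_left _ _) hz)
      obtain ⟨q, hq⟩ := hex z hzE
      rw [hΛ z q hq]
      have hsum : Summable fun n => (z0 - z) ^ n * Phi b (G * q0 * q0 ^ n) :=
        Summable.of_norm_bounded hgeo (fun n => hbound n z hz)
      obtain ⟨C', hC', hCn'⟩ := continuation_geo hβ0 hβ1' hb (hG.mul hβ0 hβ1' hq.1) hc0 hqc0
      have hz' : ‖z0 - z‖ ≤ r := by
        rw [← dist_eq_norm, dist_comm]; exact (Metric.mem_ball.1 hz).le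
      have hrem : Tendsto (fun N => (z0 - z) ^ N * Phi b (G * q * q0 ^ N)) atTop (𝓝 0) := by
        have hg2 : Tendsto (fun N : ℕ => C' * (1 / 2 : ℝ) ^ N) atTop (𝓝 0) := by
          simpa using (tendsto_pow_atTop_nhds_zero_of_lt_one (r := (1 / 2 : ℝ)) (by norm_num)
            (by norm_num)).const_mul C'
        refine squeeze_zero_norm (fun n => ?_) hg2
        rw [norm_mul, norm_pow]
        calc ‖z0 - z‖ ^ n * ‖Phi b (G * q * q0 ^ n)‖ ≤ r ^ n * (C' * M ^ n) :=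
              mul_le_mul (pow_le_pow_left₀ (norm_nonneg _) hz' n) (hCn' n) (norm_nonneg _)
                (by positivity)
          _ = C' * (r * M) ^ n := by rw [mul_pow]; ring
          _ ≤ C' * (1 / 2) ^ n :=
              mul_le_mul_of_nonneg_left (pow_le_pow_left₀ (by positivity) hrM n) hC'
      have h1 : Tendsto (fun N => ∑ n ∈ Finset.range N, (z0 - z) ^ n * Phi b (G * q0 * q0 ^ n))
          atTop (𝓝 (Phi b (G * q))) := by
        have h2 : (fun N => ∑ n ∈ Finset.range N, (z0 - z) ^ n * Phi b (G * q0 * q0 ^ n)) =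
            fun N => Phi b (G * q) - (z0 - z) ^ N * Phi b (G * q * q0 ^ N) := by
          funext N
          rw [continuation_expand hβ0 hβ1' hadd hmul hb hbI hG hq hq0 N]
          ring
        rw [h2]
        simpa using (tendsto_const_nhds (x := Phi b (G * q))).sub hrem
      exact tendsto_nhds_unique h1 hsum.hasSum.tendsto_sum_nat
    have hd : DifferentiableAt ℂ Λ z0 := by
      have h1 : DifferentiableAt ℂ (fun z => ∑' n, (z0 - z) ^ n * Phi b (G * q0 * q0 ^ n)) z0 :=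
        (hdiff z0 (Metric.mem_ball_self hr0)).differentiableAt (Metric.ball_mem_nhds z0 hr0)
      refine h1.congr_of_eventuallyEq ?_
      filter_upwards [Metric.ball_mem_nhds z0 hr0] with z hz
      exact heq z hz
    exact hd.differentiableWithinAt
  · intro u hu huI
    obtain ⟨c1, hc1, hG1⟩ := hG
    obtain ⟨c2, hc2, hu2⟩ := hu
    set c := min c1 c2 / 2 with hcdef
    have hmin : 0 < min c1 c2 := lt_min hc1 hc2
    have hc : 0 < c := half_pos hmin
    have hcc1 : c ≤ c1 := (half_lt_self hmin).le.trans (min_le_left _ _)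
    have hcc2 : c < c2 := (half_lt_self hmin).trans_le (min_le_right _ _)
    have hGc : FW β c G := hG1.mono hcc1
    obtain ⟨K, hK⟩ := FW_Dq hβ0 hc.le hcc2 hu2
    obtain ⟨C, hC, hCn⟩ := norm_Phi_le hb hc
    have hG' : AA β G := ⟨c1, hc1, hG1⟩
    refine ⟨C * (nrm β c G * K), fun z hz => ?_⟩
    have hzE : z ∉ E := fun h => by
      have := hE1 z h
      linarith
    obtain ⟨q, hq⟩ := hex z hzE
    have hD : FW β c (Dq u z) := (hK z hz.le).1
    have hDA : AA β (Dq u z) := ⟨c, hc, hD⟩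
    have hkey : ev u z * Λ z = Phi b (G * Dq u z) := by
      rw [hΛ z q hq, ← Phi_smul]
      refine continuation_Phi_eq hb hbI ((hG'.mul hβ0 hβ1' hq.1).smul _)
        (hG'.mul hβ0 hβ1' hDA) ?_
      have h2 := Dq_mul (hu2.summable hc2.le) hz.le
      have h3 : ev u z • (G * q) - G * Dq u z = q * (G * u) +
          Dq u z * (G * ((PowerSeries.C z - PowerSeries.X) * q - 1)) := by
        have h4 : Dq u z * (G * ((PowerSeries.C z - PowerSeries.X) * q - 1)) =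
            G * q * ((PowerSeries.C z - PowerSeries.X) * Dq u z) - G * Dq u z := by ring
        rw [h4, h2, PowerSeries.smul_eq_C_mul]
        ring
      rw [h3]
      exact hadd _ (hmul _ huI _ hq.1) _ (hmul _ hq.2 _ hDA)
    rw [hkey]
    refine (hCn _ (hGc.mul hβ0 hβ1' hc.le hD)).trans ?_
    refine mul_le_mul_of_nonneg_left ?_ hC
    refine (nrm_mul_le hβ0 hβ1' hc.le hGc hD).trans ?_
    exact mul_le_mul_of_nonneg_left (hK z hz.le).2 (nrm_nonneg _ _ _)

end Pool.Agent.Helper203.GV
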