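import Pool.Agent.Helper203.GV.Defs

open MeasureTheory Filter Topology Set

noncomputable section

namespace Pool.Agent.Helper203.GV

theorem gvA_yses {y s : ℝ} (hy : 0 ≤ y) (hs : 0 ≤ s) : y ^ s ≤ s ^ s * Real.exp y := by
  rcases hs.eq_or_lt with h | h
  · subst h
    simp only [Real.rpow_zero, one_mul]
    exact Real.one_le_exp hy
  · have h1 : y = s * (y / s) := by field_simp
    have h2 : 0 ≤ y / s := div_nonneg hy hs
    calc y ^ s = (s * (y / s)) ^ s := by rw [← h1]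
      _ = s ^ s * (y / s) ^ s := Real.mul_rpow hs h2
      _ ≤ s ^ s * (Real.exp (y / s)) ^ s := by
          apply mul_le_mul_of_nonneg_left _ (Real.rpow_nonneg hs _)
          apply Real.rpow_le_rpow h2 _ hs
          have := Real.add_one_le_exp (y / s)
          linarith
      _ = s ^ s * Real.exp y := by
          rw [← Real.exp_mul]
          congr 2
          field_simp

theorem gvA_pow_le {β c : ℝ} (hβ : 0 < β) (hc : 0 < c) (k n : ℕ) :
    (n : ℝ) ^ k ≤ ((k : ℝ) / (c * β)) ^ ((k : ℝ) / β) * Real.exp (c * (n : ℝ) ^ β) := by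
  have hn : (0 : ℝ) ≤ n := Nat.cast_nonneg n
  have hk : (0 : ℝ) ≤ k := Nat.cast_nonneg k
  have hs : 0 ≤ (k : ℝ) / β := by positivity
  have hy : 0 ≤ c * (n : ℝ) ^ β := by positivity
  have h1 := gvA_yses hy hs
  have h2 : (c * (n : ℝ) ^ β) ^ ((k : ℝ) / β) = c ^ ((k : ℝ) / β) * (n : ℝ) ^ k := by
    rw [Real.mul_rpow hc.le (by positivity), ← Real.rpow_mul hn]
    have h3 : β * ((k : ℝ) / β) = k := by field_simp
    rw [h3, Real.rpow_natCast]
  rw [h2] at h1
  have h4 : ((k : ℝ) / (c * β)) ^ ((k : ℝ) / β) * c ^ ((k : ℝ) / β)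
      = ((k : ℝ) / β) ^ ((k : ℝ) / β) := by
    rw [← Real.mul_rpow (by positivity) hc.le]
    congr 1
    field_simp
  rw [← h4] at h1
  have h5 : 0 < c ^ ((k : ℝ) / β) := Real.rpow_pos_of_pos hc _
  have h6 : c ^ ((k : ℝ) / β) * (n : ℝ) ^ k ≤ c ^ ((k : ℝ) / β) *
      (((k : ℝ) / (c * β)) ^ ((k : ℝ) / β) * Real.exp (c * (n : ℝ) ^ β)) := by
    calc c ^ ((k : ℝ) / β) * (n : ℝ) ^ k ≤ _ := h1
      _ = _ := by ring
  exact le_of_mul_le_mul_left h6 h5

theorem gvA_summable {β c : ℝ} (hβ : 0 < β) (hc : 0 < c) :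
    Summable fun n : ℕ => Real.exp (-(c * (n : ℝ) ^ β)) := by
  rw [← summable_nat_add_iff 1]
  have h1 : Summable fun n : ℕ => 1 / (((n + 1 : ℕ) : ℝ)) ^ 2 :=
    (summable_nat_add_iff 1).2 (Real.summable_one_div_nat_pow.2 one_lt_two)
  refine Summable.of_nonneg_of_le (fun n => (Real.exp_pos _).le) (fun n => ?_)
    (h1.mul_left ((((2 : ℕ) : ℝ) / (c * β)) ^ (((2 : ℕ) : ℝ) / β)))
  have h2 := gvA_pow_le hβ hc 2 (n + 1)
  have h3 : (0 : ℝ) < ((n + 1 : ℕ) : ℝ) ^ 2 := by positivity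
  rw [mul_one_div, le_div_iff₀ h3, Real.exp_neg, inv_mul_le_iff₀ (Real.exp_pos _), mul_comm]
  exact h2

theorem gvA_hasDeriv {a : ℕ → ℂ} {ρ : ℝ} (hρ : 0 < ρ)
    (hs : ∀ j : ℕ, Summable fun n => ‖a n‖ * (n : ℝ) ^ j * ρ ^ (n - j)) (k : ℕ) {z : ℂ}
    (hz : z ∈ Metric.ball (0 : ℂ) ρ) :
    HasDerivAt (fun z => ∑' n, a n * (n.descFactorial k : ℂ) * z ^ (n - k))
      (∑' n, a n * (n.descFactorial (k + 1) : ℂ) * z ^ (n - (k + 1))) z := by
  have hb : ∀ (j n : ℕ) (y : ℂ), y ∈ Metric.ball (0 : ℂ) ρ →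
      ‖a n * (n.descFactorial j : ℂ) * y ^ (n - j)‖ ≤ ‖a n‖ * (n : ℝ) ^ j * ρ ^ (n - j) := by
    intro j n y hy
    rw [norm_mul, norm_mul, norm_pow, Complex.norm_natCast]
    have h1 : (n.descFactorial j : ℝ) ≤ (n : ℝ) ^ j := by
      exact_mod_cast Nat.descFactorial_le_pow n j
    have h2 : ‖y‖ ≤ ρ := by
      rw [Metric.mem_ball, dist_zero_right] at hy
      exact hy.le
    gcongr
  refine hasDerivAt_tsum_of_isPreconnected (hs (k + 1)) Metric.isOpen_ball
    (convex_ball (0 : ℂ) ρ).isPreconnected ?_ (fun n y hy => hb (k + 1) n y hy)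
    (Metric.mem_ball_self hρ) ?_ hz
  · intro n y _
    have h1 := (hasDerivAt_pow (n - k) y).const_mul (a n * (n.descFactorial k : ℂ))
    have h2 : a n * (n.descFactorial (k + 1) : ℂ) * y ^ (n - (k + 1))
        = a n * (n.descFactorial k : ℂ) * (((n - k : ℕ) : ℂ) * y ^ (n - k - 1)) := by
      rw [Nat.descFactorial_succ, Nat.sub_sub, Nat.cast_mul]
      ring
    rw [h2]
    exact h1
  · refine Summable.of_norm_bounded (hs k) (fun n => hb k n 0 (Metric.mem_ball_self hρ))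

theorem gvA_iter {a : ℕ → ℂ} {ρ : ℝ} (hρ : 0 < ρ)
    (hs : ∀ j : ℕ, Summable fun n => ‖a n‖ * (n : ℝ) ^ j * ρ ^ (n - j)) (k : ℕ) :
    ∀ z ∈ Metric.ball (0 : ℂ) ρ, iteratedDeriv k (fun z => ∑' n, a n * z ^ n) z
      = ∑' n, a n * (n.descFactorial k : ℂ) * z ^ (n - k) := by
  induction k with
  | zero =>
    intro z _
    simp [iteratedDeriv_zero]
  | succ k ih =>
    intro z hz
    rw [iteratedDeriv_succ]
    have h1 : iteratedDeriv k (fun z => ∑' n, a n * z ^ n)
        =ᶠ[𝓝 z] (fun z => ∑' n, a n * (n.descFactorial k : ℂ) * z ^ (n - k)) :=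
      Filter.eventually_of_mem (Metric.isOpen_ball.mem_nhds hz) ih
    rw [h1.deriv_eq]
    exact (gvA_hasDeriv hρ hs k hz).deriv

theorem gvA_cauchy {α C Q : ℝ} {f : ℂ → ℂ} (h : GB α C Q f) (k n : ℕ) (hkn : k ≤ n) :
    ‖iteratedDeriv n f 0‖ ≤ ((n - k).factorial : ℝ) *
      (C * Q ^ k * (k.factorial : ℝ) * (k : ℝ) ^ ((k : ℝ) / α)) := by
  obtain ⟨h1, h2⟩ := h
  have hg : AnalyticOnNhd ℂ (iteratedDeriv k f) (Metric.ball 0 1) := by
    rw [iteratedDeriv_eq_iterate]
    exact (h1.analyticOnNhd Metric.isOpen_ball).iterated_deriv k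
  have hr : ∀ r : ℝ, r ∈ Ioo (0 : ℝ) 1 → ‖iteratedDeriv n f 0‖ * r ^ (n - k) ≤
      ((n - k).factorial : ℝ) * (C * Q ^ k * (k.factorial : ℝ) * (k : ℝ) ^ ((k : ℝ) / α)) := by
    intro r hr
    have h3 : DiffContOnCl ℂ (iteratedDeriv k f) (Metric.ball 0 r) := by
      apply DifferentiableOn.diffContOnCl
      rw [closure_ball _ hr.1.ne']
      exact hg.differentiableOn.mono (Metric.closedBall_subset_ball hr.2)
    have h4 := Complex.norm_iteratedDeriv_le_of_forall_mem_sphere_norm_le (n - k) hr.1 h3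
      (C := C * Q ^ k * (k.factorial : ℝ) * (k : ℝ) ^ ((k : ℝ) / α))
      (fun z hz => h2 k z (Metric.sphere_subset_closedBall.trans
        (Metric.closedBall_subset_ball hr.2) hz))
    have h5 : iteratedDeriv (n - k) (iteratedDeriv k f) = iteratedDeriv n f := by
      rw [iteratedDeriv_eq_iterate, iteratedDeriv_eq_iterate, iteratedDeriv_eq_iterate,
        ← Function.iterate_add_apply, Nat.sub_add_cancel hkn]
    rw [h5, le_div_iff₀ (pow_pos hr.1 _)] at h4
    exact h4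
  have ht : Tendsto (fun r : ℝ => ‖iteratedDeriv n f 0‖ * r ^ (n - k)) (𝓝[<] 1)
      (𝓝 (‖iteratedDeriv n f 0‖ * 1 ^ (n - k))) := by
    have : Continuous (fun r : ℝ => ‖iteratedDeriv n f 0‖ * r ^ (n - k)) := by fun_prop
    exact this.continuousWithinAt.tendsto
  rw [one_pow, mul_one] at ht
  refine le_of_tendsto ht ?_
  filter_upwards [Ioo_mem_nhdsLT (zero_lt_one' ℝ)] with r hr'
  exact hr r hr'

theorem gvA_coeff_bound {α : ℝ} (h0 : 0 < α) {Q : ℝ} (hQ : 0 < Q) :
    ∃ c1 : ℝ, 0 < c1 ∧ ∀ (C : ℝ) (f : ℂ → ℂ), GB α C Q f → ∀ n : ℕ,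
      ‖iteratedDeriv n f 0 / (n.factorial : ℂ)‖ ≤
        C * Real.exp (1 - c1 * (n : ℝ) ^ (α / (1 + α))) := by
  set β := α / (1 + α) with hβ
  have hβ0 : 0 < β := by positivity
  have hβ1 : β ≤ 1 := by rw [hβ, div_le_one (by positivity)]; linarith
  set Q' := max Q 1 with hQ'
  have hQ1 : 1 ≤ Q' := le_max_right _ _
  have hQQ : Q ≤ Q' := le_max_left _ _
  set A := 2 * Q' * Real.exp 1 with hA
  have he1 : 1 ≤ Real.exp 1 := Real.one_le_exp zero_le_one
  have hA2 : 2 ≤ A := by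
    rw [hA]
    nlinarith
  have hA0 : 0 < A := by linarith
  refine ⟨(1 / A) ^ β, by positivity, ?_⟩
  intro C f hf n
  have hC : 0 ≤ C := by
    have h1 := hf.2 0 0 (Metric.mem_ball_self one_pos)
    simp only [iteratedDeriv_zero, pow_zero, mul_one, Nat.factorial_zero, Nat.cast_one,
      Nat.cast_zero, zero_div, Real.rpow_zero] at h1
    exact (norm_nonneg _).trans h1
  rcases Nat.eq_zero_or_pos n with hn | hn
  · subst hn
    have h1 := hf.2 0 0 (Metric.mem_ball_self one_pos)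
    simp only [pow_zero, mul_one, Nat.factorial_zero, Nat.cast_one,
      Nat.cast_zero, zero_div, Real.rpow_zero] at h1
    simp only [Nat.factorial_zero, Nat.cast_one, div_one, Nat.cast_zero]
    rw [Real.zero_rpow hβ0.ne', mul_zero, sub_zero]
    calc ‖iteratedDeriv 0 f 0‖ ≤ C := h1
      _ ≤ C * Real.exp 1 := le_mul_of_one_le_right hC he1
  · have hnR : (0 : ℝ) < n := by exact_mod_cast hn
    set x := ((n : ℝ) / A) ^ β with hx
    have hx0 : 0 ≤ x := by positivity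
    set k := ⌊x⌋₊ with hk
    have hkx : (k : ℝ) ≤ x := Nat.floor_le hx0
    have hxk : x < k + 1 := Nat.lt_floor_add_one x
    have h2k : 2 * k ≤ n := by
      rcases le_or_gt 1 ((n : ℝ) / A) with h | h
      · have h1 : x ≤ (n : ℝ) / A := by
          rw [hx]
          calc ((n : ℝ) / A) ^ β ≤ ((n : ℝ) / A) ^ (1 : ℝ) :=
                Real.rpow_le_rpow_of_exponent_le h hβ1
            _ = _ := Real.rpow_one _
        have h2 : (n : ℝ) / A ≤ n / 2 := div_le_div_of_nonneg_left hnR.le two_pos hA2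
        have h3 : 2 * (k : ℝ) ≤ n := by linarith
        exact_mod_cast h3
      · have h1 : x < 1 := by
          rw [hx]
          exact Real.rpow_lt_one (by positivity) h hβ0
        have h2 : k = 0 := by
          rw [hk]
          exact Nat.floor_eq_zero.2 h1
        omega
    have hkn : k ≤ n := by omega
    have hc := gvA_cauchy hf k n hkn
    -- bound
    have hk1 : (0 : ℝ) ≤ k := Nat.cast_nonneg k
    have hkb : (k : ℝ) ^ (1 / β) ≤ n / A := by
      have h1 : (k : ℝ) ^ (1 / β) ≤ x ^ (1 / β) :=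
        Real.rpow_le_rpow hk1 hkx (by positivity)
      have h2 : x ^ (1 / β) = n / A := by
        rw [hx, ← Real.rpow_mul (by positivity)]
        rw [mul_one_div_cancel hβ0.ne', Real.rpow_one]
      rw [h2] at h1
      exact h1
    have hkey : 2 * Q * (k : ℝ) ^ (1 / β) / n ≤ Real.exp (-1) := by
      rw [div_le_iff₀ hnR, Real.exp_neg]
      rw [le_div_iff₀ hA0] at hkb
      rw [inv_mul_eq_div, le_div_iff₀ (Real.exp_pos 1)]
      calc 2 * Q * (k : ℝ) ^ (1 / β) * Real.exp 1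
          ≤ 2 * Q' * (k : ℝ) ^ (1 / β) * Real.exp 1 := by gcongr
        _ = (k : ℝ) ^ (1 / β) * A := by rw [hA]; ring
        _ ≤ n := hkb
    have hpk : (2 * Q * (k : ℝ) ^ (1 / β) / n) ^ k ≤ Real.exp (-(k : ℝ)) := by
      calc (2 * Q * (k : ℝ) ^ (1 / β) / n) ^ k ≤ (Real.exp (-1)) ^ k := by
            gcongr
        _ = Real.exp (-(k : ℝ)) := by
            rw [← Real.exp_nat_mul]
            congr 1
            ring
    have hkk : ((k : ℝ) ^ (1 / β)) ^ k = (k : ℝ) ^ k * (k : ℝ) ^ ((k : ℝ) / α) := by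
      rcases Nat.eq_zero_or_pos k with h | h
      · rw [h]
        simp
      · have hkR : (0 : ℝ) < k := by exact_mod_cast h
        rw [← Real.rpow_natCast ((k : ℝ) ^ (1 / β)), ← Real.rpow_mul hk1,
          ← Real.rpow_natCast (k : ℝ) k, ← Real.rpow_add hkR]
        congr 1
        rw [hβ]
        field_simp
        ring
    have hch : ((n : ℝ) / 2) ^ k / (k.factorial : ℝ) ≤ (n.choose k : ℝ) := by
      have h1 := Nat.pow_le_choose (α := ℝ) k n
      refine le_trans ?_ h1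
      gcongr
      rw [div_le_iff₀ two_pos]
      have : n ≤ (n + 1 - k) * 2 := by omega
      exact_mod_cast this
    have hfac : ((n.choose k : ℕ) : ℝ) * (k.factorial : ℝ) * ((n - k).factorial : ℝ)
        = (n.factorial : ℝ) := by
      exact_mod_cast Nat.choose_mul_factorial_mul_factorial hkn
    have hkf : (k.factorial : ℝ) ≤ (k : ℝ) ^ k := by
      exact_mod_cast Nat.factorial_le_pow k
    have hkfp : (0 : ℝ) < k.factorial := by positivity
    have hnfp : (0 : ℝ) < (n - k).factorial := by positivity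
    rw [norm_div, Complex.norm_natCast]
    rw [div_le_iff₀ (by positivity)]
    have hmain : ((n - k).factorial : ℝ) *
        (C * Q ^ k * (k.factorial : ℝ) * (k : ℝ) ^ ((k : ℝ) / α))
        ≤ C * Real.exp (-(k : ℝ)) * (n.factorial : ℝ) := by
      rw [← hfac]
      have h1 : C * Real.exp (-(k : ℝ)) * ((n.choose k : ℝ) * (k.factorial : ℝ) *
          ((n - k).factorial : ℝ)) = ((n - k).factorial : ℝ) * ((k.factorial : ℝ) *
            (C * (Real.exp (-(k : ℝ)) * (n.choose k : ℝ)))) := by ring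
      have h2 : ((n - k).factorial : ℝ) *
        (C * Q ^ k * (k.factorial : ℝ) * (k : ℝ) ^ ((k : ℝ) / α)) = ((n - k).factorial : ℝ) *
          ((k.factorial : ℝ) * (C * (Q ^ k * (k : ℝ) ^ ((k : ℝ) / α)))) := by ring
      rw [h1, h2]
      refine mul_le_mul_of_nonneg_left (mul_le_mul_of_nonneg_left
        (mul_le_mul_of_nonneg_left ?_ hC) hkfp.le) hnfp.le
      have h3 : (2 * Q * (k : ℝ) ^ (1 / β) / n) ^ k * (((n : ℝ) / 2) ^ k / (k.factorial : ℝ))
          = Q ^ k * ((k : ℝ) ^ k * (k : ℝ) ^ ((k : ℝ) / α)) / (k.factorial : ℝ) := by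
        rw [← hkk, ← mul_div_assoc, ← mul_pow, ← mul_pow]
        congr 2
        field_simp
      have h4 : (2 * Q * (k : ℝ) ^ (1 / β) / n) ^ k * (((n : ℝ) / 2) ^ k / (k.factorial : ℝ))
          ≤ Real.exp (-(k : ℝ)) * (n.choose k : ℝ) := by
        apply mul_le_mul hpk hch (by positivity) (Real.exp_pos _).le
      rw [h3] at h4
      refine le_trans ?_ h4
      rw [le_div_iff₀ hkfp]
      have h5 : 0 ≤ Q ^ k * (k : ℝ) ^ ((k : ℝ) / α) := by positivity
      nlinarith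
    have hexp : Real.exp (-(k : ℝ)) ≤ Real.exp (1 - (1 / A) ^ β * (n : ℝ) ^ β) := by
      apply Real.exp_le_exp.2
      have h1 : (1 / A) ^ β * (n : ℝ) ^ β = x := by
        rw [hx, ← Real.mul_rpow (by positivity) hnR.le]
        congr 1
        ring
      rw [h1]
      linarith
    calc ‖iteratedDeriv n f 0‖ ≤ _ := hc
      _ ≤ _ := hmain
      _ ≤ _ := by gcongr

theorem fw_of_gb {α : ℝ} (h0 : 0 < α) {Q : ℝ} (hQ : 0 < Q) :
    ∃ K c : ℝ, 0 < K ∧ 0 < c ∧ ∀ (C : ℝ) (f : ℂ → ℂ), GB α C Q f →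
      FW (α/(1+α)) c (ser f) ∧ nrm (α/(1+α)) c (ser f) ≤ K * C := by
  obtain ⟨c1, hc1, hb⟩ := gvA_coeff_bound h0 hQ
  have hβ0 : 0 < α / (1 + α) := by positivity
  have hsum := gvA_summable hβ0 (half_pos hc1)
  refine ⟨Real.exp 1 * (∑' n : ℕ, Real.exp (-(c1 / 2 * (n : ℝ) ^ (α / (1 + α))))) + 1, c1 / 2,
    ?_, half_pos hc1, ?_⟩
  · have : 0 ≤ ∑' n : ℕ, Real.exp (-(c1 / 2 * (n : ℝ) ^ (α / (1 + α)))) :=
      tsum_nonneg fun n => (Real.exp_pos _).le
    positivity
  · intro C f hf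
    have hC : 0 ≤ C := by
      have h1 := hf.2 0 0 (Metric.mem_ball_self one_pos)
      simp only [iteratedDeriv_zero, pow_zero, mul_one, Nat.factorial_zero, Nat.cast_one,
        Nat.cast_zero, zero_div, Real.rpow_zero] at h1
      exact (norm_nonneg _).trans h1
    have hle : ∀ n : ℕ, ‖PowerSeries.coeff n (ser f)‖ * wt (α / (1 + α)) (c1 / 2) n
        ≤ C * Real.exp 1 * Real.exp (-(c1 / 2 * (n : ℝ) ^ (α / (1 + α)))) := by
      intro n
      have h1 := hb C f hf n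
      have h2 : PowerSeries.coeff n (ser f) = iteratedDeriv n f 0 / (n.factorial : ℂ) := by
        unfold ser
        rw [PowerSeries.coeff_mk]
      rw [h2]
      unfold wt
      calc ‖iteratedDeriv n f 0 / (n.factorial : ℂ)‖ *
            Real.exp (c1 / 2 * (n : ℝ) ^ (α / (1 + α)))
          ≤ C * Real.exp (1 - c1 * (n : ℝ) ^ (α / (1 + α))) *
            Real.exp (c1 / 2 * (n : ℝ) ^ (α / (1 + α))) := by gcongr
        _ = C * Real.exp 1 * Real.exp (-(c1 / 2 * (n : ℝ) ^ (α / (1 + α)))) := by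
            rw [mul_assoc, mul_assoc, ← Real.exp_add, ← Real.exp_add]
            congr 2
            ring
    have hnn : ∀ n : ℕ, 0 ≤ ‖PowerSeries.coeff n (ser f)‖ * wt (α / (1 + α)) (c1 / 2) n :=
      fun n => mul_nonneg (norm_nonneg _) (Real.exp_pos _).le
    have hS : Summable fun n : ℕ =>
        ‖PowerSeries.coeff n (ser f)‖ * wt (α / (1 + α)) (c1 / 2) n :=
      Summable.of_nonneg_of_le hnn hle (hsum.mul_left _)
    refine ⟨hS, ?_⟩
    unfold nrm
    calc ∑' n, ‖PowerSeries.coeff n (ser f)‖ * wt (α / (1 + α)) (c1 / 2) n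
        ≤ ∑' n : ℕ, C * Real.exp 1 * Real.exp (-(c1 / 2 * (n : ℝ) ^ (α / (1 + α)))) :=
          hS.tsum_le_tsum hle (hsum.mul_left _)
      _ = C * Real.exp 1 * ∑' n : ℕ, Real.exp (-(c1 / 2 * (n : ℝ) ^ (α / (1 + α)))) :=
          tsum_mul_left
      _ ≤ _ := by nlinarith

theorem ev_ser {f : ℂ → ℂ} (hf : DifferentiableOn ℂ f (Metric.ball 0 1)) :
    ∀ z ∈ Metric.ball (0:ℂ) 1, ev (ser f) z = f z := by
  intro z hz
  have h1 := Complex.hasSum_taylorSeries_on_ball hf hz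
  rw [← h1.tsum_eq]
  unfold ev ser
  apply tsum_congr
  intro n
  rw [PowerSeries.coeff_mk, sub_zero, smul_eq_mul, smul_eq_mul]
  ring

theorem gb_of_fw {α : ℝ} (h0 : 0 < α) {c : ℝ} (hc : 0 < c) :
    ∃ K Q : ℝ, 0 < K ∧ 0 < Q ∧ ∀ p : PowerSeries ℂ, FW (α/(1+α)) c p →
      GB α (K * nrm (α/(1+α)) c p) Q (ev p) := by
  set β := α / (1 + α) with hβ
  have hβ0 : 0 < β := by positivity
  refine ⟨1, Real.exp 1 * (1 / (c * β)) ^ (1 / β), one_pos, by positivity, ?_⟩
  intro p hp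
  have hB : ∀ k : ℕ, ((k : ℝ) / (c * β)) ^ ((k : ℝ) / β) ≤
      (Real.exp 1 * (1 / (c * β)) ^ (1 / β)) ^ k * (k.factorial : ℝ) *
        (k : ℝ) ^ ((k : ℝ) / α) := by
    intro k
    rcases Nat.eq_zero_or_pos k with h | h
    · rw [h]
      simp
    · have hkR : (0 : ℝ) < k := by exact_mod_cast h
      have h1 : ((k : ℝ) / (c * β)) ^ ((k : ℝ) / β)
          = ((1 / (c * β)) ^ (1 / β)) ^ k * ((k : ℝ) ^ k * (k : ℝ) ^ ((k : ℝ) / α)) := by
        have h2 : (k : ℝ) / (c * β) = (1 / (c * β)) * k := by ring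
        rw [h2, Real.mul_rpow (by positivity) hkR.le]
        congr 1
        · rw [← Real.rpow_natCast ((1 / (c * β)) ^ (1 / β)), ← Real.rpow_mul (by positivity)]
          congr 1
          ring
        · rw [← Real.rpow_natCast (k : ℝ) k, ← Real.rpow_add hkR]
          congr 1
          rw [hβ]
          field_simp
          ring
      rw [h1]
      have h3 : (k : ℝ) ^ k ≤ Real.exp 1 ^ k * (k.factorial : ℝ) := by
        have h4 := Real.pow_div_factorial_le_exp (k : ℝ) hkR.le k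
        rw [div_le_iff₀ (by positivity)] at h4
        rw [← Real.exp_nat_mul, mul_one]
        exact h4
      rw [mul_pow]
      calc ((1 / (c * β)) ^ (1 / β)) ^ k * ((k : ℝ) ^ k * (k : ℝ) ^ ((k : ℝ) / α))
          ≤ ((1 / (c * β)) ^ (1 / β)) ^ k * ((Real.exp 1 ^ k * (k.factorial : ℝ)) *
            (k : ℝ) ^ ((k : ℝ) / α)) := by gcongr
        _ = _ := by ring
  have hle : ∀ k n : ℕ, ‖PowerSeries.coeff n p‖ * (n : ℝ) ^ k ≤
      ((Real.exp 1 * (1 / (c * β)) ^ (1 / β)) ^ k * (k.factorial : ℝ) *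
        (k : ℝ) ^ ((k : ℝ) / α)) * (‖PowerSeries.coeff n p‖ * wt β c n) := by
    intro k n
    have h1 := gvA_pow_le hβ0 hc k n
    unfold wt
    calc ‖PowerSeries.coeff n p‖ * (n : ℝ) ^ k
        ≤ ‖PowerSeries.coeff n p‖ * (((k : ℝ) / (c * β)) ^ ((k : ℝ) / β) *
          Real.exp (c * (n : ℝ) ^ β)) := by gcongr
      _ ≤ ‖PowerSeries.coeff n p‖ * (((Real.exp 1 * (1 / (c * β)) ^ (1 / β)) ^ k *
          (k.factorial : ℝ) * (k : ℝ) ^ ((k : ℝ) / α)) * Real.exp (c * (n : ℝ) ^ β)) := by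
          gcongr
          exact hB k
      _ = _ := by ring
  have hs1 : ∀ j : ℕ, Summable fun n => ‖PowerSeries.coeff n p‖ * (n : ℝ) ^ j := fun j =>
    Summable.of_nonneg_of_le (fun n => by positivity) (hle j) (hp.mul_left _)
  have hs : ∀ j : ℕ, Summable fun n => ‖PowerSeries.coeff n p‖ * (n : ℝ) ^ j * 1 ^ (n - j) := by
    intro j
    simpa using hs1 j
  have hev : ev p = fun z => ∑' n, PowerSeries.coeff n p * z ^ n := rfl
  refine ⟨?_, ?_⟩
  · intro z hz
    have h1 := gvA_hasDeriv one_pos hs 0 hz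
    have h2 : (fun z => ∑' n, PowerSeries.coeff n p * (n.descFactorial 0 : ℂ) * z ^ (n - 0))
        = ev p := by
      funext z
      unfold ev
      apply tsum_congr
      intro n
      simp
    rw [h2] at h1
    exact h1.differentiableAt.differentiableWithinAt
  · intro k z hz
    rw [hev, gvA_iter one_pos hs k z hz]
    have hz1 : ‖z‖ ≤ 1 := by
      rw [Metric.mem_ball, dist_zero_right] at hz
      exact hz.le
    have hb : ∀ n : ℕ, ‖PowerSeries.coeff n p * (n.descFactorial k : ℂ) * z ^ (n - k)‖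
        ≤ ‖PowerSeries.coeff n p‖ * (n : ℝ) ^ k := by
      intro n
      rw [norm_mul, norm_mul, norm_pow, Complex.norm_natCast]
      have h1 : (n.descFactorial k : ℝ) ≤ (n : ℝ) ^ k := by
        exact_mod_cast Nat.descFactorial_le_pow n k
      have h2 : ‖z‖ ^ (n - k) ≤ 1 := pow_le_one₀ (norm_nonneg _) hz1
      calc ‖PowerSeries.coeff n p‖ * (n.descFactorial k : ℝ) * ‖z‖ ^ (n - k)
          ≤ ‖PowerSeries.coeff n p‖ * (n : ℝ) ^ k * 1 := by gcongr
        _ = _ := mul_one _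
    calc ‖∑' n, PowerSeries.coeff n p * (n.descFactorial k : ℂ) * z ^ (n - k)‖
        ≤ ∑' n, ‖PowerSeries.coeff n p‖ * (n : ℝ) ^ k :=
          tsum_of_norm_bounded (hs1 k).hasSum hb
      _ ≤ ∑' n, ((Real.exp 1 * (1 / (c * β)) ^ (1 / β)) ^ k * (k.factorial : ℝ) *
        (k : ℝ) ^ ((k : ℝ) / α)) * (‖PowerSeries.coeff n p‖ * wt β c n) :=
          (hs1 k).tsum_le_tsum (hle k) (hp.mul_left _)
      _ = ((Real.exp 1 * (1 / (c * β)) ^ (1 / β)) ^ k * (k.factorial : ℝ) *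
        (k : ℝ) ^ ((k : ℝ) / α)) * nrm β c p := by
          rw [tsum_mul_left]
          rfl
      _ = _ := by ring

theorem ser_ev {β c : ℝ} (hβ : 0 < β) (hc : 0 ≤ c) {p : PowerSeries ℂ} (hp : FW β c p) :
    ser (ev p) = p := by
  have hw : ∀ n, 1 ≤ wt β c n := by
    intro n
    unfold wt
    apply Real.one_le_exp
    positivity
  have hle : ∀ n, ‖PowerSeries.coeff n p‖ ≤ nrm β c p := by
    intro n
    calc ‖PowerSeries.coeff n p‖ ≤ ‖PowerSeries.coeff n p‖ * wt β c n :=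
          le_mul_of_one_le_right (norm_nonneg _) (hw n)
      _ ≤ _ := hp.le_tsum n (fun m _ => mul_nonneg (norm_nonneg _) (by linarith [hw m]))
  have h2p : ∀ m j : ℕ, (1 / 2 : ℝ) ^ (m - j) ≤ 2 ^ j * (1 / 2 : ℝ) ^ m := by
    intro m j
    rcases le_total j m with h | h
    · obtain ⟨t, rfl⟩ := Nat.exists_eq_add_of_le h
      rw [Nat.add_sub_cancel_left, pow_add, ← mul_assoc, ← mul_pow]
      norm_num
    · obtain ⟨t, rfl⟩ := Nat.exists_eq_add_of_le h
      rw [Nat.sub_eq_zero_of_le h, pow_zero, pow_add, mul_right_comm, ← mul_pow]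
      norm_num
      exact one_le_pow₀ (by norm_num)
  have hs : ∀ j : ℕ, Summable fun n => ‖PowerSeries.coeff n p‖ * (n : ℝ) ^ j *
      (1 / 2 : ℝ) ^ (n - j) := by
    intro j
    have h1 : Summable fun n : ℕ => (n : ℝ) ^ j * (1 / 2 : ℝ) ^ n :=
      summable_pow_mul_geometric_of_norm_lt_one j (by norm_num)
    refine Summable.of_nonneg_of_le (fun n => by positivity) (fun n => ?_)
      (h1.mul_left (nrm β c p * 2 ^ j))
    calc ‖PowerSeries.coeff n p‖ * (n : ℝ) ^ j * (1 / 2 : ℝ) ^ (n - j)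
        ≤ nrm β c p * (n : ℝ) ^ j * (2 ^ j * (1 / 2 : ℝ) ^ n) := by
          have h0 : 0 ≤ nrm β c p := (norm_nonneg _).trans (hle 0)
          gcongr
          · exact hle n
          · exact h2p n j
      _ = _ := by ring
  ext n
  unfold ser
  rw [PowerSeries.coeff_mk]
  have hev : ev p = fun z => ∑' n, PowerSeries.coeff n p * z ^ n := rfl
  rw [hev, gvA_iter (by norm_num : (0 : ℝ) < 1 / 2) hs n 0 (Metric.mem_ball_self (by norm_num)),
    tsum_eq_single n]
  · rw [Nat.descFactorial_self, Nat.sub_self, pow_zero, mul_one,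
      mul_div_assoc, div_self (by exact_mod_cast Nat.factorial_ne_zero n), mul_one]
  · intro m hm
    rcases lt_or_gt_of_ne hm with h | h
    · rw [Nat.descFactorial_of_lt h]
      simp
    · rw [zero_pow (by omega), mul_zero]

end Pool.Agent.Helper203.GV
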