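import Mathlib

open MeasureTheory Filter Topology Set

noncomputable section

namespace Pool.Agent.Helper203.GV

/-- Gevrey bound with constants `C, Q` on the unit disc. -/
def GB (α C Q : ℝ) (f : ℂ → ℂ) : Prop :=
  DifferentiableOn ℂ f (Metric.ball (0:ℂ) 1) ∧
    ∀ n : ℕ, ∀ z ∈ Metric.ball (0:ℂ) 1,
      ‖iteratedDeriv n f z‖ ≤ C * Q ^ n * (n.factorial : ℝ) * (n : ℝ) ^ ((n : ℝ) / α)

/-- arc length on the unit circle as a measure on `ℂ` (total mass `2π`) -/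
def sg : Measure ℂ :=
  Measure.map (fun t : ℝ => Complex.exp (t * Complex.I)) (volume.restrict (Ioc (-Real.pi) Real.pi))

/-- weight `exp (c n^β)` -/
def wt (β c : ℝ) (n : ℕ) : ℝ := Real.exp (c * (n:ℝ) ^ β)

/-- finite weighted `ℓ¹` norm -/
def FW (β c : ℝ) (p : PowerSeries ℂ) : Prop :=
  Summable fun n => ‖PowerSeries.coeff n p‖ * wt β c n

/-- weighted `ℓ¹` norm -/
def nrm (β c : ℝ) (p : PowerSeries ℂ) : ℝ := ∑' n, ‖PowerSeries.coeff n p‖ * wt β c n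

/-- the algebra: union over `c > 0` -/
def AA (β : ℝ) (p : PowerSeries ℂ) : Prop := ∃ c : ℝ, 0 < c ∧ FW β c p

/-- evaluation -/
def ev (p : PowerSeries ℂ) (z : ℂ) : ℂ := ∑' n, PowerSeries.coeff n p * z ^ n

/-- functional with coefficients `b` -/
def Phi (b : ℕ → ℂ) (p : PowerSeries ℂ) : ℂ := ∑' n, b n * PowerSeries.coeff n p

/-- growth condition making `Phi b` continuous on every weighted space -/
def Grow (β : ℝ) (b : ℕ → ℂ) : Prop := ∀ c : ℝ, 0 < c → ∃ C : ℝ, ∀ n, ‖b n‖ ≤ C * wt β c n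

/-- the power series of `1/(z - X)` -/
def Rz (z : ℂ) : PowerSeries ℂ := PowerSeries.mk fun n => (z⁻¹) ^ (n + 1)

/-- the power series of `(u(z) - u(X))/(z - X)` -/
def Dq (u : PowerSeries ℂ) (z : ℂ) : PowerSeries ℂ :=
  PowerSeries.mk fun n => ∑' k, PowerSeries.coeff (n + 1 + k) u * z ^ k

/-- Taylor series at `0` -/
def ser (f : ℂ → ℂ) : PowerSeries ℂ := PowerSeries.mk fun n => iteratedDeriv n f 0 / (n.factorial : ℂ)

/-- the kernel function with positive real part -/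
def Hf (θ : ℝ) (ψ W : ℂ → ℝ) (z : ℂ) : ℂ :=
  ∫ ζ, (W ζ : ℂ) * ((((1 + 2 * θ * ψ ζ : ℝ) : ℂ) * ζ) / (((1 + 2 * θ * ψ ζ : ℝ) : ℂ) * ζ - z)) ∂sg

/-- inner functions, in the sense of the frozen statement -/
def Inner (S : ℂ → ℂ) : Prop :=
  DifferentiableOn ℂ S (Metric.ball (0:ℂ) 1) ∧
    (∀ z ∈ Metric.ball (0:ℂ) 1, ‖S z‖ ≤ 1) ∧
    ∀ᵐ θ : ℝ ∂MeasureTheory.volume, ∃ w : ℂ, ‖w‖ = 1 ∧
      Filter.Tendsto (fun r : ℝ => S ((r : ℂ) * Complex.exp ((θ : ℂ) * Complex.I)))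
        (nhdsWithin 1 (Set.Iio 1)) (nhds w)

/-- `f = S h` on the disc with `h` bounded analytic -/
def Dvd (S f : ℂ → ℂ) : Prop :=
  ∃ h : ℂ → ℂ, DifferentiableOn ℂ h (Metric.ball (0:ℂ) 1) ∧
    (∃ B : ℝ, ∀ z ∈ Metric.ball (0:ℂ) 1, ‖h z‖ ≤ B) ∧
    ∀ z ∈ Metric.ball (0:ℂ) 1, f z = S z * h z

end Pool.Agent.Helper203.GV
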