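import Pool.Agent.Helper203.GV.Defs
import Pool.Agent.Helper203.GV.Alg

open MeasureTheory Filter Topology Set

noncomputable section

namespace Pool.Agent.Helper203.GV

theorem gvm_meas_exp : Measurable (fun t : ℝ => Complex.exp (t * Complex.I)) := by
  have : Continuous (fun t : ℝ => Complex.exp (t * Complex.I)) := by fun_prop
  exact this.measurable

theorem gvm_sg_eq {A : Set ℂ} (hA : MeasurableSet A) (a : ℝ) :
    sg A = volume ({t : ℝ | Complex.exp (t * Complex.I) ∈ A} ∩ Ioc a (a + 2 * Real.pi)) := by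
  have hm : MeasurableSet {t : ℝ | Complex.exp (t * Complex.I) ∈ A} := gvm_meas_exp hA
  rw [sg, Measure.map_apply gvm_meas_exp hA, Measure.restrict_apply (gvm_meas_exp hA)]
  have h1 : Ioc (-Real.pi) Real.pi = Ioc (-Real.pi) (-Real.pi + 2 * Real.pi) := by
    congr 1; ring
  rw [h1]
  have hT : 0 < 2 * Real.pi := by positivity
  apply (isAddFundamentalDomain_Ioc hT (-Real.pi) volume).measure_set_eq (isAddFundamentalDomain_Ioc hT a volume) hm
  rintro ⟨g, hg⟩
  obtain ⟨n, rfl⟩ := hg
  ext t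
  show Complex.exp (((n • (2 * Real.pi) + t : ℝ) : ℂ) * Complex.I) ∈ A ↔
    Complex.exp (t * Complex.I) ∈ A
  have : Complex.exp (((n • (2 * Real.pi) + t : ℝ) : ℂ) * Complex.I) = Complex.exp (t * Complex.I) := by
    rw [zsmul_eq_mul]
    push_cast
    have : ((n : ℂ) * (2 * Real.pi) + t) * Complex.I = t * Complex.I + n * (2 * Real.pi * Complex.I) := by
      ring
    rw [this, Complex.exp_add, Complex.exp_int_mul_two_pi_mul_I, mul_one]
  rw [this]

theorem gvm_dist (t s : ℝ) : ‖Complex.exp (t * Complex.I) - Complex.exp (s * Complex.I)‖ =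
    2 * |Real.sin ((t - s) / 2)| := by
  have h1 : Complex.exp (t * Complex.I) - Complex.exp (s * Complex.I) =
      Complex.exp (s * Complex.I) * (Complex.exp (Complex.I * ((t - s : ℝ) : ℂ)) - 1) := by
    rw [mul_sub, ← Complex.exp_add, mul_one]
    congr 2
    push_cast
    ring
  rw [h1, norm_mul, Complex.norm_exp_ofReal_mul_I, one_mul, Complex.norm_exp_I_mul_ofReal_sub_one,
    norm_mul, Real.norm_eq_abs, Real.norm_eq_abs]
  norm_num

theorem sg_ball_le (z : ℂ) {r : ℝ} (hr : 0 ≤ r) :
    sg (Metric.closedBall z r) ≤ ENNReal.ofReal (7 * r) := by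
  by_cases hne : ∃ t0 : ℝ, Complex.exp (t0 * Complex.I) ∈ Metric.closedBall z r
  · obtain ⟨t0, ht0⟩ := hne
    rw [gvm_sg_eq Metric.isClosed_closedBall.measurableSet (t0 - Real.pi)]
    have hsub : {t : ℝ | Complex.exp (t * Complex.I) ∈ Metric.closedBall z r} ∩
        Ioc (t0 - Real.pi) (t0 - Real.pi + 2 * Real.pi) ⊆ Icc (t0 - Real.pi * r) (t0 + Real.pi * r) := by
      rintro t ⟨ht, ht1, ht2⟩
      have h1 : ‖Complex.exp (t * Complex.I) - Complex.exp (t0 * Complex.I)‖ ≤ 2 * r := by
        have e1 : dist (Complex.exp (t * Complex.I)) z ≤ r := ht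
        have e2 : dist (Complex.exp (t0 * Complex.I)) z ≤ r := ht0
        rw [← dist_eq_norm]
        calc dist (Complex.exp (t * Complex.I)) (Complex.exp (t0 * Complex.I))
            ≤ dist (Complex.exp (t * Complex.I)) z + dist (Complex.exp (t0 * Complex.I)) z :=
              dist_triangle_right _ _ _
          _ ≤ 2 * r := by linarith
      rw [gvm_dist] at h1
      have h2 : |(t - t0) / 2| ≤ Real.pi / 2 := by
        rw [abs_le]; constructor <;> linarith
      have h3 := Real.mul_abs_le_abs_sin h2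
      have h4 : |t - t0| ≤ Real.pi * r := by
        have e1 : |(t - t0) / 2| = |t - t0| / 2 := by
          rw [abs_div]; norm_num
        rw [e1] at h3
        have hpi := Real.pi_pos
        have e2 : 2 / Real.pi * (|t - t0| / 2) ≤ r := by linarith
        have e3 : 2 / Real.pi * (|t - t0| / 2) = |t - t0| / Real.pi := by ring
        rw [e3, div_le_iff₀ hpi] at e2
        linarith
      rw [abs_le] at h4
      constructor <;> linarith
    calc volume ({t : ℝ | Complex.exp (t * Complex.I) ∈ Metric.closedBall z r} ∩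
        Ioc (t0 - Real.pi) (t0 - Real.pi + 2 * Real.pi))
        ≤ volume (Icc (t0 - Real.pi * r) (t0 + Real.pi * r)) := measure_mono hsub
      _ ≤ ENNReal.ofReal (7 * r) := by
        rw [Real.volume_Icc]
        apply ENNReal.ofReal_le_ofReal
        have := Real.pi_lt_d2
        nlinarith
  · have : sg (Metric.closedBall z r) = 0 := by
      rw [gvm_sg_eq Metric.isClosed_closedBall.measurableSet 0]
      have : {t : ℝ | Complex.exp (t * Complex.I) ∈ Metric.closedBall z r} = ∅ := by
        ext t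
        simp only [Set.mem_setOf_eq, Set.mem_empty_iff_false, iff_false]
        intro h
        exact hne ⟨t, h⟩
      rw [this, Set.empty_inter, measure_empty]
    rw [this]
    exact zero_le

theorem sg_ball_ge {z : ℂ} (hz : ‖z‖ = 1) {r : ℝ} (hr : 0 ≤ r) (hr1 : r ≤ 1) :
    ENNReal.ofReal r ≤ sg (Metric.ball z r) := by
  set t0 : ℝ := z.arg with ht0
  have hz0 : Complex.exp (t0 * Complex.I) = z := by
    have := Complex.norm_mul_exp_arg_mul_I z
    rw [hz] at this
    simpa using this
  rw [gvm_sg_eq Metric.isOpen_ball.measurableSet (t0 - Real.pi)]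
  have hsub : Ioo (t0 - r) (t0 + r) ⊆ {t : ℝ | Complex.exp (t * Complex.I) ∈ Metric.ball z r} ∩
        Ioc (t0 - Real.pi) (t0 - Real.pi + 2 * Real.pi) := by
    rintro t ⟨h1, h2⟩
    have hpi := Real.pi_gt_three
    refine ⟨?_, by linarith, by linarith⟩
    show dist (Complex.exp (t * Complex.I)) z < r
    rw [← hz0, dist_eq_norm, gvm_dist]
    have e1 : |Real.sin ((t - t0) / 2)| ≤ |(t - t0) / 2| := Real.abs_sin_le_abs
    have e2 : |(t - t0) / 2| = |t - t0| / 2 := by
      rw [abs_div]; norm_num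
    have e3 : |t - t0| < r := by
      rw [abs_lt]; constructor <;> linarith
    linarith
  calc ENNReal.ofReal r ≤ ENNReal.ofReal (t0 + r - (t0 - r)) := by
        apply ENNReal.ofReal_le_ofReal; linarith
    _ = volume (Ioo (t0 - r) (t0 + r)) := by rw [Real.volume_Ioo]
    _ ≤ _ := measure_mono hsub

instance gvm_finite : IsFiniteMeasure sg := by
  unfold sg
  infer_instance

theorem gvm_integral {E : Type*} [NormedAddCommGroup E] [NormedSpace ℝ E] {f : ℂ → E}
    (hf : AEStronglyMeasurable f sg) :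
    ∫ ζ, f ζ ∂sg = ∫ t in (-Real.pi)..Real.pi, f (Complex.exp (t * Complex.I)) := by
  rw [intervalIntegral.integral_of_le (by linarith [Real.pi_pos])]
  unfold sg
  rw [integral_map gvm_meas_exp.aemeasurable]
  exact hf

theorem gvm_norm : ∀ᵐ ζ ∂sg, ‖ζ‖ = 1 := by
  unfold sg
  rw [ae_map_iff gvm_meas_exp.aemeasurable (measurableSet_eq_fun measurable_norm measurable_const)]
  exact Filter.Eventually.of_forall fun t => Complex.norm_exp_ofReal_mul_I t

theorem gvm_orth (m n : ℕ) : ∫ ζ, ζ ^ m * (starRingEnd ℂ) (ζ ^ n) ∂sg = if m = n then 2 * (Real.pi : ℂ) else 0 := by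
  rw [gvm_integral (by
    apply Continuous.aestronglyMeasurable
    exact (continuous_pow m).mul (Complex.continuous_conj.comp (continuous_pow n)))]
  have h1 : ∀ t : ℝ, Complex.exp (t * Complex.I) ^ m * (starRingEnd ℂ) (Complex.exp (t * Complex.I) ^ n) =
      Complex.exp ((((m : ℂ) - n) * Complex.I) * t) := by
    intro t
    rw [map_pow, ← Complex.exp_conj, map_mul, Complex.conj_I, Complex.conj_ofReal, ← Complex.exp_nat_mul,
      ← Complex.exp_nat_mul, ← Complex.exp_add]
    congr 1
    ring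
  simp_rw [h1]
  split_ifs with h
  · subst h
    simp
    ring
  · have hc : ((m : ℂ) - n) * Complex.I ≠ 0 := by
      apply mul_ne_zero _ Complex.I_ne_zero
      rw [sub_ne_zero]
      exact_mod_cast h
    rw [integral_exp_mul_complex hc]
    have : Complex.exp (((m : ℂ) - n) * Complex.I * ((Real.pi : ℝ) : ℂ)) =
        Complex.exp (((m : ℂ) - n) * Complex.I * (((-Real.pi : ℝ)) : ℂ)) := by
      have e1 : ((m : ℂ) - n) * Complex.I * ((Real.pi : ℝ) : ℂ) =
          ((m : ℂ) - n) * Complex.I * (((-Real.pi : ℝ)) : ℂ) + ((m - n : ℤ) : ℂ) * (2 * Real.pi * Complex.I) := by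
        push_cast
        ring
      rw [e1, Complex.exp_add, Complex.exp_int_mul_two_pi_mul_I, mul_one]
    rw [this, sub_self, zero_div]

theorem gvm_coeff {p : PowerSeries ℂ} (hp : Summable fun n => ‖PowerSeries.coeff n p‖) (n : ℕ) :
    ∫ ζ, (starRingEnd ℂ) (ζ ^ n) * ev p ζ ∂sg = 2 * Real.pi * PowerSeries.coeff n p := by
  have hF : ∀ m, AEStronglyMeasurable (fun ζ : ℂ => PowerSeries.coeff m p * (ζ ^ m * (starRingEnd ℂ) (ζ ^ n))) sg := by
    intro m
    apply Continuous.aestronglyMeasurable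
    exact continuous_const.mul ((continuous_pow m).mul (Complex.continuous_conj.comp (continuous_pow n)))
  have hb : ∀ m, ∀ᵐ ζ ∂sg, ‖PowerSeries.coeff m p * (ζ ^ m * (starRingEnd ℂ) (ζ ^ n))‖ = ‖PowerSeries.coeff m p‖ := by
    intro m
    filter_upwards [gvm_norm] with ζ hζ
    rw [norm_mul, norm_mul, RCLike.norm_conj, norm_pow, norm_pow, hζ]
    simp
  have hInt : ∀ m, Integrable (fun ζ : ℂ => PowerSeries.coeff m p * (ζ ^ m * (starRingEnd ℂ) (ζ ^ n))) sg := by
    intro m
    apply Integrable.of_bound (hF m) ‖PowerSeries.coeff m p‖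
    filter_upwards [hb m] with ζ hζ using hζ.le
  have hsum : Summable fun m => ∫ ζ, ‖PowerSeries.coeff m p * (ζ ^ m * (starRingEnd ℂ) (ζ ^ n))‖ ∂sg := by
    have : (fun m => ∫ ζ, ‖PowerSeries.coeff m p * (ζ ^ m * (starRingEnd ℂ) (ζ ^ n))‖ ∂sg) =
        fun m => sg.real univ * ‖PowerSeries.coeff m p‖ := by
      funext m
      rw [integral_congr_ae (hb m), integral_const, smul_eq_mul]
    rw [this]
    exact hp.mul_left _
  have key := hasSum_integral_of_summable_integral_norm hInt hsum
  have e1 : ∀ m, ∫ ζ, PowerSeries.coeff m p * (ζ ^ m * (starRingEnd ℂ) (ζ ^ n)) ∂sg =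
      if m = n then 2 * Real.pi * PowerSeries.coeff n p else 0 := by
    intro m
    rw [integral_const_mul, gvm_orth]
    split_ifs with h
    · subst h; ring
    · ring
  simp_rw [e1] at key
  have key2 : HasSum (fun m => if m = n then 2 * (Real.pi : ℂ) * PowerSeries.coeff n p else 0)
      (2 * (Real.pi : ℂ) * PowerSeries.coeff n p) := hasSum_ite_eq n _
  rw [← key.unique key2]
  apply integral_congr_ae
  refine Filter.Eventually.of_forall fun ζ => ?_
  show (starRingEnd ℂ) (ζ ^ n) * ev p ζ = ∑' m, PowerSeries.coeff m p * (ζ ^ m * (starRingEnd ℂ) (ζ ^ n))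
  unfold ev
  rw [← tsum_mul_left]
  apply tsum_congr
  intro m
  ring

theorem gvm_ev_summable {p : PowerSeries ℂ} (hp : Summable fun n => ‖PowerSeries.coeff n p‖) {ζ : ℂ}
    (hζ : ‖ζ‖ = 1) : Summable fun n => PowerSeries.coeff n p * ζ ^ n := by
  apply Summable.of_norm
  have : (fun n => ‖PowerSeries.coeff n p * ζ ^ n‖) = fun n => ‖PowerSeries.coeff n p‖ := by
    funext n
    rw [norm_mul, norm_pow, hζ, one_pow, mul_one]
  rw [this]
  exact hp

theorem gvm_ev_norm {p : PowerSeries ℂ} (hp : Summable fun n => ‖PowerSeries.coeff n p‖) {ζ : ℂ}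
    (hζ : ‖ζ‖ = 1) : ‖ev p ζ‖ ≤ ∑' n, ‖PowerSeries.coeff n p‖ := by
  unfold ev
  have h1 : (fun n => ‖PowerSeries.coeff n p * ζ ^ n‖) = fun n => ‖PowerSeries.coeff n p‖ := by
    funext n
    rw [norm_mul, norm_pow, hζ, one_pow, mul_one]
  refine (norm_tsum_le_tsum_norm ?_).trans ?_
  · rw [h1]; exact hp
  · rw [h1]

theorem gvm_ev_meas {p : PowerSeries ℂ} (hp : Summable fun n => ‖PowerSeries.coeff n p‖) :
    AEStronglyMeasurable (ev p) sg := by
  have h1 := (ev_continuousOn hp).aestronglyMeasurable (μ := sg) Metric.isClosed_closedBall.measurableSet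
  have h2 : sg.restrict (Metric.closedBall (0:ℂ) 1) = sg := by
    apply Measure.restrict_eq_self_of_ae_mem
    filter_upwards [gvm_norm] with ζ hζ
    rw [mem_closedBall_zero_iff, hζ]
  rw [h2] at h1
  exact h1

theorem parseval_sub {p : PowerSeries ℂ} (hp : Summable fun n => ‖PowerSeries.coeff n p‖) :
    ∫ ζ, ‖ev p ζ‖ ^ 2 ∂sg = 2 * Real.pi * ∑' k, ‖PowerSeries.coeff k p‖ ^ 2 := by
  set M := ∑' n, ‖PowerSeries.coeff n p‖ with hM
  have hM0 : 0 ≤ M := tsum_nonneg fun _ => norm_nonneg _
  have hmeas : ∀ n, AEStronglyMeasurable (fun ζ : ℂ => (starRingEnd ℂ) (PowerSeries.coeff n p) *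
      ((starRingEnd ℂ) (ζ ^ n) * ev p ζ)) sg := by
    intro n
    have h1 : AEStronglyMeasurable (fun ζ : ℂ => (starRingEnd ℂ) (ζ ^ n)) sg :=
      (Complex.continuous_conj.comp (continuous_pow n)).aestronglyMeasurable
    exact (h1.mul (gvm_ev_meas hp)).const_mul _
  have hb : ∀ n, ∀ᵐ ζ ∂sg, ‖(starRingEnd ℂ) (PowerSeries.coeff n p) *
      ((starRingEnd ℂ) (ζ ^ n) * ev p ζ)‖ ≤ ‖PowerSeries.coeff n p‖ * M := by
    intro n
    filter_upwards [gvm_norm] with ζ hζ
    rw [norm_mul, norm_mul, RCLike.norm_conj, RCLike.norm_conj, norm_pow, hζ, one_pow, one_mul]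
    exact mul_le_mul_of_nonneg_left (gvm_ev_norm hp hζ) (norm_nonneg _)
  have hInt : ∀ n, Integrable (fun ζ : ℂ => (starRingEnd ℂ) (PowerSeries.coeff n p) *
      ((starRingEnd ℂ) (ζ ^ n) * ev p ζ)) sg := fun n => Integrable.of_bound (hmeas n) _ (hb n)
  have hsum : Summable fun n => ∫ ζ, ‖(starRingEnd ℂ) (PowerSeries.coeff n p) *
      ((starRingEnd ℂ) (ζ ^ n) * ev p ζ)‖ ∂sg := by
    apply Summable.of_nonneg_of_le (fun n => integral_nonneg fun _ => norm_nonneg _)
      (f := fun n => sg.real univ * (‖PowerSeries.coeff n p‖ * M))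
    · intro n
      calc ∫ ζ, ‖(starRingEnd ℂ) (PowerSeries.coeff n p) * ((starRingEnd ℂ) (ζ ^ n) * ev p ζ)‖ ∂sg
          ≤ ∫ ζ, ‖PowerSeries.coeff n p‖ * M ∂sg :=
            integral_mono_ae (hInt n).norm (integrable_const _) (hb n)
        _ = _ := by rw [integral_const, smul_eq_mul]
    · exact (hp.mul_right M).mul_left _
  have key := hasSum_integral_of_summable_integral_norm hInt hsum
  have e1 : ∀ n, ∫ ζ, (starRingEnd ℂ) (PowerSeries.coeff n p) * ((starRingEnd ℂ) (ζ ^ n) * ev p ζ) ∂sg =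
      ((2 * Real.pi * ‖PowerSeries.coeff n p‖ ^ 2 : ℝ) : ℂ) := by
    intro n
    rw [integral_const_mul, gvm_coeff hp]
    have := Complex.mul_conj (PowerSeries.coeff n p)
    rw [Complex.normSq_eq_norm_sq] at this
    push_cast at this ⊢
    rw [← this]
    ring
  simp_rw [e1] at key
  have e2 : ∫ ζ, ∑' n, (starRingEnd ℂ) (PowerSeries.coeff n p) * ((starRingEnd ℂ) (ζ ^ n) * ev p ζ) ∂sg =
      ((∫ ζ, ‖ev p ζ‖ ^ 2 ∂sg : ℝ) : ℂ) := by
    rw [← integral_complex_ofReal]
    apply integral_congr_ae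
    filter_upwards [gvm_norm] with ζ hζ
    have h1 : ∀ n, (starRingEnd ℂ) (PowerSeries.coeff n p) * ((starRingEnd ℂ) (ζ ^ n) * ev p ζ) =
        (starRingEnd ℂ) (PowerSeries.coeff n p * ζ ^ n) * ev p ζ := by
      intro n
      rw [map_mul]; ring
    simp_rw [h1]
    rw [tsum_mul_right, ← Complex.conj_tsum]
    have h2 := Complex.mul_conj (ev p ζ)
    rw [Complex.normSq_eq_norm_sq] at h2
    rw [← h2]
    unfold ev
    ring
  rw [e2] at key
  have key2 := Complex.hasSum_ofReal.1 key
  rw [← key2.tsum_eq, tsum_mul_left]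

theorem gvm_lim {E : Set ℂ} (hE : IsClosed E) (hE1 : ∀ z ∈ E, ‖z‖ = 1) (hE0 : sg E = 0)
    {Λ : ℂ → ℂ} (hΛ : DifferentiableOn ℂ Λ Eᶜ) {C : ℝ}
    (hC : ∀ z, ‖z‖ ≤ 2 → z ∉ E → ‖Λ z‖ ≤ C) (r : ℕ → ℝ) (hr0 : ∀ n, 0 < r n) (hr1 : ∀ n, r n ≠ 1)
    (hr2 : ∀ n, r n ≤ 2) (hr : Tendsto r atTop (𝓝 1)) :
    Tendsto (fun n => ∮ z in C(0, r n), Λ z) atTop (𝓝 (∮ z in C(0, 1), Λ z)) := by
  have hC0 : 0 ≤ C := by
    refine (norm_nonneg (Λ 0)).trans (hC 0 (by simp) ?_)
    intro h
    have := hE1 0 h
    simp at this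
  have hnE : ∀ n θ, circleMap 0 (r n) θ ∉ E := by
    intro n θ h
    have := hE1 _ h
    rw [norm_circleMap_zero, abs_of_pos (hr0 n)] at this
    exact hr1 n this
  have hcontAt : ∀ z, z ∉ E → ContinuousAt Λ z := fun z hz =>
    (hΛ.differentiableAt (hE.isOpen_compl.mem_nhds hz)).continuousAt
  simp only [circleIntegral]
  apply intervalIntegral.tendsto_integral_filter_of_dominated_convergence (fun _ => 2 * C)
  · refine Filter.Eventually.of_forall fun n => ?_
    apply Continuous.aestronglyMeasurable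
    apply Continuous.fun_smul
    · have e1 : deriv (circleMap 0 (r n)) = fun θ => circleMap 0 (r n) θ * Complex.I := by
        funext θ
        rw [deriv_circleMap]
      rw [e1]
      exact (continuous_circleMap 0 (r n)).mul continuous_const
    · rw [continuous_iff_continuousAt]
      intro θ
      exact (hcontAt _ (hnE n θ)).comp (continuous_circleMap 0 (r n)).continuousAt
  · refine Filter.Eventually.of_forall fun n => Filter.Eventually.of_forall fun θ _ => ?_
    rw [norm_smul, deriv_circleMap, norm_mul, Complex.norm_I, mul_one, norm_circleMap_zero,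
      abs_of_pos (hr0 n)]
    apply mul_le_mul (hr2 n) _ (norm_nonneg _) (by norm_num)
    apply hC _ _ (hnE n θ)
    rw [norm_circleMap_zero, abs_of_pos (hr0 n)]
    exact hr2 n
  · exact intervalIntegrable_const
  · have hae : ∀ᵐ θ : ℝ, θ ∈ Set.uIoc 0 (2 * Real.pi) → circleMap 0 1 θ ∉ E := by
      have h1 := gvm_sg_eq hE.measurableSet 0
      rw [hE0] at h1
      have h2 : {θ : ℝ | ¬ (θ ∈ Set.uIoc 0 (2 * Real.pi) → circleMap 0 1 θ ∉ E)} ⊆
          {t : ℝ | Complex.exp (t * Complex.I) ∈ E} ∩ Ioc 0 (0 + 2 * Real.pi) := by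
        intro θ hθ
        simp only [Set.mem_setOf_eq, Classical.not_imp, not_not] at hθ
        refine ⟨?_, ?_⟩
        · have := hθ.2
          simp only [circleMap, zero_add, Complex.ofReal_one, one_mul] at this
          exact this
        · rw [zero_add]
          have := hθ.1
          rwa [uIoc_of_le (by positivity)] at this
      exact measure_mono_null h2 h1.symm
    filter_upwards [hae] with θ hθ hmem
    have hθE := hθ hmem
    apply Tendsto.smul
    · simp only [deriv_circleMap]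
      apply Tendsto.mul_const
      simp only [circleMap, zero_add]
      apply Tendsto.mul_const
      exact (Complex.continuous_ofReal.tendsto 1).comp hr
    · apply (hcontAt _ hθE).tendsto.comp
      simp only [circleMap, zero_add]
      apply Tendsto.mul_const
      exact (Complex.continuous_ofReal.tendsto 1).comp hr

theorem removable_circle {E : Set ℂ} (hE : IsClosed E) (hE1 : ∀ z ∈ E, ‖z‖ = 1) (hE0 : sg E = 0)
    {Λ : ℂ → ℂ} (hΛ : DifferentiableOn ℂ Λ Eᶜ) {C : ℝ}
    (hC : ∀ z, ‖z‖ ≤ 2 → z ∉ E → ‖Λ z‖ ≤ C) : (∮ z in C(0, 2), Λ z) = 0 := by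
  have hdiff : ∀ z, z ∉ E → DifferentiableAt ℂ Λ z := fun z hz =>
    hΛ.differentiableAt (hE.isOpen_compl.mem_nhds hz)
  have hlim0 : Tendsto (fun n : ℕ => 1 / ((n : ℝ) + 1)) atTop (𝓝 0) :=
    tendsto_one_div_add_atTop_nhds_zero_nat
  have hpos : ∀ n : ℕ, 0 < 1 / ((n : ℝ) + 1) := fun n => Nat.one_div_pos_of_nat
  have hle : ∀ n : ℕ, 1 / ((n : ℝ) + 1) ≤ 1 := by
    intro n
    rw [div_le_one (by positivity)]
    have : (0 : ℝ) ≤ n := Nat.cast_nonneg n
    linarith
  have t1 := gvm_lim hE hE1 hE0 hΛ hC (fun n => 1 + 1 / ((n : ℝ) + 1)) (fun n => by have := hpos n; positivity)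
    (fun n => by have := hpos n; intro h; linarith) (fun n => by have := hle n; linarith)
    (by simpa using hlim0.const_add 1)
  have t2 := gvm_lim hE hE1 hE0 hΛ hC (fun n => 1 - (1 / ((n : ℝ) + 1)) / 2)
    (fun n => by have := hle n; linarith)
    (fun n => by have := hpos n; intro h; linarith) (fun n => by have := hpos n; linarith)
    (by simpa using (hlim0.div_const 2).const_sub 1)
  have e1 : ∀ n : ℕ, (∮ z in C(0, 1 + 1 / ((n : ℝ) + 1)), Λ z) = ∮ z in C(0, 2), Λ z := by
    intro n
    have hp := hpos n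
    have hl := hle n
    symm
    apply Complex.circleIntegral_eq_of_differentiable_on_annulus_off_countable (by linarith) (by linarith)
      Set.countable_empty
    · intro z hz
      apply (hdiff z _).continuousAt.continuousWithinAt
      intro h
      have h1 := hE1 z h
      apply hz.2
      rw [mem_ball_zero_iff, h1]
      linarith
    · intro z hz
      apply hdiff z
      intro h
      have h1 := hE1 z h
      apply hz.1.2
      rw [mem_closedBall_zero_iff, h1]
      linarith
  have e2 : ∀ n : ℕ, (∮ z in C(0, 1 - (1 / ((n : ℝ) + 1)) / 2), Λ z) = 0 := by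
    intro n
    have hp := hpos n
    have hl := hle n
    apply Complex.circleIntegral_eq_zero_of_differentiable_on_off_countable (by linarith)
      Set.countable_empty
    · intro z hz
      apply (hdiff z _).continuousAt.continuousWithinAt
      intro h
      have h1 := hE1 z h
      rw [mem_closedBall_zero_iff, h1] at hz
      linarith
    · intro z hz
      apply hdiff z
      intro h
      have h1 := hE1 z h
      have h2 := hz.1
      rw [mem_ball_zero_iff, h1] at h2
      linarith
  simp_rw [e1] at t1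
  simp_rw [e2] at t2
  have h1 := tendsto_nhds_unique t1 tendsto_const_nhds
  have h2 := tendsto_nhds_unique t2 tendsto_const_nhds
  rw [← h1, h2]

end Pool.Agent.Helper203.GV
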