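import Pool.Agent.Helper203.GV.Defs
import Pool.Agent.Helper203.GV.Misc1

open MeasureTheory Filter Topology Set

noncomputable section

namespace Pool.Agent.Helper203.GV

theorem Hf_aux_ae : ∀ᵐ ζ ∂sg, ‖ζ‖ = 1 := by
  unfold sg
  rw [ae_map_iff (by fun_prop) (measurableSet_eq_fun (by fun_prop) (by fun_prop))]
  exact Filter.Eventually.of_forall (fun t => Complex.norm_exp_ofReal_mul_I t)

/-- the outer curve -/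
def Hf_gm (θ : ℝ) (ψ : ℂ → ℝ) (ζ : ℂ) : ℂ := ((1 + 2 * θ * ψ ζ : ℝ) : ℂ) * ζ

theorem Hf_psi_nonneg {ψ : ℂ → ℝ} (hd : ∀ z, |1 - ‖z‖| ≤ ψ z) (z : ℂ) : 0 ≤ ψ z :=
  (abs_nonneg _).trans (hd z)

theorem Hf_psi_lip {ψ : ℂ → ℝ} (hL : LipschitzWith 1 ψ) (z w : ℂ) : ψ z ≤ ψ w + ‖z - w‖ := by
  have h := hL.dist_le_mul z w
  rw [Real.dist_eq, dist_eq_norm] at h
  have h2 := le_abs_self (ψ z - ψ w)
  simp only [NNReal.coe_one, one_mul] at h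
  linarith

theorem Hf_gm_norm {θ : ℝ} (hθ : 0 < θ) {ψ : ℂ → ℝ} (hd : ∀ z, |1 - ‖z‖| ≤ ψ z) {ζ : ℂ}
    (hζ : ‖ζ‖ = 1) : ‖Hf_gm θ ψ ζ‖ = 1 + 2 * θ * ψ ζ := by
  have h0 := Hf_psi_nonneg hd ζ
  unfold Hf_gm
  rw [norm_mul, hζ, mul_one, Complex.norm_real, Real.norm_eq_abs, abs_of_nonneg (by positivity)]

theorem Hf_gm_sub {θ : ℝ} (hθ : 0 < θ) {ψ : ℂ → ℝ} (hd : ∀ z, |1 - ‖z‖| ≤ ψ z) {ζ : ℂ}
    (hζ : ‖ζ‖ = 1) : ‖Hf_gm θ ψ ζ - ζ‖ = 2 * θ * ψ ζ := by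
  have h0 := Hf_psi_nonneg hd ζ
  have h1 : Hf_gm θ ψ ζ - ζ = ((2 * θ * ψ ζ : ℝ) : ℂ) * ζ := by
    unfold Hf_gm; push_cast; ring
  rw [h1, norm_mul, hζ, mul_one, Complex.norm_real, Real.norm_eq_abs, abs_of_nonneg (by positivity)]

theorem Hf_gm_cont {θ : ℝ} {ψ : ℂ → ℝ} (hL : LipschitzWith 1 ψ) : Continuous (Hf_gm θ ψ) := by
  have := hL.continuous
  unfold Hf_gm
  fun_prop

theorem Hf_gm_lower {θ : ℝ} (hθ : 0 < θ) (hθ1 : θ ≤ 1/8) {ψ : ℂ → ℝ} (hL : LipschitzWith 1 ψ)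
    (hd : ∀ z, |1 - ‖z‖| ≤ ψ z) {ζ : ℂ} (hζ : ‖ζ‖ = 1) (z : ℂ) :
    (1 + θ * ψ z - ‖z‖) / 2 ≤ ‖Hf_gm θ ψ ζ - z‖ := by
  set e := ‖Hf_gm θ ψ ζ - z‖ with he
  have h0 := Hf_psi_nonneg hd ζ
  have he0 : 0 ≤ e := norm_nonneg _
  have h1 : ψ z ≤ ψ ζ + ‖z - ζ‖ := Hf_psi_lip hL z ζ
  have h2 : ‖z - ζ‖ ≤ e + 2 * θ * ψ ζ := by
    have h3 : z - ζ = -(Hf_gm θ ψ ζ - z) + (Hf_gm θ ψ ζ - ζ) := by ring
    rw [h3]
    refine (norm_add_le _ _).trans ?_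
    rw [norm_neg, Hf_gm_sub hθ hd hζ]
  have h4 : 1 + 2 * θ * ψ ζ - e ≤ ‖z‖ := by
    have h5 := norm_sub_norm_le (Hf_gm θ ψ ζ) z
    rw [Hf_gm_norm hθ hd hζ] at h5
    linarith
  -- ψ z ≤ ψ ζ (1 + 2θ) + e
  have h6 : ψ z ≤ ψ ζ * (1 + 2 * θ) + e := by linarith
  have h7 : θ * ψ z ≤ θ * (ψ ζ * (1 + 2 * θ) + e) := mul_le_mul_of_nonneg_left h6 hθ.le
  have h8 : 0 ≤ θ * ψ ζ := by positivity
  nlinarith

theorem Hf_gm_bdd {θ : ℝ} (hθ : 0 < θ) {ψ : ℂ → ℝ} (hL : LipschitzWith 1 ψ)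
    (hd : ∀ z, |1 - ‖z‖| ≤ ψ z) {ζ : ℂ} (hζ : ‖ζ‖ = 1) :
    ‖Hf_gm θ ψ ζ‖ ≤ 1 + 2 * θ * (ψ 0 + 1) := by
  rw [Hf_gm_norm hθ hd hζ]
  have h := Hf_psi_lip hL ζ 0
  rw [sub_zero, hζ] at h
  have := mul_le_mul_of_nonneg_left h (by positivity : (0:ℝ) ≤ 2 * θ)
  linarith

theorem Hf_int {θ : ℝ} (hθ : 0 < θ) (hθ1 : θ ≤ 1/8) {ψ W : ℂ → ℝ} (hL : LipschitzWith 1 ψ)
    (hd : ∀ z, |1 - ‖z‖| ≤ ψ z) (hW : Integrable W sg) {z : ℂ} (hz : ‖z‖ < 1 + θ * ψ z) :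
    Integrable (fun ζ => (W ζ : ℂ) * (Hf_gm θ ψ ζ / (Hf_gm θ ψ ζ - z))) sg := by
  have hm : Measurable (fun ζ => Hf_gm θ ψ ζ / (Hf_gm θ ψ ζ - z)) := by
    have := (Hf_gm_cont (θ := θ) hL).measurable
    fun_prop
  refine Integrable.mul_bdd (c := (1 + 2 * θ * (ψ 0 + 1)) / ((1 + θ * ψ z - ‖z‖) / 2))
    hW.ofReal hm.aestronglyMeasurable ?_
  filter_upwards [Hf_aux_ae] with ζ hζ
  rw [norm_div]
  have h1 := Hf_gm_bdd hθ hL hd hζ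
  have h2 := Hf_gm_lower hθ hθ1 hL hd hζ z
  have h3 : 0 < (1 + θ * ψ z - ‖z‖) / 2 := by linarith
  have h4 := (norm_nonneg _).trans h1
  exact div_le_div₀ h4 h1 h3 h2

theorem Hf_diff {θ : ℝ} (hθ : 0 < θ) (hθ1 : θ ≤ 1/8) {ψ W : ℂ → ℝ} (hL : LipschitzWith 1 ψ)
    (hd : ∀ z, |1 - ‖z‖| ≤ ψ z) (hW : Integrable W sg) :
    DifferentiableOn ℂ (Hf θ ψ W) {z | ‖z‖ < 1 + θ * ψ z} := by
  intro z0 hz0
  have hψc := hL.continuous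
  have hz0' : ‖z0‖ < 1 + θ * ψ z0 := hz0
  set d := (1 + θ * ψ z0 - ‖z0‖) / 2 with hdd
  have hdpos : 0 < d := by rw [hdd]; linarith
  -- neighbourhood
  have hcont : Continuous (fun z => 1 + θ * ψ z - ‖z‖) := by fun_prop
  have hs : {z | d < 1 + θ * ψ z - ‖z‖} ∈ 𝓝 z0 := by
    refine (isOpen_lt continuous_const hcont).mem_nhds ?_
    show d < 1 + θ * ψ z0 - ‖z0‖
    linarith
  have hgm := (Hf_gm_cont (θ := θ) hL).measurable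
  have key := hasDerivAt_integral_of_dominated_loc_of_deriv_le (μ := sg) (𝕜 := ℂ)
    (F := fun z ζ => (W ζ : ℂ) * (Hf_gm θ ψ ζ / (Hf_gm θ ψ ζ - z)))
    (F' := fun z ζ => (W ζ : ℂ) * (Hf_gm θ ψ ζ / (Hf_gm θ ψ ζ - z) ^ 2))
    (bound := fun ζ => |W ζ| * ((1 + 2 * θ * (ψ 0 + 1)) / (d / 2) ^ 2)) (x₀ := z0) hs
    ?_ ?_ ?_ ?_ ?_ ?_
  · have h1 := key.2.differentiableAt.differentiableWithinAt (s := {z | ‖z‖ < 1 + θ * ψ z})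
    exact h1
  · refine Filter.Eventually.of_forall (fun z => ?_)
    refine hW.ofReal.aestronglyMeasurable.mul ?_
    have : Measurable (fun ζ => Hf_gm θ ψ ζ / (Hf_gm θ ψ ζ - z)) := by fun_prop
    exact this.aestronglyMeasurable
  · exact Hf_int hθ hθ1 hL hd hW hz0'
  · refine hW.ofReal.aestronglyMeasurable.mul ?_
    have : Measurable (fun ζ => Hf_gm θ ψ ζ / (Hf_gm θ ψ ζ - z0) ^ 2) := by fun_prop
    exact this.aestronglyMeasurable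
  · filter_upwards [Hf_aux_ae] with ζ hζ z hz
    have hz' : d < 1 + θ * ψ z - ‖z‖ := hz
    rw [norm_mul, norm_div, norm_pow, Complex.norm_real, Real.norm_eq_abs]
    refine mul_le_mul_of_nonneg_left ?_ (abs_nonneg _)
    have h1 := Hf_gm_bdd hθ hL hd hζ
    have h2 := Hf_gm_lower hθ hθ1 hL hd hζ z
    have h4 := (norm_nonneg _).trans h1
    have h5 : d / 2 ≤ ‖Hf_gm θ ψ ζ - z‖ := by linarith
    refine div_le_div₀ h4 h1 (by positivity) ?_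
    exact pow_le_pow_left₀ (by positivity) h5 2
  · exact hW.abs.mul_const _
  · filter_upwards [Hf_aux_ae] with ζ hζ z hz
    have hz' : d < 1 + θ * ψ z - ‖z‖ := hz
    have h2 := Hf_gm_lower hθ hθ1 hL hd hζ z
    have hne : Hf_gm θ ψ ζ - z ≠ 0 := by
      intro h0
      rw [h0, norm_zero] at h2
      linarith
    have h3 : HasDerivAt (fun z => Hf_gm θ ψ ζ - z) (-1) z :=
      (hasDerivAt_id z).const_sub (Hf_gm θ ψ ζ)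
    have h4 := ((hasDerivAt_const z (Hf_gm θ ψ ζ)).div h3 hne).const_mul (W ζ : ℂ)
    refine h4.congr_deriv ?_
    ring

theorem Hf_re {θ : ℝ} (hθ : 0 < θ) (hθ1 : θ ≤ 1/8) {ψ W : ℂ → ℝ} (hL : LipschitzWith 1 ψ)
    (hd : ∀ z, |1 - ‖z‖| ≤ ψ z) (hW : Integrable W sg) {z : ℂ} (hz : ‖z‖ < 1 + θ * ψ z) :
    Integrable (fun ζ => W ζ * (Hf_gm θ ψ ζ / (Hf_gm θ ψ ζ - z)).re) sg ∧
    (Hf θ ψ W z).re = ∫ ζ, W ζ * (Hf_gm θ ψ ζ / (Hf_gm θ ψ ζ - z)).re ∂sg := by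
  have hI := Hf_int hθ hθ1 hL hd hW hz
  have h1 := Complex.reCLM.integral_comp_comm hI
  have h2 := Complex.reCLM.integrable_comp hI
  simp only [Complex.reCLM_apply, Complex.re_ofReal_mul] at h1 h2
  exact ⟨h2, h1.symm⟩

theorem Hf_re_formula (w z : ℂ) (h : w - z ≠ 0) :
    (w / (w - z)).re = 1 / 2 + (‖w‖ ^ 2 - ‖z‖ ^ 2) / (2 * ‖w - z‖ ^ 2) := by
  have h0 : Complex.normSq (w - z) ≠ 0 := by
    intro h'; exact h (Complex.normSq_eq_zero.mp h')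
  rw [Complex.div_re, ← Complex.normSq_eq_norm_sq, ← Complex.normSq_eq_norm_sq,
    ← Complex.normSq_eq_norm_sq]
  field_simp
  simp only [Complex.normSq_apply, Complex.sub_re, Complex.sub_im]
  ring

theorem Hf_near (θ ψz ψζ w z r D : ℝ) (hθ : 0 < θ) (hθ1 : θ ≤ 1/8) (hψz : 0 < ψz)
    (hr : 0 ≤ r) (hr1 : r < ψz / 2) (h1 : ψz ≤ ψζ + r) (h2 : ψζ ≤ ψz + r) (hz0 : 0 ≤ z)
    (hz : z ≤ 1 + θ * ψz / 2) (hw : w = 1 + 2 * θ * ψζ) (hD : 0 < D) (hD1 : D ≤ r + 2 * θ * ψζ) :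
    1 / 36 * ((θ * ψz) / (r + θ * ψz) ^ 2) ≤ 1 / 2 + (w ^ 2 - z ^ 2) / (2 * D ^ 2) := by
  have e1 : 1 + θ * ψz ≤ w := by rw [hw]; nlinarith
  have e2 : θ * ψz / 2 ≤ w - z := by linarith
  have hp : 0 < θ * ψz := by positivity
  have e3 : θ * ψz / 2 ≤ w ^ 2 - z ^ 2 := by nlinarith
  have e4 : D ≤ 3 * (r + θ * ψz) := by nlinarith
  have e5 : D ^ 2 ≤ 9 * (r + θ * ψz) ^ 2 := by nlinarith
  have e6 : (θ * ψz / 2) / (2 * (9 * (r + θ * ψz) ^ 2)) ≤ (w ^ 2 - z ^ 2) / (2 * D ^ 2) := by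
    refine div_le_div₀ (by linarith) e3 (by positivity) (by linarith)
  have e7 : 1 / 36 * ((θ * ψz) / (r + θ * ψz) ^ 2) = (θ * ψz / 2) / (2 * (9 * (r + θ * ψz) ^ 2)) := by
    have : 0 < r + θ * ψz := by positivity
    field_simp
    ring
  rw [e7]; linarith

theorem Hf_far (θ ψz ψζ w z r D : ℝ) (hθ : 0 < θ) (hθ1 : θ ≤ 1/8) (hψz : 0 < ψz) (hψζ : 0 ≤ ψζ)
    (hψζ1 : ψζ ≤ 1) (hr1 : ψz / 2 ≤ r) (h1 : ψz ≤ ψζ + r) (hrz : r ≤ 1 + z) (hz0 : 0 ≤ z)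
    (hz : z ≤ 1 + θ * ψz / 2) (hw : w = 1 + 2 * θ * ψζ) (hD : 0 < D) (hD1 : r - 2 * θ * ψζ ≤ D) :
    -(1 * ((θ * ψz) / r ^ 2)) ≤ 1 / 2 + (w ^ 2 - z ^ 2) / (2 * D ^ 2) := by
  have hr0 : 0 < r := by linarith
  have hp : 0 < θ * ψz := by positivity
  by_cases hc : z ≤ w
  · have h3 : 0 ≤ (w ^ 2 - z ^ 2) / (2 * D ^ 2) := by
      apply div_nonneg _ (by positivity)
      nlinarith
    have h4 : 0 ≤ (θ * ψz) / r ^ 2 := by positivity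
    linarith
  · push Not at hc
    have e0 : 1 ≤ w := by rw [hw]; nlinarith [mul_nonneg hθ.le hψζ]
    have e1 : 2 * θ * ψζ < θ * ψz / 2 := by rw [hw] at hc; linarith
    have e11 : θ * ψz ≤ 1 / 8 * ψz := mul_le_mul_of_nonneg_right hθ1 hψz.le
    have e2 : θ * ψz / 2 ≤ r / 8 := by linarith
    have e3 : 7 / 8 * r ≤ D := by linarith
    have e4 : ψz ≤ 2 + z := by linarith
    have e5 : z ≤ 6 / 5 := by linarith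
    have e6 : z ^ 2 - w ^ 2 ≤ (θ * ψz / 2) * (12 / 5) := by
      have e12 : (z - w) * (z + w) ≤ (θ * ψz / 2) * (12 / 5) :=
        mul_le_mul (by linarith) (by linarith) (by linarith) (by positivity)
      linarith [e12, (by ring : (z - w) * (z + w) = z ^ 2 - w ^ 2)]
    have e7 : (7 / 8 * r) ^ 2 ≤ D ^ 2 := pow_le_pow_left₀ (by positivity) e3 2
    have e8 : (z ^ 2 - w ^ 2) / (2 * D ^ 2) ≤ ((θ * ψz / 2) * (12 / 5)) / (2 * (7 / 8 * r) ^ 2) := by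
      refine div_le_div₀ (by positivity) e6 (by positivity) (by linarith)
    have e9 : ((θ * ψz / 2) * (12 / 5)) / (2 * (7 / 8 * r) ^ 2) ≤ 1 * ((θ * ψz) / r ^ 2) := by
      have : ((θ * ψz / 2) * (12 / 5)) / (2 * (7 / 8 * r) ^ 2) = (192 / 245) * ((θ * ψz) / r ^ 2) := by
        field_simp
        ring
      rw [this]
      have h4 : 0 ≤ (θ * ψz) / r ^ 2 := by positivity
      linarith
    have e10 : (w ^ 2 - z ^ 2) / (2 * D ^ 2) = - ((z ^ 2 - w ^ 2) / (2 * D ^ 2)) := by ring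
    rw [e10]; linarith

theorem Hf_lower : ∃ c0 C0 : ℝ, 0 < c0 ∧ 0 < C0 ∧ ∀ {θ : ℝ}, 0 < θ → θ ≤ 1/8 →
    ∀ {ψ W : ℂ → ℝ}, LipschitzWith 1 ψ → (∀ z, |1 - ‖z‖| ≤ ψ z) → (∀ z, ‖z‖ = 1 → ψ z ≤ 1) →
    Integrable W sg → (∀ z, 0 ≤ W z) → ∀ z : ℂ, 0 < ψ z → ‖z‖ ≤ 1 + θ * ψ z / 2 →
    c0 * (∫ ζ in {ζ | ‖ζ - z‖ < ψ z / 2}, W ζ * ((θ * ψ z) / (‖ζ - z‖ + θ * ψ z) ^ 2) ∂sg) -
      C0 * (∫ ζ in {ζ | ψ z / 2 ≤ ‖ζ - z‖}, W ζ * ((θ * ψ z) / ‖ζ - z‖ ^ 2) ∂sg) ≤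
        (Hf θ ψ W z).re := by
  refine ⟨1 / 36, 1, by norm_num, by norm_num, ?_⟩
  intro θ hθ hθ1 ψ W hL hd hψ1 hW hW0 z hψz hz
  have hp : 0 < θ * ψ z := by positivity
  have hz' : ‖z‖ < 1 + θ * ψ z := by linarith
  obtain ⟨hint, hre⟩ := Hf_re hθ hθ1 hL hd hW hz'
  rw [hre]
  have hmA : MeasurableSet {ζ : ℂ | ‖ζ - z‖ < ψ z / 2} := by
    refine measurableSet_lt ?_ ?_ <;> fun_prop
  have hcompl : {ζ : ℂ | ψ z / 2 ≤ ‖ζ - z‖} = {ζ : ℂ | ‖ζ - z‖ < ψ z / 2}ᶜ := by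
    ext ζ; simp
  have hmB : MeasurableSet {ζ : ℂ | ψ z / 2 ≤ ‖ζ - z‖} := by
    rw [hcompl]; exact hmA.compl
  rw [← integral_add_compl hmA hint, ← hcompl]
  have hfact : ∀ ζ : ℂ, ‖ζ‖ = 1 → 0 < ‖Hf_gm θ ψ ζ - z‖ := by
    intro ζ hζ
    have h2 := Hf_gm_lower hθ hθ1 hL hd hζ z
    linarith
  -- near part
  have hnear : 1 / 36 * (∫ ζ in {ζ | ‖ζ - z‖ < ψ z / 2}, W ζ * ((θ * ψ z) / (‖ζ - z‖ + θ * ψ z) ^ 2) ∂sg) ≤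
      ∫ ζ in {ζ | ‖ζ - z‖ < ψ z / 2}, W ζ * (Hf_gm θ ψ ζ / (Hf_gm θ ψ ζ - z)).re ∂sg := by
    rw [← integral_const_mul]
    have hI1 : Integrable (fun ζ => W ζ * ((θ * ψ z) / (‖ζ - z‖ + θ * ψ z) ^ 2)) sg := by
      refine Integrable.mul_bdd (c := (θ * ψ z) / (θ * ψ z) ^ 2) hW ?_ ?_
      · have : Measurable (fun ζ : ℂ => (θ * ψ z) / (‖ζ - z‖ + θ * ψ z) ^ 2) := by fun_prop
        exact this.aestronglyMeasurable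
      · refine Filter.Eventually.of_forall (fun ζ => ?_)
        rw [Real.norm_eq_abs, abs_of_nonneg (by positivity)]
        refine div_le_div_of_nonneg_left hp.le (by positivity) ?_
        exact pow_le_pow_left₀ hp.le (by linarith [norm_nonneg (ζ - z)]) 2
    refine integral_mono_ae (hI1.integrableOn.const_mul _) hint.integrableOn ?_
    filter_upwards [ae_restrict_of_ae Hf_aux_ae, ae_restrict_mem hmA] with ζ hζ hζA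
    have hζA' : ‖ζ - z‖ < ψ z / 2 := hζA
    have hD := hfact ζ hζ
    have hne : Hf_gm θ ψ ζ - z ≠ 0 := norm_pos_iff.mp hD
    rw [Hf_re_formula _ _ hne]
    have hkey := Hf_near θ (ψ z) (ψ ζ) ‖Hf_gm θ ψ ζ‖ ‖z‖ ‖ζ - z‖ ‖Hf_gm θ ψ ζ - z‖ hθ hθ1 hψz
      (norm_nonneg _) hζA' (by rw [norm_sub_rev]; exact Hf_psi_lip hL z ζ) (Hf_psi_lip hL ζ z)
      (norm_nonneg _) hz (Hf_gm_norm hθ hd hζ) hD (by
        have h3 : Hf_gm θ ψ ζ - z = (ζ - z) + (Hf_gm θ ψ ζ - ζ) := by ring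
        rw [h3, ← Hf_gm_sub hθ hd hζ]
        exact norm_add_le _ _)
    have := mul_le_mul_of_nonneg_left hkey (hW0 ζ)
    calc _ = W ζ * (1 / 36 * (θ * ψ z / (‖ζ - z‖ + θ * ψ z) ^ 2)) := by ring
      _ ≤ _ := this
  have hfar : - (1 * (∫ ζ in {ζ | ψ z / 2 ≤ ‖ζ - z‖}, W ζ * ((θ * ψ z) / ‖ζ - z‖ ^ 2) ∂sg)) ≤
      ∫ ζ in {ζ | ψ z / 2 ≤ ‖ζ - z‖}, W ζ * (Hf_gm θ ψ ζ / (Hf_gm θ ψ ζ - z)).re ∂sg := by
    rw [one_mul, ← integral_neg]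
    have hI1 : IntegrableOn (fun ζ => W ζ * ((θ * ψ z) / ‖ζ - z‖ ^ 2)) {ζ | ψ z / 2 ≤ ‖ζ - z‖} sg := by
      refine Integrable.mul_bdd (c := (θ * ψ z) / (ψ z / 2) ^ 2) hW.integrableOn ?_ ?_
      · have : Measurable (fun ζ : ℂ => (θ * ψ z) / ‖ζ - z‖ ^ 2) := by fun_prop
        exact this.aestronglyMeasurable
      · filter_upwards [ae_restrict_mem hmB] with ζ hζB
        have hζB' : ψ z / 2 ≤ ‖ζ - z‖ := hζB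
        rw [Real.norm_eq_abs, abs_of_nonneg (by positivity)]
        refine div_le_div_of_nonneg_left hp.le (by positivity) ?_
        exact pow_le_pow_left₀ (by positivity) hζB' 2
    refine integral_mono_ae hI1.neg hint.integrableOn ?_
    filter_upwards [ae_restrict_of_ae Hf_aux_ae, ae_restrict_mem hmB] with ζ hζ hζB
    have hζB' : ψ z / 2 ≤ ‖ζ - z‖ := hζB
    have hD := hfact ζ hζ
    have hne : Hf_gm θ ψ ζ - z ≠ 0 := norm_pos_iff.mp hD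
    rw [Hf_re_formula _ _ hne]
    have hkey := Hf_far θ (ψ z) (ψ ζ) ‖Hf_gm θ ψ ζ‖ ‖z‖ ‖ζ - z‖ ‖Hf_gm θ ψ ζ - z‖ hθ hθ1 hψz
      (Hf_psi_nonneg hd ζ) (hψ1 ζ hζ) hζB' (by rw [norm_sub_rev]; exact Hf_psi_lip hL z ζ)
      (by
        have := norm_sub_le ζ z
        rw [hζ] at this; exact this)
      (norm_nonneg _) hz (Hf_gm_norm hθ hd hζ) hD (by
        have h3 : ζ - z = (Hf_gm θ ψ ζ - z) - (Hf_gm θ ψ ζ - ζ) := by ring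
        have h4 := norm_sub_le (Hf_gm θ ψ ζ - z) (Hf_gm θ ψ ζ - ζ)
        rw [← h3, Hf_gm_sub hθ hd hζ] at h4
        linarith)
    have := mul_le_mul_of_nonneg_left hkey (hW0 ζ)
    calc _ = W ζ * -(1 * (θ * ψ z / ‖ζ - z‖ ^ 2)) := by ring
      _ ≤ _ := this
  linarith

theorem Hf_disc {M : ℝ} (hM : 0 < M) : ∃ c : ℝ, 0 < c ∧ ∀ {θ : ℝ}, 0 < θ → θ ≤ 1/8 →
    ∀ {ψ W : ℂ → ℝ}, LipschitzWith 1 ψ → (∀ z, |1 - ‖z‖| ≤ ψ z) →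
    Integrable W sg → (∀ z, 0 ≤ W z) → ∀ z : ℂ, ‖z‖ < 1 → θ * ψ z ≤ M * (1 - ‖z‖) →
    c * (∫ ζ, W ζ * ((1 - ‖z‖ ^ 2) / ‖ζ - z‖ ^ 2) ∂sg) ≤ (Hf θ ψ W z).re := by
  refine ⟨1 / (2 * (2 + 2 * M) ^ 2), by positivity, ?_⟩
  intro θ hθ hθ1 ψ W hL hd hW hW0 z hz1 hzM
  have hψz := Hf_psi_nonneg hd z
  have hz' : ‖z‖ < 1 + θ * ψ z := by nlinarith [mul_nonneg hθ.le hψz]
  obtain ⟨hint, hre⟩ := Hf_re hθ hθ1 hL hd hW hz'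
  rw [hre, ← integral_const_mul]
  have h1z : 0 ≤ 1 - ‖z‖ ^ 2 := by nlinarith [norm_nonneg z]
  have hdist : ∀ ζ : ℂ, ‖ζ‖ = 1 → 1 - ‖z‖ ≤ ‖ζ - z‖ := by
    intro ζ hζ
    have := norm_sub_norm_le ζ z
    rw [hζ] at this; exact this
  have hI1 : Integrable (fun ζ => W ζ * ((1 - ‖z‖ ^ 2) / ‖ζ - z‖ ^ 2)) sg := by
    refine Integrable.mul_bdd (c := (1 - ‖z‖ ^ 2) / (1 - ‖z‖) ^ 2) hW ?_ ?_
    · have : Measurable (fun ζ : ℂ => (1 - ‖z‖ ^ 2) / ‖ζ - z‖ ^ 2) := by fun_prop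
      exact this.aestronglyMeasurable
    · filter_upwards [Hf_aux_ae] with ζ hζ
      rw [Real.norm_eq_abs, abs_of_nonneg (by positivity)]
      have h2 : 0 < 1 - ‖z‖ := by linarith
      refine div_le_div_of_nonneg_left h1z (by positivity) ?_
      exact pow_le_pow_left₀ h2.le (hdist ζ hζ) 2
  refine integral_mono_ae (hI1.const_mul _) hint ?_
  filter_upwards [Hf_aux_ae] with ζ hζ
  have hD : 0 < ‖Hf_gm θ ψ ζ - z‖ := by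
    have h2 := Hf_gm_lower hθ hθ1 hL hd hζ z
    linarith
  have hne : Hf_gm θ ψ ζ - z ≠ 0 := norm_pos_iff.mp hD
  rw [Hf_re_formula _ _ hne]
  have hr := hdist ζ hζ
  have hr0 : 0 < ‖ζ - z‖ := by linarith
  have hψζ : ψ ζ ≤ ψ z + ‖ζ - z‖ := Hf_psi_lip hL ζ z
  have hD1 : ‖Hf_gm θ ψ ζ - z‖ ≤ ‖ζ - z‖ + 2 * θ * ψ ζ := by
    have h3 : Hf_gm θ ψ ζ - z = (ζ - z) + (Hf_gm θ ψ ζ - ζ) := by ring
    rw [h3, ← Hf_gm_sub hθ hd hζ]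
    exact norm_add_le _ _
  have hD2 : ‖Hf_gm θ ψ ζ - z‖ ≤ (2 + 2 * M) * ‖ζ - z‖ := by
    have e1 : 2 * θ * ψ ζ ≤ 2 * θ * (ψ z + ‖ζ - z‖) := mul_le_mul_of_nonneg_left hψζ (by positivity)
    have e2 : M * (1 - ‖z‖) ≤ M * ‖ζ - z‖ := mul_le_mul_of_nonneg_left hr hM.le
    nlinarith
  have hD3 : ‖Hf_gm θ ψ ζ - z‖ ^ 2 ≤ (2 + 2 * M) ^ 2 * ‖ζ - z‖ ^ 2 := by
    rw [← mul_pow]
    exact pow_le_pow_left₀ hD.le hD2 2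
  have hw : 1 ≤ ‖Hf_gm θ ψ ζ‖ := by
    rw [Hf_gm_norm hθ hd hζ]
    have := Hf_psi_nonneg hd ζ
    nlinarith [mul_nonneg hθ.le this]
  have hw2 : 1 - ‖z‖ ^ 2 ≤ ‖Hf_gm θ ψ ζ‖ ^ 2 - ‖z‖ ^ 2 := by nlinarith
  have hkey : 1 / (2 * (2 + 2 * M) ^ 2) * ((1 - ‖z‖ ^ 2) / ‖ζ - z‖ ^ 2) ≤
      1 / 2 + (‖Hf_gm θ ψ ζ‖ ^ 2 - ‖z‖ ^ 2) / (2 * ‖Hf_gm θ ψ ζ - z‖ ^ 2) := by
    have e1 : 1 / (2 * (2 + 2 * M) ^ 2) * ((1 - ‖z‖ ^ 2) / ‖ζ - z‖ ^ 2) =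
        (1 - ‖z‖ ^ 2) / (2 * ((2 + 2 * M) ^ 2 * ‖ζ - z‖ ^ 2)) := by
      field_simp
    have e2 : (1 - ‖z‖ ^ 2) / (2 * ((2 + 2 * M) ^ 2 * ‖ζ - z‖ ^ 2)) ≤
        (‖Hf_gm θ ψ ζ‖ ^ 2 - ‖z‖ ^ 2) / (2 * ‖Hf_gm θ ψ ζ - z‖ ^ 2) := by
      refine div_le_div₀ (by linarith) hw2 (by positivity) (by linarith)
    rw [e1]; linarith
  have := mul_le_mul_of_nonneg_left hkey (hW0 ζ)
  calc _ = W ζ * (1 / (2 * (2 + 2 * M) ^ 2) * ((1 - ‖z‖ ^ 2) / ‖ζ - z‖ ^ 2)) := by ring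
    _ ≤ _ := this

end Pool.Agent.Helper203.GV
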