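import Pool.Agent.Helper203.GV.Defs
import Pool.Agent.Helper203.GV.HfM
import Pool.Agent.Helper203.GV.Misc1

open MeasureTheory Filter Topology Set

noncomputable section

namespace Pool.Agent.Helper203.GV

instance isFin_sg : IsFiniteMeasure sg := by
  unfold sg; infer_instance

theorem ae_norm_sg : ∀ᵐ ζ ∂sg, ‖ζ‖ = 1 := by
  unfold sg
  rw [ae_map_iff (by fun_prop) (measurableSet_eq_fun (by fun_prop) (by fun_prop))]
  exact Filter.Eventually.of_forall fun t => Complex.norm_exp_ofReal_mul_I t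

theorem low_int {f : ℂ → ℝ} {S : Set ℂ} (hS : MeasurableSet S) (hf : IntegrableOn f S sg)
    (hf0 : ∀ ζ, 0 ≤ f ζ) {zs : ℂ} (hzs : ‖zs‖ = 1) {r : ℝ} (hr : 0 ≤ r) (hr1 : r ≤ 1) {m : ℝ}
    (hm : 0 ≤ m) (h : ∀ᵐ ζ ∂sg, ‖ζ - zs‖ < r → ζ ∈ S ∧ m ≤ f ζ) :
    m * r ≤ ∫ ζ in S, f ζ ∂sg := by
  have h1 : r ≤ sg.real (Metric.ball zs r) := by
    have h2 := sg_ball_ge hzs hr hr1
    have h3 : sg (Metric.ball zs r) ≠ ⊤ := measure_ne_top _ _
    have h4 := ENNReal.toReal_mono h3 h2
    rwa [ENNReal.toReal_ofReal hr] at h4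
  calc m * r ≤ m * sg.real (Metric.ball zs r) := by gcongr
    _ = ∫ ζ, (Metric.ball zs r).indicator (fun _ => m) ζ ∂sg := by
        rw [integral_indicator_const _ Metric.isOpen_ball.measurableSet, smul_eq_mul, mul_comm]
    _ ≤ ∫ ζ, S.indicator f ζ ∂sg := by
        apply integral_mono_ae
        · exact (integrable_const m).indicator Metric.isOpen_ball.measurableSet
        · exact (integrable_indicator_iff hS).2 hf
        · filter_upwards [h] with ζ hζ
          by_cases hb : ζ ∈ Metric.ball zs r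
          · have hb' : ‖ζ - zs‖ < r := by simpa [dist_eq_norm] using hb
            obtain ⟨h4, h5⟩ := hζ hb'
            rw [indicator_of_mem hb, indicator_of_mem h4]; exact h5
          · rw [indicator_of_notMem hb]
            exact indicator_nonneg (fun x _ => hf0 x) ζ
    _ = ∫ ζ in S, f ζ ∂sg := integral_indicator hS

theorem exists_proj (z : ℂ) : ∃ zs : ℂ, ‖zs‖ = 1 ∧ ‖z - zs‖ = |1 - ‖z‖| := by
  by_cases hz : z = 0
  · refine ⟨1, by simp, by simp [hz]⟩
  · have hz' : (0:ℝ) < ‖z‖ := norm_pos_iff.2 hz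
    refine ⟨z / (‖z‖ : ℂ), ?_, ?_⟩
    · rw [norm_div]; simp [hz]
    · have : z - z / (‖z‖ : ℂ) = (((‖z‖ - 1) / ‖z‖ : ℝ) : ℂ) * z := by
        have h2 : (‖z‖ : ℂ) ≠ 0 := by exact_mod_cast hz'.ne'
        push_cast
        field_simp
      rw [this, norm_mul, Complex.norm_real, Real.norm_eq_abs, abs_div, abs_of_pos hz']
      rw [div_mul_cancel₀ _ hz'.ne', abs_sub_comm]

theorem fk_lip_le {φ : ℂ → ℝ} (hL : LipschitzWith 1 φ) (x y : ℂ) : φ x ≤ φ y + ‖x - y‖ := by
  have := hL.dist_le_mul x y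
  rw [Real.dist_eq, dist_eq_norm] at this
  simp only [NNReal.coe_one, one_mul] at this
  linarith [le_abs_self (φ x - φ y)]

theorem first_kernel {α : ℝ} (h0 : 0 < α) {φ W ψ : ℂ → ℝ} (hL : LipschitzWith 1 φ)
    (hd : ∀ z, |1 - ‖z‖| ≤ φ z) (hφ1 : ∀ z, ‖z‖ = 1 → φ z ≤ 1)
    (hE : sg {z | φ z = 0} = 0)
    (hWm : Measurable W) (hW0 : ∀ z, 0 ≤ W z) (hW : Integrable W sg)
    (hLψ : LipschitzWith 1 ψ) (hdψ : ∀ z, |1 - ‖z‖| ≤ ψ z)
    (hK : ∃ K : ℝ, 0 < K ∧ ∀ z, ‖z‖ = 1 → 0 < φ z →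
        (∀ z', ‖z'‖ = 1 → ‖z - z'‖ ≤ φ z / 2 → W z' ≤ K * W z) ∧
        (φ z) ^ (-α) ≤ W z ∧ (ψ z) ^ (-α) ≤ K * W z ∧ W z ≤ K * (ψ z) ^ (-α) ∧
        ∫ ζ, W ζ / (‖z - ζ‖ + φ z + φ ζ) ^ 2 ∂sg ≤ K * (W z / φ z)) :
    ∃ θ c : ℝ, 0 < θ ∧ θ ≤ 1/8 ∧ 0 < c ∧ ∀ z : ℂ, 0 < φ z → ‖z‖ ≤ 1 + θ * φ z / 2 →
      c * (ψ z) ^ (-α) ≤ (Hf θ φ W z).re := by
  obtain ⟨K₀, hK₀, hK⟩ := hK
  obtain ⟨c0, C0, hc0, hC0, hlow⟩ := Hf_lower
  obtain ⟨c1, hc1, hdisc2⟩ := Hf_disc (M := 2) (by norm_num)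
  obtain ⟨c2, hc2, hdisc1⟩ := Hf_disc (M := 1) (by norm_num)
  set K := max K₀ 1 with hKdef
  have hK1 : 1 ≤ K := le_max_right _ _
  have hKK : K₀ ≤ K := le_max_left _ _
  have hKpos : 0 < K := by linarith
  have hφ0 : ∀ z, 0 ≤ φ z := fun z => (abs_nonneg _).trans (hd z)
  have hψ0 : ∀ z, 0 ≤ ψ z := fun z => (abs_nonneg _).trans (hdψ z)
  have hφc : Continuous φ := hL.continuous
  have hE' : ∀ᵐ ζ ∂sg, 0 < φ ζ := by
    have : ∀ᵐ ζ ∂sg, φ ζ ≠ 0 := by
      rw [ae_iff]; simpa using hE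
    filter_upwards [this] with ζ hζ using lt_of_le_of_ne (hφ0 ζ) (Ne.symm hζ)
  set θ : ℝ := min (1/8) (c0 / (1008 * C0 * K ^ 2)) with hθdef
  have hθpos : 0 < θ := by positivity
  have hθ8 : θ ≤ 1/8 := min_le_left _ _
  have hθK : θ ≤ c0 / (1008 * C0 * K ^ 2) := min_le_right _ _
  have hθK' : C0 * (56 * θ * K) ≤ c0 / (18 * K) := by
    rw [le_div_iff₀ (by positivity)]
    rw [le_div_iff₀ (by positivity)] at hθK
    nlinarith
  -- lower bound in terms of W zs
  have hWψ : ∀ z zs : ℂ, ‖zs‖ = 1 → ‖z - zs‖ = |1 - ‖z‖| → 0 < φ zs →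
      0 < ψ z ∧ (2:ℝ) ^ (-α) * (ψ z) ^ (-α) / K ≤ W zs := by
    intro z zs hzs hzz hφzs
    obtain ⟨-, h2, h3, h4, -⟩ := hK zs hzs hφzs
    have h5 : 0 < ψ zs := by
      rcases (hψ0 zs).lt_or_eq with h | h
      · exact h
      · exfalso
        rw [← h, Real.zero_rpow (by linarith)] at h4
        have := Real.rpow_pos_of_pos hφzs (-α)
        linarith
    have h6 : ψ zs ≤ 2 * ψ z := by
      have := fk_lip_le hLψ zs z
      rw [norm_sub_rev, hzz] at this
      linarith [hdψ z]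
    have h7 : 0 < ψ z := by linarith
    refine ⟨h7, ?_⟩
    rw [div_le_iff₀ hKpos, ← Real.mul_rpow (by norm_num) h7.le]
    calc (2 * ψ z) ^ (-α) ≤ (ψ zs) ^ (-α) :=
          Real.rpow_le_rpow_of_nonpos h5 h6 (by linarith)
      _ ≤ K₀ * W zs := h3
      _ ≤ W zs * K := by rw [mul_comm]; exact mul_le_mul_of_nonneg_left hKK (hW0 zs)
  refine ⟨θ, min (c1 * (18:ℝ) ^ (-α) / 4) (min (c0 / (18 * K) * ((2:ℝ) ^ (-α) / K))
    (c2 / (4 * K) * ((2:ℝ) ^ (-α) / K))), hθpos, hθ8, by positivity, ?_⟩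
  intro z hz hzn
  have hψp : 0 ≤ (ψ z) ^ (-α) := Real.rpow_nonneg (hψ0 z) _
  obtain ⟨zs, hzs, hzz⟩ := exists_proj z
  set s := |1 - ‖z‖| with hs
  have hs0 : 0 ≤ s := abs_nonneg _
  -- Poisson type lower bound
  have hPois : ∀ m : ℝ, 0 ≤ m → ‖z‖ < 1 → 0 < s →
      (∀ᵐ ζ ∂sg, ‖ζ - zs‖ < s → m ≤ W ζ) →
      m / 4 ≤ ∫ ζ, W ζ * ((1 - ‖z‖ ^ 2) / ‖ζ - z‖ ^ 2) ∂sg := by
    intro m hm hz1 hspos hae
    have hs1 : s = 1 - ‖z‖ := abs_of_pos (by linarith)
    have hnz := norm_nonneg z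
    have hkern : ∀ ζ : ℂ, ‖ζ‖ = 1 → s ≤ ‖ζ - z‖ := by
      intro ζ hζ
      have := norm_sub_norm_le ζ z
      rw [hζ] at this
      rw [hs1]; exact this
    have h1z : 0 ≤ 1 - ‖z‖ ^ 2 := by nlinarith
    have hint : Integrable (fun ζ => W ζ * ((1 - ‖z‖ ^ 2) / ‖ζ - z‖ ^ 2)) sg := by
      apply Integrable.mul_bdd (c := (1 - ‖z‖ ^ 2) / s ^ 2) hW
      · apply Measurable.aestronglyMeasurable
        fun_prop
      · filter_upwards [ae_norm_sg] with ζ hζ
        rw [Real.norm_of_nonneg (by positivity)]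
        have := hkern ζ hζ
        gcongr
    have := low_int (f := fun ζ => W ζ * ((1 - ‖z‖ ^ 2) / ‖ζ - z‖ ^ 2)) (S := univ)
      MeasurableSet.univ hint.integrableOn (fun ζ => by have := hW0 ζ; positivity) hzs hs0
      (by rw [hs1]; linarith) (m := m * (1 / (4 * s))) (by positivity) ?_
    · rw [setIntegral_univ] at this
      calc m / 4 = m * (1 / (4 * s)) * s := by field_simp
        _ ≤ _ := this
    · filter_upwards [hae, ae_norm_sg] with ζ hζ hζ1 hlt
      refine ⟨mem_univ _, ?_⟩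
      have h1 := hζ hlt
      have h2 : ‖ζ - z‖ ≤ 2 * s := by
        calc ‖ζ - z‖ = ‖(ζ - zs) - (z - zs)‖ := by ring_nf
          _ ≤ ‖ζ - zs‖ + ‖z - zs‖ := norm_sub_le _ _
          _ ≤ 2 * s := by rw [hzz]; linarith
      have h3 := hkern ζ hζ1
      have h4 : 1 / (4 * s) ≤ (1 - ‖z‖ ^ 2) / ‖ζ - z‖ ^ 2 := by
        calc 1 / (4 * s) = s / (2 * s) ^ 2 := by field_simp; norm_num
          _ ≤ s / ‖ζ - z‖ ^ 2 := by
              have : 0 < ‖ζ - z‖ := by linarith
              gcongr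
          _ ≤ _ := by
              gcongr
              rw [hs1]; nlinarith
      exact mul_le_mul h1 h4 (by positivity) (hW0 ζ)
  by_cases hA : φ z / 16 < s
  · -- case A
    have hz1 : ‖z‖ < 1 := by
      by_contra hcon
      push_neg at hcon
      have : s = ‖z‖ - 1 := by rw [hs, abs_sub_comm]; exact abs_of_nonneg (by linarith)
      have h8 : θ * φ z ≤ 1 / 8 * φ z := by gcongr
      linarith
    have hspos : 0 < s := by linarith
    have hs1 : s = 1 - ‖z‖ := abs_of_pos (by linarith)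
    have h1 := hdisc2 hθpos hθ8 hL hd hW hW0 z hz1 (by
      rw [← hs1]
      calc θ * φ z ≤ 1/8 * (16 * s) := by
            apply mul_le_mul hθ8 (by linarith) hz.le (by norm_num)
        _ = 2 * s := by ring)
    have h2 := hPois ((18 * s) ^ (-α)) (by positivity) hz1 hspos (by
      filter_upwards [hE', ae_norm_sg] with ζ hζ hζ1 hlt
      have h3 := (hK ζ hζ1 hζ).2.1
      refine le_trans ?_ h3
      apply Real.rpow_le_rpow_of_nonpos hζ _ (by linarith)
      have h5 : ‖ζ - z‖ ≤ 2 * s := by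
        calc ‖ζ - z‖ = ‖(ζ - zs) - (z - zs)‖ := by ring_nf
          _ ≤ ‖ζ - zs‖ + ‖z - zs‖ := norm_sub_le _ _
          _ ≤ 2 * s := by rw [hzz]; linarith
      have := fk_lip_le hL ζ z
      linarith)
    have hψz : 0 < ψ z := lt_of_lt_of_le hspos (hdψ z)
    calc _ ≤ (c1 * (18:ℝ) ^ (-α) / 4) * (ψ z) ^ (-α) := by gcongr; exact min_le_left _ _
      _ ≤ (c1 * (18:ℝ) ^ (-α) / 4) * s ^ (-α) := by
          have h9 : (ψ z) ^ (-α) ≤ s ^ (-α) :=
            Real.rpow_le_rpow_of_nonpos hspos (hdψ z) (by linarith)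
          gcongr
      _ = c1 * ((18 * s) ^ (-α) / 4) := by
          rw [Real.mul_rpow (by norm_num) hs0]; ring
      _ ≤ _ := by gcongr
      _ ≤ _ := h1
  · push_neg at hA
    have hφzs : 15/16 * φ z ≤ φ zs := by
      have := fk_lip_le hL z zs
      rw [hzz] at this
      linarith
    have hφzs0 : 0 < φ zs := by linarith
    obtain ⟨hψz, hWl⟩ := hWψ z zs hzs hzz hφzs0
    have hWzs := hW0 zs
    have hslow : ∀ ζ : ℂ, ‖ζ‖ = 1 → ‖ζ - zs‖ ≤ φ z / 8 → W zs / K ≤ W ζ := by
      intro ζ hζ1 hζ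
      have h1 : φ zs ≤ φ ζ + ‖ζ - zs‖ := by
        have := fk_lip_le hL zs ζ
        rwa [norm_sub_rev] at this
      have h2 : 0 < φ ζ := by linarith
      rw [div_le_iff₀ hKpos]
      calc W zs ≤ K₀ * W ζ := (hK ζ hζ1 h2).1 zs hzs (by linarith)
        _ ≤ W ζ * K := by rw [mul_comm]; exact mul_le_mul_of_nonneg_left hKK (hW0 ζ)
    by_cases hB : 1 - ‖z‖ ≤ θ * φ z
    · -- case B1
      have hsθ : s ≤ θ * φ z := by
        rw [hs, abs_le]
        constructor
        · nlinarith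
        · exact hB
      have hθφ : θ * φ z ≤ φ z / 8 := by
        calc θ * φ z ≤ 1/8 * φ z := by gcongr
          _ = φ z / 8 := by ring
      have hφz1 : θ * φ z ≤ 1 := by
        have := fk_lip_le hL z zs
        rw [hzz] at this
        have := hφ1 zs hzs
        linarith
      have hθφpos : 0 < θ * φ z := by positivity
      have h1 := hlow hθpos hθ8 hL hd hφ1 hW hW0 z hz hzn
      -- near part
      have hnear : W zs / (9 * K) ≤ ∫ ζ in {ζ | ‖ζ - z‖ < φ z / 2},
          W ζ * ((θ * φ z) / (‖ζ - z‖ + θ * φ z) ^ 2) ∂sg := by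
        have hint : Integrable (fun ζ => W ζ * ((θ * φ z) / (‖ζ - z‖ + θ * φ z) ^ 2)) sg := by
          apply Integrable.mul_bdd (c := (θ * φ z) / (θ * φ z) ^ 2) hW
          · apply Measurable.aestronglyMeasurable
            fun_prop
          · filter_upwards with ζ
            rw [Real.norm_of_nonneg (by positivity)]
            have := norm_nonneg (ζ - z)
            gcongr
            linarith
        have := low_int (f := fun ζ => W ζ * ((θ * φ z) / (‖ζ - z‖ + θ * φ z) ^ 2))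
          (S := {ζ | ‖ζ - z‖ < φ z / 2}) (measurableSet_lt (by fun_prop) (by fun_prop))
          hint.integrableOn (fun ζ => by have := hW0 ζ; positivity) hzs hθφpos.le hφz1
          (m := W zs / K * (1 / (9 * (θ * φ z)))) (by positivity) ?_
        · calc W zs / (9 * K) = W zs / K * (1 / (9 * (θ * φ z))) * (θ * φ z) := by field_simp
            _ ≤ _ := this
        · filter_upwards [ae_norm_sg] with ζ hζ1 hlt
          have h2 : ‖ζ - z‖ ≤ 2 * (θ * φ z) := by
            calc ‖ζ - z‖ = ‖(ζ - zs) - (z - zs)‖ := by ring_nf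
              _ ≤ ‖ζ - zs‖ + ‖z - zs‖ := norm_sub_le _ _
              _ ≤ 2 * (θ * φ z) := by rw [hzz]; linarith
          refine ⟨?_, ?_⟩
          · show ‖ζ - z‖ < φ z / 2
            linarith
          have h3 := hslow ζ hζ1 (by linarith)
          have h4 : 1 / (9 * (θ * φ z)) ≤ (θ * φ z) / (‖ζ - z‖ + θ * φ z) ^ 2 := by
            calc 1 / (9 * (θ * φ z)) = (θ * φ z) / (2 * (θ * φ z) + θ * φ z) ^ 2 := by
                  field_simp; norm_num
              _ ≤ _ := by
                  have := norm_nonneg (ζ - z)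
                  gcongr
          exact mul_le_mul h3 h4 (by positivity) (hW0 ζ)
      have hfar : (∫ ζ in {ζ | φ z / 2 ≤ ‖ζ - z‖}, W ζ * ((θ * φ z) / ‖ζ - z‖ ^ 2) ∂sg) ≤
          56 * θ * K * W zs := by
        have hKzs := (hK zs hzs hφzs0).2.2.2.2
        have hint2 : Integrable (fun ζ => W ζ / (‖zs - ζ‖ + φ zs + φ ζ) ^ 2) sg := by
          simp_rw [div_eq_mul_inv]
          apply Integrable.mul_bdd (c := (φ zs ^ 2)⁻¹) hW
          · apply Measurable.aestronglyMeasurable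
            fun_prop
          · filter_upwards with ζ
            have := norm_nonneg (zs - ζ)
            have := hφ0 ζ
            rw [Real.norm_of_nonneg (by positivity)]
            gcongr
            linarith
        calc (∫ ζ in {ζ | φ z / 2 ≤ ‖ζ - z‖}, W ζ * ((θ * φ z) / ‖ζ - z‖ ^ 2) ∂sg)
            ≤ ∫ ζ in {ζ | φ z / 2 ≤ ‖ζ - z‖},
              (49 * (θ * φ z)) * (W ζ / (‖zs - ζ‖ + φ zs + φ ζ) ^ 2) ∂sg := by
              apply integral_mono_of_nonneg
              · filter_upwards with ζ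
                have := hW0 ζ
                show (0:ℝ) ≤ _
                positivity
              · exact (hint2.const_mul _).integrableOn
              · filter_upwards [ae_restrict_mem
                  (measurableSet_le (by fun_prop) (by fun_prop))] with ζ hζ
                replace hζ : φ z / 2 ≤ ‖ζ - z‖ := hζ
                have hp : 0 < ‖ζ - z‖ := by linarith
                have e1 : ‖zs - ζ‖ ≤ s + ‖ζ - z‖ := by
                  calc ‖zs - ζ‖ = ‖(zs - z) - (ζ - z)‖ := by ring_nf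
                    _ ≤ ‖zs - z‖ + ‖ζ - z‖ := norm_sub_le _ _
                    _ = _ := by rw [norm_sub_rev zs z, hzz]
                have e2 : φ zs ≤ φ z + s := by
                  have := fk_lip_le hL zs z
                  rwa [norm_sub_rev, hzz] at this
                have e3 := fk_lip_le hL ζ z
                have e4 : ‖zs - ζ‖ + φ zs + φ ζ ≤ 7 * ‖ζ - z‖ := by linarith
                have e5 : 0 < ‖zs - ζ‖ + φ zs + φ ζ := by
                  have := hφ0 ζ
                  have := norm_nonneg (zs - ζ)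
                  linarith
                have e6 : 1 / ‖ζ - z‖ ^ 2 ≤ 49 / (‖zs - ζ‖ + φ zs + φ ζ) ^ 2 := by
                  rw [div_le_div_iff₀ (by positivity) (by positivity)]
                  nlinarith
                calc W ζ * ((θ * φ z) / ‖ζ - z‖ ^ 2)
                    = (W ζ * (θ * φ z)) * (1 / ‖ζ - z‖ ^ 2) := by ring
                  _ ≤ (W ζ * (θ * φ z)) * (49 / (‖zs - ζ‖ + φ zs + φ ζ) ^ 2) := by
                      have := hW0 ζ
                      gcongr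
                  _ = _ := by ring
          _ ≤ ∫ ζ, (49 * (θ * φ z)) * (W ζ / (‖zs - ζ‖ + φ zs + φ ζ) ^ 2) ∂sg := by
              apply setIntegral_le_integral (hint2.const_mul _)
              filter_upwards with ζ
              have := hW0 ζ
              show (0:ℝ) ≤ _
              positivity
          _ = (49 * (θ * φ z)) * ∫ ζ, (W ζ / (‖zs - ζ‖ + φ zs + φ ζ) ^ 2) ∂sg :=
              integral_const_mul _ _
          _ ≤ (49 * (θ * φ z)) * (K * (W zs / φ zs)) := by
              gcongr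
              exact hKzs.trans (by gcongr)
          _ = (49 * θ * K * W zs) * (φ z / φ zs) := by ring
          _ ≤ (49 * θ * K * W zs) * (16 / 15) := by
              have h9 : φ z / φ zs ≤ 16 / 15 := by
                rw [div_le_iff₀ hφzs0]; linarith
              exact mul_le_mul_of_nonneg_left h9 (by positivity)
          _ ≤ 56 * θ * K * W zs := by
              have : 0 ≤ θ * K * W zs := by positivity
              nlinarith
      calc _ ≤ (c0 / (18 * K) * ((2:ℝ) ^ (-α) / K)) * (ψ z) ^ (-α) := by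
            gcongr
            exact (min_le_right _ _).trans (min_le_left _ _)
        _ = c0 / (18 * K) * ((2:ℝ) ^ (-α) * (ψ z) ^ (-α) / K) := by ring
        _ ≤ c0 / (18 * K) * W zs := by gcongr
        _ = c0 * (W zs / (9 * K)) - c0 / (18 * K) * W zs := by field_simp; ring
        _ ≤ c0 * (W zs / (9 * K)) - C0 * (56 * θ * K) * W zs := by gcongr
        _ = c0 * (W zs / (9 * K)) - C0 * (56 * θ * K * W zs) := by ring
        _ ≤ _ := by gcongr
        _ ≤ _ := h1
    · push_neg at hB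
      have hz1 : ‖z‖ < 1 := by
        have : 0 < θ * φ z := by positivity
        linarith
      have hspos : 0 < s := by rw [hs]; exact abs_pos.2 (by linarith)
      have hs1 : s = 1 - ‖z‖ := abs_of_pos (by linarith)
      have h1 := hdisc1 hθpos hθ8 hL hd hW hW0 z hz1 (by linarith)
      have h2 := hPois (W zs / K) (by positivity) hz1 hspos (by
        filter_upwards [ae_norm_sg] with ζ hζ1 hlt
        exact hslow ζ hζ1 (by linarith))
      calc _ ≤ (c2 / (4 * K) * ((2:ℝ) ^ (-α) / K)) * (ψ z) ^ (-α) := by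
            gcongr
            exact (min_le_right _ _).trans (min_le_right _ _)
        _ = c2 / (4 * K) * ((2:ℝ) ^ (-α) * (ψ z) ^ (-α) / K) := by ring
        _ ≤ c2 / (4 * K) * W zs := by gcongr
        _ = c2 * (W zs / K / 4) := by field_simp
        _ ≤ _ := by gcongr
        _ ≤ _ := h1

end Pool.Agent.Helper203.GV
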