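import Pool.Agent.Helper203.GV.Defs
import Pool.Agent.Helper203.GV.Alg

open MeasureTheory Filter Topology Set

noncomputable section

namespace Pool.Agent.Helper203.GV

theorem B_wt_pos (β c : ℝ) (n : ℕ) : 0 < wt β c n := Real.exp_pos _

theorem B_wt_le {β c c' : ℝ} (h : c' ≤ c) (n : ℕ) : wt β c' n ≤ wt β c n := by
  unfold wt
  apply Real.exp_le_exp.mpr
  apply mul_le_mul_of_nonneg_right h
  positivity

theorem B_wt_ratio {β c c' : ℝ} (hβ : 0 < β) (h : c' < c) :
    Tendsto (fun n => wt β c' n / wt β c n) atTop (𝓝 0) := by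
  have : (fun n => wt β c' n / wt β c n) = fun n : ℕ => Real.exp (-((c - c') * (n:ℝ)^β)) := by
    funext n
    unfold wt
    rw [← Real.exp_sub]
    congr 1
    ring
  rw [this]
  have h1 : Tendsto (fun n : ℕ => (c - c') * (n:ℝ)^β) atTop atTop :=
    ((tendsto_rpow_atTop hβ).comp tendsto_natCast_atTop_atTop).const_mul_atTop (sub_pos.mpr h)
  exact Real.tendsto_exp_neg_atTop_nhds_zero.comp h1

theorem B_step {β : ℝ} (hβ : 0 < β) {I : Set (PowerSeries ℂ)}
    (hcl : ∀ c : ℝ, 0 < c → ∀ (u : ℕ → PowerSeries ℂ) (p : PowerSeries ℂ), (∀ m, u m ∈ I) →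
      (∀ m, FW β c (u m)) → FW β c p →
      Tendsto (fun m => nrm β c (u m - p)) atTop (𝓝 0) → p ∈ I)
    {g : PowerSeries ℂ} {a b : ℝ} (hb : 0 < b) (hab : b < a) (hga : FW β a g)
    {s t : ℝ} (hst : t < s) (ω : ℕ → ℝ) {c : ℝ} (hc : 0 < c)
    (hω : ∀ n, c * wt β a n ≤ ω n)
    (hP : ∀ i ∈ I, FW β a i → s ≤ ∑' n, ‖PowerSeries.coeff n (g - i)‖ * ω n) :
    ∃ m : ℝ, 0 < m ∧ ∀ i ∈ I, FW β b i →
      t ≤ ∑' n, ‖PowerSeries.coeff n (g - i)‖ * min (ω n) (m * wt β b n) := by
  by_contra hcon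
  push Not at hcon
  have hgb : FW β b g := hga.mono hab.le
  have hωpos : ∀ n, 0 < ω n := fun n => (mul_pos hc (B_wt_pos β a n)).trans_le (hω n)
  have hex : ∀ m : ℕ, ∃ i ∈ I, FW β b i ∧
      ∑' n, ‖PowerSeries.coeff n (g - i)‖ * min (ω n) (((m:ℝ) + 1) * wt β b n) < t :=
    fun m => hcon ((m:ℝ) + 1) (by positivity)
  choose i hiI hib hit using hex
  set v : ℕ → ℕ → ℝ := fun m n => min (ω n) (((m:ℝ) + 1) * wt β b n) with hv
  have hvpos : ∀ m n, 0 < v m n := fun m n =>
    lt_min (hωpos n) (mul_pos (by positivity) (B_wt_pos β b n))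
  have hvmono : ∀ m n, v 0 n ≤ v m n := fun m n =>
    min_le_min le_rfl (mul_le_mul_of_nonneg_right (by
      have : (0:ℝ) ≤ m := Nat.cast_nonneg m
      push_cast
      linarith) (B_wt_pos β b n).le)
  have hdFW : ∀ m, FW β b (g - i m) := fun m => hgb.sub (hib m)
  have hsumv : ∀ m, Summable fun n => ‖PowerSeries.coeff n (g - i m)‖ * v m n := by
    intro m
    refine Summable.of_nonneg_of_le (fun n => mul_nonneg (norm_nonneg _) (hvpos m n).le)
      (fun n => ?_) ((hdFW m).mul_left ((m:ℝ) + 1))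
    calc ‖PowerSeries.coeff n (g - i m)‖ * v m n
        ≤ ‖PowerSeries.coeff n (g - i m)‖ * (((m:ℝ) + 1) * wt β b n) :=
          mul_le_mul_of_nonneg_left (min_le_right _ _) (norm_nonneg _)
      _ = ((m:ℝ) + 1) * (‖PowerSeries.coeff n (g - i m)‖ * wt β b n) := by ring
  have ht0 : 0 ≤ t := le_trans (tsum_nonneg fun n => mul_nonneg (norm_nonneg _) (hvpos 0 n).le)
    (hit 0).le
  have hcoef : ∀ m n, PowerSeries.coeff n (g - i m) ∈ Metric.closedBall (0:ℂ) (t / v 0 n) := by
    intro m n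
    rw [mem_closedBall_zero_iff, le_div_iff₀ (hvpos 0 n)]
    calc ‖PowerSeries.coeff n (g - i m)‖ * v 0 n ≤ ‖PowerSeries.coeff n (g - i m)‖ * v m n :=
          mul_le_mul_of_nonneg_left (hvmono m n) (norm_nonneg _)
      _ ≤ ∑' n, ‖PowerSeries.coeff n (g - i m)‖ * v m n :=
          (hsumv m).le_tsum n (fun k _ => mul_nonneg (norm_nonneg _) (hvpos m k).le)
      _ ≤ t := (hit m).le
  have hcomp : IsCompact (Set.pi Set.univ fun n : ℕ => Metric.closedBall (0:ℂ) (t / v 0 n)) :=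
    isCompact_univ_pi fun n => isCompact_closedBall _ _
  obtain ⟨D, -, φ, hφ, hlim⟩ := hcomp.tendsto_subseq
    (x := fun m n => PowerSeries.coeff n (g - i m)) (fun m n _ => hcoef m n)
  rw [tendsto_pi_nhds] at hlim
  have hlim' : ∀ n, Tendsto (fun m => PowerSeries.coeff n (g - i (φ m))) atTop (𝓝 (D n)) := hlim
  have hvlim : ∀ n, Tendsto (fun m => v (φ m) n) atTop (𝓝 (ω n)) := by
    intro n
    have h1 : ∀ᶠ m : ℕ in atTop, ω n ≤ ((φ m : ℝ) + 1) * wt β b n := by
      have h2 : Tendsto (fun m : ℕ => ((φ m : ℝ) + 1) * wt β b n) atTop atTop := by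
        refine Tendsto.atTop_mul_const (B_wt_pos β b n) ?_
        exact tendsto_atTop_add_const_right _ _
          (tendsto_natCast_atTop_atTop.comp hφ.tendsto_atTop)
      exact h2.eventually_ge_atTop _
    refine tendsto_const_nhds.congr' ?_
    filter_upwards [h1] with m hm
    exact (min_eq_left hm).symm
  -- partial sums
  have hpart : ∀ N, ∑ n ∈ Finset.range N, ‖D n‖ * ω n ≤ t := by
    intro N
    have h1 : Tendsto (fun m => ∑ n ∈ Finset.range N,
        ‖PowerSeries.coeff n (g - i (φ m))‖ * v (φ m) n) atTop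
        (𝓝 (∑ n ∈ Finset.range N, ‖D n‖ * ω n)) :=
      tendsto_finsetSum _ fun n _ => ((hlim' n).norm).mul (hvlim n)
    refine le_of_tendsto h1 (Eventually.of_forall fun m => ?_)
    exact ((hsumv (φ m)).sum_le_tsum _
      (fun k _ => mul_nonneg (norm_nonneg _) (hvpos (φ m) k).le)).trans (hit (φ m)).le
  have hDsum : Summable fun n => ‖D n‖ * ω n :=
    summable_of_sum_range_le (fun n => mul_nonneg (norm_nonneg _) (hωpos n).le) hpart
  have hDle : ∑' n, ‖D n‖ * ω n ≤ t :=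
    Real.tsum_le_of_sum_range_le (fun n => mul_nonneg (norm_nonneg _) (hωpos n).le) hpart
  set P : PowerSeries ℂ := PowerSeries.mk D with hPdef
  have hPc : ∀ n, PowerSeries.coeff n P = D n := fun n => PowerSeries.coeff_mk n D
  have hPa : FW β a P := by
    refine Summable.of_nonneg_of_le (fun n => mul_nonneg (norm_nonneg _) (B_wt_pos β a n).le)
      (fun n => ?_) (hDsum.mul_left c⁻¹)
    rw [hPc]
    have h1 : wt β a n ≤ c⁻¹ * ω n := by
      rw [inv_mul_eq_div, le_div_iff₀ hc, mul_comm]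
      exact hω n
    calc ‖D n‖ * wt β a n ≤ ‖D n‖ * (c⁻¹ * ω n) := mul_le_mul_of_nonneg_left h1 (norm_nonneg _)
      _ = c⁻¹ * (‖D n‖ * ω n) := by ring
  have hPb : FW β b P := hPa.mono hab.le
  -- convergence in norm
  have hconv : Tendsto (fun m => nrm β b (i (φ m) - (g - P))) atTop (𝓝 0) := by
    rw [Metric.tendsto_atTop]
    intro ε hε
    set δ := ε / (2 * (2 * t + 1)) with hδ
    have hδ0 : 0 < δ := by positivity
    have hr : ∀ᶠ n in atTop, wt β b n ≤ δ * ω n := by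
      have h1 := B_wt_ratio (β := β) hβ hab
      have h2 : ∀ᶠ n in atTop, wt β b n / wt β a n < δ * c := h1.eventually_lt_const (by positivity)
      filter_upwards [h2] with n hn
      rw [div_lt_iff₀ (B_wt_pos β a n)] at hn
      calc wt β b n ≤ δ * c * wt β a n := hn.le
        _ = δ * (c * wt β a n) := by ring
        _ ≤ δ * ω n := mul_le_mul_of_nonneg_left (hω n) hδ0.le
    obtain ⟨L, hL⟩ := eventually_atTop.mp hr
    have hfin : Tendsto (fun m => ∑ n ∈ Finset.range L,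
        ‖PowerSeries.coeff n (g - i (φ m)) - D n‖ * wt β b n) atTop (𝓝 0) := by
      have : Tendsto (fun m => ∑ n ∈ Finset.range L,
        ‖PowerSeries.coeff n (g - i (φ m)) - D n‖ * wt β b n) atTop
        (𝓝 (∑ n ∈ Finset.range L, ‖D n - D n‖ * wt β b n)) :=
        tendsto_finsetSum _ fun n _ => (((hlim' n).sub_const (D n)).norm).mul_const _
      simpa using this
    have hm1 : ∀ᶠ m in atTop, ∑ n ∈ Finset.range L,
        ‖PowerSeries.coeff n (g - i (φ m)) - D n‖ * wt β b n < ε / 2 :=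
      hfin.eventually_lt_const (by positivity)
    have hm2 : ∀ᶠ m : ℕ in atTop, δ⁻¹ ≤ (φ m : ℝ) + 1 := by
      have h2 : Tendsto (fun m : ℕ => ((φ m : ℝ) + 1)) atTop atTop :=
        tendsto_atTop_add_const_right _ _
          (tendsto_natCast_atTop_atTop.comp hφ.tendsto_atTop)
      exact h2.eventually_ge_atTop _
    obtain ⟨M, hM⟩ := eventually_atTop.mp (hm1.and hm2)
    refine ⟨M, fun m hm => ?_⟩
    obtain ⟨k1, k2⟩ := hM m hm
    rw [Real.dist_eq, sub_zero, abs_of_nonneg (nrm_nonneg _ _ _)]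
    have hterm : ∀ n, ‖PowerSeries.coeff n (i (φ m) - (g - P))‖ * wt β b n ≤
        (if n ∈ Finset.range L then
          ‖PowerSeries.coeff n (g - i (φ m)) - D n‖ * wt β b n else 0) +
        δ * (‖PowerSeries.coeff n (g - i (φ m))‖ * v (φ m) n + ‖D n‖ * ω n) := by
      intro n
      have e1 : ‖PowerSeries.coeff n (i (φ m) - (g - P))‖ =
          ‖PowerSeries.coeff n (g - i (φ m)) - D n‖ := by
        rw [← norm_neg]
        congr 1
        simp only [map_sub, hPc]
        ring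
      rw [e1]
      have hnn : 0 ≤ δ * (‖PowerSeries.coeff n (g - i (φ m))‖ * v (φ m) n + ‖D n‖ * ω n) :=
        mul_nonneg hδ0.le (add_nonneg (mul_nonneg (norm_nonneg _) (hvpos _ _).le)
          (mul_nonneg (norm_nonneg _) (hωpos n).le))
      split_ifs with hn
      · linarith
      · rw [zero_add]
        have hn' : L ≤ n := by simpa using hn
        have a1 : wt β b n ≤ δ * ω n := hL n hn'
        have a2 : wt β b n ≤ δ * v (φ m) n := by
          simp only [hv]
          rw [mul_min_of_nonneg _ _ hδ0.le]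
          refine le_min a1 ?_
          have : 1 ≤ δ * ((φ m : ℝ) + 1) := by
            rw [inv_le_iff_one_le_mul₀ hδ0] at k2
            linarith
          calc wt β b n = 1 * wt β b n := (one_mul _).symm
            _ ≤ δ * ((φ m : ℝ) + 1) * wt β b n :=
              mul_le_mul_of_nonneg_right this (B_wt_pos β b n).le
            _ = _ := by ring
        calc ‖PowerSeries.coeff n (g - i (φ m)) - D n‖ * wt β b n
            ≤ (‖PowerSeries.coeff n (g - i (φ m))‖ + ‖D n‖) * wt β b n :=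
              mul_le_mul_of_nonneg_right (norm_sub_le _ _) (B_wt_pos β b n).le
          _ = ‖PowerSeries.coeff n (g - i (φ m))‖ * wt β b n + ‖D n‖ * wt β b n := by ring
          _ ≤ ‖PowerSeries.coeff n (g - i (φ m))‖ * (δ * v (φ m) n) + ‖D n‖ * (δ * ω n) :=
              add_le_add (mul_le_mul_of_nonneg_left a2 (norm_nonneg _))
                (mul_le_mul_of_nonneg_left a1 (norm_nonneg _))
          _ = _ := by ring
    have hs1 : Summable fun n => (if n ∈ Finset.range L then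
          ‖PowerSeries.coeff n (g - i (φ m)) - D n‖ * wt β b n else 0) :=
      summable_of_ne_finset_zero (s := Finset.range L) fun n hn => if_neg hn
    have hs2 : Summable fun n =>
        δ * (‖PowerSeries.coeff n (g - i (φ m))‖ * v (φ m) n + ‖D n‖ * ω n) :=
      ((hsumv (φ m)).add hDsum).mul_left δ
    have hle : nrm β b (i (φ m) - (g - P)) ≤
        ∑ n ∈ Finset.range L, ‖PowerSeries.coeff n (g - i (φ m)) - D n‖ * wt β b n +
          δ * (t + t) := by
      calc nrm β b (i (φ m) - (g - P)) ≤ ∑' n, ((if n ∈ Finset.range L then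
            ‖PowerSeries.coeff n (g - i (φ m)) - D n‖ * wt β b n else 0) +
          δ * (‖PowerSeries.coeff n (g - i (φ m))‖ * v (φ m) n + ‖D n‖ * ω n)) :=
            Summable.tsum_le_tsum hterm ((hib (φ m)).sub (hgb.sub hPb)) (hs1.add hs2)
        _ = ∑ n ∈ Finset.range L, ‖PowerSeries.coeff n (g - i (φ m)) - D n‖ * wt β b n +
          δ * (∑' n, ‖PowerSeries.coeff n (g - i (φ m))‖ * v (φ m) n + ∑' n, ‖D n‖ * ω n) := by
            rw [hs1.tsum_add hs2, tsum_mul_left, (hsumv (φ m)).tsum_add hDsum]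
            congr 1
            rw [tsum_eq_sum (s := Finset.range L) (fun n hn => if_neg hn)]
            exact Finset.sum_congr rfl fun n hn => if_pos hn
        _ ≤ _ := by
            gcongr
            exact (hit (φ m)).le
    have hfinal : δ * (t + t) < ε / 2 := by
      rw [hδ]
      have : ε / (2 * (2 * t + 1)) * (t + t) = ε / 2 * ((2 * t) / (2 * t + 1)) := by
        field_simp
        ring
      rw [this]
      have h3 : (2 * t) / (2 * t + 1) < 1 := by
        rw [div_lt_one (by positivity)]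
        linarith
      nlinarith
    linarith
  have hmem : g - P ∈ I := hcl b hb (fun m => i (φ m)) (g - P) (fun m => hiI _) (fun m => hib _)
    (hgb.sub hPb) hconv
  have hfin := hP (g - P) hmem (hga.sub hPa)
  have e2 : ∀ n, PowerSeries.coeff n (g - (g - P)) = D n := fun n => by
    simp only [map_sub, hPc]
    ring
  simp only [e2] at hfin
  linarith

theorem B_sep {E : Type*} [NormedAddCommGroup E] [NormedSpace ℂ E] (S : Submodule ℂ E) (x : E)
    (h : ∀ y ∈ S, 1 ≤ ‖x - y‖) : ∃ f : StrongDual ℂ E, (∀ y ∈ S, f y = 0) ∧ f x ≠ 0 := by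
  have hx : x ∉ closure (S : Set E) := by
    intro hx
    rw [Metric.mem_closure_iff] at hx
    obtain ⟨y, hy, hxy⟩ := hx 1 one_pos
    rw [dist_eq_norm] at hxy
    exact absurd (h y hy) (not_le.mpr hxy)
  have hconv : Convex ℝ (closure (S : Set E)) := by
    have : Convex ℝ (S : Set E) := (S.restrictScalars ℝ).convex
    exact this.closure
  obtain ⟨f, u, hu, hux⟩ := RCLike.geometric_hahn_banach_closed_point (𝕜 := ℂ) hconv
    isClosed_closure hx
  have h0 : (0:ℝ) < u := by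
    have := hu 0 (subset_closure S.zero_mem)
    simpa using this
  refine ⟨f, fun y hy => ?_, fun hfx => ?_⟩
  · by_contra hne
    have hpos : 0 < ‖f y‖ ^ 2 := by positivity
    obtain ⟨t, ht⟩ := exists_nat_gt (u / ‖f y‖ ^ 2)
    have h1 := hu ((t:ℂ) • (starRingEnd ℂ (f y)) • y)
      (subset_closure (S.smul_mem _ (S.smul_mem _ hy)))
    have h2 : RCLike.re (f ((t:ℂ) • (starRingEnd ℂ (f y)) • y)) = t * ‖f y‖ ^ 2 := by
      have e1 : f ((t:ℂ) • (starRingEnd ℂ (f y)) • y) = (t:ℂ) * ((starRingEnd ℂ (f y)) * f y) := by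
        rw [f.map_smul, f.map_smul]
        rfl
      rw [e1, mul_comm (starRingEnd ℂ (f y)) (f y),
        Complex.mul_conj, Complex.normSq_eq_norm_sq]
      have : ((t:ℂ) * ((‖f y‖ ^ 2 : ℝ) : ℂ)) = (((t:ℝ) * ‖f y‖ ^ 2 : ℝ) : ℂ) := by push_cast; ring
      rw [this]
      exact Complex.ofReal_re _
    rw [h2] at h1
    rw [div_lt_iff₀ hpos] at ht
    linarith
  · rw [hfx] at hux
    simp at hux
    linarith

/-- goodness at stage `j` -/
def BGood (β : ℝ) (I : Set (PowerSeries ℂ)) (g : PowerSeries ℂ) (a : ℕ → ℝ) (j : ℕ)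
    (ω : ℕ → ℝ) : Prop :=
  (∃ c : ℝ, 0 < c ∧ ∀ n, c * wt β (a j) n ≤ ω n) ∧ (∃ C : ℝ, ∀ n, ω n ≤ C * wt β (a j) n) ∧
    ∀ i ∈ I, FW β (a j) i → 1 + a j ≤ ∑' n, ‖PowerSeries.coeff n (g - i)‖ * ω n
theorem exists_functional {β : ℝ} (hβ : 0 < β) {I : Set (PowerSeries ℂ)}
    (hA : ∀ p ∈ I, AA β p) (h0 : (0 : PowerSeries ℂ) ∈ I)
    (hadd : ∀ p ∈ I, ∀ q ∈ I, p + q ∈ I)
    (hsmul : ∀ p ∈ I, ∀ a : ℂ, a • p ∈ I)
    (hcl : ∀ c : ℝ, 0 < c → ∀ (u : ℕ → PowerSeries ℂ) (p : PowerSeries ℂ), (∀ m, u m ∈ I) →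
      (∀ m, FW β c (u m)) → FW β c p →
      Tendsto (fun m => nrm β c (u m - p)) atTop (𝓝 0) → p ∈ I)
    {g : PowerSeries ℂ} (hg : AA β g) (hgI : g ∉ I) :
    ∃ b : ℕ → ℂ, Grow β b ∧ (∀ p ∈ I, Phi b p = 0) ∧ Phi b g ≠ 0  := by
  obtain ⟨c0, hc0, hgc⟩ := hg
  obtain ⟨k0, hk0⟩ := exists_nat_one_div_lt hc0
  set a : ℕ → ℝ := fun j => 1 / ((k0:ℝ) + 1 + j) with ha
  have hapos : ∀ j, 0 < a j := fun j => by simp only [ha]; positivity
  have haanti : ∀ j, a (j + 1) < a j := by
    intro j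
    simp only [ha]
    apply one_div_lt_one_div_of_lt (by positivity)
    push_cast
    linarith
  have hamono : Antitone a := antitone_nat_of_succ_le fun j => (haanti j).le
  have hga : ∀ j, FW β (a j) g := by
    intro j
    refine (hgc.mono hk0.le).mono ?_
    simp only [ha]
    apply one_div_le_one_div_of_le (by positivity)
    have : (0:ℝ) ≤ j := Nat.cast_nonneg j
    linarith
  -- base
  have hbase : ∃ ω, BGood β I g a 0 ω := by
    by_contra hcon
    have hex : ∀ m : ℕ, ∃ i ∈ I, FW β (a 0) i ∧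
        ∑' n, ‖PowerSeries.coeff n (g - i)‖ * (((m:ℝ) + 1) * wt β (a 0) n) < 1 + a 0 := by
      intro m
      by_contra hno
      push Not at hno
      exact hcon ⟨fun n => ((m:ℝ) + 1) * wt β (a 0) n,
        ⟨(m:ℝ) + 1, by positivity, fun n => le_rfl⟩, ⟨(m:ℝ) + 1, fun n => le_rfl⟩,
        fun i hi hf => hno i hi hf⟩
    choose i hiI hib hit using hex
    refine hgI (hcl (a 0) (hapos 0) i g hiI hib (hga 0) ?_)
    have hn : ∀ m, nrm β (a 0) (i m - g) ≤ (1 + a 0) * (1 / ((m:ℝ) + 1)) := by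
      intro m
      have h1 : ∑' n, ‖PowerSeries.coeff n (g - i m)‖ * (((m:ℝ) + 1) * wt β (a 0) n) =
          ((m:ℝ) + 1) * nrm β (a 0) (i m - g) := by
        unfold nrm
        rw [← tsum_mul_left]
        refine tsum_congr fun n => ?_
        have : ‖PowerSeries.coeff n (g - i m)‖ = ‖PowerSeries.coeff n (i m - g)‖ := by
          rw [← norm_neg]
          congr 1
          simp
        rw [this]
        ring
      have h2 := hit m
      rw [h1] at h2
      rw [mul_one_div, le_div_iff₀ (by positivity)]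
      linarith
    refine squeeze_zero (fun m => nrm_nonneg _ _ _) hn ?_
    have := (tendsto_one_div_add_atTop_nhds_zero_nat (𝕜 := ℝ)).const_mul (1 + a 0)
    rwa [mul_zero] at this
  have hnext : ∀ j ω, BGood β I g a j ω → ∃ ω', BGood β I g a (j + 1) ω' ∧ ∀ n, ω' n ≤ ω n := by
    rintro j ω ⟨⟨c, hc, hcω⟩, ⟨C, hC⟩, hP⟩
    obtain ⟨m, hm, hmP⟩ := B_step hβ hcl (hapos (j+1)) (haanti j) (hga j)
      (s := 1 + a j) (t := 1 + a (j+1)) (by linarith [haanti j]) ω hc hcω hP
    refine ⟨fun n => min (ω n) (m * wt β (a (j+1)) n), ⟨⟨min c m, lt_min hc hm, fun n => ?_⟩,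
      ⟨m, fun n => min_le_right _ _⟩, hmP⟩, fun n => min_le_left _ _⟩
    refine le_min ?_ ?_
    · refine le_trans ?_ (hcω n)
      exact mul_le_mul (min_le_left _ _) (B_wt_le (haanti j).le n) (B_wt_pos _ _ _).le hc.le
    · exact mul_le_mul_of_nonneg_right (min_le_right _ _) (B_wt_pos _ _ _).le
  choose nx hnx hnxle using hnext
  obtain ⟨ω0, hω0⟩ := hbase
  let F : ∀ j : ℕ, {ω : ℕ → ℝ // BGood β I g a j ω} := fun j =>
    Nat.rec ⟨ω0, hω0⟩ (fun j x => ⟨nx j x.1 x.2, hnx j x.1 x.2⟩) j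
  let Om : ℕ → ℕ → ℝ := fun j => (F j).1
  have hOm : ∀ j, BGood β I g a j (Om j) := fun j => (F j).2
  have hOmle : ∀ j n, Om (j + 1) n ≤ Om j n := fun j n => hnxle j (F j).1 (F j).2 n
  have hOmpos : ∀ j n, 0 < Om j n := by
    intro j n
    obtain ⟨⟨c, hc, hcω⟩, -, -⟩ := hOm j
    exact (mul_pos hc (B_wt_pos _ _ n)).trans_le (hcω n)
  have hOmanti : ∀ n, Antitone fun j => Om j n := fun n => antitone_nat_of_succ_le fun j => hOmle j n
  have hbdd : ∀ n, BddBelow (Set.range fun j => Om j n) := fun n =>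
    ⟨0, by rintro _ ⟨j, rfl⟩; exact (hOmpos j n).le⟩
  let w : ℕ → ℝ := fun n => ⨅ j, Om j n
  have hwlim : ∀ n, Tendsto (fun j => Om j n) atTop (𝓝 (w n)) := fun n =>
    tendsto_atTop_ciInf (hOmanti n) (hbdd n)
  have hw0 : ∀ n, 0 ≤ w n := fun n => le_ciInf fun j => (hOmpos j n).le
  have hwle : ∀ j n, w n ≤ Om j n := fun j n => ciInf_le (hbdd n) j
  have halim : Tendsto a atTop (𝓝 0) := by
    simp only [ha]
    have h1 : Tendsto (fun j : ℕ => (k0:ℝ) + 1 + j) atTop atTop :=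
      tendsto_atTop_add_const_left _ _ tendsto_natCast_atTop_atTop
    refine (h1.inv_tendsto_atTop).congr fun j => ?_
    simp
  have hOms : ∀ p : PowerSeries ℂ, ∀ j, FW β (a j) p →
      Summable fun n => ‖PowerSeries.coeff n p‖ * Om j n := by
    intro p j hp
    obtain ⟨-, ⟨C, hC⟩, -⟩ := hOm j
    refine Summable.of_nonneg_of_le (fun n => mul_nonneg (norm_nonneg _) (hOmpos j n).le)
      (fun n => ?_) (hp.mul_left C)
    calc ‖PowerSeries.coeff n p‖ * Om j n ≤ ‖PowerSeries.coeff n p‖ * (C * wt β (a j) n) :=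
          mul_le_mul_of_nonneg_left (hC n) (norm_nonneg _)
      _ = _ := by ring
  have hAj : ∀ p, AA β p → ∃ J, ∀ j, J ≤ j → FW β (a j) p := by
    rintro p ⟨c, hc, hp⟩
    obtain ⟨J, hJ⟩ := eventually_atTop.mp (halim.eventually_le_const hc)
    exact ⟨J, fun j hj => hp.mono (hJ j hj)⟩
  have hws : ∀ p, AA β p → Summable fun n => ‖PowerSeries.coeff n p‖ * w n := by
    intro p hp
    obtain ⟨J, hJ⟩ := hAj p hp
    exact Summable.of_nonneg_of_le (fun n => mul_nonneg (norm_nonneg _) (hw0 n))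
      (fun n => mul_le_mul_of_nonneg_left (hwle J n) (norm_nonneg _)) (hOms p J (hJ J le_rfl))
  have hgA : AA β g := ⟨c0, hc0, hgc⟩
  have hdist : ∀ i ∈ I, 1 ≤ ∑' n, ‖PowerSeries.coeff n (g - i)‖ * w n := by
    intro i hi
    obtain ⟨J, hJ⟩ := hAj i (hA i hi)
    have hlim : Tendsto (fun j => ∑' n, ‖PowerSeries.coeff n (g - i)‖ * Om j n) atTop
        (𝓝 (∑' n, ‖PowerSeries.coeff n (g - i)‖ * w n)) := by
      refine tendsto_tsum_of_dominated_convergence
        (bound := fun n => ‖PowerSeries.coeff n (g - i)‖ * Om J n)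
        (hOms _ J ((hga J).sub (hJ J le_rfl))) (fun n => (hwlim n).const_mul _) ?_
      filter_upwards [eventually_ge_atTop J] with j hj n
      rw [Real.norm_eq_abs, abs_of_nonneg (mul_nonneg (norm_nonneg _) (hOmpos j n).le)]
      exact mul_le_mul_of_nonneg_left (hOmanti n hj) (norm_nonneg _)
    refine ge_of_tendsto hlim ?_
    filter_upwards [eventually_ge_atTop J] with j hj
    have := (hOm j).2.2 i hi (hJ j hj)
    linarith [hapos j]
  -- the lp space
  have hmem : ∀ p, AA β p → Memℓp (fun n : ℕ => ((w n : ℝ) : ℂ) * PowerSeries.coeff n p) 1 := by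
    intro p hp
    refine memℓp_gen ?_
    simp only [ENNReal.toReal_one, Real.rpow_one, norm_mul, Complex.norm_real, Real.norm_eq_abs,
      abs_of_nonneg (hw0 _)]
    exact (hws p hp).congr fun n => mul_comm _ _
  let J : ∀ p, AA β p → lp (fun _ : ℕ => ℂ) 1 := fun p hp => ⟨_, hmem p hp⟩
  have hJnorm : ∀ p hp, ‖J p hp‖ = ∑' n, ‖PowerSeries.coeff n p‖ * w n := by
    intro p hp
    rw [lp.norm_eq_tsum_rpow (by simp)]
    simp only [ENNReal.toReal_one, Real.rpow_one, div_one]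
    refine tsum_congr fun n => ?_
    change ‖((w n : ℝ) : ℂ) * PowerSeries.coeff n p‖ = _
    rw [norm_mul, Complex.norm_real, Real.norm_eq_abs, abs_of_nonneg (hw0 n), mul_comm]
  have h0A : AA β (0 : PowerSeries ℂ) := hA 0 h0
  let S : Submodule ℂ (lp (fun _ : ℕ => ℂ) 1) :=
    { carrier := {x | ∃ p, ∃ hp : p ∈ I, x = J p (hA p hp)}
      add_mem' := by
        rintro x y ⟨p, hp, rfl⟩ ⟨q, hq, rfl⟩
        refine ⟨p + q, hadd p hp q hq, ?_⟩
        ext n
        change ((w n : ℝ) : ℂ) * PowerSeries.coeff n p + ((w n : ℝ) : ℂ) * PowerSeries.coeff n q =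
          ((w n : ℝ) : ℂ) * PowerSeries.coeff n (p + q)
        rw [map_add]
        ring
      zero_mem' := by
        refine ⟨0, h0, ?_⟩
        ext n
        change (0:ℂ) = ((w n : ℝ) : ℂ) * PowerSeries.coeff n (0 : PowerSeries ℂ)
        simp
      smul_mem' := by
        rintro c x ⟨p, hp, rfl⟩
        refine ⟨c • p, hsmul p hp c, ?_⟩
        ext n
        change c * (((w n : ℝ) : ℂ) * PowerSeries.coeff n p) =
          ((w n : ℝ) : ℂ) * PowerSeries.coeff n (c • p)
        rw [map_smul, smul_eq_mul]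
        ring }
  obtain ⟨f, hf0, hfg⟩ := B_sep S (J g hgA) (by
    rintro y ⟨p, hp, rfl⟩
    have e : J g hgA - J p (hA p hp) = J (g - p) (hgA.sub (hA p hp)) := by
      ext n
      change ((w n : ℝ) : ℂ) * PowerSeries.coeff n g - ((w n : ℝ) : ℂ) * PowerSeries.coeff n p =
        ((w n : ℝ) : ℂ) * PowerSeries.coeff n (g - p)
      rw [map_sub]
      ring
    rw [e, hJnorm _ (hgA.sub (hA p hp))]
    exact hdist p hp)
  let b : ℕ → ℂ := fun n => f (lp.single 1 n ((w n : ℝ) : ℂ))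
  have hbn : ∀ n, ‖b n‖ ≤ ‖f‖ * w n := by
    intro n
    refine (f.le_opNorm _).trans ?_
    rw [lp.norm_single (by norm_num), Complex.norm_real, Real.norm_eq_abs, abs_of_nonneg (hw0 n)]
  have hPhi : ∀ p hp, Phi b p = f (J p hp) := by
    intro p hp
    have h1 := lp.hasSum_single (p := 1) (by norm_num) (J p hp)
    have h2 := f.hasSum h1
    unfold Phi
    rw [← h2.tsum_eq]
    refine tsum_congr fun n => ?_
    have h3 : lp.single 1 n ((J p hp : ∀ _ : ℕ, ℂ) n) =
        PowerSeries.coeff n p • lp.single (E := fun _ : ℕ => ℂ) 1 n ((w n : ℝ) : ℂ) := by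
      rw [← lp.single_smul]
      congr 1
      change ((w n : ℝ) : ℂ) * PowerSeries.coeff n p = PowerSeries.coeff n p * ((w n : ℝ) : ℂ)
      ring
    rw [h3, map_smul, smul_eq_mul, mul_comm]
  refine ⟨b, ?_, ?_, ?_⟩
  · intro c hc
    obtain ⟨K, hK⟩ := eventually_atTop.mp (halim.eventually_le_const hc)
    obtain ⟨-, ⟨C, hC⟩, -⟩ := hOm K
    refine ⟨‖f‖ * |C|, fun n => (hbn n).trans ?_⟩
    have h1 : w n ≤ |C| * wt β c n := by
      calc w n ≤ Om K n := hwle K n
        _ ≤ C * wt β (a K) n := hC n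
        _ ≤ |C| * wt β (a K) n := mul_le_mul_of_nonneg_right (le_abs_self C) (B_wt_pos _ _ _).le
        _ ≤ |C| * wt β c n := mul_le_mul_of_nonneg_left (B_wt_le (hK K le_rfl) n) (abs_nonneg C)
    rw [mul_assoc]
    exact mul_le_mul_of_nonneg_left h1 (norm_nonneg _)
  · intro p hp
    rw [hPhi p (hA p hp)]
    exact hf0 _ ⟨p, hp, rfl⟩
  · rw [hPhi g hgA]
    exact hfg

end Pool.Agent.Helper203.GV
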