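import Pool.Agent.Helper203.GV.Defs
import Pool.Agent.Helper203.GV.HfM
import Pool.Agent.Helper203.GV.Misc1

open MeasureTheory Filter Topology Set

noncomputable section

namespace Pool.Agent.Helper203.GV

section neu
open scoped ENNReal

instance neu_fin : IsFiniteMeasure sg := by
  unfold sg
  infer_instance

theorem neu_norm : ∀ᵐ ζ ∂sg, ‖ζ‖ = 1 := by
  unfold sg
  rw [ae_map_iff (by fun_prop) (isClosed_eq continuous_norm continuous_const).measurableSet]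
  exact Filter.Eventually.of_forall fun t => Complex.norm_exp_ofReal_mul_I t

/-- the kernel -/
def neu_k (ψ : ℂ → ℝ) (z x : ℂ) : ℝ≥0∞ :=
  Set.indicator {p : ℂ × ℂ | ψ p.1 / 4 ≤ ‖p.1 - p.2‖}
    (fun p => ENNReal.ofReal (ψ p.1 / ‖p.1 - p.2‖ ^ 2)) (z, x)

theorem neu_k_meas {ψ : ℂ → ℝ} (hψ : Continuous ψ) :
    Measurable (fun p : ℂ × ℂ => neu_k ψ p.1 p.2) := by
  have h1 : MeasurableSet {p : ℂ × ℂ | ψ p.1 / 4 ≤ ‖p.1 - p.2‖} :=
    (isClosed_le (by fun_prop) (by fun_prop)).measurableSet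
  have h2 : Measurable (fun p : ℂ × ℂ => ENNReal.ofReal (ψ p.1 / ‖p.1 - p.2‖ ^ 2)) := by
    apply Measurable.ennreal_ofReal
    exact (hψ.comp continuous_fst).measurable.div
      ((continuous_fst.sub continuous_snd).norm.pow 2).measurable
  exact h2.indicator h1

theorem neu_k_int {ψ : ℂ → ℝ} (hψ : Continuous ψ) (ζ : ℂ) :
    ∫⁻ z, neu_k ψ z ζ ∂sg =
      ∫⁻ z in {z | ψ z / 4 ≤ ‖z - ζ‖}, ENNReal.ofReal (ψ z / ‖z - ζ‖ ^ 2) ∂sg := by
  have h1 : MeasurableSet {z : ℂ | ψ z / 4 ≤ ‖z - ζ‖} :=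
    (isClosed_le (by fun_prop) (by fun_prop)).measurableSet
  rw [← lintegral_indicator h1]
  refine lintegral_congr fun z => ?_
  unfold neu_k
  by_cases h : ψ z / 4 ≤ ‖z - ζ‖
  · rw [Set.indicator_of_mem (show (z, ζ) ∈ {p : ℂ × ℂ | ψ p.1 / 4 ≤ ‖p.1 - p.2‖} from h),
      Set.indicator_of_mem (show z ∈ {z : ℂ | ψ z / 4 ≤ ‖z - ζ‖} from h)]
  · rw [Set.indicator_of_notMem (show (z, ζ) ∉ {p : ℂ × ℂ | ψ p.1 / 4 ≤ ‖p.1 - p.2‖} from h),
      Set.indicator_of_notMem (show z ∉ {z : ℂ | ψ z / 4 ≤ ‖z - ζ‖} from h)]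

def neu_A (ψ : ℂ → ℝ) (θ : ℝ≥0∞) (W : ℂ → ℝ≥0∞) (z : ℂ) : ℝ≥0∞ :=
  θ * ∫⁻ x, W x * neu_k ψ z x ∂sg

theorem neu_A_meas {ψ : ℂ → ℝ} (hψ : Continuous ψ) (θ : ℝ≥0∞) {W : ℂ → ℝ≥0∞}
    (hW : Measurable W) : Measurable (neu_A ψ θ W) := by
  have h1 : Measurable (fun p : ℂ × ℂ => W p.2 * neu_k ψ p.1 p.2) :=
    (hW.comp measurable_snd).mul (neu_k_meas hψ)
  exact (h1.lintegral_prod_right').const_mul θ

theorem neu_A_int {ψ : ℂ → ℝ} (hψ : Continuous ψ) {κ : ℝ≥0∞}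
    (hB : ∀ᵐ x ∂sg, ∫⁻ z, neu_k ψ z x ∂sg ≤ κ) (θ : ℝ≥0∞) {W : ℂ → ℝ≥0∞}
    (hW : Measurable W) : ∫⁻ z, neu_A ψ θ W z ∂sg ≤ (θ * κ) * ∫⁻ z, W z ∂sg := by
  have h1 : Measurable (fun p : ℂ × ℂ => W p.2 * neu_k ψ p.1 p.2) :=
    (hW.comp measurable_snd).mul (neu_k_meas hψ)
  unfold neu_A
  rw [lintegral_const_mul _ h1.lintegral_prod_right', mul_assoc]
  gcongr
  rw [lintegral_lintegral_swap h1.aemeasurable, ← lintegral_const_mul _ hW]
  apply lintegral_mono_ae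
  filter_upwards [hB] with x hx
  have h2 : Measurable (fun z => neu_k ψ z x) :=
    (neu_k_meas hψ).comp (measurable_id.prodMk measurable_const)
  rw [lintegral_const_mul _ h2, mul_comm]
  gcongr

theorem neu_series {ψ : ℂ → ℝ} (hψ : Continuous ψ) {κ : ℝ≥0∞}
    (hB : ∀ᵐ x ∂sg, ∫⁻ z, neu_k ψ z x ∂sg ≤ κ) (θ : ℝ≥0∞) (h0 : θ * κ ≠ 0) (ht : θ * κ ≠ ⊤)
    {w : ℂ → ℝ≥0∞} (hw : Measurable w) :
    ∃ V : ℂ → ℝ≥0∞, Measurable V ∧ (∀ z, w z ≤ V z) ∧ ∫⁻ z, V z ∂sg ≤ 2 * ∫⁻ z, w z ∂sg ∧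
      ∀ z, neu_A ψ θ V z ≤ 2 * (θ * κ) * V z := by
  set An : ℕ → ℂ → ℝ≥0∞ := fun n => (neu_A ψ θ)^[n] w with hAn
  have hAm : ∀ n, Measurable (An n) := by
    intro n
    induction n with
    | zero => exact hw
    | succ n ih =>
      have : An (n + 1) = neu_A ψ θ (An n) := by
        simp only [hAn, Function.iterate_succ_apply']
      rw [this]
      exact neu_A_meas hψ θ ih
  have hAs : ∀ n, An (n + 1) = neu_A ψ θ (An n) := fun n => by
    simp only [hAn, Function.iterate_succ_apply']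
  have hAi : ∀ n, ∫⁻ z, An n z ∂sg ≤ (θ * κ) ^ n * ∫⁻ z, w z ∂sg := by
    intro n
    induction n with
    | zero => simp [hAn]
    | succ n ih =>
      rw [hAs]
      refine (neu_A_int hψ hB θ (hAm n)).trans ?_
      calc θ * κ * ∫⁻ z, An n z ∂sg ≤ θ * κ * ((θ * κ) ^ n * ∫⁻ z, w z ∂sg) := by gcongr
        _ = (θ * κ) ^ (n + 1) * ∫⁻ z, w z ∂sg := by ring
  set q : ℝ≥0∞ := (2 * (θ * κ))⁻¹ with hq
  have h20 : 2 * (θ * κ) ≠ 0 := mul_ne_zero (by norm_num) h0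
  have h2t : 2 * (θ * κ) ≠ ⊤ := ENNReal.mul_ne_top (by norm_num) ht
  have hqk : q * (θ * κ) = 2⁻¹ := by
    rw [hq, ENNReal.mul_inv (Or.inl (by norm_num)) (Or.inl (by norm_num)), mul_assoc,
      ENNReal.inv_mul_cancel h0 ht, mul_one]
  refine ⟨fun z => ∑' n, q ^ n * An n z, Measurable.tsum fun n => (hAm n).const_mul _, ?_, ?_, ?_⟩
  · intro z
    have := ENNReal.le_tsum (f := fun n => q ^ n * An n z) 0
    simpa [hAn] using this
  · rw [lintegral_tsum fun n => ((hAm n).const_mul _).aemeasurable]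
    calc ∑' n, ∫⁻ z, q ^ n * An n z ∂sg = ∑' n, q ^ n * ∫⁻ z, An n z ∂sg := by
          congr 1
          ext n
          rw [lintegral_const_mul _ (hAm n)]
      _ ≤ ∑' n : ℕ, (2⁻¹ : ℝ≥0∞) ^ n * ∫⁻ z, w z ∂sg := by
          refine ENNReal.tsum_le_tsum fun n => ?_
          calc q ^ n * ∫⁻ z, An n z ∂sg ≤ q ^ n * ((θ * κ) ^ n * ∫⁻ z, w z ∂sg) := by
                gcongr
                exact hAi n
            _ = (2⁻¹ : ℝ≥0∞) ^ n * ∫⁻ z, w z ∂sg := by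
                rw [← mul_assoc, ← mul_pow, hqk]
      _ = 2 * ∫⁻ z, w z ∂sg := by
          rw [ENNReal.tsum_mul_right, ENNReal.tsum_geometric, ENNReal.one_sub_inv_two, inv_inv]
  · intro z
    have hkm : Measurable (fun x => neu_k ψ z x) :=
      (neu_k_meas hψ).comp (measurable_const.prodMk measurable_id)
    have e1 : neu_A ψ θ (fun z => ∑' n, q ^ n * An n z) z = ∑' n, q ^ n * An (n + 1) z := by
      unfold neu_A
      have e2 : ∀ x, (∑' n, q ^ n * An n x) * neu_k ψ z x =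
          ∑' n, q ^ n * (An n x * neu_k ψ z x) := by
        intro x
        rw [← ENNReal.tsum_mul_right]
        congr 1
        ext n
        rw [mul_assoc]
      have hmm : ∀ n, AEMeasurable (fun x => q ^ n * (An n x * neu_k ψ z x)) sg := fun n =>
        (((hAm n).mul hkm).const_mul _).aemeasurable
      have hm2 : ∀ n, Measurable (fun x => An n x * neu_k ψ z x) := fun n => (hAm n).mul hkm
      rw [lintegral_congr e2, lintegral_tsum hmm, ← ENNReal.tsum_mul_left]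
      congr 1
      ext n
      rw [lintegral_const_mul _ (hm2 n), hAs]
      unfold neu_A
      ring
    rw [e1]
    have e3 : 2 * (θ * κ) * ∑' n, q ^ n * An n z = ∑' n, 2 * (θ * κ) * (q ^ n * An n z) :=
      ENNReal.tsum_mul_left.symm
    rw [e3]
    calc ∑' n, q ^ n * An (n + 1) z = ∑' n, 2 * (θ * κ) * (q ^ (n + 1) * An (n + 1) z) := by
          congr 1
          ext n
          rw [pow_succ', ← mul_assoc, ← mul_assoc, hq, ENNReal.mul_inv_cancel h20 h2t, one_mul]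
      _ ≤ ∑' n, 2 * (θ * κ) * (q ^ n * An n z) :=
          ENNReal.tsum_comp_le_tsum_of_injective (f := fun n : ℕ => n + 1)
            (fun a b h => by simpa using h) (fun n => 2 * (θ * κ) * (q ^ n * An n z))


/-- averaging -/
theorem neu_avg {ψ : ℂ → ℝ} (hL : LipschitzWith 1 ψ)
    (hψ1 : ∀ z, ‖z‖ = 1 → ψ z ≤ 1) {K θ : ℝ} (hK : 1 ≤ K) (hθ : 0 < θ) (hθ1 : θ ≤ 1 / 32)
    {V : ℂ → ℝ≥0∞} (hV : Measurable V)
    (hAV : ∀ z, neu_A ψ (ENNReal.ofReal θ) V z ≤ 2 * (ENNReal.ofReal θ * ENNReal.ofReal K) * V z)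
    {z : ℂ} (hz0 : 0 < ψ z) (hz1 : ‖z‖ ≤ 1 + θ * ψ z / 2) (hz2 : 1 - ‖z‖ ≤ θ * ψ z) :
    ∫⁻ ζ in {ζ | ψ z / 2 ≤ ‖ζ - z‖}, V ζ * ENNReal.ofReal ((θ * ψ z) / ‖ζ - z‖ ^ 2) ∂sg ≤
      ENNReal.ofReal (36 * θ * K) *
        ∫⁻ ζ in {ζ | ‖ζ - z‖ < ψ z / 2},
          V ζ * ENNReal.ofReal ((θ * ψ z) / (‖ζ - z‖ + θ * ψ z) ^ 2) ∂sg := by
  set a : ℝ := θ * ψ z with ha
  have ha0 : 0 < a := mul_pos hθ hz0
  have hLd : ∀ x y : ℂ, |ψ x - ψ y| ≤ ‖x - y‖ := by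
    intro x y
    have := hL.dist_le_mul x y
    rw [Real.dist_eq, dist_eq_norm] at this
    simpa using this
  -- size of ψ z
  have hψz : ψ z ≤ 16 / 5 := by
    have h1 := (abs_le.mp (hLd z 1)).2
    have h2 := hψ1 1 (by simp)
    have h3 : ‖z - 1‖ ≤ ‖z‖ + 1 := by
      have := norm_sub_le z 1
      simpa using this
    have h4 : θ * ψ z ≤ 1 / 32 * ψ z := mul_le_mul_of_nonneg_right hθ1 hz0.le
    linarith
  have ha1 : a ≤ 1 / 10 := by
    have h4 : θ * ψ z ≤ 1 / 32 * ψ z := mul_le_mul_of_nonneg_right hθ1 hz0.le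
    linarith
  have hzn : 0 < ‖z‖ := by linarith
  have hzne : z ≠ 0 := norm_pos_iff.mp hzn
  -- nearest point
  set u : ℂ := ((‖z‖⁻¹ : ℝ) : ℂ) * z with hu
  have hun : ‖u‖ = 1 := by
    rw [hu, norm_mul, Complex.norm_real, norm_inv, norm_norm, inv_mul_cancel₀ hzn.ne']
  have hzu : ‖z - u‖ ≤ a := by
    have h1 : z - u = ((1 - ‖z‖⁻¹ : ℝ) : ℂ) * z := by
      rw [hu]; push_cast; ring
    rw [h1, norm_mul, Complex.norm_real, Real.norm_eq_abs]
    have h2 : |1 - ‖z‖⁻¹| * ‖z‖ = |‖z‖ - 1| := by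
      rw [← abs_of_pos hzn, ← abs_mul, abs_of_pos hzn, sub_mul, inv_mul_cancel₀ hzn.ne', one_mul]
    rw [h2, abs_le]
    constructor <;> linarith
  -- far set estimate for nearby points of the circle
  have hfar : ∀ ζ' ∈ Metric.ball u a, 
      ∫⁻ ζ in {ζ | ψ z / 2 ≤ ‖ζ - z‖}, V ζ * ENNReal.ofReal (a / ‖ζ - z‖ ^ 2) ∂sg ≤
        ENNReal.ofReal (4 * θ * K) * V ζ' := by
    intro ζ' hζ'
    rw [Metric.mem_ball, dist_eq_norm] at hζ'
    have hd : ‖ζ' - z‖ ≤ 2 * a := by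
      have h1 : ζ' - z = (ζ' - u) - (z - u) := by ring
      rw [h1]
      refine (norm_sub_le _ _).trans ?_
      linarith
    have hψ' := abs_le.mp ((hLd ζ' z).trans hd)
    have h32 : 2 * a ≤ ψ z / 16 := by
      have h4 : θ * ψ z ≤ 1 / 32 * ψ z := mul_le_mul_of_nonneg_right hθ1 hz0.le
      linarith
    have key : ∀ ζ ∈ {ζ | ψ z / 2 ≤ ‖ζ - z‖}, V ζ * ENNReal.ofReal (a / ‖ζ - z‖ ^ 2) ≤
        (2 * ENNReal.ofReal θ) * (V ζ * neu_k ψ ζ' ζ) := by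
      intro ζ hζ
      have hζ1 : ψ z / 2 ≤ ‖ζ - z‖ := hζ
      have hn1 : ‖ζ - z‖ ≤ ‖ζ' - ζ‖ + 2 * a := by
        have h1 : ζ - z = (ζ' - z) - (ζ' - ζ) := by ring
        rw [h1]
        refine (norm_sub_le _ _).trans ?_
        linarith
      have hn2 : ‖ζ' - ζ‖ ≤ ‖ζ - z‖ + 2 * a := by
        have h1 : ζ' - ζ = (ζ' - z) - (ζ - z) := by ring
        rw [h1]
        refine (norm_sub_le _ _).trans ?_
        linarith
      have hmem : ψ ζ' / 4 ≤ ‖ζ' - ζ‖ := by linarith [hψ'.2]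
      have hk : neu_k ψ ζ' ζ = ENNReal.ofReal (ψ ζ' / ‖ζ' - ζ‖ ^ 2) := by
        unfold neu_k
        rw [Set.indicator_of_mem
          (show (ζ', ζ) ∈ {p : ℂ × ℂ | ψ p.1 / 4 ≤ ‖p.1 - p.2‖} from hmem)]
      rw [hk, show (2 : ℝ≥0∞) * ENNReal.ofReal θ *
        (V ζ * ENNReal.ofReal (ψ ζ' / ‖ζ' - ζ‖ ^ 2)) =
        V ζ * (2 * ENNReal.ofReal θ * ENNReal.ofReal (ψ ζ' / ‖ζ' - ζ‖ ^ 2)) by ring]
      gcongr
      have h2 : (2 : ℝ≥0∞) = ENNReal.ofReal 2 := by simp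
      rw [h2, ← ENNReal.ofReal_mul (by norm_num), ← ENNReal.ofReal_mul (by positivity)]
      apply ENNReal.ofReal_le_ofReal
      have hr0 : 0 < ‖ζ - z‖ := by linarith
      have hs0 : 0 < ‖ζ' - ζ‖ := by linarith
      rw [← mul_div_assoc, div_le_div_iff₀ (by positivity) (by positivity)]
      -- a * s^2 ≤ 2 θ ψ' * r^2
      have hs1 : ‖ζ' - ζ‖ ≤ 9 / 8 * ‖ζ - z‖ := by linarith
      have hs2 : ‖ζ' - ζ‖ ^ 2 ≤ (9 / 8 * ‖ζ - z‖) ^ 2 := pow_le_pow_left₀ hs0.le hs1 2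
      have hψ2 : 15 / 16 * ψ z ≤ ψ ζ' := by linarith [hψ'.1]
      calc a * ‖ζ' - ζ‖ ^ 2 ≤ a * (9 / 8 * ‖ζ - z‖) ^ 2 := mul_le_mul_of_nonneg_left hs2 ha0.le
        _ = θ * (81 / 64 * ψ z) * ‖ζ - z‖ ^ 2 := by rw [ha]; ring
        _ ≤ θ * (2 * ψ ζ') * ‖ζ - z‖ ^ 2 := by
            apply mul_le_mul_of_nonneg_right _ (by positivity)
            apply mul_le_mul_of_nonneg_left _ hθ.le
            linarith
        _ = 2 * θ * ψ ζ' * ‖ζ - z‖ ^ 2 := by ring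
    have hms : MeasurableSet {ζ : ℂ | ψ z / 2 ≤ ‖ζ - z‖} :=
      (isClosed_le continuous_const (by fun_prop)).measurableSet
    have hkm : Measurable (fun x => neu_k ψ ζ' x) :=
      (neu_k_meas hL.continuous).comp (measurable_const.prodMk measurable_id)
    calc ∫⁻ ζ in {ζ | ψ z / 2 ≤ ‖ζ - z‖}, V ζ * ENNReal.ofReal (a / ‖ζ - z‖ ^ 2) ∂sg
        ≤ ∫⁻ ζ in {ζ | ψ z / 2 ≤ ‖ζ - z‖}, (2 * ENNReal.ofReal θ) * (V ζ * neu_k ψ ζ' ζ) ∂sg :=
          setLIntegral_mono' hms key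
      _ ≤ ∫⁻ ζ, (2 * ENNReal.ofReal θ) * (V ζ * neu_k ψ ζ' ζ) ∂sg :=
          setLIntegral_le_lintegral _ _
      _ = 2 * neu_A ψ (ENNReal.ofReal θ) V ζ' := by
          have hm2 : Measurable (fun ζ => V ζ * neu_k ψ ζ' ζ) := hV.mul hkm
          rw [lintegral_const_mul _ hm2]
          unfold neu_A
          ring
      _ ≤ 2 * (2 * (ENNReal.ofReal θ * ENNReal.ofReal K) * V ζ') := by
          gcongr
          exact hAV ζ'
      _ = ENNReal.ofReal (4 * θ * K) * V ζ' := by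
          rw [ENNReal.ofReal_mul (by positivity), ENNReal.ofReal_mul (by norm_num)]
          have : ENNReal.ofReal 4 = 4 := by simp
          rw [this]
          ring
  -- average
  set Ff : ℝ≥0∞ :=
    ∫⁻ ζ in {ζ | ψ z / 2 ≤ ‖ζ - z‖}, V ζ * ENNReal.ofReal (a / ‖ζ - z‖ ^ 2) ∂sg with hFf
  set Nn : ℝ≥0∞ := ∫⁻ ζ in {ζ | ‖ζ - z‖ < ψ z / 2},
    V ζ * ENNReal.ofReal (a / (‖ζ - z‖ + a) ^ 2) ∂sg with hNn
  have h1 : ENNReal.ofReal a * Ff ≤ ENNReal.ofReal (4 * θ * K) *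
      ∫⁻ ζ' in Metric.ball u a, V ζ' ∂sg := by
    calc ENNReal.ofReal a * Ff ≤ sg (Metric.ball u a) * Ff := by
          gcongr
          exact sg_ball_ge hun ha0.le (by linarith)
      _ = ∫⁻ ζ' in Metric.ball u a, Ff ∂sg := by
          rw [setLIntegral_const, mul_comm]
      _ ≤ ∫⁻ ζ' in Metric.ball u a, ENNReal.ofReal (4 * θ * K) * V ζ' ∂sg :=
          setLIntegral_mono' Metric.isOpen_ball.measurableSet hfar
      _ = _ := lintegral_const_mul _ hV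
  have h2 : ∫⁻ ζ' in Metric.ball u a, V ζ' ∂sg ≤ ENNReal.ofReal (9 * a) * Nn := by
    have hsub : Metric.ball u a ⊆ {ζ | ‖ζ - z‖ < ψ z / 2} := by
      intro ζ hζ
      rw [Metric.mem_ball, dist_eq_norm] at hζ
      have h4 : θ * ψ z ≤ 1 / 32 * ψ z := mul_le_mul_of_nonneg_right hθ1 hz0.le
      have h1 : ζ - z = (ζ - u) - (z - u) := by ring
      show ‖ζ - z‖ < ψ z / 2
      rw [h1]
      refine (norm_sub_le _ _).trans_lt ?_
      linarith
    have hmN : Measurable (fun ζ => V ζ * ENNReal.ofReal (a / (‖ζ - z‖ + a) ^ 2)) := by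
      apply hV.mul
      apply Measurable.ennreal_ofReal
      exact measurable_const.div
        ((((continuous_id.sub continuous_const).norm.add continuous_const).pow 2).measurable)
    calc ∫⁻ ζ' in Metric.ball u a, V ζ' ∂sg
        ≤ ∫⁻ ζ' in Metric.ball u a, ENNReal.ofReal (9 * a) *
            (V ζ' * ENNReal.ofReal (a / (‖ζ' - z‖ + a) ^ 2)) ∂sg := by
          apply setLIntegral_mono' Metric.isOpen_ball.measurableSet
          intro ζ hζ
          rw [Metric.mem_ball, dist_eq_norm] at hζ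
          have h3 : ‖ζ - z‖ ≤ 2 * a := by
            have h1 : ζ - z = (ζ - u) - (z - u) := by ring
            rw [h1]
            refine (norm_sub_le _ _).trans ?_
            linarith
          have h4 : 1 ≤ 9 * a * (a / (‖ζ - z‖ + a) ^ 2) := by
            rw [← mul_div_assoc, one_le_div (by positivity)]
            have h5 : (‖ζ - z‖ + a) ^ 2 ≤ (3 * a) ^ 2 :=
              pow_le_pow_left₀ (by positivity) (by linarith) 2
            linarith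
          calc V ζ = V ζ * 1 := (mul_one _).symm
            _ ≤ V ζ * ENNReal.ofReal (9 * a * (a / (‖ζ - z‖ + a) ^ 2)) := by
                gcongr
                rw [← ENNReal.ofReal_one]
                exact ENNReal.ofReal_le_ofReal h4
            _ = _ := by
                rw [ENNReal.ofReal_mul (by positivity)]
                ring
      _ = ENNReal.ofReal (9 * a) * ∫⁻ ζ' in Metric.ball u a,
            (V ζ' * ENNReal.ofReal (a / (‖ζ' - z‖ + a) ^ 2)) ∂sg := lintegral_const_mul _ hmN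
      _ ≤ ENNReal.ofReal (9 * a) * Nn := by
          gcongr
          exact lintegral_mono_set hsub
  have h3 : ENNReal.ofReal a * Ff ≤ ENNReal.ofReal a * (ENNReal.ofReal (36 * θ * K) * Nn) := by
    calc ENNReal.ofReal a * Ff ≤ ENNReal.ofReal (4 * θ * K) *
        ∫⁻ ζ' in Metric.ball u a, V ζ' ∂sg := h1
      _ ≤ ENNReal.ofReal (4 * θ * K) * (ENNReal.ofReal (9 * a) * Nn) := by gcongr
      _ = ENNReal.ofReal a * (ENNReal.ofReal (36 * θ * K) * Nn) := by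
          have e : ENNReal.ofReal (4 * θ * K) * ENNReal.ofReal (9 * a) =
              ENNReal.ofReal a * ENNReal.ofReal (36 * θ * K) := by
            rw [← ENNReal.ofReal_mul (by positivity), ← ENNReal.ofReal_mul ha0.le]
            congr 1
            ring
          calc ENNReal.ofReal (4 * θ * K) * (ENNReal.ofReal (9 * a) * Nn)
              = (ENNReal.ofReal (4 * θ * K) * ENNReal.ofReal (9 * a)) * Nn :=
                (mul_assoc _ _ _).symm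
            _ = (ENNReal.ofReal a * ENNReal.ofReal (36 * θ * K)) * Nn := by rw [e]
            _ = _ := mul_assoc _ _ _
  exact (ENNReal.mul_le_mul_iff_right (by simpa using ha0) ENNReal.ofReal_ne_top).mp h3

end neu

theorem neumann {ψ : ℂ → ℝ} (hL : LipschitzWith 1 ψ) (hd : ∀ z, |1 - ‖z‖| ≤ ψ z)
    (hψ1 : ∀ z, ‖z‖ = 1 → ψ z ≤ 1) {K : ℝ}
    (hB : ∀ ζ, ‖ζ‖ = 1 →
        ∫⁻ z in {z | ψ z / 4 ≤ ‖z - ζ‖}, ENNReal.ofReal (ψ z / ‖z - ζ‖ ^ 2) ∂sg ≤
          ENNReal.ofReal K) :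
    ∃ θ c : ℝ, 0 < θ ∧ θ ≤ 1/8 ∧ 0 < c ∧ ∀ w : ℂ → ℝ, Measurable w → (∀ ζ, 0 ≤ w ζ) →
      Integrable w sg → ∃ V : ℂ → ℝ, Measurable V ∧ (∀ ζ, w ζ ≤ V ζ) ∧ Integrable V sg ∧
        ∫ ζ, V ζ ∂sg ≤ 2 * ∫ ζ, w ζ ∂sg ∧
        ∀ z : ℂ, 0 < ψ z → ‖z‖ ≤ 1 + θ * ψ z / 2 → 1 - ‖z‖ ≤ θ * ψ z →
          c * (∫ ζ, V ζ * ((θ * ψ z) / (‖ζ - z‖ + θ * ψ z) ^ 2) ∂sg) ≤ (Hf θ ψ V z).re := by
  obtain ⟨c0, C0, hc0, hC0, hlow⟩ := Hf_lower
  set K' : ℝ := max K 1 with hK'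
  have hK1 : 1 ≤ K' := le_max_right _ _
  have hK0 : 0 < K' := by linarith
  set θ : ℝ := min (1 / 32) (min (1 / (36 * K')) (c0 / (72 * C0 * K'))) with hθ
  have hθ0 : 0 < θ := by
    apply lt_min (by norm_num) (lt_min (by positivity) (by positivity))
  have hθ1 : θ ≤ 1 / 32 := min_le_left _ _
  have hθ2 : 36 * θ * K' ≤ 1 := by
    have h : θ ≤ 1 / (36 * K') := (min_le_right _ _).trans (min_le_left _ _)
    rw [le_div_iff₀ (by positivity)] at h
    linarith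
  have hθ3 : C0 * (36 * θ * K') ≤ c0 / 2 := by
    have h : θ ≤ c0 / (72 * C0 * K') := (min_le_right _ _).trans (min_le_right _ _)
    rw [le_div_iff₀ (by positivity)] at h
    linarith
  refine ⟨θ, c0 / 4, hθ0, by linarith, by positivity, fun w hw hw0 hwi => ?_⟩
  have hψc : Continuous ψ := hL.continuous
  have hB' : ∀ᵐ x ∂sg, ∫⁻ z, neu_k ψ z x ∂sg ≤ ENNReal.ofReal K' := by
    filter_upwards [neu_norm] with x hx
    rw [neu_k_int hψc]
    exact (hB x hx).trans (ENNReal.ofReal_le_ofReal (le_max_left _ _))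
  have hκ0 : ENNReal.ofReal θ * ENNReal.ofReal K' ≠ 0 :=
    mul_ne_zero (by simpa using hθ0) (by simpa using hK0)
  obtain ⟨V, hVm, hwV, hVi, hAV⟩ := neu_series hψc hB' (ENNReal.ofReal θ) hκ0
    (ENNReal.mul_ne_top ENNReal.ofReal_ne_top ENNReal.ofReal_ne_top) hw.ennreal_ofReal
  have hw0i : ∫⁻ z, ENNReal.ofReal (w z) ∂sg = ENNReal.ofReal (∫ z, w z ∂sg) :=
    (ofReal_integral_eq_lintegral_ofReal hwi (Filter.Eventually.of_forall hw0)).symm
  have hVfin : ∫⁻ z, V z ∂sg ≠ ⊤ := by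
    refine ne_top_of_le_ne_top ?_ hVi
    rw [hw0i]
    exact ENNReal.mul_ne_top (by norm_num) ENNReal.ofReal_ne_top
  have hVae : ∀ᵐ z ∂sg, V z < ⊤ := ae_lt_top hVm hVfin
  classical
  set Vr : ℂ → ℝ := fun z => if V z = ⊤ then w z else (V z).toReal with hVr
  have hVrm : Measurable Vr :=
    Measurable.ite (hVm (measurableSet_singleton ⊤)) hw hVm.ennreal_toReal
  have hVrae : ∀ᵐ z ∂sg, ENNReal.ofReal (Vr z) = V z := by
    filter_upwards [hVae] with z hz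
    simp only [hVr, if_neg hz.ne]
    exact ENNReal.ofReal_toReal hz.ne
  have hwVr : ∀ z, w z ≤ Vr z := by
    intro z
    by_cases h : V z = ⊤
    · simp only [hVr, if_pos h]; exact le_rfl
    · simp only [hVr, if_neg h]
      exact (ENNReal.ofReal_le_iff_le_toReal h).mp (hwV z)
  have hVr0 : ∀ z, 0 ≤ Vr z := fun z => (hw0 z).trans (hwVr z)
  have hVrl : ∫⁻ z, ENNReal.ofReal (Vr z) ∂sg = ∫⁻ z, V z ∂sg := lintegral_congr_ae hVrae
  have hVri : Integrable Vr sg := by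
    refine ⟨hVrm.aestronglyMeasurable, ?_⟩
    rw [hasFiniteIntegral_iff_ofReal (Filter.Eventually.of_forall hVr0), hVrl]
    exact lt_top_iff_ne_top.mpr hVfin
  refine ⟨Vr, hVrm, hwVr, hVri, ?_, ?_⟩
  · have h1 : ENNReal.ofReal (∫ ζ, Vr ζ ∂sg) ≤ ENNReal.ofReal (2 * ∫ ζ, w ζ ∂sg) := by
      rw [ofReal_integral_eq_lintegral_ofReal hVri (Filter.Eventually.of_forall hVr0), hVrl,
        ENNReal.ofReal_mul (by norm_num), ← hw0i]
      simpa using hVi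
    have h2 : 0 ≤ ∫ ζ, w ζ ∂sg := integral_nonneg hw0
    exact (ENNReal.ofReal_le_ofReal_iff (by positivity)).mp h1
  · intro z hz0 hz1 hz2
    have hlz := hlow hθ0 (by linarith) hL hd hψ1 hVri hVr0 z hz0 hz1
    have havg := neu_avg hL hψ1 hK1 hθ0 hθ1 hVm hAV hz0 hz1 hz2
    have ha0 : 0 < θ * ψ z := mul_pos hθ0 hz0
    set a : ℝ := θ * ψ z with ha
    have hconv : ∀ (S : Set ℂ) (g : ℂ → ℝ), Measurable g → (∀ ζ, 0 ≤ g ζ) →
        ∫ ζ in S, Vr ζ * g ζ ∂sg = (∫⁻ ζ in S, V ζ * ENNReal.ofReal (g ζ) ∂sg).toReal := by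
      intro S g hg hg0
      rw [integral_eq_lintegral_of_nonneg_ae
        (Filter.Eventually.of_forall fun ζ => mul_nonneg (hVr0 ζ) (hg0 ζ))
        (hVrm.mul hg).aestronglyMeasurable]
      congr 1
      refine lintegral_congr_ae (ae_restrict_of_ae ?_)
      filter_upwards [hVrae] with ζ hζ
      rw [ENNReal.ofReal_mul (hVr0 ζ), hζ]
    have hgN : Measurable (fun ζ : ℂ => a / (‖ζ - z‖ + a) ^ 2) :=
      measurable_const.div
        ((((continuous_id.sub continuous_const).norm.add continuous_const).pow 2).measurable)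
    have hgF : Measurable (fun ζ : ℂ => a / ‖ζ - z‖ ^ 2) :=
      measurable_const.div ((((continuous_id.sub continuous_const).norm).pow 2).measurable)
    have hgN0 : ∀ ζ : ℂ, 0 ≤ a / (‖ζ - z‖ + a) ^ 2 := fun ζ => by positivity
    have hgF0 : ∀ ζ : ℂ, 0 ≤ a / ‖ζ - z‖ ^ 2 := fun ζ => by positivity
    set NE : ENNReal := ∫⁻ ζ in {ζ | ‖ζ - z‖ < ψ z / 2},
      V ζ * ENNReal.ofReal (a / (‖ζ - z‖ + a) ^ 2) ∂sg with hNE
    set FE : ENNReal := ∫⁻ ζ in {ζ | ψ z / 2 ≤ ‖ζ - z‖},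
      V ζ * ENNReal.ofReal (a / ‖ζ - z‖ ^ 2) ∂sg with hFE
    have e1 := hconv {ζ | ‖ζ - z‖ < ψ z / 2} _ hgN hgN0
    have e2 := hconv {ζ | ψ z / 2 ≤ ‖ζ - z‖} _ hgF hgF0
    have e3 := hconv univ _ hgN hgN0
    rw [setIntegral_univ, setLIntegral_univ] at e3
    rw [← hNE] at e1
    rw [← hFE] at e2
    have hNEt : NE ≠ ⊤ := by
      have h1 : NE ≤ ∫⁻ ζ, V ζ * ENNReal.ofReal (1 / a) ∂sg := by
        rw [hNE]
        refine (setLIntegral_le_lintegral _ _).trans (lintegral_mono fun ζ => ?_)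
        refine mul_le_mul' le_rfl (ENNReal.ofReal_le_ofReal ?_)
        rw [div_le_div_iff₀ (by positivity) ha0]
        nlinarith [norm_nonneg (ζ - z)]
      refine ne_top_of_le_ne_top ?_ h1
      rw [lintegral_mul_const _ hVm]
      exact ENNReal.mul_ne_top hVfin ENNReal.ofReal_ne_top
    have hFEt : FE ≠ ⊤ :=
      ne_top_of_le_ne_top (ENNReal.mul_ne_top ENNReal.ofReal_ne_top hNEt) havg
    have hFN : FE.toReal ≤ 36 * θ * K' * NE.toReal := by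
      have h1 := ENNReal.toReal_mono (ENNReal.mul_ne_top ENNReal.ofReal_ne_top hNEt) havg
      rwa [ENNReal.toReal_mul, ENNReal.toReal_ofReal (by positivity)] at h1
    have hfull : ∫⁻ ζ, V ζ * ENNReal.ofReal (a / (‖ζ - z‖ + a) ^ 2) ∂sg ≤ NE + FE := by
      have hms : MeasurableSet {ζ : ℂ | ‖ζ - z‖ < ψ z / 2} :=
        (isOpen_lt (by fun_prop) continuous_const).measurableSet
      rw [← lintegral_add_compl _ hms]
      gcongr
      have hcompl : {ζ : ℂ | ‖ζ - z‖ < ψ z / 2}ᶜ = {ζ | ψ z / 2 ≤ ‖ζ - z‖} := by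
        ext ζ; simp
      rw [hcompl, hFE]
      have hms' : MeasurableSet {ζ : ℂ | ψ z / 2 ≤ ‖ζ - z‖} :=
        (isClosed_le continuous_const (by fun_prop)).measurableSet
      apply setLIntegral_mono' hms'
      intro ζ hζ
      have hζ1 : ψ z / 2 ≤ ‖ζ - z‖ := hζ
      have hr : 0 < ‖ζ - z‖ := by linarith
      gcongr
      linarith
    have hfull' : ∫ ζ, Vr ζ * (a / (‖ζ - z‖ + a) ^ 2) ∂sg ≤ NE.toReal + FE.toReal := by
      rw [e3, ← ENNReal.toReal_add hNEt hFEt]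
      exact ENNReal.toReal_mono (ENNReal.add_ne_top.mpr ⟨hNEt, hFEt⟩) hfull
    rw [e1, e2] at hlz
    have hN0 : 0 ≤ NE.toReal := ENNReal.toReal_nonneg
    have hF0 : 0 ≤ FE.toReal := ENNReal.toReal_nonneg
    have hF1 : FE.toReal ≤ NE.toReal :=
      hFN.trans (mul_le_of_le_one_left hN0 hθ2)
    have hF2 : C0 * FE.toReal ≤ c0 / 2 * NE.toReal := by
      calc C0 * FE.toReal ≤ C0 * (36 * θ * K' * NE.toReal) :=
            mul_le_mul_of_nonneg_left hFN hC0.le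
        _ = C0 * (36 * θ * K') * NE.toReal := by ring
        _ ≤ c0 / 2 * NE.toReal := mul_le_mul_of_nonneg_right hθ3 hN0
    calc c0 / 4 * ∫ ζ, Vr ζ * (a / (‖ζ - z‖ + a) ^ 2) ∂sg
        ≤ c0 / 4 * (NE.toReal + FE.toReal) := mul_le_mul_of_nonneg_left hfull' (by positivity)
      _ ≤ c0 / 4 * (NE.toReal + NE.toReal) := by gcongr
      _ ≤ c0 * NE.toReal - C0 * FE.toReal := by linarith
      _ ≤ _ := hlz

end Pool.Agent.Helper203.GV
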