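import Pool.Agent.Helper203.GV.Defs

open MeasureTheory Filter Topology Set

noncomputable section

namespace Pool.Agent.Helper203.GV

/-- rapidly decreasing coefficients -/
def DL_RD (p : PowerSeries ℂ) : Prop :=
  ∀ m : ℕ, Summable fun n : ℕ => (n:ℝ) ^ m * ‖PowerSeries.coeff n p‖

theorem DL_RD_zero {p : PowerSeries ℂ} (h : DL_RD p) : Summable fun n : ℕ => ‖PowerSeries.coeff n p‖ := by
  simpa using h 0

theorem DL_RD_add {p q : PowerSeries ℂ} (hp : DL_RD p) (hq : DL_RD q) : DL_RD (p + q) := by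
  intro m
  refine Summable.of_nonneg_of_le (fun n => by positivity) (fun n => ?_) ((hp m).add (hq m))
  rw [map_add, ← mul_add]
  exact mul_le_mul_of_nonneg_left (norm_add_le _ _) (by positivity)

theorem DL_RD_C {p : PowerSeries ℂ} (hp : DL_RD p) (c : ℂ) : DL_RD (PowerSeries.C c * p) := by
  intro m
  have h1 := (hp m).mul_left ‖c‖
  refine h1.congr (fun n => ?_)
  rw [PowerSeries.coeff_C_mul, norm_mul]; ring

theorem DL_RD_X {p : PowerSeries ℂ} (hp : DL_RD p) : DL_RD (PowerSeries.X * p) := by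
  intro m
  rw [← summable_nat_add_iff 1]
  have h1 := ((hp m).mul_left (2 ^ m)).add (DL_RD_zero hp)
  refine Summable.of_nonneg_of_le (fun n => by positivity) (fun n => ?_) h1
  rw [PowerSeries.coeff_succ_X_mul]
  have h2 : ((n + 1 : ℕ) : ℝ) ^ m ≤ 2 ^ m * (n : ℝ) ^ m + 1 := by
    rcases Nat.eq_zero_or_pos n with h | h
    · subst h
      have : (0:ℝ) ≤ 2 ^ m * ((0 : ℕ) : ℝ) ^ m := by positivity
      simpa using this
    · have h3 : ((n + 1 : ℕ) : ℝ) ≤ 2 * n := by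
        have : (1 : ℝ) ≤ n := by exact_mod_cast h
        push_cast; linarith
      calc ((n + 1 : ℕ) : ℝ) ^ m ≤ (2 * (n : ℝ)) ^ m := pow_le_pow_left₀ (by positivity) h3 m
        _ = 2 ^ m * (n : ℝ) ^ m := mul_pow _ _ _
        _ ≤ _ := by linarith
  have h4 := mul_le_mul_of_nonneg_right h2 (norm_nonneg (PowerSeries.coeff n p))
  linarith

theorem DL_RD_lin {p : PowerSeries ℂ} (hp : DL_RD p) (c : ℂ) :
    DL_RD ((PowerSeries.X - PowerSeries.C c) * p) := by
  have h1 : (PowerSeries.X - PowerSeries.C c) * p = PowerSeries.X * p + PowerSeries.C (-c) * p := by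
    rw [map_neg]; ring
  rw [h1]
  exact DL_RD_add (DL_RD_X hp) (DL_RD_C hp _)

theorem DL_RD_pow {p : PowerSeries ℂ} (hp : DL_RD p) (c : ℂ) (k : ℕ) :
    DL_RD ((PowerSeries.X - PowerSeries.C c) ^ k * p) := by
  induction k with
  | zero => simpa using hp
  | succ k ih =>
    rw [pow_succ', mul_assoc]
    exact DL_RD_lin ih c

theorem DL_RD_d {p : PowerSeries ℂ} (hp : DL_RD p) : DL_RD (PowerSeries.derivative ℂ p) := by
  intro m
  have h1 := (summable_nat_add_iff 1).mpr (hp (m + 1))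
  refine Summable.of_nonneg_of_le (fun n => by positivity) (fun n => ?_) h1
  rw [PowerSeries.coeff_derivative, norm_mul]
  have h2 : ‖((n : ℂ) + 1)‖ = (n : ℝ) + 1 := by
    have : ((n : ℂ) + 1) = (((n : ℝ) + 1 : ℝ) : ℂ) := by push_cast; rfl
    rw [this, Complex.norm_real, Real.norm_eq_abs, abs_of_nonneg (by positivity)]
  rw [h2]
  have h3 : (n : ℝ) ^ m ≤ ((n + 1 : ℕ) : ℝ) ^ m := by
    push_cast
    exact pow_le_pow_left₀ (by positivity) (by linarith) m
  have h4 : (0:ℝ) ≤ ‖PowerSeries.coeff (n + 1) p‖ * ((n : ℝ) + 1) := by positivity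
  calc (n : ℝ) ^ m * (‖PowerSeries.coeff (n + 1) p‖ * ((n : ℝ) + 1))
      ≤ ((n + 1 : ℕ) : ℝ) ^ m * (‖PowerSeries.coeff (n + 1) p‖ * ((n : ℝ) + 1)) :=
        mul_le_mul_of_nonneg_right h3 h4
    _ = _ := by push_cast; ring

theorem DL_RD_iter {p : PowerSeries ℂ} (hp : DL_RD p) (k : ℕ) : DL_RD ((PowerSeries.derivative ℂ)^[k] p) := by
  induction k generalizing p with
  | zero => exact hp
  | succ k ih =>
    rw [Function.iterate_succ_apply]
    exact ih (DL_RD_d hp)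

theorem DL_norm_le {p : PowerSeries ℂ} {z : ℂ} (hz : ‖z‖ ≤ 1) (n : ℕ) :
    ‖PowerSeries.coeff n p * z ^ n‖ ≤ ‖PowerSeries.coeff n p‖ := by
  rw [norm_mul, norm_pow]
  have : ‖z‖ ^ n ≤ 1 := pow_le_one₀ (norm_nonneg _) hz
  exact mul_le_of_le_one_right (norm_nonneg _) this

theorem DL_summable {p : PowerSeries ℂ} (hp : DL_RD p) {z : ℂ} (hz : ‖z‖ ≤ 1) :
    Summable (fun n => PowerSeries.coeff n p * z ^ n) :=
  Summable.of_norm_bounded (DL_RD_zero hp) (fun n => DL_norm_le hz n)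

theorem DL_ev_add {p q : PowerSeries ℂ} (hp : DL_RD p) (hq : DL_RD q) {z : ℂ} (hz : ‖z‖ ≤ 1) :
    ev (p + q) z = ev p z + ev q z := by
  unfold ev
  rw [← (DL_summable hp hz).tsum_add (DL_summable hq hz)]
  refine tsum_congr (fun n => ?_)
  rw [map_add]; ring

theorem DL_ev_C (p : PowerSeries ℂ) (c z : ℂ) : ev (PowerSeries.C c * p) z = c * ev p z := by
  unfold ev
  rw [← tsum_mul_left]
  refine tsum_congr (fun n => ?_)
  rw [PowerSeries.coeff_C_mul]; ring

theorem DL_ev_X {p : PowerSeries ℂ} (hp : DL_RD p) {z : ℂ} (hz : ‖z‖ ≤ 1) :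
    ev (PowerSeries.X * p) z = z * ev p z := by
  unfold ev
  rw [(DL_summable (DL_RD_X hp) hz).tsum_eq_zero_add, ← tsum_mul_left]
  rw [PowerSeries.coeff_zero_X_mul, zero_mul, zero_add]
  refine tsum_congr (fun n => ?_)
  rw [PowerSeries.coeff_succ_X_mul]; ring

theorem DL_ev_lin {p : PowerSeries ℂ} (hp : DL_RD p) (c : ℂ) {z : ℂ} (hz : ‖z‖ ≤ 1) :
    ev ((PowerSeries.X - PowerSeries.C c) * p) z = (z - c) * ev p z := by
  have h1 : (PowerSeries.X - PowerSeries.C c) * p = PowerSeries.X * p + PowerSeries.C (-c) * p := by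
    rw [map_neg]; ring
  rw [h1, DL_ev_add (DL_RD_X hp) (DL_RD_C hp _) hz, DL_ev_X hp hz, DL_ev_C]
  ring

theorem DL_main (k : ℕ) : ∀ {q : PowerSeries ℂ}, DL_RD q → ∀ {z₀ : ℂ}, ‖z₀‖ ≤ 1 →
    ev ((PowerSeries.derivative ℂ)^[k] ((PowerSeries.X - PowerSeries.C z₀) ^ k * q)) z₀ =
      (k.factorial : ℂ) * ev q z₀ := by
  induction k with
  | zero => intro q _ z₀ _; simp
  | succ k ih =>
    intro q hq z₀ hz
    rw [Function.iterate_succ_apply]
    have h1 : PowerSeries.derivative ℂ ((PowerSeries.X - PowerSeries.C z₀) ^ (k + 1) * q) =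
        (PowerSeries.X - PowerSeries.C z₀) ^ k *
          (PowerSeries.C ((k : ℂ) + 1) * q + (PowerSeries.X - PowerSeries.C z₀) * PowerSeries.derivative ℂ q) := by
      rw [Derivation.leibniz, PowerSeries.derivative_pow]
      simp only [smul_eq_mul, map_sub, PowerSeries.derivative_X, PowerSeries.derivative_C, sub_zero,
        mul_one, Nat.add_sub_cancel, map_add, map_one, map_natCast, Nat.cast_add, Nat.cast_one]
      ring
    rw [h1, ih (DL_RD_add (DL_RD_C hq _) (DL_RD_lin (DL_RD_d hq) _)) hz,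
      DL_ev_add (DL_RD_C hq _) (DL_RD_lin (DL_RD_d hq) _) hz, DL_ev_C, DL_ev_lin (DL_RD_d hq) _ hz,
      sub_self, zero_mul, add_zero, Nat.factorial_succ]
    push_cast
    ring

theorem DL_cont {p : PowerSeries ℂ} (hp : DL_RD p) : ContinuousOn (ev p) (Metric.closedBall 0 1) := by
  unfold ev
  refine continuousOn_tsum (fun n => by fun_prop) (DL_RD_zero hp) (fun n z hz => ?_)
  exact DL_norm_le (by simpa using hz) n

theorem DL_hasDeriv {p : PowerSeries ℂ} (hp : DL_RD p) {z : ℂ} (hz : z ∈ Metric.ball (0:ℂ) 1) :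
    HasDerivAt (ev p) (ev (PowerSeries.derivative ℂ p) z) z := by
  have hz1 : ‖z‖ ≤ 1 := by
    have : ‖z‖ < 1 := by simpa using hz
    exact this.le
  have h1 : Summable (fun n : ℕ => (n : ℝ) ^ 1 * ‖PowerSeries.coeff n p‖) := hp 1
  have hbd : ∀ (n : ℕ) (y : ℂ), y ∈ Metric.ball (0:ℂ) 1 →
      ‖PowerSeries.coeff n p * ((n : ℂ) * y ^ (n - 1))‖ ≤ (n : ℝ) ^ 1 * ‖PowerSeries.coeff n p‖ := by
    intro n y hy
    have hy1 : ‖y‖ ≤ 1 := by
      have : ‖y‖ < 1 := by simpa using hy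
      exact this.le
    rw [norm_mul, norm_mul, norm_pow, Complex.norm_natCast, pow_one]
    have h3 : ‖y‖ ^ (n - 1) ≤ 1 := pow_le_one₀ (norm_nonneg _) hy1
    have h4 : (0:ℝ) ≤ (n : ℝ) * ‖PowerSeries.coeff n p‖ := by positivity
    calc ‖PowerSeries.coeff n p‖ * ((n : ℝ) * ‖y‖ ^ (n - 1)) = ((n : ℝ) * ‖PowerSeries.coeff n p‖) * ‖y‖ ^ (n - 1) := by ring
      _ ≤ _ := mul_le_of_le_one_right h4 h3
  have key := hasDerivAt_tsum_of_isPreconnected (𝕜 := ℂ) (g := fun n z => PowerSeries.coeff n p * z ^ n)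
    (g' := fun n z => PowerSeries.coeff n p * ((n : ℂ) * z ^ (n - 1))) h1 Metric.isOpen_ball
    (convex_ball (0:ℂ) 1).isPreconnected
    (fun n y _ => (hasDerivAt_pow n y).const_mul _) hbd
    hz (DL_summable hp hz1) hz
  have h5 : (∑' n, PowerSeries.coeff n p * ((n : ℂ) * z ^ (n - 1))) = ev (PowerSeries.derivative ℂ p) z := by
    have hs : Summable (fun n => PowerSeries.coeff n p * ((n : ℂ) * z ^ (n - 1))) :=
      Summable.of_norm_bounded h1 (fun n => hbd n z hz)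
    rw [hs.tsum_eq_zero_add]
    unfold ev
    simp only [Nat.cast_zero, zero_mul, mul_zero, zero_add]
    refine tsum_congr (fun n => ?_)
    rw [PowerSeries.coeff_derivative, Nat.add_sub_cancel]
    push_cast
    ring
  rw [h5] at key
  exact key

theorem DL_iter (k : ℕ) {p : PowerSeries ℂ} (hp : DL_RD p) : ∀ z ∈ Metric.ball (0:ℂ) 1,
    iteratedDeriv k (ev p) z = ev ((PowerSeries.derivative ℂ)^[k] p) z := by
  induction k with
  | zero => intro z _; simp
  | succ k ih =>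
    intro z hz
    rw [iteratedDeriv_succ, Function.iterate_succ_apply']
    have h1 : iteratedDeriv k (ev p) =ᶠ[𝓝 z] ev ((PowerSeries.derivative ℂ)^[k] p) := by
      filter_upwards [Metric.isOpen_ball.mem_nhds hz] with y hy
      exact ih y hy
    rw [h1.deriv_eq]
    exact (DL_hasDeriv (DL_RD_iter hp k) hz).deriv

/-- If `q` has rapidly decreasing coefficients then the `k`-th derivative of `(y - z₀)^k q(y)` tends
to `k! q(z₀)` as `y → z₀` inside the disc. -/
theorem deriv_limit {q : PowerSeries ℂ} (hq : ∀ m : ℕ, Summable fun n : ℕ => (n:ℝ) ^ m * ‖PowerSeries.coeff n q‖)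
    {z₀ : ℂ} (hz : ‖z₀‖ = 1) (k : ℕ) :
    Tendsto (iteratedDeriv k (ev ((PowerSeries.X - PowerSeries.C z₀) ^ k * q)))
      (𝓝[Metric.ball 0 1] z₀) (𝓝 ((k.factorial : ℂ) * ev q z₀)) := by
  have hp : DL_RD ((PowerSeries.X - PowerSeries.C z₀) ^ k * q) := DL_RD_pow hq z₀ k
  have h1 := DL_cont (DL_RD_iter hp k) z₀ (by simp [hz])
  rw [← DL_main k hq hz.le]
  refine (h1.mono_left (nhdsWithin_mono _ Metric.ball_subset_closedBall)).congr' ?_
  filter_upwards [self_mem_nhdsWithin] with z hz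
  exact (DL_iter k hp z hz).symm

end Pool.Agent.Helper203.GV
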