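import Pool.Agent.Helper203.GV.Defs
import Pool.Agent.Helper203.GV.Collar
import Pool.Agent.Helper203.GV.HfM
import Pool.Agent.Helper203.GV.Misc1
import Pool.Agent.Helper203.GV.Neu

open MeasureTheory Filter Topology Set

noncomputable section

namespace Pool.Agent.Helper203.GV

theorem pl_sg_fin : IsFiniteMeasure sg := by
  unfold sg
  infer_instance

theorem pl_sg_norm : ∀ᵐ ζ ∂sg, ‖ζ‖ = 1 := by
  unfold sg
  rw [ae_map_iff (by fun_prop) (measurableSet_eq_fun (by fun_prop) (by fun_prop))]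
  exact Filter.Eventually.of_forall (fun t => Complex.norm_exp_ofReal_mul_I t)

theorem pl_meas_P (z : ℂ) : Measurable (fun ζ : ℂ => (1 - ‖z‖ ^ 2) / ‖ζ - z‖ ^ 2) := by
  fun_prop

theorem pl_poisson (z : ℂ) (hz : ‖z‖ < 1) :
    ∫ ζ, (1 - ‖z‖ ^ 2) / ‖ζ - z‖ ^ 2 ∂sg = 2 * Real.pi := by
  have h1 : DiffContOnCl ℂ (fun _ : ℂ => (1 : ℂ)) (Metric.ball (0 : ℂ) 1) :=
    diffContOnCl_const
  have h2 := h1.circleAverage_poissonKernel_smul' (w := z) (c := 0) (R := 1) (by simpa using hz)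
  rw [Real.circleAverage_def] at h2
  have h3 : ∀ θ : ℝ, (((‖circleMap 0 1 θ - 0‖ ^ 2 - ‖z - 0‖ ^ 2) /
      ‖(circleMap 0 1 θ - 0) - (z - 0)‖ ^ 2) : ℝ) • (1 : ℂ) =
      (((1 - ‖z‖ ^ 2) / ‖Complex.exp (θ * Complex.I) - z‖ ^ 2 : ℝ) : ℂ) := by
    intro θ
    have : circleMap 0 1 θ = Complex.exp (θ * Complex.I) := by simp [circleMap]
    rw [this, sub_zero, sub_zero, Complex.norm_exp_ofReal_mul_I, one_pow]
    simp
  have h4 : (∫ θ in (0:ℝ)..2 * Real.pi, (((1 - ‖z‖ ^ 2) /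
      ‖Complex.exp (θ * Complex.I) - z‖ ^ 2 : ℝ) : ℂ)) = ((2 * Real.pi : ℝ) : ℂ) := by
    have h5 : (∫ θ in (0:ℝ)..2 * Real.pi, (((1 - ‖z‖ ^ 2) /
      ‖Complex.exp (θ * Complex.I) - z‖ ^ 2 : ℝ) : ℂ)) =
      ∫ θ in (0:ℝ)..2 * Real.pi, (((‖circleMap 0 1 θ - 0‖ ^ 2 - ‖z - 0‖ ^ 2) /
      ‖(circleMap 0 1 θ - 0) - (z - 0)‖ ^ 2) : ℝ) • (1 : ℂ) := by
      congr 1
      funext θ
      exact (h3 θ).symm
    rw [h5]
    have hpi : (2 * Real.pi : ℝ) ≠ 0 := by positivity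
    have h6 := congrArg (fun y : ℂ => (2 * Real.pi : ℝ) • y) h2
    simp only [smul_smul] at h6
    rw [mul_inv_cancel₀ hpi, one_smul] at h6
    rw [h6]
    simp
  rw [intervalIntegral.integral_ofReal] at h4
  have h7 : (∫ θ in (0:ℝ)..2 * Real.pi, ((1 - ‖z‖ ^ 2) /
      ‖Complex.exp (θ * Complex.I) - z‖ ^ 2 : ℝ)) = 2 * Real.pi := by exact_mod_cast h4
  unfold sg
  rw [integral_map (by fun_prop) (pl_meas_P z).aestronglyMeasurable]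
  rw [← intervalIntegral.integral_of_le (by linarith [Real.pi_pos])]
  have hper : Function.Periodic (fun θ : ℝ => (1 - ‖z‖ ^ 2) /
      ‖Complex.exp (θ * Complex.I) - z‖ ^ 2) (2 * Real.pi) := by
    intro θ
    have : Complex.exp (((θ + 2 * Real.pi : ℝ) : ℂ) * Complex.I) =
        Complex.exp (θ * Complex.I) := by
      push_cast
      rw [add_mul, Complex.exp_add, Complex.exp_two_pi_mul_I, mul_one]
    beta_reduce
    rw [this]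
  have h8 := hper.intervalIntegral_add_eq (-Real.pi) 0
  rw [zero_add] at h8
  have h9 : -Real.pi + 2 * Real.pi = Real.pi := by ring
  rw [h9] at h8
  rw [h8, h7]

theorem pl_near (z : ℂ) : ∃ a : ℂ, ‖a‖ = 1 ∧ ‖z - a‖ = |1 - ‖z‖| := by
  by_cases hz : z = 0
  · refine ⟨1, by simp, ?_⟩
    subst hz
    simp
  · have hz0 : ‖z‖ ≠ 0 := norm_ne_zero_iff.2 hz
    have hz0' : (‖z‖ : ℂ) ≠ 0 := by exact_mod_cast hz0
    refine ⟨z / ‖z‖, ?_, ?_⟩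
    · rw [norm_div, Complex.norm_real, norm_norm, div_self hz0]
    · have h1 : z - z / ‖z‖ = (z / ‖z‖) * ((‖z‖ - 1 : ℝ) : ℂ) := by
        push_cast
        field_simp
      rw [h1, norm_mul, norm_div, Complex.norm_real, norm_norm, div_self hz0, one_mul,
        Complex.norm_real, Real.norm_eq_abs, abs_sub_comm]

theorem pl_lower {f : ℂ → ℝ} (hf : Integrable f sg) (hf0 : ∀ᵐ ζ ∂sg, 0 ≤ f ζ) {a : ℂ}
    (ha : ‖a‖ = 1) {ρ m : ℝ} (hρ : 0 ≤ ρ) (hρ1 : ρ ≤ 1) (hm : 0 ≤ m)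
    (h : ∀ᵐ ζ ∂sg, ζ ∈ Metric.ball a ρ → m ≤ f ζ) : m * ρ ≤ ∫ ζ, f ζ ∂sg := by
  have := pl_sg_fin
  have h1 := sg_ball_ge ha hρ hρ1
  have h2 : ρ ≤ (sg (Metric.ball a ρ)).toReal := by
    have h0 := ENNReal.toReal_mono (measure_ne_top sg (Metric.ball a ρ)) h1
    rwa [ENNReal.toReal_ofReal hρ] at h0
  have h3 : m * ρ ≤ m * (sg (Metric.ball a ρ)).toReal := mul_le_mul_of_nonneg_left h2 hm
  have h4 : ∫ ζ in Metric.ball a ρ, m ∂sg ≤ ∫ ζ in Metric.ball a ρ, f ζ ∂sg := by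
    refine integral_mono_ae (integrable_const m) hf.integrableOn ?_
    rw [Filter.EventuallyLE, ae_restrict_iff' Metric.isOpen_ball.measurableSet]
    exact h
  have h5 : ∫ ζ in Metric.ball a ρ, f ζ ∂sg ≤ ∫ ζ, f ζ ∂sg :=
    setIntegral_le_integral hf hf0
  rw [setIntegral_const, Measure.real, smul_eq_mul] at h4
  linarith [h4, mul_comm m (sg (Metric.ball a ρ)).toReal]

theorem pl_P_bd (z : ℂ) (hz : ‖z‖ < 1) :
    ∀ᵐ ζ ∂sg, ‖(1 - ‖z‖ ^ 2) / ‖ζ - z‖ ^ 2‖ ≤ 1 / (1 - ‖z‖) ^ 2 := by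
  filter_upwards [pl_sg_norm] with ζ hζ
  have h1 : 1 - ‖z‖ ≤ ‖ζ - z‖ := by
    have := norm_sub_norm_le ζ z
    rw [hζ] at this
    exact this
  have h0 : 0 < 1 - ‖z‖ := by linarith
  have h2 : (1 - ‖z‖) ^ 2 ≤ ‖ζ - z‖ ^ 2 := by gcongr
  have h3 : 0 ≤ ‖z‖ := norm_nonneg z
  have h4 : 0 ≤ 1 - ‖z‖ ^ 2 := by nlinarith
  have h5 : 0 < ‖ζ - z‖ := by linarith
  rw [Real.norm_eq_abs, abs_of_nonneg (by positivity)]
  rw [div_le_div_iff₀ (by positivity) (by positivity)]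
  nlinarith [sq_nonneg ‖z‖, sq_nonneg (1 - ‖z‖)]

theorem pl_int_P {f : ℂ → ℝ} (hf : Integrable f sg) (z : ℂ) (hz : ‖z‖ < 1) :
    Integrable (fun ζ => f ζ * ((1 - ‖z‖ ^ 2) / ‖ζ - z‖ ^ 2)) sg :=
  hf.mul_bdd (pl_meas_P z).aestronglyMeasurable (pl_P_bd z hz)

theorem pl_split {w : ℂ → ℝ} (hw : Integrable w sg) (n : ℕ) (z : ℂ) (hz : ‖z‖ < 1) :
    ∫ ζ, w ζ * ((1 - ‖z‖ ^ 2) / ‖ζ - z‖ ^ 2) ∂sg ≤ 2 * Real.pi * n +
      ∫ ζ, max (w ζ - n) 0 * ((1 - ‖z‖ ^ 2) / ‖ζ - z‖ ^ 2) ∂sg := by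
  have := pl_sg_fin
  have hu : Integrable (fun ζ => max (w ζ - n) 0) sg :=
    (hw.sub (integrable_const (n : ℝ))).pos_part
  have h1 := pl_int_P (f := fun _ => (n : ℝ)) (integrable_const (n : ℝ)) z hz
  have h2 := pl_int_P hu z hz
  have h3 : ∫ ζ, (n : ℝ) * ((1 - ‖z‖ ^ 2) / ‖ζ - z‖ ^ 2) ∂sg = 2 * Real.pi * n := by
    rw [integral_const_mul, pl_poisson z hz]
    ring
  rw [← h3, ← integral_add h1 h2]
  refine integral_mono (pl_int_P hw z hz) (h1.add h2) (fun ζ => ?_)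
  show w ζ * ((1 - ‖z‖ ^ 2) / ‖ζ - z‖ ^ 2) ≤ (n : ℝ) * ((1 - ‖z‖ ^ 2) / ‖ζ - z‖ ^ 2) +
    max (w ζ - n) 0 * ((1 - ‖z‖ ^ 2) / ‖ζ - z‖ ^ 2)
  rw [← add_mul]
  have h4 : 0 ≤ (1 - ‖z‖ ^ 2) / ‖ζ - z‖ ^ 2 := by
    have h3 : 0 ≤ ‖z‖ := norm_nonneg z
    have h4 : 0 ≤ 1 - ‖z‖ ^ 2 := by nlinarith
    positivity
  apply mul_le_mul_of_nonneg_right _ h4
  have := le_max_left (w ζ - n) 0
  linarith

/-- collar kernel -/
theorem pl_meas_K (t : ℝ) (z : ℂ) : Measurable (fun ζ : ℂ => t / (‖ζ - z‖ + t) ^ 2) := by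
  fun_prop

theorem pl_int_K {f : ℂ → ℝ} (hf : Integrable f sg) {t : ℝ} (ht : 0 < t) (z : ℂ) :
    Integrable (fun ζ => f ζ * (t / (‖ζ - z‖ + t) ^ 2)) sg := by
  refine hf.mul_bdd (c := 1 / t) (pl_meas_K t z).aestronglyMeasurable
    (Filter.Eventually.of_forall (fun ζ => ?_))
  have h1 : 0 ≤ ‖ζ - z‖ := norm_nonneg _
  rw [Real.norm_eq_abs, abs_of_nonneg (by positivity), div_le_div_iff₀ (by positivity) ht]
  nlinarith

theorem pl_psi_le {ψ : ℂ → ℝ} (hL : LipschitzWith 1 ψ) (x y : ℂ) : ψ x ≤ ψ y + ‖x - y‖ := by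
  have h := hL.dist_le_mul x y
  rw [Real.dist_eq, NNReal.coe_one, one_mul, dist_eq_norm] at h
  have := le_abs_self (ψ x - ψ y)
  linarith

theorem pl_psi_bd {ψ : ℂ → ℝ} (hL : LipschitzWith 1 ψ) (hψ1 : ∀ z, ‖z‖ = 1 → ψ z ≤ 1) (z : ℂ) :
    ψ z ≤ 1 + |1 - ‖z‖| := by
  obtain ⟨a, ha, hza⟩ := pl_near z
  have h1 := pl_psi_le hL z a
  have h2 := hψ1 a ha
  rw [hza] at h1
  linarith

theorem pl_collar_lower {α : ℝ} (h0 : 0 < α) (h1 : α < 1) {ψ : ℂ → ℝ} (hL : LipschitzWith 1 ψ)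
    (hd : ∀ z, |1 - ‖z‖| ≤ ψ z) (hψ1 : ∀ z, ‖z‖ = 1 → ψ z ≤ 1) (hE : sg {z | ψ z = 0} = 0)
    {θ : ℝ} (hθ : 0 < θ) (hθ1 : θ ≤ 1 / 8) {V : ℂ → ℝ} (hV : Integrable V sg) {δ : ℝ}
    (hδ : 0 < δ) (hVδ : ∀ ζ, δ * (ψ ζ) ^ (-α) ≤ V ζ) {z : ℂ} (hz : 0 < ψ z)
    (hz1 : ‖z‖ ≤ 1 + θ * ψ z / 2) (hz2 : 1 - ‖z‖ ≤ θ * ψ z) :
    θ / 16 * δ * (ψ z) ^ (-α) ≤ ∫ ζ, V ζ * ((θ * ψ z) / (‖ζ - z‖ + θ * ψ z) ^ 2) ∂sg := by
  obtain ⟨a, ha, hza⟩ := pl_near z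
  have hψ0 : ∀ ζ, 0 ≤ ψ ζ := fun ζ => (abs_nonneg _).trans (hd ζ)
  have habs : |1 - ‖z‖| ≤ θ * ψ z := by
    rw [abs_le]
    constructor
    · have : 0 < θ * ψ z := by positivity
      linarith
    · exact hz2
  have hψz : ψ z ≤ 8 / 7 := by
    have h2 := pl_psi_bd hL hψ1 z
    nlinarith
  have hKint := pl_int_K hV (show 0 < θ * ψ z by positivity) z
  have hae : ∀ᵐ ζ ∂sg, ψ ζ ≠ 0 := by
    rw [ae_iff]
    simpa using hE
  have hV0 : ∀ ζ, 0 ≤ V ζ := fun ζ =>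
    (mul_nonneg hδ.le (Real.rpow_nonneg (hψ0 ζ) _)).trans (hVδ ζ)
  have h2 := pl_lower hKint (Filter.Eventually.of_forall (fun ζ => by
      have := hV0 ζ
      have h3 : 0 ≤ θ * ψ z / (‖ζ - z‖ + θ * ψ z) ^ 2 := by positivity
      exact mul_nonneg this h3)) ha (ρ := ψ z / 2)
      (m := (δ * ((2 * ψ z) ^ (-α))) * (θ / (4 * ψ z))) (by positivity) (by linarith)
      (by positivity) (by
      filter_upwards [hae] with ζ hζ0 hζ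
      rw [Metric.mem_ball, dist_eq_norm] at hζ
      have hζz : ‖ζ - z‖ ≤ ψ z := by
        have h4 : ζ - z = (ζ - a) - (z - a) := by ring
        rw [h4]
        have h5 := norm_sub_le (ζ - a) (z - a)
        rw [hza] at h5
        nlinarith
      have hψζ : ψ ζ ≤ 2 * ψ z := by
        have := pl_psi_le hL ζ z
        linarith
      have hψζ0 : 0 < ψ ζ := lt_of_le_of_ne (hψ0 ζ) (Ne.symm hζ0)
      have h6 : (2 * ψ z) ^ (-α) ≤ (ψ ζ) ^ (-α) :=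
        Real.rpow_le_rpow_of_nonpos hψζ0 hψζ (by linarith)
      have h7 : θ / (4 * ψ z) ≤ θ * ψ z / (‖ζ - z‖ + θ * ψ z) ^ 2 := by
        have h8 : 0 ≤ ‖ζ - z‖ := norm_nonneg _
        rw [div_le_div_iff₀ (by positivity) (by positivity)]
        have h9 : ‖ζ - z‖ + θ * ψ z ≤ 2 * ψ z := by nlinarith
        have h10 : (‖ζ - z‖ + θ * ψ z) ^ 2 ≤ (2 * ψ z) ^ 2 := by gcongr
        nlinarith
      have h11 : δ * (2 * ψ z) ^ (-α) ≤ V ζ :=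
        (mul_le_mul_of_nonneg_left h6 hδ.le).trans (hVδ ζ)
      exact mul_le_mul h11 h7 (by positivity) (hV0 ζ))
  refine le_trans ?_ h2
  have h3 : (2 * ψ z) ^ (-α) = (2 : ℝ) ^ (-α) * (ψ z) ^ (-α) :=
    Real.mul_rpow (by norm_num) hz.le
  have h4 : (1 / 2 : ℝ) ≤ (2 : ℝ) ^ (-α) := by
    have : (2 : ℝ) ^ (-1 : ℝ) ≤ (2 : ℝ) ^ (-α) :=
      Real.rpow_le_rpow_of_exponent_le (by norm_num) (by linarith)
    rw [Real.rpow_neg_one] at this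
    linarith
  have h5 : 0 ≤ (ψ z) ^ (-α) := Real.rpow_nonneg hz.le _
  rw [h3]
  have h6 : δ * ((2 : ℝ) ^ (-α) * (ψ z) ^ (-α)) * (θ / (4 * ψ z)) * (ψ z / 2) =
      (2 : ℝ) ^ (-α) * (θ / 8 * δ * (ψ z) ^ (-α)) := by
    field_simp
    ring
  rw [h6]
  have h7 : 0 ≤ θ / 8 * δ * (ψ z) ^ (-α) := by positivity
  nlinarith

theorem pl_deep_lower {α : ℝ} (h0 : 0 < α) {ψ : ℂ → ℝ} (hL : LipschitzWith 1 ψ)
    (hd : ∀ z, |1 - ‖z‖| ≤ ψ z) (hE : sg {z | ψ z = 0} = 0)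
    {θ : ℝ} (hθ : 0 < θ) {V : ℂ → ℝ} (hV : Integrable V sg) {δ : ℝ}
    (hδ : 0 < δ) (hVδ : ∀ ζ, δ * (ψ ζ) ^ (-α) ≤ V ζ) {z : ℂ}
    (hz1 : ‖z‖ < 1) (hz2 : θ * ψ z ≤ 1 - ‖z‖) :
    1 / 4 * (1 / θ + 2) ^ (-α) * δ * (ψ z) ^ (-α) ≤
      ∫ ζ, V ζ * ((1 - ‖z‖ ^ 2) / ‖ζ - z‖ ^ 2) ∂sg := by
  obtain ⟨a, ha, hza⟩ := pl_near z
  have hψ0 : ∀ ζ, 0 ≤ ψ ζ := fun ζ => (abs_nonneg _).trans (hd ζ)
  have hr0 : 0 < 1 - ‖z‖ := by linarith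
  rw [abs_of_pos hr0] at hza
  have hn0 : 0 ≤ ‖z‖ := norm_nonneg z
  have hae : ∀ᵐ ζ ∂sg, ψ ζ ≠ 0 := by
    rw [ae_iff]
    simpa using hE
  have hV0 : ∀ ζ, 0 ≤ V ζ := fun ζ =>
    (mul_nonneg hδ.le (Real.rpow_nonneg (hψ0 ζ) _)).trans (hVδ ζ)
  have hsq : 0 ≤ 1 - ‖z‖ ^ 2 := by nlinarith
  have hψz : ψ z ≤ (1 - ‖z‖) / θ := by
    rw [le_div_iff₀ hθ]
    linarith
  have hψz0 : 0 < ψ z := by
    have := hd z
    rw [abs_of_pos hr0] at this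
    linarith
  have h2 := pl_lower (pl_int_P hV z hz1) (Filter.Eventually.of_forall (fun ζ =>
      mul_nonneg (hV0 ζ) (by positivity))) ha (ρ := 1 - ‖z‖)
      (m := (δ * (((1 / θ + 2) * (1 - ‖z‖)) ^ (-α))) * (1 / (4 * (1 - ‖z‖)))) hr0.le
      (by linarith) (by positivity) (by
      filter_upwards [hae, pl_sg_norm] with ζ hζ0 hζn hζ
      rw [Metric.mem_ball, dist_eq_norm] at hζ
      have hζz : ‖ζ - z‖ ≤ 2 * (1 - ‖z‖) := by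
        have h4 : ζ - z = (ζ - a) - (z - a) := by ring
        rw [h4]
        have h5 := norm_sub_le (ζ - a) (z - a)
        rw [hza] at h5
        linarith
      have hζz0 : 0 < ‖ζ - z‖ := by
        have := norm_sub_norm_le ζ z
        rw [hζn] at this
        linarith
      have hψζ : ψ ζ ≤ (1 / θ + 2) * (1 - ‖z‖) := by
        have h5 := pl_psi_le hL ζ z
        have h6 : (1 / θ + 2) * (1 - ‖z‖) = (1 - ‖z‖) / θ + 2 * (1 - ‖z‖) := by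
          field_simp
        rw [h6]
        linarith
      have hψζ0 : 0 < ψ ζ := lt_of_le_of_ne (hψ0 ζ) (Ne.symm hζ0)
      have h6 : ((1 / θ + 2) * (1 - ‖z‖)) ^ (-α) ≤ (ψ ζ) ^ (-α) :=
        Real.rpow_le_rpow_of_nonpos hψζ0 hψζ (by linarith)
      have h7 : 1 / (4 * (1 - ‖z‖)) ≤ (1 - ‖z‖ ^ 2) / ‖ζ - z‖ ^ 2 := by
        rw [div_le_div_iff₀ (by positivity) (by positivity)]
        have h10 : ‖ζ - z‖ ^ 2 ≤ (2 * (1 - ‖z‖)) ^ 2 := by gcongr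
        nlinarith [mul_nonneg (mul_nonneg hn0 hr0.le) hr0.le]
      have h11 : δ * ((1 / θ + 2) * (1 - ‖z‖)) ^ (-α) ≤ V ζ :=
        (mul_le_mul_of_nonneg_left h6 hδ.le).trans (hVδ ζ)
      exact mul_le_mul h11 h7 (by positivity) (hV0 ζ))
  refine le_trans ?_ h2
  have h3 : ((1 / θ + 2) * (1 - ‖z‖)) ^ (-α) = (1 / θ + 2) ^ (-α) * (1 - ‖z‖) ^ (-α) :=
    Real.mul_rpow (by positivity) hr0.le
  rw [h3]
  have h4 : (ψ z) ^ (-α) ≤ (1 - ‖z‖) ^ (-α) := by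
    apply Real.rpow_le_rpow_of_nonpos hr0 _ (by linarith)
    have := hd z
    rwa [abs_of_pos hr0] at this
  have h5 : δ * ((1 / θ + 2) ^ (-α) * (1 - ‖z‖) ^ (-α)) * (1 / (4 * (1 - ‖z‖))) * (1 - ‖z‖) =
      1 / 4 * (1 / θ + 2) ^ (-α) * δ * (1 - ‖z‖) ^ (-α) := by
    field_simp
  rw [h5]
  have h6 : 0 ≤ (1 / θ + 2) ^ (-α) := Real.rpow_nonneg (by positivity) _
  exact mul_le_mul_of_nonneg_left h4 (by positivity)


theorem pl_growth {α : ℝ} (h0 : 0 < α) (h1 : α < 1) {ψ : ℂ → ℝ} (hL : LipschitzWith 1 ψ)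
    (hd : ∀ z, |1 - ‖z‖| ≤ ψ z) (hψ1 : ∀ z, ‖z‖ = 1 → ψ z ≤ 1) (hE : sg {z | ψ z = 0} = 0)
    {Λ : ℂ → ℂ}
    (hg : ∀ c : ℝ, 0 < c → ∃ C : ℝ, ∀ z, 1 < ‖z‖ → ‖Λ z‖ ≤ C * Real.exp (c * (‖z‖ - 1) ^ (-α)))
    {w : ℂ → ℝ} (hwm : Measurable w) (hw : Integrable w sg)
    (hw1 : ∀ z, ‖z‖ < 1 → ‖Λ z‖ ≤ Real.exp (∫ ζ, w ζ * ((1 - ‖z‖ ^ 2) / ‖ζ - z‖ ^ 2) ∂sg))
    {θ : ℝ} (hθ : 0 < θ) (hθ1 : θ ≤ 1 / 8) {c1 c2 C1 : ℝ} (hc1 : 0 < c1) (hc2 : 0 < c2)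
    (hC1 : 0 < C1)
    (hcb : ∀ w : ℂ → ℝ, Measurable w → (∀ ζ, 0 ≤ w ζ) → Integrable w sg → ∀ N c C : ℝ,
      0 ≤ N → 0 < c → 0 ≤ C →
      (∀ z, 1 < ‖z‖ → ‖Λ z‖ ≤ Real.exp (C + c * (‖z‖ - 1) ^ (-α))) →
      (∀ z, ‖z‖ < 1 → ‖Λ z‖ ≤ Real.exp (N + ∫ ζ, w ζ * ((1 - ‖z‖ ^ 2) / ‖ζ - z‖ ^ 2) ∂sg)) →
      ∀ z, 0 < ψ z → ‖z‖ ≤ 1 + θ * ψ z / 2 → 1 - ‖z‖ ≤ θ * ψ z →
        ‖Λ z‖ ≤ Real.exp (C + N + C1 * c * (ψ z) ^ (-α) +
          C1 * ∫ ζ, w ζ * ((θ * ψ z) / (‖ζ - z‖ + θ * ψ z) ^ 2) ∂sg))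
    (n : ℕ) {V : ℂ → ℝ} (hV : Integrable V sg) {δ : ℝ} (hδ : 0 < δ)
    (hVδ : ∀ ζ, δ * (ψ ζ) ^ (-α) ≤ V ζ) (hVu : ∀ ζ, max (w ζ - n) 0 ≤ V ζ) {H : ℂ → ℂ}
    (hcol : ∀ z : ℂ, 0 < ψ z → ‖z‖ ≤ 1 + θ * ψ z / 2 → 1 - ‖z‖ ≤ θ * ψ z →
          c2 * (∫ ζ, V ζ * ((θ * ψ z) / (‖ζ - z‖ + θ * ψ z) ^ 2) ∂sg) ≤ (H z).re)
    (hdeep : ∀ z : ℂ, ‖z‖ < 1 → θ * ψ z ≤ 1 * (1 - ‖z‖) →
      c1 * (∫ ζ, V ζ * ((1 - ‖z‖ ^ 2) / ‖ζ - z‖ ^ 2) ∂sg) ≤ (H z).re) :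
    ∃ C0 c4 : ℝ, 0 < c4 ∧ ∀ z, 0 < ψ z → ‖z‖ ≤ 1 + θ * ψ z / 2 →
      c4 * (ψ z) ^ (-α) ≤ (H z).re ∧
      ‖Λ z‖ ≤ Real.exp (C0 + (1 / c1 + C1 / c2 + 1) * (H z).re) := by
  have := pl_sg_fin
  have hu : Integrable (fun ζ => max (w ζ - n) 0) sg :=
    (hw.sub (integrable_const (n : ℝ))).pos_part
  have hum : Measurable (fun ζ => max (w ζ - n) 0) := (hwm.sub_const _).max measurable_const
  have hu0 : ∀ ζ, 0 ≤ max (w ζ - n) 0 := fun ζ => le_max_right _ _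
  obtain ⟨c, hcdef⟩ : ∃ c, c = c2 * (θ / 16 * δ) / C1 := ⟨_, rfl⟩
  have hc : 0 < c := by rw [hcdef]; positivity
  have hC1c : C1 * c = c2 * (θ / 16 * δ) := by
    rw [hcdef]
    field_simp
  obtain ⟨C', hC'⟩ := hg c hc
  obtain ⟨C, hCdef⟩ : ∃ C, C = Real.log (max C' 1) := ⟨_, rfl⟩
  have hmax1 : (1 : ℝ) ≤ max C' 1 := le_max_right _ _
  have hC0 : 0 ≤ C := by rw [hCdef]; exact Real.log_nonneg hmax1
  have hexpC : Real.exp C = max C' 1 := by rw [hCdef]; exact Real.exp_log (by linarith)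
  have hout : ∀ z, 1 < ‖z‖ → ‖Λ z‖ ≤ Real.exp (C + c * (‖z‖ - 1) ^ (-α)) := by
    intro z hz
    rw [Real.exp_add, hexpC]
    exact (hC' z hz).trans (mul_le_mul_of_nonneg_right (le_max_left _ _) (Real.exp_pos _).le)
  have hin : ∀ z, ‖z‖ < 1 → ‖Λ z‖ ≤ Real.exp (2 * Real.pi * n +
      ∫ ζ, max (w ζ - n) 0 * ((1 - ‖z‖ ^ 2) / ‖ζ - z‖ ^ 2) ∂sg) := by
    intro z hz
    exact (hw1 z hz).trans (Real.exp_le_exp.2 (pl_split hw n z hz))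
  have hN : 0 ≤ 2 * Real.pi * n := by positivity
  have hcb' := hcb _ hum hu0 hu _ c C hN hc hC0 hout hin
  refine ⟨C + 2 * Real.pi * n, min (c2 * (θ / 16 * δ)) (c1 * (1 / 4 * (1 / θ + 2) ^ (-α) * δ)),
    ?_, ?_⟩
  · have : 0 < (1 / θ + 2) ^ (-α) := Real.rpow_pos_of_pos (by positivity) _
    exact lt_min (by positivity) (by positivity)
  · intro z hz hz1
    have hr : 0 ≤ (ψ z) ^ (-α) := Real.rpow_nonneg hz.le _
    rcases le_or_gt (1 - ‖z‖) (θ * ψ z) with h | h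
    · have e1 := hcol z hz hz1 h
      have e2 := pl_collar_lower h0 h1 hL hd hψ1 hE hθ hθ1 hV hδ hVδ hz hz1 h
      have e3 := hcb' z hz hz1 h
      have e4 : ∫ ζ, max (w ζ - n) 0 * ((θ * ψ z) / (‖ζ - z‖ + θ * ψ z) ^ 2) ∂sg ≤
          ∫ ζ, V ζ * ((θ * ψ z) / (‖ζ - z‖ + θ * ψ z) ^ 2) ∂sg := by
        refine integral_mono (pl_int_K hu (by positivity) z) (pl_int_K hV (by positivity) z)
          (fun ζ => ?_)
        exact mul_le_mul_of_nonneg_right (hVu ζ) (by positivity)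
      obtain ⟨IV, hIV⟩ : ∃ IV, IV = ∫ ζ, V ζ * ((θ * ψ z) / (‖ζ - z‖ + θ * ψ z) ^ 2) ∂sg :=
        ⟨_, rfl⟩
      rw [← hIV] at e1 e2 e4
      have e5 : c2 * (θ / 16 * δ * (ψ z) ^ (-α)) ≤ (H z).re :=
        (mul_le_mul_of_nonneg_left e2 hc2.le).trans e1
      have hH0 : 0 ≤ (H z).re := le_trans (by positivity) e5
      have e6 : IV ≤ (H z).re / c2 := by
        rw [le_div_iff₀ hc2]
        linarith
      constructor
      · calc min (c2 * (θ / 16 * δ)) (c1 * (1 / 4 * (1 / θ + 2) ^ (-α) * δ)) * (ψ z) ^ (-α) ≤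
              (c2 * (θ / 16 * δ)) * (ψ z) ^ (-α) :=
                mul_le_mul_of_nonneg_right (min_le_left _ _) hr
          _ = c2 * (θ / 16 * δ * (ψ z) ^ (-α)) := by ring
          _ ≤ _ := e5
      · refine e3.trans (Real.exp_le_exp.2 ?_)
        have e7 : C1 * ∫ ζ, max (w ζ - n) 0 * ((θ * ψ z) / (‖ζ - z‖ + θ * ψ z) ^ 2) ∂sg ≤
            C1 * ((H z).re / c2) := mul_le_mul_of_nonneg_left (e4.trans e6) hC1.le
        have e8 : C1 * ((H z).re / c2) = C1 / c2 * (H z).re := by ring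
        have e9 : C1 * c * (ψ z) ^ (-α) ≤ (H z).re := by
          rw [hC1c]
          calc _ = c2 * (θ / 16 * δ * (ψ z) ^ (-α)) := by ring
            _ ≤ _ := e5
        have e10 : 0 ≤ 1 / c1 * (H z).re := by positivity
        nlinarith
    · have hlt : ‖z‖ < 1 := by
        have : 0 < θ * ψ z := by positivity
        linarith
      have e1 := hdeep z hlt (by linarith)
      have e2 := pl_deep_lower h0 hL hd hE hθ hV hδ hVδ hlt h.le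
      have e3 := hin z hlt
      have hn0 : 0 ≤ ‖z‖ := norm_nonneg z
      have hsq : 0 ≤ 1 - ‖z‖ ^ 2 := by nlinarith
      have e4 : ∫ ζ, max (w ζ - n) 0 * ((1 - ‖z‖ ^ 2) / ‖ζ - z‖ ^ 2) ∂sg ≤
          ∫ ζ, V ζ * ((1 - ‖z‖ ^ 2) / ‖ζ - z‖ ^ 2) ∂sg := by
        refine integral_mono (pl_int_P hu z hlt) (pl_int_P hV z hlt) (fun ζ => ?_)
        exact mul_le_mul_of_nonneg_right (hVu ζ) (by positivity)
      obtain ⟨IV, hIV⟩ : ∃ IV, IV = ∫ ζ, V ζ * ((1 - ‖z‖ ^ 2) / ‖ζ - z‖ ^ 2) ∂sg :=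
        ⟨_, rfl⟩
      rw [← hIV] at e1 e2 e4
      have hpos : 0 < (1 / θ + 2) ^ (-α) := Real.rpow_pos_of_pos (by positivity) _
      have e5 : c1 * (1 / 4 * (1 / θ + 2) ^ (-α) * δ * (ψ z) ^ (-α)) ≤ (H z).re :=
        (mul_le_mul_of_nonneg_left e2 hc1.le).trans e1
      have hH0 : 0 ≤ (H z).re := le_trans (by positivity) e5
      have e6 : IV ≤ 1 / c1 * (H z).re := by
        rw [one_div, inv_mul_eq_div, le_div_iff₀ hc1]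
        linarith
      constructor
      · calc min (c2 * (θ / 16 * δ)) (c1 * (1 / 4 * (1 / θ + 2) ^ (-α) * δ)) * (ψ z) ^ (-α) ≤
              (c1 * (1 / 4 * (1 / θ + 2) ^ (-α) * δ)) * (ψ z) ^ (-α) :=
                mul_le_mul_of_nonneg_right (min_le_right _ _) hr
          _ = c1 * (1 / 4 * (1 / θ + 2) ^ (-α) * δ * (ψ z) ^ (-α)) := by ring
          _ ≤ _ := e5
      · refine e3.trans (Real.exp_le_exp.2 ?_)
        have e10 : 0 ≤ C1 / c2 * (H z).re := by positivity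
        nlinarith

theorem pl_max {ψ : ℂ → ℝ} (hL : LipschitzWith 1 ψ)
    (hd : ∀ z, |1 - ‖z‖| ≤ ψ z) (hψ1 : ∀ z, ‖z‖ = 1 → ψ z ≤ 1) {θ : ℝ} (hθ : 0 < θ)
    (hθ1 : θ ≤ 1 / 8) {Λ H : ℂ → ℂ} (hΛ : DifferentiableOn ℂ Λ {z | ψ z ≠ 0})
    (hH : DifferentiableOn ℂ H {z | ‖z‖ < 1 + θ * ψ z}) {α A C0 c4 Cb : ℝ} (hα : 0 < α)
    (hA : 0 ≤ A) (hc4 : 0 < c4)
    (hgr : ∀ z, 0 < ψ z → ‖z‖ ≤ 1 + θ * ψ z / 2 → c4 * (ψ z) ^ (-α) ≤ (H z).re ∧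
      ‖Λ z‖ ≤ Real.exp (C0 + A * (H z).re)) (hCb0 : 0 ≤ Cb)
    (hCb : ∀ z, 0 < ψ z → ‖z‖ = 1 + θ * ψ z / 2 → ‖Λ z‖ ≤ Cb) :
    ∀ z, 0 < ψ z → ‖z‖ < 1 + θ * ψ z / 2 → ‖Λ z‖ ≤ Cb * Real.exp ((A + 1) * (H z).re) := by
  classical
  have hψ0 : ∀ ζ, 0 ≤ ψ ζ := fun ζ => (abs_nonneg _).trans (hd ζ)
  have hψc : Continuous ψ := hL.continuous
  obtain ⟨G, hG⟩ : ∃ G : ℂ → ℂ, G = fun z =>
      if ψ z = 0 then 0 else Λ z * Complex.exp (-((A + 1 : ℝ) : ℂ) * H z) := ⟨_, rfl⟩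
  have hG0 : ∀ z, ψ z = 0 → G z = 0 := by
    intro z hz
    rw [hG]
    beta_reduce
    rw [if_pos hz]
  have hG1 : ∀ z, 0 < ψ z → G z = Λ z * Complex.exp (-((A + 1 : ℝ) : ℂ) * H z) := by
    intro z hz
    rw [hG]
    beta_reduce
    rw [if_neg hz.ne']
  have hGn : ∀ z, 0 < ψ z → ‖G z‖ = ‖Λ z‖ * Real.exp (-((A + 1) * (H z).re)) := by
    intro z hz
    rw [hG1 z hz, norm_mul, Complex.norm_exp]
    congr 2
    rw [← Complex.ofReal_neg, Complex.re_ofReal_mul]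
    ring
  obtain ⟨U, hU⟩ : ∃ U : Set ℂ, U = {z | ‖z‖ < 1 + θ * ψ z / 2} := ⟨_, rfl⟩
  have hUo : IsOpen U := by
    rw [hU]
    exact isOpen_lt (by fun_prop) (by fun_prop)
  have hUc : closure U ⊆ {z | ‖z‖ ≤ 1 + θ * ψ z / 2} := by
    rw [hU]
    exact closure_lt_subset_le (by fun_prop) (by fun_prop)
  have hUf : frontier U ⊆ {z | ‖z‖ = 1 + θ * ψ z / 2} := by
    rw [hU]
    exact frontier_lt_subset_eq (by fun_prop) (by fun_prop)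
  have hUψ : ∀ z ∈ U, 0 < ψ z := by
    intro z hz
    rw [hU] at hz
    have hz' : ‖z‖ < 1 + θ * ψ z / 2 := hz
    rcases (hψ0 z).lt_or_eq with h | h
    · exact h
    · have h2 := hd z
      rw [← h] at h2 hz'
      have h3 := abs_le.1 h2
      linarith [h3.1, h3.2]
  have hUb : Bornology.IsBounded U := by
    refine (Metric.isBounded_closedBall (x := (0 : ℂ)) (r := 2)).subset (fun z hz => ?_)
    rw [mem_closedBall_zero_iff]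
    rw [hU] at hz
    have hz' : ‖z‖ < 1 + θ * ψ z / 2 := hz
    by_contra hcon
    push Not at hcon
    have h2 := pl_psi_bd hL hψ1 z
    rw [abs_of_neg (by linarith)] at h2
    nlinarith
  have hdiff : ∀ z, 0 < ψ z → ‖z‖ ≤ 1 + θ * ψ z / 2 → DifferentiableAt ℂ G z := by
    intro z hz hz1
    have o1 : IsOpen {z : ℂ | ψ z ≠ 0} := isOpen_ne_fun hψc continuous_const
    have o2 : IsOpen {z : ℂ | ‖z‖ < 1 + θ * ψ z} := isOpen_lt (by fun_prop) (by fun_prop)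
    have d1 : DifferentiableAt ℂ Λ z := hΛ.differentiableAt (o1.mem_nhds hz.ne')
    have d2 : DifferentiableAt ℂ H z := hH.differentiableAt (o2.mem_nhds (by
      show ‖z‖ < 1 + θ * ψ z
      have : 0 < θ * ψ z := by positivity
      linarith))
    have d3 : DifferentiableAt ℂ (fun z => Λ z * Complex.exp (-((A + 1 : ℝ) : ℂ) * H z)) z :=
      d1.mul ((d2.const_mul _).cexp)
    refine d3.congr_of_eventuallyEq ?_
    filter_upwards [o1.mem_nhds hz.ne'] with y hy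
    exact hG1 y (lt_of_le_of_ne (hψ0 y) (Ne.symm hy))
  have hsmall : ∀ z, ‖z‖ ≤ 1 + θ * ψ z / 2 → ‖G z‖ ≤ Real.exp C0 / c4 * (ψ z) ^ α := by
    intro z hz1
    rcases (hψ0 z).lt_or_eq with hz | hz
    · obtain ⟨g1, g2⟩ := hgr z hz hz1
      rw [hGn z hz]
      have h3 : 0 < (ψ z) ^ (-α) := Real.rpow_pos_of_pos hz _
      have hHpos : 0 < (H z).re := lt_of_lt_of_le (by positivity) g1
      have h4 : ‖Λ z‖ * Real.exp (-((A + 1) * (H z).re)) ≤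
          Real.exp (C0 + A * (H z).re) * Real.exp (-((A + 1) * (H z).re)) :=
        mul_le_mul_of_nonneg_right g2 (Real.exp_pos _).le
      have h5 : Real.exp (C0 + A * (H z).re) * Real.exp (-((A + 1) * (H z).re)) =
          Real.exp C0 * Real.exp (-(H z).re) := by
        rw [← Real.exp_add, ← Real.exp_add]
        congr 1
        ring
      have h6 : Real.exp (-(H z).re) ≤ 1 / (H z).re := by
        rw [Real.exp_neg, ← one_div]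
        apply one_div_le_one_div_of_le hHpos
        have := Real.add_one_le_exp (H z).re
        linarith
      have h7 : 1 / (H z).re ≤ 1 / (c4 * (ψ z) ^ (-α)) :=
        one_div_le_one_div_of_le (by positivity) g1
      have h8 : 1 / (c4 * (ψ z) ^ (-α)) = (ψ z) ^ α / c4 := by
        rw [Real.rpow_neg hz.le]
        field_simp
      rw [h5] at h4
      calc ‖Λ z‖ * Real.exp (-((A + 1) * (H z).re)) ≤ Real.exp C0 * Real.exp (-(H z).re) := h4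
        _ ≤ Real.exp C0 * ((ψ z) ^ α / c4) :=
            mul_le_mul_of_nonneg_left ((h6.trans h7).trans_eq h8) (Real.exp_pos _).le
        _ = _ := by ring
    · rw [hG0 z hz.symm, norm_zero]
      have := Real.rpow_nonneg (hψ0 z) α
      positivity
  have hDC : DiffContOnCl ℂ G U := by
    constructor
    · intro z hz
      have hz' : ‖z‖ < 1 + θ * ψ z / 2 := by rw [hU] at hz; exact hz
      exact (hdiff z (hUψ z hz) hz'.le).differentiableWithinAt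
    · intro z hz
      have hz' : ‖z‖ ≤ 1 + θ * ψ z / 2 := hUc hz
      rcases (hψ0 z).lt_or_eq with h | h
      · exact (hdiff z h hz').continuousAt.continuousWithinAt
      · unfold ContinuousWithinAt
        rw [hG0 z h.symm]
        refine squeeze_zero_norm' (a := fun z => Real.exp C0 / c4 * (ψ z) ^ α) ?_ ?_
        · filter_upwards [self_mem_nhdsWithin] with y hy
          exact hsmall y (hUc hy)
        · have hc : Continuous (fun z => Real.exp C0 / c4 * (ψ z) ^ α) :=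
            continuous_const.mul (hψc.rpow_const (fun x => Or.inr hα.le))
          have h3 := (hc.tendsto z).mono_left (nhdsWithin_le_nhds (s := closure U))
          rw [← h, Real.zero_rpow hα.ne', mul_zero] at h3
          exact h3
  have hfr : ∀ z ∈ frontier U, ‖G z‖ ≤ Cb := by
    intro z hz
    have hz' : ‖z‖ = 1 + θ * ψ z / 2 := hUf hz
    rcases (hψ0 z).lt_or_eq with h | h
    · obtain ⟨g1, g2⟩ := hgr z h hz'.le
      have h3 : 0 < (ψ z) ^ (-α) := Real.rpow_pos_of_pos h _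
      have hHpos : 0 < (H z).re := lt_of_lt_of_le (by positivity) g1
      rw [hGn z h]
      have h4 : Real.exp (-((A + 1) * (H z).re)) ≤ 1 := by
        rw [Real.exp_le_one_iff]
        have : 0 ≤ (A + 1) * (H z).re := by positivity
        linarith
      calc ‖Λ z‖ * Real.exp (-((A + 1) * (H z).re)) ≤ ‖Λ z‖ * 1 :=
            mul_le_mul_of_nonneg_left h4 (norm_nonneg _)
        _ = ‖Λ z‖ := mul_one _
        _ ≤ Cb := hCb z h hz'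
    · rw [hG0 z h.symm, norm_zero]
      exact hCb0
  intro z hz hz1
  have hzU : z ∈ U := by rw [hU]; exact hz1
  have hfin := Complex.norm_le_of_forall_mem_frontier_norm_le hUb hDC hfr (subset_closure hzU)
  rw [hGn z hz, Real.exp_neg, ← div_eq_mul_inv, div_le_iff₀ (Real.exp_pos _)] at hfin
  exact hfin

theorem pl_Hf_bd {ψ : ℂ → ℝ} (hL : LipschitzWith 1 ψ)
    (hd : ∀ z, |1 - ‖z‖| ≤ ψ z) (hψ1 : ∀ z, ‖z‖ = 1 → ψ z ≤ 1) {θ : ℝ} (hθ : 0 < θ)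
    (hθ1 : θ ≤ 1 / 8) {V : ℂ → ℝ} (hV : Integrable V sg) (hV0 : ∀ ζ, 0 ≤ V ζ) (z : ℂ)
    (hz : 0 < ψ z) (hz1 : ‖z‖ ≤ 1 + θ * ψ z / 2) :
    ‖Hf θ ψ V z‖ ≤ 4 / (θ * ψ z) * ∫ ζ, V ζ ∂sg := by
  have hψ0 : ∀ ζ, 0 ≤ ψ ζ := fun ζ => (abs_nonneg _).trans (hd ζ)
  rw [← integral_const_mul]
  unfold Hf
  refine norm_integral_le_of_norm_le (hV.const_mul _) ?_
  filter_upwards [pl_sg_norm] with ζ hζ
  have h1 := hψ1 ζ hζ
  have h0 := hψ0 ζ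
  obtain ⟨Z, hZ⟩ : ∃ Z : ℂ, Z = ((1 + 2 * θ * ψ ζ : ℝ) : ℂ) * ζ := ⟨_, rfl⟩
  rw [← hZ]
  have hp : 0 ≤ 2 * θ * ψ ζ := by positivity
  have hZn : ‖Z‖ = 1 + 2 * θ * ψ ζ := by
    rw [hZ, norm_mul, hζ, mul_one, Complex.norm_real, Real.norm_eq_abs, abs_of_nonneg (by linarith)]
  have hZζ : ‖Z - ζ‖ = 2 * θ * ψ ζ := by
    have : Z - ζ = ((2 * θ * ψ ζ : ℝ) : ℂ) * ζ := by
      rw [hZ]
      push_cast
      ring
    rw [this, norm_mul, hζ, mul_one, Complex.norm_real, Real.norm_eq_abs, abs_of_nonneg hp]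
  have hlow : θ * ψ z / 2 ≤ ‖Z - z‖ := by
    by_contra hcon
    push Not at hcon
    have e1 : ‖Z‖ - ‖Z - z‖ ≤ ‖z‖ := by
      have := norm_sub_norm_le Z (Z - z)
      rw [sub_sub_cancel] at this
      exact this
    have e2 := pl_psi_le hL z ζ
    have e3 : ‖z - ζ‖ ≤ ‖Z - z‖ + ‖Z - ζ‖ := by
      have h4 : z - ζ = (Z - ζ) - (Z - z) := by ring
      rw [h4]
      have := norm_sub_le (Z - ζ) (Z - z)
      linarith
    rw [hZn] at e1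
    rw [hZζ] at e3
    have e4 : θ * (2 * ψ ζ) < θ * ψ z := by nlinarith
    have e5 : 2 * ψ ζ < ψ z := lt_of_mul_lt_mul_left e4 hθ.le
    nlinarith
  have hzpos : 0 < θ * ψ z / 2 := by positivity
  rw [norm_mul, norm_div, Complex.norm_real, Real.norm_eq_abs, abs_of_nonneg (hV0 ζ), hZn,
    mul_comm]
  apply mul_le_mul_of_nonneg_right _ (hV0 ζ)
  rw [div_le_div_iff₀ (by linarith) (by positivity)]
  have h12 : 1 + 2 * θ * ψ ζ ≤ 2 := by nlinarith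
  have h13 := mul_le_mul_of_nonneg_right h12 (show 0 ≤ θ * ψ z by positivity)
  linarith

theorem pl_bound {α : ℝ} (h0 : 0 < α) (h1 : α < 1) {ψ : ℂ → ℝ} (hL : LipschitzWith 1 ψ)
    (hd : ∀ z, |1 - ‖z‖| ≤ ψ z) (hψ1 : ∀ z, ‖z‖ = 1 → ψ z ≤ 1) (hE : sg {z | ψ z = 0} = 0)
    (hint : Integrable (fun ζ => (ψ ζ) ^ (-α)) sg)
    (hB : ∃ K : ℝ, ∀ ζ, ‖ζ‖ = 1 →
        ∫⁻ z in {z | ψ z / 4 ≤ ‖z - ζ‖}, ENNReal.ofReal (ψ z / ‖z - ζ‖ ^ 2) ∂sg ≤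
          ENNReal.ofReal K)
    {Λ : ℂ → ℂ} (hΛ : DifferentiableOn ℂ Λ {z | ψ z ≠ 0})
    (hg : ∀ c : ℝ, 0 < c → ∃ C : ℝ, ∀ z, 1 < ‖z‖ → ‖Λ z‖ ≤ C * Real.exp (c * (‖z‖ - 1) ^ (-α)))
    (hb : ∀ κ : ℝ, 0 < κ → ∃ C : ℝ, ∀ z, 1 < ‖z‖ → 1 + κ * ψ z ≤ ‖z‖ → ‖z‖ ≤ 2 → ‖Λ z‖ ≤ C)
    {w : ℂ → ℝ} (hwm : Measurable w) (hw0 : ∀ ζ, 0 ≤ w ζ) (hw : Integrable w sg)
    (hw1 : ∀ z, ‖z‖ < 1 → ‖Λ z‖ ≤ Real.exp (∫ ζ, w ζ * ((1 - ‖z‖ ^ 2) / ‖ζ - z‖ ^ 2) ∂sg)) :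
    ∃ C : ℝ, ∀ z, ‖z‖ ≤ 2 → ψ z ≠ 0 → ‖Λ z‖ ≤ C := by
  have hfin := pl_sg_fin
  have hψ0 : ∀ ζ, 0 ≤ ψ ζ := fun ζ => (abs_nonneg _).trans (hd ζ)
  obtain ⟨K, hK⟩ := hB
  obtain ⟨θ, c2, hθ, hθ1, hc2, hneu⟩ := neumann hL hd hψ1 hK
  obtain ⟨c1, hc1, hdisc⟩ := Hf_disc (M := 1) one_pos
  obtain ⟨C1, hC1, hcb⟩ := collar_bound h0 h1 hθ hθ1
  obtain ⟨Cb, hCb⟩ := hb (θ / 2) (by positivity)
  have hψm : Measurable (fun ζ => (ψ ζ) ^ (-α)) := hL.continuous.measurable.pow_const _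
  have hmax_int : ∀ n : ℕ, Integrable (fun ζ => max (w ζ - n) 0) sg := fun n =>
    (hw.sub (integrable_const (n : ℝ))).pos_part
  have hmax_m : ∀ n : ℕ, Measurable (fun ζ => max (w ζ - n) 0) := fun n =>
    (hwm.sub_const _).max measurable_const
  have hwn_m : ∀ n : ℕ, Measurable (fun ζ => max (w ζ - n) 0 + 1 / ((n : ℝ) + 1) * (ψ ζ) ^ (-α)) :=
    fun n => (hmax_m n).add (hψm.const_mul _)
  have hψr : ∀ ζ, 0 ≤ (ψ ζ) ^ (-α) := fun ζ => Real.rpow_nonneg (hψ0 ζ) _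
  have hwn0 : ∀ (n : ℕ) ζ, 0 ≤ max (w ζ - n) 0 + 1 / ((n : ℝ) + 1) * (ψ ζ) ^ (-α) := by
    intro n ζ
    have h2 := hψr ζ
    have h3 : 0 ≤ max (w ζ - n) 0 := le_max_right _ _
    positivity
  have hwn_int : ∀ n : ℕ, Integrable
      (fun ζ => max (w ζ - n) 0 + 1 / ((n : ℝ) + 1) * (ψ ζ) ^ (-α)) sg := fun n =>
    (hmax_int n).add (hint.const_mul _)
  choose V hV1 hV2 hV3 hV4 hV5 using fun n : ℕ =>
    hneu (fun ζ => max (w ζ - n) 0 + 1 / ((n : ℝ) + 1) * (ψ ζ) ^ (-α)) (hwn_m n) (hwn0 n)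
      (hwn_int n)
  have hV0 : ∀ n ζ, 0 ≤ V n ζ := fun n ζ => (hwn0 n ζ).trans (hV2 n ζ)
  have hcore : ∀ (n : ℕ) (z : ℂ), 0 < ψ z → ‖z‖ < 1 + θ * ψ z / 2 →
      ‖Λ z‖ ≤ max Cb 0 * Real.exp ((1 / c1 + C1 / c2 + 1 + 1) * (Hf θ ψ (V n) z).re) := by
    intro n
    obtain ⟨C0, c4, hc4, hgr⟩ := pl_growth h0 h1 hL hd hψ1 hE hg hwm hw hw1 hθ hθ1 hc1 hc2 hC1
      (fun w a b c N c' C d e f g i => hcb hL hd hψ1 hΛ a b c d e f g i) n (hV3 n)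
      (δ := 1 / ((n : ℝ) + 1)) (by positivity)
      (fun ζ => by
        have h2 := hV2 n ζ
        have h3 : 0 ≤ max (w ζ - n) 0 := le_max_right _ _
        linarith)
      (fun ζ => by
        have h2 := hV2 n ζ
        have h3 : 0 ≤ 1 / ((n : ℝ) + 1) * (ψ ζ) ^ (-α) := by
          have := hψr ζ
          positivity
        linarith)
      (H := Hf θ ψ (V n)) (hV5 n)
      (fun z hz hz' => hdisc hθ hθ1 hL hd (hV3 n) (hV0 n) z hz hz')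
    refine pl_max hL hd hψ1 hθ hθ1 hΛ (Hf_diff hθ hθ1 hL hd (hV3 n)) h0 (by positivity) hc4 hgr
      (le_max_right _ _) (fun z hz hz' => ?_)
    have hp : 0 < θ * ψ z := by positivity
    have h2 := pl_psi_bd hL hψ1 z
    rw [abs_of_neg (by linarith)] at h2
    exact (hCb z (by linarith) (by linarith) (by nlinarith)).trans (le_max_left _ _)
  -- limit of the masses
  have hlim1 : Tendsto (fun n : ℕ => ∫ ζ, max (w ζ - n) 0 ∂sg) atTop (𝓝 0) := by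
    have h2 := tendsto_integral_of_dominated_convergence (μ := sg)
      (F := fun (n : ℕ) ζ => max (w ζ - n) 0) (f := fun _ => (0 : ℝ)) w
      (fun n => (hmax_m n).aestronglyMeasurable) hw
      (fun n => Filter.Eventually.of_forall (fun ζ => by
        rw [Real.norm_eq_abs, abs_of_nonneg (le_max_right _ _)]
        exact max_le (by have : (0 : ℝ) ≤ n := Nat.cast_nonneg n; linarith) (hw0 ζ)))
      (Filter.Eventually.of_forall (fun ζ => by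
        obtain ⟨N, hN⟩ := exists_nat_ge (w ζ)
        refine tendsto_const_nhds.congr' ?_
        filter_upwards [Filter.eventually_ge_atTop N] with n hn
        have : (N : ℝ) ≤ n := by exact_mod_cast hn
        rw [max_eq_right (by linarith)]))
    rwa [integral_zero] at h2
  have hlim2 : Tendsto (fun n : ℕ => ∫ ζ, (max (w ζ - n) 0 + 1 / ((n : ℝ) + 1) * (ψ ζ) ^ (-α)) ∂sg)
      atTop (𝓝 0) := by
    have h2 : Tendsto (fun n : ℕ => (∫ ζ, max (w ζ - n) 0 ∂sg) +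
        1 / ((n : ℝ) + 1) * ∫ ζ, (ψ ζ) ^ (-α) ∂sg) atTop (𝓝 (0 + 0 * ∫ ζ, (ψ ζ) ^ (-α) ∂sg)) :=
      hlim1.add (tendsto_one_div_add_atTop_nhds_zero_nat.mul_const _)
    rw [zero_mul, add_zero] at h2
    refine h2.congr (fun n => ?_)
    rw [← integral_const_mul, ← integral_add (hmax_int n) (hint.const_mul _)]
  have hin : ∀ z, 0 < ψ z → ‖z‖ < 1 + θ * ψ z / 2 → ‖Λ z‖ ≤ max Cb 0 := by
    intro z hz hz1
    have hB0 : 0 ≤ 1 / c1 + C1 / c2 + 1 + 1 := by positivity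
    have hbd : ∀ n : ℕ, ‖Λ z‖ ≤ max Cb 0 * Real.exp ((1 / c1 + C1 / c2 + 1 + 1) *
        (4 / (θ * ψ z) * (2 * ∫ ζ, (max (w ζ - n) 0 + 1 / ((n : ℝ) + 1) * (ψ ζ) ^ (-α)) ∂sg))) := by
      intro n
      refine (hcore n z hz hz1).trans (mul_le_mul_of_nonneg_left ?_ (le_max_right _ _))
      apply Real.exp_le_exp.2
      apply mul_le_mul_of_nonneg_left _ hB0
      refine (Complex.re_le_norm _).trans ((pl_Hf_bd hL hd hψ1 hθ hθ1 (hV3 n) (hV0 n) z hz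
        hz1.le).trans ?_)
      exact mul_le_mul_of_nonneg_left (hV4 n) (by positivity)
    have hlim3 : Tendsto (fun n : ℕ => max Cb 0 * Real.exp ((1 / c1 + C1 / c2 + 1 + 1) *
        (4 / (θ * ψ z) * (2 * ∫ ζ, (max (w ζ - n) 0 + 1 / ((n : ℝ) + 1) * (ψ ζ) ^ (-α)) ∂sg))))
        atTop (𝓝 (max Cb 0 * Real.exp ((1 / c1 + C1 / c2 + 1 + 1) * (4 / (θ * ψ z) * (2 * 0))))) := by
      refine Tendsto.const_mul _ ((Real.continuous_exp.tendsto _).comp ?_)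
      exact Tendsto.const_mul _ (Tendsto.const_mul _ (Tendsto.const_mul _ hlim2))
    have h3 := ge_of_tendsto' hlim3 hbd
    rw [mul_zero, mul_zero, mul_zero, Real.exp_zero, mul_one] at h3
    exact h3
  refine ⟨max Cb 0, fun z hz2 hz0 => ?_⟩
  have hz : 0 < ψ z := lt_of_le_of_ne (hψ0 z) (Ne.symm hz0)
  rcases lt_or_ge ‖z‖ (1 + θ * ψ z / 2) with h | h
  · exact hin z hz h
  · have hp : 0 < θ * ψ z := by positivity
    exact (hCb z (by linarith) (by linarith) hz2).trans (le_max_left _ _)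

end Pool.Agent.Helper203.GV
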