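import Pool.Agent.Helper203.GV.Defs
import Pool.Agent.Helper203.GV.Alg

open MeasureTheory Filter Topology Set

noncomputable section

namespace Pool.Agent.Helper203.GV

open scoped ComplexConjugate

theorem pl_id (r : ℝ) (x u : ℂ) :
    ‖(r : ℂ) ^ 2 - conj u * x‖ ^ 2 - r ^ 2 * ‖x - u‖ ^ 2 =
      (r ^ 2 - ‖x‖ ^ 2) * (r ^ 2 - ‖u‖ ^ 2) := by
  rw [Complex.sq_norm, Complex.sq_norm, Complex.sq_norm, Complex.sq_norm, Complex.normSq_apply,
    Complex.normSq_apply, Complex.normSq_apply, Complex.normSq_apply]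
  simp only [Complex.sub_re, Complex.sub_im, Complex.mul_re, Complex.mul_im, Complex.conj_re,
    Complex.conj_im, pow_two, Complex.ofReal_re, Complex.ofReal_im]
  ring

theorem pl_ne {r : ℝ} (hr : 0 < r) {x u : ℂ} (hx : ‖x‖ ≤ r) (hu : ‖u‖ < r) :
    (r : ℂ) ^ 2 - conj u * x ≠ 0 := by
  intro h
  have h1 : (r : ℂ) ^ 2 = conj u * x := sub_eq_zero.1 h
  have h2 := congrArg norm h1
  rw [norm_pow, norm_mul, Complex.norm_real, RCLike.norm_conj, Real.norm_eq_abs, abs_of_pos hr] at h2
  have h3 : ‖u‖ * ‖x‖ < r * r := by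
    have := norm_nonneg u
    have := norm_nonneg x
    nlinarith
  nlinarith

theorem pl_factor {r : ℝ} (hr : 0 < r) {z u : ℂ} (hz : z ∈ Metric.ball (0:ℂ) r)
    (hu : u ∈ Metric.closedBall (0:ℂ) r) (hne : z ≠ u) :
    Real.log ‖z - u‖ ≤ Real.circleAverage
      ((Complex.re ∘ herglotzRieszKernel 0 z) • (fun x => Real.log ‖x - u‖)) 0 r := by
  rcases eq_or_lt_of_le (mem_closedBall_zero_iff.1 hu) with h | h
  · exact (circleAverage_re_herglotzRieszKernel_mul_log₀ (mem_sphere_zero_iff_norm.2 h) hz).ge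
  · set G : ℂ → ℂ := fun x => ((r : ℂ) ^ 2 - conj u * x) / r with hG
    have hr0 : (r : ℂ) ≠ 0 := by exact_mod_cast hr.ne'
    have hGne : ∀ x ∈ Metric.closedBall (0:ℂ) r, G x ≠ 0 := fun x hx =>
      div_ne_zero (pl_ne hr (mem_closedBall_zero_iff.1 hx) h) hr0
    have hGan : ∀ x, AnalyticAt ℂ G x := by
      intro x
      rw [hG]
      fun_prop (disch := exact hr0)
    have hharm : InnerProductSpace.HarmonicOnNhd (fun x => Real.log ‖G x‖)
        (Metric.closedBall (0:ℂ) r) := fun x hx =>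
      (hGan x).harmonicAt_log_norm (hGne x hx)
    have h1 := hharm.circleAverage_re_herglotzRieszKernel_smul hz
    have h2 : Real.circleAverage
        ((Complex.re ∘ herglotzRieszKernel 0 z) • (fun x => Real.log ‖x - u‖)) 0 r =
        Real.circleAverage
        ((Complex.re ∘ herglotzRieszKernel 0 z) • (fun x => Real.log ‖G x‖)) 0 r := by
      apply Real.circleAverage_congr_sphere
      intro x hx
      rw [abs_of_pos hr, mem_sphere_zero_iff_norm] at hx
      have hid := pl_id r x u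
      rw [hx, sub_self, zero_mul] at hid
      have h3 : ‖x - u‖ = ‖G x‖ := by
        rw [hG]
        simp only [norm_div, Complex.norm_real, Real.norm_eq_abs, abs_of_pos hr]
        rw [eq_div_iff hr.ne']
        have h4 : (‖x - u‖ * r) ^ 2 = ‖(r : ℂ) ^ 2 - conj u * x‖ ^ 2 := by linarith
        exact (pow_left_inj₀ (by positivity) (norm_nonneg _) two_ne_zero).1 h4
      simp only [Pi.smul_apply', h3]
    rw [h2, h1]
    apply Real.log_le_log (norm_pos_iff.2 (sub_ne_zero.2 hne))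
    rw [hG]
    simp only [norm_div, Complex.norm_real, Real.norm_eq_abs, abs_of_pos hr]
    rw [le_div_iff₀ hr]
    have hid := pl_id r z u
    have hz' := mem_ball_zero_iff.1 hz
    have h5 : 0 ≤ (r ^ 2 - ‖z‖ ^ 2) * (r ^ 2 - ‖u‖ ^ 2) := by
      apply mul_nonneg
      · have := norm_nonneg z
        nlinarith
      · have := norm_nonneg u
        nlinarith
    have h4 : (‖z - u‖ * r) ^ 2 ≤ ‖(r : ℂ) ^ 2 - conj u * z‖ ^ 2 := by linarith
    exact (pow_le_pow_iff_left₀ (by positivity) (norm_nonneg _) two_ne_zero).1 h4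

theorem pl_PJ {r : ℝ} (hr : 0 < r) {z : ℂ} (hz : z ∈ Metric.ball (0:ℂ) r) {f : ℂ → ℂ}
    (hf : AnalyticOnNhd ℂ f (Metric.closedBall (0:ℂ) r)) (hne : f z ≠ 0) :
    Real.log ‖f z‖ ≤ Real.circleAverage
      ((Complex.re ∘ herglotzRieszKernel 0 z) • (fun x => Real.log ‖f x‖)) 0 r := by
  classical
  set U := Metric.closedBall (0:ℂ) r with hU
  have hzU : z ∈ U := Metric.ball_subset_closedBall hz
  have hfm : MeromorphicOn f U := hf.meromorphicOn
  have hordz : meromorphicOrderAt f z = 0 :=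
    (hf z hzU).meromorphicNFAt.meromorphicOrderAt_eq_zero_iff.2 hne
  have h₂f : ∀ u : U, meromorphicOrderAt f u ≠ ⊤ := by
    apply (hfm.exists_meromorphicOrderAt_ne_top_iff_forall
      ((convex_closedBall (0:ℂ) r).isConnected ⟨z, hzU⟩)).1
    exact ⟨⟨z, hzU⟩, by rw [hordz]; exact WithTop.zero_ne_top⟩
  have h₃f := (MeromorphicOn.divisor f U).finiteSupport (isCompact_closedBall (0:ℂ) r)
  obtain ⟨g, hg, hgne, heq⟩ := hfm.extract_zeros_poles h₂f h₃f
  have hlog := MeromorphicOn.extract_zeros_poles_log hgne heq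
  set D := MeromorphicOn.divisor f U with hD
  set S := h₃f.toFinset with hS
  have hDz : D z = 0 := by
    rw [hD, MeromorphicOn.divisor_apply hfm hzU, hordz]
    rfl
  have hDnn : ∀ u, (0:ℝ) ≤ D u := by
    intro u
    have h1 : 0 ≤ D := MeromorphicOn.AnalyticOnNhd.divisor_nonneg hf
    have h2 : (0 : ℤ) ≤ D u := h1 u
    exact_mod_cast h2
  have hSU : ∀ u ∈ S, u ∈ U := by
    intro u hu
    rw [hS, Set.Finite.mem_toFinset] at hu
    exact D.supportWithinDomain hu
  have hSz : ∀ u ∈ S, z ≠ u := by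
    rintro u hu rfl
    rw [hS, Set.Finite.mem_toFinset] at hu
    exact hu hDz
  have hfs : (∑ᶠ u : ℂ, fun x : ℂ => (D u : ℝ) * Real.log ‖x - u‖) =
      fun x => ∑ u ∈ S, (D u : ℝ) * Real.log ‖x - u‖ := by
    rw [finsum_eq_sum_of_support_subset (s := S)]
    · funext x
      rw [Finset.sum_apply]
    · intro u
      contrapose
      intro hu
      rw [hS, Set.Finite.coe_toFinset] at hu
      have : D u = 0 := by simpa using hu
      simp [this]
      rfl
  rw [hfs] at hlog
  have hgz : g z ≠ 0 := hgne ⟨z, hzU⟩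
  -- equality at z
  have hev : ∀ᶠ x in 𝓝[≠] z, Real.log ‖f x‖ =
      (∑ u ∈ S, (D u : ℝ) * Real.log ‖x - u‖) + Real.log ‖g x‖ := by
    have h1 := (mem_codiscreteWithin_iff_forall_mem_nhdsNE.1 hlog) z hzU
    have h2 : U ∈ 𝓝[≠] z := mem_nhdsWithin_of_mem_nhds (Metric.closedBall_mem_nhds_of_mem hz)
    filter_upwards [h1, h2] with x hx1 hx2
    rcases hx1 with h | h
    · exact h
    · exact absurd hx2 h
  have hLc : Tendsto (fun x => Real.log ‖f x‖) (𝓝[≠] z) (𝓝 (Real.log ‖f z‖)) :=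
    (((hf z hzU).continuousAt.norm).log (norm_ne_zero_iff.2 hne)).tendsto.mono_left
      nhdsWithin_le_nhds
  have hRc : Tendsto (fun x => (∑ u ∈ S, (D u : ℝ) * Real.log ‖x - u‖) + Real.log ‖g x‖)
      (𝓝[≠] z) (𝓝 ((∑ u ∈ S, (D u : ℝ) * Real.log ‖z - u‖) + Real.log ‖g z‖)) := by
    apply Tendsto.mono_left _ nhdsWithin_le_nhds
    apply Tendsto.add
    · apply tendsto_finsetSum
      intro u hu
      apply Tendsto.const_mul
      have hc : ContinuousAt (fun x : ℂ => ‖x - u‖) z := by fun_prop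
      exact (hc.log (norm_ne_zero_iff.2 (sub_ne_zero.2 (hSz u hu)))).tendsto
    · exact (((hg z hzU).continuousAt.norm).log (norm_ne_zero_iff.2 hgz)).tendsto
  have heqz : Real.log ‖f z‖ = (∑ u ∈ S, (D u : ℝ) * Real.log ‖z - u‖) + Real.log ‖g z‖ :=
    tendsto_nhds_unique_of_eventuallyEq hLc hRc hev
  -- the average
  set K : ℂ → ℝ := Complex.re ∘ herglotzRieszKernel 0 z with hK
  have hKc : ContinuousOn K (Metric.sphere (0:ℂ) |r|) :=
    Complex.continuous_re.comp_continuousOn (continuousOn_herglotzRieszKernel_sphere hz)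
  have hint1 : ∀ u : ℂ, CircleIntegrable (K • (fun x => Real.log ‖x - u‖)) 0 r := fun u =>
    (circleIntegrable_log_norm_sub_const r).continuousOn_smul hKc
  have hint2 : CircleIntegrable (K • (fun x => Real.log ‖g x‖)) 0 r := by
    apply CircleIntegrable.continuousOn_smul _ hKc
    apply MeromorphicOn.circleIntegrable_log_norm
    rw [abs_of_pos hr]
    exact (hg.mono Metric.sphere_subset_closedBall).meromorphicOn
  have havg : Real.circleAverage (K • (fun x => Real.log ‖f x‖)) 0 r =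
      (∑ u ∈ S, (D u : ℝ) * Real.circleAverage (K • (fun x => Real.log ‖x - u‖)) 0 r) +
        Real.circleAverage (K • (fun x => Real.log ‖g x‖)) 0 r := by
    have h1 : Real.circleAverage (K • (fun x => Real.log ‖f x‖)) 0 r =
        Real.circleAverage ((∑ u ∈ S, (D u : ℝ) • (K • (fun x => Real.log ‖x - u‖))) +
          K • (fun x => Real.log ‖g x‖)) 0 r := by
      apply Real.circleAverage_congr_codiscreteWithin _ hr.ne'
      rw [abs_of_pos hr]
      have h2 := hlog.filter_mono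
        (codiscreteWithin_mono (Metric.sphere_subset_closedBall (x := (0:ℂ)) (ε := r)))
      filter_upwards [h2] with x hx
      simp only [Pi.add_apply, Finset.sum_apply, Pi.smul_apply, Pi.smul_apply', smul_eq_mul] at hx ⊢
      rw [hx, mul_add, Finset.mul_sum]
      congr 1
      refine Finset.sum_congr rfl fun u _ => ?_
      change K x * ((D u : ℝ) * Real.log ‖x - u‖) = (D u : ℝ) * (K x * Real.log ‖x - u‖)
      ring
    rw [h1, Real.circleAverage_add _ hint2, Real.circleAverage_sum]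
    · congr 1
      refine Finset.sum_congr rfl fun u _ => ?_
      rw [Real.circleAverage_smul, smul_eq_mul]
    · intro u _
      exact (hint1 u).const_smul
    · apply CircleIntegrable.sum
      intro u _
      exact (hint1 u).const_smul
  have hgavg : Real.circleAverage (K • (fun x => Real.log ‖g x‖)) 0 r = Real.log ‖g z‖ := by
    have hh : InnerProductSpace.HarmonicOnNhd (fun x => Real.log ‖g x‖) (Metric.closedBall 0 r) :=
      fun x hx => (hg x hx).harmonicAt_log_norm (hgne ⟨x, hx⟩)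
    exact hh.circleAverage_re_herglotzRieszKernel_smul hz
  rw [havg, heqz, hgavg]
  apply add_le_add _ le_rfl
  refine Finset.sum_le_sum fun u hu => ?_
  exact mul_le_mul_of_nonneg_left (pl_factor hr hz (hSU u hu) (hSz u hu)) (hDnn u)

theorem pl_r {f : ℂ → ℂ} (hfd : DifferentiableOn ℂ f (Metric.ball 0 1))
    (hb : ∀ z : ℂ, ‖z‖ ≤ 1 → ‖f z‖ ≤ 1)
    {z : ℂ} {r : ℝ} (hzr : ‖z‖ < r) (hr1 : r < 1) (hne : f z ≠ 0) :
    (∫⁻ t in Ioc (-Real.pi) Real.pi, ENNReal.ofReal (Real.log (1 / ‖f (circleMap 0 r t)‖) *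
      ((r ^ 2 - ‖z‖ ^ 2) / ‖circleMap 0 r t - z‖ ^ 2))) ≤
      ENNReal.ofReal (2 * Real.pi * Real.log (1 / ‖f z‖)) := by
  have hr : 0 < r := (norm_nonneg z).trans_lt hzr
  have hz : z ∈ Metric.ball (0:ℂ) r := mem_ball_zero_iff.2 hzr
  have hsub : Metric.closedBall (0:ℂ) r ⊆ Metric.ball 0 1 := Metric.closedBall_subset_ball hr1
  have hfa : AnalyticOnNhd ℂ f (Metric.closedBall (0:ℂ) r) :=
    (hfd.analyticOnNhd Metric.isOpen_ball).mono hsub
  have h1 := pl_PJ hr hz hfa hne
  have hKc : ContinuousOn (Complex.re ∘ herglotzRieszKernel 0 z) (Metric.sphere (0:ℂ) |r|) :=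
    Complex.continuous_re.comp_continuousOn (continuousOn_herglotzRieszKernel_sphere hz)
  have hci : CircleIntegrable ((Complex.re ∘ herglotzRieszKernel 0 z) •
      (fun x => Real.log ‖f x‖)) 0 r := by
    apply CircleIntegrable.continuousOn_smul _ hKc
    apply MeromorphicOn.circleIntegrable_log_norm
    rw [abs_of_pos hr]
    exact (hfa.mono Metric.sphere_subset_closedBall).meromorphicOn
  set F : ℝ → ℝ := fun t => ((Complex.re ∘ herglotzRieszKernel 0 z) •
      (fun x => Real.log ‖f x‖)) (circleMap 0 r t) with hF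
  have hFp : Function.Periodic F (2 * Real.pi) := fun t => by
    simp only [hF, periodic_circleMap (0:ℂ) r t]
  have hFi : IntervalIntegrable F volume (-Real.pi) Real.pi := by
    apply hFp.intervalIntegrable Real.two_pi_pos.ne' (t := 0)
    rw [zero_add]
    exact hci
  have hFe : ∀ t, - F t = Real.log (1 / ‖f (circleMap 0 r t)‖) *
      ((r ^ 2 - ‖z‖ ^ 2) / ‖circleMap 0 r t - z‖ ^ 2) := by
    intro t
    have h2 : (Complex.re ∘ herglotzRieszKernel 0 z) (circleMap 0 r t) =
        (r ^ 2 - ‖z‖ ^ 2) / ‖circleMap 0 r t - z‖ ^ 2 := by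
      rw [← poissonKernel_eq_re_herglotzRieszKernel, poissonKernel_def]
      simp [abs_of_pos hr]
    simp only [hF, Pi.smul_apply', smul_eq_mul, h2]
    rw [one_div, Real.log_inv]
    ring
  have hFnn : ∀ t, 0 ≤ - F t := by
    intro t
    rw [hFe]
    apply mul_nonneg
    · rw [one_div, Real.log_inv, neg_nonneg]
      apply Real.log_nonpos (norm_nonneg _)
      apply hb
      simp [abs_of_pos hr, hr1.le]
    · apply div_nonneg _ (by positivity)
      have := norm_nonneg z
      nlinarith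
  have h2 : ∫ t in Ioc (-Real.pi) Real.pi, - F t ≤ 2 * Real.pi * Real.log (1 / ‖f z‖) := by
    rw [integral_neg, ← intervalIntegral.integral_of_le (by linarith [Real.pi_pos])]
    have h3 : Real.circleAverage ((Complex.re ∘ herglotzRieszKernel 0 z) •
      (fun x => Real.log ‖f x‖)) 0 r = (2 * Real.pi)⁻¹ * ∫ t in (-Real.pi)..Real.pi, F t := by
      rw [Real.circleAverage_def, smul_eq_mul]
      congr 1
      have h4 := hFp.intervalIntegral_add_eq 0 (-Real.pi)
      rw [zero_add] at h4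
      rw [show (∫ θ in (0:ℝ)..2 * Real.pi, ((Complex.re ∘ herglotzRieszKernel 0 z) •
        (fun x => Real.log ‖f x‖)) (circleMap 0 r θ)) = ∫ θ in (0:ℝ)..2 * Real.pi, F θ from rfl, h4]
      congr 1
      ring
    rw [h3] at h1
    rw [one_div, Real.log_inv]
    have h5 : 2 * Real.pi * Real.log ‖f z‖ ≤ ∫ t in (-Real.pi)..Real.pi, F t := by
      have := mul_le_mul_of_nonneg_left h1 Real.two_pi_pos.le
      rwa [← mul_assoc, mul_inv_cancel₀ Real.two_pi_pos.ne', one_mul] at this
    linarith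
  simp_rw [← hFe]
  rw [← ofReal_integral_eq_lintegral_ofReal]
  · exact ENNReal.ofReal_le_ofReal h2
  · exact ((intervalIntegrable_iff_integrableOn_Ioc_of_le (by linarith [Real.pi_pos])).1 hFi).neg
  · exact Eventually.of_forall hFnn

theorem pl_zero {f : ℂ → ℂ} (hfd : DifferentiableOn ℂ f (Metric.ball 0 1))
    {z : ℂ} {r : ℝ} (hzr : ‖z‖ < r) (hr1 : r < 1) (hne : f z ≠ 0) :
    ∀ᵐ t ∂(volume.restrict (Ioc (-Real.pi) Real.pi)), f (circleMap 0 r t) ≠ 0 := by
  have hr : 0 < r := (norm_nonneg z).trans_lt hzr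
  have hsub : Metric.closedBall (0:ℂ) r ⊆ Metric.ball 0 1 := Metric.closedBall_subset_ball hr1
  have hfa : AnalyticOnNhd ℂ f (Metric.closedBall (0:ℂ) r) :=
    (hfd.analyticOnNhd Metric.isOpen_ball).mono hsub
  have hzU : z ∈ Metric.closedBall (0:ℂ) r := mem_closedBall_zero_iff.2 hzr.le
  have h1 := hfa.preimage_zero_mem_codiscreteWithin hne hzU
    ((convex_closedBall (0:ℂ) r).isConnected ⟨z, hzU⟩)
  have h2 := codiscreteWithin_mono (Metric.sphere_subset_closedBall (x := (0:ℂ)) (ε := r)) h1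
  have h3 : circleMap 0 r ⁻¹' (f ⁻¹' {0}ᶜ) ∈ codiscrete ℝ := by
    apply circleMap_preimage_codiscrete hr.ne'
    rwa [abs_of_pos hr]
  have h4 := ae_restrict_le_codiscreteWithin (μ := (volume : Measure ℝ))
    (measurableSet_Ioc (a := -Real.pi) (b := Real.pi))
    (codiscreteWithin_mono (Set.subset_univ _) h3)
  filter_upwards [h4] with t ht
  simpa using ht

theorem pl_main {f : ℂ → ℂ} (hfc : ContinuousOn f (Metric.closedBall 0 1))
    (hfd : DifferentiableOn ℂ f (Metric.ball 0 1))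
    (hb : ∀ z : ℂ, ‖z‖ ≤ 1 → ‖f z‖ ≤ 1)
    {z : ℂ} (hz1 : ‖z‖ < 1) (hne : f z ≠ 0) :
    Integrable (fun t : ℝ => Real.log (1 / ‖f (circleMap 0 1 t)‖))
      (volume.restrict (Ioc (-Real.pi) Real.pi)) ∧
    (∀ᵐ t ∂(volume.restrict (Ioc (-Real.pi) Real.pi)), f (circleMap 0 1 t) ≠ 0) ∧
    (∫ t in Ioc (-Real.pi) Real.pi, Real.log (1 / ‖f (circleMap 0 1 t)‖) *
      ((1 - ‖z‖ ^ 2) / ‖circleMap 0 1 t - z‖ ^ 2)) ≤
      2 * Real.pi * Real.log (1 / ‖f z‖) := by
  set μ := (volume : Measure ℝ).restrict (Ioc (-Real.pi) Real.pi) with hμ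
  set B := 2 * Real.pi * Real.log (1 / ‖f z‖) with hB
  obtain ⟨r, hrm, hrI, hrt⟩ : ∃ r : ℕ → ℝ, StrictMono r ∧ (∀ n, r n ∈ Ioo ‖z‖ 1) ∧
      Tendsto r atTop (𝓝 1) := exists_seq_strictMono_tendsto' hz1
  set H : ℕ → ℝ → ℝ := fun n t => Real.log (1 / ‖f (circleMap 0 (r n) t)‖) *
      ((r n ^ 2 - ‖z‖ ^ 2) / ‖circleMap 0 (r n) t - z‖ ^ 2) with hH
  set G : ℝ → ℝ := fun t => Real.log (1 / ‖f (circleMap 0 1 t)‖) *
      ((1 - ‖z‖ ^ 2) / ‖circleMap 0 1 t - z‖ ^ 2) with hG
  have hrcont : ∀ t, Tendsto (fun n => circleMap 0 (r n) t) atTop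
      (𝓝[Metric.closedBall 0 1] (circleMap 0 1 t)) := by
    intro t
    rw [tendsto_nhdsWithin_iff]
    constructor
    · have hc : Continuous fun s : ℝ => circleMap 0 s t := by
        unfold circleMap
        fun_prop
      exact (hc.tendsto 1).comp hrt
    · refine Eventually.of_forall fun n => ?_
      rw [mem_closedBall_zero_iff]
      simp only [norm_circleMap_zero]
      have h1 := hrI n
      rw [abs_of_pos ((norm_nonneg z).trans_lt h1.1)]
      exact h1.2.le
  have hcm1 : ∀ t, ‖circleMap 0 1 t‖ = 1 := fun t => by simp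
  have hcmz : ∀ t, 0 < ‖circleMap 0 1 t - z‖ := by
    intro t
    rw [norm_pos_iff, sub_ne_zero]
    intro h
    have := hcm1 t
    rw [h] at this
    exact hz1.ne this
  have hftend : ∀ t, Tendsto (fun n => f (circleMap 0 (r n) t)) atTop (𝓝 (f (circleMap 0 1 t))) :=
    fun t => (hfc (circleMap 0 1 t) (by simp)).tendsto.comp (hrcont t)
  have hPtend : ∀ t, Tendsto (fun n => (r n ^ 2 - ‖z‖ ^ 2) / ‖circleMap 0 (r n) t - z‖ ^ 2) atTop
      (𝓝 ((1 - ‖z‖ ^ 2) / ‖circleMap 0 1 t - z‖ ^ 2)) := by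
    intro t
    have h1 : Tendsto (fun n => circleMap 0 (r n) t) atTop (𝓝 (circleMap 0 1 t)) :=
      (hrcont t).mono_right nhdsWithin_le_nhds
    have h2 : Tendsto (fun n => r n ^ 2 - ‖z‖ ^ 2) atTop (𝓝 (1 - ‖z‖ ^ 2)) := by
      have := (hrt.pow 2).sub_const (‖z‖ ^ 2)
      rwa [one_pow] at this
    exact h2.div ((h1.sub_const z).norm.pow 2) (pow_ne_zero 2 (hcmz t).ne')
  have hP1 : ∀ t, 0 < (1 - ‖z‖ ^ 2) / ‖circleMap 0 1 t - z‖ ^ 2 := by
    intro t
    apply div_pos _ (pow_pos (hcmz t) 2)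
    have := norm_nonneg z
    nlinarith
  have hLnn : ∀ t, 0 ≤ Real.log (1 / ‖f (circleMap 0 1 t)‖) := by
    intro t
    rw [one_div, Real.log_inv, neg_nonneg]
    exact Real.log_nonpos (norm_nonneg _) (hb _ (hcm1 t).le)
  -- measurability
  have hmeasf : ∀ s : ℝ, 0 ≤ s → s ≤ 1 → Continuous fun t => f (circleMap 0 s t) := by
    intro s hs hs1
    apply hfc.comp_continuous (continuous_circleMap 0 s)
    intro t
    rw [mem_closedBall_zero_iff, norm_circleMap_zero, abs_of_nonneg hs]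
    exact hs1
  have hr0 : ∀ n, 0 < r n := fun n => (norm_nonneg z).trans_lt (hrI n).1
  have hmeasH : ∀ n, Measurable (H n) := by
    intro n
    have h1 := (hmeasf (r n) (hr0 n).le (hrI n).2.le).measurable
    have h2 : Measurable (circleMap 0 (r n)) := (continuous_circleMap 0 (r n)).measurable
    exact (Real.measurable_log.comp (h1.norm.const_div 1)).mul
      (((h2.sub_const z).norm.pow_const 2).const_div _)
  have hmeasG : Measurable G := by
    have h1 := (hmeasf 1 zero_le_one le_rfl).measurable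
    have h2 : Measurable (circleMap 0 1) := (continuous_circleMap 0 1).measurable
    exact (Real.measurable_log.comp (h1.norm.const_div 1)).mul
      (((h2.sub_const z).norm.pow_const 2).const_div _)
  have hfatou : ∫⁻ t, liminf (fun n => ENNReal.ofReal (H n t)) atTop ∂μ ≤ ENNReal.ofReal B := by
    refine (lintegral_liminf_le fun n => (hmeasH n).ennreal_ofReal).trans ?_
    refine (liminf_le_liminf (v := fun _ => ENNReal.ofReal B)
      (Eventually.of_forall fun n => ?_)).trans_eq ?_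
    · exact pl_r hfd hb (hrI n).1 (hrI n).2 hne
    · exact liminf_const _
  have hall : ∀ᵐ t ∂μ, ∀ n, f (circleMap 0 (r n) t) ≠ 0 := by
    rw [ae_all_iff]
    intro n
    exact pl_zero hfd (hrI n).1 (hrI n).2 hne
  have hlt : ∀ᵐ t ∂μ, liminf (fun n => ENNReal.ofReal (H n t)) atTop < ⊤ := by
    apply ae_lt_top
    · exact Measurable.liminf fun n => (hmeasH n).ennreal_ofReal
    · exact (hfatou.trans_lt ENNReal.ofReal_lt_top).ne
  have hnz : ∀ᵐ t ∂μ, f (circleMap 0 1 t) ≠ 0 := by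
    filter_upwards [hall, hlt] with t ht1 ht2 h0
    have h1 : Tendsto (fun n => Real.log (1 / ‖f (circleMap 0 (r n) t)‖)) atTop atTop := by
      have h2 : Tendsto (fun n => ‖f (circleMap 0 (r n) t)‖) atTop (𝓝[>] 0) := by
        rw [tendsto_nhdsWithin_iff]
        constructor
        · have := (hftend t).norm
          rwa [h0, norm_zero] at this
        · exact Eventually.of_forall fun n => norm_pos_iff.2 (ht1 n)
      have h3 := Real.tendsto_log_nhdsGT_zero.comp h2
      have h4 := tendsto_neg_atBot_atTop.comp h3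
      refine h4.congr fun n => ?_
      simp only [Function.comp_apply]
      rw [one_div, Real.log_inv]
    have h5 : Tendsto (fun n => H n t) atTop atTop :=
      h1.atTop_mul_pos (hP1 t) (hPtend t)
    have h6 : Tendsto (fun n => ENNReal.ofReal (H n t)) atTop (𝓝 ⊤) :=
      ENNReal.tendsto_ofReal_nhds_top.2 h5
    rw [h6.liminf_eq] at ht2
    exact lt_irrefl _ ht2
  have hlim : ∀ᵐ t ∂μ, liminf (fun n => ENNReal.ofReal (H n t)) atTop = ENNReal.ofReal (G t) := by
    filter_upwards [hnz] with t ht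
    apply Tendsto.liminf_eq
    apply ENNReal.tendsto_ofReal
    apply Tendsto.mul _ (hPtend t)
    have h1 : Tendsto (fun n => 1 / ‖f (circleMap 0 (r n) t)‖) atTop
        (𝓝 (1 / ‖f (circleMap 0 1 t)‖)) :=
      tendsto_const_nhds.div (hftend t).norm (norm_ne_zero_iff.2 ht)
    exact h1.log (one_div_ne_zero (norm_ne_zero_iff.2 ht))
  have hGl : ∫⁻ t, ENNReal.ofReal (G t) ∂μ ≤ ENNReal.ofReal B := by
    rw [← lintegral_congr_ae hlim]
    exact hfatou
  have hGnn : ∀ t, 0 ≤ G t := fun t => mul_nonneg (hLnn t) (hP1 t).le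
  have hGi : Integrable G μ := by
    refine ⟨hmeasG.aestronglyMeasurable, ?_⟩
    rw [hasFiniteIntegral_iff_ofReal (Eventually.of_forall hGnn)]
    exact hGl.trans_lt ENNReal.ofReal_lt_top
  refine ⟨?_, hnz, ?_⟩
  · have hbd : ∀ t, ‖‖circleMap 0 1 t - z‖ ^ 2 / (1 - ‖z‖ ^ 2)‖ ≤ 4 / (1 - ‖z‖ ^ 2) := by
      intro t
      have h1 : 0 < 1 - ‖z‖ ^ 2 := by
        have := norm_nonneg z
        nlinarith
      rw [Real.norm_of_nonneg (by positivity)]
      apply div_le_div_of_nonneg_right _ h1.le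
      have h2 : ‖circleMap 0 1 t - z‖ ≤ 2 := by
        refine (norm_sub_le _ _).trans ?_
        rw [hcm1]
        linarith
      have h3 := hcmz t
      nlinarith
    have hm : AEStronglyMeasurable (fun t => ‖circleMap 0 1 t - z‖ ^ 2 / (1 - ‖z‖ ^ 2)) μ := by
      apply Continuous.aestronglyMeasurable
      have := continuous_circleMap 0 1
      fun_prop
    have h1 := hGi.mul_bdd hm (Eventually.of_forall hbd)
    refine h1.congr (Eventually.of_forall fun t => ?_)
    simp only [hG]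
    have h2 := hcmz t
    have h3 : (1 - ‖z‖ ^ 2) ≠ 0 := by
      have := norm_nonneg z
      nlinarith
    field_simp
  · have h1 : 0 ≤ B := by
      rw [hB]
      apply mul_nonneg Real.two_pi_pos.le
      rw [one_div, Real.log_inv, neg_nonneg]
      exact Real.log_nonpos (norm_nonneg _) (hb _ hz1.le)
    rw [← ofReal_integral_eq_lintegral_ofReal hGi (Eventually.of_forall hGnn)] at hGl
    exact (ENNReal.ofReal_le_ofReal_iff h1).1 hGl

theorem pl_sg_eq : sg = Measure.map (circleMap 0 1) (volume.restrict (Ioc (-Real.pi) Real.pi)) := by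
  unfold sg
  congr 1
  funext t
  simp [circleMap]

theorem pl_sg_ball : sg.restrict (Metric.closedBall (0:ℂ) 1) = sg := by
  apply Measure.restrict_eq_self_of_ae_mem
  rw [pl_sg_eq]
  refine (ae_map_iff (p := fun x => x ∈ Metric.closedBall (0:ℂ) 1)
    (continuous_circleMap 0 1).aemeasurable Metric.isClosed_closedBall.measurableSet).2 ?_
  exact Eventually.of_forall fun t => by simp

/-- Jensen inequality for the Poisson kernel -/
theorem poisson_log {p : PowerSeries ℂ} (hp : Summable fun n => ‖PowerSeries.coeff n p‖)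
    (hb : ∀ z : ℂ, ‖z‖ ≤ 1 → ‖ev p z‖ ≤ 1) {z : ℂ} (hz : ‖z‖ < 1) (hne : ev p z ≠ 0) :
    Integrable (fun ζ => Real.log (1 / ‖ev p ζ‖)) sg ∧
    sg {ζ | ev p ζ = 0} = 0 ∧
    ∫ ζ, Real.log (1 / ‖ev p ζ‖) * ((1 - ‖z‖ ^ 2) / ‖ζ - z‖ ^ 2) ∂sg ≤
      2 * Real.pi * Real.log (1 / ‖ev p z‖) := by
  have hc := ev_continuousOn hp
  have hd := ev_differentiableOn hp
  obtain ⟨h1, h2, h3⟩ := pl_main hc hd hb hz hne
  have hcm : AEMeasurable (circleMap 0 1) ((volume : Measure ℝ).restrict (Ioc (-Real.pi) Real.pi)) :=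
    (continuous_circleMap 0 1).aemeasurable
  have hmeas : AEStronglyMeasurable (ev p) sg := by
    have := hc.aestronglyMeasurable (μ := sg) Metric.isClosed_closedBall.measurableSet
    rwa [pl_sg_ball] at this
  have hmL : AEStronglyMeasurable (fun ζ => Real.log (1 / ‖ev p ζ‖)) sg :=
    (Real.measurable_log.comp_aemeasurable (hmeas.norm.aemeasurable.const_div 1)).aestronglyMeasurable
  refine ⟨?_, ?_, ?_⟩
  · rw [pl_sg_eq] at hmL ⊢
    rw [integrable_map_measure hmL hcm]
    exact h1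
  · have hnull : NullMeasurableSet {ζ | ev p ζ = 0} sg :=
      hmeas.nullMeasurableSet_eq_fun aestronglyMeasurable_const
    rw [pl_sg_eq] at hnull ⊢
    rw [Measure.map_apply₀ hcm hnull]
    have h4 := h2
    rw [ae_iff] at h4
    refine nonpos_iff_eq_zero.1 ((measure_mono ?_).trans_eq h4)
    intro t ht
    simpa using ht
  · have hmP : AEStronglyMeasurable (fun ζ => Real.log (1 / ‖ev p ζ‖) *
        ((1 - ‖z‖ ^ 2) / ‖ζ - z‖ ^ 2)) sg := by
      apply hmL.mul
      apply Measurable.aestronglyMeasurable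
      exact ((measurable_id.sub_const z).norm.pow_const 2).const_div _
    rw [pl_sg_eq] at hmP ⊢
    rw [integral_map hcm hmP]
    exact h3

end Pool.Agent.Helper203.GV
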