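import Pool.Agent.Helper203.GV.Defs
import Pool.Agent.Helper203.GV.Misc1
import Pool.Agent.Helper203.GV.PLog

open MeasureTheory Filter Topology Set

noncomputable section

namespace Pool.Agent.Helper203.GV

lemma pb_meas_exp : Measurable (fun t : ℝ => Complex.exp (t * Complex.I)) := by fun_prop

lemma pb_fin : IsFiniteMeasure sg := by
  unfold sg
  infer_instance

lemma pb_ae : ∀ᵐ ζ ∂sg, ‖ζ‖ = 1 := by
  unfold sg
  rw [ae_map_iff pb_meas_exp.aemeasurable (measurableSet_eq_fun (by fun_prop) (by fun_prop))]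
  exact Eventually.of_forall fun t => Complex.norm_exp_ofReal_mul_I t

lemma pb_restrict : sg.restrict (Metric.sphere 0 1) = sg := by
  refine Measure.restrict_eq_self_of_ae_mem ?_
  filter_upwards [pb_ae] with ζ hζ
  simpa using hζ

lemma pb_aesm {F : Type} [NormedAddCommGroup F] [SecondCountableTopology F] {f : ℂ → F}
    (hf : ContinuousOn f (Metric.sphere 0 1)) : AEStronglyMeasurable f sg := by
  rw [← pb_restrict]
  exact hf.aestronglyMeasurable Metric.isClosed_sphere.measurableSet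

lemma pb_int {F : Type} [NormedAddCommGroup F] [SecondCountableTopology F] {f : ℂ → F}
    (hf : ContinuousOn f (Metric.sphere 0 1)) : Integrable f sg := by
  have := pb_fin
  obtain ⟨C, hC⟩ := (isCompact_sphere (0 : ℂ) 1).exists_bound_of_continuousOn hf
  refine Integrable.of_bound (pb_aesm hf) C ?_
  filter_upwards [pb_ae] with ζ hζ
  exact hC ζ (by simpa using hζ)

lemma pb_circ {F : Type} [NormedAddCommGroup F] [NormedSpace ℝ F] [SecondCountableTopology F]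
    {f : ℂ → F} (hf : ContinuousOn f (Metric.sphere 0 1)) :
    ∫ ζ, f ζ ∂sg = (2 * Real.pi) • Real.circleAverage f 0 1 := by
  have h1 : ∫ ζ, f ζ ∂sg = ∫ t in Ioc (-Real.pi) Real.pi, f (Complex.exp (t * Complex.I)) := by
    unfold sg
    refine integral_map pb_meas_exp.aemeasurable ?_
    exact pb_aesm hf
  have hpi := Real.pi_pos
  rw [h1, Real.circleAverage, smul_smul, mul_inv_cancel₀ (by positivity), one_smul,
    ← intervalIntegral.integral_of_le (by linarith)]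
  have hper : Function.Periodic (fun t : ℝ => f (Complex.exp (t * Complex.I))) (2 * Real.pi) := by
    intro t
    simp only
    congr 1
    push_cast
    rw [add_mul, Complex.exp_add, Complex.exp_two_pi_mul_I, mul_one]
  have h2 := hper.intervalIntegral_add_eq (-Real.pi) 0
  have e1 : -Real.pi + 2 * Real.pi = Real.pi := by ring
  rw [e1, zero_add] at h2
  rw [h2]
  refine intervalIntegral.integral_congr fun t _ => ?_
  simp [circleMap]

/-- the Poisson kernel -/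
def Pk (z ζ : ℂ) : ℝ := (1 - ‖z‖ ^ 2) / ‖ζ - z‖ ^ 2

lemma Pk_cont {z : ℂ} (hz : ‖z‖ < 1) : ContinuousOn (Pk z) (Metric.sphere 0 1) := by
  unfold Pk
  refine ContinuousOn.div (by fun_prop) (by fun_prop) ?_
  intro ζ hζ
  have h1 : ‖ζ‖ = 1 := by simpa using hζ
  have h2 : ζ - z ≠ 0 := by
    intro h
    rw [sub_eq_zero.mp h] at h1
    linarith
  positivity

lemma Pk_bounds {z ζ : ℂ} (hz : ‖z‖ < 1) (hζ : ‖ζ‖ = 1) :
    (1 - ‖z‖ ^ 2) / 4 ≤ Pk z ζ ∧ Pk z ζ ≤ (1 - ‖z‖ ^ 2) / (1 - ‖z‖) ^ 2 ∧ 0 < Pk z ζ := by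
  unfold Pk
  have h0 : 0 < 1 - ‖z‖ := by linarith
  have h00 := norm_nonneg z
  have hp : 0 < 1 - ‖z‖ ^ 2 := by nlinarith
  have h1 : 1 - ‖z‖ ≤ ‖ζ - z‖ := by
    have := norm_sub_norm_le ζ z
    linarith
  have h2 : ‖ζ - z‖ ≤ 2 := by
    have := norm_sub_le ζ z
    linarith
  have h3 : 0 < ‖ζ - z‖ := by linarith
  refine ⟨?_, ?_, by positivity⟩
  · refine div_le_div_of_nonneg_left hp.le (by positivity) ?_
    nlinarith
  · refine div_le_div_of_nonneg_left hp.le (by positivity) ?_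
    exact pow_le_pow_left₀ h0.le h1 2

lemma Pk_poisson {g : ℂ → ℂ} (hg : DifferentiableOn ℂ g (Metric.ball 0 1))
    (hgc : ContinuousOn g (Metric.closedBall 0 1)) {z : ℂ} (hz : ‖z‖ < 1) :
    ∫ ζ, (Pk z ζ : ℝ) • g ζ ∂sg = (2 * Real.pi) • g z := by
  have hs : Metric.sphere (0 : ℂ) 1 ⊆ Metric.closedBall 0 1 := Metric.sphere_subset_closedBall
  have h0 := pb_circ (f := fun ζ => Pk z ζ • g ζ) ((Pk_cont hz).smul (hgc.mono hs))
  rw [h0]
  congr 1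
  have hd : DiffContOnCl ℂ g (Metric.ball 0 1) := by
    refine ⟨hg, ?_⟩
    rw [closure_ball (0 : ℂ) (by norm_num)]
    exact hgc
  rw [← hd.circleAverage_poissonKernel_smul' (w := z) (by simpa using hz)]
  refine Real.circleAverage_congr_sphere fun ζ hζ => ?_
  have h1 : ‖ζ‖ = 1 := by simpa using hζ
  simp [Pk, h1]

lemma Pk_one {z : ℂ} (hz : ‖z‖ < 1) : ∫ ζ, Pk z ζ ∂sg = 2 * Real.pi := by
  have h := Pk_poisson (g := fun _ => (1 : ℂ)) (by fun_prop) (by fun_prop) hz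
  have e : ∀ ζ, (Pk z ζ : ℝ) • (1 : ℂ) = ((Pk z ζ : ℝ) : ℂ) := by intro ζ; simp
  simp only [e] at h
  rw [integral_complex_ofReal] at h
  have h' := congrArg Complex.re h
  simpa using h'

lemma seq_r (k : ℕ) : 0 < (1 - 1 / ((k : ℝ) + 2)) ∧ (1 - 1 / ((k : ℝ) + 2)) < 1 := by
  have hk : (0 : ℝ) ≤ k := Nat.cast_nonneg k
  constructor
  · have : 1 / ((k : ℝ) + 2) ≤ 1 / 2 := one_div_le_one_div_of_le (by norm_num) (by linarith)
    linarith
  · have : 0 < 1 / ((k : ℝ) + 2) := by positivity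
    linarith

lemma seq_r_lim : Tendsto (fun k : ℕ => (1 - 1 / ((k : ℝ) + 2))) atTop (𝓝 1) := by
  have h : Tendsto (fun k : ℕ => 1 / ((k : ℝ) + 2)) atTop (𝓝 0) := by
    have := tendsto_one_div_add_atTop_nhds_zero_nat (𝕜 := ℝ)
    have h2 := this.comp (tendsto_add_atTop_nat 1)
    refine h2.congr fun k => ?_
    simp only [Function.comp]
    push_cast
    ring
  simpa using h.const_sub 1

lemma ser_ex {F : ℂ → ℂ} (hF : DifferentiableOn ℂ F (Metric.ball 0 1)) (C r : ℝ) (hr0 : 0 < r)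
    (hr1 : r < 1) : ∃ p : PowerSeries ℂ, (Summable fun n => ‖PowerSeries.coeff n p‖) ∧
      ∀ ζ : ℂ, ‖ζ‖ ≤ 1 → ev p ζ = F (r * ζ) / C := by
  have hs : ∀ z : ℂ, ‖z‖ < 1 → HasSum (fun n : ℕ => ((n.factorial : ℂ)⁻¹ * iteratedDeriv n F 0) *
      z ^ n) (F z) := by
    intro z hz
    have h := Complex.hasSum_taylorSeries_on_ball hF (z := z) (by simpa using hz)
    have e : (fun n : ℕ => ((n.factorial : ℂ)⁻¹ * iteratedDeriv n F 0) * z ^ n) =
        fun n : ℕ => (n.factorial : ℂ)⁻¹ • (z - 0) ^ n • iteratedDeriv n F 0 := by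
      funext n
      simp only [smul_eq_mul, sub_zero]
      ring
    rw [e]
    exact h
  refine ⟨PowerSeries.mk fun n => ((n.factorial : ℂ)⁻¹ * iteratedDeriv n F 0) * (r : ℂ) ^ n / C,
    ?_, ?_⟩
  · have h1 := (hs (r : ℂ) (by rw [Complex.norm_real, Real.norm_eq_abs, abs_of_pos hr0];
                               exact hr1)).summable
    have h2 := (h1.div_const (C : ℂ)).norm
    refine h2.congr fun n => ?_
    rw [PowerSeries.coeff_mk]
  · intro ζ hζ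
    have hlt : ‖(r : ℂ) * ζ‖ < 1 := by
      rw [norm_mul, Complex.norm_real, Real.norm_eq_abs, abs_of_pos hr0]
      nlinarith [norm_nonneg ζ]
    have h1 := (hs _ hlt).div_const (C : ℂ)
    rw [ev, ← h1.tsum_eq]
    refine tsum_congr fun n => ?_
    rw [PowerSeries.coeff_mk, mul_pow]
    ring

lemma keyF {F : ℂ → ℂ} (hF : DifferentiableOn ℂ F (Metric.ball 0 1)) {Fs : ℂ → ℂ} {C : ℝ}
    (hC : 0 < C) (hb : ∀ z, ‖z‖ < 1 → ‖F z‖ ≤ C)
    (hlim : ∀ᵐ ζ ∂sg, Tendsto (fun k : ℕ => F (((1 - 1 / ((k : ℝ) + 2) : ℝ) : ℂ) * ζ)) atTop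
      (𝓝 (Fs ζ))) {z : ℂ} (hz : ‖z‖ < 1) (hne : F z ≠ 0) :
    (∀ᵐ ζ ∂sg, Fs ζ ≠ 0) ∧ Integrable (fun ζ => Real.log (C / ‖Fs ζ‖)) sg ∧
      ∫ ζ, Real.log (C / ‖Fs ζ‖) * Pk z ζ ∂sg ≤ 2 * Real.pi * Real.log (C / ‖F z‖) := by
  have := pb_fin
  have hC' : (C : ℂ) ≠ 0 := by exact_mod_cast hC.ne'
  choose p hp1 hp2 using fun k : ℕ => ser_ex hF C (1 - 1 / ((k : ℝ) + 2)) (seq_r k).1 (seq_r k).2
  -- norm bound
  have hlt : ∀ (k : ℕ) (ζ : ℂ), ‖ζ‖ ≤ 1 → ‖(((1 - 1 / ((k : ℝ) + 2) : ℝ) : ℂ)) * ζ‖ < 1 := by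
    intro k ζ hζ
    rw [norm_mul, Complex.norm_real, Real.norm_eq_abs, abs_of_pos (seq_r k).1]
    nlinarith [norm_nonneg ζ, (seq_r k).1, (seq_r k).2]
  have hpb : ∀ k ζ, ‖ζ‖ ≤ 1 → ‖ev (p k) ζ‖ ≤ 1 := by
    intro k ζ hζ
    rw [hp2 k ζ hζ, norm_div, Complex.norm_real, Real.norm_eq_abs, abs_of_pos hC,
      div_le_one hC]
    exact hb _ (hlt k ζ hζ)
  -- nonvanishing at z for large k
  have hzl : Tendsto (fun k : ℕ => (((1 - 1 / ((k : ℝ) + 2) : ℝ) : ℂ)) * z) atTop (𝓝 z) := by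
    have h1 : Tendsto (fun k : ℕ => (((1 - 1 / ((k : ℝ) + 2) : ℝ) : ℂ))) atTop (𝓝 ((1 : ℝ) : ℂ)) :=
      (Complex.continuous_ofReal.tendsto 1).comp seq_r_lim
    have h2 := h1.mul_const z
    simpa using h2
  have hFz : ContinuousAt F z :=
    (hF.differentiableAt (Metric.isOpen_ball.mem_nhds (by simpa using hz))).continuousAt
  have hFl : Tendsto (fun k : ℕ => F ((((1 - 1 / ((k : ℝ) + 2) : ℝ) : ℂ)) * z)) atTop (𝓝 (F z)) :=
    hFz.tendsto.comp hzl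
  obtain ⟨k0, hk0⟩ := eventually_atTop.mp (hFl.eventually_ne hne)
  have hevne : ∀ k, ev (p (k + k0)) z ≠ 0 := by
    intro k
    rw [hp2 _ z hz.le]
    exact div_ne_zero (hk0 _ (by omega)) hC'
  have hPL := fun k => poisson_log (hp1 (k + k0)) (hpb (k + k0)) hz (hevne k)
  have hae0 : ∀ᵐ ζ ∂sg, ∀ k, ev (p (k + k0)) ζ ≠ 0 := by
    rw [ae_all_iff]
    intro k
    rw [ae_iff]
    simpa using (hPL k).2.1
  have hPm : AEStronglyMeasurable (Pk z) sg := pb_aesm (Pk_cont hz)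
  -- the functions
  obtain ⟨g, hg⟩ : ∃ g : ℕ → ℂ → ℝ, ∀ k ζ, g k ζ = Real.log (1 / ‖ev (p (k + k0)) ζ‖) * Pk z ζ :=
    ⟨_, fun _ _ => rfl⟩
  have hgint : ∀ k, Integrable (g k) sg := by
    intro k
    have h1 : Integrable (fun ζ => Real.log (1 / ‖ev (p (k + k0)) ζ‖) * Pk z ζ) sg := by
      refine (hPL k).1.mul_bdd (c := (1 - ‖z‖ ^ 2) / (1 - ‖z‖) ^ 2) hPm ?_
      filter_upwards [pb_ae] with ζ hζ
      obtain ⟨-, h2, h3⟩ := Pk_bounds hz hζ
      rw [Real.norm_eq_abs, abs_of_pos h3]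
      exact h2
    exact h1.congr (Eventually.of_forall fun ζ => (hg k ζ).symm)
  have hgnn : ∀ k, 0 ≤ᵐ[sg] g k := by
    intro k
    filter_upwards [pb_ae, hae0] with ζ hζ h0
    rw [hg]
    refine mul_nonneg (Real.log_nonneg ?_) (Pk_bounds hz hζ).2.2.le
    rw [le_div_iff₀ (norm_pos_iff.mpr (h0 k)), one_mul]
    exact hpb _ ζ hζ.le
  have hgle : ∀ k, ∫⁻ ζ, ENNReal.ofReal (g k ζ) ∂sg ≤
      ENNReal.ofReal (2 * Real.pi * Real.log (1 / ‖ev (p (k + k0)) z‖)) := by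
    intro k
    rw [← ofReal_integral_eq_lintegral_ofReal (hgint k) (hgnn k)]
    refine ENNReal.ofReal_le_ofReal ?_
    have := (hPL k).2.2
    simp only [hg]
    exact this
  -- the limit
  have hrhs : Tendsto (fun k => ENNReal.ofReal (2 * Real.pi *
      Real.log (1 / ‖ev (p (k + k0)) z‖))) atTop
      (𝓝 (ENNReal.ofReal (2 * Real.pi * Real.log (C / ‖F z‖)))) := by
    refine (ENNReal.continuous_ofReal.tendsto _).comp ?_
    refine Tendsto.const_mul _ ?_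
    have h1 : ∀ k, 1 / ‖ev (p (k + k0)) z‖ =
        C / ‖F ((((1 - 1 / (((k + k0 : ℕ) : ℝ) + 2) : ℝ) : ℂ)) * z)‖ := by
      intro k
      rw [hp2 _ z hz.le, norm_div, Complex.norm_real, Real.norm_eq_abs, abs_of_pos hC,
        one_div_div]
    simp only [h1]
    have h2 := hFl.comp (tendsto_add_atTop_nat k0)
    have h3 := (tendsto_const_nhds (x := C)).div h2.norm (norm_ne_zero_iff.mpr hne)
    exact h3.log (div_ne_zero hC.ne' (norm_ne_zero_iff.mpr hne))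
  obtain ⟨Lf, hLf⟩ : ∃ Lf : ℂ → ENNReal, ∀ ζ, Lf ζ = if Fs ζ = 0 then ⊤ else
      ENNReal.ofReal (Real.log (C / ‖Fs ζ‖) * Pk z ζ) := by
    classical exact ⟨_, fun _ => rfl⟩
  have hconv : ∀ᵐ ζ ∂sg, Tendsto (fun k => ENNReal.ofReal (g k ζ)) atTop (𝓝 (Lf ζ)) := by
    filter_upwards [pb_ae, hae0, hlim] with ζ hζ h0 hl
    have hl2 := hl.comp (tendsto_add_atTop_nat k0)
    have hP := (Pk_bounds hz hζ).2.2
    have h1 : ∀ k, 1 / ‖ev (p (k + k0)) ζ‖ =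
        C / ‖F ((((1 - 1 / (((k + k0 : ℕ) : ℝ) + 2) : ℝ) : ℂ)) * ζ)‖ := by
      intro k
      rw [hp2 _ ζ hζ.le, norm_div, Complex.norm_real, Real.norm_eq_abs, abs_of_pos hC,
        one_div_div]
    have hne' : ∀ k, F ((((1 - 1 / (((k + k0 : ℕ) : ℝ) + 2) : ℝ) : ℂ)) * ζ) ≠ 0 := by
      intro k h
      apply h0 k
      rw [hp2 _ ζ hζ.le, h, zero_div]
    rw [hLf]
    simp only [hg, h1]
    split_ifs with hz0
    · refine ENNReal.tendsto_ofReal_atTop.comp ?_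
      refine Tendsto.atTop_mul_const hP ?_
      refine Real.tendsto_log_atTop.comp ?_
      rw [hz0] at hl2
      have h4 : Tendsto (fun k : ℕ => ‖F ((((1 - 1 / (((k + k0 : ℕ) : ℝ) + 2) : ℝ) : ℂ)) * ζ)‖)
          atTop (𝓝[>] 0) := by
        rw [tendsto_nhdsWithin_iff]
        refine ⟨by simpa using hl2.norm, Eventually.of_forall fun k => ?_⟩
        exact norm_pos_iff.mpr (hne' k)
      have h5 := (tendsto_inv_nhdsGT_zero (𝕜 := ℝ)).comp h4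
      have h6 := h5.const_mul_atTop hC
      exact h6
    · refine (ENNReal.continuous_ofReal.tendsto _).comp ?_
      refine Tendsto.mul_const _ ?_
      have h3 := (tendsto_const_nhds (x := C)).div hl2.norm (norm_ne_zero_iff.mpr hz0)
      exact h3.log (div_ne_zero hC.ne' (norm_ne_zero_iff.mpr hz0))
  have hgm : ∀ k, AEMeasurable (fun ζ => ENNReal.ofReal (g k ζ)) sg := fun k =>
    (hgint k).aestronglyMeasurable.aemeasurable.ennreal_ofReal
  have hLm : AEMeasurable Lf sg := aemeasurable_of_tendsto_metrizable_ae' hgm hconv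
  have hLle : ∫⁻ ζ, Lf ζ ∂sg ≤ ENNReal.ofReal (2 * Real.pi * Real.log (C / ‖F z‖)) := by
    calc ∫⁻ ζ, Lf ζ ∂sg = ∫⁻ ζ, liminf (fun k => ENNReal.ofReal (g k ζ)) atTop ∂sg := by
          refine lintegral_congr_ae ?_
          filter_upwards [hconv] with ζ hζ
          exact hζ.liminf_eq.symm
      _ ≤ liminf (fun k => ∫⁻ ζ, ENNReal.ofReal (g k ζ) ∂sg) atTop := lintegral_liminf_le' hgm
      _ ≤ liminf (fun k => ENNReal.ofReal (2 * Real.pi *
            Real.log (1 / ‖ev (p (k + k0)) z‖))) atTop :=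
          liminf_le_liminf (Eventually.of_forall hgle)
      _ = _ := hrhs.liminf_eq
  have hne1 : ∀ᵐ ζ ∂sg, Fs ζ ≠ 0 := by
    have h1 := ae_lt_top' hLm (lt_of_le_of_lt hLle ENNReal.ofReal_lt_top).ne
    filter_upwards [h1] with ζ hζ h0
    rw [hLf, if_pos h0] at hζ
    exact lt_irrefl _ hζ
  -- measurability of the limit
  have hFsm : AEMeasurable Fs sg := by
    refine aemeasurable_of_tendsto_metrizable_ae' (f := fun (k : ℕ) ζ =>
      F (((1 - 1 / ((k : ℝ) + 2) : ℝ) : ℂ) * ζ)) (fun k => ?_) hlim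
    refine (pb_aesm ?_).aemeasurable
    refine hF.continuousOn.comp (by fun_prop) ?_
    intro ζ hζ
    have := hlt k ζ (by simpa using (Metric.sphere_subset_closedBall hζ))
    simpa using this
  have hLog : AEMeasurable (fun ζ => Real.log (C / ‖Fs ζ‖)) sg :=
    Real.measurable_log.comp_aemeasurable (hFsm.norm.const_div C)
  have hLogP : AEStronglyMeasurable (fun ζ => Real.log (C / ‖Fs ζ‖) * Pk z ζ) sg :=
    hLog.aestronglyMeasurable.mul hPm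
  have hLognn : ∀ᵐ ζ ∂sg, 0 ≤ Real.log (C / ‖Fs ζ‖) := by
    filter_upwards [pb_ae, hne1, hlim] with ζ hζ h0 hl
    refine Real.log_nonneg ?_
    rw [le_div_iff₀ (norm_pos_iff.mpr h0), one_mul]
    refine le_of_tendsto hl.norm (Eventually.of_forall fun k => ?_)
    exact hb _ (hlt k ζ hζ.le)
  have hnn : 0 ≤ᵐ[sg] fun ζ => Real.log (C / ‖Fs ζ‖) * Pk z ζ := by
    filter_upwards [pb_ae, hLognn] with ζ hζ h0
    exact mul_nonneg h0 (Pk_bounds hz hζ).2.2.le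
  have hLeq : ∫⁻ ζ, ENNReal.ofReal (Real.log (C / ‖Fs ζ‖) * Pk z ζ) ∂sg = ∫⁻ ζ, Lf ζ ∂sg := by
    refine lintegral_congr_ae ?_
    filter_upwards [hne1] with ζ h0
    rw [hLf, if_neg h0]
  have hint : Integrable (fun ζ => Real.log (C / ‖Fs ζ‖) * Pk z ζ) sg := by
    rw [← lintegral_ofReal_ne_top_iff_integrable hLogP hnn, hLeq]
    exact (lt_of_le_of_lt hLle ENNReal.ofReal_lt_top).ne
  refine ⟨hne1, ?_, ?_⟩
  · have hq : 0 < 1 - ‖z‖ ^ 2 := by nlinarith [norm_nonneg z]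
    refine (hint.const_mul (4 / (1 - ‖z‖ ^ 2))).mono' hLog.aestronglyMeasurable ?_
    filter_upwards [pb_ae, hLognn] with ζ hζ h0
    rw [Real.norm_eq_abs, abs_of_nonneg h0]
    obtain ⟨h1, -, -⟩ := Pk_bounds hz hζ
    have h2 : 1 ≤ 4 / (1 - ‖z‖ ^ 2) * Pk z ζ := by
      rw [div_mul_eq_mul_div, le_div_iff₀ hq]
      linarith
    calc Real.log (C / ‖Fs ζ‖) = Real.log (C / ‖Fs ζ‖) * 1 := (mul_one _).symm
      _ ≤ Real.log (C / ‖Fs ζ‖) * (4 / (1 - ‖z‖ ^ 2) * Pk z ζ) :=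
          mul_le_mul_of_nonneg_left h2 h0
      _ = _ := by ring
  · have h1 := ofReal_integral_eq_lintegral_ofReal hint hnn
    rw [hLeq] at h1
    rw [← h1] at hLle
    have h2 : 0 ≤ 2 * Real.pi * Real.log (C / ‖F z‖) := by
      refine mul_nonneg (by positivity) (Real.log_nonneg ?_)
      rw [le_div_iff₀ (norm_pos_iff.mpr hne), one_mul]
      exact hb z hz
    exact (ENNReal.ofReal_le_ofReal_iff h2).mp hLle

lemma l1_lim {f : ℕ → ℂ → ℂ} (hf : ∀ n, ContinuousOn (f n) (Metric.sphere 0 1))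
    (hlim : Tendsto (fun n => ∫ ζ, ‖f n ζ‖ ^ 2 ∂sg) atTop (𝓝 0)) {z : ℂ} (hz : ‖z‖ < 1) :
    Tendsto (fun n => ∫ ζ, ‖f n ζ‖ * Pk z ζ ∂sg) atTop (𝓝 0) := by
  have := pb_fin
  set M := (1 - ‖z‖ ^ 2) / (1 - ‖z‖) ^ 2 with hM
  have hM0 : 0 ≤ M := by
    have h1 : 0 < 1 - ‖z‖ := by linarith
    have h2 : 0 ≤ 1 - ‖z‖ ^ 2 := by nlinarith [norm_nonneg z]
    positivity
  obtain ⟨e, he⟩ : ∃ e : ℕ → ℝ, ∀ n, e n = Real.sqrt (∫ ζ, ‖f n ζ‖ ^ 2 ∂sg) + 1 / ((n : ℝ) + 1) :=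
    ⟨_, fun _ => rfl⟩
  have hann : ∀ n, 0 ≤ ∫ ζ, ‖f n ζ‖ ^ 2 ∂sg := fun n => integral_nonneg fun ζ => by positivity
  have hepos : ∀ n, 0 < e n := by
    intro n; rw [he]
    have : 0 < 1 / ((n : ℝ) + 1) := by positivity
    linarith [Real.sqrt_nonneg (∫ ζ, ‖f n ζ‖ ^ 2 ∂sg)]
  have hesq : ∀ n, ∫ ζ, ‖f n ζ‖ ^ 2 ∂sg ≤ e n ^ 2 := by
    intro n
    have h1 := Real.sq_sqrt (hann n)
    have h2 : Real.sqrt (∫ ζ, ‖f n ζ‖ ^ 2 ∂sg) ≤ e n := by
      rw [he]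
      have : 0 < 1 / ((n : ℝ) + 1) := by positivity
      linarith
    rw [← h1]
    exact pow_le_pow_left₀ (Real.sqrt_nonneg _) h2 2
  have helim : Tendsto e atTop (𝓝 0) := by
    have h1 : Tendsto (fun n => Real.sqrt (∫ ζ, ‖f n ζ‖ ^ 2 ∂sg)) atTop (𝓝 0) := by
      have := hlim.sqrt
      simpa using this
    have h2 := h1.add (tendsto_one_div_add_atTop_nhds_zero_nat (𝕜 := ℝ))
    simp only [add_zero] at h2
    exact h2.congr fun n => (he n).symm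
  have hi1 : ∀ n, Integrable (fun ζ => ‖f n ζ‖ * Pk z ζ) sg := fun n =>
    pb_int ((hf n).norm.mul (Pk_cont hz))
  have hi2 : ∀ n, Integrable (fun ζ => ‖f n ζ‖ ^ 2) sg := fun n => pb_int ((hf n).norm.pow 2)
  have hub : ∀ n, ∫ ζ, ‖f n ζ‖ * Pk z ζ ∂sg ≤ M * (sg.real univ + 1) * e n := by
    intro n
    have h1 : ∫ ζ, ‖f n ζ‖ * Pk z ζ ∂sg ≤ ∫ ζ, M * (e n + ‖f n ζ‖ ^ 2 / e n) ∂sg := by
      refine integral_mono_ae (hi1 n)
        (((integrable_const _).add ((hi2 n).div_const _)).const_mul _) ?_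
      filter_upwards [pb_ae] with ζ hζ
      obtain ⟨-, h2, h3⟩ := Pk_bounds hz hζ
      have h4 : ‖f n ζ‖ ≤ e n + ‖f n ζ‖ ^ 2 / e n := by
        have h5 : 0 < e n := hepos n
        have h6 : ‖f n ζ‖ * e n ≤ e n * e n + ‖f n ζ‖ ^ 2 := by
          nlinarith [sq_nonneg (‖f n ζ‖ - e n / 2), norm_nonneg (f n ζ)]
        have h7 : e n + ‖f n ζ‖ ^ 2 / e n = (e n * e n + ‖f n ζ‖ ^ 2) / e n := by
          field_simp
        rw [h7, le_div_iff₀ h5]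
        exact h6
      calc ‖f n ζ‖ * Pk z ζ ≤ (e n + ‖f n ζ‖ ^ 2 / e n) * M :=
            mul_le_mul h4 h2 h3.le ((norm_nonneg _).trans h4)
        _ = _ := mul_comm _ _
    refine h1.trans ?_
    rw [integral_const_mul, integral_add (integrable_const _) ((hi2 n).div_const _),
      integral_const, integral_div, smul_eq_mul]
    have h8 : (∫ ζ, ‖f n ζ‖ ^ 2 ∂sg) / e n ≤ e n := by
      rw [div_le_iff₀ (hepos n), ← sq]
      exact hesq n
    calc M * (sg.real univ * e n + (∫ ζ, ‖f n ζ‖ ^ 2 ∂sg) / e n) ≤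
        M * (sg.real univ * e n + e n) := mul_le_mul_of_nonneg_left (by linarith) hM0
      _ = _ := by ring
  have hlim2 : Tendsto (fun n => M * (sg.real univ + 1) * e n) atTop (𝓝 0) := by
    simpa using helim.const_mul (M * (sg.real univ + 1))
  refine squeeze_zero (fun n => ?_) hub hlim2
  refine integral_nonneg_of_ae ?_
  filter_upwards [pb_ae] with ζ hζ
  exact mul_nonneg (norm_nonneg _) (Pk_bounds hz hζ).2.2.le

theorem poisson_bound {E : Set ℂ} (hE : IsClosed E) (hE1 : ∀ z ∈ E, ‖z‖ = 1) (hE0 : sg E = 0)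
    {Λ : ℂ → ℂ} (hΛ : DifferentiableOn ℂ Λ Eᶜ) {u : ℕ → ℂ → ℂ}
    (hu : ∀ n, DifferentiableOn ℂ (u n) (Metric.ball 0 1))
    (huc : ∀ n, ContinuousOn (u n) (Metric.closedBall 0 1))
    (hb : ∀ n, ∃ C : ℝ, ∀ z, ‖z‖ < 1 → ‖u n z * Λ z‖ ≤ C)
    (hlim : Tendsto (fun n => ∫ ζ, ‖u n ζ - 1‖ ^ 2 ∂sg) atTop (𝓝 0)) :
    ∃ w : ℂ → ℝ, Measurable w ∧ (∀ ζ, 0 ≤ w ζ) ∧ Integrable w sg ∧ ∀ z, ‖z‖ < 1 →
      ‖Λ z‖ ≤ Real.exp (∫ ζ, w ζ * ((1 - ‖z‖ ^ 2) / ‖ζ - z‖ ^ 2) ∂sg) := by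
  classical
  have := pb_fin
  have hpi := Real.pi_pos
  have hs : Metric.sphere (0 : ℂ) 1 ⊆ Metric.closedBall 0 1 := Metric.sphere_subset_closedBall
  -- the weight
  obtain ⟨w, hw⟩ : ∃ w : ℂ → ℝ, w = Eᶜ.piecewise
      (fun ζ => (2 * Real.pi)⁻¹ * max (Real.log ‖Λ ζ‖) 0) (fun _ => 0) := ⟨_, rfl⟩
  have hΛm : Measurable (Eᶜ.piecewise Λ (fun _ => 0)) :=
    hΛ.continuousOn.measurable_piecewise continuousOn_const hE.isOpen_compl.measurableSet
  have hw' : ∀ ζ, w ζ = (2 * Real.pi)⁻¹ * max (Real.log ‖Eᶜ.piecewise Λ (fun _ => 0) ζ‖) 0 := by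
    intro ζ
    rw [hw]
    by_cases h : ζ ∈ Eᶜ
    · rw [piecewise_eq_of_mem _ _ _ h, piecewise_eq_of_mem _ _ _ h]
    · rw [piecewise_eq_of_notMem _ _ _ h, piecewise_eq_of_notMem _ _ _ h]
      simp
  have hwm : Measurable w := by
    have : w = fun ζ => (2 * Real.pi)⁻¹ *
        max (Real.log ‖Eᶜ.piecewise Λ (fun _ => 0) ζ‖) 0 := funext hw'
    rw [this]
    exact ((Real.measurable_log.comp hΛm.norm).max measurable_const).const_mul _
  have hwnn : ∀ ζ, 0 ≤ w ζ := by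
    intro ζ
    rw [hw']
    positivity
  have hwE : ∀ ζ, ζ ∉ E → w ζ = (2 * Real.pi)⁻¹ * max (Real.log ‖Λ ζ‖) 0 := by
    intro ζ hζ
    rw [hw, piecewise_eq_of_mem _ _ _ hζ]
  have haeE : ∀ᵐ ζ ∂sg, ζ ∉ E := by
    rw [ae_iff]; simpa using hE0
  -- disc is off E
  have hDE : ∀ z : ℂ, ‖z‖ < 1 → z ∈ Eᶜ := fun z hz h => by
    have := hE1 z h
    linarith
  -- radial limits
  have hrad : ∀ ζ : ℂ, Tendsto (fun k : ℕ => (((1 - 1 / ((k : ℝ) + 2) : ℝ) : ℂ)) * ζ) atTop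
      (𝓝 ζ) := by
    intro ζ
    have h1 : Tendsto (fun k : ℕ => (((1 - 1 / ((k : ℝ) + 2) : ℝ) : ℂ))) atTop (𝓝 ((1 : ℝ) : ℂ)) :=
      (Complex.continuous_ofReal.tendsto 1).comp seq_r_lim
    have h2 := h1.mul_const ζ
    simpa using h2
  have hlt : ∀ (k : ℕ) (ζ : ℂ), ‖ζ‖ ≤ 1 → ‖(((1 - 1 / ((k : ℝ) + 2) : ℝ) : ℂ)) * ζ‖ < 1 := by
    intro k ζ hζ
    rw [norm_mul, Complex.norm_real, Real.norm_eq_abs, abs_of_pos (seq_r k).1]
    nlinarith [norm_nonneg ζ, (seq_r k).1, (seq_r k).2]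
  have hulim : ∀ n ζ, ‖ζ‖ = 1 → Tendsto (fun k : ℕ =>
      u n ((((1 - 1 / ((k : ℝ) + 2) : ℝ) : ℂ)) * ζ)) atTop (𝓝 (u n ζ)) := by
    intro n ζ hζ
    have h1 : ContinuousWithinAt (u n) (Metric.closedBall 0 1) ζ :=
      huc n ζ (by simp [hζ])
    refine h1.tendsto.comp ?_
    rw [tendsto_nhdsWithin_iff]
    refine ⟨hrad ζ, Eventually.of_forall fun k => ?_⟩
    simpa using (hlt k ζ hζ.le).le
  have hΛlim : ∀ ζ, ζ ∉ E → Tendsto (fun k : ℕ =>
      Λ ((((1 - 1 / ((k : ℝ) + 2) : ℝ) : ℂ)) * ζ)) atTop (𝓝 (Λ ζ)) := by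
    intro ζ hζ
    have h1 : ContinuousAt Λ ζ :=
      (hΛ.differentiableAt (hE.isOpen_compl.mem_nhds hζ)).continuousAt
    exact h1.tendsto.comp (hrad ζ)
  -- common bound
  have hB : ∀ n, ∃ C : ℝ, 1 ≤ C ∧ (∀ z, ‖z‖ < 1 → ‖u n z * Λ z‖ ≤ C) ∧
      ∀ z, ‖z‖ < 1 → ‖u n z‖ ≤ C := by
    intro n
    obtain ⟨C1, h1⟩ := hb n
    obtain ⟨C2, h2⟩ := (isCompact_closedBall (0 : ℂ) 1).exists_bound_of_continuousOn (huc n)
    refine ⟨max 1 (max C1 C2), le_max_left _ _, fun z hz => ?_, fun z hz => ?_⟩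
    · exact (h1 z hz).trans ((le_max_left _ _).trans (le_max_right _ _))
    · exact (h2 z (by simpa using hz.le)).trans ((le_max_right _ _).trans (le_max_right _ _))
  choose C hC1 hCΛ hCu using hB
  have hCpos : ∀ n, 0 < C n := fun n => lt_of_lt_of_le one_pos (hC1 n)
  -- convergence
  have hfc : ∀ n, ContinuousOn (fun ζ => u n ζ - 1) (Metric.sphere 0 1) := fun n =>
    ((huc n).mono hs).sub continuousOn_const
  have hdel : ∀ z : ℂ, ‖z‖ < 1 →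
      Tendsto (fun n => ∫ ζ, ‖u n ζ - 1‖ * Pk z ζ ∂sg) atTop (𝓝 0) := fun z hz =>
    l1_lim hfc hlim hz
  have hpt : ∀ z : ℂ, ‖z‖ < 1 → Tendsto (fun n => u n z) atTop (𝓝 1) := by
    intro z hz
    rw [tendsto_iff_norm_sub_tendsto_zero]
    have h1 : ∀ n, ‖u n z - 1‖ ≤ (2 * Real.pi)⁻¹ * ∫ ζ, ‖u n ζ - 1‖ * Pk z ζ ∂sg := by
      intro n
      have h2 := Pk_poisson (g := fun ζ => u n ζ - 1) ((hu n).sub (differentiableOn_const _))
        ((huc n).sub continuousOn_const) hz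
      have h3 : (2 * Real.pi) * ‖u n z - 1‖ ≤ ∫ ζ, ‖u n ζ - 1‖ * Pk z ζ ∂sg := by
        calc (2 * Real.pi) * ‖u n z - 1‖ = ‖(2 * Real.pi) • (u n z - 1)‖ := by
              rw [norm_smul, Real.norm_eq_abs, abs_of_pos (by positivity)]
          _ = ‖∫ ζ, (Pk z ζ : ℝ) • (u n ζ - 1) ∂sg‖ := by rw [h2]
          _ ≤ ∫ ζ, ‖(Pk z ζ : ℝ) • (u n ζ - 1)‖ ∂sg := norm_integral_le_integral_norm _
          _ = ∫ ζ, ‖u n ζ - 1‖ * Pk z ζ ∂sg := by
              refine integral_congr_ae ?_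
              filter_upwards [pb_ae] with ζ hζ
              rw [norm_smul, Real.norm_eq_abs, abs_of_pos (Pk_bounds hz hζ).2.2, mul_comm]
      rw [inv_mul_eq_div, le_div_iff₀ (by positivity)]
      linarith
    refine squeeze_zero (fun n => norm_nonneg _) h1 ?_
    simpa using (hdel z hz).const_mul ((2 * Real.pi)⁻¹)
  -- integrability of the weight
  have hwi : Integrable w sg := by
    obtain ⟨n, hn⟩ := ((hpt 0 (by simp)).eventually_ne one_ne_zero).exists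
    obtain ⟨k1, k2, -⟩ := keyF (hu n) (Fs := u n) (hCpos n) (hCu n)
      (by filter_upwards [pb_ae] with ζ hζ; exact hulim n ζ hζ) (z := 0) (by simp) hn
    refine k2.mono' hwm.aestronglyMeasurable ?_
    filter_upwards [pb_ae, haeE, k1] with ζ hζ hζE h0
    rw [Real.norm_eq_abs, abs_of_nonneg (hwnn ζ), hwE ζ hζE]
    have hun : 0 < ‖u n ζ‖ := norm_pos_iff.mpr h0
    have h1 : ‖u n ζ‖ ≤ C n :=
      le_of_tendsto (hulim n ζ hζ).norm (Eventually.of_forall fun k => hCu n _ (hlt k ζ hζ.le))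
    have h2 : ‖u n ζ * Λ ζ‖ ≤ C n :=
      le_of_tendsto ((hulim n ζ hζ).mul (hΛlim ζ hζE)).norm
        (Eventually.of_forall fun k => hCΛ n _ (hlt k ζ hζ.le))
    have h3 : 0 ≤ Real.log (C n / ‖u n ζ‖) := by
      refine Real.log_nonneg ?_
      rw [le_div_iff₀ hun, one_mul]; exact h1
    have h4 : max (Real.log ‖Λ ζ‖) 0 ≤ Real.log (C n / ‖u n ζ‖) := by
      refine max_le ?_ h3
      by_cases hΛ0 : Λ ζ = 0
      · rw [hΛ0]; simpa using h3
      · refine Real.log_le_log (norm_pos_iff.mpr hΛ0) ?_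
        rw [le_div_iff₀ hun, mul_comm, ← norm_mul]
        exact h2
    have h5 : (2 * Real.pi)⁻¹ ≤ 1 := inv_le_one_of_one_le₀ (by linarith [Real.pi_gt_three])
    calc (2 * Real.pi)⁻¹ * max (Real.log ‖Λ ζ‖) 0 ≤ 1 * max (Real.log ‖Λ ζ‖) 0 :=
          mul_le_mul_of_nonneg_right h5 (le_max_right _ _)
      _ ≤ Real.log (C n / ‖u n ζ‖) := by rw [one_mul]; exact h4
  refine ⟨w, hwm, hwnn, hwi, fun z hz => ?_⟩
  by_cases hΛz : Λ z = 0
  · rw [hΛz, norm_zero]; exact (Real.exp_pos _).le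
  rw [← Real.log_le_iff_le_exp (norm_pos_iff.mpr hΛz)]
  have hwP : Integrable (fun ζ => w ζ * Pk z ζ) sg := by
    refine hwi.mul_bdd (c := (1 - ‖z‖ ^ 2) / (1 - ‖z‖) ^ 2) (pb_aesm (Pk_cont hz)) ?_
    filter_upwards [pb_ae] with ζ hζ
    obtain ⟨-, h2, h3⟩ := Pk_bounds hz hζ
    rw [Real.norm_eq_abs, abs_of_pos h3]
    exact h2
  have hPi : Integrable (Pk z) sg := pb_int (Pk_cont hz)
  have hmain : ∀ᶠ n in atTop, Real.log ‖u n z‖ + Real.log ‖Λ z‖ ≤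
      (2 * Real.pi)⁻¹ * (∫ ζ, ‖u n ζ - 1‖ * Pk z ζ ∂sg) + ∫ ζ, w ζ * Pk z ζ ∂sg := by
    filter_upwards [(hpt z hz).eventually_ne one_ne_zero] with n hn
    have hD : Metric.ball (0 : ℂ) 1 ⊆ Eᶜ := fun y hy => hDE y (by simpa using hy)
    obtain ⟨k1, k2, k3⟩ := keyF ((hu n).mul (hΛ.mono hD)) (Fs := fun ζ => u n ζ * Λ ζ) (hCpos n)
      (hCΛ n) (by
        filter_upwards [pb_ae, haeE] with ζ hζ hζE
        exact (hulim n ζ hζ).mul (hΛlim ζ hζE)) hz (mul_ne_zero hn hΛz)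
    have hi1 : Integrable (fun ζ => ‖u n ζ - 1‖ * Pk z ζ) sg :=
      pb_int ((hfc n).norm.mul (Pk_cont hz))
    have hkP : Integrable (fun ζ => Real.log (C n / ‖u n ζ * Λ ζ‖) * Pk z ζ) sg := by
      refine k2.mul_bdd (c := (1 - ‖z‖ ^ 2) / (1 - ‖z‖) ^ 2) (pb_aesm (Pk_cont hz)) ?_
      filter_upwards [pb_ae] with ζ hζ
      obtain ⟨-, h2, h3⟩ := Pk_bounds hz hζ
      rw [Real.norm_eq_abs, abs_of_pos h3]
      exact h2
    have hlow : ∫ ζ, (Real.log (C n) * Pk z ζ - ‖u n ζ - 1‖ * Pk z ζ -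
        2 * Real.pi * (w ζ * Pk z ζ)) ∂sg ≤ ∫ ζ, Real.log (C n / ‖u n ζ * Λ ζ‖) * Pk z ζ ∂sg := by
      refine integral_mono_ae (((hPi.const_mul _).sub hi1).sub (hwP.const_mul _)) hkP ?_
      filter_upwards [pb_ae, haeE, k1] with ζ hζ hζE h0
      have hP := (Pk_bounds hz hζ).2.2
      have hu0 : u n ζ ≠ 0 := fun h => h0 (by rw [h, zero_mul])
      have hΛ0 : Λ ζ ≠ 0 := fun h => h0 (by rw [h, mul_zero])
      have e1 : Real.log (C n / ‖u n ζ * Λ ζ‖) =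
          Real.log (C n) - (Real.log ‖u n ζ‖ + Real.log ‖Λ ζ‖) := by
        rw [norm_mul, Real.log_div (hCpos n).ne' (by positivity),
          Real.log_mul (norm_ne_zero_iff.mpr hu0) (norm_ne_zero_iff.mpr hΛ0)]
      have e2 : Real.log ‖u n ζ‖ ≤ ‖u n ζ - 1‖ := by
        have a1 := Real.log_le_sub_one_of_pos (norm_pos_iff.mpr hu0)
        have a2 := norm_sub_norm_le (u n ζ) 1
        rw [norm_one] at a2
        linarith
      have e3 : Real.log ‖Λ ζ‖ ≤ 2 * Real.pi * w ζ := by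
        rw [hwE ζ hζE, ← mul_assoc, mul_inv_cancel₀ (by positivity), one_mul]
        exact le_max_left _ _
      rw [e1]
      have e4 : Real.log (C n) * Pk z ζ - ‖u n ζ - 1‖ * Pk z ζ - 2 * Real.pi * (w ζ * Pk z ζ) =
          (Real.log (C n) - (‖u n ζ - 1‖ + 2 * Real.pi * w ζ)) * Pk z ζ := by ring
      rw [e4]
      exact mul_le_mul_of_nonneg_right (by linarith) hP.le
    have s1 := integral_sub (f := fun ζ => Real.log (C n) * Pk z ζ - ‖u n ζ - 1‖ * Pk z ζ)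
      (g := fun ζ => 2 * Real.pi * (w ζ * Pk z ζ)) ((hPi.const_mul _).sub hi1) (hwP.const_mul _)
    have s2 := integral_sub (f := fun ζ => Real.log (C n) * Pk z ζ)
      (g := fun ζ => ‖u n ζ - 1‖ * Pk z ζ) (hPi.const_mul _) hi1
    rw [s1, s2, integral_const_mul, integral_const_mul, Pk_one hz] at hlow
    simp only [Pi.mul_apply] at k3
    have e5 : Real.log (C n / ‖u n z * Λ z‖) =
        Real.log (C n) - (Real.log ‖u n z‖ + Real.log ‖Λ z‖) := by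
      rw [norm_mul, Real.log_div (hCpos n).ne' (by positivity),
        Real.log_mul (norm_ne_zero_iff.mpr hn) (norm_ne_zero_iff.mpr hΛz)]
    rw [e5] at k3
    have h6 : 2 * Real.pi * (Real.log ‖u n z‖ + Real.log ‖Λ z‖) ≤
        (∫ ζ, ‖u n ζ - 1‖ * Pk z ζ ∂sg) + 2 * Real.pi * ∫ ζ, w ζ * Pk z ζ ∂sg := by
      have := hlow.trans k3
      nlinarith
    have h7 : (2 * Real.pi)⁻¹ * (∫ ζ, ‖u n ζ - 1‖ * Pk z ζ ∂sg) + ∫ ζ, w ζ * Pk z ζ ∂sg =
        ((∫ ζ, ‖u n ζ - 1‖ * Pk z ζ ∂sg) + 2 * Real.pi * ∫ ζ, w ζ * Pk z ζ ∂sg) /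
          (2 * Real.pi) := by field_simp
    rw [h7, le_div_iff₀ (by positivity)]
    linarith
  have hl1 : Tendsto (fun n => Real.log ‖u n z‖ + Real.log ‖Λ z‖) atTop
      (𝓝 (0 + Real.log ‖Λ z‖)) := by
    refine Tendsto.add_const _ ?_
    have h1 := (hpt z hz).norm.log (by simp)
    simpa using h1
  have hl2 : Tendsto (fun n => (2 * Real.pi)⁻¹ * (∫ ζ, ‖u n ζ - 1‖ * Pk z ζ ∂sg) +
      ∫ ζ, w ζ * Pk z ζ ∂sg) atTop (𝓝 (0 + ∫ ζ, w ζ * Pk z ζ ∂sg)) := by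
    refine Tendsto.add_const _ ?_
    simpa using (hdel z hz).const_mul ((2 * Real.pi)⁻¹)
  have hfin := le_of_tendsto_of_tendsto hl1 hl2 hmain
  rw [zero_add, zero_add] at hfin
  exact hfin

end Pool.Agent.Helper203.GV
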