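import Pool.Agent.Helper203.GV.Defs

open MeasureTheory Filter Topology Set

noncomputable section

namespace Pool.Agent.Helper203.GV

theorem j11428_sup {c t s : ℝ} (hc : 0 < c) (ht : 0 < t) (hs : 0 ≤ s) :
    t ^ s * Real.exp (-c * t) ≤ (s / c) ^ s := by
  rcases hs.eq_or_lt with h | h
  · subst h
    simp only [Real.rpow_zero, one_mul, zero_div]
    exact Real.exp_le_one_iff.2 (by nlinarith)
  · have h1 : t = (s / c) * (c * t / s) := by field_simp
    have h2 : t ^ s = (s / c) ^ s * (c * t / s) ^ s := by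
      conv_lhs => rw [h1]
      exact Real.mul_rpow (by positivity) (by positivity)
    have h3 : (c * t / s) ^ s ≤ Real.exp (c * t) := by
      have h4 : c * t / s ≤ Real.exp (c * t / s) := by
        have := Real.add_one_le_exp (c * t / s)
        linarith
      have h5 : (c * t / s) ^ s ≤ (Real.exp (c * t / s)) ^ s :=
        Real.rpow_le_rpow (by positivity) h4 h.le
      rw [← Real.exp_mul] at h5
      rwa [div_mul_cancel₀ _ h.ne'] at h5
    rw [h2, mul_assoc]
    have h6 : (c * t / s) ^ s * Real.exp (-c * t) ≤ 1 := by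
      have : Real.exp (c * t) * Real.exp (-c * t) = 1 := by
        rw [← Real.exp_add]; simp
      calc (c * t / s) ^ s * Real.exp (-c * t) ≤ Real.exp (c * t) * Real.exp (-c * t) :=
            mul_le_mul_of_nonneg_right h3 (Real.exp_pos _).le
        _ = 1 := this
    have h7 : 0 ≤ (s / c) ^ s := by positivity
    nlinarith

/-- `ρ^{-i} exp(-c ρ^{-α}) ≤ C₁^i i^{i/α}` -/
theorem j11428_rho {α c r : ℝ} (h0 : 0 < α) (hc : 0 < c) (hr : 0 < r) (i : ℕ) :
    (1 / r) ^ i * Real.exp (-c * r ^ (-α)) ≤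
      ((1 / (α * c)) ^ (1 / α)) ^ i * (i : ℝ) ^ ((i : ℝ) / α) := by
  have h1 := j11428_sup hc (Real.rpow_pos_of_pos hr (-α)) (s := (i : ℝ) / α) (by positivity)
  have h2 : (r ^ (-α)) ^ ((i : ℝ) / α) = (1 / r) ^ i := by
    rw [← Real.rpow_mul hr.le]
    have : -α * ((i : ℝ) / α) = -(i : ℝ) := by field_simp
    rw [this, Real.rpow_neg hr.le, Real.rpow_natCast, one_div, inv_pow]
  rw [h2] at h1
  refine h1.trans (le_of_eq ?_)
  have h3 : (i : ℝ) / α / c = (1 / (α * c)) * i := by field_simp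
  rw [h3, Real.mul_rpow (by positivity) (by positivity)]
  congr 1
  rw [← Real.rpow_natCast, ← Real.rpow_mul (by positivity)]
  congr 1
  ring

theorem j11428_pow {α : ℝ} (h0 : 0 < α) {n j : ℕ} (hj : j ≤ n) :
    (j : ℝ) ^ ((j : ℝ) / α) * ((n - j : ℕ) : ℝ) ^ (((n - j : ℕ) : ℝ) / α) ≤
      (n : ℝ) ^ ((n : ℝ) / α) := by
  rcases Nat.eq_zero_or_pos n with h | h
  · subst h
    have : j = 0 := by omega
    subst this
    simp
  · have hn : (0 : ℝ) < n := by exact_mod_cast h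
    have h1 : (j : ℝ) ^ ((j : ℝ) / α) ≤ (n : ℝ) ^ ((j : ℝ) / α) :=
      Real.rpow_le_rpow (by positivity) (by exact_mod_cast hj) (by positivity)
    have h2 : ((n - j : ℕ) : ℝ) ^ (((n - j : ℕ) : ℝ) / α) ≤
        (n : ℝ) ^ (((n - j : ℕ) : ℝ) / α) :=
      Real.rpow_le_rpow (by positivity) (by exact_mod_cast (Nat.sub_le n j)) (by positivity)
    calc _ ≤ (n : ℝ) ^ ((j : ℝ) / α) * (n : ℝ) ^ (((n - j : ℕ) : ℝ) / α) := by
          gcongr
      _ = (n : ℝ) ^ ((n : ℝ) / α) := by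
          rw [← Real.rpow_add hn]
          congr 1
          rw [← add_div, Nat.cast_sub hj]
          congr 1
          ring

theorem j11428_cauchy {k : ℂ → ℂ} {z : ℂ} {R M e : ℝ} (hR : 0 < R) (he : 0 ≤ e)
    (hM : 0 ≤ M) (hk : DifferentiableOn ℂ k (Metric.ball z R))
    (hb : ∀ y ∈ Metric.ball z R, ‖k y‖ * e ≤ M) (i : ℕ) :
    e * ‖iteratedDeriv i k z‖ ≤ (i.factorial : ℝ) * M * (2 / R) ^ i := by
  rcases he.eq_or_lt with h | h
  · subst h
    rw [zero_mul]; positivity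
  · have hsub : Metric.closedBall z (R / 2) ⊆ Metric.ball z R :=
      Metric.closedBall_subset_ball (half_lt_self hR)
    have h1 : ‖iteratedDeriv i k z‖ ≤ (i.factorial : ℝ) * (M / e) / (R / 2) ^ i := by
      refine Complex.norm_iteratedDeriv_le_of_forall_mem_sphere_norm_le i (half_pos hR)
        (hk.diffContOnCl_ball hsub) ?_
      intro y hy
      rw [le_div_iff₀ h]
      exact hb y (hsub (Metric.sphere_subset_closedBall hy))
    calc e * ‖iteratedDeriv i k z‖ ≤ e * ((i.factorial : ℝ) * (M / e) / (R / 2) ^ i) :=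
          mul_le_mul_of_nonneg_left h1 h.le
      _ = (i.factorial : ℝ) * M * (2 / R) ^ i := by
          have : (2 / R) ^ i = ((R / 2) ^ i)⁻¹ := by
            rw [← inv_pow, inv_div]
          rw [this]
          field_simp

theorem prod_bound {α : ℝ} (h0 : 0 < α) {C' Q' c κ A : ℝ} (hC' : 0 < C') (hQ' : 0 < Q')
    (hc : 0 < c) (hκ : 0 < κ) (hA : 0 < A) :
    ∃ C Q : ℝ, 0 < C ∧ 0 < Q ∧ ∀ (g k : ℂ → ℂ) (ρ e : ℂ → ℝ),
      (∀ z ∈ Metric.ball (0:ℂ) 1, 0 < ρ z) → (∀ z, 0 ≤ e z) →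
      DifferentiableOn ℂ g (Metric.ball 0 1) →
      (∀ j : ℕ, ∀ z ∈ Metric.ball (0:ℂ) 1, ‖iteratedDeriv j g z‖ ≤
        C' * Q' ^ j * (j.factorial : ℝ) * (j : ℝ) ^ ((j : ℝ) / α) * e z) →
      (∀ z ∈ Metric.ball (0:ℂ) 1, DifferentiableOn ℂ k (Metric.ball z (κ * ρ z)) ∧
        ∀ y ∈ Metric.ball z (κ * ρ z), ‖k y‖ * e z ≤ A * Real.exp (-c * (ρ z) ^ (-α))) →
      GB α C Q (fun z => g z * k z) := by
  set C1 : ℝ := (1 / (α * c)) ^ (1 / α) with hC1
  have hC1pos : 0 < C1 := by positivity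
  set Q2 : ℝ := 2 / κ * C1 with hQ2
  have hQ2pos : 0 < Q2 := by positivity
  refine ⟨C' * A, 2 * (Q' + Q2), by positivity, by positivity, ?_⟩
  intro g k ρ e hρ he hg hgb hk
  have hkd : ∀ z ∈ Metric.ball (0:ℂ) 1, Metric.ball z (κ * ρ z) ∈ 𝓝 z := fun z hz =>
    Metric.ball_mem_nhds z (mul_pos hκ (hρ z hz))
  refine ⟨?_, ?_⟩
  · refine DifferentiableOn.mul hg fun z hz => ?_
    exact (((hk z hz).1).differentiableAt (hkd z hz)).differentiableWithinAt
  · intro n z hz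
    have hgz : ContDiffAt ℂ n g z :=
      (hg.analyticAt (Metric.isOpen_ball.mem_nhds hz)).contDiffAt
    have hkz : ContDiffAt ℂ n k z := (((hk z hz).1).analyticAt (hkd z hz)).contDiffAt
    have hmul : iteratedDeriv n (fun z => g z * k z) z = ∑ i ∈ Finset.range (n + 1),
        (n.choose i) * iteratedDeriv i g z * iteratedDeriv (n - i) k z :=
      iteratedDeriv_mul hgz hkz
    rw [hmul]
    have hr : 0 < ρ z := hρ z hz
    have hki : ∀ i : ℕ, e z * ‖iteratedDeriv i k z‖ ≤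
        A * (i.factorial : ℝ) * Q2 ^ i * (i : ℝ) ^ ((i : ℝ) / α) := by
      intro i
      have h1 := j11428_cauchy (mul_pos hκ hr) (he z)
        (M := A * Real.exp (-c * (ρ z) ^ (-α))) (by positivity) (hk z hz).1 (hk z hz).2 i
      refine h1.trans ?_
      have h2 := j11428_rho h0 hc hr i
      have h3 : (2 / (κ * ρ z)) ^ i = (2 / κ) ^ i * (1 / ρ z) ^ i := by
        rw [← mul_pow]; congr 1; field_simp
      rw [h3]
      calc (i.factorial : ℝ) * (A * Real.exp (-c * (ρ z) ^ (-α))) *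
            ((2 / κ) ^ i * (1 / ρ z) ^ i)
          = (A * (i.factorial : ℝ) * (2 / κ) ^ i) *
            ((1 / ρ z) ^ i * Real.exp (-c * (ρ z) ^ (-α))) := by ring
        _ ≤ (A * (i.factorial : ℝ) * (2 / κ) ^ i) * (C1 ^ i * (i : ℝ) ^ ((i : ℝ) / α)) :=
            mul_le_mul_of_nonneg_left h2 (by positivity)
        _ = A * (i.factorial : ℝ) * Q2 ^ i * (i : ℝ) ^ ((i : ℝ) / α) := by
            rw [hQ2, mul_pow]; ring
    have hterm : ∀ j ∈ Finset.range (n + 1),
        ‖((n.choose j : ℕ) : ℂ) * iteratedDeriv j g z * iteratedDeriv (n - j) k z‖ ≤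
        C' * A * (Q' + Q2) ^ n * (n.factorial : ℝ) * (n : ℝ) ^ ((n : ℝ) / α) := by
      intro j hj
      have hjn : j ≤ n := by
        rw [Finset.mem_range] at hj; omega
      rw [norm_mul, norm_mul, Complex.norm_natCast]
      have hfac : ((n.choose j : ℕ) : ℝ) * (j.factorial : ℝ) * ((n - j).factorial : ℝ) =
          (n.factorial : ℝ) := by
        exact_mod_cast Nat.choose_mul_factorial_mul_factorial hjn
      have hQ : Q' ^ j * Q2 ^ (n - j) ≤ (Q' + Q2) ^ n := by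
        calc Q' ^ j * Q2 ^ (n - j) ≤ (Q' + Q2) ^ j * (Q' + Q2) ^ (n - j) := by
              gcongr <;> linarith
          _ = (Q' + Q2) ^ n := by
              rw [← pow_add]; congr 1; omega
      have hP := j11428_pow h0 hjn
      calc ((n.choose j : ℕ) : ℝ) * ‖iteratedDeriv j g z‖ * ‖iteratedDeriv (n - j) k z‖
          ≤ ((n.choose j : ℕ) : ℝ) * (C' * Q' ^ j * (j.factorial : ℝ) *
              (j : ℝ) ^ ((j : ℝ) / α) * e z) * ‖iteratedDeriv (n - j) k z‖ := by
            have := hgb j z hz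
            gcongr
        _ = (((n.choose j : ℕ) : ℝ) * (C' * Q' ^ j * (j.factorial : ℝ) *
              (j : ℝ) ^ ((j : ℝ) / α))) * (e z * ‖iteratedDeriv (n - j) k z‖) := by ring
        _ ≤ (((n.choose j : ℕ) : ℝ) * (C' * Q' ^ j * (j.factorial : ℝ) *
              (j : ℝ) ^ ((j : ℝ) / α))) * (A * ((n - j).factorial : ℝ) * Q2 ^ (n - j) *
              ((n - j : ℕ) : ℝ) ^ (((n - j : ℕ) : ℝ) / α)) :=
            mul_le_mul_of_nonneg_left (hki (n - j)) (by positivity)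
        _ = C' * A * (Q' ^ j * Q2 ^ (n - j)) * (((n.choose j : ℕ) : ℝ) * (j.factorial : ℝ) *
              ((n - j).factorial : ℝ)) * ((j : ℝ) ^ ((j : ℝ) / α) *
              ((n - j : ℕ) : ℝ) ^ (((n - j : ℕ) : ℝ) / α)) := by ring
        _ ≤ C' * A * (Q' + Q2) ^ n * (n.factorial : ℝ) * (n : ℝ) ^ ((n : ℝ) / α) := by
            rw [hfac]
            gcongr
    calc ‖∑ i ∈ Finset.range (n + 1), ((n.choose i : ℕ) : ℂ) * iteratedDeriv i g z *
          iteratedDeriv (n - i) k z‖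
        ≤ ∑ i ∈ Finset.range (n + 1), ‖((n.choose i : ℕ) : ℂ) * iteratedDeriv i g z *
          iteratedDeriv (n - i) k z‖ := norm_sum_le _ _
      _ ≤ ∑ i ∈ Finset.range (n + 1),
          C' * A * (Q' + Q2) ^ n * (n.factorial : ℝ) * (n : ℝ) ^ ((n : ℝ) / α) :=
          Finset.sum_le_sum hterm
      _ = (n + 1 : ℝ) * (C' * A * (Q' + Q2) ^ n * (n.factorial : ℝ) *
          (n : ℝ) ^ ((n : ℝ) / α)) := by
          rw [Finset.sum_const, Finset.card_range, nsmul_eq_mul]; push_cast; ring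
      _ ≤ (2 : ℝ) ^ n * (C' * A * (Q' + Q2) ^ n * (n.factorial : ℝ) *
          (n : ℝ) ^ ((n : ℝ) / α)) := by
          have h2n : (n + 1 : ℝ) ≤ (2 : ℝ) ^ n := by
            exact_mod_cast Nat.succ_le_of_lt (Nat.lt_two_pow_self (n := n))
          gcongr
      _ = C' * A * (2 * (Q' + Q2)) ^ n * (n.factorial : ℝ) * (n : ℝ) ^ ((n : ℝ) / α) := by
          rw [mul_pow]; ring

end Pool.Agent.Helper203.GV
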