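import Pool.Agent.Helper203.GV.Defs
import Pool.Agent.Helper203.GV.Misc1

open MeasureTheory Filter Topology Set

noncomputable section

namespace Pool.Agent.Helper203.GV

namespace SW

section aux808

open ENNReal

instance sg_finite808 : IsFiniteMeasure sg := by
  unfold sg; infer_instance

theorem ae_circle808 : ∀ᵐ z ∂sg, ‖z‖ = 1 := by
  unfold sg
  have hm : Measurable (fun t : ℝ => Complex.exp (t * Complex.I)) := by fun_prop
  rw [ae_map_iff hm.aemeasurable (by exact measurableSet_eq_fun (by fun_prop) (by fun_prop))]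
  exact Eventually.of_forall fun t => Complex.norm_exp_ofReal_mul_I t

/-- the quasi-distance -/
def dd (φ : ℂ → ℝ) (z x : ℂ) : ℝ := ‖z - x‖ + φ z + φ x

/-- the kernel with values in `ℝ≥0∞` -/
def kE (φ : ℂ → ℝ) (z x : ℂ) : ℝ≥0∞ := ENNReal.ofReal (1 / (dd φ z x) ^ 2)

/-- the potential -/
def Dl (φ : ℂ → ℝ) (z : ℂ) : ℝ≥0∞ := ∫⁻ x, ENNReal.ofReal (φ x) * kE φ z x ∂sg

/-- the `α`-potential -/
def Al (α : ℝ) (φ : ℂ → ℝ) (z : ℂ) : ℝ≥0∞ := ∫⁻ x, ENNReal.ofReal ((φ x) ^ (-α)) * kE φ z x ∂sg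

theorem dd_comm (φ : ℂ → ℝ) (z x : ℂ) : dd φ z x = dd φ x z := by
  unfold dd; rw [norm_sub_rev]; ring

theorem kE_comm (φ : ℂ → ℝ) (z x : ℂ) : kE φ z x = kE φ x z := by
  unfold kE; rw [dd_comm]

variable {φ : ℂ → ℝ} {α : ℝ}

theorem dd_nonneg (hφ : ∀ z, 0 ≤ φ z) (z x : ℂ) : 0 ≤ dd φ z x := by
  unfold dd; have := hφ z; have := hφ x; positivity

theorem dd_pos (hφ : ∀ z, 0 ≤ φ z) {z : ℂ} (hz : 0 < φ z) (x : ℂ) : 0 < dd φ z x := by
  unfold dd; have := hφ x; have := norm_nonneg (z - x); linarith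

theorem dd_tri (hφ : ∀ z, 0 ≤ φ z) (z x y : ℂ) : dd φ z y ≤ dd φ z x + dd φ x y := by
  unfold dd
  have := hφ x
  have h : ‖z - y‖ ≤ ‖z - x‖ + ‖x - y‖ := by
    have := norm_add_le (z - x) (x - y)
    simpa using this
  linarith

theorem lip808 (hL : LipschitzWith 1 φ) (z x : ℂ) : φ z ≤ φ x + ‖z - x‖ := by
  have h := hL.dist_le_mul z x
  rw [Real.dist_eq, dist_eq_norm] at h
  have := (abs_le.1 h).2
  simp at this
  linarith

theorem meas_dd (hc : Measurable φ) : Measurable (fun p : ℂ × ℂ => dd φ p.1 p.2) := by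
  unfold dd
  exact ((measurable_fst.sub measurable_snd).norm.add (hc.comp measurable_fst)).add
    (hc.comp measurable_snd)

set_option maxHeartbeats 1000000 in
theorem meas_kE (hc : Measurable φ) : Measurable (fun p : ℂ × ℂ => kE φ p.1 p.2) := by
  unfold kE
  exact ((measurable_const.div ((meas_dd hc).pow_const 2))).ennreal_ofReal

theorem meas_kE1 (hc : Measurable φ) (y : ℂ) : Measurable (fun x : ℂ => kE φ x y) := by
  unfold kE dd
  exact (measurable_const.div ((((measurable_id.sub measurable_const).norm.add hc).add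
    measurable_const).pow_const 2)).ennreal_ofReal

theorem meas_kE2 (hc : Measurable φ) (y : ℂ) : Measurable (fun x : ℂ => kE φ y x) := by
  have h : (fun x : ℂ => kE φ y x) = fun x => kE φ x y := by
    funext x; exact kE_comm φ y x
  rw [h]; exact meas_kE1 hc y

theorem meas_kE' (hc : Measurable φ) : Measurable fun p : ℂ × ℂ => kE φ p.2 p.1 := by
  have h : (fun p : ℂ × ℂ => kE φ p.2 p.1) = fun p : ℂ × ℂ => kE φ p.1 p.2 := by
    funext x; exact kE_comm φ _ _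
  rw [h]; exact meas_kE hc

theorem meas_Dl (hc : Measurable φ) : Measurable (Dl φ) := by
  unfold Dl
  exact Measurable.lintegral_prod_right'
    (f := fun p : ℂ × ℂ => ENNReal.ofReal (φ p.2) * kE φ p.1 p.2)
    (((hc.comp measurable_snd).ennreal_ofReal).mul (meas_kE hc))

theorem meas_gk (hc : Measurable φ) (z : ℂ) :
    Measurable (fun x => ENNReal.ofReal ((φ x) ^ (-α)) * kE φ z x) := by
  have h1 : Measurable fun x => ENNReal.ofReal ((φ x) ^ (-α)) := (hc.pow_const _).ennreal_ofReal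
  exact h1.mul (meas_kE2 hc z)

theorem meas_fk (hc : Measurable φ) (z : ℂ) :
    Measurable (fun x => ENNReal.ofReal (φ x) * kE φ z x) := by
  have h1 : Measurable fun x => ENNReal.ofReal (φ x) := hc.ennreal_ofReal
  exact h1.mul (meas_kE2 hc z)

/-- three point inequality -/
theorem threeG (hφ : ∀ z, 0 ≤ φ z) {z : ℂ} (hz : 0 < φ z) (x y : ℂ) :
    kE φ z x * kE φ x y ≤ 4 * (kE φ z y * kE φ z x) + 4 * (kE φ z y * kE φ y x) := by
  have hp := dd_pos hφ hz x
  have hr := dd_pos hφ hz y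
  have ht := dd_tri hφ z x y
  have h4 : (4:ℝ≥0∞) = ENNReal.ofReal 4 := by simp
  rw [kE_comm φ y x]
  unfold kE
  rw [h4, ← ENNReal.ofReal_mul (by positivity), ← ENNReal.ofReal_mul (by positivity),
    ← ENNReal.ofReal_mul (by positivity), ← ENNReal.ofReal_mul (by positivity),
    ← ENNReal.ofReal_mul (by positivity), ← ENNReal.ofReal_add (by positivity) (by positivity)]
  apply ENNReal.ofReal_le_ofReal
  rcases (dd_nonneg hφ x y).eq_or_lt with hq | hq
  · rw [← hq]; simp; positivity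
  · set p := dd φ z x
    set q := dd φ x y
    set r := dd φ z y
    have e1 : 1 / p ^ 2 * (1 / q ^ 2) = r ^ 2 / (r ^ 2 * p ^ 2 * q ^ 2) := by
      field_simp
    have e2 : 4 * (1 / r ^ 2 * (1 / p ^ 2)) + 4 * (1 / r ^ 2 * (1 / q ^ 2))
        = 4 * (p ^ 2 + q ^ 2) / (r ^ 2 * p ^ 2 * q ^ 2) := by
      field_simp; ring
    rw [e1, e2]
    apply div_le_div_of_nonneg_right _ (by positivity)
    nlinarith [sq_nonneg (p - q)]

theorem Dl_lt_top (hφ : ∀ z, 0 ≤ φ z) (hφ1 : ∀ z, ‖z‖ = 1 → φ z ≤ 1) {z : ℂ} (hz : 0 < φ z) :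
    Dl φ z < ∞ := by
  unfold Dl
  have hb : ∀ᵐ x ∂sg, ENNReal.ofReal (φ x) * kE φ z x ≤ ENNReal.ofReal (1 / (φ z) ^ 2) := by
    filter_upwards [ae_circle808] with x hx
    unfold kE
    rw [← ENNReal.ofReal_mul (hφ x)]
    apply ENNReal.ofReal_le_ofReal
    have h1 := hφ1 x hx
    have h2 : φ z ≤ dd φ z x := by
      unfold dd; have := hφ x; have := norm_nonneg (z - x); linarith
    calc φ x * (1 / dd φ z x ^ 2) ≤ 1 * (1 / (φ z) ^ 2) := by
          apply mul_le_mul h1 _ (by positivity) zero_le_one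
          apply one_div_le_one_div_of_le (by positivity)
          exact pow_le_pow_left₀ hz.le h2 2
      _ = _ := one_mul _
  calc ∫⁻ x, ENNReal.ofReal (φ x) * kE φ z x ∂sg ≤ ∫⁻ x, ENNReal.ofReal (1 / (φ z) ^ 2) ∂sg :=
        lintegral_mono_ae hb
    _ = ENNReal.ofReal (1 / (φ z) ^ 2) * sg univ := by simp
    _ < ∞ := ENNReal.mul_lt_top ENNReal.ofReal_lt_top (measure_lt_top _ _)

/-- (1) -/
theorem int_gD (hc : Measurable φ) {K : ℝ}
    (hE : ∀ᵐ x ∂sg, 0 < φ x)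
    (hA : ∀ z, ‖z‖ = 1 → 0 < φ z → Al α φ z ≤ ENNReal.ofReal K * ENNReal.ofReal ((φ z) ^ (-α - 1))) :
    ∫⁻ z, ENNReal.ofReal ((φ z) ^ (-α)) * Dl φ z ∂sg
      ≤ ENNReal.ofReal K * ∫⁻ z, ENNReal.ofReal ((φ z) ^ (-α)) ∂sg := by
  have hm1 : Measurable fun p : ℂ × ℂ => ENNReal.ofReal (φ p.2) * kE φ p.1 p.2 :=
    ((hc.comp measurable_snd).ennreal_ofReal).mul (meas_kE hc)
  have hg : Measurable fun z => ENNReal.ofReal ((φ z) ^ (-α)) := (hc.pow_const _).ennreal_ofReal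
  have e1 : ∫⁻ z, ENNReal.ofReal ((φ z) ^ (-α)) * Dl φ z ∂sg
      = ∫⁻ z, ∫⁻ x, ENNReal.ofReal ((φ z) ^ (-α)) * (ENNReal.ofReal (φ x) * kE φ z x) ∂sg ∂sg := by
    apply lintegral_congr; intro z
    unfold Dl
    rw [lintegral_const_mul]
    exact meas_fk hc z
  have e2 : ∫⁻ z, ∫⁻ x, ENNReal.ofReal ((φ z) ^ (-α)) * (ENNReal.ofReal (φ x) * kE φ z x) ∂sg ∂sg
      = ∫⁻ x, ∫⁻ z, ENNReal.ofReal ((φ z) ^ (-α)) * (ENNReal.ofReal (φ x) * kE φ z x) ∂sg ∂sg := by
    apply lintegral_lintegral_swap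
    exact ((hg.comp measurable_fst).mul hm1).aemeasurable
  have e3 : ∫⁻ x, ∫⁻ z, ENNReal.ofReal ((φ z) ^ (-α)) * (ENNReal.ofReal (φ x) * kE φ z x) ∂sg ∂sg
      = ∫⁻ x, ENNReal.ofReal (φ x) * Al α φ x ∂sg := by
    apply lintegral_congr; intro x
    unfold Al
    rw [← lintegral_const_mul _ (meas_gk hc x)]
    apply lintegral_congr; intro z
    rw [kE_comm φ z x]; ring
  rw [e1, e2, e3]
  rw [← lintegral_const_mul _ hg]
  apply lintegral_mono_ae
  filter_upwards [ae_circle808, hE] with x hx hx0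
  calc ENNReal.ofReal (φ x) * Al α φ x
      ≤ ENNReal.ofReal (φ x) * (ENNReal.ofReal K * ENNReal.ofReal ((φ x) ^ (-α - 1))) := by
        gcongr; exact hA x hx hx0
    _ = ENNReal.ofReal K * (ENNReal.ofReal (φ x) * ENNReal.ofReal ((φ x) ^ (-α - 1))) := by ring
    _ = ENNReal.ofReal K * ENNReal.ofReal ((φ x) ^ (-α)) := by
        rw [← ENNReal.ofReal_mul hx0.le]
        congr 2
        rw [Real.rpow_sub_one hx0.ne']
        field_simp

set_option maxHeartbeats 2000000 in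
/-- (2) -/
theorem int_gkD (hφ : ∀ z, 0 ≤ φ z) (hc : Measurable φ) {K : ℝ} (hK0 : 0 ≤ K)
    (hE : ∀ᵐ x ∂sg, 0 < φ x)
    (hA : ∀ z, ‖z‖ = 1 → 0 < φ z → Al α φ z ≤ ENNReal.ofReal K * ENNReal.ofReal ((φ z) ^ (-α - 1)))
    {z : ℂ} (hz1 : ‖z‖ = 1) (hz : 0 < φ z) :
    ∫⁻ x, (ENNReal.ofReal ((φ x) ^ (-α)) * kE φ z x) * Dl φ x ∂sg
      ≤ ENNReal.ofReal (4 * K) * ENNReal.ofReal ((φ z) ^ (-α - 1)) * Dl φ z
        + ENNReal.ofReal (4 * K * K) * ENNReal.ofReal ((φ z) ^ (-α - 1)) := by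
  have hg : Measurable fun z => ENNReal.ofReal ((φ z) ^ (-α)) := (hc.pow_const _).ennreal_ofReal
  have hf : Measurable fun z => ENNReal.ofReal (φ z) := hc.ennreal_ofReal
  have h4 : (4:ℝ≥0∞) = ENNReal.ofReal 4 := by simp
  have e1 : ∫⁻ x, (ENNReal.ofReal ((φ x) ^ (-α)) * kE φ z x) * Dl φ x ∂sg
      = ∫⁻ x, ∫⁻ y, (ENNReal.ofReal ((φ x) ^ (-α)) * kE φ z x) *
          (ENNReal.ofReal (φ y) * kE φ x y) ∂sg ∂sg := by
    apply lintegral_congr; intro x
    unfold Dl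
    rw [lintegral_const_mul]
    exact meas_fk hc x
  have e2 : ∫⁻ x, ∫⁻ y, (ENNReal.ofReal ((φ x) ^ (-α)) * kE φ z x) *
          (ENNReal.ofReal (φ y) * kE φ x y) ∂sg ∂sg
      ≤ ∫⁻ x, ∫⁻ y, (4 * (ENNReal.ofReal ((φ x) ^ (-α)) * kE φ z x) *
            (ENNReal.ofReal (φ y) * kE φ z y)
          + 4 * (ENNReal.ofReal (φ y) * kE φ z y) * (ENNReal.ofReal ((φ x) ^ (-α)) * kE φ y x))
            ∂sg ∂sg := by
    apply lintegral_mono; intro x
    apply lintegral_mono; intro y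
    calc (ENNReal.ofReal ((φ x) ^ (-α)) * kE φ z x) * (ENNReal.ofReal (φ y) * kE φ x y)
        = (ENNReal.ofReal ((φ x) ^ (-α)) * ENNReal.ofReal (φ y)) * (kE φ z x * kE φ x y) := by ring
      _ ≤ (ENNReal.ofReal ((φ x) ^ (-α)) * ENNReal.ofReal (φ y)) *
            (4 * (kE φ z y * kE φ z x) + 4 * (kE φ z y * kE φ y x)) := by
          gcongr; exact threeG hφ hz x y
      _ = _ := by ring
  have e3 : ∫⁻ x, ∫⁻ y, (4 * (ENNReal.ofReal ((φ x) ^ (-α)) * kE φ z x) *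
            (ENNReal.ofReal (φ y) * kE φ z y)
          + 4 * (ENNReal.ofReal (φ y) * kE φ z y) * (ENNReal.ofReal ((φ x) ^ (-α)) * kE φ y x))
            ∂sg ∂sg
      = (∫⁻ x, ∫⁻ y, 4 * (ENNReal.ofReal ((φ x) ^ (-α)) * kE φ z x) *
            (ENNReal.ofReal (φ y) * kE φ z y) ∂sg ∂sg)
        + ∫⁻ x, ∫⁻ y, 4 * (ENNReal.ofReal (φ y) * kE φ z y) *
            (ENNReal.ofReal ((φ x) ^ (-α)) * kE φ y x) ∂sg ∂sg := by
    rw [← lintegral_add_left]
    · apply lintegral_congr; intro x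
      rw [lintegral_add_left]
      exact (measurable_const.mul (meas_fk hc z))
    · apply Measurable.lintegral_prod_right'
        (f := fun p : ℂ × ℂ => 4 * (ENNReal.ofReal ((φ p.1) ^ (-α)) * kE φ z p.1) *
            (ENNReal.ofReal (φ p.2) * kE φ z p.2))
      exact (measurable_const.mul ((meas_gk (α := α) hc z).comp measurable_fst)).mul
        ((meas_fk hc z).comp measurable_snd)
  have e4 : ∫⁻ x, ∫⁻ y, 4 * (ENNReal.ofReal ((φ x) ^ (-α)) * kE φ z x) *
            (ENNReal.ofReal (φ y) * kE φ z y) ∂sg ∂sg = 4 * Al α φ z * Dl φ z := by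
    calc _ = ∫⁻ x, 4 * (ENNReal.ofReal ((φ x) ^ (-α)) * kE φ z x) * Dl φ z ∂sg := by
            apply lintegral_congr; intro x
            unfold Dl
            rw [lintegral_const_mul]
            exact meas_fk hc z
      _ = (∫⁻ x, 4 * (ENNReal.ofReal ((φ x) ^ (-α)) * kE φ z x) ∂sg) * Dl φ z := by
            rw [lintegral_mul_const]
            exact measurable_const.mul (meas_gk hc z)
      _ = _ := by
            rw [lintegral_const_mul _ (meas_gk hc z)]; rfl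
  have hk : Measurable fun p : ℂ × ℂ => kE φ p.2 p.1 := meas_kE' hc
  have h1 : Measurable fun p : ℂ × ℂ => 4 * (ENNReal.ofReal (φ p.2) * kE φ z p.2) :=
    measurable_const.mul ((meas_fk hc z).comp measurable_snd)
  have h2 : Measurable fun p : ℂ × ℂ => ENNReal.ofReal ((φ p.1) ^ (-α)) * kE φ p.2 p.1 :=
    (hg.comp measurable_fst).mul hk
  have h3 : Measurable fun p : ℂ × ℂ => 4 * (ENNReal.ofReal (φ p.2) * kE φ z p.2) *
      (ENNReal.ofReal ((φ p.1) ^ (-α)) * kE φ p.2 p.1) := h1.mul h2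
  have e5' : ∫⁻ x, ∫⁻ y, 4 * (ENNReal.ofReal (φ y) * kE φ z y) *
            (ENNReal.ofReal ((φ x) ^ (-α)) * kE φ y x) ∂sg ∂sg
      = ∫⁻ y, ∫⁻ x, 4 * (ENNReal.ofReal (φ y) * kE φ z y) *
            (ENNReal.ofReal ((φ x) ^ (-α)) * kE φ y x) ∂sg ∂sg :=
    lintegral_lintegral_swap (f := fun x y => 4 * (ENNReal.ofReal (φ y) * kE φ z y) *
            (ENNReal.ofReal ((φ x) ^ (-α)) * kE φ y x)) h3.aemeasurable
  have e5 : ∫⁻ x, ∫⁻ y, 4 * (ENNReal.ofReal (φ y) * kE φ z y) *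
            (ENNReal.ofReal ((φ x) ^ (-α)) * kE φ y x) ∂sg ∂sg
      = ∫⁻ y, 4 * (ENNReal.ofReal (φ y) * kE φ z y) * Al α φ y ∂sg := by
    rw [e5']
    apply lintegral_congr; intro y
    unfold Al
    rw [lintegral_const_mul]
    exact meas_gk hc y
  have e6 : ∫⁻ y, 4 * (ENNReal.ofReal (φ y) * kE φ z y) * Al α φ y ∂sg
      ≤ ENNReal.ofReal (4 * K) * Al α φ z := by
    unfold Al
    rw [← lintegral_const_mul _ (meas_gk hc z)]
    apply lintegral_mono_ae
    filter_upwards [ae_circle808, hE] with y hy hy0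
    calc 4 * (ENNReal.ofReal (φ y) * kE φ z y) * Al α φ y
        ≤ 4 * (ENNReal.ofReal (φ y) * kE φ z y) *
            (ENNReal.ofReal K * ENNReal.ofReal ((φ y) ^ (-α - 1))) := by
          gcongr; exact hA y hy hy0
      _ = (4 * ENNReal.ofReal K) * ((ENNReal.ofReal (φ y) * ENNReal.ofReal ((φ y) ^ (-α - 1))) *
            kE φ z y) := by ring
      _ = ENNReal.ofReal (4 * K) * (ENNReal.ofReal ((φ y) ^ (-α)) * kE φ z y) := by
          rw [h4, ← ENNReal.ofReal_mul (by norm_num), ← ENNReal.ofReal_mul hy0.le]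
          congr 3
          rw [Real.rpow_sub_one hy0.ne']
          field_simp
  rw [e1]
  refine e2.trans ?_
  rw [e3, e4, e5]
  refine (add_le_add le_rfl e6).trans ?_
  have hAz := hA z hz1 hz
  calc 4 * Al α φ z * Dl φ z + ENNReal.ofReal (4 * K) * Al α φ z
      ≤ 4 * (ENNReal.ofReal K * ENNReal.ofReal ((φ z) ^ (-α - 1))) * Dl φ z
        + ENNReal.ofReal (4 * K) * (ENNReal.ofReal K * ENNReal.ofReal ((φ z) ^ (-α - 1))) := by
        gcongr
    _ = _ := by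
        rw [ENNReal.ofReal_mul (by positivity : (0:ℝ) ≤ 4 * K),
          ENNReal.ofReal_mul (by norm_num : (0:ℝ) ≤ 4), ← h4]
        ring

end aux808

section aux808b

open ENNReal

variable {φ : ℂ → ℝ} {α : ℝ}

theorem tail_le (μ : Measure ℂ) (F : ℂ → ℝ) (hF : ∀ x, 0 ≤ F x) (t : ℝ≥0∞) :
    μ {x | μ {x' | F x ≤ F x'} ≤ t} ≤ t := by
  set T : Set ℂ := {x | μ {x' | F x ≤ F x'} ≤ t} with hT
  rcases T.eq_empty_or_nonempty with h | h
  · rw [h]; simp
  · have hne : (F '' T).Nonempty := h.image _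
    have hbd : BddBelow (F '' T) := ⟨0, by rintro _ ⟨x, _, rfl⟩; exact hF x⟩
    obtain ⟨u, hu, hlim, hmem⟩ := exists_seq_tendsto_sInf hne hbd
    by_cases hr : sInf (F '' T) ∈ F '' T
    · obtain ⟨x, hx, hxr⟩ := hr
      refine (measure_mono ?_).trans hx
      intro y hy
      show F x ≤ F y
      rw [hxr]; exact csInf_le hbd ⟨y, hy, rfl⟩
    · have hsub : T ⊆ ⋃ n, {x' | u n ≤ F x'} := by
        intro y hy
        have h1 : sInf (F '' T) < F y :=
          lt_of_le_of_ne (csInf_le hbd ⟨y, hy, rfl⟩) (fun h => hr (h ▸ ⟨y, hy, rfl⟩))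
        obtain ⟨n, hn⟩ := (hlim.eventually (gt_mem_nhds h1)).exists
        exact mem_iUnion.2 ⟨n, hn.le⟩
      refine (measure_mono hsub).trans ?_
      have hmono : Monotone fun n => {x' | u n ≤ F x'} := fun m n hmn x hx => (hu hmn).trans hx
      rw [hmono.measure_iUnion]
      refine iSup_le fun n => ?_
      obtain ⟨x, hx, hxe⟩ := hmem n
      rw [← hxe]; exact hx

theorem kE_le_of_dd {c : ℝ} (hc : 0 < c) {z x z' x' : ℂ} (hp : 0 < dd φ z x)
    (hle : dd φ z x ≤ c * dd φ z' x') : kE φ z' x' ≤ ENNReal.ofReal (c ^ 2) * kE φ z x := by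
  have hp' : 0 < dd φ z' x' := by
    by_contra h
    push Not at h
    nlinarith
  unfold kE
  rw [← ENNReal.ofReal_mul (by positivity)]
  apply ENNReal.ofReal_le_ofReal
  rw [mul_one_div, div_le_div_iff₀ (by positivity) (by positivity), one_mul, ← mul_pow]
  exact pow_le_pow_left₀ hp.le hle 2

theorem Dl_le (hφ : ∀ z, 0 ≤ φ z) (hL : LipschitzWith 1 φ) {z z' : ℂ} (hz : 0 < φ z)
    (h : ‖z - z'‖ ≤ φ z / 2) : φ z / 2 ≤ φ z' ∧ Dl φ z' ≤ 9 * Dl φ z := by
  have h1 := lip808 hL z z'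
  have h2 : φ z / 2 ≤ φ z' := by linarith
  refine ⟨h2, ?_⟩
  have hc : Measurable φ := hL.continuous.measurable
  unfold Dl
  rw [← lintegral_const_mul _ (meas_fk hc z)]
  apply lintegral_mono; intro x
  have h3 : kE φ z' x ≤ ENNReal.ofReal (3 ^ 2) * kE φ z x := by
    apply kE_le_of_dd (by norm_num) (dd_pos hφ hz x)
    unfold dd
    have := hφ x
    have h4 : ‖z - x‖ ≤ ‖z - z'‖ + ‖z' - x‖ := by
      have := norm_add_le (z - z') (z' - x)
      simpa using this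
    have := norm_nonneg (z' - x)
    linarith
  have h5 : ENNReal.ofReal ((3:ℝ) ^ 2) = 9 := by
    rw [show ((3:ℝ)^2) = (9:ℝ) by norm_num]; simp
  rw [h5] at h3
  calc ENNReal.ofReal (φ x) * kE φ z' x ≤ ENNReal.ofReal (φ x) * (9 * kE φ z x) := by gcongr
    _ = _ := by ring

/-- real form -/
theorem D_le (hφ : ∀ z, 0 ≤ φ z) (hφ1 : ∀ z, ‖z‖ = 1 → φ z ≤ 1) (hL : LipschitzWith 1 φ)
    {z z' : ℂ} (hz : 0 < φ z)
    (h : ‖z - z'‖ ≤ φ z / 2) : (Dl φ z').toReal ≤ 9 * (Dl φ z).toReal := by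
  have h1 := (Dl_le hφ hL hz h).2
  have h2 : 9 * Dl φ z ≠ ∞ := ENNReal.mul_ne_top (by simp) (Dl_lt_top hφ hφ1 hz).ne
  have h3 := ENNReal.toReal_mono h2 h1
  simpa using h3

/-- the weight -/
def WW (α : ℝ) (φ : ℂ → ℝ) (z : ℂ) : ℝ := (φ z) ^ (-α) * (1 + (Dl φ z).toReal)

/-- the auxiliary function -/
def ps0 (α : ℝ) (φ : ℂ → ℝ) (z : ℂ) : ℝ := φ z * (1 + (Dl φ z).toReal) ^ (-(1 / α))

theorem ps0_nonneg (hφ : ∀ z, 0 ≤ φ z) (z : ℂ) : 0 ≤ ps0 α φ z := by
  unfold ps0; have := hφ z; positivity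

theorem ps0_le (h0 : 0 < α) (hφ : ∀ z, 0 ≤ φ z) (z : ℂ) : ps0 α φ z ≤ φ z := by
  unfold ps0
  have h1 : (1 + (Dl φ z).toReal) ^ (-(1 / α)) ≤ 1 := by
    apply Real.rpow_le_one_of_one_le_of_nonpos
    · have : 0 ≤ (Dl φ z).toReal := ENNReal.toReal_nonneg
      linarith
    · have : 0 < 1 / α := by positivity
      linarith
  have := hφ z
  nlinarith

theorem ps0_pos {z : ℂ} (hz : 0 < φ z) : 0 < ps0 α φ z := by
  unfold ps0
  have : 0 ≤ (Dl φ z).toReal := ENNReal.toReal_nonneg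
  positivity

theorem ps0_rpow (h0 : 0 < α) {z : ℂ} (hz : 0 < φ z) : (ps0 α φ z) ^ (-α) = WW α φ z := by
  unfold ps0 WW
  have h1 : 0 ≤ (Dl φ z).toReal := ENNReal.toReal_nonneg
  rw [Real.mul_rpow hz.le (by positivity), ← Real.rpow_mul (by positivity)]
  have : -(1 / α) * -α = 1 := by field_simp
  rw [this, Real.rpow_one]

/-- comparison constant -/
def cc (α : ℝ) : ℝ := 9 ^ (-(1 / α)) / 2

theorem cc_pos : 0 < cc α := by unfold cc; positivity

theorem cc_le (h0 : 0 < α) : cc α ≤ 1 / 2 := by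
  unfold cc
  have : (9:ℝ) ^ (-(1 / α)) ≤ 1 := by
    apply Real.rpow_le_one_of_one_le_of_nonpos (by norm_num)
    have : 0 < 1 / α := by positivity
    linarith
  linarith

theorem ps0_ge (h0 : 0 < α) (hφ : ∀ z, 0 ≤ φ z) (hφ1 : ∀ z, ‖z‖ = 1 → φ z ≤ 1)
    (hL : LipschitzWith 1 φ)
    {z z' : ℂ} (hz : 0 < φ z) (h : ‖z - z'‖ ≤ φ z / 2) : cc α * ps0 α φ z ≤ ps0 α φ z' := by
  have h1 := (Dl_le hφ hL hz h).1
  have h2 := D_le hφ hφ1 hL hz h
  unfold ps0 cc
  have h3 : 0 ≤ (Dl φ z).toReal := ENNReal.toReal_nonneg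
  have h3' : 0 ≤ (Dl φ z').toReal := ENNReal.toReal_nonneg
  have h4 : (9:ℝ) ^ (-(1 / α)) * (1 + (Dl φ z).toReal) ^ (-(1 / α))
      ≤ (1 + (Dl φ z').toReal) ^ (-(1 / α)) := by
    rw [← Real.mul_rpow (by norm_num) (by positivity)]
    apply Real.rpow_le_rpow_of_nonpos (by positivity) (by nlinarith)
    have : 0 < 1 / α := by positivity
    linarith
  calc 9 ^ (-(1 / α)) / 2 * (φ z * (1 + (Dl φ z).toReal) ^ (-(1 / α)))
      = (φ z / 2) * ((9:ℝ) ^ (-(1 / α)) * (1 + (Dl φ z).toReal) ^ (-(1 / α))) := by ring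
    _ ≤ φ z' * (1 + (Dl φ z').toReal) ^ (-(1 / α)) := by
        apply mul_le_mul h1 h4 (by positivity) (hφ z')

/-- the regularised function -/
def ps (α : ℝ) (φ : ℂ → ℝ) (z : ℂ) : ℝ := ⨅ x : Metric.sphere (0:ℂ) 1, (ps0 α φ x + ‖z - x‖)

instance ne_sphere : Nonempty (Metric.sphere (0:ℂ) 1) := ⟨⟨1, by simp⟩⟩

theorem ps_bdd (hφ : ∀ z, 0 ≤ φ z) (z : ℂ) :
    BddBelow (range fun x : Metric.sphere (0:ℂ) 1 => ps0 α φ x + ‖z - x‖) :=
  ⟨0, by rintro _ ⟨x, rfl⟩; have := ps0_nonneg (α := α) hφ x; positivity⟩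

theorem ps_le (hφ : ∀ z, 0 ≤ φ z) (z : ℂ) {x : ℂ} (hx : ‖x‖ = 1) :
    ps α φ z ≤ ps0 α φ x + ‖z - x‖ :=
  ciInf_le (ps_bdd hφ z) (⟨x, by simpa using hx⟩ : Metric.sphere (0:ℂ) 1)

theorem le_ps {z : ℂ} {c : ℝ} (h : ∀ x : ℂ, ‖x‖ = 1 → c ≤ ps0 α φ x + ‖z - x‖) : c ≤ ps α φ z :=
  le_ciInf fun x => h x (by simpa using x.2)

theorem ps_lip (hφ : ∀ z, 0 ≤ φ z) : LipschitzWith 1 (ps α φ) := by
  apply LipschitzWith.of_le_add
  intro z z'
  rw [dist_eq_norm]
  have : ps α φ z - ‖z - z'‖ ≤ ps α φ z' := by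
    apply le_ps
    intro x hx
    have h1 := ps_le (α := α) hφ z hx
    have h2 : ‖z - x‖ ≤ ‖z - z'‖ + ‖z' - x‖ := by
      have := norm_add_le (z - z') (z' - x)
      simpa using this
    linarith
  linarith

theorem ps_nonneg (hφ : ∀ z, 0 ≤ φ z) (z : ℂ) : 0 ≤ ps α φ z := by
  apply le_ps
  intro x hx
  have := ps0_nonneg (α := α) hφ x
  positivity

theorem ps_ge_dist (hφ : ∀ z, 0 ≤ φ z) (z : ℂ) : |1 - ‖z‖| ≤ ps α φ z := by
  apply le_ps
  intro x hx
  have h1 := ps0_nonneg (α := α) hφ x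
  have h2 : |‖z‖ - ‖x‖| ≤ ‖z - x‖ := abs_norm_sub_norm_le z x
  rw [hx, abs_sub_comm] at h2
  linarith

theorem ps_le_ps0 (hφ : ∀ z, 0 ≤ φ z) {z : ℂ} (hz : ‖z‖ = 1) : ps α φ z ≤ ps0 α φ z := by
  have h := ps_le (α := α) hφ z hz
  rw [sub_self, norm_zero, add_zero] at h
  exact h

theorem ps_le_three (h0 : 0 < α) (hφ : ∀ z, 0 ≤ φ z) (hL : LipschitzWith 1 φ)
    (hd : ∀ z, |1 - ‖z‖| ≤ φ z) (hφ1 : ∀ z, ‖z‖ = 1 → φ z ≤ 1) (z : ℂ) :
    ps α φ z ≤ 3 * φ z := by
  rcases eq_or_ne z 0 with rfl | hz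
  · have h1 : (1:ℝ) ≤ φ 0 := by simpa using hd 0
    have h2 := ps_le (α := α) hφ 0 (x := 1) (by simp)
    have h3 := ps0_le h0 hφ 1
    have h4 := hφ1 1 (by simp)
    simp at h2
    linarith
  · have hn : 0 < ‖z‖ := norm_pos_iff.2 hz
    set x : ℂ := z / (‖z‖ : ℂ) with hx
    have hx1 : ‖x‖ = 1 := by
      rw [hx, norm_div]; simp [hn.ne']
    have hzx : ‖z - x‖ = |1 - ‖z‖| := by
      have : z - x = x * ((‖z‖ : ℂ) - 1) := by
        rw [hx]
        have : (‖z‖ : ℂ) ≠ 0 := by exact_mod_cast hn.ne'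
        field_simp
      rw [this, norm_mul, hx1, one_mul, abs_sub_comm]
      rw [← Complex.ofReal_one, ← Complex.ofReal_sub, Complex.norm_real, Real.norm_eq_abs]
    have h1 := ps_le (α := α) hφ z hx1
    have h2 := ps0_le h0 hφ x
    have h3 := lip808 hL x z
    rw [norm_sub_rev x z] at h3
    have h4 := hd z
    linarith

theorem ps_ge_ps0 (h0 : 0 < α) (hφ : ∀ z, 0 ≤ φ z) (hφ1 : ∀ z, ‖z‖ = 1 → φ z ≤ 1)
    (hL : LipschitzWith 1 φ) {z : ℂ} (hz : 0 < φ z) : cc α * ps0 α φ z ≤ ps α φ z := by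
  apply le_ps
  intro x hx
  have hp := ps0_nonneg (α := α) hφ x
  rcases le_total ‖z - x‖ (φ z / 2) with h | h
  · have := ps0_ge h0 hφ hφ1 hL hz h
    have := norm_nonneg (z - x)
    linarith
  · have h1 := ps0_le h0 hφ z
    have h2 := cc_le h0
    have h3 := ps0_nonneg (α := α) hφ z
    nlinarith

/-- dyadic bound -/
theorem int_D_pow {μ : Measure ℂ} {G : ℂ → ℝ≥0∞} (hG : Measurable G) (hfin : ∀ᵐ x ∂μ, G x < ∞)
    (ht : ∀ t, μ {x | G x ≤ t} ≤ 4 * t) {s : ℝ} (hs : 1 < s) :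
    ∫⁻ x, ENNReal.ofReal ((1 + (G x).toReal) ^ (-s)) ∂μ
      ≤ 8 * (1 - ENNReal.ofReal (2 * 2 ^ (-s)))⁻¹ := by
  set r : ℝ := 2 ^ (-s) with hr
  have hr0 : 0 < r := by positivity
  have hpt : ∀ᵐ x ∂μ, ENNReal.ofReal ((1 + (G x).toReal) ^ (-s))
      ≤ ∑' n : ℕ, ENNReal.ofReal (r ^ n) *
        ({x | G x ≤ ENNReal.ofReal (2 ^ (n + 1))} : Set ℂ).indicator 1 x := by
    filter_upwards [hfin] with x hx
    have h0 : 0 ≤ (G x).toReal := ENNReal.toReal_nonneg
    obtain ⟨n, hn1, hn2⟩ := exists_nat_pow_near (x := 1 + (G x).toReal) (y := 2)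
      (by linarith) (by norm_num)
    refine le_trans ?_ (ENNReal.le_tsum n)
    have hmem : x ∈ ({x | G x ≤ ENNReal.ofReal (2 ^ (n + 1))} : Set ℂ) := by
      show G x ≤ _
      rw [← ENNReal.ofReal_toReal hx.ne]
      apply ENNReal.ofReal_le_ofReal
      linarith
    rw [indicator_of_mem hmem, Pi.one_apply, mul_one]
    apply ENNReal.ofReal_le_ofReal
    have e : r ^ n = ((2:ℝ) ^ n) ^ (-s) := by
      rw [hr, ← Real.rpow_natCast, ← Real.rpow_natCast, ← Real.rpow_mul (by norm_num),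
        ← Real.rpow_mul (by norm_num), mul_comm]
    rw [e]
    apply Real.rpow_le_rpow_of_nonpos (by positivity) hn1
    linarith
  have hset : ∀ n : ℕ, MeasurableSet ({x | G x ≤ ENNReal.ofReal (2 ^ (n + 1))} : Set ℂ) :=
    fun n => measurableSet_le hG measurable_const
  calc ∫⁻ x, ENNReal.ofReal ((1 + (G x).toReal) ^ (-s)) ∂μ
      ≤ ∫⁻ x, ∑' n : ℕ, ENNReal.ofReal (r ^ n) *
        ({x | G x ≤ ENNReal.ofReal (2 ^ (n + 1))} : Set ℂ).indicator 1 x ∂μ :=
        lintegral_mono_ae hpt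
    _ = ∑' n : ℕ, ∫⁻ x, ENNReal.ofReal (r ^ n) *
        ({x | G x ≤ ENNReal.ofReal (2 ^ (n + 1))} : Set ℂ).indicator 1 x ∂μ := by
        apply lintegral_tsum
        intro n
        exact (measurable_const.mul (measurable_one.indicator (hset n))).aemeasurable
    _ = ∑' n : ℕ, ENNReal.ofReal (r ^ n) * μ {x | G x ≤ ENNReal.ofReal (2 ^ (n + 1))} := by
        congr 1; funext n
        rw [lintegral_const_mul _ (measurable_one.indicator (hset n)),
          lintegral_indicator_one (hset n)]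
    _ ≤ ∑' n : ℕ, ENNReal.ofReal (r ^ n) * (4 * ENNReal.ofReal (2 ^ (n + 1))) := by
        apply ENNReal.tsum_le_tsum; intro n
        gcongr
        exact ht _
    _ = ∑' n : ℕ, 8 * (ENNReal.ofReal (2 * r)) ^ n := by
        congr 1; funext n
        have h4 : (4:ℝ≥0∞) = ENNReal.ofReal 4 := by simp
        have h8 : (8:ℝ≥0∞) = ENNReal.ofReal 8 := by simp
        rw [h4, h8, ← ENNReal.ofReal_pow (by positivity), ← ENNReal.ofReal_mul (by positivity),
          ← ENNReal.ofReal_mul (by positivity), ← ENNReal.ofReal_mul (by positivity)]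
        congr 1
        rw [mul_pow, pow_succ]; ring
    _ = _ := by
        rw [ENNReal.tsum_mul_left, ENNReal.tsum_geometric]

theorem const_fin {s : ℝ} (hs : 1 < s) :
    (8 * (1 - ENNReal.ofReal (2 * 2 ^ (-s)))⁻¹ : ℝ≥0∞) ≠ ∞ := by
  apply ENNReal.mul_ne_top (by simp)
  rw [ENNReal.inv_ne_top]
  have h1 : (2:ℝ) * 2 ^ (-s) < 1 := by
    have : (2:ℝ) * 2 ^ (-s) = 2 ^ (1 - s) := by
      rw [Real.rpow_sub (by norm_num), Real.rpow_one, Real.rpow_neg (by norm_num)]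
      ring
    rw [this]
    apply Real.rpow_lt_one_of_one_lt_of_neg (by norm_num)
    linarith
  have h2 : ENNReal.ofReal (2 * 2 ^ (-s)) < 1 := by
    rw [← ENNReal.ofReal_one]
    exact (ENNReal.ofReal_lt_ofReal_iff (by norm_num)).2 h1
  exact (tsub_pos_of_lt h2).ne'

theorem tail_Dl (hφ : ∀ z, 0 ≤ φ z) (hc : Measurable φ) (hE : ∀ᵐ x ∂sg, 0 < φ x) (ζ : ℂ)
    (t : ℝ≥0∞) :
    (sg.withDensity fun x => ENNReal.ofReal (φ x) * kE φ x ζ) {x | Dl φ x ≤ t} ≤ 4 * t := by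
  set μ := sg.withDensity fun x => ENNReal.ofReal (φ x) * kE φ x ζ with hμ
  have hE' : ∀ᵐ x ∂μ, 0 < φ x := (withDensity_absolutelyContinuous _ _).ae_le hE
  refine le_trans (measure_mono_ae ?_)
    (tail_le μ (fun x => dd φ x ζ) (fun x => dd_nonneg hφ x ζ) (4 * t))
  filter_upwards [hE'] with x hx
  intro hxt
  show μ {x' | dd φ x ζ ≤ dd φ x' ζ} ≤ 4 * t
  have hxt' : Dl φ x ≤ t := hxt
  refine le_trans ?_ (mul_le_mul_right hxt' 4)
  have hms : MeasurableSet {x' | dd φ x ζ ≤ dd φ x' ζ} := by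
    apply measurableSet_le measurable_const
    unfold dd
    exact ((measurable_id.sub measurable_const).norm.add hc).add measurable_const
  rw [hμ, withDensity_apply _ hms]
  unfold Dl
  rw [← lintegral_const_mul _ (meas_fk hc x)]
  refine le_trans ?_ (setLIntegral_le_lintegral {x' | dd φ x ζ ≤ dd φ x' ζ} _)
  apply setLIntegral_mono' hms
  intro x' hx'
  have hx'' : dd φ x ζ ≤ dd φ x' ζ := hx'
  have h3 : kE φ x' ζ ≤ ENNReal.ofReal (2 ^ 2) * kE φ x x' := by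
    apply kE_le_of_dd (by norm_num) (dd_pos hφ hx x')
    have h1 := dd_tri hφ x ζ x'
    rw [dd_comm φ ζ x'] at h1
    linarith
  have h5 : ENNReal.ofReal ((2:ℝ) ^ 2) = 4 := by
    rw [show ((2:ℝ)^2) = (4:ℝ) by norm_num]; simp
  rw [h5] at h3
  calc ENNReal.ofReal (φ x') * kE φ x' ζ ≤ ENNReal.ofReal (φ x') * (4 * kE φ x x') := by gcongr
    _ = _ := by ring

theorem ring_bound (ζ : ℂ) {r : ℝ} (hr : 0 < r) :
    ∫⁻ z, ({z | r ≤ ‖z - ζ‖} : Set ℂ).indicator
      (fun z => ENNReal.ofReal (1 / ‖z - ζ‖ ^ 2)) z ∂sg ≤ ENNReal.ofReal (28 / r) := by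
  have hpt : ∀ z, ({z | r ≤ ‖z - ζ‖} : Set ℂ).indicator
      (fun z => ENNReal.ofReal (1 / ‖z - ζ‖ ^ 2)) z
      ≤ ∑' n : ℕ, ENNReal.ofReal ((1 / 4) ^ n / r ^ 2) *
        (Metric.closedBall ζ (2 ^ (n + 1) * r)).indicator 1 z := by
    intro z
    by_cases hz : z ∈ ({z | r ≤ ‖z - ζ‖} : Set ℂ)
    · rw [indicator_of_mem hz]
      have hz' : r ≤ ‖z - ζ‖ := hz
      obtain ⟨n, hn1, hn2⟩ := exists_nat_pow_near (x := ‖z - ζ‖ / r) (y := 2)
        ((one_le_div hr).2 hz') (by norm_num)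
      rw [le_div_iff₀ hr] at hn1
      rw [div_lt_iff₀ hr] at hn2
      refine le_trans ?_ (ENNReal.le_tsum n)
      have hmem : z ∈ Metric.closedBall ζ (2 ^ (n + 1) * r) := by
        rw [Metric.mem_closedBall, dist_eq_norm]; exact hn2.le
      rw [indicator_of_mem hmem, Pi.one_apply, mul_one]
      apply ENNReal.ofReal_le_ofReal
      have e : (1 / 4 : ℝ) ^ n / r ^ 2 = 1 / (2 ^ n * r) ^ 2 := by
        rw [mul_pow, ← pow_mul, mul_comm n 2, pow_mul]
        norm_num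
        field_simp
        rw [← mul_pow]; norm_num
      rw [e]
      apply one_div_le_one_div_of_le (by positivity)
      exact pow_le_pow_left₀ (by positivity) hn1 2
    · rw [indicator_of_notMem hz]; exact bot_le
  calc _ ≤ ∫⁻ z, ∑' n : ℕ, ENNReal.ofReal ((1 / 4) ^ n / r ^ 2) *
        (Metric.closedBall ζ (2 ^ (n + 1) * r)).indicator 1 z ∂sg := lintegral_mono hpt
    _ = ∑' n : ℕ, ∫⁻ z, ENNReal.ofReal ((1 / 4) ^ n / r ^ 2) *
        (Metric.closedBall ζ (2 ^ (n + 1) * r)).indicator 1 z ∂sg := by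
        apply lintegral_tsum
        intro n
        exact (measurable_const.mul
          (measurable_one.indicator Metric.isClosed_closedBall.measurableSet)).aemeasurable
    _ = ∑' n : ℕ, ENNReal.ofReal ((1 / 4) ^ n / r ^ 2) *
          sg (Metric.closedBall ζ (2 ^ (n + 1) * r)) := by
        congr 1; funext n
        rw [lintegral_const_mul _ (measurable_one.indicator Metric.isClosed_closedBall.measurableSet),
          lintegral_indicator_one Metric.isClosed_closedBall.measurableSet]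
    _ ≤ ∑' n : ℕ, ENNReal.ofReal ((1 / 4) ^ n / r ^ 2) *
          ENNReal.ofReal (7 * (2 ^ (n + 1) * r)) := by
        apply ENNReal.tsum_le_tsum; intro n
        gcongr
        exact sg_ball_le ζ (by positivity)
    _ = ∑' n : ℕ, ENNReal.ofReal (14 / r * (1 / 2) ^ n) := by
        congr 1; funext n
        rw [← ENNReal.ofReal_mul (by positivity)]
        congr 1
        have : (1 / 4 : ℝ) ^ n = (1 / 2) ^ n * (1 / 2) ^ n := by
          rw [← mul_pow]; norm_num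
        have h2 : (1 / 2 : ℝ) ^ n * 2 ^ n = 1 := by
          rw [← mul_pow]; norm_num
        rw [this, pow_succ]
        field_simp
        linear_combination 14 * h2
    _ = ENNReal.ofReal (∑' n : ℕ, 14 / r * (1 / 2) ^ n) := by
        rw [ENNReal.ofReal_tsum_of_nonneg]
        · intro n; positivity
        · exact summable_geometric_two.mul_left _
    _ = _ := by
        rw [tsum_mul_left, tsum_geometric_two]
        congr 1; ring

end aux808b

section aux808c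

open ENNReal

variable {φ : ℂ → ℝ} {α : ℝ}

theorem last_item (h0 : 0 < α) (h1 : α < 1) (hφ : ∀ z, 0 ≤ φ z)
    (hφ1 : ∀ z, ‖z‖ = 1 → φ z ≤ 1) (hL : LipschitzWith 1 φ) (hE : ∀ᵐ x ∂sg, 0 < φ x) :
    ∃ K : ℝ, ∀ ζ, ‖ζ‖ = 1 →
        ∫⁻ z in {z | ps α φ z / 4 ≤ ‖z - ζ‖}, ENNReal.ofReal (ps α φ z / ‖z - ζ‖ ^ 2) ∂sg ≤
          ENNReal.ofReal K := by
  have hc : Measurable φ := hL.continuous.measurable
  have hs : 1 < 1 / α := by rw [lt_div_iff₀ h0]; linarith
  set s : ℝ := 1 / α with hsdef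
  set C0 : ℝ≥0∞ := 8 * (1 - ENNReal.ofReal (2 * 2 ^ (-s)))⁻¹ with hC0
  have hC0f : C0 ≠ ∞ := const_fin hs
  set c : ℝ := cc α with hcdef
  have hcp : 0 < c := cc_pos
  refine ⟨100 * C0.toReal + 140 / c ^ 2, fun ζ hζ => ?_⟩
  have hψm : Measurable (ps α φ) := (ps_lip (α := α) hφ).continuous.measurable
  -- the pointwise bound
  have hpt : ∀ᵐ z ∂sg, ({z | ps α φ z / 4 ≤ ‖z - ζ‖} : Set ℂ).indicator
      (fun z => ENNReal.ofReal (ps α φ z / ‖z - ζ‖ ^ 2)) z
      ≤ 100 * ((ENNReal.ofReal (φ z) * kE φ z ζ) * ENNReal.ofReal ((1 + (Dl φ z).toReal) ^ (-s)))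
        + ENNReal.ofReal (ps α φ ζ / c ^ 2) *
          ({z | ps α φ ζ / 5 ≤ ‖z - ζ‖} : Set ℂ).indicator
            (fun z => ENNReal.ofReal (1 / ‖z - ζ‖ ^ 2)) z := by
    filter_upwards [ae_circle808, hE] with z hz hz0
    by_cases hmem : z ∈ ({z | ps α φ z / 4 ≤ ‖z - ζ‖} : Set ℂ)
    · rw [indicator_of_mem hmem]
      have hmem' : ps α φ z / 4 ≤ ‖z - ζ‖ := hmem
      have hpz : ps α φ z ≤ ps0 α φ z := ps_le_ps0 hφ hz
      have hn := norm_nonneg (z - ζ)
      rcases le_or_gt (φ z / 4) ‖z - ζ‖ with hA | hB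
      · refine le_trans ?_ (le_add_right le_rfl)
        have hzp : 0 < ‖z - ζ‖ := lt_of_lt_of_le (by linarith) hA
        have hdd : dd φ z ζ ≤ 10 * ‖z - ζ‖ := by
          unfold dd
          have := lip808 hL ζ z
          rw [norm_sub_rev ζ z] at this
          linarith
        have hddp : 0 < dd φ z ζ := dd_pos hφ hz0 ζ
        have h100 : (100:ℝ≥0∞) = ENNReal.ofReal 100 := by simp
        unfold kE
        rw [h100, ← ENNReal.ofReal_mul hz0.le, ← ENNReal.ofReal_mul (by positivity),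
          ← ENNReal.ofReal_mul (by positivity)]
        apply ENNReal.ofReal_le_ofReal
        have e1 : 1 / ‖z - ζ‖ ^ 2 ≤ 100 * (1 / dd φ z ζ ^ 2) := by
          rw [mul_one_div, div_le_div_iff₀ (by positivity) (by positivity), one_mul]
          calc dd φ z ζ ^ 2 ≤ (10 * ‖z - ζ‖) ^ 2 := pow_le_pow_left₀ hddp.le hdd 2
            _ = 100 * ‖z - ζ‖ ^ 2 := by ring
        calc ps α φ z / ‖z - ζ‖ ^ 2 = ps α φ z * (1 / ‖z - ζ‖ ^ 2) := by ring
          _ ≤ (φ z * (1 + (Dl φ z).toReal) ^ (-s)) * (100 * (1 / dd φ z ζ ^ 2)) := by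
              apply mul_le_mul hpz e1 (by positivity)
              exact ps0_nonneg (α := α) hφ z
          _ = _ := by ring
      · refine le_trans ?_ (le_add_left le_rfl)
        have h2 : ‖z - ζ‖ ≤ φ z / 2 := by linarith
        have h3 := ps0_ge h0 hφ hφ1 hL hz0 h2
        have h4 := (Dl_le hφ hL hz0 h2).1
        have hζ0 : 0 < φ ζ := by linarith
        have h5 := ps_ge_ps0 h0 hφ hφ1 hL hζ0
        have h6 : ps α φ z ≤ ps α φ ζ / c ^ 2 := by
          rw [le_div_iff₀ (by positivity)]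
          calc ps α φ z * c ^ 2 ≤ ps0 α φ z * c ^ 2 := by
                apply mul_le_mul_of_nonneg_right hpz (by positivity)
            _ = c * (c * ps0 α φ z) := by ring
            _ ≤ c * ps0 α φ ζ := mul_le_mul_of_nonneg_left h3 hcp.le
            _ ≤ ps α φ ζ := h5
        have h7 : ps α φ ζ ≤ ps α φ z + ‖z - ζ‖ := by
          have := lip808 (ps_lip (α := α) hφ) ζ z
          rwa [norm_sub_rev ζ z] at this
        have hmem2 : z ∈ ({z | ps α φ ζ / 5 ≤ ‖z - ζ‖} : Set ℂ) := by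
          show ps α φ ζ / 5 ≤ ‖z - ζ‖
          linarith
        rw [indicator_of_mem hmem2, ← ENNReal.ofReal_mul
          (div_nonneg (ps_nonneg (α := α) hφ ζ) (by positivity))]
        apply ENNReal.ofReal_le_ofReal
        rw [div_eq_mul_one_div]
        exact mul_le_mul_of_nonneg_right h6 (by positivity)
    · rw [indicator_of_notMem hmem]; exact bot_le
  have hms : MeasurableSet {z | ps α φ z / 4 ≤ ‖z - ζ‖} :=
    measurableSet_le (hψm.div_const 4) (measurable_id.sub measurable_const).norm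
  rw [← lintegral_indicator hms]
  refine (lintegral_mono_ae hpt).trans ?_
  have hfk : Measurable fun z => ENNReal.ofReal (φ z) * kE φ z ζ := by
    have h : (fun z => ENNReal.ofReal (φ z) * kE φ z ζ)
        = fun z => ENNReal.ofReal (φ z) * kE φ ζ z := by
      funext z; rw [kE_comm]
    rw [h]; exact meas_fk hc ζ
  have hDm : Measurable fun z => ENNReal.ofReal ((1 + (Dl φ z).toReal) ^ (-s)) :=
    ((measurable_const.add (meas_Dl hc).ennreal_toReal).pow_const _).ennreal_ofReal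
  have hm1 : Measurable fun z => 100 * ((ENNReal.ofReal (φ z) * kE φ z ζ) *
      ENNReal.ofReal ((1 + (Dl φ z).toReal) ^ (-s))) := measurable_const.mul (hfk.mul hDm)
  rw [lintegral_add_left hm1]
  have hfm : Measurable fun z => (ENNReal.ofReal (φ z) * kE φ z ζ) *
      ENNReal.ofReal ((1 + (Dl φ z).toReal) ^ (-s)) := hfk.mul hDm
  rw [lintegral_const_mul _ hfm]
  have hI1 : ∫⁻ z, (ENNReal.ofReal (φ z) * kE φ z ζ) *
      ENNReal.ofReal ((1 + (Dl φ z).toReal) ^ (-s)) ∂sg ≤ C0 := by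
    have e := lintegral_withDensity_eq_lintegral_mul sg hfk hDm
    have e2 : ∫⁻ z, (ENNReal.ofReal (φ z) * kE φ z ζ) *
      ENNReal.ofReal ((1 + (Dl φ z).toReal) ^ (-s)) ∂sg
      = ∫⁻ z, ENNReal.ofReal ((1 + (Dl φ z).toReal) ^ (-s))
        ∂(sg.withDensity fun z => ENNReal.ofReal (φ z) * kE φ z ζ) := by
      rw [e]; rfl
    rw [e2]
    apply int_D_pow (meas_Dl hc) _ (tail_Dl hφ hc hE ζ) hs
    have hE' : ∀ᵐ x ∂(sg.withDensity fun z => ENNReal.ofReal (φ z) * kE φ z ζ), 0 < φ x :=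
      (withDensity_absolutelyContinuous _ _).ae_le hE
    filter_upwards [hE'] with x hx
    exact Dl_lt_top hφ hφ1 hx
  have hI2 : ∫⁻ z, ENNReal.ofReal (ps α φ ζ / c ^ 2) *
          ({z | ps α φ ζ / 5 ≤ ‖z - ζ‖} : Set ℂ).indicator
            (fun z => ENNReal.ofReal (1 / ‖z - ζ‖ ^ 2)) z ∂sg ≤ ENNReal.ofReal (140 / c ^ 2) := by
    have hmi : Measurable (({z | ps α φ ζ / 5 ≤ ‖z - ζ‖} : Set ℂ).indicator
            (fun z => ENNReal.ofReal (1 / ‖z - ζ‖ ^ 2))) := by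
      apply Measurable.indicator
      · exact (measurable_const.div ((measurable_id.sub measurable_const).norm.pow_const
          2)).ennreal_ofReal
      · exact measurableSet_le measurable_const (measurable_id.sub measurable_const).norm
    rw [lintegral_const_mul _ hmi]
    rcases (ps_nonneg (α := α) hφ ζ).eq_or_lt with h | h
    · rw [← h]; simp
    · have hr : 0 < ps α φ ζ / 5 := by positivity
      refine (mul_le_mul_right (ring_bound ζ hr) _).trans ?_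
      rw [← ENNReal.ofReal_mul (by positivity)]
      apply ENNReal.ofReal_le_ofReal
      apply le_of_eq
      field_simp
      norm_num
  calc _ ≤ 100 * C0 + ENNReal.ofReal (140 / c ^ 2) := by gcongr
    _ = ENNReal.ofReal (100 * C0.toReal + 140 / c ^ 2) := by
        rw [ENNReal.ofReal_add (by positivity) (by positivity),
          ENNReal.ofReal_mul (by norm_num), ENNReal.ofReal_toReal hC0f]
        simp

end aux808c


end SW

open SW in
theorem second_weight {α : ℝ} (h0 : 0 < α) (h1 : α < 1) {φ : ℂ → ℝ} (hL : LipschitzWith 1 φ)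
    (hd : ∀ z, |1 - ‖z‖| ≤ φ z) (hφ1 : ∀ z, ‖z‖ = 1 → φ z ≤ 1) (hE : sg {z | φ z = 0} = 0)
    (hint : Integrable (fun ζ => (φ ζ) ^ (-α)) sg)
    (hK : ∃ K : ℝ, ∀ z, ‖z‖ = 1 → 0 < φ z →
        ∫ ζ, (φ ζ) ^ (-α) / (‖z - ζ‖ + φ z + φ ζ) ^ 2 ∂sg ≤ K * (φ z) ^ (-α - 1)) :
    ∃ W ψ : ℂ → ℝ, Measurable W ∧ (∀ z, 0 ≤ W z) ∧ Integrable W sg ∧ LipschitzWith 1 ψ ∧
      (∀ z, |1 - ‖z‖| ≤ ψ z) ∧ (∀ z, ‖z‖ = 1 → ψ z ≤ φ z) ∧ (∀ z, ψ z ≤ 3 * φ z) ∧
      (∀ z, ψ z = 0 → φ z = 0) ∧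
      (∃ K : ℝ, 0 < K ∧ ∀ z, ‖z‖ = 1 → 0 < φ z →
        (∀ z', ‖z'‖ = 1 → ‖z - z'‖ ≤ φ z / 2 → W z' ≤ K * W z) ∧
        (φ z) ^ (-α) ≤ W z ∧ (ψ z) ^ (-α) ≤ K * W z ∧ W z ≤ K * (ψ z) ^ (-α) ∧
        ∫ ζ, W ζ / (‖z - ζ‖ + φ z + φ ζ) ^ 2 ∂sg ≤ K * (W z / φ z)) ∧
      (∃ K : ℝ, ∀ ζ, ‖ζ‖ = 1 →
        ∫⁻ z in {z | ψ z / 4 ≤ ‖z - ζ‖}, ENNReal.ofReal (ψ z / ‖z - ζ‖ ^ 2) ∂sg ≤
          ENNReal.ofReal K) := by
  have hφ : ∀ z, 0 ≤ φ z := fun z => (abs_nonneg _).trans (hd z)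
  have hc : Measurable φ := hL.continuous.measurable
  have hE' : ∀ᵐ x ∂sg, 0 < φ x := by
    have : ∀ᵐ x ∂sg, ¬ (φ x = 0) := by
      rw [ae_iff]; simpa using hE
    filter_upwards [this] with x hx
    exact lt_of_le_of_ne (hφ x) (Ne.symm hx)
  obtain ⟨K0, hK0⟩ := hK
  set K1 : ℝ := max K0 0 with hK1
  have hK1n : 0 ≤ K1 := le_max_right _ _
  have hgm : Measurable fun z => (φ z) ^ (-α) := hc.pow_const _
  -- the `α`-potential bound
  have hA : ∀ z, ‖z‖ = 1 → 0 < φ z →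
      Al α φ z ≤ ENNReal.ofReal K1 * ENNReal.ofReal ((φ z) ^ (-α - 1)) := by
    intro z hz hz0
    have h2 := hK0 z hz hz0
    have hmeas : Measurable fun ζ => (φ ζ) ^ (-α) / (‖z - ζ‖ + φ z + φ ζ) ^ 2 := by
      exact hgm.div ((((measurable_const.sub measurable_id).norm.add measurable_const).add
        hc).pow_const 2)
    have hnn : ∀ ζ, 0 ≤ (φ ζ) ^ (-α) / (‖z - ζ‖ + φ z + φ ζ) ^ 2 := by
      intro ζ; have := hφ ζ; positivity
    have hI : Integrable (fun ζ => (φ ζ) ^ (-α) / (‖z - ζ‖ + φ z + φ ζ) ^ 2) sg := by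
      refine Integrable.mono' (hint.mul_const (1 / (φ z) ^ 2)) hmeas.aestronglyMeasurable ?_
      refine Eventually.of_forall fun ζ => ?_
      rw [Real.norm_of_nonneg (hnn ζ), div_eq_mul_one_div]
      apply mul_le_mul_of_nonneg_left _ (Real.rpow_nonneg (hφ ζ) _)
      apply one_div_le_one_div_of_le (by positivity)
      apply pow_le_pow_left₀ hz0.le
      have := hφ ζ
      have := norm_nonneg (z - ζ)
      linarith
    have h3 : Al α φ z = ENNReal.ofReal
        (∫ ζ, (φ ζ) ^ (-α) / (‖z - ζ‖ + φ z + φ ζ) ^ 2 ∂sg) := by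
      rw [ofReal_integral_eq_lintegral_ofReal hI (Eventually.of_forall hnn)]
      unfold Al kE dd
      apply lintegral_congr; intro ζ
      rw [← ENNReal.ofReal_mul (Real.rpow_nonneg (hφ ζ) _), mul_one_div]
    rw [h3, ← ENNReal.ofReal_mul hK1n]
    apply ENNReal.ofReal_le_ofReal
    refine h2.trans ?_
    apply mul_le_mul_of_nonneg_right (le_max_left _ _) (by positivity)
  have hD0 : ∀ z, 0 ≤ (Dl φ z).toReal := fun z => ENNReal.toReal_nonneg
  have hWm : Measurable (WW α φ) := by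
    unfold WW
    exact hgm.mul (measurable_const.add (meas_Dl hc).ennreal_toReal)
  have hW0 : ∀ z, 0 ≤ WW α φ z := by
    intro z; unfold WW
    have := hφ z; have := hD0 z; positivity
  have hWofReal : ∀ z, 0 < φ z → ENNReal.ofReal (WW α φ z)
      = ENNReal.ofReal ((φ z) ^ (-α)) + ENNReal.ofReal ((φ z) ^ (-α)) * Dl φ z := by
    intro z hz
    unfold WW
    have h2 := hD0 z
    rw [ENNReal.ofReal_mul (by positivity), ENNReal.ofReal_add zero_le_one h2,
      ENNReal.ofReal_toReal (Dl_lt_top hφ hφ1 hz).ne]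
    simp [mul_add]
  refine ⟨WW α φ, ps α φ, hWm, hW0, ?_, ps_lip hφ, ps_ge_dist hφ, ?_, ps_le_three h0 hφ hL hd hφ1,
    ?_, ?_, last_item h0 h1 hφ hφ1 hL hE'⟩
  · -- integrability
    refine ⟨hWm.aestronglyMeasurable, ?_⟩
    rw [hasFiniteIntegral_iff_ofReal (Eventually.of_forall hW0)]
    have e : ∫⁻ z, ENNReal.ofReal (WW α φ z) ∂sg
        = ∫⁻ z, (ENNReal.ofReal ((φ z) ^ (-α)) + ENNReal.ofReal ((φ z) ^ (-α)) * Dl φ z) ∂sg := by
      apply lintegral_congr_ae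
      filter_upwards [hE'] with z hz
      exact hWofReal z hz
    have hfin : ∫⁻ z, ENNReal.ofReal ((φ z) ^ (-α)) ∂sg < ENNReal.ofReal 1 / 0 := by
      have := hint.2
      rw [hasFiniteIntegral_iff_ofReal
        (Eventually.of_forall fun z => Real.rpow_nonneg (hφ z) _)] at this
      simpa using this
    have hfin' : ∫⁻ z, ENNReal.ofReal ((φ z) ^ (-α)) ∂sg < (⊤ : ENNReal) := by
      simpa using hfin
    rw [e, lintegral_add_left hgm.ennreal_ofReal]
    apply ENNReal.add_lt_top.2 ⟨hfin', ?_⟩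
    refine (int_gD (α := α) hc hE' hA).trans_lt ?_
    exact ENNReal.mul_lt_top ENNReal.ofReal_lt_top hfin'
  · intro z hz
    exact (ps_le_ps0 hφ hz).trans (ps0_le h0 hφ z)
  · intro z hz
    by_contra hne
    have hz0 : 0 < φ z := lt_of_le_of_ne (hφ z) (Ne.symm hne)
    have h2 := ps_ge_ps0 h0 hφ hφ1 hL hz0
    have h3 := ps0_pos (α := α) hz0
    have h4 := cc_pos (α := α)
    rw [hz] at h2
    have : 0 < cc α * ps0 α φ z := by positivity
    linarith
  · -- comparisons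
    set Ka : ℝ := 9 * 2 ^ α with hKa
    set Kc : ℝ := (cc α) ^ (-α) with hKc
    set Ke : ℝ := K1 + 4 * K1 + 4 * K1 * K1 with hKe
    have hKa0 : 0 ≤ Ka := by positivity
    have hKc0 : 0 ≤ Kc := by have := cc_pos (α := α); positivity
    have hKe0 : 0 ≤ Ke := by positivity
    refine ⟨Ka + Kc + Ke + 1, by positivity, fun z hz hz0 => ?_⟩
    have hWz : 0 ≤ WW α φ z := hW0 z
    have hgz : 0 < (φ z) ^ (-α) := by positivity
    have hp0 : 0 < ps0 α φ z := ps0_pos hz0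
    have hcp : 0 < cc α := cc_pos
    have hpge := ps_ge_ps0 h0 hφ hφ1 hL hz0
    have hpp : 0 < ps α φ z := lt_of_lt_of_le (by positivity) hpge
    refine ⟨?_, ?_, ?_, ?_, ?_⟩
    · intro z' hz' hzz'
      have h2 := (Dl_le hφ hL hz0 hzz').1
      have h3 := D_le hφ hφ1 hL hz0 hzz'
      have h4 : (φ z') ^ (-α) ≤ 2 ^ α * (φ z) ^ (-α) := by
        have e : 2 ^ α * (φ z) ^ (-α) = (φ z / 2) ^ (-α) := by
          rw [Real.div_rpow hz0.le (by norm_num), Real.rpow_neg (by norm_num : (0:ℝ) ≤ 2)]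
          field_simp
        rw [e]
        apply Real.rpow_le_rpow_of_nonpos (by positivity) h2 (by linarith)
      have h5 : WW α φ z' ≤ Ka * WW α φ z := by
        unfold WW
        calc (φ z') ^ (-α) * (1 + (Dl φ z').toReal)
            ≤ (2 ^ α * (φ z) ^ (-α)) * (9 * (1 + (Dl φ z).toReal)) := by
              apply mul_le_mul h4 (by linarith [hD0 z]) (by linarith [hD0 z']) (by positivity)
          _ = _ := by rw [hKa]; ring
      refine h5.trans ?_
      apply mul_le_mul_of_nonneg_right (by linarith) hWz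
    · unfold WW
      have := hD0 z
      nlinarith
    · have h2 : (ps α φ z) ^ (-α) ≤ Kc * WW α φ z := by
        rw [← ps0_rpow h0 hz0, hKc, ← Real.mul_rpow hcp.le hp0.le]
        apply Real.rpow_le_rpow_of_nonpos (by positivity) hpge (by linarith)
      refine h2.trans ?_
      apply mul_le_mul_of_nonneg_right (by linarith) hWz
    · have h2 : WW α φ z ≤ (ps α φ z) ^ (-α) := by
        rw [← ps0_rpow h0 hz0]
        apply Real.rpow_le_rpow_of_nonpos hpp (ps_le_ps0 hφ hz) (by linarith)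
      have h3 : 0 ≤ (ps α φ z) ^ (-α) := by positivity
      nlinarith
    · -- the kernel estimate
      have hnn : ∀ ζ, 0 ≤ WW α φ ζ / (‖z - ζ‖ + φ z + φ ζ) ^ 2 := fun ζ =>
        div_nonneg (hW0 ζ) (by positivity)
      have hmeas : Measurable fun ζ => WW α φ ζ / (‖z - ζ‖ + φ z + φ ζ) ^ 2 :=
        hWm.div ((((measurable_const.sub measurable_id).norm.add measurable_const).add
          hc).pow_const 2)
      have hgoal : ∫⁻ ζ, ENNReal.ofReal (WW α φ ζ / (‖z - ζ‖ + φ z + φ ζ) ^ 2) ∂sg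
          ≤ ENNReal.ofReal (Ke * (WW α φ z / φ z)) := by
        have e : ∫⁻ ζ, ENNReal.ofReal (WW α φ ζ / (‖z - ζ‖ + φ z + φ ζ) ^ 2) ∂sg
            = ∫⁻ ζ, (ENNReal.ofReal ((φ ζ) ^ (-α)) * kE φ z ζ
              + (ENNReal.ofReal ((φ ζ) ^ (-α)) * kE φ z ζ) * Dl φ ζ) ∂sg := by
          apply lintegral_congr_ae
          filter_upwards [hE'] with ζ hζ
          rw [← mul_one_div, ENNReal.ofReal_mul (hW0 ζ), hWofReal ζ hζ]
          show _ * kE φ z ζ = _
          ring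
        rw [e, lintegral_add_left (meas_gk hc z)]
        have hg1 := hA z hz hz0
        have hg2 := int_gkD hφ hc hK1n hE' hA hz hz0
        unfold Al at hg1
        refine (add_le_add hg1 hg2).trans ?_
        have hd2 := hD0 z
        have hDe : Dl φ z = ENNReal.ofReal ((Dl φ z).toReal) :=
          (ENNReal.ofReal_toReal (Dl_lt_top hφ hφ1 hz0).ne).symm
        set d := (Dl φ z).toReal with hddef
        rw [hDe]
        have hq : 0 < (φ z) ^ (-α - 1) := by positivity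
        rw [← ENNReal.ofReal_mul hK1n, ← ENNReal.ofReal_mul (by positivity),
          ← ENNReal.ofReal_mul (by positivity), ← ENNReal.ofReal_mul (by positivity),
          ← ENNReal.ofReal_add (by positivity) (by positivity),
          ← ENNReal.ofReal_add (by positivity) (by positivity)]
        apply ENNReal.ofReal_le_ofReal
        have e2 : WW α φ z / φ z = (φ z) ^ (-α - 1) * (1 + d) := by
          unfold WW
          rw [Real.rpow_sub_one hz0.ne', ← hddef]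
          field_simp
        rw [e2, hKe]
        have : K1 * φ z ^ (-α - 1) + (4 * K1 * φ z ^ (-α - 1) * d + 4 * K1 * K1 * φ z ^ (-α - 1))
            = φ z ^ (-α - 1) * (K1 + 4 * K1 * d + 4 * K1 * K1) := by ring
        rw [this]
        have : (K1 + 4 * K1 + 4 * K1 * K1) * (φ z ^ (-α - 1) * (1 + d))
            = φ z ^ (-α - 1) * ((K1 + 4 * K1 + 4 * K1 * K1) * (1 + d)) := by ring
        rw [this]
        apply mul_le_mul_of_nonneg_left _ hq.le
        have : 0 ≤ K1 * d := by positivity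
        have : 0 ≤ K1 * K1 * d := by positivity
        nlinarith
      have h2 : ∫ ζ, WW α φ ζ / (‖z - ζ‖ + φ z + φ ζ) ^ 2 ∂sg ≤ Ke * (WW α φ z / φ z) := by
        rw [integral_eq_lintegral_of_nonneg_ae (Eventually.of_forall hnn)
          hmeas.aestronglyMeasurable]
        exact ENNReal.toReal_le_of_le_ofReal (by positivity) hgoal
      refine h2.trans ?_
      apply mul_le_mul_of_nonneg_right (by linarith) (by positivity)

end Pool.Agent.Helper203.GV
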