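import Pool.Agent.Helper203.GV.Defs

open MeasureTheory Filter Topology Set

noncomputable section

namespace Pool.Agent.Helper203.GV

theorem tt_diff {g : ℂ → ℂ} (hg : DifferentiableOn ℂ g (Metric.ball (0:ℂ) 1)) (k : ℕ) :
    DifferentiableOn ℂ (iteratedDeriv k g) (Metric.ball (0:ℂ) 1) := by
  induction k with
  | zero => rw [iteratedDeriv_zero]; exact hg
  | succ k ih => rw [iteratedDeriv_succ]; exact ih.deriv Metric.isOpen_ball

theorem tt_hasDeriv {g : ℂ → ℂ} (hg : DifferentiableOn ℂ g (Metric.ball (0:ℂ) 1)) (k : ℕ)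
    {z : ℂ} (hz : z ∈ Metric.ball (0:ℂ) 1) :
    HasDerivAt (iteratedDeriv k g) (iteratedDeriv (k + 1) g z) z := by
  rw [iteratedDeriv_succ]
  exact ((tt_diff hg k).differentiableAt (Metric.isOpen_ball.mem_nhds hz)).hasDerivAt

theorem tt_pow (r : ℝ) (k : ℕ) (t : ℝ) :
    HasDerivAt (fun t : ℝ => (t * r) ^ (k + 1) / ((k + 1).factorial : ℝ))
      (r * ((t * r) ^ k / (k.factorial : ℝ))) t := by
  have h1 : HasDerivAt (fun t : ℝ => t * r) (1 * r) t := (hasDerivAt_id t).mul_const r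
  have h2 := (h1.pow (k + 1)).div_const ((k + 1).factorial : ℝ)
  have hk : (k.factorial : ℝ) ≠ 0 := by exact_mod_cast k.factorial_ne_zero
  have hk1 : ((k:ℝ) + 1) ≠ 0 := by positivity
  have h3 : r * ((t * r) ^ k / (k.factorial : ℝ)) =
      ((k + 1 : ℕ) : ℝ) * (t * r) ^ (k + 1 - 1) * (1 * r) / ((k + 1).factorial : ℝ) := by
    rw [Nat.factorial_succ, Nat.add_sub_cancel]
    push_cast
    field_simp
  rw [h3]
  exact h2

theorem tt_taylor (G : ℕ → ℂ → ℂ)
    (hG : ∀ k, ∀ z ∈ Metric.ball (0:ℂ) 1, HasDerivAt (G k) (G (k + 1) z) z)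
    {y y' : ℂ} (hy : y ∈ Metric.ball (0:ℂ) 1) (hy' : y' ∈ Metric.ball (0:ℂ) 1) (n : ℕ) :
    ∀ (i : ℕ) (M : ℝ), (∀ z ∈ Metric.ball (0:ℂ) 1, ‖G (i + n) z‖ ≤ M) →
      ∀ t ∈ Icc (0:ℝ) 1, ‖G i (y' + (t:ℂ) * (y - y'))‖ ≤
        (∑ k ∈ Finset.range n, ‖G (i + k) y'‖ * ((t * ‖y - y'‖) ^ k / (k.factorial : ℝ))) +
          M * ((t * ‖y - y'‖) ^ n / (n.factorial : ℝ)) := by
  have hmem : ∀ t ∈ Icc (0:ℝ) 1, y' + (t:ℂ) * (y - y') ∈ Metric.ball (0:ℂ) 1 := by
    intro t ht
    have hc := convex_ball (0:ℂ) 1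
    have h1 := hc hy' hy (sub_nonneg.2 ht.2) ht.1 (by ring)
    have h2 : (1 - t) • y' + t • y = y' + (t:ℂ) * (y - y') := by
      simp only [Complex.real_smul]
      push_cast
      ring
    rw [h2] at h1
    exact h1
  induction n with
  | zero =>
    intro i M hM t ht
    simp only [Finset.range_zero, Finset.sum_empty, pow_zero, Nat.factorial_zero, Nat.cast_one,
      div_one, mul_one, zero_add]
    exact hM _ (hmem t ht)
  | succ n ih =>
    intro i M hM
    set r := ‖y - y'‖ with hr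
    have hM' : ∀ z ∈ Metric.ball (0:ℂ) 1, ‖G (i + 1 + n) z‖ ≤ M := by
      intro z hz
      have := hM z hz
      rwa [show i + (n + 1) = i + 1 + n by ring] at this
    have ih' := ih (i + 1) M hM'
    have hB : ∀ t : ℝ, HasDerivAt (fun t : ℝ =>
        (∑ k ∈ Finset.range (n + 1), ‖G (i + k) y'‖ * ((t * r) ^ k / (k.factorial : ℝ))) +
          M * ((t * r) ^ (n + 1) / ((n + 1).factorial : ℝ)))
        (r * ((∑ k ∈ Finset.range n, ‖G (i + 1 + k) y'‖ * ((t * r) ^ k / (k.factorial : ℝ))) +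
          M * ((t * r) ^ n / (n.factorial : ℝ)))) t := by
      intro t
      have h0 : (fun t : ℝ =>
        (∑ k ∈ Finset.range (n + 1), ‖G (i + k) y'‖ * ((t * r) ^ k / (k.factorial : ℝ))) +
          M * ((t * r) ^ (n + 1) / ((n + 1).factorial : ℝ))) = fun t : ℝ =>
        ((∑ k ∈ Finset.range n, ‖G (i + 1 + k) y'‖ *
          ((t * r) ^ (k + 1) / ((k + 1).factorial : ℝ))) + ‖G i y'‖) +
          M * ((t * r) ^ (n + 1) / ((n + 1).factorial : ℝ)) := by
        funext t
        rw [Finset.sum_range_succ']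
        congr 2
        · refine Finset.sum_congr rfl fun k _ => ?_
          rw [show i + (k + 1) = i + 1 + k by ring]
        · simp
      rw [h0]
      have h1 : HasDerivAt (fun t : ℝ => ∑ k ∈ Finset.range n, ‖G (i + 1 + k) y'‖ *
          ((t * r) ^ (k + 1) / ((k + 1).factorial : ℝ)))
          (∑ k ∈ Finset.range n, ‖G (i + 1 + k) y'‖ * (r * ((t * r) ^ k / (k.factorial : ℝ)))) t := by
        apply HasDerivAt.fun_sum
        intro k _
        exact (tt_pow r k t).const_mul _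
      have h2 := (h1.add_const ‖G i y'‖).add ((tt_pow r n t).const_mul M)
      have h3 : r * ((∑ k ∈ Finset.range n, ‖G (i + 1 + k) y'‖ * ((t * r) ^ k / (k.factorial : ℝ))) +
          M * ((t * r) ^ n / (n.factorial : ℝ))) =
          (∑ k ∈ Finset.range n, ‖G (i + 1 + k) y'‖ * (r * ((t * r) ^ k / (k.factorial : ℝ)))) +
          M * (r * ((t * r) ^ n / (n.factorial : ℝ))) := by
        rw [mul_add, Finset.mul_sum]
        congr 1
        · refine Finset.sum_congr rfl fun k _ => ?_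
          ring
        · ring
      rw [h3]
      exact h2
    have hf : ∀ t ∈ Icc (0:ℝ) 1, HasDerivAt (fun t : ℝ => G i (y' + (t:ℂ) * (y - y')))
        ((y - y') * G (i + 1) (y' + (t:ℂ) * (y - y'))) t := by
      intro t ht
      have h1 : HasDerivAt (fun t : ℝ => y' + (t:ℂ) * (y - y')) (1 * (y - y')) t :=
        ((hasDerivAt_id t).ofReal_comp.mul_const (y - y')).const_add y'
      have h2 := HasDerivAt.scomp t (hG i _ (hmem t ht)) h1
      rw [one_mul, smul_eq_mul] at h2
      exact h2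
    intro t ht
    refine image_norm_le_of_norm_deriv_right_le_deriv_boundary (a := 0) (b := 1)
      (f := fun t : ℝ => G i (y' + (t:ℂ) * (y - y')))
      (f' := fun t => (y - y') * G (i + 1) (y' + (t:ℂ) * (y - y'))) ?_ ?_
      (B := fun t : ℝ =>
        (∑ k ∈ Finset.range (n + 1), ‖G (i + k) y'‖ * ((t * r) ^ k / (k.factorial : ℝ))) +
          M * ((t * r) ^ (n + 1) / ((n + 1).factorial : ℝ))) ?_ hB ?_ ht
    · exact fun x hx => (hf x hx).continuousAt.continuousWithinAt
    · exact fun x hx => (hf x ⟨hx.1, hx.2.le⟩).hasDerivWithinAt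
    · simp only [Complex.ofReal_zero, zero_mul, add_zero]
      rw [Finset.sum_range_succ']
      simp
    · intro x hx
      rw [norm_mul]
      exact mul_le_mul_of_nonneg_left (ih' x ⟨hx.1, hx.2.le⟩) (norm_nonneg _)

theorem tt_powexp {α : ℝ} (j : ℕ) :
    (j:ℝ) ^ ((j:ℝ) / α) = Real.exp ((1 / α) * ((j:ℝ) * Real.log j)) := by
  rcases Nat.eq_zero_or_pos j with h | h
  · subst h
    simp
  · have hj : (0:ℝ) < j := by exact_mod_cast h
    rw [Real.rpow_def_of_pos hj]
    congr 1
    ring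

theorem tt_xlogx (j k : ℕ) :
    ((j + k : ℕ) : ℝ) * Real.log ((j + k : ℕ) : ℝ) ≤
      (j:ℝ) * Real.log j + (k:ℝ) * Real.log k + ((j + k : ℕ) : ℝ) * Real.log 2 := by
  have hj0 : (j:ℝ) ∈ Set.Ici (0:ℝ) := by
    simp
  have hk0 : (k:ℝ) ∈ Set.Ici (0:ℝ) := by
    simp
  have h := Real.convexOn_mul_log.2 hj0 hk0 (show (0:ℝ) ≤ 1 / 2 by norm_num)
    (show (0:ℝ) ≤ 1 / 2 by norm_num) (by norm_num)
  simp only [smul_eq_mul] at h
  rcases Nat.eq_zero_or_pos (j + k) with h0 | h0
  · have hj : j = 0 := by omega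
    have hk : k = 0 := by omega
    subst hj; subst hk
    simp
  · have hn : (0:ℝ) < ((j + k : ℕ) : ℝ) := by exact_mod_cast h0
    have h1 : (1 / 2 * (j:ℝ) + 1 / 2 * (k:ℝ)) = ((j + k : ℕ) : ℝ) / 2 := by push_cast; ring
    rw [h1, Real.log_div hn.ne' (by norm_num)] at h
    nlinarith

theorem tt_fact (j k : ℕ) : ((j + k).factorial : ℝ) ≤
    2 ^ (j + k) * (j.factorial : ℝ) * (k.factorial : ℝ) := by
  have h1 : (j + k).choose j * j.factorial * k.factorial = (j + k).factorial := by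
    have := Nat.choose_mul_factorial_mul_factorial (Nat.le_add_right j k)
    rwa [Nat.add_sub_cancel_left] at this
  have h2 : (j + k).choose j ≤ 2 ^ (j + k) := Nat.choose_le_two_pow _ _
  have h3 : (j + k).factorial ≤ 2 ^ (j + k) * j.factorial * k.factorial := by
    rw [← h1]
    gcongr
  exact_mod_cast h3

/-- submultiplicativity -/
theorem tt_sub {α : ℝ} (h0 : 0 < α) (j k : ℕ) :
    ((j + k).factorial : ℝ) * ((j + k : ℕ) : ℝ) ^ (((j + k : ℕ) : ℝ) / α) ≤
      (2 * Real.exp ((1 / α) * Real.log 2)) ^ (j + k) *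
        ((j.factorial : ℝ) * (j:ℝ) ^ ((j:ℝ) / α)) * ((k.factorial : ℝ) * (k:ℝ) ^ ((k:ℝ) / α)) := by
  rw [tt_powexp, tt_powexp, tt_powexp]
  have h1 := tt_fact j k
  have h2 : Real.exp ((1 / α) * (((j + k : ℕ) : ℝ) * Real.log ((j + k : ℕ) : ℝ))) ≤
      Real.exp ((1 / α) * Real.log 2) ^ (j + k) * Real.exp ((1 / α) * ((j:ℝ) * Real.log j)) *
        Real.exp ((1 / α) * ((k:ℝ) * Real.log k)) := by
    rw [← Real.exp_nat_mul, ← Real.exp_add, ← Real.exp_add]
    apply Real.exp_le_exp.2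
    have h3 := tt_xlogx j k
    have h4 : 0 ≤ 1 / α := by positivity
    have h5 := mul_le_mul_of_nonneg_left h3 h4
    refine h5.trans (le_of_eq ?_)
    ring
  calc _ ≤ (2 ^ (j + k) * (j.factorial : ℝ) * (k.factorial : ℝ)) *
      (Real.exp ((1 / α) * Real.log 2) ^ (j + k) * Real.exp ((1 / α) * ((j:ℝ) * Real.log j)) *
        Real.exp ((1 / α) * ((k:ℝ) * Real.log k))) :=
        mul_le_mul h1 h2 (Real.exp_pos _).le (by positivity)
    _ = _ := by rw [mul_pow]; ring

/-- bound for `k^(k/α)`, `k ≤ n` -/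
theorem tt_Pk {α : ℝ} (h0 : 0 < α) {k n : ℕ} (hk : k ≤ n) (hn : 1 ≤ n) :
    (k:ℝ) ^ ((k:ℝ) / α) ≤ Real.exp ((1 / α) * Real.log n) ^ k := by
  rw [tt_powexp, ← Real.exp_nat_mul]
  apply Real.exp_le_exp.2
  have h1 : (k:ℝ) * Real.log k ≤ (k:ℝ) * Real.log n := by
    rcases Nat.eq_zero_or_pos k with h | h
    · subst h; simp
    · have hk0 : (0:ℝ) < k := by exact_mod_cast h
      exact mul_le_mul_of_nonneg_left (Real.log_le_log hk0 (by exact_mod_cast hk)) hk0.le
  have h4 : 0 ≤ 1 / α := by positivity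
  have h5 := mul_le_mul_of_nonneg_left h1 h4
  refine h5.trans (le_of_eq ?_)
  ring

theorem tt_fin {w : ℝ} (hw : 1 ≤ w) : 3 * Real.exp (-4 * w) ≤ Real.exp (-2 * w) := by
  have h1 : Real.exp (-4 * w) = Real.exp (-2 * w) * Real.exp (-2 * w) := by
    rw [← Real.exp_add]; congr 1; ring
  have h2 : 3 * Real.exp (-2 * w) ≤ 1 := by
    have h3 : (3:ℝ) ≤ Real.exp (2 * w) := by
      have := Real.add_one_le_exp (2 * w)
      linarith
    have h4 : Real.exp (-2 * w) * Real.exp (2 * w) = 1 := by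
      rw [← Real.exp_add]; simp
    nlinarith [Real.exp_pos (-2 * w)]
  rw [h1]
  nlinarith [Real.exp_pos (-2 * w)]

theorem tt_geo (n : ℕ) : (∑ k ∈ Finset.range n, (1 / 4 : ℝ) ^ k) ≤ 2 := by
  have h : (∑ k ∈ Finset.range n, (1 / 4 : ℝ) ^ k) ≤ 2 - 2 * (1 / 4 : ℝ) ^ n := by
    induction n with
    | zero => norm_num
    | succ n ih =>
      rw [Finset.sum_range_succ, pow_succ]
      have : (0:ℝ) ≤ (1 / 4 : ℝ) ^ n := by positivity
      linarith
  have : (0:ℝ) ≤ (1 / 4 : ℝ) ^ n := by positivity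
  linarith

set_option maxHeartbeats 4000000 in
theorem taylor_transfer {α : ℝ} (h0 : 0 < α) {C Q : ℝ} (hC : 0 < C) (hQ : 0 < Q) :
    ∃ Q₁ C₁ A κ : ℝ, Q < Q₁ ∧ C ≤ C₁ ∧ 1 ≤ A ∧ 0 < κ ∧ κ ≤ 1 ∧ ∀ g : ℂ → ℂ, GB α C Q g →
      (∀ w : ℝ, 1 ≤ w → ∀ y ∈ Metric.ball (0:ℂ) 1, ∀ y' ∈ Metric.ball (0:ℂ) 1,
        ‖y - y'‖ ≤ κ * w ^ (-(1/α)) →
        (∀ j : ℕ, ‖iteratedDeriv j g y'‖ ≤
          C₁ * Q₁ ^ j * (j.factorial : ℝ) * (j : ℝ) ^ ((j : ℝ) / α) * Real.exp (-A * w)) →
        ∀ j : ℕ, ‖iteratedDeriv j g y‖ ≤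
          C₁ * Q₁ ^ j * (j.factorial : ℝ) * (j : ℝ) ^ ((j : ℝ) / α) * Real.exp (-2 * w)) := by
  set a := 1 / α with ha
  have ha0 : 0 < a := by positivity
  set L := 2 * Real.exp (a * Real.log 2) with hL
  have hlog2 : 0 < Real.log 2 := Real.log_pos (by norm_num)
  have hL1 : 1 ≤ L := by
    have : (1:ℝ) ≤ Real.exp (a * Real.log 2) := Real.one_le_exp (by positivity)
    rw [hL]; linarith
  have hL0 : 0 < L := by linarith
  set Q₁ := 3 * L * Q with hQ1
  have hQ1pos : 0 < Q₁ := by positivity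
  have hQQ : Q < Q₁ := by rw [hQ1]; nlinarith
  set D := Real.exp (a * Real.log 5) with hD
  have hD0 : 0 < D := Real.exp_pos _
  set κ := min 1 (1 / (4 * (Q₁ * L * D))) with hκ
  have hκ0 : 0 < κ := lt_min one_pos (by positivity)
  have hκ1 : κ ≤ 1 := min_le_left _ _
  have hκ2 : Q₁ * L * (κ * D) ≤ 1 / 4 := by
    have h1 : κ ≤ 1 / (4 * (Q₁ * L * D)) := min_le_right _ _
    have h2 : 0 < Q₁ * L * D := by positivity
    calc Q₁ * L * (κ * D) = κ * (Q₁ * L * D) := by ring
      _ ≤ 1 / (4 * (Q₁ * L * D)) * (Q₁ * L * D) := mul_le_mul_of_nonneg_right h1 h2.le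
      _ = 1 / 4 := by field_simp
  set A := 2 * Real.log L + 4 with hA
  have hlogL : 0 ≤ Real.log L := Real.log_nonneg hL1
  refine ⟨Q₁, C, A, κ, hQQ, le_rfl, by rw [hA]; linarith, hκ0, hκ1, ?_⟩
  intro g hg w hw y hy y' hy' hyy hjet j
  obtain ⟨hgd, hgb⟩ := hg
  set N : ℕ → ℝ := fun j => (j.factorial : ℝ) * (j:ℝ) ^ ((j:ℝ) / α) with hN
  have hNpos : ∀ j, 0 ≤ N j := by
    intro j
    simp only [hN]
    rw [tt_powexp]
    positivity
  have hNsub : ∀ j k, N (j + k) ≤ L ^ (j + k) * N j * N k := fun j k => tt_sub h0 j k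
  have hgb' : ∀ n : ℕ, ∀ z ∈ Metric.ball (0:ℂ) 1, ‖iteratedDeriv n g z‖ ≤ C * Q ^ n * N n := by
    intro n z hz
    have := hgb n z hz
    rwa [mul_assoc] at this
  have hjet' : ∀ n : ℕ, ‖iteratedDeriv n g y'‖ ≤ C * Q₁ ^ n * N n * Real.exp (-A * w) := by
    intro n
    have := hjet n
    rwa [mul_assoc (C * Q₁ ^ n)] at this
  have hgoal : C * Q₁ ^ j * (j.factorial : ℝ) * (j : ℝ) ^ ((j : ℝ) / α) * Real.exp (-2 * w) =
      C * Q₁ ^ j * N j * Real.exp (-2 * w) := by
    simp only [hN]; ring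
  rw [hgoal]
  have hCN : 0 ≤ C * Q₁ ^ j * N j := mul_nonneg (by positivity) (hNpos j)
  rcases le_or_gt (2 * w) (j:ℝ) with hj | hj
  · -- large j
    have h1 : Q ≤ Q₁ * Real.exp (-1) := by
      have h2 : Real.exp 1 < 3 := Real.exp_one_lt_three
      have h3 : Real.exp 1 * Q ≤ Q₁ := by
        rw [hQ1]
        have : Real.exp 1 ≤ 3 * L := by nlinarith
        exact mul_le_mul_of_nonneg_right this hQ.le
      rw [Real.exp_neg, ← div_eq_mul_inv, le_div_iff₀ (Real.exp_pos _)]
      linarith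
    have h2 : Q ^ j ≤ Q₁ ^ j * Real.exp (-2 * w) := by
      calc Q ^ j ≤ (Q₁ * Real.exp (-1)) ^ j := pow_le_pow_left₀ hQ.le h1 j
        _ = Q₁ ^ j * Real.exp (-(j:ℝ)) := by
          rw [mul_pow, ← Real.exp_nat_mul]
          congr 2
          ring
        _ ≤ Q₁ ^ j * Real.exp (-2 * w) := by
          apply mul_le_mul_of_nonneg_left _ (by positivity)
          apply Real.exp_le_exp.2
          linarith
    calc ‖iteratedDeriv j g y‖ ≤ C * Q ^ j * N j := hgb' j y hy
      _ ≤ C * (Q₁ ^ j * Real.exp (-2 * w)) * N j := by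
        apply mul_le_mul_of_nonneg_right _ (hNpos j)
        exact mul_le_mul_of_nonneg_left h2 hC.le
      _ = _ := by ring
  · -- small j
    set n := ⌈4 * w⌉₊ with hn
    have hn1 : 4 * w ≤ n := Nat.le_ceil _
    have hn2 : (n:ℝ) ≤ 5 * w := by
      have := Nat.ceil_lt_add_one (show (0:ℝ) ≤ 4 * w by linarith)
      linarith
    have hn3 : 1 ≤ n := by
      have : (1:ℝ) ≤ n := by linarith
      exact_mod_cast this
    set m := Real.exp (a * Real.log n) with hm
    have hm0 : 0 < m := Real.exp_pos _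
    set r := ‖y - y'‖ with hr
    have hr0 : 0 ≤ r := norm_nonneg _
    have hw0 : 0 < w := by linarith
    have hrm : r * m ≤ κ * D := by
      have h1 : w ^ (-a) * m ≤ D := by
        rw [Real.rpow_def_of_pos hw0, hm, hD, ← Real.exp_add]
        apply Real.exp_le_exp.2
        have h2 : Real.log n ≤ Real.log 5 + Real.log w := by
          rw [← Real.log_mul (by norm_num) hw0.ne']
          exact Real.log_le_log (by exact_mod_cast hn3) hn2
        nlinarith
      calc r * m ≤ (κ * w ^ (-a)) * m := mul_le_mul_of_nonneg_right hyy hm0.le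
        _ = κ * (w ^ (-a) * m) := by ring
        _ ≤ κ * D := mul_le_mul_of_nonneg_left h1 hκ0.le
    have hP : ∀ k, k ≤ n → N k * (r ^ k / (k.factorial : ℝ)) ≤ (r * m) ^ k := by
      intro k hk
      have hkf : (0:ℝ) < (k.factorial : ℝ) := by exact_mod_cast k.factorial_pos
      have h1 := tt_Pk h0 hk hn3
      calc N k * (r ^ k / (k.factorial : ℝ)) = (k:ℝ) ^ ((k:ℝ) / α) * r ^ k := by
            simp only [hN]
            field_simp
        _ ≤ m ^ k * r ^ k := mul_le_mul_of_nonneg_right h1 (by positivity)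
        _ = (r * m) ^ k := by rw [mul_pow]; ring
    have hT := tt_taylor (fun k => iteratedDeriv k g) (fun k z hz => tt_hasDeriv hgd k hz)
      hy hy' n j (C * Q ^ (j + n) * N (j + n)) (fun z hz => hgb' (j + n) z hz) 1
      ⟨zero_le_one, le_rfl⟩
    simp only [Complex.ofReal_one, one_mul, add_sub_cancel] at hT
    -- remainder
    have hrem : C * Q ^ (j + n) * N (j + n) * (r ^ n / (n.factorial : ℝ)) ≤
        C * Q₁ ^ j * N j * Real.exp (-4 * w) := by
      have h1 : C * Q ^ (j + n) * N (j + n) * (r ^ n / (n.factorial : ℝ)) ≤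
          C * Q ^ (j + n) * (L ^ (j + n) * N j * N n) * (r ^ n / (n.factorial : ℝ)) := by
        apply mul_le_mul_of_nonneg_right _ (by positivity)
        exact mul_le_mul_of_nonneg_left (hNsub j n) (by positivity)
      have h2 : C * Q ^ (j + n) * (L ^ (j + n) * N j * N n) * (r ^ n / (n.factorial : ℝ)) =
          C * (Q * L) ^ j * N j * ((Q * L) ^ n * (N n * (r ^ n / (n.factorial : ℝ)))) := by
        rw [pow_add, pow_add, mul_pow, mul_pow]
        ring
      have h3 : (Q * L) ^ n * (N n * (r ^ n / (n.factorial : ℝ))) ≤ Real.exp (-4 * w) := by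
        calc (Q * L) ^ n * (N n * (r ^ n / (n.factorial : ℝ))) ≤ (Q * L) ^ n * (r * m) ^ n :=
              mul_le_mul_of_nonneg_left (hP n le_rfl) (by positivity)
          _ = (Q * L * (r * m)) ^ n := by rw [← mul_pow]
          _ ≤ (Real.exp (-1)) ^ n := by
              apply pow_le_pow_left₀ (by positivity)
              have k1 : Q * L * (r * m) ≤ 1 / 4 := by
                refine le_trans ?_ hκ2
                apply mul_le_mul _ hrm (by positivity) (by positivity)
                exact mul_le_mul_of_nonneg_right hQQ.le hL0.le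
              have k2 : (1 / 4 : ℝ) ≤ Real.exp (-1) := by
                rw [Real.exp_neg, ← one_div]
                apply one_div_le_one_div_of_le (Real.exp_pos _)
                linarith [Real.exp_one_lt_three]
              exact k1.trans k2
          _ = Real.exp (-(n:ℝ)) := by
              rw [← Real.exp_nat_mul]
              congr 1
              ring
          _ ≤ Real.exp (-4 * w) := by
              apply Real.exp_le_exp.2
              linarith
      have h4 : (Q * L) ^ j ≤ Q₁ ^ j := by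
        apply pow_le_pow_left₀ (by positivity)
        rw [hQ1]
        nlinarith [mul_pos hQ hL0]
      calc _ ≤ _ := h1
        _ = _ := h2
        _ ≤ C * (Q * L) ^ j * N j * Real.exp (-4 * w) :=
            mul_le_mul_of_nonneg_left h3 (mul_nonneg (by positivity) (hNpos j))
        _ ≤ C * Q₁ ^ j * N j * Real.exp (-4 * w) := by
            apply mul_le_mul_of_nonneg_right _ (Real.exp_pos _).le
            apply mul_le_mul_of_nonneg_right _ (hNpos j)
            exact mul_le_mul_of_nonneg_left h4 hC.le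
    -- main sum
    have hmain : (∑ k ∈ Finset.range n, ‖iteratedDeriv (j + k) g y'‖ *
        (r ^ k / (k.factorial : ℝ))) ≤ 2 * (C * Q₁ ^ j * N j * Real.exp (-4 * w)) := by
      have hs : ∀ k ∈ Finset.range n, ‖iteratedDeriv (j + k) g y'‖ * (r ^ k / (k.factorial : ℝ)) ≤
          (C * Q₁ ^ j * N j * (L ^ j * Real.exp (-A * w))) * (1 / 4) ^ k := by
        intro k hk
        have hk' : k ≤ n := (Finset.mem_range.1 hk).le
        calc ‖iteratedDeriv (j + k) g y'‖ * (r ^ k / (k.factorial : ℝ))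
            ≤ (C * Q₁ ^ (j + k) * N (j + k) * Real.exp (-A * w)) * (r ^ k / (k.factorial : ℝ)) :=
              mul_le_mul_of_nonneg_right (hjet' (j + k)) (by positivity)
          _ ≤ (C * Q₁ ^ (j + k) * (L ^ (j + k) * N j * N k) * Real.exp (-A * w)) *
              (r ^ k / (k.factorial : ℝ)) := by
              apply mul_le_mul_of_nonneg_right _ (by positivity)
              apply mul_le_mul_of_nonneg_right _ (Real.exp_pos _).le
              exact mul_le_mul_of_nonneg_left (hNsub j k) (by positivity)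
          _ = (C * Q₁ ^ j * N j * (L ^ j * Real.exp (-A * w))) *
              ((Q₁ * L) ^ k * (N k * (r ^ k / (k.factorial : ℝ)))) := by
              rw [pow_add, pow_add, mul_pow]
              ring
          _ ≤ (C * Q₁ ^ j * N j * (L ^ j * Real.exp (-A * w))) * (1 / 4) ^ k := by
              apply mul_le_mul_of_nonneg_left
              · calc (Q₁ * L) ^ k * (N k * (r ^ k / (k.factorial : ℝ)))
                    ≤ (Q₁ * L) ^ k * (r * m) ^ k :=
                      mul_le_mul_of_nonneg_left (hP k hk') (by positivity)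
                  _ = (Q₁ * L * (r * m)) ^ k := by rw [← mul_pow]
                  _ ≤ (1 / 4) ^ k := by
                      apply pow_le_pow_left₀ (by positivity)
                      refine le_trans ?_ hκ2
                      exact mul_le_mul_of_nonneg_left hrm (by positivity)
              · exact mul_nonneg hCN (by positivity)
      have hgeo : (∑ k ∈ Finset.range n, (1 / 4 : ℝ) ^ k) ≤ 2 := by
        exact tt_geo n
      have hLA : L ^ j * Real.exp (-A * w) ≤ Real.exp (-4 * w) := by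
        have h1 : L ^ j = Real.exp ((j:ℝ) * Real.log L) := by
          rw [Real.exp_nat_mul, Real.exp_log hL0]
        rw [h1, ← Real.exp_add]
        apply Real.exp_le_exp.2
        rw [hA]
        have h2 : (j:ℝ) * Real.log L ≤ 2 * w * Real.log L :=
          mul_le_mul_of_nonneg_right hj.le hlogL
        linarith
      calc _ ≤ ∑ k ∈ Finset.range n, (C * Q₁ ^ j * N j * (L ^ j * Real.exp (-A * w))) * (1 / 4) ^ k :=
            Finset.sum_le_sum hs
        _ = (C * Q₁ ^ j * N j * (L ^ j * Real.exp (-A * w))) *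
            ∑ k ∈ Finset.range n, (1 / 4 : ℝ) ^ k := by rw [Finset.mul_sum]
        _ ≤ (C * Q₁ ^ j * N j * Real.exp (-4 * w)) * 2 := by
            apply mul_le_mul _ hgeo (Finset.sum_nonneg fun k _ => by positivity)
              (mul_nonneg hCN (Real.exp_pos _).le)
            exact mul_le_mul_of_nonneg_left hLA hCN
        _ = _ := by ring
    have hfin := tt_fin hw
    calc ‖iteratedDeriv j g y‖ ≤ _ := hT
      _ ≤ 2 * (C * Q₁ ^ j * N j * Real.exp (-4 * w)) + C * Q₁ ^ j * N j * Real.exp (-4 * w) :=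
          add_le_add hmain hrem
      _ = C * Q₁ ^ j * N j * (3 * Real.exp (-4 * w)) := by ring
      _ ≤ C * Q₁ ^ j * N j * Real.exp (-2 * w) := mul_le_mul_of_nonneg_left hfin hCN

end Pool.Agent.Helper203.GV
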