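import Pool.Agent.Helper203.GV.Defs
import Pool.Agent.Helper203.GV.Alg
import Pool.Agent.Helper203.GV.Conv
import Pool.Agent.Helper203.GV.Misc1
import Pool.Agent.Helper203.GV.PLog
import Pool.Agent.Helper203.GV.Tay

open MeasureTheory Filter Topology Set

noncomputable section

namespace Pool.Agent.Helper203.GV

def Mj (α C₁ Q₁ : ℝ) (j : ℕ) : ℝ := C₁ * Q₁ ^ j * (j.factorial : ℝ) * (j : ℝ) ^ ((j : ℝ) / α)

def NN (α C₁ Q₁ : ℝ) (g : ℂ → ℂ) (y : ℂ) : ℝ := ⨆ j : ℕ, ‖iteratedDeriv j g y‖ / Mj α C₁ Q₁ j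

def ww (α C₁ Q₁ : ℝ) (g : ℂ → ℂ) (y : ℂ) : ℝ := max 1 (-Real.log (NN α C₁ Q₁ g y))

def tm (α C₁ Q₁ : ℝ) (g : ℂ → ℂ) (z y : ℂ) : ℝ :=
  max (ww α C₁ Q₁ g y ^ (-(1/α))) (1 - ‖y‖) + ‖z - y‖

def ph (α C₁ Q₁ : ℝ) (g : ℂ → ℂ) (z : ℂ) : ℝ :=
  ⨅ y : Metric.ball (0:ℂ) 1, tm α C₁ Q₁ g z y

section basics

variable {α C Q C₁ Q₁ A κ : ℝ} {g : ℂ → ℂ}

theorem rp_pos (α : ℝ) (j : ℕ) : 0 < (j:ℝ) ^ ((j:ℝ)/α) := by
  rcases Nat.eq_zero_or_pos j with rfl | h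
  · simp
  · exact Real.rpow_pos_of_pos (by exact_mod_cast h) _

theorem Mj_pos (hC : 0 < C₁) (hQ : 0 < Q₁) (j : ℕ) : 0 < Mj α C₁ Q₁ j := by
  unfold Mj
  have := rp_pos α j
  positivity

/-- standing hypotheses -/
structure Ctx (α C Q C₁ Q₁ A κ : ℝ) (g : ℂ → ℂ) : Prop where
  a0 : 0 < α
  hg : GB α C Q g
  hC : 0 < C
  hCC : C ≤ C₁
  hQ : 0 < Q
  hQQ : Q < Q₁
  hA : 1 ≤ A
  hκ : 0 < κ
  hκ1 : κ ≤ 1
  hne : ∃ z ∈ Metric.ball (0:ℂ) 1, g z ≠ 0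
  tr : ∀ w : ℝ, 1 ≤ w → ∀ y ∈ Metric.ball (0:ℂ) 1, ∀ y' ∈ Metric.ball (0:ℂ) 1,
        ‖y - y'‖ ≤ κ * w ^ (-(1/α)) →
        (∀ j : ℕ, ‖iteratedDeriv j g y'‖ ≤ Mj α C₁ Q₁ j * Real.exp (-A * w)) →
        ∀ j : ℕ, ‖iteratedDeriv j g y‖ ≤ Mj α C₁ Q₁ j * Real.exp (-2 * w)

theorem Ctx.hC1 (h : Ctx α C Q C₁ Q₁ A κ g) : 0 < C₁ := h.hC.trans_le h.hCC
theorem Ctx.hQ1 (h : Ctx α C Q C₁ Q₁ A κ g) : 0 < Q₁ := h.hQ.trans h.hQQ
theorem Ctx.Mpos (h : Ctx α C Q C₁ Q₁ A κ g) (j : ℕ) : 0 < Mj α C₁ Q₁ j := Mj_pos h.hC1 h.hQ1 j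

theorem Ctx.gb_le (h : Ctx α C Q C₁ Q₁ A κ g) {y : ℂ} (hy : y ∈ Metric.ball (0:ℂ) 1) (j : ℕ) :
    ‖iteratedDeriv j g y‖ ≤ Mj α C₁ Q₁ j * (Q / Q₁) ^ j := by
  refine (h.hg.2 j y hy).trans ?_
  unfold Mj
  rw [div_pow]
  have hQ1 : 0 < Q₁ := h.hQ1
  have h1 : C₁ * Q₁ ^ j * (j.factorial : ℝ) * (j : ℝ) ^ ((j : ℝ) / α) * (Q ^ j / Q₁ ^ j) =
      C₁ * Q ^ j * (j.factorial : ℝ) * (j : ℝ) ^ ((j : ℝ) / α) := by field_simp
  rw [h1]
  have h2 := rp_pos α j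
  have h3 := h.hQ
  have h4 := h.hCC
  gcongr

theorem Ctx.q_lt (h : Ctx α C Q C₁ Q₁ A κ g) : 0 < Q / Q₁ ∧ Q / Q₁ < 1 :=
  ⟨div_pos h.hQ h.hQ1, (div_lt_one h.hQ1).2 h.hQQ⟩

theorem Ctx.bdd (h : Ctx α C Q C₁ Q₁ A κ g) {y : ℂ} (hy : y ∈ Metric.ball (0:ℂ) 1) :
    ∀ j, ‖iteratedDeriv j g y‖ / Mj α C₁ Q₁ j ≤ 1 := by
  intro j
  rw [div_le_one (h.Mpos j)]
  refine (h.gb_le hy j).trans ?_
  exact mul_le_of_le_one_right (h.Mpos j).le (pow_le_one₀ h.q_lt.1.le h.q_lt.2.le)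

theorem Ctx.le_NN (h : Ctx α C Q C₁ Q₁ A κ g) {y : ℂ} (hy : y ∈ Metric.ball (0:ℂ) 1) (j : ℕ) :
    ‖iteratedDeriv j g y‖ ≤ Mj α C₁ Q₁ j * NN α C₁ Q₁ g y := by
  rw [← div_le_iff₀' (h.Mpos j)]
  exact le_ciSup (f := fun j : ℕ => ‖iteratedDeriv j g y‖ / Mj α C₁ Q₁ j)
    ⟨1, by rintro _ ⟨j, rfl⟩; exact h.bdd hy j⟩ j

theorem Ctx.NN_le (h : Ctx α C Q C₁ Q₁ A κ g) {y : ℂ} {t : ℝ}
    (ht : ∀ j, ‖iteratedDeriv j g y‖ ≤ Mj α C₁ Q₁ j * t) : NN α C₁ Q₁ g y ≤ t := by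
  apply ciSup_le
  intro j
  rw [div_le_iff₀' (h.Mpos j)]
  exact ht j

theorem Ctx.NN_le_one (h : Ctx α C Q C₁ Q₁ A κ g) {y : ℂ} (hy : y ∈ Metric.ball (0:ℂ) 1) :
    NN α C₁ Q₁ g y ≤ 1 := ciSup_le (h.bdd hy)

theorem Ctx.NN_pos (h : Ctx α C Q C₁ Q₁ A κ g) {y : ℂ} (hy : y ∈ Metric.ball (0:ℂ) 1) :
    0 < NN α C₁ Q₁ g y := by
  by_contra hcon
  push Not at hcon
  have hz : ∀ j, iteratedDeriv j g y = 0 := by
    intro j
    have h1 := h.le_NN hy j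
    have h2 : Mj α C₁ Q₁ j * NN α C₁ Q₁ g y ≤ 0 := mul_nonpos_of_nonneg_of_nonpos (h.Mpos j).le hcon
    exact norm_le_zero_iff.1 (h1.trans h2)
  obtain ⟨z, hz1, hz2⟩ := h.hne
  apply hz2
  have hy1 : ‖y‖ < 1 := mem_ball_zero_iff.1 hy
  have hr : 0 < 1 - ‖y‖ := by linarith
  have hsub : Metric.ball y (1 - ‖y‖) ⊆ Metric.ball (0:ℂ) 1 := by
    intro x hx
    rw [Metric.mem_ball, dist_eq_norm] at hx
    rw [mem_ball_zero_iff]
    calc ‖x‖ = ‖(x - y) + y‖ := by ring_nf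
      _ ≤ ‖x - y‖ + ‖y‖ := norm_add_le _ _
      _ < 1 := by linarith
  have hloc : ∀ x ∈ Metric.ball y (1 - ‖y‖), g x = 0 := by
    intro x hx
    have h1 := Complex.hasSum_taylorSeries_on_ball (f := g) (c := y) (r := 1 - ‖y‖)
      (h.hg.1.mono hsub) hx
    simp only [hz, smul_zero] at h1
    exact h1.unique hasSum_zero
  have han : AnalyticOnNhd ℂ g (Metric.ball (0:ℂ) 1) := h.hg.1.analyticOnNhd Metric.isOpen_ball
  have h2 := han.eqOn_zero_of_preconnected_of_eventuallyEq_zero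
    (convex_ball (0:ℂ) 1).isPreconnected hy (by
      filter_upwards [Metric.ball_mem_nhds y hr] with x hx
      exact hloc x hx)
  exact h2 hz1

theorem Ctx.ww_ge (h : Ctx α C Q C₁ Q₁ A κ g) (y : ℂ) : 1 ≤ ww α C₁ Q₁ g y := le_max_left _ _

theorem Ctx.exp_le_NN (h : Ctx α C Q C₁ Q₁ A κ g) {y : ℂ} (hy : y ∈ Metric.ball (0:ℂ) 1) :
    Real.exp (-ww α C₁ Q₁ g y) ≤ NN α C₁ Q₁ g y := by
  have h1 : -ww α C₁ Q₁ g y ≤ Real.log (NN α C₁ Q₁ g y) := by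
    have := le_max_right 1 (-Real.log (NN α C₁ Q₁ g y))
    unfold ww
    linarith
  calc Real.exp (-ww α C₁ Q₁ g y) ≤ Real.exp (Real.log (NN α C₁ Q₁ g y)) := Real.exp_le_exp.2 h1
    _ = _ := Real.exp_log (h.NN_pos hy)

theorem Ctx.NN_le_exp (h : Ctx α C Q C₁ Q₁ A κ g) {y : ℂ} (hy : y ∈ Metric.ball (0:ℂ) 1) :
    NN α C₁ Q₁ g y ≤ Real.exp 1 * Real.exp (-ww α C₁ Q₁ g y) := by
  rw [← Real.exp_add]
  have h1 : Real.log (NN α C₁ Q₁ g y) ≤ 1 + -ww α C₁ Q₁ g y := by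
    have h2 : Real.log (NN α C₁ Q₁ g y) ≤ 0 := Real.log_nonpos (h.NN_pos hy).le (h.NN_le_one hy)
    unfold ww
    rcases max_cases 1 (-Real.log (NN α C₁ Q₁ g y)) with h3 | h3 <;> rw [h3.1] <;> linarith
  calc NN α C₁ Q₁ g y = Real.exp (Real.log (NN α C₁ Q₁ g y)) := (Real.exp_log (h.NN_pos hy)).symm
    _ ≤ _ := Real.exp_le_exp.2 h1

/-- slow variation -/
theorem Ctx.slow (h : Ctx α C Q C₁ Q₁ A κ g) {y y' : ℂ} (hy : y ∈ Metric.ball (0:ℂ) 1)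
    (hy' : y' ∈ Metric.ball (0:ℂ) 1) (hd : ‖y - y'‖ ≤ κ * ww α C₁ Q₁ g y ^ (-(1/α))) :
    ww α C₁ Q₁ g y' ≤ A * ww α C₁ Q₁ g y := by
  by_contra hcon
  push Not at hcon
  have hw := h.ww_ge y
  have hA := h.hA
  have h1 : 1 < ww α C₁ Q₁ g y' := by nlinarith
  have h2 : ww α C₁ Q₁ g y' = -Real.log (NN α C₁ Q₁ g y') := by
    unfold ww at h1 ⊢
    rcases max_cases 1 (-Real.log (NN α C₁ Q₁ g y')) with h3 | h3
    · rw [h3.1] at h1; exact absurd h1 (lt_irrefl _)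
    · exact h3.1
  have h3 : NN α C₁ Q₁ g y' ≤ Real.exp (-A * ww α C₁ Q₁ g y) := by
    rw [← Real.exp_log (h.NN_pos hy')]
    apply Real.exp_le_exp.2
    linarith
  have h4 := h.tr (ww α C₁ Q₁ g y) hw y hy y' hy' hd (fun j =>
    (h.le_NN hy' j).trans (mul_le_mul_of_nonneg_left h3 (h.Mpos j).le))
  have h5 := h.NN_le h4
  have h6 := h.exp_le_NN hy
  have h7 := Real.exp_le_exp.1 (h6.trans h5)
  linarith

theorem tm_nonneg (z : ℂ) {y : ℂ} (hy : y ∈ Metric.ball (0:ℂ) 1) : 0 ≤ tm α C₁ Q₁ g z y := by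
  have h1 : ‖y‖ < 1 := mem_ball_zero_iff.1 hy
  have h2 := le_max_right (ww α C₁ Q₁ g y ^ (-(1/α))) (1 - ‖y‖)
  have h3 := norm_nonneg (z - y)
  unfold tm
  linarith

theorem ph_le (z : ℂ) {y : ℂ} (hy : y ∈ Metric.ball (0:ℂ) 1) :
    ph α C₁ Q₁ g z ≤ tm α C₁ Q₁ g z y :=
  ciInf_le (f := fun y : Metric.ball (0:ℂ) 1 => tm α C₁ Q₁ g z y)
    ⟨0, by rintro _ ⟨y, rfl⟩; exact tm_nonneg z y.2⟩ ⟨y, hy⟩

instance : Nonempty (Metric.ball (0:ℂ) 1) := ⟨⟨0, by simp⟩⟩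

theorem le_ph {z : ℂ} {t : ℝ} (h : ∀ y ∈ Metric.ball (0:ℂ) 1, t ≤ tm α C₁ Q₁ g z y) :
    t ≤ ph α C₁ Q₁ g z := le_ciInf fun y => h y y.2

theorem ph_lip : LipschitzWith 1 (ph α C₁ Q₁ g) := by
  apply LipschitzWith.of_le_add
  intro x y
  rw [← sub_le_iff_le_add]
  apply le_ph
  intro u hu
  have h1 := ph_le (α := α) (C₁ := C₁) (Q₁ := Q₁) (g := g) x hu
  unfold tm at h1 ⊢
  rw [dist_eq_norm]
  have h2 : ‖x - u‖ ≤ ‖x - y‖ + ‖y - u‖ := norm_sub_le_norm_sub_add_norm_sub x y u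
  linarith

theorem ph_ge (z : ℂ) : |1 - ‖z‖| ≤ ph α C₁ Q₁ g z := by
  apply le_ph
  intro y hy
  have h1 : ‖y‖ < 1 := mem_ball_zero_iff.1 hy
  have h2 := le_max_right (ww α C₁ Q₁ g y ^ (-(1/α))) (1 - ‖y‖)
  have h3 : ‖y‖ - ‖z‖ ≤ ‖z - y‖ := by
    rw [norm_sub_rev]; exact norm_sub_norm_le _ _
  have h4 : ‖z‖ - ‖y‖ ≤ ‖z - y‖ := norm_sub_norm_le _ _
  unfold tm
  rw [abs_le]
  constructor <;> linarith

theorem ph_nonneg (z : ℂ) : 0 ≤ ph α C₁ Q₁ g z := (abs_nonneg _).trans (ph_ge z)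

theorem Ctx.pw_le_one (h : Ctx α C Q C₁ Q₁ A κ g) (y : ℂ) : ww α C₁ Q₁ g y ^ (-(1/α)) ≤ 1 := by
  apply Real.rpow_le_one_of_one_le_of_nonpos (h.ww_ge y)
  have := h.a0
  rw [neg_nonpos]
  positivity

theorem nb {z : ℂ} (hz : ‖z‖ = 1) : (𝓝[Metric.ball (0:ℂ) 1] z).NeBot := by
  rw [← mem_closure_iff_nhdsWithin_neBot, closure_ball (0:ℂ) one_ne_zero, mem_closedBall_zero_iff]
  exact hz.le

theorem tend_norm (z : ℂ) : Tendsto (fun y : ℂ => ‖z - y‖) (𝓝[Metric.ball (0:ℂ) 1] z) (𝓝 0) := by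
  have h1 : Continuous (fun y : ℂ => ‖z - y‖) := by fun_prop
  have h2 := (h1.tendsto z).mono_left (nhdsWithin_le_nhds (s := Metric.ball (0:ℂ) 1))
  rwa [sub_self, norm_zero] at h2

theorem tend_norm' {z : ℂ} (hz : ‖z‖ = 1) :
    Tendsto (fun y : ℂ => 1 - ‖y‖) (𝓝[Metric.ball (0:ℂ) 1] z) (𝓝 0) := by
  have h1 : Continuous (fun y : ℂ => 1 - ‖y‖) := by fun_prop
  have h2 := (h1.tendsto z).mono_left (nhdsWithin_le_nhds (s := Metric.ball (0:ℂ) 1))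
  rwa [hz, sub_self] at h2

theorem Ctx.ph_le_one (h : Ctx α C Q C₁ Q₁ A κ g) {z : ℂ} (hz : ‖z‖ = 1) : ph α C₁ Q₁ g z ≤ 1 := by
  have := nb hz
  have h1 := (tendsto_const_nhds (x := (1:ℝ)) (f := 𝓝[Metric.ball (0:ℂ) 1] z)).add (tend_norm z)
  rw [add_zero] at h1
  refine ge_of_tendsto h1 ?_
  filter_upwards [self_mem_nhdsWithin] with y hy
  refine (ph_le z hy).trans ?_
  unfold tm
  have h3 : ‖y‖ < 1 := mem_ball_zero_iff.1 hy
  have h4 := norm_nonneg y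
  have h5 : max (ww α C₁ Q₁ g y ^ (-(1/α))) (1 - ‖y‖) ≤ 1 := max_le (h.pw_le_one y) (by linarith)
  linarith

/-- lower bound of `φ` in the disc -/
theorem Ctx.ph_lower (h : Ctx α C Q C₁ Q₁ A κ g) {y : ℂ} (hy : y ∈ Metric.ball (0:ℂ) 1) :
    min κ (A ^ (-(1/α))) * ww α C₁ Q₁ g y ^ (-(1/α)) ≤ ph α C₁ Q₁ g y := by
  apply le_ph
  intro y' hy'
  have hw := h.ww_ge y
  have hw' := h.ww_ge y'
  have hv : 0 < ww α C₁ Q₁ g y ^ (-(1/α)) := Real.rpow_pos_of_pos (by linarith) _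
  have hm : 0 ≤ max (ww α C₁ Q₁ g y' ^ (-(1/α))) (1 - ‖y'‖) :=
    le_trans (Real.rpow_nonneg (by linarith) _) (le_max_left _ _)
  have hn := norm_nonneg (y - y')
  unfold tm
  by_cases hd : ‖y - y'‖ ≤ κ * ww α C₁ Q₁ g y ^ (-(1/α))
  · have h1 := h.slow hy hy' hd
    have h2 : (A * ww α C₁ Q₁ g y) ^ (-(1/α)) ≤ ww α C₁ Q₁ g y' ^ (-(1/α)) := by
      apply Real.rpow_le_rpow_of_nonpos (by linarith) h1
      have := h.a0
      rw [neg_nonpos]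
      positivity
    rw [Real.mul_rpow (by linarith [h.hA]) (by linarith)] at h2
    have h3 : min κ (A ^ (-(1/α))) * ww α C₁ Q₁ g y ^ (-(1/α)) ≤
        A ^ (-(1/α)) * ww α C₁ Q₁ g y ^ (-(1/α)) :=
      mul_le_mul_of_nonneg_right (min_le_right _ _) hv.le
    have h4 := le_max_left (ww α C₁ Q₁ g y' ^ (-(1/α))) (1 - ‖y'‖)
    linarith
  · push Not at hd
    have h3 : min κ (A ^ (-(1/α))) * ww α C₁ Q₁ g y ^ (-(1/α)) ≤
        κ * ww α C₁ Q₁ g y ^ (-(1/α)) :=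
      mul_le_mul_of_nonneg_right (min_le_left _ _) hv.le
    linarith

theorem Ctx.cpos (h : Ctx α C Q C₁ Q₁ A κ g) : 0 < min κ (A ^ (-(1/α))) :=
  lt_min h.hκ (Real.rpow_pos_of_pos (by linarith [h.hA]) _)

end basics

section part2

variable {α C Q C₁ Q₁ A κ : ℝ} {g : ℂ → ℂ}

theorem Mj_zero : Mj α C₁ Q₁ 0 = C₁ := by
  unfold Mj
  simp

theorem Ctx.g_le (h : Ctx α C Q C₁ Q₁ A κ g) {y : ℂ} (hy : y ∈ Metric.ball (0:ℂ) 1) :
    ‖g y‖ ≤ C₁ * NN α C₁ Q₁ g y := by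
  have h1 := h.le_NN hy 0
  rw [Mj_zero, iteratedDeriv_zero] at h1
  exact h1

theorem Ctx.g_le' (h : Ctx α C Q C₁ Q₁ A κ g) {y : ℂ} (hy : y ∈ Metric.ball (0:ℂ) 1) :
    ‖g y‖ ≤ C₁ := by
  refine (h.g_le hy).trans ?_
  exact mul_le_of_le_one_right h.hC1.le (h.NN_le_one hy)

theorem Ctx.ww_le (h : Ctx α C Q C₁ Q₁ A κ g) {y : ℂ} (hy : y ∈ Metric.ball (0:ℂ) 1)
    (hgy : g y ≠ 0) : ww α C₁ Q₁ g y ≤ max 1 (Real.log (C₁ / ‖g y‖)) := by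
  unfold ww
  refine max_le_max le_rfl ?_
  have h1 := h.g_le hy
  have hn : 0 < ‖g y‖ := norm_pos_iff.2 hgy
  have h2 : (C₁ / ‖g y‖)⁻¹ ≤ NN α C₁ Q₁ g y := by
    rw [inv_div, div_le_iff₀' h.hC1]
    exact h1
  have h3 : 0 < (C₁ / ‖g y‖)⁻¹ := by
    have := h.hC1
    positivity
  have h4 := Real.log_le_log h3 h2
  rw [Real.log_inv] at h4
  linarith

theorem pow_trans {c X f α : ℝ} (hα : 0 < α) (hc : 0 < c) (hX : 0 < X)
    (h : c * X ^ (-(1/α)) ≤ f) : f ^ (-α) ≤ c ^ (-α) * X := by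
  have h1 : 0 < X ^ (-(1/α)) := Real.rpow_pos_of_pos hX _
  have h2 := Real.rpow_le_rpow_of_nonpos (mul_pos hc h1) h (neg_nonpos.2 hα.le)
  rw [Real.mul_rpow hc.le h1.le, ← Real.rpow_mul hX.le] at h2
  have h3 : -(1/α) * -α = 1 := by field_simp
  rw [h3, Real.rpow_one] at h2
  exact h2

/-- final decay estimate -/
theorem Ctx.decay (h : Ctx α C Q C₁ Q₁ A κ g) {y : ℂ} (hy : y ∈ Metric.ball (0:ℂ) 1) (j : ℕ) :
    ‖iteratedDeriv j g y‖ ≤ (Real.exp 1 * C₁) * Q₁ ^ j * (j.factorial : ℝ) *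
      (j : ℝ) ^ ((j : ℝ) / α) *
      Real.exp (-((min κ (A ^ (-(1/α)))) ^ α) * (ph α C₁ Q₁ g y) ^ (-α)) := by
  have hw := h.ww_ge y
  have h1 := pow_trans h.a0 h.cpos (by linarith) (h.ph_lower hy)
  have hc := h.cpos
  set c := min κ (A ^ (-(1/α))) with hcdef
  have h2 : c ^ α * (ph α C₁ Q₁ g y) ^ (-α) ≤ ww α C₁ Q₁ g y := by
    have h3 := mul_le_mul_of_nonneg_left h1 (Real.rpow_nonneg hc.le α)
    rw [← mul_assoc, ← Real.rpow_add hc, add_neg_cancel, Real.rpow_zero, one_mul] at h3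
    exact h3
  have h4 : Real.exp (-ww α C₁ Q₁ g y) ≤ Real.exp (-(c ^ α) * (ph α C₁ Q₁ g y) ^ (-α)) := by
    apply Real.exp_le_exp.2
    linarith
  calc ‖iteratedDeriv j g y‖ ≤ Mj α C₁ Q₁ j * NN α C₁ Q₁ g y := h.le_NN hy j
    _ ≤ Mj α C₁ Q₁ j * (Real.exp 1 * Real.exp (-(c ^ α) * (ph α C₁ Q₁ g y) ^ (-α))) := by
        apply mul_le_mul_of_nonneg_left _ (h.Mpos j).le
        exact (h.NN_le_exp hy).trans (mul_le_mul_of_nonneg_left h4 (Real.exp_pos _).le)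
    _ = _ := by unfold Mj; ring

/-- the zero set -/
theorem Ctx.zero_set (h : Ctx α C Q C₁ Q₁ A κ g) {z : ℂ} (hz : ‖z‖ = 1)
    (hlim : ∀ j : ℕ, Tendsto (iteratedDeriv j g) (𝓝[Metric.ball 0 1] z) (𝓝 0)) :
    ph α C₁ Q₁ g z = 0 := by
  have := nb hz
  have hball : ∀ᶠ y in 𝓝[Metric.ball (0:ℂ) 1] z, y ∈ Metric.ball (0:ℂ) 1 := self_mem_nhdsWithin
  have hN : Tendsto (NN α C₁ Q₁ g) (𝓝[Metric.ball (0:ℂ) 1] z) (𝓝[>] 0) := by
    rw [tendsto_nhdsWithin_iff]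
    constructor
    · rw [Metric.tendsto_nhds]
      intro ε hε
      obtain ⟨J, hJ⟩ := exists_pow_lt_of_lt_one (half_pos hε) h.q_lt.2
      have hfin : ∀ᶠ y in 𝓝[Metric.ball (0:ℂ) 1] z, ∀ j ∈ Finset.range J,
          ‖iteratedDeriv j g y‖ ≤ Mj α C₁ Q₁ j * (ε / 2) := by
        rw [Filter.eventually_all_finset]
        intro j _
        have h1 := (hlim j).norm
        rw [norm_zero] at h1
        have h2 : 0 < Mj α C₁ Q₁ j * (ε / 2) := mul_pos (h.Mpos j) (half_pos hε)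
        filter_upwards [h1.eventually (gt_mem_nhds h2)] with y hy using hy.le
      filter_upwards [hfin, hball] with y hy hyb
      have h3 : NN α C₁ Q₁ g y ≤ ε / 2 := by
        apply h.NN_le
        intro j
        by_cases hj : j < J
        · exact hy j (Finset.mem_range.2 hj)
        · refine (h.gb_le hyb j).trans ?_
          apply mul_le_mul_of_nonneg_left _ (h.Mpos j).le
          refine le_trans ?_ hJ.le
          exact pow_le_pow_of_le_one h.q_lt.1.le h.q_lt.2.le (by omega)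
      rw [dist_zero_right, Real.norm_eq_abs, abs_of_pos (h.NN_pos hyb)]
      linarith
    · filter_upwards [hball] with y hyb using h.NN_pos hyb
  have hlog := Real.tendsto_log_nhdsGT_zero.comp hN
  have hlog' := tendsto_neg_atBot_atTop.comp hlog
  have hww : Tendsto (ww α C₁ Q₁ g) (𝓝[Metric.ball (0:ℂ) 1] z) atTop := by
    refine tendsto_atTop_mono (fun y => ?_) hlog'
    exact le_max_right _ _
  have hpw : Tendsto (fun y => ww α C₁ Q₁ g y ^ (-(1/α))) (𝓝[Metric.ball (0:ℂ) 1] z) (𝓝 0) :=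
    (tendsto_rpow_neg_atTop (one_div_pos.2 h.a0)).comp hww
  have htm : Tendsto (tm α C₁ Q₁ g z) (𝓝[Metric.ball (0:ℂ) 1] z) (𝓝 (max 0 0 + 0)) :=
    (hpw.max (tend_norm' hz)).add (tend_norm z)
  rw [max_self, add_zero] at htm
  refine le_antisymm ?_ (ph_nonneg z)
  refine ge_of_tendsto htm ?_
  filter_upwards [hball] with y hy using ph_le z hy

/-- bound on the circle -/
theorem Ctx.ph_circle (h : Ctx α C Q C₁ Q₁ A κ g) {z : ℂ} (hz : ‖z‖ = 1) {G : ℂ → ℂ}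
    (hG : ContinuousOn G (Metric.closedBall 0 1))
    (hGg : ∀ y ∈ Metric.ball (0:ℂ) 1, G y = g y) (hGz : G z ≠ 0) :
    min κ (A ^ (-(1/α))) * (max 1 (Real.log (C₁ / ‖G z‖))) ^ (-(1/α)) ≤ ph α C₁ Q₁ g z := by
  have := nb hz
  have hball : ∀ᶠ y in 𝓝[Metric.ball (0:ℂ) 1] z, y ∈ Metric.ball (0:ℂ) 1 := self_mem_nhdsWithin
  have hzc : z ∈ Metric.closedBall (0:ℂ) 1 := by rw [mem_closedBall_zero_iff]; exact hz.le
  have hGt : Tendsto G (𝓝[Metric.ball (0:ℂ) 1] z) (𝓝 (G z)) :=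
    (hG z hzc).mono_left (nhdsWithin_mono _ Metric.ball_subset_closedBall)
  have hC1 := h.hC1
  have hn : ‖G z‖ ≠ 0 := norm_ne_zero_iff.2 hGz
  have t1 : Tendsto (fun y => C₁ / ‖G y‖) (𝓝[Metric.ball (0:ℂ) 1] z) (𝓝 (C₁ / ‖G z‖)) :=
    tendsto_const_nhds.div hGt.norm hn
  have t2 : Tendsto (fun y => max 1 (Real.log (C₁ / ‖G y‖))) (𝓝[Metric.ball (0:ℂ) 1] z)
      (𝓝 (max 1 (Real.log (C₁ / ‖G z‖)))) :=
    tendsto_const_nhds.max (t1.log (div_ne_zero hC1.ne' hn))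
  have t3 : Tendsto (fun y => min κ (A ^ (-(1/α))) *
      (max 1 (Real.log (C₁ / ‖G y‖))) ^ (-(1/α))) (𝓝[Metric.ball (0:ℂ) 1] z)
      (𝓝 (min κ (A ^ (-(1/α))) * (max 1 (Real.log (C₁ / ‖G z‖))) ^ (-(1/α)))) := by
    refine Tendsto.const_mul _ (t2.rpow_const (Or.inl ?_))
    have := le_max_left 1 (Real.log (C₁ / ‖G z‖))
    linarith
  have t4 : Tendsto (ph α C₁ Q₁ g) (𝓝[Metric.ball (0:ℂ) 1] z) (𝓝 (ph α C₁ Q₁ g z)) :=
    (ph_lip.continuous.tendsto z).mono_left nhdsWithin_le_nhds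
  refine le_of_tendsto_of_tendsto t3 t4 ?_
  filter_upwards [hball, hGt.eventually_ne hGz] with y hy hGy
  refine le_trans ?_ (h.ph_lower hy)
  apply mul_le_mul_of_nonneg_left _ h.cpos.le
  have hgy : g y ≠ 0 := by rw [← hGg y hy]; exact hGy
  rw [hGg y hy]
  apply Real.rpow_le_rpow_of_nonpos (by linarith [h.ww_ge y]) (h.ww_le hy hgy)
  rw [neg_nonpos]
  exact (one_div_pos.2 h.a0).le

theorem norm_le_circle {G : ℂ → ℂ} {B : ℝ}
    (hG : ContinuousOn G (Metric.closedBall 0 1))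
    (hB : ∀ y ∈ Metric.ball (0:ℂ) 1, ‖G y‖ ≤ B) {z : ℂ} (hz : ‖z‖ ≤ 1) : ‖G z‖ ≤ B := by
  rcases hz.lt_or_eq with h1 | h1
  · exact hB z (mem_ball_zero_iff.2 h1)
  · have := nb h1
    have hzc : z ∈ Metric.closedBall (0:ℂ) 1 := by rw [mem_closedBall_zero_iff]; exact hz
    have hGt : Tendsto G (𝓝[Metric.ball (0:ℂ) 1] z) (𝓝 (G z)) :=
      (hG z hzc).mono_left (nhdsWithin_mono _ Metric.ball_subset_closedBall)
    refine le_of_tendsto hGt.norm ?_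
    filter_upwards [self_mem_nhdsWithin] with y hy using hB y hy

theorem ae_circle : ∀ᵐ ζ ∂sg, ‖ζ‖ = 1 := by
  unfold sg
  rw [ae_map_iff]
  · refine Eventually.of_forall fun t => ?_
    rw [Complex.norm_exp_ofReal_mul_I]
  · exact (by fun_prop : Measurable fun t : ℝ => Complex.exp (t * Complex.I)).aemeasurable
  · exact measurableSet_eq_fun measurable_norm measurable_const

theorem ev_smul' (a : ℂ) (p : PowerSeries ℂ) (z : ℂ) : ev (a • p) z = a * ev p z := by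
  unfold ev
  rw [← tsum_mul_left]
  refine tsum_congr fun n => ?_
  rw [PowerSeries.coeff_smul, smul_eq_mul]
  ring

end part2

section part3

variable {α C Q C₁ Q₁ A κ : ℝ} {g : ℂ → ℂ}

theorem aux_exp {α s w : ℝ} (hα : 0 < α) (hs : 0 < s) (hw : 1 ≤ w) (j : ℕ) :
    Real.exp (-(s ^ (-α) * w / α)) ≤ (s * w ^ (-(1/α))) ^ j * (j:ℝ) ^ ((j:ℝ)/α) := by
  have hw0 : 0 < w := by linarith
  have hsα : 0 < s ^ (-α) := Real.rpow_pos_of_pos hs _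
  rcases Nat.eq_zero_or_pos j with rfl | hj
  · simp only [pow_zero, Nat.cast_zero, zero_div, Real.rpow_zero, mul_one]
    rw [Real.exp_le_one_iff, neg_nonpos]
    positivity
  · have hj' : (0:ℝ) < j := by exact_mod_cast hj
    have e1 : s * w ^ (-(1/α)) = Real.exp (Real.log s - (1/α) * Real.log w) := by
      rw [sub_eq_add_neg, Real.exp_add, Real.exp_log hs, Real.rpow_def_of_pos hw0]
      congr 2
      ring
    have e2 : (s * w ^ (-(1/α))) ^ j * (j:ℝ) ^ ((j:ℝ)/α) =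
        Real.exp (j * (Real.log s - (1/α) * Real.log w) + Real.log j * ((j:ℝ)/α)) := by
      rw [e1, Real.exp_add, Real.exp_nat_mul, Real.rpow_def_of_pos hj']
    rw [e2]
    apply Real.exp_le_exp.2
    have hX : 0 < s ^ (-α) * w / j := by positivity
    have h1 : Real.log (s ^ (-α) * w / j) ≤ s ^ (-α) * w / j := Real.log_le_self hX.le
    have h2 : Real.log (s ^ (-α) * w / j) = -α * Real.log s + Real.log w - Real.log j := by
      rw [Real.log_div (by positivity) hj'.ne', Real.log_mul hsα.ne' hw0.ne', Real.log_rpow hs]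
    rw [h2] at h1
    have h3 := mul_le_mul_of_nonneg_left h1 (by positivity : 0 ≤ (j:ℝ)/α)
    have h4 : (j:ℝ)/α * (s ^ (-α) * w / j) = s ^ (-α) * w / α := by field_simp
    have h5 : (j:ℝ)/α * (-α * Real.log s + Real.log w - Real.log j) =
        -(j * (Real.log s - (1/α) * Real.log w) + Real.log j * ((j:ℝ)/α)) := by
      field_simp
      ring
    rw [h4, h5] at h3
    linarith

/-- a point near the circle where `g` is not small -/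
theorem Ctx.exists_big (h : Ctx α C Q C₁ Q₁ A κ g) {z : ℂ} (hz : ‖z‖ = 1)
    (hf : 0 < ph α C₁ Q₁ g z) :
    ∃ z1 : ℂ, 1 - ‖z1‖ ≥ κ * ph α C₁ Q₁ g z / 4 ∧ ‖z1 - z‖ ≤ ph α C₁ Q₁ g z ∧
      Real.exp (-(A + (Q₁ * (κ/2)) ^ (-α) / α + |Real.log C₁|) *
        (ph α C₁ Q₁ g z / 2) ^ (-α)) < ‖g z1‖ := by
  have hf1 := h.ph_le_one hz
  set f := ph α C₁ Q₁ g z with hfdef
  have hκ := h.hκ
  have hκ1 := h.hκ1
  have ha := h.a0
  have hQ1 := h.hQ1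
  have hC1 := h.hC1
  set r : ℝ := κ / 2 * f with hr
  have hr0 : 0 < r := by positivity
  have hrf : r ≤ f / 2 := by rw [hr]; nlinarith
  have hr1 : r < 1 := by linarith
  set w0 : ℝ := (f / 2) ^ (-α) with hw0
  have hw01 : 1 ≤ w0 := by
    rw [hw0]
    exact Real.one_le_rpow_of_pos_of_le_one_of_nonpos (by positivity) (by linarith) (by linarith)
  have hw0inv : w0 ^ (-(1/α)) = f / 2 := by
    rw [hw0, ← Real.rpow_mul (by positivity)]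
    have : -α * -(1/α) = 1 := by field_simp
    rw [this, Real.rpow_one]
  have hnz : ∀ t : ℝ, 0 ≤ t → ‖(t : ℂ) * z‖ = t := by
    intro t ht
    rw [norm_mul, hz, mul_one, Complex.norm_real, Real.norm_eq_abs, abs_of_nonneg ht]
  have hdz : ∀ s t : ℝ, ‖(s : ℂ) * z - (t : ℂ) * z‖ = |s - t| := by
    intro s t
    rw [← sub_mul, norm_mul, hz, mul_one, ← Complex.ofReal_sub, Complex.norm_real, Real.norm_eq_abs]
  have hz1 : z = ((1:ℝ) : ℂ) * z := by simp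
  -- the point y0
  have hy0n : ‖((1 - r/2 : ℝ) : ℂ) * z‖ = 1 - r/2 := hnz _ (by linarith)
  have hy0 : ((1 - r/2 : ℝ) : ℂ) * z ∈ Metric.ball (0:ℂ) 1 := by
    rw [mem_ball_zero_iff, hy0n]; linarith
  have hzcn : ‖((1 - r : ℝ) : ℂ) * z‖ = 1 - r := hnz _ (by linarith)
  have hzc : ((1 - r : ℝ) : ℂ) * z ∈ Metric.ball (0:ℂ) 1 := by
    rw [mem_ball_zero_iff, hzcn]; linarith
  have hzy0 : ‖z - ((1 - r/2 : ℝ) : ℂ) * z‖ = r / 2 := by
    conv_lhs => rw [hz1]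
    rw [← mul_assoc, ← Complex.ofReal_mul, mul_one, hdz, abs_of_nonneg (by linarith)]
    ring
  have hwy0 : ww α C₁ Q₁ g (((1 - r/2 : ℝ) : ℂ) * z) ≤ w0 := by
    have h1 := ph_le (α := α) (C₁ := C₁) (Q₁ := Q₁) (g := g) z hy0
    unfold tm at h1
    rw [hzy0, hy0n, ← hfdef] at h1
    have hw1 := h.ww_ge (((1 - r/2 : ℝ) : ℂ) * z)
    have h2 : f / 2 ≤ ww α C₁ Q₁ g (((1 - r/2 : ℝ) : ℂ) * z) ^ (-(1/α)) := by
      by_contra hcon
      push Not at hcon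
      have h3 : max (ww α C₁ Q₁ g (((1 - r/2 : ℝ) : ℂ) * z) ^ (-(1/α))) (1 - (1 - r/2)) < f / 2 :=
        max_lt hcon (by linarith)
      linarith
    have h3 := Real.rpow_le_rpow_of_nonpos (by positivity) h2 (neg_nonpos.2 ha.le)
    rw [← Real.rpow_mul (by linarith)] at h3
    have h4 : -(1/α) * -α = 1 := by field_simp
    rw [h4, Real.rpow_one] at h3
    exact h3
  -- not all derivatives are small at zc
  have hnot : ¬ ∀ j : ℕ, ‖iteratedDeriv j g (((1 - r : ℝ) : ℂ) * z)‖ ≤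
      Mj α C₁ Q₁ j * Real.exp (-A * w0) := by
    intro hall
    have h1 := h.tr w0 hw01 _ hy0 _ hzc (by
      rw [hdz, hw0inv, abs_of_nonneg (by linarith)]
      rw [hr]
      nlinarith) hall
    have h2 := h.NN_le h1
    have h3 := h.exp_le_NN hy0
    have h4 := Real.exp_le_exp.1 (h3.trans h2)
    linarith
  -- Cauchy estimates
  have hR : 0 < r / 2 := by linarith
  have hcb : Metric.closedBall (((1 - r : ℝ) : ℂ) * z) (r/2) ⊆ Metric.ball (0:ℂ) 1 := by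
    intro x hx
    rw [Metric.mem_closedBall, dist_eq_norm] at hx
    rw [mem_ball_zero_iff]
    calc ‖x‖ = ‖(x - ((1 - r : ℝ) : ℂ) * z) + ((1 - r : ℝ) : ℂ) * z‖ := by ring_nf
      _ ≤ ‖x - ((1 - r : ℝ) : ℂ) * z‖ + ‖((1 - r : ℝ) : ℂ) * z‖ := norm_add_le _ _
      _ < 1 := by rw [hzcn]; linarith
  obtain ⟨z1, hz1m, hz1g⟩ : ∃ z1 ∈ Metric.sphere (((1 - r : ℝ) : ℂ) * z) (r/2),
      Real.exp (-(A + (Q₁ * (κ/2)) ^ (-α) / α + |Real.log C₁|) * w0) < ‖g z1‖ := by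
    by_contra hcon
    push Not at hcon
    apply hnot
    intro j
    have hdc : DiffContOnCl ℂ g (Metric.ball (((1 - r : ℝ) : ℂ) * z) (r/2)) := by
      apply DifferentiableOn.diffContOnCl
      rw [closure_ball _ hR.ne']
      exact h.hg.1.mono hcb
    refine (Complex.norm_iteratedDeriv_le_of_forall_mem_sphere_norm_le j hR hdc hcon).trans ?_
    rw [div_le_iff₀ (by positivity)]
    have hs : 0 < Q₁ * (κ/2) := by positivity
    have h1 := aux_exp ha hs hw01 j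
    have h2 : Q₁ * (κ/2) * w0 ^ (-(1/α)) = Q₁ * (r/2) := by
      rw [hw0inv, hr]; ring
    rw [h2] at h1
    have h3 : Real.exp (-|Real.log C₁| * w0) ≤ C₁ := by
      conv_rhs => rw [← Real.exp_log hC1]
      apply Real.exp_le_exp.2
      have h4 := neg_abs_le (Real.log C₁)
      have h5 := abs_nonneg (Real.log C₁)
      nlinarith
    have hjf : (0:ℝ) < (j.factorial : ℝ) := by exact_mod_cast j.factorial_pos
    have h6 : Real.exp (-(A + (Q₁ * (κ/2)) ^ (-α) / α + |Real.log C₁|) * w0) =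
        Real.exp (-|Real.log C₁| * w0) * Real.exp (-((Q₁ * (κ/2)) ^ (-α) * w0 / α)) *
          Real.exp (-A * w0) := by
      rw [← Real.exp_add, ← Real.exp_add]
      congr 1
      ring
    rw [h6]
    have h7 := rp_pos α j
    calc (j.factorial : ℝ) * (Real.exp (-|Real.log C₁| * w0) *
        Real.exp (-((Q₁ * (κ/2)) ^ (-α) * w0 / α)) * Real.exp (-A * w0))
        ≤ (j.factorial : ℝ) * (C₁ * ((Q₁ * (r/2)) ^ j * (j:ℝ) ^ ((j:ℝ)/α)) *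
          Real.exp (-A * w0)) := by gcongr
      _ = Mj α C₁ Q₁ j * Real.exp (-A * w0) * (r/2) ^ j := by
          unfold Mj
          rw [mul_pow]
          ring
  refine ⟨z1, ?_, ?_, hz1g⟩
  · rw [mem_sphere_iff_norm] at hz1m
    have h1 : ‖z1‖ ≤ r/2 + (1 - r) := by
      calc ‖z1‖ = ‖(z1 - ((1 - r : ℝ) : ℂ) * z) + ((1 - r : ℝ) : ℂ) * z‖ := by ring_nf
        _ ≤ ‖z1 - ((1 - r : ℝ) : ℂ) * z‖ + ‖((1 - r : ℝ) : ℂ) * z‖ := norm_add_le _ _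
        _ = r/2 + (1 - r) := by rw [hzcn, hz1m]
    have h2 : κ * f / 4 = r / 2 := by rw [hr]; ring
    rw [h2]
    linarith
  · rw [mem_sphere_iff_norm] at hz1m
    have h1 : ‖((1 - r : ℝ) : ℂ) * z - z‖ = r := by
      conv_lhs => rw [hz1]
      rw [← mul_assoc, ← Complex.ofReal_mul, mul_one, hdz, abs_sub_comm,
        abs_of_nonneg (by linarith)]
      ring
    calc ‖z1 - z‖ ≤ ‖z1 - ((1 - r : ℝ) : ℂ) * z‖ + ‖((1 - r : ℝ) : ℂ) * z - z‖ :=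
          norm_sub_le_norm_sub_add_norm_sub _ _ _
      _ = r/2 + r := by rw [h1, hz1m]
      _ ≤ f := by linarith

end part3

theorem weight_exists {α : ℝ} (h0 : 0 < α) (h1 : α < 1) {C Q : ℝ} {g : ℂ → ℂ} (hg : GB α C Q g)
    (hne : ∃ z ∈ Metric.ball (0:ℂ) 1, g z ≠ 0) :
    ∃ φ : ℂ → ℝ, LipschitzWith 1 φ ∧ (∀ z, |1 - ‖z‖| ≤ φ z) ∧ (∀ z, ‖z‖ = 1 → φ z ≤ 1) ∧
      (∀ z, ‖z‖ = 1 →
        (∀ j : ℕ, Tendsto (iteratedDeriv j g) (𝓝[Metric.ball 0 1] z) (𝓝 0)) → φ z = 0) ∧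
      sg {z | φ z = 0} = 0 ∧ Integrable (fun ζ => (φ ζ) ^ (-α)) sg ∧
      (∃ K : ℝ, ∀ z, ‖z‖ = 1 → 0 < φ z →
        ∫ ζ, (φ ζ) ^ (-α) / (‖z - ζ‖ + φ z + φ ζ) ^ 2 ∂sg ≤ K * (φ z) ^ (-α - 1)) ∧
      ∃ C' Q' c : ℝ, 0 < C' ∧ 0 < Q' ∧ 0 < c ∧ ∀ j : ℕ, ∀ z ∈ Metric.ball (0:ℂ) 1,
        ‖iteratedDeriv j g z‖ ≤ C' * Q' ^ j * (j.factorial : ℝ) * (j : ℝ) ^ ((j : ℝ) / α) *
          Real.exp (-c * (φ z) ^ (-α)) := by
  -- constants
  have hC : 0 < C := by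
    obtain ⟨z, hz, hgz⟩ := hne
    have h2 := hg.2 0 z hz
    simp only [iteratedDeriv_zero, pow_zero, mul_one, Nat.factorial_zero, Nat.cast_one,
      Nat.cast_zero, zero_div, Real.rpow_zero] at h2
    exact (norm_pos_iff.2 hgz).trans_le h2
  have hQ' : 0 < |Q| + 1 := by positivity
  have hg' : GB α C (|Q| + 1) g := by
    refine ⟨hg.1, fun n z hz => (hg.2 n z hz).trans ?_⟩
    have h2 : Q ^ n ≤ (|Q| + 1) ^ n := by
      calc Q ^ n ≤ |Q ^ n| := le_abs_self _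
        _ = |Q| ^ n := abs_pow _ _
        _ ≤ (|Q| + 1) ^ n := pow_le_pow_left₀ (abs_nonneg _) (by linarith) n
    have h3 := rp_pos α n
    gcongr
  obtain ⟨Q₁, C₁, A, κ, hQQ, hCC, hA, hκ, hκ1, htr⟩ := taylor_transfer h0 hC hQ'
  have h : Ctx α C (|Q| + 1) C₁ Q₁ A κ g :=
    ⟨h0, hg', hC, hCC, hQ', hQQ, hA, hκ, hκ1, hne, htr g hg'⟩
  have hC1 := h.hC1
  have hc := h.cpos
  set c := min κ (A ^ (-(1/α))) with hcdef
  -- the power series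
  obtain ⟨K0, c0, hK0, hc0, hfw⟩ := fw_of_gb h0 hQ'
  have hsum0 := FW.summable hc0.le (hfw C g hg').1
  have hG := ev_continuousOn hsum0
  have hGg : ∀ y ∈ Metric.ball (0:ℂ) 1, ev (ser g) y = g y := ev_ser hg.1
  have hGle : ∀ z : ℂ, ‖z‖ ≤ 1 → ‖ev (ser g) z‖ ≤ C₁ := fun z hz =>
    norm_le_circle hG (fun y hy => by rw [hGg y hy]; exact h.g_le' hy) hz
  obtain ⟨a, ha⟩ : ∃ a : ℝ, a = Real.exp (-1) / C₁ := ⟨_, rfl⟩
  have ha0 : 0 < a := by rw [ha]; positivity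
  obtain ⟨p, hpdef⟩ : ∃ p : PowerSeries ℂ, p = (a : ℂ) • ser g := ⟨_, rfl⟩
  have hpev : ∀ z, ev p z = (a : ℂ) * ev (ser g) z := fun z => by rw [hpdef, ev_smul']
  have hpn : ∀ z, ‖ev p z‖ = a * ‖ev (ser g) z‖ := fun z => by
    rw [hpev, norm_mul, Complex.norm_real, Real.norm_eq_abs, abs_of_pos ha0]
  have hp : Summable fun n => ‖PowerSeries.coeff n p‖ := by
    have := hsum0.mul_left a
    refine this.congr fun n => ?_
    rw [hpdef, PowerSeries.coeff_smul, smul_eq_mul, norm_mul, Complex.norm_real,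
      Real.norm_eq_abs, abs_of_pos ha0]
  have hpne : ∀ z, ev p z ≠ 0 ↔ ev (ser g) z ≠ 0 := by
    intro z
    rw [hpev, mul_ne_zero_iff]
    exact ⟨fun h => h.2, fun h => ⟨by exact_mod_cast ha0.ne', h⟩⟩
  have hb : ∀ z : ℂ, ‖z‖ ≤ 1 → ‖ev p z‖ ≤ 1 := by
    intro z hz
    rw [hpn]
    calc a * ‖ev (ser g) z‖ ≤ a * C₁ := mul_le_mul_of_nonneg_left (hGle z hz) ha0.le
      _ = Real.exp (-1) := by rw [ha]; field_simp
      _ ≤ 1 := by rw [Real.exp_le_one_iff]; norm_num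
  have hlog : ∀ z, ev (ser g) z ≠ 0 → Real.log (1 / ‖ev p z‖) =
      1 + Real.log (C₁ / ‖ev (ser g) z‖) := by
    intro z hz
    have hn : 0 < ‖ev (ser g) z‖ := norm_pos_iff.2 hz
    rw [hpn, one_div, Real.log_inv, Real.log_mul ha0.ne' hn.ne', ha,
      Real.log_div (Real.exp_pos _).ne' hC1.ne', Real.log_exp, Real.log_div hC1.ne' hn.ne']
    ring
  have hkey : ∀ ζ, ‖ζ‖ = 1 → ev p ζ ≠ 0 → (ph α C₁ Q₁ g ζ) ^ (-α) ≤
      c ^ (-α) * Real.log (1 / ‖ev p ζ‖) := by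
    intro ζ hζ hne'
    have hGne := (hpne ζ).1 hne'
    have hn : 0 < ‖ev (ser g) ζ‖ := norm_pos_iff.2 hGne
    have h2 := h.ph_circle hζ hG hGg hGne
    have h3 := le_max_left 1 (Real.log (C₁ / ‖ev (ser g) ζ‖))
    have h4 := pow_trans h0 hc (by linarith) h2
    refine h4.trans (mul_le_mul_of_nonneg_left ?_ (Real.rpow_nonneg hc.le _))
    rw [hlog ζ hGne]
    have h5 : 0 ≤ Real.log (C₁ / ‖ev (ser g) ζ‖) := by
      apply Real.log_nonneg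
      rw [one_le_div hn]
      exact hGle ζ hζ.le
    exact max_le (by linarith) (by linarith)
  obtain ⟨x0, hx0, hgx0⟩ := hne
  have hpx0 : ev p x0 ≠ 0 := (hpne x0).2 (by rw [hGg x0 hx0]; exact hgx0)
  obtain ⟨hL, hnull, -⟩ := poisson_log hp hb (mem_ball_zero_iff.1 hx0) hpx0
  have hae : ∀ᵐ ζ ∂sg, ‖ζ‖ = 1 ∧ ev p ζ ≠ 0 := by
    have h2 : ∀ᵐ ζ ∂sg, ev p ζ ≠ 0 := by
      rw [ae_iff]
      simpa using hnull
    filter_upwards [ae_circle, h2] with ζ h3 h4 using ⟨h3, h4⟩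
  have hphm : Measurable (ph α C₁ Q₁ g) := ph_lip.continuous.measurable
  have hmeas : AEStronglyMeasurable (fun ζ => (ph α C₁ Q₁ g ζ) ^ (-α)) sg :=
    (hphm.pow_const _).aestronglyMeasurable
  refine ⟨ph α C₁ Q₁ g, ph_lip, ph_ge, fun z hz => h.ph_le_one hz,
    fun z hz hlim => h.zero_set hz hlim, ?_, ?_, ?_, ?_⟩
  · -- null set
    refine measure_mono_null ?_ hnull
    intro z hz
    have hz' : ph α C₁ Q₁ g z = 0 := hz
    show ev p z = 0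
    by_contra hcon
    have h2 := ph_ge (α := α) (C₁ := C₁) (Q₁ := Q₁) (g := g) z
    rw [hz'] at h2
    have h3 : ‖z‖ = 1 := by
      have := abs_nonpos_iff.1 h2
      linarith
    have h4 := h.ph_circle h3 hG hGg ((hpne z).1 hcon)
    rw [hz'] at h4
    have h5 := le_max_left 1 (Real.log (C₁ / ‖ev (ser g) z‖))
    have h6 : 0 < (max 1 (Real.log (C₁ / ‖ev (ser g) z‖))) ^ (-(1/α)) :=
      Real.rpow_pos_of_pos (by linarith) _
    have h7 := mul_pos hc h6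
    linarith
  · -- integrability
    refine (hL.const_mul (c ^ (-α))).mono' hmeas ?_
    filter_upwards [hae] with ζ hζ
    rw [Real.norm_eq_abs, abs_of_nonneg (Real.rpow_nonneg (ph_nonneg ζ) _)]
    exact hkey ζ hζ.1 hζ.2
  · -- kernel
    refine ⟨c ^ (-α) * (4 / κ) * (2 * Real.pi *
      ((1 + |Real.log C₁| + (A + (Q₁ * (κ/2)) ^ (-α) / α + |Real.log C₁|)) *
        (2:ℝ)⁻¹ ^ (-α))), ?_⟩
    intro z hz hf
    obtain ⟨z1, hz1a, hz1b, hz1c⟩ := h.exists_big hz hf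
    have hf1 := h.ph_le_one hz
    obtain ⟨f, hfdef⟩ : ∃ f, f = ph α C₁ Q₁ g z := ⟨_, rfl⟩
    rw [← hfdef] at hz1a hz1b hz1c hf hf1 ⊢
    have hκf : 0 < κ * f / 4 := by positivity
    have hz1n : ‖z1‖ < 1 := by linarith
    have hz1ball : z1 ∈ Metric.ball (0:ℂ) 1 := mem_ball_zero_iff.2 hz1n
    have hgz1 : 0 < ‖g z1‖ := (Real.exp_pos _).trans hz1c
    have hGz1 : ev (ser g) z1 ≠ 0 := by
      rw [hGg z1 hz1ball]
      exact norm_pos_iff.1 hgz1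
    obtain ⟨-, -, hint⟩ := poisson_log hp hb hz1n ((hpne z1).2 hGz1)
    obtain ⟨A', hA'⟩ : ∃ A', A' = A + (Q₁ * (κ/2)) ^ (-α) / α + |Real.log C₁| := ⟨_, rfl⟩
    rw [← hA'] at hz1c ⊢
    have hA'0 : 0 ≤ A' := by
      rw [hA']
      have h2 : 0 ≤ (Q₁ * (κ/2)) ^ (-α) := Real.rpow_nonneg (by have := h.hQ1; positivity) _
      have h3 := abs_nonneg (Real.log C₁)
      positivity
    obtain ⟨w0, hw0⟩ : ∃ w0, w0 = (f / 2) ^ (-α) := ⟨_, rfl⟩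
    rw [← hw0] at hz1c
    have hw01 : 1 ≤ w0 := by
      rw [hw0]
      exact Real.one_le_rpow_of_pos_of_le_one_of_nonpos (by positivity) (by linarith) (by linarith)
    have hlogz1 : Real.log (1 / ‖ev p z1‖) ≤ (1 + |Real.log C₁| + A') * w0 := by
      rw [hlog z1 hGz1, hGg z1 hz1ball, Real.log_div hC1.ne' hgz1.ne']
      have h2 : -A' * w0 ≤ Real.log ‖g z1‖ := by
        rw [← Real.log_exp (-A' * w0)]
        exact Real.log_le_log (Real.exp_pos _) hz1c.le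
      have h3 := le_abs_self (Real.log C₁)
      have h4 := abs_nonneg (Real.log C₁)
      nlinarith
    -- the comparison of the kernels
    have hPint : Integrable (fun ζ => Real.log (1 / ‖ev p ζ‖) *
        ((1 - ‖z1‖ ^ 2) / ‖ζ - z1‖ ^ 2)) sg := by
      refine hL.mul_bdd (c := (1 - ‖z1‖ ^ 2) / (1 - ‖z1‖) ^ 2) ?_ ?_
      · exact (by fun_prop : Measurable fun ζ : ℂ =>
          (1 - ‖z1‖ ^ 2) / ‖ζ - z1‖ ^ 2).aestronglyMeasurable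
      · filter_upwards [ae_circle] with ζ hζ
        have h2 : 1 - ‖z1‖ ≤ ‖ζ - z1‖ := by
          rw [← hζ]; exact norm_sub_norm_le _ _
        have h3 : 0 < 1 - ‖z1‖ := by linarith
        have h4 : 0 ≤ 1 - ‖z1‖ ^ 2 := by nlinarith [norm_nonneg z1]
        rw [Real.norm_eq_abs, abs_of_nonneg (by positivity)]
        gcongr
    have hbound : ∀ᵐ ζ ∂sg, (ph α C₁ Q₁ g ζ) ^ (-α) /
        (‖z - ζ‖ + f + ph α C₁ Q₁ g ζ) ^ 2 ≤
        (c ^ (-α) * (4 / (κ * f))) * (Real.log (1 / ‖ev p ζ‖) *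
        ((1 - ‖z1‖ ^ 2) / ‖ζ - z1‖ ^ 2)) := by
      filter_upwards [hae] with ζ hζ
      have h2 := hkey ζ hζ.1 hζ.2
      have h3 : 0 < ‖ζ - z1‖ := by
        have : ‖ζ‖ - ‖z1‖ ≤ ‖ζ - z1‖ := norm_sub_norm_le _ _
        rw [hζ.1] at this
        linarith
      have hphζ := ph_nonneg (α := α) (C₁ := C₁) (Q₁ := Q₁) (g := g) ζ
      have h4 : ‖ζ - z1‖ ≤ ‖z - ζ‖ + f + ph α C₁ Q₁ g ζ := by
        have h5 : ‖ζ - z1‖ ≤ ‖ζ - z‖ + ‖z - z1‖ := norm_sub_le_norm_sub_add_norm_sub _ _ _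
        rw [norm_sub_rev ζ z, norm_sub_rev z z1] at h5
        linarith
      have h6 : 1 ≤ (4 / (κ * f)) * (1 - ‖z1‖ ^ 2) := by
        have h7 : κ * f / 4 ≤ 1 - ‖z1‖ ^ 2 := by nlinarith [norm_nonneg z1]
        have h8 : 0 < κ * f := by positivity
        calc (1:ℝ) = (4 / (κ * f)) * (κ * f / 4) := by field_simp
          _ ≤ _ := mul_le_mul_of_nonneg_left h7 (by positivity)
      have hphα : 0 ≤ (ph α C₁ Q₁ g ζ) ^ (-α) := Real.rpow_nonneg hphζ _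
      calc (ph α C₁ Q₁ g ζ) ^ (-α) / (‖z - ζ‖ + f + ph α C₁ Q₁ g ζ) ^ 2
          ≤ (ph α C₁ Q₁ g ζ) ^ (-α) / ‖ζ - z1‖ ^ 2 := by gcongr
        _ = 1 * ((ph α C₁ Q₁ g ζ) ^ (-α) / ‖ζ - z1‖ ^ 2) := (one_mul _).symm
        _ ≤ ((4 / (κ * f)) * (1 - ‖z1‖ ^ 2)) * ((ph α C₁ Q₁ g ζ) ^ (-α) / ‖ζ - z1‖ ^ 2) :=
            mul_le_mul_of_nonneg_right h6 (by positivity)
        _ = (4 / (κ * f)) * ((1 - ‖z1‖ ^ 2) / ‖ζ - z1‖ ^ 2) * (ph α C₁ Q₁ g ζ) ^ (-α) := by ring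
        _ ≤ (4 / (κ * f)) * ((1 - ‖z1‖ ^ 2) / ‖ζ - z1‖ ^ 2) *
            (c ^ (-α) * Real.log (1 / ‖ev p ζ‖)) := by
            apply mul_le_mul_of_nonneg_left h2
            have h9 : 0 ≤ 1 - ‖z1‖ ^ 2 := by nlinarith [norm_nonneg z1]
            positivity
        _ = _ := by ring
    have hmono := integral_mono_of_nonneg (μ := sg) (Eventually.of_forall fun ζ => by
      have hphζ := ph_nonneg (α := α) (C₁ := C₁) (Q₁ := Q₁) (g := g) ζ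
      show 0 ≤ (ph α C₁ Q₁ g ζ) ^ (-α) / (‖z - ζ‖ + f + ph α C₁ Q₁ g ζ) ^ 2
      exact div_nonneg (Real.rpow_nonneg hphζ _) (sq_nonneg _))
      (hPint.const_mul (c ^ (-α) * (4 / (κ * f)))) hbound
    refine hmono.trans ?_
    rw [integral_const_mul]
    have hcα : 0 < c ^ (-α) := Real.rpow_pos_of_pos hc _
    have h2 : ∫ ζ, Real.log (1 / ‖ev p ζ‖) * ((1 - ‖z1‖ ^ 2) / ‖ζ - z1‖ ^ 2) ∂sg ≤
        2 * Real.pi * ((1 + |Real.log C₁| + A') * w0) :=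
      hint.trans (mul_le_mul_of_nonneg_left hlogz1 (by positivity))
    refine (mul_le_mul_of_nonneg_left h2 (by positivity)).trans (le_of_eq ?_)
    have h3 : w0 = (2:ℝ)⁻¹ ^ (-α) * f ^ (-α) := by
      rw [hw0, div_eq_inv_mul, Real.mul_rpow (by norm_num) hf.le]
    have h4 : f ^ (-α - 1) = f ^ (-α) / f := by
      rw [Real.rpow_sub hf, Real.rpow_one]
    rw [h3, h4]
    field_simp
  · refine ⟨Real.exp 1 * C₁, Q₁, c ^ α, by positivity, h.hQ1, Real.rpow_pos_of_pos hc _, ?_⟩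
    intro j z hz
    exact h.decay hz j

end Pool.Agent.Helper203.GV
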