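import Pool.Agent.Helper203.GV.Alg
import Pool.Agent.Helper203.GV.Conv
import Pool.Agent.Helper203.GV.HfM
import Pool.Agent.Helper203.GV.Weight
import Pool.Agent.Helper203.GV.Second
import Pool.Agent.Helper203.GV.PLb
import Pool.Agent.Helper203.GV.Neu
import Pool.Agent.Helper203.GV.Collar
import Pool.Agent.Helper203.GV.Beur
import Pool.Agent.Helper203.GV.Pois
import Pool.Agent.Helper203.GV.Func
import Pool.Agent.Helper203.GV.Cont
import Pool.Agent.Helper203.GV.Prod
import Pool.Agent.Helper203.GV.Tay
import Pool.Agent.Helper203.GV.PLog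
import Pool.Agent.Helper203.GV.FK
import Pool.Agent.Helper203.GV.Misc1
import Pool.Agent.Helper203.GV.Misc2
import Pool.Agent.Helper203.GV.Area
import Pool.Agent.Helper203.GV.Ord
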